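import Pool.Agent.Lib.CC61.ADefs

open Finset Module

noncomputable section

namespace Pool.Agent.Lib.CC61

/-- The product respects admissibility, degrees and the multipliers. -/
def St_SH : Prop := ∀ l h : ℕ,
  (∀ (r r' : ℕ) (S S' : Fam l), S ∈ AdmU l r → S' ∈ AdmU l r' → sh h S S' ∈ AdmU l (r + r')) ∧
  (∀ (d d' : ℤ) (S S' : Fam l), S ∈ Hom l h d → S' ∈ Hom l h d' → sh h S S' ∈ Hom l h (d + d')) ∧
  (∀ (k : ℤ) (S S' : Fam l), PW k * sh h S S' = sh h (PW k * S) S' + sh h S (PW k * S')) ∧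
  (∀ (k : ℤ) (S S' : Fam l), TW k * sh h S S' = sh h (TW k * S) (TW k * S')) ∧
  (∀ (k : ℤ) (ν : Cl) (S : Fam l), S ∈ Adm l h ν →
    PW k * S ∈ Adm l h (ν.1, ν.2 + k) ∧ TW k * S ∈ Adm l h (twC k ν)) ∧
  (∀ (k : ℤ) (r : ℕ) (S : Fam l), S ∈ AdmU l r → PW k * S ∈ AdmU l r) ∧
  ∀ (r : ℕ) (Y : Finset (Fin l)) (x : ℂˣ) (D : Fam l), 0 < h → D ∈ DecU l h r →
    evP (fun _ => x) (D (oneY Y)) = 0

/-- Symmetrised components. -/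
def St_PURE : Prop := ∀ l h : ℕ,
  (∀ (γ : Fin l → ℕ) (P : LP l), (∀ m, P.coeff m ≠ 0 → ∀ a, γ a = 0 → m a = 0) →
    pure γ P ∈ AdmU l (∑ a, γ a)) ∧
  (∀ r, AdmU l r ≤ Submodule.span ℂ {T | ∃ (γ : Fin l → ℕ) (m : Fin l → ℤ), ∑ a, γ a = r ∧
    (∀ a, γ a = 0 → m a = 0) ∧ T = pure γ (zz m)}) ∧
  (∀ (γ : Fin l → ℕ) (σ : Equiv.Perm (Fin l)) (P : LP l), pure (γ ∘ σ) P = pure γ (ren σ P)) ∧
  (∀ (γ₁ γ₂ : Fin l → ℕ) (P₁ P₂ : LP l), sh h (pure γ₁ P₁) (pure γ₂ P₂) =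
    ∑ τ : Equiv.Perm (Fin l),
      pure (γ₁ + γ₂ ∘ τ.symm) (cross h γ₁ (γ₂ ∘ τ.symm) * (P₁ * ren τ P₂))) ∧
  (∀ (γ : Fin l → ℕ) (P : LP l) (U : Fam l),
    (∀ (σ : Equiv.Perm (Fin l)) δ, U δ = ren σ (U (δ ∘ σ))) → pure γ P * U = pure γ (P * U γ)) ∧
  ∀ (k : ℤ) (σ : Equiv.Perm (Fin l)) (δ : Fin l → ℕ), PW k δ = ren σ (PW k (δ ∘ σ))

/-- Homogeneous components. -/
def St_GR : Prop := ∀ l h : ℕ, ∃ hc : ℤ → Fam l →ₗ[ℂ] Fam l,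
  (∀ d S, hc d S ∈ Hom l h d) ∧ (∀ d S, S ∈ Hom l h d → hc d S = S) ∧
  (∀ d d' S, S ∈ Hom l h d' → d ≠ d' → hc d S = 0) ∧
  (∀ r d S, S ∈ AdmU l r → hc d S ∈ AdmU l r) ∧
  (∀ r S, S ∈ AdmU l r → ∃ I : Finset ℤ, S = ∑ d ∈ I, hc d S) ∧
  (∀ r d S, S ∈ DecU l h r → hc d S ∈ Dec l h (r, d)) ∧
  (∀ d k S, hc (d + k) (PW k * S) = PW k * hc d S) ∧
  ∀ (d : ℤ) (S : Fam l) (γ : Fin l → ℕ) (x : ℂˣ), S ∈ Hom l h d →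
    evP (fun _ => x) (S γ) = ((x ^ (d + dD h γ) : ℂˣ) : ℂ) * evP 1 (S γ)

/-- Numerators multiply. -/
def St_CONV : Prop := ∀ (h : ℕ) (X : Sys) (wb : X.Λ → List Cl → ℂ), AxB h X wb →
  ∀ (l : ℕ) V W (S S' : Fam l), IsNum h (wb V) S → IsNum h (wb W) S' →
    IsNum h (wb (X.add V W)) (sh h S S')

/-- Locality for two letters. -/
def St_LOC : Prop := ∀ (h : ℕ) (X : Sys) (wb : X.Λ → List Cl → ℂ), AxB h X wb →
  ∀ V, ∃ S : Fam 2, S ∈ AdmU 2 (X.cl V).1 ∧ IsNum h (wb V) S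

/-- Numerators exist and have uniformly finite support. -/
def St_NUM : Prop := ∀ (h : ℕ) (X : Sys) (wb : X.Λ → List Cl → ℂ), AxB h X wb → ∀ l : ℕ,
  (∀ V, ∃ S ∈ Adm l h (X.cl V), IsNum h (wb V) S) ∧
  ∀ (ν : Cl) (B : ℤ), ∃ Z : Finset ((Fin l → ℕ) × (Fin l → ℤ)), ∀ V (S : Fam l), X.cl V = ν →
    X.Box B V → IsNum h (wb V) S → ∀ γ m, (S γ).coeff m ≠ 0 → (γ, m) ∈ Z

/-- Hecke closure. -/
def St_HC : Prop := ∀ (h : ℕ) (X : Sys) (wb : X.Λ → List Cl → ℂ), AxB h X wb →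
  ∀ (l : ℕ) (S : X.Λ → Fam l), (∀ V, IsNum h (wb V) (S V)) → ∀ V (n : ℕ),
    TT h n * S V ∈ Submodule.span ℂ (S '' {G | (X.cl G).1 = (X.cl V).1})

/-- The oper does not vanish on the diagonal. -/
def St_NOP : Prop := ∀ (h : ℕ) (X : Sys) (wb : X.Λ → List Cl → ℂ), AxB h X wb →
  ∀ l r : ℕ, 0 < r → r ≤ l → ∃ V, (X.cl V).1 = r ∧ ∀ S ∈ Adm l h (X.cl V), IsNum h (wb V) S →
    evP 1 (S (oneY (Y0 l r))) ≠ 0

/-- The numerator system. -/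
def St_AXN : Prop := ∀ (h : ℕ) (X : Sys) (wb : X.Λ → List Cl → ℂ), AxB h X wb → ∀ l : ℕ,
  ∃ S : X.Λ → Fam l, (∀ V, IsNum h (wb V) (S V)) ∧ AxN h X S

/-- Augmented monomials from power sums. -/
def St_AUG : Prop := ∀ (A : Type) [CommRing A] [Algebra ℂ A] (ι : Type) [Fintype ι] [DecidableEq ι]
  (u : ι → ℤ → A) (M : AddSubmonoid ℤ) (B : Subalgebra ℂ A),
  (∀ a k k', u a (k + k') = u a k * u a k') → (∀ k ∈ M, ∑ a, u a k ∈ B) →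
  ∀ (j : ℕ) (s : Fin j → ℤ), (∀ i, s i ∈ M) → ∑ f : Fin j ↪ ι, ∏ i, u (f i) (s i) ∈ B

/-- Symmetric multipliers. -/
def St_MUL : Prop := ∀ (l h : ℕ) (W : Submodule ℂ (Fam l)), 0 < h →
  (∀ U ∈ W, ∀ n, TT h n * U ∈ W) → (∀ U ∈ W, ∀ k, TW k * U ∈ W) →
  ∀ (Y : Finset (Fin l)), ∀ U ∈ W,
    (∀ γ, U γ ≠ 0 → ∃ Y' : Finset (Fin l), Y'.card = Y.card ∧ γ = oneY Y') →
    ∀ f, pure (oneY Y) (prj Y f) * U ∈ W

/-- Reduction to the component of line bundles. -/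
def St_ST3 : Prop := ∀ (l h r : ℕ) (W : Submodule ℂ (Fam l)), r ≤ l → DecU l h r ≤ W →
  (∀ f, pure (oneY (Y0 l r)) (prj (Y0 l r) f) ∈ W) → AdmU l r ≤ W

/-- Nullstellensatz. -/
def St_NULL : Prop := ∀ (l h r : ℕ) (W : Submodule ℂ (Fam l)), 0 < r → r ≤ l → DecU l h r ≤ W →
  (∀ x : ℂˣ, ∃ P, evP (fun _ => x) (prj (Y0 l r) P) ≠ 0 ∧
    ∀ f, pure (oneY (Y0 l r)) (prj (Y0 l r) (f * P)) ∈ W) →
  ∀ f, pure (oneY (Y0 l r)) (prj (Y0 l r) f) ∈ W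

/-- Every admissible family is a combination of numerators. -/
def St_SURJ : Prop := ∀ (l h : ℕ) (X : Sys) (S : X.Λ → Fam l), AxN h X S →
  ∀ ν : Cl, 0 < ν.1 → ν.1 ≤ l →
    Submodule.span ℂ (S '' {V | X.cl V = ν}) = Adm l h ν ∧
    Submodule.span ℂ {T | ∃ V W, 0 < (X.cl V).1 ∧ 0 < (X.cl W).1 ∧ X.cl V + X.cl W = ν ∧
      T = S (X.add V W)} = Dec l h ν

/-- The first power sum is onto modulo products. -/
def St_PSUR : Prop := ∀ (l h r : ℕ) (d : ℤ), 0 < r → r ≤ l →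
  Adm l h (r, d) ≤ Dec l h (r, d) ⊔ (Adm l h (r, d + 1)).map (LinearMap.mulLeft ℂ (PW (-1)))

/-- Numerators see the same kernel and the same truncation. -/
def St_KER : Prop := ∀ (h : ℕ) (X : Sys) (wb : X.Λ → List Cl → ℂ), AxB h X wb →
  ∀ (l : ℕ) (S : X.Λ → Fam l), (∀ V, IsNum h (wb V) (S V)) → (∀ V, S V ∈ Adm l h (X.cl V)) →
  ∀ φ : X.Λ →₀ ℂ, (∀ V ∈ φ.support, (X.cl V).1 ≤ l) →
    (Finsupp.linearCombination ℂ S φ = 0 ↔ Finsupp.linearCombination ℂ wb φ = 0) ∧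
    (Finsupp.linearCombination ℂ S φ ∈ PosF l ↔ Finsupp.linearCombination ℂ wb φ ∈ Pos)

/-- Finite dimension. -/
def St_FIN : Prop := ∀ (h : ℕ) (X : Sys) (wb : X.Λ → List Cl → ℂ), AxB h X wb →
  ∀ ν : Cl, Module.Finite ℂ (PP X wb ν)

/-- Independence of the degree. -/
def St_INDEP : Prop := ∀ (h : ℕ) (X : Sys) (wb : X.Λ → List Cl → ℂ), AxB h X wb →
  ∀ (r : ℕ) (d d' : ℤ), 0 < r → finrank ℂ (PP X wb (r, d)) = finrank ℂ (PP X wb (r, d'))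

/-- The truncated algebra in terms of families. -/
def St_PLUS : Prop := ∀ (h : ℕ) (X : Sys) (wb : X.Λ → List Cl → ℂ), AxB h X wb →
  ∀ ν : Cl, 0 < ν.1 →
    Nonempty ((RR X wb ν ⊓ Pos : Submodule ℂ _) ≃ₗ[ℂ] (Adm ν.1 h ν ⊓ PosF ν.1 : Submodule ℂ _))

/-- Orbit count. -/
def St_CNT : Prop := ∀ (l h r : ℕ) (d : ℤ), r ≤ l → (CntS h r d).Finite →
  Nonempty ((Adm l h (r, d) ⊓ PosF l : Submodule ℂ _) ≃ₗ[ℂ] (CntS h r d → ℂ))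

/-- Newton primitives. -/
def St_PSI : Prop :=
  (∀ ν, Tc ν ≤ PrP (fun _ => True) ν) ∧
  (∀ ν : Cl, 0 < ν.1 → ν.2 ≤ 0 →
    sT ν ∈ PrP (fun L => L ≠ [] ∧ ∀ p ∈ L, 0 < p.1.1 ∧ p.2 ∈ Tm p.1) ν) ∧
  (∀ μ ν x y, x ∈ Pr μ → y ∈ Pr ν → x * y - y * x ∈ Pr (μ + ν)) ∧
  ∀ d : ℕ, 0 < d → ∃ ψ ∈ Pr (0, (d : ℤ)), ∀ e : List Cl → ℂ,
    (∀ w, w.sum = (0, (d : ℤ)) → (∀ x ∈ w, Val x) → e w = 1) → evT e ψ = 1

/-- Straightening. -/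
def St_STR : Prop := ∀ (X : Sys) (ws : X.Λ → List Cl → ℂ) (ι : Type) [LinearOrder ι]
  (cls : ι → Cl) (x : ι → TA) (mi : ι → Prop), AxS X ws → Bas X ws ι cls x mi →
  ∀ φ : X.Λ →₀ ℂ,
    ((∀ m, Finsupp.linearCombination ℂ (fun V => evT (ws V) (mon x m)) φ = 0) →
      Finsupp.linearCombination ℂ ws φ = 0) ∧
    ((∀ m, (∃ i ∈ m, mi i) → Finsupp.linearCombination ℂ (fun V => evT (ws V) (mon x m)) φ = 0) ↔
      Finsupp.linearCombination ℂ ws φ ∈ Pos)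

/-- An ordered basis exists. -/
def St_TH1 : Prop := ∀ (X : Sys) (ws : X.Λ → List Cl → ℂ), AxS X ws →
  (∀ ν : Cl, 0 < ν.1 → Module.Finite ℂ (PP X ws ν)) →
  ∃ (ι : Type) (_ : LinearOrder ι) (cls : ι → Cl) (x : ι → TA) (mi : ι → Prop),
    Bas X ws ι cls x mi

open Classical in
/-- Local finiteness and dual elements. -/
def St_LEIB : Prop := ∀ (X : Sys) (ws : X.Λ → List Cl → ℂ) (ι : Type) [LinearOrder ι]
  (cls : ι → Cl) (x : ι → TA) (mi : ι → Prop), AxS X ws → Bas X ws ι cls x mi →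
  (∀ V, {m | evT (ws V) (mon x m) ≠ 0}.Finite) ∧
  (∀ V m, evT (ws V) (mon x m) ≠ 0 → (m.map cls).sum = X.cl V) ∧
  ∀ m : Multiset ι, m ≠ 0 → ∃ φ : X.Λ →₀ ℂ,
    (∀ V ∈ φ.support, X.cl V = (m.map cls).sum ∧ (2 ≤ m.card →
      ∃ V₁ V₂, 0 < (X.cl V₁).1 ∧ 0 < (X.cl V₂).1 ∧ V = X.add V₁ V₂)) ∧
    ∀ m', Finsupp.linearCombination ℂ (fun V => evT (ws V) (mon x m')) φ = if m' = m then 1 else 0

/-- The two consequences of the basis theorem. -/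
def St_TH3 : Prop := ∀ (X : Sys) (ws : X.Λ → List Cl → ℂ) (ι : Type) [LinearOrder ι]
  (cls : ι → Cl) (x : ι → TA) (mi : ι → Prop), AxS X ws → Bas X ws ι cls x mi →
  ∀ ν : Cl, 0 < ν.1 →
    PP X ws ν = Submodule.span ℂ ((fun i V => evT (ws V) (x i)) '' {i | cls i = ν}) ∧
    Nonempty ((RR X ws ν ⊓ Pos : Submodule ℂ _) ≃ₗ[ℂ]
      (WtS (fun i : {i // ¬ mi i} => cls i) ν →₀ ℂ))

/-- Generating series of the multisets. -/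
def St_GF1 : Prop := ∀ (h n : ℕ) (d : ℤ),
  (CntS h n d).Finite ∧ (GS h n).coeff d = (CntS h n d).ncard

/-- Logarithmic derivative of a multiset count. -/
def St_GF2 : Prop := ∀ (ι : Type) (cls : ι → Cl) (H : ℕ → LaurentSeries ℂ)
  (α : ℕ → ℕ → LaurentSeries ℂ), (∀ i, 0 < (cls i).1) → (∀ ν, (WtS cls ν).Finite) →
  (∀ n d, (H n).coeff d = (WtS cls (n, d)).ncard) →
  (∀ (r j : ℕ) (e : ℤ), 0 < j → (α r j).coeff e = {i | (cls i).1 = r ∧ j * (cls i).2 = e}.ncard) →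
  ∀ n : ℕ, (n : ℂ) • H n =
    ∑ p ∈ Icc 1 n ×ˢ Icc 1 n with p.1 * p.2 ≤ n, (p.1 : ℂ) • (α p.1 p.2 * H (n - p.1 * p.2))

/-- The recurrence between rational functions. -/
def Rec (g : ℕ) (P : ℕ → ℤ →₀ ℂ) (a : ℕ → ℂ) : Prop := ∀ n : ℕ,
  (n : RatFunc ℂ) * PowerSeries.coeff n (genS g RatFunc.X) =
    ∑ p ∈ Icc 1 n ×ˢ Icc 1 n with p.1 * p.2 ≤ n, (p.1 : RatFunc ℂ) *
      (bet (P p.1) (a p.1) (RatFunc.X ^ p.2) *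
        PowerSeries.coeff (n - p.1 * p.2) (genS g RatFunc.X))

/-- From Laurent series to rational functions. -/
def St_GF3 : Prop := ∀ (h : ℕ) (ι : Type) (cls : ι → Cl) (a : ℕ → ℕ), (∀ i, 0 < (cls i).1) →
  (∀ (r : ℕ) (d : ℤ), 0 < r →
    (WtS cls (r, d)).Finite ∧ (WtS cls (r, d)).ncard = (CntS h r d).ncard) →
  (∀ (r : ℕ) (d : ℤ), 0 < r → 0 < d → {i | cls i = (r, d)}.ncard = a r) →
  ∃ P : ℕ → ℤ →₀ ℂ, Rec (h + 1) P fun r => a r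

/-- Logarithm and inversion. -/
def St_GF4 : Prop := ∀ (g : ℕ) (P : ℕ → ℤ →₀ ℂ) (a : ℕ → ℂ), Rec g P a →
  ∀ r, 0 < r → A0r g r = -bet (P r) (a r) RatFunc.X

/-- Residues. -/
def St_GF5 : Prop := ∀ (g r : ℕ) (d : ℤ) (P : ℤ →₀ ℂ) (a : ℂ), 0 < r →
  A0r g r = -bet P a RatFunc.X → A0 g r d = a

/-- The algebraic half of the theorem. -/
def St_ALG : Prop := ∀ (h : ℕ) (X : Sys) (wb ws : X.Λ → List Cl → ℂ), AxB h X wb → AxS X ws →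
  Tr X wb ws → ∀ (r : ℕ) (d : ℤ), 0 < r → ∃ (n : ℕ) (y : Fin n → TA), (∀ i, y i ∈ Pr (r, d)) ∧
    LinearIndependent ℂ (fun i V => evT (ws V) (y i)) ∧
    PP X ws (r, d) = Submodule.span ℂ (Set.range fun i V => evT (ws V) (y i)) ∧
    (n : ℂ) = A0 (h + 1) r d

end Pool.Agent.Lib.CC61
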