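import Pool.Agent.Lib.CC61.SDefs

open Finset
open scoped TensorProduct

noncomputable section

namespace Pool.Agent.Lib.CC61

/-- Classes (rank, degree). -/
abbrev Cl : Type := ℕ × ℤ

/-- Coefficient of `t^n` in `(1 - t)^(2 h r)`. -/
def cc (h r n : ℕ) : ℂ := (-1) ^ n * ((2 * h * r).choose n : ℂ)

/-- Twist of a class. -/
def twC (k : ℤ) (ν : Cl) : Cl := (ν.1, ν.2 + k * ν.1)

/-- Hecke shift of a function on words. -/
def hkW (h n : ℕ) {l : ℕ} (e : List Cl → ℂ) (w : Fin l → Cl) : ℂ :=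
  ∑ j ∈ Finset.Nat.antidiagonalTuple l n,
    (∏ a, cc h (w a).1 (j a)) * e (List.ofFn fun a => ((w a).1, (w a).2 + j a))

/-- An abstract family of bundles with direct sum and boundedness data. -/
structure Sys where
  Λ : Type
  cl : Λ → Cl
  add : Λ → Λ → Λ
  Box : ℤ → Λ → Prop

/-- Axioms shared by both kinds of words. -/
structure AxW (X : Sys) (e : X.Λ → List Cl → ℂ) : Prop where
  cl_add : ∀ V W, X.cl (X.add V W) = X.cl V + X.cl W
  box_ex : ∀ V, ∃ B, X.Box B V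
  box_mono : ∀ {B B' V}, B ≤ B' → X.Box B V → X.Box B' V
  box_deg : ∀ {B V}, X.Box B V → -B ≤ (X.cl V).2
  supp : ∀ {V w}, e V w ≠ 0 → w.sum = X.cl V
  nil0 : ∀ V u v, e V (u ++ 0 :: v) = e V (u ++ v)
  tail : ∀ {B V u v}, X.Box B V → e V (u ++ v) ≠ 0 → v.sum.2 ≤ B
  tail0 : ∀ {V u v}, e V (u ++ v) ≠ 0 → v.sum.1 = 0 → v.sum.2 = 0

open Classical in
/-- Axioms for the words in the constant functions on bundles. -/
structure AxB (h : ℕ) (X : Sys) (wb : X.Λ → List Cl → ℂ) : Prop extends AxW X wb where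
  hpos : 0 < h
  nil1 : ∀ V u v (m : ℤ), m ≠ 0 → wb V (u ++ (0, m) :: v) = 0
  cop : ∀ (l : ℕ) V W (w : Fin l → Cl), wb (X.add V W) (List.ofFn w) =
    ∑ᶠ p : (Fin l → Cl) × (Fin l → Cl),
      if p.1 + p.2 = w then wb V (List.ofFn p.1) * wb W (List.ofFn p.2) else 0
  hecke : ∀ V (n : ℕ), ∃ B, ∀ (l : ℕ) (ξ : (Fin l → Cl) →₀ ℂ),
    (∀ G, X.cl G + (0, (n : ℤ)) = X.cl V → X.Box B G →
      (ξ.sum fun w c => c * wb G (List.ofFn w)) = 0) →
    (ξ.sum fun w c => c * hkW h n (wb V) w) = 0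
  twist : ∀ V (k : ℤ), ∃ V', X.cl V' = twC k (X.cl V) ∧ ∀ w, wb V' (w.map (twC k)) = wb V w
  van : ∀ (r : ℕ) (B : ℤ), ∃ L : ℤ, ∀ V, (X.cl V).1 ≤ r → X.Box B V →
    ∀ (i j : ℕ) (m l : ℤ), l < -L →
      ∑ k ∈ range (2 * h * j + 1), cc h j k * wb V [(i, m - k), (j, l + k)] = 0
  ind : ∀ ν : Cl, ∃ B, ∀ V, X.cl V = ν → X.Box B V ∨ ∃ V₁ V₂, 0 < (X.cl V₁).1 ∧
    0 < (X.cl V₂).1 ∧ X.cl (X.add V₁ V₂) = ν ∧ wb V = wb (X.add V₁ V₂)
  ideal : ∀ (ν : Cl) (ξ : List Cl →₀ ℂ), (∀ w ∈ ξ.support, w.sum = ν) →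
    (∀ W, (ξ.sum fun w c => c * wb W w) = 0) →
    ∀ V u v, (ξ.sum fun w c => c * wb V (u ++ w ++ v)) = 0
  oper : ∀ r : ℕ, 0 < r → ∃ V, (X.cl V).1 = r ∧
    wb V (List.ofFn fun a : Fin r => (1, 2 * (h : ℤ) * a)) = 1 ∧
    ∀ m : Fin r → ℤ, wb V (List.ofFn fun a => (1, m a)) ≠ 0 →
      (∀ A : Finset (Fin r), (h : ℤ) * A.card * (A.card - 1) ≤ ∑ a ∈ A, m a) →
      ∀ a, m a = 2 * (h : ℤ) * a

/-- Span of the evaluation functionals of class `ν`. -/
def RR (X : Sys) (e : X.Λ → List Cl → ℂ) (ν : Cl) : Submodule ℂ (List Cl → ℂ) :=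
  Submodule.span ℂ (e '' {V | X.cl V = ν})

/-- Functions on words that vanish when the first letter has positive rank and degree `≤ 0`. -/
def Pos : Submodule ℂ (List Cl → ℂ) where
  carrier := {F | ∀ (ν : Cl) w, 0 < ν.1 → ν.2 ≤ 0 → F (ν :: w) = 0}
  add_mem' := fun ha hb ν w h1 h2 => by simp [ha ν w h1 h2, hb ν w h1 h2]
  zero_mem' := fun _ _ _ _ => rfl
  smul_mem' := fun c _ ha ν w h1 h2 => by simp [ha ν w h1 h2]

/-- Functions on bundles of class `ν` in the pointwise closure of the words, vanishing on sums. -/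
def PP (X : Sys) (e : X.Λ → List Cl → ℂ) (ν : Cl) : Submodule ℂ (X.Λ → ℂ) where
  carrier := {f | (∀ V, X.cl V ≠ ν → f V = 0) ∧
    (∀ φ : X.Λ →₀ ℂ, Finsupp.linearCombination ℂ e φ = 0 → Finsupp.linearCombination ℂ f φ = 0) ∧
    ∀ V W, 0 < (X.cl V).1 → 0 < (X.cl W).1 → f (X.add V W) = 0}
  add_mem' := fun {f g} ha hb => ⟨fun V h => by simp [ha.1 V h, hb.1 V h], fun φ h => by
    have h1 := ha.2.1 φ h
    have h2 := hb.2.1 φ h
    simp only [Finsupp.linearCombination_apply, Finsupp.sum, Pi.add_apply, smul_add,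
      Finset.sum_add_distrib] at h1 h2 ⊢
    rw [h1, h2, add_zero], fun V W h1 h2 => by simp [ha.2.2 V W h1 h2, hb.2.2 V W h1 h2]⟩
  zero_mem' := ⟨fun _ _ => rfl, fun φ _ => by simp,
    fun _ _ _ _ => rfl⟩
  smul_mem' := fun c f ha => ⟨fun V h => by simp [ha.1 V h], fun φ h => by
    have h1 := ha.2.1 φ h
    simp only [Finsupp.linearCombination_apply, Finsupp.sum, Pi.smul_apply, smul_comm _ c,
      ← Finset.smul_sum] at h1 ⊢
    rw [h1, smul_zero], fun V W h1 h2 => by simp [ha.2.2 V W h1 h2]⟩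

/-- `⟨λ,λ⟩ - |λ|`. -/
def qf (s : Multiset ℕ) : ℤ := (s.map fun i => (s.map fun j => ((min i j : ℕ) : ℤ)).sum).sum - s.sum

/-- The multisets counted by the truncated algebra. -/
def CntS (h r : ℕ) (d : ℤ) : Set (Multiset Cl) :=
  {m | (∀ x ∈ m, 0 < x.1 ∧ 0 < x.2) ∧ m.sum = (r, d + h * qf (m.map Prod.fst))}

/-! ### Laurent polynomials, distributions, families -/

/-- Laurent polynomials. -/
abbrev LP (l : ℕ) : Type := AddMonoidAlgebra ℂ (Fin l → ℤ)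

/-- Formal distributions. -/
abbrev Ds (l : ℕ) : Type := (Fin l → ℤ) → ℂ

/-- Families of Laurent polynomials indexed by rank vectors. -/
abbrev Fam (l : ℕ) : Type := (Fin l → ℕ) → LP l

variable {l : ℕ}

/-- Monomial. -/
def zz (m : Fin l → ℤ) : LP l := AddMonoidAlgebra.single m 1

/-- Power of a variable. -/
def zv (a : Fin l) (k : ℤ) : LP l := zz (Pi.single a k)

/-- Translation of distributions. -/
def shiftD (s : Fin l → ℤ) : Module.End ℂ (Ds l) := LinearMap.funLeft ℂ ℂ fun m => m - s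

/-- Action of Laurent polynomials on distributions. -/
def act : LP l →ₐ[ℂ] Module.End ℂ (Ds l) :=
  AddMonoidAlgebra.lift ℂ _ (Fin l → ℤ)
    { toFun := fun s => shiftD s.toAdd
      map_one' := by ext F m; simp [shiftD]
      map_mul' := fun s t => by ext F m; simp [shiftD, sub_sub] }

/-- Initial sums of the exponents are bounded below. -/
def LowB (F : Ds l) : Prop := ∃ B : ℤ, ∀ m, F m ≠ 0 → ∀ k : ℕ, -B ≤ ∑ a with a.1 < k, m a

/-- Renaming of variables. -/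
def ren (f : Fin l → Fin l) : LP l →ₐ[ℂ] LP l :=
  AddMonoidAlgebra.mapDomainAlgHom ℂ ℂ
    { toFun := fun (m : Fin l → ℤ) (b : Fin l) => ∑ a with f a = b, m a
      map_zero' := by ext b; simp
      map_add' := fun m m' => by ext b; simp [Finset.sum_add_distrib] }

/-- The variables outside `Y` are set to one. -/
def prj (Y : Finset (Fin l)) : LP l →ₐ[ℂ] LP l :=
  AddMonoidAlgebra.mapDomainAlgHom ℂ ℂ
    { toFun := fun (m : Fin l → ℤ) (b : Fin l) => if b ∈ Y then m b else 0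
      map_zero' := by ext b; simp
      map_add' := fun m m' => by ext b; by_cases h : b ∈ Y <;> simp [h] }

/-- Evaluation at a point of the torus. -/
def evP (x : Fin l → ℂˣ) : LP l →ₐ[ℂ] ℂ :=
  AddMonoidAlgebra.lift ℂ _ (Fin l → ℤ)
    { toFun := fun s => ((∏ a, x a ^ s.toAdd a : ℂˣ) : ℂ)
      map_one' := by simp
      map_mul' := fun s t => by simp [zpow_add, Finset.prod_mul_distrib] }

/-- Product of powers of the differences of the variables. -/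
def dP (n : Fin l → Fin l → ℕ) : LP l :=
  ∏ p ∈ (univ : Finset (Fin l)).offDiag, (zv p.1 1 - zv p.2 1) ^ n p.1 p.2

/-- The denominator. -/
def Dl (h : ℕ) (γ : Fin l → ℕ) : LP l := dP fun a b => h * min (γ a) (γ b)

/-- Degree of the denominator. -/
def dD (h : ℕ) (γ : Fin l → ℕ) : ℤ :=
  ∑ p ∈ (univ : Finset (Fin l)).offDiag, ((h * min (γ p.1) (γ p.2) : ℕ) : ℤ)

/-- The cross factor. -/
def cross (h : ℕ) (δ ε : Fin l → ℕ) : LP l :=
  dP fun a b => h * (min (δ a + ε a) (δ b + ε b) - min (δ a) (δ b) - min (ε a) (ε b))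

/-- The shuffle-type product. -/
def sh (h : ℕ) (S S' : Fam l) : Fam l := fun γ =>
  ∑ δ ∈ Finset.Iic γ, cross h δ (γ - δ) * (S δ * S' (γ - δ))

/-- Admissible families of rank `r`. -/
def AdmU (l r : ℕ) : Submodule ℂ (Fam l) where
  carrier := {S | (∀ γ m, (S γ).coeff m ≠ 0 → ∑ a, γ a = r ∧ ∀ a, γ a = 0 → m a = 0) ∧
    ∀ (σ : Equiv.Perm (Fin l)) γ m, (S (γ ∘ σ)).coeff (m ∘ σ) = (S γ).coeff m}
  add_mem' := fun {S T} ha hb => ⟨fun γ m h => by
    by_cases h1 : (S γ).coeff m = 0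
    · exact hb.1 γ m fun h2 => h (by simp [h1, h2])
    · exact ha.1 γ m h1, fun σ γ m => by simp [ha.2 σ γ m, hb.2 σ γ m]⟩
  zero_mem' := ⟨fun _ _ h => absurd (by simp) h, fun _ _ _ => by simp⟩
  smul_mem' := fun c S ha => ⟨fun γ m h => ha.1 γ m fun h2 => h (by simp [h2]),
    fun σ γ m => by simp [ha.2 σ γ m]⟩

/-- Families that are homogeneous of degree `d`. -/
def Hom (l h : ℕ) (d : ℤ) : Submodule ℂ (Fam l) where
  carrier := {S | ∀ γ m, (S γ).coeff m ≠ 0 → ∑ a, m a = d + dD h γ}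
  add_mem' := fun {S T} ha hb γ m h => by
    by_cases h1 : (S γ).coeff m = 0
    · exact hb γ m fun h2 => h (by simp [h1, h2])
    · exact ha γ m h1
  zero_mem' := fun _ _ h => absurd (by simp) h
  smul_mem' := fun c S ha γ m h => ha γ m fun h2 => h (by simp [h2])

/-- Admissible families of class `ν`. -/
def Adm (l h : ℕ) (ν : Cl) : Submodule ℂ (Fam l) := AdmU l ν.1 ⊓ Hom l h ν.2

/-- Families with positive exponents. -/
def PosF (l : ℕ) : Submodule ℂ (Fam l) where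
  carrier := {S | ∀ γ m, (S γ).coeff m ≠ 0 → ∀ a, 0 < γ a → 0 < m a}
  add_mem' := fun {S T} ha hb γ m h => by
    by_cases h1 : (S γ).coeff m = 0
    · exact hb γ m fun h2 => h (by simp [h1, h2])
    · exact ha γ m h1
  zero_mem' := fun _ _ h => absurd (by simp) h
  smul_mem' := fun c S ha γ m h => ha γ m fun h2 => h (by simp [h2])

/-- Products of admissible families of positive rank. -/
def DecU (l h r : ℕ) : Submodule ℂ (Fam l) :=
  Submodule.span ℂ {T | ∃ r₁ r₂ S S', 0 < r₁ ∧ 0 < r₂ ∧ r₁ + r₂ = r ∧ S ∈ AdmU l r₁ ∧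
    S' ∈ AdmU l r₂ ∧ T = sh h S S'}

/-- Homogeneous products of admissible families of positive rank. -/
def Dec (l h : ℕ) (ν : Cl) : Submodule ℂ (Fam l) :=
  Submodule.span ℂ {T | ∃ ν₁ ν₂ S S', 0 < ν₁.1 ∧ 0 < ν₂.1 ∧ ν₁ + ν₂ = ν ∧ S ∈ Adm l h ν₁ ∧
    S' ∈ Adm l h ν₂ ∧ T = sh h S S'}

/-- Symmetrisation of one component. -/
def pure (γ : Fin l → ℕ) (P : LP l) : Fam l := fun δ =>
  ∑ σ : Equiv.Perm (Fin l), if δ ∘ σ = γ then ren σ P else 0

/-- Indicator vector. -/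
def oneY (Y : Finset (Fin l)) : Fin l → ℕ := fun a => if a ∈ Y then 1 else 0

/-- The first `r` indices. -/
def Y0 (l r : ℕ) : Finset (Fin l) := univ.filter fun a => a.1 < r

/-- Hecke multiplier. -/
def TT (h n : ℕ) : Fam l := fun γ =>
  ∑ j ∈ Finset.Nat.antidiagonalTuple l n,
    (∏ a, cc h (γ a) (j a)) • zz fun a => -(j a : ℤ)

/-- Twist multiplier. -/
def TW (k : ℤ) : Fam l := fun γ => zz fun a => k * γ a

/-- Power sum multiplier. -/
def PW (k : ℤ) : Fam l := fun γ => ∑ a, (γ a : ℂ) • zv a k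

/-- Generating distribution of a function on words. -/
def EE (e : List Cl → ℂ) (γ : Fin l → ℕ) : Ds l := fun m => e (List.ofFn fun a => (γ a, m a))

/-- `S` is the family of numerators of `e`. -/
def IsNum (h : ℕ) (e : List Cl → ℂ) (S : Fam l) : Prop :=
  ∀ γ, act (Dl h γ) (EE e γ) = (S γ).coeff

/-- Axioms for the numerators. -/
structure AxN (h : ℕ) (X : Sys) (S : X.Λ → Fam l) : Prop where
  hpos : 0 < h
  cl_add : ∀ V W, X.cl (X.add V W) = X.cl V + X.cl W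
  adm : ∀ V, S V ∈ Adm l h (X.cl V)
  mul : ∀ V W, S (X.add V W) = sh h (S V) (S W)
  hecke : ∀ V (n : ℕ), TT h n * S V ∈ Submodule.span ℂ (S '' {G | (X.cl G).1 = (X.cl V).1})
  twist : ∀ V (k : ℤ), ∃ V', X.cl V' = twC k (X.cl V) ∧ S V' = TW k * S V
  oper : ∀ r, 0 < r → r ≤ l → ∃ V, (X.cl V).1 = r ∧ evP 1 (S V (oneY (Y0 l r))) ≠ 0

/-! ### The free algebra on classes -/

/-- The free algebra on classes. -/
abbrev TA : Type := FreeAlgebra ℂ Cl

/-- Generator; the zero class gives the unit. -/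
def sT (ν : Cl) : TA := if ν = 0 then 1 else FreeAlgebra.ι ℂ ν

/-- Word. -/
def wd (w : List Cl) : TA := (w.map sT).prod

/-- Classes of sheaves. -/
def Val (ν : Cl) : Prop := 0 < ν.1 ∨ 0 ≤ ν.2

/-- Homogeneous part. -/
def Tc (ν : Cl) : Submodule ℂ TA :=
  Submodule.span ℂ (wd '' {w | w.sum = ν ∧ ∀ x ∈ w, Val x})

/-- Nonempty words in letters of positive rank and nonpositive degree. -/
def Tm (ν : Cl) : Submodule ℂ TA :=
  Submodule.span ℂ (wd '' {w | w.sum = ν ∧ w ≠ [] ∧ ∀ x ∈ w, 0 < x.1 ∧ x.2 ≤ 0})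

/-- Classes of direct summands of a semistable sheaf of class `ν`. -/
def par (ν : Cl) : Finset Cl :=
  (range (ν.1 + 1) ×ˢ Icc (-|ν.2|) |ν.2|).filter fun μ =>
    μ.2 * ν.1 = ν.2 * μ.1 ∧ (ν.1 = 0 → 0 ≤ μ.2 ∧ μ.2 ≤ ν.2)

/-- Coproduct. -/
def DT : TA →ₐ[ℂ] TA ⊗[ℂ] TA :=
  FreeAlgebra.lift ℂ fun ν => ∑ μ ∈ par ν, sT μ ⊗ₜ[ℂ] sT (ν - μ)

/-- Homogeneous primitive elements. -/
def Pr (ν : Cl) : Submodule ℂ TA :=
  Tc ν ⊓ LinearMap.eqLocus DT.toLinearMap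
    ((Algebra.TensorProduct.includeLeft : TA →ₐ[ℂ] TA ⊗[ℂ] TA).toLinearMap +
      (Algebra.TensorProduct.includeRight : TA →ₐ[ℂ] TA ⊗[ℂ] TA).toLinearMap)

/-- Linear extension of a function on words. -/
def evT (e : List Cl → ℂ) : TA →ₗ[ℂ] ℂ :=
  (FreeAlgebra.basisFreeMonoid ℂ Cl).constr ℂ fun w => e w.toList

/-- Product of two evaluations. -/
def ev2 (e e' : List Cl → ℂ) : TA ⊗[ℂ] TA →ₗ[ℂ] ℂ :=
  TensorProduct.lift ((LinearMap.mul ℂ ℂ).compl₁₂ (evT e) (evT e'))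

/-- Products of homogeneous primitive elements satisfying `Q`, of total class `ν`. -/
def PrP (Q : List (Cl × TA) → Prop) (ν : Cl) : Submodule ℂ TA :=
  Submodule.span ℂ {t | ∃ L : List (Cl × TA), (∀ p ∈ L, p.1 ≠ 0 ∧ Val p.1 ∧ p.2 ∈ Pr p.1) ∧ Q L ∧
    (L.map Prod.fst).sum = ν ∧ t = (L.map Prod.snd).prod}

/-- Axioms for the words in the semistable functions. -/
structure AxS (X : Sys) (ws : X.Λ → List Cl → ℂ) : Prop extends AxW X ws where
  inval : ∀ V w, ws V w ≠ 0 → ∀ x ∈ w, Val x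
  cop : ∀ V W t, evT (ws (X.add V W)) t = ev2 (ws V) (ws W) (DT t)
  ideal : ∀ (ν : Cl) (y : TA), 0 < ν.1 → y ∈ Pr ν → (∀ W, evT (ws W) y = 0) →
    ∀ V u v, evT (ws V) (u * y * v) = 0

/-- The two kinds of words see the same functionals. -/
def Tr (X : Sys) (wb ws : X.Λ → List Cl → ℂ) : Prop :=
  ∀ φ : X.Λ →₀ ℂ,
    (Finsupp.linearCombination ℂ ws φ = 0 ↔ Finsupp.linearCombination ℂ wb φ = 0) ∧
    (Finsupp.linearCombination ℂ ws φ ∈ Pos ↔ Finsupp.linearCombination ℂ wb φ ∈ Pos)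

/-- An ordered basis of the primitive functions of positive rank. -/
structure Bas (X : Sys) (ws : X.Λ → List Cl → ℂ) (ι : Type) [LinearOrder ι] (cls : ι → Cl)
    (x : ι → TA) (mi : ι → Prop) : Prop where
  pos : ∀ i, 0 < (cls i).1
  pr : ∀ i, x i ∈ Pr (cls i)
  prm : ∀ i, mi i → x i ∈ Tm (cls i) ∧ (cls i).2 ≤ 0
  fin : ∀ ν, {i | cls i = ν}.Finite
  span : ∀ (ν : Cl) (y : TA), 0 < ν.1 → y ∈ Pr ν → ∃ c : ι →₀ ℂ, (∀ i ∈ c.support, cls i = ν) ∧
    (y ∈ Tm ν → ∀ i ∈ c.support, mi i) ∧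
    ∀ V, evT (ws V) y = evT (ws V) (Finsupp.linearCombination ℂ x c)
  indep : LinearIndependent ℂ fun i V => evT (ws V) (x i)
  ord : ∀ i j, mi i → ¬ mi j → i < j
  slope : ∀ i j, ¬ mi i → i ≤ j → (cls i).2 * (cls j).1 ≤ (cls j).2 * (cls i).1

/-- Ordered monomial. -/
def mon {ι : Type} [LinearOrder ι] (x : ι → TA) (m : Multiset ι) : TA :=
  ((m.sort (· ≤ ·)).map x).prod

/-- Multisets of weight `ν`. -/
def WtS {ι : Type} (cls : ι → Cl) (ν : Cl) : Set (Multiset ι) := {m | (m.map cls).sum = ν}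

/-- Generating series of `CntS`. -/
def GS (h n : ℕ) : LaurentSeries ℂ :=
  ∑ l : n.Partition, HahnSeries.single (l.parts.card - h * qf l.parts) (1 : ℂ) *
    ∏ i ∈ Icc 1 n, ∏ j ∈ Icc 1 (l.parts.count i), (1 - HahnSeries.single (j : ℤ) (1 : ℂ))⁻¹

/-- A Laurent polynomial plus a simple pole at one. -/
def bet (P : ℤ →₀ ℂ) (a : ℂ) (z : RatFunc ℂ) : RatFunc ℂ :=
  (P.sum fun k c => RatFunc.C c * z ^ k) + RatFunc.C a * (z - 1)⁻¹

end Pool.Agent.Lib.CC61
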