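import Pool.Agent.Lib.CC61.ABlue

open Finset
open scoped TensorProduct

noncomputable section

namespace Pool.Agent.Lib.CC61

variable {l : ℕ}

lemma zz_add (m m' : Fin l → ℤ) : zz (m + m') = zz m * zz m' := by
  simp [zz, AddMonoidAlgebra.single_mul_single]

@[simp] lemma zz_zero : zz (0 : Fin l → ℤ) = 1 := rfl

lemma zv_add (a : Fin l) (k k' : ℤ) : zv a (k + k') = zv a k * zv a k' := by
  rw [zv, Pi.single_add, zz_add]; rfl

@[simp] lemma zv_zero (a : Fin l) : zv a 0 = 1 := by simp [zv]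

lemma zz_sum {ι : Type*} (s : Finset ι) (m : ι → Fin l → ℤ) : zz (∑ i ∈ s, m i) = ∏ i ∈ s, zz (m i) := by
  classical
  induction s using Finset.induction_on with
  | empty => simp
  | insert a s ha ih => rw [Finset.sum_insert ha, Finset.prod_insert ha, zz_add, ih]

lemma zz_eq_prod (m : Fin l → ℤ) : zz m = ∏ a, zv a (m a) := by
  conv_lhs => rw [← Finset.univ_sum_single m]
  exact zz_sum _ _

lemma coeff_zz (m m' : Fin l → ℤ) : (zz m).coeff m' = if m = m' then 1 else 0 := by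
  simp [zz, Finsupp.single_apply]

lemma eq_sum_zz (P : LP l) : P = ∑ m ∈ P.coeff.support, P.coeff m • zz m := by
  conv_lhs => rw [← AddMonoidAlgebra.sum_coeff_single P]
  simp [zz, Finsupp.sum]

/-- Induction over monomials. -/
lemma LP.induction {p : LP l → Prop} (P : LP l) (h0 : p 0) (hadd : ∀ P Q, p P → p Q → p (P + Q))
    (hs : ∀ (c : ℂ) m, P.coeff m ≠ 0 → p (c • zz m)) : p P := by
  rw [eq_sum_zz P]
  exact Finset.sum_induction _ p hadd h0 fun m hm => hs _ m (Finsupp.mem_support_iff.1 hm)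

lemma LP.lhom_ext {M : Type*} [AddCommMonoid M] [Module ℂ M] {f g : LP l →ₗ[ℂ] M}
    (h : ∀ m, f (zz m) = g (zz m)) : f = g :=
  LinearMap.ext fun P => by rw [eq_sum_zz P]; simp [map_sum, h]

@[simp] lemma act_zz (s : Fin l → ℤ) (F : Ds l) (m : Fin l → ℤ) : act (zz s) F m = F (m - s) := by
  simp [act, zz, shiftD]

lemma act_apply (P : LP l) (F : Ds l) (m : Fin l → ℤ) :
    act P F m = ∑ s ∈ P.coeff.support, P.coeff s * F (m - s) := by
  conv_lhs => rw [eq_sum_zz P]
  simp [map_sum, Finset.sum_apply]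

lemma act_mul (P Q : LP l) (F : Ds l) : act (P * Q) F = act P (act Q F) := by
  rw [map_mul]; rfl

lemma coeff_zz_mul (s : Fin l → ℤ) (Q : LP l) (m : Fin l → ℤ) :
    (zz s * Q).coeff m = Q.coeff (m - s) := by
  rw [zz, AddMonoidAlgebra.coeff_single_mul_apply]; simp [sub_eq_neg_add]

lemma act_coeff (P Q : LP l) : act P (Q.coeff : Ds l) = ((P * Q).coeff : Ds l) := by
  refine LP.induction (p := fun P => act P (Q.coeff : Ds l) = ((P * Q).coeff : Ds l)) P (by simp)
    (fun P P' h h' => ?_) fun c m _ => ?_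
  · rw [map_add, LinearMap.add_apply, h, h', add_mul]; ext m; simp
  · ext m'; simp [coeff_zz_mul]

lemma coeff_mul_eq (P Q : LP l) (m : Fin l → ℤ) :
    (P * Q).coeff m = ∑ s ∈ P.coeff.support, P.coeff s * Q.coeff (m - s) := by
  rw [← act_apply, act_coeff]

lemma exists_of_act {P : LP l} {F : Ds l} {m : Fin l → ℤ} (h : act P F m ≠ 0) :
    ∃ s, P.coeff s ≠ 0 ∧ F (m - s) ≠ 0 := by
  rw [act_apply] at h
  obtain ⟨s, -, hs⟩ := Finset.exists_ne_zero_of_sum_ne_zero h
  exact ⟨s, left_ne_zero_of_mul hs, right_ne_zero_of_mul hs⟩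

lemma exists_of_mul {P Q : LP l} {m : Fin l → ℤ} (h : (P * Q).coeff m ≠ 0) :
    ∃ s, P.coeff s ≠ 0 ∧ Q.coeff (m - s) ≠ 0 :=
  exists_of_act (F := (Q.coeff : Ds l)) (by rwa [act_coeff])

lemma IsNum.unique {h : ℕ} {e : List Cl → ℂ} {S S' : Fam l} (h1 : IsNum h e S) (h2 : IsNum h e S') :
    S = S' := by
  funext γ
  ext m
  rw [← h1 γ, ← h2 γ]

lemma ren_zz (f : Fin l → Fin l) (m : Fin l → ℤ) :
    ren f (zz m) = zz fun b => ∑ a with f a = b, m a := by
  simp [ren, zz]

lemma ren_zv (f : Fin l → Fin l) (a : Fin l) (k : ℤ) : ren f (zv a k) = zv (f a) k := by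
  rw [zv, ren_zz, zv]
  congr 1
  funext b
  by_cases h : f a = b
  · subst h; rw [Finset.sum_eq_single a] <;> simp +contextual
  · rw [Pi.single_eq_of_ne (Ne.symm h)]
    exact Finset.sum_eq_zero fun c hc => Pi.single_eq_of_ne
      (fun e : c = a => h (e ▸ (Finset.mem_filter.1 hc).2)) _

lemma ren_perm_zz (σ : Equiv.Perm (Fin l)) (m : Fin l → ℤ) : ren σ (zz m) = zz (m ∘ σ.symm) := by
  rw [ren_zz]
  congr 1
  funext b
  rw [Finset.sum_eq_single (σ.symm b)] <;> simp +contextual [Equiv.eq_symm_apply]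

lemma LP.alg_ext {A : Type*} [CommSemiring A] [Algebra ℂ A] {f g : LP l →ₐ[ℂ] A}
    (h : ∀ a k, f (zv a k) = g (zv a k)) : f = g :=
  AlgHom.toLinearMap_injective (LP.lhom_ext fun m => by simp [zz_eq_prod m, map_prod, h])

lemma ren_ren (f g : Fin l → Fin l) (P : LP l) : ren f (ren g P) = ren (f ∘ g) P :=
  DFunLike.congr_fun (LP.alg_ext (f := (ren f).comp (ren g)) fun a k => by simp [ren_zv]) P

@[simp] lemma ren_id (P : LP l) : ren id P = P :=
  DFunLike.congr_fun (LP.alg_ext (g := AlgHom.id ℂ _) fun a k => by simp [ren_zv]) P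

lemma coeff_ren (σ : Equiv.Perm (Fin l)) (P : LP l) (m : Fin l → ℤ) :
    (ren σ P).coeff m = P.coeff (m ∘ σ) := by
  refine LP.induction (p := fun P => (ren σ P).coeff m = P.coeff (m ∘ σ)) P (by simp)
    (fun P P' h h' => by simp [h, h']) fun c s _ => ?_
  have : s ∘ σ.symm = m ↔ s = m ∘ σ :=
    ⟨fun h => by rw [← h]; ext; simp, fun h => by rw [h]; ext; simp⟩
  simp [ren_perm_zz, coeff_zz, this]

lemma act_ren (σ : Equiv.Perm (Fin l)) (P : LP l) (F : Ds l) (m : Fin l → ℤ) :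
    act (ren σ P) (fun m' => F (m' ∘ σ)) m = act P F (m ∘ σ) := by
  refine LP.induction (p := fun P => act (ren σ P) (fun m' => F (m' ∘ σ)) m = act P F (m ∘ σ)) P
    (by simp) (fun P P' h h' => by simp [h, h']) fun c s _ => ?_
  have : (m - s ∘ σ.symm) ∘ σ = m ∘ σ - s := by ext; simp
  simp [ren_perm_zz, this]

lemma ren_dP (σ : Equiv.Perm (Fin l)) (n : Fin l → Fin l → ℕ) :
    ren σ (dP fun a b => n (σ a) (σ b)) = dP n := by
  simp only [dP, map_prod, map_pow, map_sub, ren_zv]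
  refine Finset.prod_equiv (σ.prodCongr σ) (fun p => by simp) fun p _ => rfl

lemma ren_Dl (h : ℕ) (σ : Equiv.Perm (Fin l)) (γ : Fin l → ℕ) : ren σ (Dl h (γ ∘ σ)) = Dl h γ :=
  ren_dP σ fun a b => h * min (γ a) (γ b)

lemma ren_cross (h : ℕ) (σ : Equiv.Perm (Fin l)) (δ ε : Fin l → ℕ) :
    ren σ (cross h (δ ∘ σ) (ε ∘ σ)) = cross h δ ε :=
  ren_dP σ fun a b => h * (min (δ a + ε a) (δ b + ε b) - min (δ a) (δ b) - min (ε a) (ε b))

lemma dD_comp (h : ℕ) (σ : Equiv.Perm (Fin l)) (γ : Fin l → ℕ) : dD h (γ ∘ σ) = dD h γ :=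
  Finset.sum_equiv (σ.prodCongr σ) (fun p => by simp) fun p _ => rfl

lemma dP_add (n n' : Fin l → Fin l → ℕ) : dP (fun a b => n a b + n' a b) = dP n * dP n' := by
  simp [dP, pow_add, Finset.prod_mul_distrib]

lemma Dl_add (h : ℕ) (δ ε : Fin l → ℕ) : Dl h (δ + ε) = cross h δ ε * (Dl h δ * Dl h ε) := by
  rw [Dl, Dl, Dl, cross, ← dP_add, ← dP_add]
  congr 1
  funext a b
  rw [← mul_add, ← mul_add]
  congr 1
  simp only [Pi.add_apply]
  omega

/-- Monomials of `dP n`: nonnegative exponents, fixed degree, only the variables that occur. -/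
lemma dP_supp (n : Fin l → Fin l → ℕ) {m : Fin l → ℤ} (h : (dP n).coeff m ≠ 0) :
    (∀ a, 0 ≤ m a) ∧ ∑ a, m a = ∑ p ∈ (univ : Finset (Fin l)).offDiag, (n p.1 p.2 : ℤ) ∧
      ∀ a, (∀ b, n a b = 0 ∧ n b a = 0) → m a = 0 := by
  have key : ∀ s : Finset (Fin l × Fin l), ∀ m : Fin l → ℤ,
      (∏ p ∈ s, (zv p.1 1 - zv p.2 1) ^ n p.1 p.2 : LP l).coeff m ≠ 0 →
      (∀ a, 0 ≤ m a) ∧ ∑ a, m a = ∑ p ∈ s, (n p.1 p.2 : ℤ) ∧
        ∀ a, (∀ b, n a b = 0 ∧ n b a = 0) → m a = 0 := by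
    have h1 : ∀ (a b : Fin l) (k : ℕ) (m : Fin l → ℤ), ((zv a 1 - zv b 1) ^ k : LP l).coeff m ≠ 0 →
        (∀ c, 0 ≤ m c) ∧ ∑ c, m c = k ∧ ∀ c, (k = 0 ∨ (c ≠ a ∧ c ≠ b)) → m c = 0 := by
      intro a b k
      induction k with
      | zero =>
        intro m hm
        have : m = 0 := by
          by_contra h2
          exact hm (by rw [pow_zero, ← zz_zero, coeff_zz, if_neg (Ne.symm h2)])
        simp [this]
      | succ k ih =>
        intro m hm
        rw [pow_succ'] at hm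
        obtain ⟨s, h2, h3⟩ := exists_of_mul hm
        obtain ⟨h4, h5, h6⟩ := ih _ h3
        have h7 : s = Pi.single a 1 ∨ s = Pi.single b 1 := by
          by_contra h7
          push Not at h7
          exact h2 (by simp [zv, coeff_zz, h7.1.symm, h7.2.symm])
        have h8 : (∀ c, 0 ≤ s c) ∧ ∑ c, s c = 1 ∧ ∀ c, c ≠ a → c ≠ b → s c = 0 := by
          rcases h7 with rfl | rfl <;>
            exact ⟨fun c => by rw [Pi.single_apply]; split_ifs <;> simp, by simp,
              fun c h h' => by simp [h, h']⟩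
        simp only [Pi.sub_apply, Finset.sum_sub_distrib] at h4 h5 h6
        refine ⟨fun c => by linarith [h4 c, h8.1 c], by push_cast; linarith [h8.2.1], fun c hc => ?_⟩
        have h9 := hc.resolve_left (by omega)
        linarith [h6 c (Or.inr h9), h8.2.2 c h9.1 h9.2]
    intro s
    induction s using Finset.induction_on with
    | empty =>
      intro m hm
      have : m = 0 := by
        by_contra h2
        exact hm (by rw [Finset.prod_empty, ← zz_zero, coeff_zz, if_neg (Ne.symm h2)])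
      simp [this]
    | insert p s hp ih =>
      intro m hm
      rw [Finset.prod_insert hp] at hm
      obtain ⟨t, h2, h3⟩ := exists_of_mul hm
      obtain ⟨h4, h5, h6⟩ := ih _ h3
      obtain ⟨h7, h8, h9⟩ := h1 _ _ _ _ h2
      simp only [Pi.sub_apply, Finset.sum_sub_distrib] at h4 h5 h6
      refine ⟨fun c => by linarith [h4 c, h7 c], by rw [Finset.sum_insert hp]; linarith,
        fun c hc => ?_⟩
      have : t c = 0 := h9 c (by
        by_cases e1 : c = p.1
        · exact Or.inl (e1 ▸ (hc p.2).1)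
        by_cases e2 : c = p.2
        · exact Or.inl (e2 ▸ (hc p.1).2)
        exact Or.inr ⟨e1, e2⟩)
      linarith [h6 c hc]
  exact key _ m h

lemma prj_zz (Y : Finset (Fin l)) (m : Fin l → ℤ) :
    prj Y (zz m) = zz fun b => if b ∈ Y then m b else 0 := by
  simp [prj, zz]

lemma prj_zv (Y : Finset (Fin l)) (a : Fin l) (k : ℤ) :
    prj Y (zv a k) = if a ∈ Y then zv a k else 1 := by
  rw [zv, prj_zz]
  split_ifs with h
  · congr 1; funext b; by_cases e : b = a <;> simp [e, h]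
  · rw [← zz_zero]; congr 1; funext b; by_cases e : b = a <;> simp [e, h]

lemma prj_eq_self {Y : Finset (Fin l)} {P : LP l} (h : ∀ m, P.coeff m ≠ 0 → ∀ a ∉ Y, m a = 0) :
    prj Y P = P := by
  refine LP.induction (p := fun Q => prj Y Q = Q) P (by simp) (fun P P' h h' => by simp [h, h'])
    fun c s hs => ?_
  rw [map_smul, prj_zz]
  congr 2
  funext b
  by_cases e : b ∈ Y <;> simp [e, h s hs b]

lemma prj_supp {Y : Finset (Fin l)} {P : LP l} {m : Fin l → ℤ} (h : (prj Y P).coeff m ≠ 0) :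
    ∀ a ∉ Y, m a = 0 := by
  revert h
  refine LP.induction (p := fun Q => (prj Y Q).coeff m ≠ 0 → ∀ a ∉ Y, m a = 0) P (by simp)
    (fun P P' h h' h1 => ?_) fun c s _ h1 a ha => ?_
  · by_cases e : (prj Y P).coeff m = 0
    · exact h' fun e' => h1 (by simp [e, e'])
    · exact h e
  · have : (fun b => if b ∈ Y then s b else 0) = m := by
      by_contra h2
      exact h1 (by simp [prj_zz, coeff_zz, h2])
    rw [← this]; simp [ha]

lemma prj_prj (Y : Finset (Fin l)) (P : LP l) : prj Y (prj Y P) = prj Y P :=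
  prj_eq_self fun _ h => prj_supp h

lemma evP_zz (x : Fin l → ℂˣ) (m : Fin l → ℤ) : evP x (zz m) = ((∏ a, x a ^ m a : ℂˣ) : ℂ) := by
  simp [evP, zz]

lemma evP_zv (x : Fin l → ℂˣ) (a : Fin l) (k : ℤ) : evP x (zv a k) = ((x a ^ k : ℂˣ) : ℂ) := by
  rw [zv, evP_zz, Finset.prod_eq_single a] <;> simp +contextual

lemma evP_one (P : LP l) : evP 1 P = ∑ m ∈ P.coeff.support, P.coeff m := by
  conv_lhs => rw [eq_sum_zz P]
  simp [map_sum, evP_zz]

namespace LowB

lemma zero : LowB (0 : Ds l) := ⟨0, fun _ h => absurd rfl h⟩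

lemma add {F G : Ds l} (hF : LowB F) (hG : LowB G) : LowB (F + G) := by
  obtain ⟨B, hB⟩ := hF
  obtain ⟨B', hB'⟩ := hG
  refine ⟨max B B', fun m hm k => ?_⟩
  by_cases e : F m = 0
  · have := hB' m (fun e' => hm (by simp [e, e'])) k
    omega
  · have := hB m e k
    omega

lemma smul {F : Ds l} (hF : LowB F) (c : ℂ) : LowB (c • F) :=
  hF.imp fun _ hB m hm => hB m fun e => hm (by simp [e])

lemma sub {F G : Ds l} (hF : LowB F) (hG : LowB G) : LowB (F - G) := by
  simpa [sub_eq_add_neg] using hF.add (hG.smul (-1))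

lemma sum {ι : Type*} (s : Finset ι) {F : ι → Ds l} (h : ∀ i ∈ s, LowB (F i)) : LowB (∑ i ∈ s, F i) :=
  Finset.sum_induction F LowB (fun _ _ => add) zero h

lemma act {F : Ds l} (hF : LowB F) (P : LP l) : LowB (act P F) := by
  refine LP.induction (p := fun P => LowB (CC61.act P F)) P (by simpa using zero)
    (fun P P' h h' => by simpa using h.add h') fun c s _ => ?_
  rw [map_smul, LinearMap.smul_apply]
  refine smul ?_ c
  obtain ⟨B, hB⟩ := hF
  refine ⟨B + ∑ a, |s a|, fun m hm k => ?_⟩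
  have h1 := hB _ (by rwa [act_zz] at hm) k
  have h2 : -∑ a, |s a| ≤ ∑ a with a.1 < k, s a := by
    rw [neg_le, ← Finset.sum_neg_distrib]
    exact (Finset.sum_le_sum fun a _ => neg_le_abs _).trans
      (Finset.sum_le_sum_of_subset_of_nonneg (Finset.filter_subset _ _) fun _ _ _ => abs_nonneg _)
  simp only [Pi.sub_apply, Finset.sum_sub_distrib] at h1
  linarith

lemma coeff (P : LP l) : LowB (P.coeff : Ds l) := by
  have h1 : LowB ((1 : LP l).coeff : Ds l) := ⟨0, fun m hm k => by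
    have : m = 0 := by
      by_contra h2
      exact hm (by rw [← zz_zero, coeff_zz, if_neg (Ne.symm h2)])
    simp [this]⟩
  simpa [act_coeff] using h1.act P

/-- Cancellation of one difference on a translation-stable set. -/
lemma cancel {F : Ds l} (hF : LowB F) {a b : Fin l} (hab : a < b) {Z : Set (Fin l → ℤ)}
    (hZ : ∀ m ∈ Z, m + Pi.single b 1 - Pi.single a 1 ∈ Z)
    (h : ∀ m ∈ Z, CC61.act (zv a 1 - zv b 1) F (m + Pi.single b 1) = 0) : ∀ m ∈ Z, F m = 0 := by
  obtain ⟨B, hB⟩ := hF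
  have key : ∀ n : ℕ, ∀ m ∈ Z, ∑ c with c.1 < a.1 + 1, m c + B < n → F m = 0 := by
    intro n
    induction n with
    | zero => exact fun m _ h1 => by_contra fun h2 => by have := hB m h2 (a.1 + 1); omega
    | succ n ih =>
      intro m hm h1
      have h2 := h m hm
      simp only [map_sub, LinearMap.sub_apply, Pi.sub_apply, zv, act_zz, add_sub_cancel_right] at h2
      rw [← sub_eq_zero.1 h2]
      refine ih _ (hZ m hm) ?_
      have e1 : ∑ c with c.1 < a.1 + 1, (Pi.single b 1 : Fin l → ℤ) c = 0 :=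
        Finset.sum_eq_zero fun c hc => Pi.single_eq_of_ne (fun e => by
          have := (Finset.mem_filter.1 hc).2
          have h3 : a.1 < b.1 := hab
          rw [e] at this; omega) _
      have e2 : ∑ c with c.1 < a.1 + 1, (Pi.single a 1 : Fin l → ℤ) c = 1 := by
        rw [Finset.sum_eq_single a] <;> simp +contextual
      simp only [Pi.sub_apply, Pi.add_apply, Finset.sum_sub_distrib, Finset.sum_add_distrib, e1, e2]
      push_cast at h1
      omega
  exact fun m hm => key (∑ c with c.1 < a.1 + 1, m c + B + 1).toNat m hm (by omega)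

/-- Cancellation of `dP n` on a set stable under all admissible translations. -/
lemma cancel_dP {F : Ds l} (hF : LowB F) (n : Fin l → Fin l → ℕ) {Z : Set (Fin l → ℤ)}
    (hZ : ∀ a b, a < b → ∀ m ∈ Z, m + Pi.single b 1 - Pi.single a 1 ∈ Z ∧ m + Pi.single b 1 ∈ Z)
    (h : ∀ m ∈ Z, CC61.act (dP n) F m = 0) : ∀ m ∈ Z, F m = 0 := by
  have h1 : ∀ (a b : Fin l), a ≠ b → ∀ G : Ds l, LowB G →
      (∀ m ∈ Z, CC61.act (zv a 1 - zv b 1) G m = 0) → ∀ m ∈ Z, G m = 0 := by
    intro a b hab G hG h2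
    rcases lt_or_gt_of_ne hab with h3 | h3
    · exact hG.cancel h3 (fun m hm => (hZ a b h3 m hm).1) fun m hm => h2 _ (hZ a b h3 m hm).2
    · refine hG.cancel h3 (fun m hm => (hZ b a h3 m hm).1) fun m hm => ?_
      have := h2 _ (hZ b a h3 m hm).2
      rw [← neg_sub, map_neg, LinearMap.neg_apply, Pi.neg_apply, this, neg_zero]
  have h2 : ∀ (a b : Fin l), a ≠ b → ∀ (k : ℕ) (G : Ds l), LowB G →
      (∀ m ∈ Z, CC61.act ((zv a 1 - zv b 1) ^ k) G m = 0) → ∀ m ∈ Z, G m = 0 := by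
    intro a b hab k
    induction k with
    | zero => intro G _ h3; simpa using h3
    | succ k ih =>
      intro G hG h3
      simp only [pow_succ', act_mul] at h3
      exact ih G hG (h1 a b hab _ (hG.act _) h3)
  have h3 : ∀ s : Finset (Fin l × Fin l), (∀ p ∈ s, p.1 ≠ p.2) →
      (∀ m ∈ Z, CC61.act (∏ p ∈ s, (zv p.1 1 - zv p.2 1) ^ n p.1 p.2) F m = 0) → ∀ m ∈ Z, F m = 0 := by
    intro s
    induction s using Finset.induction_on with
    | empty => intro _ h3; simpa using h3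
    | insert p s hp ih =>
      intro h4 h3
      simp only [Finset.prod_insert hp, act_mul] at h3
      exact ih (fun q hq => h4 q (Finset.mem_insert_of_mem hq))
        (h2 _ _ (h4 p (Finset.mem_insert_self _ _)) _ _ (hF.act _) h3)
  exact h3 _ (fun p hp => (Finset.mem_offDiag.1 hp).2.2) h

lemma eq_zero {F : Ds l} (hF : LowB F) (n : Fin l → Fin l → ℕ) (h : CC61.act (dP n) F = 0) :
    F = 0 :=
  funext fun m => hF.cancel_dP n (Z := Set.univ) (fun _ _ _ _ _ => ⟨trivial, trivial⟩)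
    (fun m _ => congrFun h m) m trivial

end LowB

lemma sum_ofFn_take (w : Fin l → Cl) (k : ℕ) :
    ((List.ofFn w).take k).sum.2 = ∑ a with a.1 < k, (w a).2 := by
  rw [List.sum_take_ofFn, Prod.snd_sum]

lemma AxW.lowB {X : Sys} {e : X.Λ → List Cl → ℂ} (h : AxW X e) {B : ℤ} {V : X.Λ} (hB : X.Box B V)
    {w : Fin l → Cl} (hw : e V (List.ofFn w) ≠ 0) (k : ℕ) : -(2 * B) ≤ ∑ a with a.1 < k, (w a).2 := by
  have h1 := h.supp hw
  rw [← List.take_append_drop k (List.ofFn w)] at hw h1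
  have h2 := h.tail hB hw
  have h3 := h.box_deg hB
  rw [← h1, List.sum_append, Prod.snd_add, sum_ofFn_take] at h3
  linarith

lemma AxW.lowB_EE {X : Sys} {e : X.Λ → List Cl → ℂ} (h : AxW X e) (V : X.Λ) (γ : Fin l → ℕ) :
    LowB (EE (e V) γ) := by
  obtain ⟨B, hB⟩ := h.box_ex V
  exact ⟨2 * B, fun m hm k => h.lowB hB (w := fun a => (γ a, m a)) hm k⟩

lemma AdmU.ren {r : ℕ} {S : Fam l} (h : S ∈ AdmU l r) (σ : Equiv.Perm (Fin l)) (γ : Fin l → ℕ) :
    S γ = ren σ (S (γ ∘ σ)) := by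
  ext m
  rw [coeff_ren, h.2]

/-- The product as a bilinear map. -/
def shL (h : ℕ) : Fam l →ₗ[ℂ] Fam l →ₗ[ℂ] Fam l :=
  LinearMap.mk₂ ℂ (sh h) (fun S S' T => by funext γ; simp [sh, add_mul, mul_add, sum_add_distrib])
    (fun c S T => by funext γ; simp [sh, Finset.smul_sum])
    (fun S T T' => by funext γ; simp [sh, mul_add, sum_add_distrib])
    fun c S T => by funext γ; simp [sh, Finset.smul_sum]

@[simp] lemma shL_apply (h : ℕ) (S T : Fam l) : shL h S T = sh h S T := rfl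

/-- Symmetrisation as a linear map. -/
def pureL (γ : Fin l → ℕ) : LP l →ₗ[ℂ] Fam l where
  toFun := pure γ
  map_add' := fun P Q => by
    funext δ
    simp only [pure, Pi.add_apply, ← sum_add_distrib]
    exact Finset.sum_congr rfl fun σ _ => by split_ifs <;> simp
  map_smul' := fun c P => by
    funext δ
    simp only [pure, Pi.smul_apply, Finset.smul_sum, RingHom.id_apply]
    exact Finset.sum_congr rfl fun σ _ => by split_ifs <;> simp

@[simp] lemma pureL_apply (γ : Fin l → ℕ) (P : LP l) : pureL γ P = pure γ P := rfl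

lemma card_Y0 {r : ℕ} (h : r ≤ l) : (Y0 l r).card = r := by
  rw [Y0, Fin.card_filter_val_lt]; omega

lemma act_TT (h n : ℕ) (e : List Cl → ℂ) (γ : Fin l → ℕ) (m : Fin l → ℤ) :
    act (TT h n γ) (EE e γ) m = hkW h n e fun a => (γ a, m a) := by
  simp [TT, hkW, map_sum, Finset.sum_apply, EE]

/-! ### The free algebra -/

lemma wd_append (u v : List Cl) : wd (u ++ v) = wd u * wd v := by simp [wd]

lemma wd_cons (ν : Cl) (w : List Cl) : wd (ν :: w) = sT ν * wd w := by simp [wd]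

@[simp] lemma wd_nil : wd [] = 1 := rfl

lemma basis_eq (w : List Cl) :
    FreeAlgebra.basisFreeMonoid ℂ Cl (FreeMonoid.ofList w) = (w.map (FreeAlgebra.ι ℂ)).prod := by
  simp [FreeAlgebra.basisFreeMonoid, FreeAlgebra.equivMonoidAlgebraFreeMonoid, FreeMonoid.lift_apply]

lemma evT_basis (e : List Cl → ℂ) (w : List Cl) : evT e (w.map (FreeAlgebra.ι ℂ)).prod = e w := by
  rw [← basis_eq, evT, Module.Basis.constr_basis]; rfl

lemma TA.lhom_ext {M : Type*} [AddCommMonoid M] [Module ℂ M] {f g : TA →ₗ[ℂ] M}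
    (h : ∀ w : List Cl, f (w.map (FreeAlgebra.ι ℂ)).prod = g (w.map (FreeAlgebra.ι ℂ)).prod) :
    f = g :=
  (FreeAlgebra.basisFreeMonoid ℂ Cl).ext fun w => by
    have := h w.toList
    rwa [← basis_eq] at this

lemma wd_eq (w : List Cl) : wd w = ((w.filter (· ≠ 0)).map (FreeAlgebra.ι ℂ)).prod := by
  induction w with
  | nil => rfl
  | cons ν w ih => by_cases h : ν = 0 <;> simp [wd_cons, ih, sT, h]

lemma filter_nil0 {e : List Cl → ℂ} (h : ∀ u v, e (u ++ 0 :: v) = e (u ++ v)) (u w v : List Cl) :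
    e (u ++ w.filter (· ≠ 0) ++ v) = e (u ++ w ++ v) := by
  induction w generalizing u with
  | nil => rfl
  | cons ν w ih =>
    by_cases h0 : ν = 0
    · subst h0
      simpa [h] using ih u
    · simpa [h0] using ih (u ++ [ν])

/-- Evaluation of a word between two basis words. -/
lemma evT_mul_wd {e : List Cl → ℂ} (h : ∀ u v, e (u ++ 0 :: v) = e (u ++ v)) (u w v : List Cl) :
    evT e ((u.map (FreeAlgebra.ι ℂ)).prod * wd w * (v.map (FreeAlgebra.ι ℂ)).prod) =
      e (u ++ w ++ v) := by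
  rw [wd_eq, ← List.prod_append, ← List.prod_append, ← List.map_append, ← List.map_append,
    evT_basis, filter_nil0 h]

lemma evT_wd {e : List Cl → ℂ} (h : ∀ u v, e (u ++ 0 :: v) = e (u ++ v)) (w : List Cl) :
    evT e (wd w) = e w := by
  simpa using evT_mul_wd h [] w []

lemma evT_add (e e' : List Cl → ℂ) (t : TA) : evT (e + e') t = evT e t + evT e' t := by
  have : (fun w : FreeMonoid Cl => (e + e') w.toList) =
      (fun w : FreeMonoid Cl => e w.toList) + fun w : FreeMonoid Cl => e' w.toList := rfl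
  rw [evT, this, map_add]; rfl

lemma evT_smul (c : ℂ) (e : List Cl → ℂ) (t : TA) : evT (c • e) t = c * evT e t := by
  have : (fun w : FreeMonoid Cl => (c • e) w.toList) = c • fun w : FreeMonoid Cl => e w.toList := rfl
  rw [evT, this, map_smul]; rfl

@[simp] lemma evT_zero (t : TA) : evT 0 t = 0 := by simpa using evT_smul 0 0 t

lemma evT_comb {Λ : Type*} (e : Λ → List Cl → ℂ) (φ : Λ →₀ ℂ) (t : TA) :
    evT (Finsupp.linearCombination ℂ e φ) t =
      Finsupp.linearCombination ℂ (fun V => evT (e V) t) φ := by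
  induction φ using Finsupp.induction_linear with
  | zero => simp
  | add f g h h' => simp [evT_add, h, h']
  | single V c => simp [evT_smul]

@[simp] lemma ev2_tmul (e e' : List Cl → ℂ) (s t : TA) : ev2 e e' (s ⊗ₜ t) = evT e s * evT e' t := by
  simp [ev2]

lemma par_zero : par 0 = {0} := by decide

lemma DT_sT (ν : Cl) : DT (sT ν) = ∑ μ ∈ par ν, sT μ ⊗ₜ[ℂ] sT (ν - μ) := by
  by_cases h : ν = 0
  · subst h; simp [sT, par_zero, Algebra.TensorProduct.one_def]
  · rw [sT, if_neg h, DT, FreeAlgebra.lift_ι_apply]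

lemma mem_Pr {ν : Cl} {x : TA} : x ∈ Pr ν ↔ x ∈ Tc ν ∧ DT x = x ⊗ₜ 1 + 1 ⊗ₜ x := Iff.rfl

lemma wd_mem_Tc {w : List Cl} (h : ∀ x ∈ w, Val x) : wd w ∈ Tc w.sum :=
  Submodule.subset_span ⟨w, ⟨rfl, h⟩, rfl⟩

lemma one_mem_Tc : (1 : TA) ∈ Tc 0 := wd_mem_Tc (w := []) (by simp)

lemma mul_mem_Tc {μ ν : Cl} {x y : TA} (hx : x ∈ Tc μ) (hy : y ∈ Tc ν) : x * y ∈ Tc (μ + ν) := by
  refine Submodule.span_induction₂ (p := fun x y _ _ => x * y ∈ Tc (μ + ν)) ?_ (by simp) (by simp)
    (fun _ _ _ _ _ _ h h' => by rw [add_mul]; exact add_mem h h')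
    (fun _ _ _ _ _ _ h h' => by rw [mul_add]; exact add_mem h h')
    (fun c _ _ _ _ h => by rw [smul_mul_assoc]; exact Submodule.smul_mem _ c h)
    (fun c _ _ _ _ h => by rw [mul_smul_comm]; exact Submodule.smul_mem _ c h) hx hy
  rintro _ _ ⟨u, ⟨rfl, hu⟩, rfl⟩ ⟨v, ⟨rfl, hv⟩, rfl⟩
  rw [← wd_append, ← List.sum_append]
  exact wd_mem_Tc fun x hx => (List.mem_append.1 hx).elim (hu x) (hv x)

lemma mul_mem_Tm {μ ν : Cl} {x y : TA} (hx : x ∈ Tm μ) (hy : y ∈ Tm ν) : x * y ∈ Tm (μ + ν) := by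
  refine Submodule.span_induction₂ (p := fun x y _ _ => x * y ∈ Tm (μ + ν)) ?_ (by simp) (by simp)
    (fun _ _ _ _ _ _ h h' => by rw [add_mul]; exact add_mem h h')
    (fun _ _ _ _ _ _ h h' => by rw [mul_add]; exact add_mem h h')
    (fun c _ _ _ _ h => by rw [smul_mul_assoc]; exact Submodule.smul_mem _ c h)
    (fun c _ _ _ _ h => by rw [mul_smul_comm]; exact Submodule.smul_mem _ c h) hx hy
  rintro _ _ ⟨u, ⟨rfl, hu0, hu⟩, rfl⟩ ⟨v, ⟨rfl, -, hv⟩, rfl⟩
  rw [← wd_append]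
  exact Submodule.subset_span ⟨u ++ v, ⟨List.sum_append, by simp [hu0],
    fun x hx => (List.mem_append.1 hx).elim (hu x) (hv x)⟩, rfl⟩

lemma AxW.evT_supp {X : Sys} {e : X.Λ → List Cl → ℂ} (h : AxW X e) {V : X.Λ} {ν : Cl} {t : TA}
    (ht : t ∈ Tc ν) (h0 : evT (e V) t ≠ 0) : X.cl V = ν := by
  by_contra hn
  refine h0 (Submodule.span_induction (p := fun t _ => evT (e V) t = 0) ?_ (by simp)
    (fun _ _ _ _ a b => by simp [a, b]) (fun c _ _ a => by simp [a]) ht)
  rintro _ ⟨w, ⟨hw, -⟩, rfl⟩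
  rw [evT_wd (h.nil0 V)]
  exact by_contra fun h1 => hn (hw ▸ (h.supp h1).symm)

end Pool.Agent.Lib.CC61
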