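import Pool.Agent.Lib.CC61.T24A6

/-! Project cc61: torsion pairs and boundedness of indecomposable bundles. -/

open Filter Set WithZero Module Finsupp

noncomputable section

namespace Pool.Agent.Lib.CC61.T24

open Pool.Agent.Lib.MP_cc3443_ag

variable {K : Type} [Field K] [Algebra ℂ K] [Algebra (RatFunc ℂ) K]
  [IsScalarTower ℂ (RatFunc ℂ) K] [FiniteDimensional (RatFunc ℂ) K] {N N' : ℕ}

/-- The function maximised by the torsion part. -/
def ph (c : ℤ) (W : Lat K N) : ℤ := chiL W - (chiO K + c) * rk W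

/-- All non-zero quotients have slope above `c`. -/
def TQ' (c : ℤ) (E F : Lat K N) : Prop := ∀ W, F ≤ W → W ≤ E → W ≠ E → ph c W < ph c E

/-- All subsheaves have slope at most `c`. -/
def FQ' (c : ℤ) (E F : Lat K N) : Prop := ∀ W, F ≤ W → W ≤ E → ph c W ≤ ph c F

theorem exists_sup (A B : Lat K N) :
    ∃ J : Lat K N, J.gen = A.gen ⊔ B.gen ∧ ∀ x, J.S x = A.S x ⊔ B.S x := by
  obtain ⟨m, v, hv, h⟩ := A.exists_gens
  obtain ⟨m', v', hv', h'⟩ := B.exists_gens
  refine ⟨Lat.mk' (A.gen ⊔ B.gen) (fun x => A.S x ⊔ B.S x) (fun x => (A.fg_S x).sup (B.fg_S x))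
    (fun x => ?_) ?_, rfl, fun x => Lat.mk'_S _ _ _ _ _ _⟩
  · refine le_antisymm (Submodule.span_le.2 fun w hw => ?_) (sup_le ?_ ?_)
    · obtain ⟨a, ha, b, hb, rfl⟩ := Submodule.mem_sup.1 hw
      exact Submodule.add_mem_sup (Lat.mem_gen ha) (Lat.mem_gen hb)
    · rw [← A.span_S x]
      exact Submodule.span_mono fun w hw => Submodule.mem_sup_left hw
    · rw [← B.span_S x]
      exact Submodule.span_mono fun w hw => Submodule.mem_sup_right hw
  · refine ((h.and h').and (eventually_span_std (Sum.elim v v'))).mono fun x hx w => ?_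
    rw [hx.1.1, hx.1.2, ← hv, ← hv', ← Submodule.span_union, ← Submodule.span_union,
      ← Set.Sum.elim_range]
    exact hx.2 w

theorem exists_inf (A B : Lat K N) :
    ∃ I : Lat K N, I.gen = A.gen ⊓ B.gen ∧ ∀ x, I.S x = A.S x ⊓ B.S x :=
  ⟨pull A LinearMap.id B, rfl, fun x => by ext w; rw [mem_pull]; rfl⟩

theorem modular {A B I J : Lat K N} (i1 : I.gen = A.gen ⊓ B.gen) (i2 : ∀ x, I.S x = A.S x ⊓ B.S x)
    (j1 : J.gen = A.gen ⊔ B.gen) (hA : A ≤ J) (hB : B ≤ J) :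
    rk J + rk I = rk A + rk B ∧ chiL A + chiL B ≤ chiL J + chiL I := by
  have h1 : rk J + rk I = rk A + rk B := by
    rw [rk, rk, i1, j1]
    exact Submodule.finrank_sup_add_finrank_inf_eq _ _
  refine ⟨h1, ?_⟩
  obtain ⟨n, ⟨a1, a2⟩, a3, a4⟩ := (((eventually_hdim A).and (eventually_hdim B)).and
    ((eventually_hdim I).and (eventually_hdim J))).exists
  have h2 := Submodule.finrank_sup_add_finrank_inf_eq (sec A n) (sec B n)
  have h3 : sec A n ⊓ sec B n = sec I n := by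
    ext w
    simp only [Submodule.mem_inf, mem_sec, i2, forall_and]
  have h4 : finrank ℂ (sec A n ⊔ sec B n : Submodule ℂ _) ≤ finrank ℂ (sec J n) :=
    Submodule.finrank_mono (sup_le (sec_mono hA n) (sec_mono hB n))
  rw [h3] at h2
  have h5 : hdim A n + hdim B n ≤ hdim J n + hdim I n := by
    simp only [hdim]
    omega
  have h6 : (rk J : ℤ) + rk I = rk A + rk B := by exact_mod_cast h1
  have h7 : n * ((dlt K : ℤ) * rk J) + n * (dlt K * rk I) =
      n * (dlt K * rk A) + n * (dlt K * rk B) := by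
    rw [← mul_add, ← mul_add, h6, mul_add, mul_add]
  omega

theorem eq_of_ph {c : ℤ} {A B : Lat K N} (h : A ≤ B) (hr : rk A = rk B) (hp : ph c B ≤ ph c A) :
    A = B := by
  have := chiL_mono h hr
  rw [ph, ph, hr] at hp
  exact eq_of_chiL h hr (by omega)

theorem tp1 (c : ℤ) {E F : Lat K N} (h : F ≤ E) :
    ∃ T, F ≤ T ∧ T ≤ E ∧ TQ' c T F ∧ FQ' c E T := by
  classical
  obtain ⟨C, hC⟩ := exists_chiL_bound E
  obtain ⟨m, ⟨T₀, t1, t2, rfl⟩, hm⟩ := Int.exists_greatest_of_bdd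
    (P := fun m => ∃ T, F ≤ T ∧ T ≤ E ∧ ph c T = m) ⟨C + |chiO K + c| * N, by
      rintro _ ⟨T, -, h2, rfl⟩
      have h3 := hC T h2
      have h4 : (rk T : ℤ) ≤ N := by exact_mod_cast rk_le T
      have h5 := neg_abs_le (chiO K + c)
      have h6 := abs_nonneg (chiO K + c)
      have h7 : (0 : ℤ) ≤ rk T := Int.natCast_nonneg _
      rw [ph]
      nlinarith⟩ ⟨_, F, le_rfl, h, rfl⟩
  have ex : ∃ k, ∃ T, F ≤ T ∧ T ≤ E ∧ ph c T = ph c T₀ ∧ rk T = k := ⟨_, T₀, t1, t2, rfl, rfl⟩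
  obtain ⟨T, a1, a2, a3, a4⟩ := Nat.find_spec ex
  refine ⟨T, a1, a2, fun W w1 w2 w3 => ?_, fun W w1 w2 => a3 ▸ hm _ ⟨W, a1.trans w1, w2, rfl⟩⟩
  refine lt_of_le_of_ne (a3 ▸ hm _ ⟨W, w1, w2.trans a2, rfl⟩) fun e => w3 ?_
  have h1 := Nat.find_min' ex ⟨W, w1, w2.trans a2, e.trans a3, rfl⟩
  exact eq_of_ph w2 (le_antisymm (rk_mono w2) (a4 ▸ h1)) e.ge

theorem tp2 {c : ℤ} {E F T T' : Lat K N} (h1 : F ≤ T) (h2 : T ≤ E) (h3 : F ≤ T') (h4 : T' ≤ E)
    (hT : TQ' c T F) (hF : FQ' c E T') : T ≤ T' := by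
  obtain ⟨I, i1, i2⟩ := exists_inf T T'
  obtain ⟨J, j1, j2⟩ := exists_sup T T'
  have hA : T ≤ J := fun x => j2 x ▸ le_sup_left
  have hB : T' ≤ J := fun x => j2 x ▸ le_sup_right
  obtain ⟨m1, m2⟩ := modular i1 i2 j1 hA hB
  by_cases e : I = T
  · exact fun x => by rw [← e, i2]; exact inf_le_right
  have a1 := hT I (fun x => i2 x ▸ le_inf (h1 x) (h3 x)) (fun x => i2 x ▸ inf_le_left) e
  have a2 := hF J hB fun x => j2 x ▸ sup_le (h2 x) (h4 x)
  have h6 : (rk J : ℤ) + rk I = rk T + rk T' := by exact_mod_cast m1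
  have h7 : (chiO K + c) * rk J + (chiO K + c) * rk I =
      (chiO K + c) * rk T + (chiO K + c) * rk T' := by rw [← mul_add, h6, mul_add]
  simp only [ph] at a1 a2
  omega

theorem TQ'.mono {c c' : ℤ} {E F : Lat K N} (h : TQ' c' E F) (hc : c ≤ c') : TQ' c E F := by
  intro W w1 w2 w3
  have h1 := h W w1 w2 w3
  have h2 : (rk W : ℤ) ≤ rk E := by exact_mod_cast rk_mono w2
  simp only [ph] at h1 ⊢
  nlinarith

theorem FQ'.sat {c : ℤ} {E F : Lat K N} (h : FQ' c E F) (hle : F ≤ E) : E.restrict F.gen = F :=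
  (eq_of_ph (le_restrict hle le_rfl) (by rw [rk, rk, gen_restrict_gen hle])
    (h _ (le_restrict hle le_rfl) (E.restrict_le _))).symm

/-- A large gap in the slopes splits the bundle. -/
theorem split_of_gap {c c' : ℤ} (hc : c + 1 - 3 * chiO K ≤ c') {A : Lat K N} (hA : TQ' c' A ⊥)
    (n : ℕ) : ∀ V : Lat K N, A ≤ V → rk V = rk A + n → FQ' c V A →
      ∃ U : Lat K N, ∀ x, A.S x ⊓ U.S x = ⊥ ∧ A.S x ⊔ U.S x = V.S x := by
  induction n with
  | zero =>
    intro V h1 h2 h3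
    obtain rfl := eq_of_ph h1 h2.symm (h3 V h1 le_rfl)
    exact ⟨⊥, fun x => by simp⟩
  | succ n ih =>
    intro V h1 h2 h3
    obtain ⟨P, hP⟩ := exists_ker_eq A.gen
    set π := Matrix.toLin' P with hπ
    have e1 := rk_exact V π
    have e2 := chiL_exact V π
    rw [hP, h3.sat h1] at e1 e2
    have e3 := h3 V h1 le_rfl
    have e4 : (rk V : ℤ) = rk A + rk (V.mapL π) := by exact_mod_cast e1
    obtain ⟨φ, f1, f2⟩ := lq (V := V.mapL π) (a := c) (by omega) (by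
      rw [ph, ph, e4] at e3
      nlinarith)
    rw [mapL_mapL] at f1 f2
    set q := φ ∘ₗ π with hq
    have g1 : A ≤ V.restrict (LinearMap.ker q) :=
      le_restrict h1 (hP ▸ LinearMap.ker_le_ker_comp π φ)
    have g2 := rk_exact V q
    obtain ⟨U, hU⟩ := ih (V.restrict (LinearMap.ker q)) g1 (by omega)
      fun W w1 w2 => h3 W w1 (w2.trans (V.restrict_le _))
    have g3 : U ≤ V.restrict (LinearMap.ker q) := fun x => (hU x).2 ▸ le_sup_right
    obtain ⟨G, k1, k2, k3⟩ := lex q g3 le_rfl f1 fun W w1 w2 w3 => by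
      obtain ⟨I, i1, i2⟩ := exists_inf W A
      obtain ⟨J, j1, j2⟩ := exists_sup W A
      have j3 : J = V.restrict (LinearMap.ker q) := Lat.ext' fun x => by
        rw [j2]
        refine le_antisymm (sup_le (w2 x) (g1 x)) ?_
        rw [← (hU x).2]
        exact sup_le le_sup_right (le_sup_of_le_left (w1 x))
      obtain ⟨m1, m2⟩ := modular i1 i2 j1 (fun x => j2 x ▸ le_sup_left)
        (fun x => j2 x ▸ le_sup_right)
      rw [j3] at m1 m2
      have a1 := hA I bot_le (fun x => i2 x ▸ inf_le_right) (by rintro rfl; omega)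
      have a2 : (rk A : ℤ) = rk I + 1 := by exact_mod_cast (by omega : rk A = rk I + 1)
      rw [ph, ph, a2] at a1
      nlinarith
    refine ⟨G, fun x => ⟨eq_bot_iff.2 fun w hw => ?_,
      le_antisymm (sup_le (h1 x) (k1 x)) fun w hw => ?_⟩⟩
    · rw [← (hU x).1]
      exact ⟨hw.1, k2 ▸ Lat.mem_restrict.2 ⟨hw.2, (Lat.mem_restrict.1 (g1 x hw.1)).2⟩⟩
    · obtain ⟨v, hv, e⟩ := Lat.mem_mapL.1 (k3 ▸ Lat.mem_mapL.2 ⟨w, hw, rfl⟩ : q w ∈ (G.mapL q).S x)
      have h5 : w - v ∈ (V.restrict (LinearMap.ker q)).S x :=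
        Lat.mem_restrict.2 ⟨sub_mem hw (k1 x hv), by rw [LinearMap.mem_ker, map_sub, e, sub_self]⟩
      rw [← (hU x).2] at h5
      have h6 : U.S x ≤ G.S x := fun u hu => (Lat.mem_restrict.1 (k2.symm ▸ hu)).1
      rw [← sub_add_cancel w v]
      exact add_mem (sup_le_sup_left h6 _ h5) (Submodule.mem_sup_right hv)

variable (K) in
/-- Indecomposable bundles of a given class are bounded. -/
theorem ind_bdd (r : ℕ) (d : ℤ) : ∃ B : ℤ, ∀ (N : ℕ) (V : Lat K N), rk V = r →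
    chiL V - rk V * chiO K = d → (∀ G ≤ V, chiL G - rk G * chiO K ≤ B) ∨
      ∃ G₁ G₂ : Lat K N, G₁ ≠ ⊥ ∧ G₂ ≠ ⊥ ∧
        ∀ x, G₁.S x ⊓ G₂.S x = ⊥ ∧ G₁.S x ⊔ G₂.S x = V.S x := by
  set p : ℤ := |1 - 3 * chiO K| with hp
  have p0 : 0 ≤ p := abs_nonneg _
  have p1 : 1 - 3 * chiO K ≤ p := le_abs_self _
  have d0 := abs_nonneg d
  have d1 := le_abs_self d
  refine ⟨(|d| + r * p) * r, fun N V hr hd => ?_⟩
  rcases r.eq_zero_or_pos with rfl | r0
  · refine Or.inl fun G hG => ?_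
    rw [eq_bot_of_rk (L := G) (Nat.le_zero.1 (hr ▸ rk_mono hG))]
    simp
  choose T t0 t1 t2 t3 using fun k : ℕ => tp1 (|d| + k * p) (bot_le : ⊥ ≤ V)
  have mono : ∀ k, T (k + 1) ≤ T k := fun k =>
    tp2 bot_le (t1 _) bot_le (t1 _) ((t2 (k + 1)).mono (by push_cast; nlinarith)) (t3 k)
  have h0 : rk (T 0) < r := by
    refine lt_of_le_of_ne (hr ▸ rk_mono (t1 0)) fun e => ?_
    have e1 := eq_of_ph (t1 0) (e.trans hr.symm) (t3 0 V (t1 0) le_rfl)
    have e2 := t2 0 ⊥ le_rfl bot_le (by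
      intro e3
      rw [← e3, rk_bot] at e
      omega)
    have e4 : (1 : ℤ) ≤ r := by exact_mod_cast r0
    rw [e1, ph, ph, rk_bot, chiL_bot, hr] at e2
    rw [hr] at hd
    push_cast at e2
    nlinarith
  obtain ⟨k, k1, k2, k3⟩ : ∃ k < r, rk (T k) < r ∧ rk (T (k + 1)) = rk (T k) := by
    by_contra! h
    have h1 : ∀ k ≤ r, rk (T k) + k < r := by
      intro k
      induction k with
      | zero => exact fun _ => h0
      | succ k ih =>
        intro hk
        have a1 := ih (by omega)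
        have a2 := h k (by omega) (by omega)
        have a3 := rk_mono (mono k)
        omega
    have := h1 r le_rfl
    omega
  have e : T (k + 1) = T k := by
    have a1 := t3 (k + 1) (T k) (mono k) (t1 k)
    exact eq_of_ph (mono k) k3 a1
  by_cases hb : T k = ⊥
  · refine Or.inl fun G hG => ?_
    have a1 := t3 k G (hb ▸ bot_le) hG
    have a2 : (rk G : ℤ) ≤ r := by exact_mod_cast hr ▸ rk_mono hG
    have a3 : (k : ℤ) ≤ r := by exact_mod_cast k1.le
    have a4 : (0 : ℤ) ≤ rk G := Int.natCast_nonneg _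
    have a5 : (0 : ℤ) ≤ k := Int.natCast_nonneg _
    rw [hb, ph, ph, rk_bot, chiL_bot] at a1
    have a6 : (|d| + k * p) * rk G ≤ (|d| + r * p) * r :=
      mul_le_mul (by nlinarith) a2 a4 (by positivity)
    push_cast at a1
    nlinarith
  obtain ⟨U, hU⟩ := split_of_gap (c := |d| + k * p) (c' := |d| + (k + 1 : ℕ) * p)
    (by push_cast; nlinarith) (e ▸ t2 (k + 1)) (r - rk (T k)) V (t1 k) (by omega) (t3 k)
  refine Or.inr ⟨T k, U, hb, ?_, hU⟩
  rintro rfl
  have e1 : T k = V := Lat.ext' fun x => by simpa using (hU x).2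
  rw [e1] at k2
  omega

end Pool.Agent.Lib.CC61.T24
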