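import Pool.Agent.Lib.CC61.GBlue
import Pool.Agent.Lib.CC61.T24TP

/-! Project cc61, blocks TP and IND. -/

noncomputable section

namespace Pool.Agent.Lib.CC61

open Pool.Agent.Lib.MP_cc3443_ag

variable (K : Type) [Field K] [Algebra ℂ K] [Algebra (RatFunc ℂ) K]
  [IsScalarTower ℂ (RatFunc ℂ) K] [FiniteDimensional (RatFunc ℂ) K]

namespace T24

variable {K} {N : ℕ}

theorem tq_iff {c : ℤ} {E F : Lat K N} : TQ' c E F ↔ TQ c E F := by
  refine forall₄_congr fun W _ _ _ => ?_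
  simp only [ph, dg]
  constructor <;> intro h <;> linarith

theorem fq_iff {c : ℤ} {E F : Lat K N} : FQ' c E F ↔ FQ c E F := by
  refine forall₃_congr fun W _ _ => ?_
  simp only [ph, dg]
  constructor <;> intro h <;> linarith

end T24

theorem st_TP : St_TP K :=
  ⟨fun _ _ _ c h => by simpa only [T24.tq_iff, T24.fq_iff] using T24.tp1 c h,
    fun _ _ _ _ _ _ h1 h2 h3 h4 h5 h6 =>
      T24.tp2 h1 h2 h3 h4 (T24.tq_iff.2 h5) (T24.fq_iff.2 h6)⟩

theorem st_IND : St_IND K := fun ν => by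
  obtain ⟨B, hB⟩ := T24.ind_bdd K ν.1 ν.2
  refine ⟨B, fun N V h => (hB N V (congrArg Prod.fst h) (congrArg Prod.snd h)).imp_right ?_⟩
  rintro ⟨G₁, G₂, h1, h2, h3⟩
  exact ⟨G₁, G₂, h1, h2, fun x => by rw [Lat.bot_S]; exact h3 x⟩

end Pool.Agent.Lib.CC61
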