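import Pool.Agent.Lib.CC61.AxKit
import Pool.Agent.Lib.CC61.B_TP

open Finset

noncomputable section

namespace Pool.Agent.Lib.CC61

open Pool.Agent.Lib.MP_cc3443_ag

variable {K : Type} [Field K] [Algebra ℂ K] [Algebra (RatFunc ℂ) K]
  [IsScalarTower ℂ (RatFunc ℂ) K] [FiniteDimensional (RatFunc ℂ) K]

namespace T59

theorem sat_of_word (ha : ∀ ν, Nice ν (bFn ν : Fn K)) {N : ℕ} {F : Lat K N} (w : List Cl) :
    ∀ E, word bFn w N E F ≠ 0 → Sat E F := by
  induction w with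
  | nil => exact fun E h => eq_of_torsFn h ▸ sat_self _
  | cons ν w ih =>
    intro E h
    obtain ⟨G, h1, h2⟩ := Nice.exists_of_hall h
    exact (of_ind_ne_zero h1).2.trans (ih G h2) ((nice_word ha w).le h2)

theorem axb_hecke (ha : ∀ ν, Nice ν (bFn ν : Fn K)) (hW : St_HW K) {h : ℕ} (hχ : chiO K = -h)
    (V : (bun K).Λ) (n : ℕ) : ∃ B, ∀ (l : ℕ) (ξ : (Fin l → Cl) →₀ ℂ),
    (∀ G, (bun K).cl G + (0, (n : ℤ)) = (bun K).cl V → (bun K).Box B G →
      (ξ.sum fun w c => c * wv K bFn G (List.ofFn w)) = 0) →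
    (ξ.sum fun w c => c * hkW h n (wv K bFn V) w) = 0 := by
  classical
  obtain ⟨N, V⟩ := V
  obtain ⟨B, hB⟩ := exists_dg_bound V
  refine ⟨max B (n - dg V), fun l ξ H => ?_⟩
  set s := ξ.support.filter fun w => (List.ofFn w).sum = (rk V, dg V - n) with hs
  have h1 : ∀ w ∈ s, Nice (rk V, dg V - n) (word bFn (List.ofFn w) : Fn K) := fun w hw =>
    (mem_filter.1 hw).2 ▸ nice_word ha _
  have h2 : hall (torsFn n) (∑ w ∈ s, ξ w • word bFn (List.ofFn w)) N V ⊥ = 0 := by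
    refine Nice.hall_eq_zero fun G => by_contra fun hG => right_ne_zero_of_mul hG ?_
    obtain ⟨g1, g2, g3⟩ := hasClass_iff_dg.1 ((Nice.tors n).supp (left_ne_zero_of_mul hG))
    have h3 := H ⟨N, G⟩ (Prod.ext g2.symm g3.symm)
      ⟨fun W hW => (hB W (hW.trans g1)).trans (le_max_left _ _), by
        have := le_max_right B (n - dg V)
        dsimp only at g3 ⊢
        omega⟩
    rw [← h3]
    simp only [Finset.sum_apply, Pi.smul_apply, smul_eq_mul]
    refine sum_filter_of_ne fun w _ hw => ?_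
    rw [← hasClass_bot_iff.1 ((nice_word ha _).supp (right_ne_zero_of_mul hw))]
    exact Prod.ext g2.symm (eq_sub_of_add_eq g3.symm)
  rw [Nice.hall_sum_right (Nice.tors n) s fun w hw => (h1 w hw).smul _,
    sum_congr rfl fun w hw => Nice.hall_smul_right (Nice.tors n) (h1 w hw) _] at h2
  rw [← h2]
  simp only [Finset.sum_apply, Pi.smul_apply, smul_eq_mul]
  have h4 : ∀ w : Fin l → Cl, hkW h n (wv K bFn ⟨N, V⟩) w =
      hall (torsFn n) (word bFn (List.ofFn w)) N V ⊥ := fun w =>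
    (hW h hχ l n w N V ⊥ (sat_bot V)).symm
  simp only [h4]
  refine (sum_filter_of_ne fun w _ hw => ?_).symm
  have h5 := hasClass_bot_iff.1 (((Nice.tors n).mul (nice_word ha _)).supp
    (right_ne_zero_of_mul hw))
  simp only [Prod.ext_iff, Prod.fst_add, Prod.snd_add] at h5 ⊢
  omega

theorem axb_ideal (ha : ∀ ν, Nice ν (bFn ν : Fn K)) (ν : Cl) (ξ : List Cl →₀ ℂ)
    (h1 : ∀ w ∈ ξ.support, w.sum = ν) (h2 : ∀ W, (ξ.sum fun w c => c * wv K bFn W w) = 0)
    (V : (bun K).Λ) (u v : List Cl) : (ξ.sum fun w c => c * wv K bFn V (u ++ w ++ v)) = 0 := by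
  have h3 : (ξ.sum fun w c => c • word bFn w : Fn K) = 0 := by
    funext N E F
    by_cases h : F ≤ E ∧ Sat E F
    · obtain ⟨W, -, -, hW⟩ := Nice.sat_model h.1 h.2
      rw [hW ν _ (nice_comb ha ξ h1)]
      simpa [Finsupp.sum, wv] using h2 ⟨N, W⟩
    · have : ∀ w, word bFn w N E F = 0 := fun w =>
        by_contra fun h' => h ⟨(nice_word ha w).le h', sat_of_word ha w E h'⟩
      simp [Finsupp.sum, this]
  simpa [Finsupp.sum, wv] using
    congrFun (congrFun (congrFun (word_ideal ha ξ h1 h3 u v) V.1) V.2) ⊥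

end T59

variable (K) in
theorem st_AXB (hL : St_LET K) (hC : St_COPB K) (hW : St_HW K) (hS : St_SUBQ K) (hN : St_NC K)
    (hV : St_VS K) (hT : St_TWIST K) (hO : St_OPER3 K) : St_AXB K := by
  intro h hh hχ
  have ha := hL.1
  have hA := axW_bun ha hL.2.2.2.2.2.2.2.2.1
  have hv : ∀ r, VanP K r := fun r => by
    induction r with
    | zero => exact (hV h hχ).1
    | succ r ih => exact (hV h hχ).2 r ih (hN r ih)
  refine ⟨hA, hh, fun V u v m hm => ?_, fun l V W w => hC l _ _ V.2 W.2 w, T59.axb_hecke ha hW hχ,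
    fun V k => ?_, fun r B => ?_, fun ν => ?_, T59.axb_ideal ha, fun r hr => ?_⟩
  · rw [wv, word_zero ha (hL.2.2.2.2.2.2.2.2.2.1 m hm)]
    rfl
  · obtain ⟨x⟩ : Nonempty (Place K) := inferInstance
    have e : (Finsupp.single x k).degree = k := Finsupp.degree_single _ _
    have er : ∀ L : Lat K V.1, rk (L.twist (Finsupp.single x k)) = rk L := fun L => by
      rw [rk, Lat.gen_twist, rk]
    refine ⟨⟨V.1, V.2.twist (Finsupp.single x k)⟩, Prod.ext (er _) ?_, fun w => ?_⟩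
    · exact (dg_twist _ _).trans (by rw [e, mul_comm]; rfl)
    · have := hT (Finsupp.single x k) w V.1 V.2 ⊥
      rwa [e, eq_bot_of_rk ((er ⊥).trans rk_bot)] at this
  · obtain ⟨L, hL'⟩ := hv r B
    refine ⟨L, fun V h1 h2 i j m l hl => ?_⟩
    by_cases h3 : i + j = rk V.2 ∧ m + l = dg V.2
    · rw [← hL' V.1 V.2 h1 h2 j l hl, hS h hχ V.1 V.2 j l (by omega),
        show rk V.2 - j = i by omega, show dg V.2 - l = m by omega]
      rfl
    · refine sum_eq_zero fun k _ => mul_eq_zero_of_right _ (by_contra fun h4 => h3 ?_)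
      have h5 := hA.supp h4
      simp only [List.sum_cons, List.sum_nil, Prod.ext_iff, Prod.fst_add, Prod.snd_add, bun,
        Prod.fst_zero, Prod.snd_zero] at h5
      omega
  · obtain ⟨B, hB⟩ := st_IND K ν
    refine ⟨max B (-ν.2), fun V hV' => (hB V.1 V.2 hV').imp (fun h1 => ⟨fun W hW =>
      (h1 W hW).trans (le_max_left _ _), ?_⟩) ?_⟩
    · rw [← hV']
      exact neg_le.1 (le_max_right _ _)
    · rintro ⟨G₁, G₂, h1, h2, h3⟩
      obtain ⟨h4, h5⟩ := isSum_iff.1 h3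
      have h6 := rk_lsup_add_linf G₁ G₂
      have h7 := dg_lsup_add_linf G₁ G₂
      rw [h4, h5] at h6 h7
      refine ⟨⟨_, G₁⟩, ⟨_, G₂⟩, Nat.pos_of_ne_zero fun h => h1 (eq_bot_of_rk h),
        Nat.pos_of_ne_zero fun h => h2 (eq_bot_of_rk h), ?_, funext fun w => ?_⟩
      · rw [← hV']
        exact Prod.ext ((rk_oplus _ _).trans (by simpa [bun] using h6.symm))
          ((dg_oplus _ _).trans (by simpa [dg_bot, bun] using h7.symm))
      · exact ((nice_word ha w).isSum h3).trans (by rw [oplus_bot]; rfl)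
  · obtain ⟨N, V, h1⟩ := hO h hχ r hr
    exact ⟨⟨N, V⟩, h1⟩

end Pool.Agent.Lib.CC61
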