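import Pool.Agent.Lib.CC61.AKit

open Finset

noncomputable section

namespace Pool.Agent.Lib.CC61

theorem st_AXN (hN : St_NUM) (hC : St_CONV) (hH : St_HC) (hO : St_NOP) : St_AXN := by
  intro h X wb H l
  choose S hA hS using (hN h X wb H l).1
  refine ⟨S, hS, H.hpos, H.cl_add, hA, fun V W => (hS _).unique (hC h X wb H l V W _ _ (hS V) (hS W)),
    hH h X wb H l S hS, fun V k => ?_, fun r h1 h2 => ?_⟩
  · obtain ⟨V', h1, h2⟩ := H.twist V k
    refine ⟨V', h1, (hS V').unique fun γ => ?_⟩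
    have e : EE (wb V') γ = act (TW k γ) (EE (wb V) γ) := by
      funext m
      rw [TW, act_zz, EE, EE, ← h2, List.map_ofFn]
      congr 2
      funext a
      simp [twC]
    rw [e, ← act_mul, mul_comm, act_mul, hS V γ, act_coeff]
    rfl
  · obtain ⟨V, h3, h4⟩ := hO h X wb H l r h1 h2
    exact ⟨V, h3, h4 _ (hA V) (hS V)⟩

end Pool.Agent.Lib.CC61
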