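import Pool.Agent.Lib.CC61.B_RHO

open Filter Set Module

noncomputable section

namespace Pool.Agent.Lib.CC61

open Pool.Agent.Lib.MP_cc3443_ag

variable (K : Type) [Field K] [Algebra ℂ K] [Algebra (RatFunc ℂ) K]
  [IsScalarTower ℂ (RatFunc ℂ) K] [FiniteDimensional (RatFunc ℂ) K]

open T39 in
theorem st_AXS (hL : St_LET K) (hC : St_COPS K) (hR : St_RHO K) : St_AXS K where
  toAxW := axW_wv hL.2.1 (ss_zero hL)
  inval := fun V w h x hx => by
    by_contra hn
    obtain ⟨u, v, rfl⟩ := List.append_of_mem hx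
    exact h (by simp only [wv, word_zero hL.2.1 (hL.2.2.2.2.2.2.2.1 x hn)]; rfl)
  cop := fun V W t => by
    have := hC _ _ V.2 ⊥ W.2 ⊥ t bot_le bot_le
    rwa [oplus_bot] at this
  ideal := fun ν y hν hy h0 V u v => by
    have h1 := (hR.1 ν y (mem_Pr.mp hy).1).1
    have h2 : (rho y : Fn K) = 0 := by
      funext N E F
      by_contra hn
      obtain ⟨h3, h4, -⟩ := hasClass_iff_dg.mp (h1.supp hn)
      by_cases hs : Sat E F
      · obtain ⟨W, -, -, h5⟩ := Nice.sat_model h3 hs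
        exact hn ((h5 ν _ h1).trans (h0 ⟨N, W⟩))
      · exact hn ((hR.2.2.1 ν y hy).not_sat h3 hs (by omega))
    exact congrFun (congrFun (congrFun (hR.2.2.2 ν y (mem_Pr.mp hy).1 h2 u v) V.1) V.2) ⊥

end Pool.Agent.Lib.CC61
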