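import Pool.Agent.Lib.CC61.AKit

open Finset

noncomputable section

namespace Pool.Agent.Lib.CC61

namespace T33

variable {l : ℕ}

/-- Exponent vectors with all initial sums in a window form a finite set. -/
lemma fin_win (lo hi : ℕ → ℤ) :
    {m : Fin l → ℤ | ∀ k : ℕ, lo k ≤ ∑ a with a.1 < k, m a ∧ ∑ a with a.1 < k, m a ≤ hi k}.Finite := by
  refine (Set.Finite.pi' (t := fun a : Fin l => Set.Icc (lo (a.1 + 1) - hi a.1) (hi (a.1 + 1) - lo a.1))
    fun a => Set.finite_Icc _ _).subset fun m hm a => ?_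
  have e : ∑ c with c.1 < a.1 + 1, m c = m a + ∑ c with c.1 < a.1, m c := by
    rw [← Finset.sum_insert (by simp)]
    refine Finset.sum_congr ?_ fun _ _ => rfl
    ext c
    simp only [Finset.mem_filter, Finset.mem_univ, true_and, Finset.mem_insert, Fin.ext_iff]
    omega
  have h1 := hm a.1
  have h2 := hm (a.1 + 1)
  rw [e] at h2
  constructor <;> linarith [h1.1, h1.2, h2.1, h2.2]

/-- Convolution of distributions. -/
def conv (F G : Ds l) : Ds l := fun m => ∑ᶠ s, F s * G (m - s)

lemma conv_fin {F G : Ds l} (hF : LowB F) (hG : LowB G) (m : Fin l → ℤ) :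
    (Function.support fun s => F s * G (m - s)).Finite := by
  obtain ⟨B, hB⟩ := hF
  obtain ⟨B', hB'⟩ := hG
  refine (fin_win (fun _ => -B) fun k => B' + ∑ a with a.1 < k, m a).subset fun s hs k => ?_
  have h1 := hB s (left_ne_zero_of_mul hs) k
  have h2 := hB' _ (right_ne_zero_of_mul hs) k
  simp only [Pi.sub_apply, Finset.sum_sub_distrib] at h2
  exact ⟨h1, by linarith⟩

lemma conv_comm (F G : Ds l) : conv F G = conv G F := by
  funext m
  refine finsum_eq_of_bijective (Equiv.subLeft m) (Equiv.subLeft m).bijective fun s => ?_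
  simp [mul_comm]

lemma act_conv {F G : Ds l} (hF : LowB F) (hG : LowB G) (P : LP l) :
    act P (conv F G) = conv (act P F) G := by
  refine LP.induction (p := fun P => act P (conv F G) = conv (act P F) G) P ?_
    (fun P P' h h' => ?_) fun c s _ => ?_
  · funext m; simp [conv]
  · funext m
    rw [map_add, LinearMap.add_apply, h, h', LinearMap.add_apply]
    simp only [conv, Pi.add_apply, add_mul]
    exact (finsum_add_distrib (conv_fin (hF.act P) hG m) (conv_fin (hF.act P') hG m)).symm
  · funext m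
    simp only [map_smul, LinearMap.smul_apply, Pi.smul_apply, act_zz, conv, smul_eq_mul]
    rw [mul_finsum]
    refine finsum_eq_of_bijective (Equiv.addRight s) (Equiv.addRight s).bijective fun t => ?_
    simp [mul_assoc, sub_sub, add_comm]

lemma act_mul_conv {F G : Ds l} (hF : LowB F) (hG : LowB G) (P Q : LP l) :
    act (P * Q) (conv F G) = conv (act P F) (act Q G) := by
  rw [act_mul, conv_comm, act_conv hG hF, conv_comm, act_conv hF (hG.act Q)]

lemma conv_coeff (P Q : LP l) : conv (P.coeff : Ds l) (Q.coeff : Ds l) = ((P * Q).coeff : Ds l) := by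
  funext m
  rw [coeff_mul_eq, conv]
  exact finsum_eq_sum_of_support_subset _ fun s hs => by
    simpa using left_ne_zero_of_mul hs

lemma EE_add {h : ℕ} {X : Sys} {wb : X.Λ → List Cl → ℂ} (H : AxB h X wb) (V W : X.Λ)
    (γ : Fin l → ℕ) :
    EE (wb (X.add V W)) γ = ∑ δ ∈ Iic γ, conv (EE (wb V) δ) (EE (wb W) (γ - δ)) := by
  classical
  funext m
  have hf := fun δ : Fin l → ℕ =>
    conv_fin (H.toAxW.lowB_EE V δ) (H.toAxW.lowB_EE W (γ - δ)) m
  set T := (Iic γ).biUnion fun δ => (hf δ).toFinset with hT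
  set φ : (Fin l → ℕ) × (Fin l → ℤ) → (Fin l → Cl) × (Fin l → Cl) := fun q =>
    (fun a => (q.1 a, q.2 a), fun a => ((γ - q.1) a, (m - q.2) a)) with hφ
  have e1 : (∑ δ ∈ Iic γ, conv (EE (wb V) δ) (EE (wb W) (γ - δ))) m =
      ∑ q ∈ Iic γ ×ˢ T, wb V (List.ofFn (φ q).1) * wb W (List.ofFn (φ q).2) := by
    rw [Finset.sum_apply, Finset.sum_product]
    refine Finset.sum_congr rfl fun δ hδ => ?_
    exact finsum_eq_sum_of_support_subset _ fun s hs =>
      Finset.mem_coe.2 (Finset.mem_biUnion.2 ⟨δ, hδ, (Set.Finite.mem_toFinset _).2 hs⟩)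
  rw [e1, EE, H.cop, finsum_eq_sum_of_support_subset (s := (Iic γ ×ˢ T).image φ),
    Finset.sum_image]
  · refine Finset.sum_congr rfl fun q hq => if_pos ?_
    have h1 : q.1 ≤ γ := Finset.mem_Iic.1 (Finset.mem_product.1 hq).1
    funext a
    have : q.1 a ≤ γ a := h1 a
    refine Prod.ext ?_ ?_
    · simp only [hφ, Pi.add_apply, Prod.fst_add, Pi.sub_apply]; omega
    · simp [hφ]
  · intro q _ q' _ e
    have := congrArg Prod.fst e
    exact Prod.ext (funext fun a => congrArg Prod.fst (congrFun this a))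
      (funext fun a => congrArg Prod.snd (congrFun this a))
  · intro p hp
    have h1 : p.1 + p.2 = fun a => (γ a, m a) := by
      by_contra h1
      exact hp (if_neg h1)
    have h2 : wb V (List.ofFn p.1) * wb W (List.ofFn p.2) ≠ 0 := by
      intro h2
      exact hp (by simp only [if_pos h1, h2])
    have h3 : ∀ a, (p.1 a).1 + (p.2 a).1 = γ a := fun a => congrArg Prod.fst (congrFun h1 a)
    have h4 : ∀ a, (p.1 a).2 + (p.2 a).2 = m a := fun a => congrArg Prod.snd (congrFun h1 a)
    have h5 : φ (fun a => (p.1 a).1, fun a => (p.1 a).2) = p := by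
      refine Prod.ext rfl (funext fun a => Prod.ext ?_ ?_)
      · have := h3 a
        simp only [hφ, Pi.sub_apply]; omega
      · have := h4 a
        simp only [hφ, Pi.sub_apply]; omega
    have h6 : (fun a => (p.1 a).1) ∈ Iic γ := Finset.mem_Iic.2 fun a => by
      have := h3 a
      simp only; omega
    refine Finset.mem_coe.2 (Finset.mem_image.2 ⟨_, Finset.mem_product.2 ⟨h6, ?_⟩, h5⟩)
    refine Finset.mem_biUnion.2 ⟨_, h6, (Set.Finite.mem_toFinset _).2 ?_⟩
    rw [← h5] at h2
    exact h2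

end T33

theorem st_CONV : St_CONV := by
  intro h X wb H l V W S S' hS hS' γ
  rw [T33.EE_add H, map_sum]
  have e : ∀ δ ∈ Iic γ, act (Dl h γ) (T33.conv (EE (wb V) δ) (EE (wb W) (γ - δ))) =
      ((cross h δ (γ - δ) * (S δ * S' (γ - δ))).coeff : Ds l) := by
    intro δ hδ
    have h1 : δ + (γ - δ) = γ := add_tsub_cancel_of_le (Finset.mem_Iic.1 hδ)
    rw [← act_coeff, ← T33.conv_coeff, ← hS δ, ← hS' (γ - δ),
      ← T33.act_mul_conv (H.toAxW.lowB_EE V δ) (H.toAxW.lowB_EE W (γ - δ)), ← act_mul, ← Dl_add, h1]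
  rw [Finset.sum_congr rfl e]
  funext m
  simp [sh, Finset.sum_apply]

end Pool.Agent.Lib.CC61
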