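import Pool.Agent.Lib.CC61.GDefs

open Filter Set Module

noncomputable section

namespace Pool.Agent.Lib.CC61

open Pool.Agent.Lib.MP_cc3443_ag

variable {K : Type} [Field K] [Algebra ℂ K] [Algebra (RatFunc ℂ) K]
  [IsScalarTower ℂ (RatFunc ℂ) K] [FiniteDimensional (RatFunc ℂ) K] {N N' : ℕ}
  {μ ν κ : Cl} {f f' g g' k : Fn K}

namespace Nice

lemma le (hf : Nice ν f) {E F : Lat K N} (h : f N E F ≠ 0) : F ≤ E := (hasClass_iff.1 (hf.supp h)).1

lemma zero (ν : Cl) : Nice ν (0 : Fn K) :=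
  ⟨fun h => absurd rfl h, fun N E₀ => by simpa using DFun.const (0 : ℂ), fun _ _ => rfl⟩

lemma add (hf : Nice ν f) (hg : Nice ν g) : Nice ν (f + g) := by
  refine ⟨fun {N E F} h0 => ?_, fun N E₀ => by simpa [mul_add] using (hf.bdd N E₀).add (hg.bdd N E₀),
    fun hΓ h => by simp only [Pi.add_apply, hf.iso hΓ h, hg.iso hΓ h]⟩
  by_cases h1 : f N E F = 0
  · exact hg.supp fun h2 => h0 (by simp [h1, h2])
  · exact hf.supp h1

lemma smul (c : ℂ) (hf : Nice ν f) : Nice ν (c • f) :=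
  ⟨fun h0 => hf.supp fun h1 => h0 (by simp [h1]),
    fun N E₀ => by simpa [mul_left_comm] using (DFun.const c).mul (hf.bdd N E₀),
    fun hΓ h => by simp only [Pi.smul_apply, hf.iso hΓ h]⟩

lemma sum {ι : Type*} (s : Finset ι) {F : ι → Fn K} (h : ∀ i ∈ s, Nice ν (F i)) :
    Nice ν (∑ i ∈ s, F i) :=
  Finset.sum_induction F (Nice ν) (fun _ _ => add) (zero ν) h

lemma tors (d : ℕ) : Nice (0, (d : ℤ)) (torsFn d : Fn K) :=
  ⟨(Sph.tors d).supp, (Sph.tors d).bdd, fun hΓ h => (Sph.tors d).iso_eq hΓ h⟩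

lemma unit : Nice 0 (torsFn 0 : Fn K) := tors 0

/-- Definability in the upper lattice. -/
lemma dfun_right (hg : Nice ν g) (E F : Lat K N) : DFun fun G => ind (G ≤ E) * g N G F :=
  (hg.bdd N E).comp (f := fun G => (G, F)) (by fun_prop)

lemma dfun_left (hf : Nice μ f) (E : Lat K N) : DFun fun G => f N E G := hf.bdd.left E

lemma dfun_hall (hf : Nice μ f) (hg : Nice ν g) (E F : Lat K N) :
    DFun fun G => f N E G * g N G F := by
  have h := (hf.dfun_left E).mul (hg.dfun_right E F)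
  have e : (fun G => f N E G * g N G F) = fun G => f N E G * (ind (G ≤ E) * g N G F) := by
    funext G
    by_cases h0 : f N E G = 0
    · simp [h0]
    · simp [hf.le h0]
  rwa [e]

lemma qr (hf : Nice μ f) (hg : Nice ν g) {E F G : Lat K N} (h : f N E G * g N G F ≠ 0) :
    QR E (rk F + ν.1) (chiL F + ν.2 + ν.1 * chiO K) G :=
  ⟨hf.le (left_ne_zero_of_mul h), (hasClass_iff.1 (hg.supp (right_ne_zero_of_mul h))).2⟩

lemma hall_eq (hf : Nice μ f) (hg : Nice ν g) (E F : Lat K N) : hall f g N E F =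
    (QC E (rk F + ν.1) (chiL F + ν.2 + ν.1 * chiO K)).int fun G => f N E G * g N G F :=
  lim_eq (hf.dfun_hall hg E F) fun _ h => hf.qr hg h

/-- The integral may be taken inside any larger lattice. -/
lemma hall_eq' (hf : Nice μ f) (hg : Nice ν g) {E A : Lat K N} (h : E ≤ A) (F : Lat K N) :
    hall f g N E F =
      (QC A (rk F + ν.1) (chiL F + ν.2 + ν.1 * chiO K)).int fun G => f N E G * g N G F := by
  rw [hf.hall_eq hg]
  refine Chart.int_indep _ _ (hf.dfun_hall hg E F) fun G hG => ?_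
  have := hf.qr hg hG
  rw [QC_R, QC_R]
  exact ⟨fun _ => ⟨this.1.trans h, this.2⟩, fun _ => this⟩

lemma hall_congr (hf : Nice μ f) (hg : Nice ν g) {μ' : Cl} (hf' : Nice μ' f') (hg' : Nice ν g')
    {E F : Lat K N} (h : ∀ G, G ≤ E → f N E G * g N G F = f' N E G * g' N G F) :
    hall f g N E F = hall f' g' N E F := by
  rw [hf.hall_eq hg, hf'.hall_eq hg']
  exact Chart.int_congr _ fun G hG => h G (QC_R.1 hG).1

lemma hall_eq_zero {E F : Lat K N} (h : ∀ G, f N E G * g N G F = 0) : hall f g N E F = 0 := by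
  simp only [hall, h]
  exact lim_eq_zero E

lemma exists_of_hall {E F : Lat K N} (h : hall f g N E F ≠ 0) :
    ∃ G, f N E G ≠ 0 ∧ g N G F ≠ 0 := by
  by_contra hn
  exact h (hall_eq_zero fun G => by_contra fun h1 =>
    hn ⟨G, left_ne_zero_of_mul h1, right_ne_zero_of_mul h1⟩)

/-- At most one intermediate lattice contributes. -/
lemma hall_single (hf : Nice μ f) (hg : Nice ν g) {E F G₀ : Lat K N} (h0 : G₀ ≤ E)
    (h1 : HasClass G₀ F ν) (h : ∀ G, f N E G ≠ 0 → g N G F ≠ 0 → G = G₀) :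
    hall f g N E F = f N E G₀ * g N G₀ F := by
  rw [hf.hall_eq hg]
  exact Chart.int_single _ (QC_R.2 ⟨h0, (hasClass_iff.1 h1).2⟩) fun G _ hne => by_contra fun h2 =>
    hne (h G (left_ne_zero_of_mul h2) (right_ne_zero_of_mul h2))

lemma mul (hf : Nice μ f) (hg : Nice ν g) : Nice (μ + ν) (hall f g) := by
  refine ⟨fun h => ?_, fun N E₀ => ?_, fun {N N' Γ E F E' F'} hΓ h => ?_⟩
  · obtain ⟨G, h1, h2⟩ := exists_of_hall h
    exact (hf.supp h1).trans (hg.supp h2)
  · refine DFun.of_cover (fun (j : ℕ × ℤ) p => rk p.2 = j.1 ∧ chiL p.2 = j.2)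
      (fun j p => ind (p.1 ≤ E₀) * (QC E₀ (j.1 + ν.1) (j.2 + ν.2 + ν.1 * chiO K)).int fun G =>
        (ind (p.1 ≤ E₀) * f N p.1 G) * (ind (G ≤ E₀) * g N G p.2))
      (fun j => ((Del.rk_eq (by fun_prop) _).and (Del.chiL_eq (by fun_prop) _)).1) (fun j => ?_)
      (fun p => ⟨(rk p.2, chiL p.2), rfl, rfl⟩) ?_
    · exact (Del.le (by fun_prop) (by fun_prop)).ind.mul (Chart.dfun_int _
        (F := fun q : (Lat K N × Lat K N) × Lat K N =>
          (ind (q.1.1 ≤ E₀) * f N q.1.1 q.2) * (ind (q.2 ≤ E₀) * g N q.2 q.1.2))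
        (((hf.bdd N E₀).comp (f := fun q : (Lat K N × Lat K N) × Lat K N => (q.1.1, q.2))
          (by fun_prop)).mul ((hg.bdd N E₀).comp
            (f := fun q : (Lat K N × Lat K N) × Lat K N => (q.2, q.1.2)) (by fun_prop))))
    · rintro j ⟨E, F⟩ ⟨h1, h2⟩
      simp only at h1 h2 ⊢
      by_cases h : E ≤ E₀
      · rw [hf.hall_eq' hg h, ← h1, ← h2]
        congr 1
        exact Chart.int_congr _ fun G hG => by simp [h, (QC_R.1 hG).1]
      · simp [h]
  · rw [hf.hall_eq hg, hf.hall_eq hg]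
    have := h.cls F F' le_rfl h.le h.bot
    refine h.int_eq hΓ le_rfl le_rfl (by omega) (by omega) (hf.dfun_hall hg E F)
      (fun G h1 h2 => ⟨hg.le (right_ne_zero_of_mul h2), h1.1⟩)
      (fun G h1 h2 => ⟨hg.le (right_ne_zero_of_mul h2), h1.1⟩) fun G G' _ h1 h2 h3 => ?_
    rw [hf.iso hΓ (h.sub h1 h2 le_rfl h.top h3), hg.iso hΓ (h.sub le_rfl h1 h2 h3 h.bot)]

lemma hall_add_left (hf : Nice μ f) (hf' : Nice μ f') (hg : Nice ν g) :
    hall (f + f') g = hall f g + hall f' g := by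
  funext N E F
  simp only [Pi.add_apply]
  rw [(hf.add hf').hall_eq hg, hf.hall_eq hg, hf'.hall_eq hg,
    ← Chart.int_add _ (hf.dfun_hall hg E F) (hf'.dfun_hall hg E F)]
  simp only [Pi.add_apply, add_mul]

lemma hall_add_right (hf : Nice μ f) (hg : Nice ν g) (hg' : Nice ν g') :
    hall f (g + g') = hall f g + hall f g' := by
  funext N E F
  simp only [Pi.add_apply]
  rw [hf.hall_eq (hg.add hg'), hf.hall_eq hg, hf.hall_eq hg',
    ← Chart.int_add _ (hf.dfun_hall hg E F) (hf.dfun_hall hg' E F)]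
  simp only [Pi.add_apply, mul_add]

lemma hall_smul_left (hf : Nice μ f) (hg : Nice ν g) (c : ℂ) : hall (c • f) g = c • hall f g := by
  funext N E F
  simp only [Pi.smul_apply, smul_eq_mul]
  rw [(hf.smul c).hall_eq hg, hf.hall_eq hg, ← Chart.int_const_mul _ (hf.dfun_hall hg E F)]
  simp only [Pi.smul_apply, smul_eq_mul, mul_assoc]

lemma hall_smul_right (hf : Nice μ f) (hg : Nice ν g) (c : ℂ) : hall f (c • g) = c • hall f g := by
  funext N E F
  simp only [Pi.smul_apply, smul_eq_mul]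
  rw [hf.hall_eq (hg.smul c), hf.hall_eq hg, ← Chart.int_const_mul _ (hf.dfun_hall hg E F)]
  simp only [Pi.smul_apply, smul_eq_mul, mul_left_comm]

end Nice

@[simp] lemma hall_zero_left (g : Fn K) : hall 0 g = 0 := by
  funext N E F; exact Nice.hall_eq_zero fun G => by simp

@[simp] lemma hall_zero_right (f : Fn K) : hall f 0 = 0 := by
  funext N E F; exact Nice.hall_eq_zero fun G => by simp

lemma torsFn_self (E : Lat K N) : torsFn 0 N E E = 1 := by
  have : HasClass E E (0, ((0 : ℕ) : ℤ)) := hasClass_iff.2 ⟨le_rfl, by simp, by simp⟩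
  exact if_pos this

lemma eq_of_torsFn {E F : Lat K N} (h : torsFn 0 N E F ≠ 0) : E = F :=
  by_contra fun h1 => h (torsFn_zero h1)

namespace Nice

lemma hall_sum_left {ι : Type*} (s : Finset ι) {F : ι → Fn K} (h : ∀ i ∈ s, Nice μ (F i))
    (hg : Nice ν g) : hall (∑ i ∈ s, F i) g = ∑ i ∈ s, hall (F i) g := by
  classical
  induction s using Finset.induction_on with
  | empty => simp
  | insert a s ha ih =>
    rw [Finset.sum_insert ha, Finset.sum_insert ha, (h a (Finset.mem_insert_self _ _)).hall_add_left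
      (Nice.sum s fun i hi => h i (Finset.mem_insert_of_mem hi)) hg,
      ih fun i hi => h i (Finset.mem_insert_of_mem hi)]

lemma hall_sum_right (hf : Nice μ f) {ι : Type*} (s : Finset ι) {F : ι → Fn K}
    (h : ∀ i ∈ s, Nice ν (F i)) : hall f (∑ i ∈ s, F i) = ∑ i ∈ s, hall f (F i) := by
  classical
  induction s using Finset.induction_on with
  | empty => simp
  | insert a s ha ih =>
    rw [Finset.sum_insert ha, Finset.sum_insert ha, hf.hall_add_right
      (h a (Finset.mem_insert_self _ _)) (Nice.sum s fun i hi => h i (Finset.mem_insert_of_mem hi)),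
      ih fun i hi => h i (Finset.mem_insert_of_mem hi)]

lemma hall_unit_right (hf : Nice μ f) : hall f (torsFn 0) = f := by
  funext N E F
  by_cases h : F ≤ E
  · rw [hf.hall_single unit h (hasClass_iff.2 ⟨le_rfl, by simp, by simp⟩)
      fun G _ h2 => eq_of_torsFn h2, torsFn_self, mul_one]
  · rw [hall_eq_zero fun G => ?_, by_contra fun h1 => h (hf.le h1)]
    by_contra h1
    exact h (eq_of_torsFn (right_ne_zero_of_mul h1) ▸ hf.le (left_ne_zero_of_mul h1))

lemma hall_unit_left (hg : Nice ν g) : hall (torsFn 0) g = g := by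
  funext N E F
  by_cases h : g N E F = 0
  · rw [h]
    refine hall_eq_zero fun G => by_contra fun h1 => ?_
    exact right_ne_zero_of_mul h1 (eq_of_torsFn (left_ne_zero_of_mul h1) ▸ h)
  · rw [unit.hall_single hg le_rfl (hg.supp h) fun G h2 _ => (eq_of_torsFn h2).symm, torsFn_self,
      one_mul]

lemma hall_assoc (hf : Nice μ f) (hg : Nice ν g) (hk : Nice κ k) :
    hall (hall f g) k = hall f (hall g k) := by
  funext N E F
  have hD : DFun fun p : Lat K N × Lat K N =>
      f N E p.2 * (ind (p.2 ≤ E) * g N p.2 p.1) * (ind (p.1 ≤ E) * k N p.1 F) :=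
    (((hf.dfun_left E).comp (by fun_prop)).mul ((hg.bdd N E).comp
      (f := fun p : Lat K N × Lat K N => (p.2, p.1)) (by fun_prop))).mul
      ((hk.dfun_right E F).comp (by fun_prop))
  have h := Chart.int_swap (QC E (rk F + κ.1) (chiL F + κ.2 + κ.1 * chiO K))
    (QC E (rk F + (ν + κ).1) (chiL F + (ν + κ).2 + (ν + κ).1 * chiO K)) hD
  rw [(hf.mul hg).hall_eq hk, hf.hall_eq (hg.mul hk)]
  refine Eq.trans (Chart.int_congr _ fun G hG => ?_) (h.trans (Chart.int_congr _ fun G hG => ?_))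
  · obtain ⟨h1, h2, h3⟩ := QC_R.1 hG
    have e1 : rk G + ν.1 = rk F + (ν + κ).1 := by rw [h2, Prod.fst_add]; ring
    have e2 : chiL G + ν.2 + ν.1 * chiO K = chiL F + (ν + κ).2 + (ν + κ).1 * chiO K := by
      rw [h3, Prod.fst_add, Prod.snd_add]; push_cast; ring
    rw [hf.hall_eq hg, e1, e2, ← Chart.int_mul_const _ (hf.dfun_hall hg E G)]
    exact Chart.int_congr _ fun A hA => by simp [h1, (QC_R.1 hA).1]
  · have h1 := (QC_R.1 hG).1
    rw [hg.hall_eq' hk h1, ← Chart.int_const_mul _ (hg.dfun_hall hk G F)]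
    exact Chart.int_congr _ fun A hA => by simp [h1, (QC_R.1 hA).1, mul_assoc]

end Nice

section word
variable {a : Cl → Fn K} (ha : ∀ ν, Nice ν (a ν))
include ha

lemma nice_word (w : List Cl) : Nice w.sum (word a w) := by
  induction w with
  | nil => exact Nice.unit
  | cons ν w ih => rw [List.sum_cons]; exact (ha ν).mul ih

lemma word_single (ν : Cl) : word a [ν] = a ν := (ha ν).hall_unit_right

lemma word_append (u v : List Cl) : word a (u ++ v) = hall (word a u) (word a v) := by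
  induction u with
  | nil => exact (nice_word ha v).hall_unit_left.symm
  | cons ν u ih =>
    rw [List.cons_append, word, word, ih, (ha ν).hall_assoc (nice_word ha u) (nice_word ha v)]

lemma word_tail {u v : List Cl} {E F : Lat K N} (h : word a (u ++ v) N E F ≠ 0) :
    ∃ G, G ≤ E ∧ HasClass G F v.sum := by
  rw [word_append ha] at h
  obtain ⟨G, h1, h2⟩ := Nice.exists_of_hall h
  exact ⟨G, (nice_word ha u).le h1, (nice_word ha v).supp h2⟩

lemma word_nil0 (h0 : a 0 = torsFn 0) (u v : List Cl) : word a (u ++ 0 :: v) = word a (u ++ v) := by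
  rw [word_append ha, word_append ha, word, h0, (nice_word ha v).hall_unit_left]

lemma word_zero {ν : Cl} (h0 : a ν = 0) (u v : List Cl) : word a (u ++ ν :: v) = 0 := by
  rw [word_append ha, word, h0, hall_zero_left, hall_zero_right]

lemma nice_comb (ξ : List Cl →₀ ℂ) (h : ∀ w ∈ ξ.support, w.sum = ν) :
    Nice ν (ξ.sum fun w c => c • word a w) :=
  Nice.sum _ fun w hw => (h w hw ▸ nice_word ha w).smul _

/-- A relation between words survives multiplication on both sides. -/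
lemma word_ideal (ξ : List Cl →₀ ℂ) (h : ∀ w ∈ ξ.support, w.sum = ν)
    (h0 : (ξ.sum fun w c => c • word a w) = 0) (u v : List Cl) :
    (ξ.sum fun w c => c • word a (u ++ w ++ v)) = 0 := by
  have h1 : ∀ w ∈ ξ.support, Nice ν (word a w) := fun w hw => h w hw ▸ nice_word ha w
  have e : (ξ.sum fun w c => c • word a (u ++ w ++ v)) =
      hall (hall (word a u) (ξ.sum fun w c => c • word a w)) (word a v) := by
    rw [Finsupp.sum, Finsupp.sum, (nice_word ha u).hall_sum_right _ fun w hw => (h1 w hw).smul _,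
      Nice.hall_sum_left _ (fun w hw => (nice_word ha u).mul ((h1 w hw).smul _)) (nice_word ha v)]
    refine Finset.sum_congr rfl fun w hw => ?_
    rw [(nice_word ha u).hall_smul_right (h1 w hw),
      ((nice_word ha u).mul (h1 w hw)).hall_smul_left (nice_word ha v), word_append ha,
      word_append ha]
  rw [e, h0, hall_zero_right, hall_zero_left]

end word

/-- Disintegration along a definable map to lattices. -/
lemma disint {Y : Type} [Coded Y] (C : Chart Y) (A : Lat K N) {ψ : Y → ℂ} (hψ : DFun ψ)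
    {Γ : Y × Lat K N → Prop} (hΓ : Del Γ) (I : Finset (ℕ × ℤ))
    (h : ∀ y, C.R y → ψ y ≠ 0 → ∃ G, Γ (y, G) ∧ G ≤ A ∧ (rk G, chiL G) ∈ I ∧
      ∀ G', G' ≤ A → Γ (y, G') → G' = G) :
    C.int ψ = ∑ j ∈ I, (QC A j.1 j.2).int fun G => C.int fun y => ind (Γ (y, G)) * ψ y := by
  have hD : DFun fun p : Y × Lat K N => ind (Γ p) * ψ p.1 := hΓ.ind.mul (hψ.comp (by fun_prop))
  have h1 : ∀ j : ℕ × ℤ, ((QC A j.1 j.2).int fun G => C.int fun y => ind (Γ (y, G)) * ψ y) =
      C.int fun y => (QC A j.1 j.2).int fun G => ind (Γ (y, G)) * ψ y :=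
    fun j => (Chart.int_swap C (QC A j.1 j.2) hD).symm
  simp only [h1]
  rw [← Chart.int_sum _ _ fun j _ => Chart.dfun_int _ hD]
  refine Chart.int_congr _ fun y hy => ?_
  by_cases h0 : ψ y = 0
  · simp [h0]
  obtain ⟨G, h2, h3, h4, h5⟩ := h y hy h0
  rw [Finset.sum_eq_single (rk G, chiL G) (fun j _ hj => ?_) fun h6 => absurd h4 h6,
    Chart.int_single _ (QC_R.2 ⟨h3, rfl, rfl⟩) fun G' hG' hne => ?_]
  · simp [h2]
  · simp [ind_false fun h6 => hne (h5 G' (QC_R.1 hG').1 h6)]
  · refine Chart.int_eq_zero _ fun G' hG' => ?_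
    obtain ⟨h6, h7, h8⟩ := QC_R.1 hG'
    have : ¬ Γ (y, G') := fun h9 => hj (by rw [← h5 G' h6 h9, h7, h8])
    simp [this]

/-- Restriction of a Quot integral to a smaller lattice. -/
lemma int_QC_le {E A : Lat K N} (h : E ≤ A) (r : ℕ) (c : ℤ) {ψ : Lat K N → ℂ} (hψ : DFun ψ) :
    ((QC A r c).int fun G => ind (G ≤ E) * ψ G) = (QC E r c).int ψ := by
  have hD : DFun fun G => ind (G ≤ E) * ψ G := (Del.le (by fun_prop) (by fun_prop)).ind.mul hψ
  rw [Chart.int_indep _ (QC E r c) hD fun G hG => ?_]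
  · exact Chart.int_congr _ fun G hG => by simp [(QC_R.1 hG).1]
  · have h1 : G ≤ E := of_ind_ne_zero (left_ne_zero_of_mul hG)
    rw [QC_R, QC_R]
    exact ⟨fun h2 => ⟨h1, h2.2⟩, fun h2 => ⟨h1.trans h, h2.2⟩⟩

end Pool.Agent.Lib.CC61
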