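import Pool.Agent.Lib.MP_cc3443_ag.Lower

/-! Project cc61: lifting subsheaves, Serre duality in the weak form, line quotients. -/

open Filter Set WithZero Module Finsupp

noncomputable section

namespace Pool.Agent.Lib.CC61.T24

open Pool.Agent.Lib.MP_cc3443_ag

variable {K : Type} [Field K] [Algebra ℂ K] [Algebra (RatFunc ℂ) K]
  [IsScalarTower ℂ (RatFunc ℂ) K] [FiniteDimensional (RatFunc ℂ) K] {N N' : ℕ}

theorem restrict_twist (V : Lat K N) (D : Place K →₀ ℤ) (W : Submodule K (Fin N → K)) :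
    (V.twist D).restrict W = (V.restrict W).twist D :=
  Lat.ext' fun x => by
    ext w
    rw [Lat.mem_restrict, Lat.mem_twist, Lat.mem_twist, Lat.mem_restrict,
      W.smul_mem_iff (zpow_ne_zero _ x.unif_ne_zero)]

theorem mapL_twist (V : Lat K N) (D : Place K →₀ ℤ) (p : (Fin N → K) →ₗ[K] (Fin N' → K)) :
    (V.twist D).mapL p = (V.mapL p).twist D :=
  Lat.ext' fun x => by
    ext w
    have h := zpow_ne_zero (D x) x.unif_ne_zero
    rw [Lat.mem_mapL, Lat.mem_twist, Lat.mem_mapL]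
    constructor
    · rintro ⟨v, hv, rfl⟩
      exact ⟨_, Lat.mem_twist.1 hv, map_smul _ _ _⟩
    · rintro ⟨v, hv, e⟩
      refine ⟨(x.unif ^ D x)⁻¹ • v, Lat.mem_twist.2 ?_, ?_⟩
      · rwa [smul_smul, mul_inv_cancel₀ h, one_smul]
      · rw [map_smul, e, smul_smul, inv_mul_cancel₀ h, one_smul]

theorem rk_twist (V : Lat K N) (D : Place K →₀ ℤ) : rk (V.twist D) = rk V := by
  rw [rk, Lat.gen_twist, rk]

theorem rk_le (V : Lat K N) : rk V ≤ N := by
  simpa [rk] using V.gen.finrank_le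

theorem mapL_mapL {N'' : ℕ} (V : Lat K N) (p : (Fin N → K) →ₗ[K] (Fin N' → K))
    (q : (Fin N' → K) →ₗ[K] (Fin N'' → K)) : (V.mapL p).mapL q = V.mapL (q ∘ₗ p) :=
  Lat.ext' fun x => by
    ext w
    simp only [Lat.mem_mapL]
    constructor
    · rintro ⟨_, ⟨v, hv, rfl⟩, rfl⟩
      exact ⟨v, hv, rfl⟩
    · rintro ⟨v, hv, rfl⟩
      exact ⟨_, ⟨v, hv, rfl⟩, rfl⟩

theorem rk_mapL_one {V : Lat K N} {φ : (Fin N → K) →ₗ[K] (Fin 1 → K)} {w : Fin N → K}
    (hw : w ∈ V.gen) (h : φ w ≠ 0) : rk (V.mapL φ) = 1 := by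
  refine le_antisymm (rk_le _) (Nat.pos_of_ne_zero fun h0 => h ?_)
  have h1 : φ w ∈ (V.mapL φ).gen := ⟨w, hw, rfl⟩
  rwa [eq_bot_of_rk h0, Lat.bot_gen, Submodule.mem_bot] at h1

theorem exists_line_quot {V : Lat K N} (h : rk V ≠ 0) :
    ∃ φ : (Fin N → K) →ₗ[K] (Fin 1 → K), rk (V.mapL φ) = 1 := by
  have h1 : V.gen ≠ ⊥ := fun h1 => h (by rw [Lat.eq_bot_of_gen h1, rk_bot])
  obtain ⟨w, hw, h0⟩ := Submodule.exists_mem_ne_zero_of_ne_bot h1
  obtain ⟨i, hi⟩ := Function.ne_iff.1 h0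
  refine ⟨(LinearMap.proj i).smulRight 1, rk_mapL_one hw fun h2 => hi ?_⟩
  simpa using congrFun h2 0

/-- Riemann-Roch for twists. -/
theorem chiL_twist (D : Place K →₀ ℤ) (r : ℕ) :
    ∀ V : Lat K N, rk V = r → chiL (V.twist D) = chiL V + r * degree D := by
  induction r with
  | zero =>
    intro V h
    rw [eq_bot_of_rk ((rk_twist V D).trans h), eq_bot_of_rk h]
    simp
  | succ r ih =>
    intro V h
    obtain ⟨φ, hφ⟩ := exists_line_quot (V := V) (by omega)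
    have h1 := rk_exact V φ
    obtain ⟨s, D', hs, e⟩ := exists_line_of_rk hφ
    rw [chiL_exact (V.twist D) φ, chiL_exact V φ, restrict_twist, mapL_twist,
      ih _ (by omega), e, twist_line, chiL_line hs, chiL_line hs, map_add]
    push_cast
    ring

theorem chiL_twist' (V : Lat K N) (D : Place K →₀ ℤ) :
    chiL (V.twist D) = chiL V + rk V * degree D := chiL_twist D _ V rfl

/-- Lifting with a prescribed torsion quotient of the kernel. -/
theorem tlift {E U : Lat K N} (q : (Fin N → K) →ₗ[K] (Fin N' → K))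
    (hU : U ≤ E.restrict (LinearMap.ker q)) (hr : rk U = rk (E.restrict (LinearMap.ker q))) :
    ∃ G ≤ E, G.restrict (LinearMap.ker q) = U ∧ G.mapL q = E.mapL q := by
  choose C h1 h2 h3 h4 using fun x => exists_compl x (E.fg_S x) (LinearMap.ker q)
  have hg := gen_eq_of_rk hU hr
  have hE : U ≤ E := hU.trans (E.restrict_le _)
  have h7 : ∀ x, Submodule.span K ((U.S x ⊔ C x : Submodule x.O (Fin N → K)) : Set (Fin N → K)) =
      E.gen := fun x => by
    refine le_antisymm (Submodule.span_le.2 fun w hw => Lat.mem_gen (sup_le (hE x) (h2 x) hw)) ?_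
    rw [← E.span_S x, Submodule.span_le]
    intro w hw
    obtain ⟨c, hc, h6⟩ := h4 x w hw
    have h8 : w - c ∈ U.gen := hg ▸ ⟨Lat.mem_gen (sub_mem hw (h2 x hc)), h6⟩
    rw [← sub_add_cancel w c]
    rw [← U.span_S x] at h8
    exact add_mem (Submodule.span_mono (fun v hv => Submodule.mem_sup_left hv) h8)
      (Submodule.subset_span (Submodule.mem_sup_right hc))
  have h8 : ∀ᶠ x in cofinite, U.S x ⊔ C x = E.S x :=
    (U.std_S.and (E.restrict (LinearMap.ker q)).std_S).mono fun x hx => by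
      refine le_antisymm (sup_le (hE x) (h2 x)) fun w hw => ?_
      obtain ⟨c, hc, h6⟩ := h4 x w hw
      rw [← sub_add_cancel w c]
      refine Submodule.add_mem_sup ?_ hc
      rw [hx.1, hg, ← hx.2]
      exact Lat.mem_restrict.2 ⟨sub_mem hw (h2 x hc), h6⟩
  obtain ⟨G, hG⟩ : ∃ G : Lat K N, ∀ x, G.S x = U.S x ⊔ C x :=
    ⟨E.modify (fun x => U.S x ⊔ C x) (fun x => (U.fg_S x).sup (h1 x)) h7 h8,
      fun x => by rw [Lat.modify, Lat.mk'_S]⟩
  have hk : ∀ x, ∀ a ∈ U.S x, a ∈ LinearMap.ker q := fun x a ha => (Lat.mem_restrict.1 (hU x ha)).2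
  refine ⟨G, fun x => hG x ▸ sup_le (hE x) (h2 x), Lat.ext' fun x => ?_, Lat.ext' fun x => ?_⟩
  · ext w
    rw [Lat.mem_restrict, hG]
    refine ⟨fun ⟨h5, h6⟩ => ?_, fun hw => ⟨Submodule.mem_sup_left hw, hk x w hw⟩⟩
    obtain ⟨a, ha, c, hc, rfl⟩ := Submodule.mem_sup.1 h5
    have h9 := sub_mem h6 (hk x a ha)
    rw [add_sub_cancel_left] at h9
    rwa [h3 x c hc h9, add_zero]
  · ext w
    rw [Lat.mem_mapL, Lat.mem_mapL, hG]
    constructor
    · rintro ⟨v, hv, rfl⟩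
      exact ⟨v, sup_le (hE x) (h2 x) hv, rfl⟩
    · rintro ⟨v, hv, rfl⟩
      obtain ⟨c, hc, h6⟩ := h4 x v hv
      rw [LinearMap.mem_ker, map_sub, sub_eq_zero] at h6
      exact ⟨c, Submodule.mem_sup_right hc, h6.symm⟩

theorem IsDual.local {β : (Fin N → K) →ₗ[K] (Fin N → K) →ₗ[K] K} {L L' : Lat K N}
    (h : IsDual β L L') {w : Fin N → K} (hw : ∀ x, w ∈ L'.S x) (x : Place K) {v : Fin N → K}
    (hv : v ∈ L.S x) : x.val (β w v) ≤ exp (canon K x) := by
  have hc := (exists_canon (K := K)).choose_spec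
  have key : ∀ (U : Set (Place K)) (Q : RatFunc ℂ → Prop), Good U →
      (∀ w, w ∈ (line 1 (canon K)).Γ U ↔ ∀ v ∈ (OO K).Γ U, Q (trB mulB w v)) →
      (∀ v ∈ L.Γ U, Q (trB β w v)) → x ∈ U → x.val (β w v) ≤ exp (canon K x) := by
    intro U Q hU hQ hw hx
    rw [← L.span_Γ hU hx] at hv
    induction hv using Submodule.span_induction with
    | mem v hv =>
      have := (hQ (β w v • 1)).2 (fun b hb => by
        have h1 := hw (b 0 • v) fun y hy => Lat.smul_mem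
          (y.mem_iff.2 (by simpa using mem_line_one.1 (hb y hy))) (hv y hy)
        simpa [trB_apply, mulB_apply, mul_comm] using h1) x hx
      simpa using mem_line_one.1 this
    | zero => simp
    | add a b _ _ ha hb => rw [map_add]; exact x.val.map_add_le ha hb
    | smul c a _ ha =>
      change x.val (β w ((c : K) • a)) ≤ _
      rw [map_smul, smul_eq_mul, map_mul]
      exact (mul_le_of_le_one_left' (x.mem_iff.1 c.2)).trans ha
  rcases U0_or_Ui x with hx | hx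
  · exact key _ (· ∈ A0) good_U0 hc.fin ((h.fin w).1 fun y _ => hw y) hx
  · exact key _ (vI · ≤ exp (-2)) good_Ui hc.inf ((h.inf w).1 fun y _ => hw y) hx

theorem exists_coord (W : Submodule K (Fin N → K)) :
    ∃ p : (Fin N → K) →ₗ[K] (Fin (finrank K W) → K), W ⊓ LinearMap.ker p = ⊥ ∧ W.map p = ⊤ := by
  obtain ⟨p, hp⟩ := (finBasis K W).equivFun.toLinearMap.exists_extend
  have h : ∀ w : W, p w = (finBasis K W).equivFun w := fun w => LinearMap.congr_fun hp w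
  refine ⟨p, eq_bot_iff.2 fun w hw => ?_, eq_top_iff.2 fun c _ => ?_⟩
  · have h1 := (h ⟨w, hw.1⟩).symm.trans hw.2
    exact congrArg Subtype.val ((finBasis K W).equivFun.map_eq_zero_iff.1 h1)
  · exact ⟨_, ((finBasis K W).equivFun.symm c).2, by rw [h, LinearEquiv.apply_symm_apply]⟩

/-- Serre duality, weak form. -/
theorem sd {L : Lat K N} (h : chiL L < hdim L 0) :
    ∃ φ : (Fin N → K) →ₗ[K] (Fin 1 → K), rk (L.mapL φ) = 1 ∧ L.mapL φ ≤ line 1 (canon K) := by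
  classical
  obtain ⟨p, h1, h2⟩ := exists_coord L.gen
  let β : (Fin (finrank K L.gen) → K) →ₗ[K] (Fin (finrank K L.gen) → K) →ₗ[K] K :=
    Matrix.toLinearMap₂' K (1 : Matrix _ _ K)
  have hβ : ∀ w v, β w v = w ⬝ᵥ v := fun w v => by
    simp [β, Matrix.toLinearMap₂'_apply']
  have hn : β.Nondegenerate :=
    ⟨fun w hw => funext fun i => by simpa [hβ] using hw (Pi.single i 1),
      fun w hw => funext fun i => by simpa [hβ] using hw (Pi.single i 1)⟩
  have h3 : (L.mapL p).gen = ⊤ := by rw [Lat.gen_mapL, h2]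
  obtain ⟨L', hd⟩ := exists_isDual hn h3
  have h4 := hd.hdim_sub hn h3
  have h5 := chiL_exact L p
  rw [restrict_eq_bot h1, chiL_bot] at h5
  rw [hdim_mapL h1] at h4
  obtain ⟨w, hw, h0⟩ := (hdim_ne_zero_iff (L := L') (n := 0)).1 (by omega)
  have h6 : ∀ x, w ∈ L'.S x := fun x => by simpa using mem_sec.1 hw x
  obtain ⟨v, hv⟩ : ∃ v, β w v ≠ 0 := by
    by_contra! h7
    exact h0 (hn.1 w h7)
  obtain ⟨u, hu, rfl⟩ : v ∈ L.gen.map p := h2 ▸ Submodule.mem_top
  refine ⟨(β w ∘ₗ p).smulRight 1, rk_mapL_one hu fun h7 => hv ?_, fun x σ hσ => ?_⟩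
  · simpa using congrFun h7 0
  · obtain ⟨a, ha, rfl⟩ := Lat.mem_mapL.1 hσ
    refine mem_line_one.2 ?_
    simpa using IsDual.local hd h6 x (Lat.mem_mapL.2 ⟨a, ha, rfl⟩)

/-- A bundle of slope at most `a` has a line quotient of degree at most `a + g`. -/
theorem lq {V : Lat K N} {a : ℤ} (hr : rk V ≠ 0) (h : chiL V - rk V * chiO K ≤ a * rk V) :
    ∃ φ : (Fin N → K) →ₗ[K] (Fin 1 → K), rk (V.mapL φ) = 1 ∧
      chiL (V.mapL φ) - chiO K ≤ a + 1 - chiO K := by
  have h0 := hdim_nonneg (V.twist (ptD K (-chiO K - 1 - a))) 0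
  have h1 := chiL_twist' V (ptD K (-chiO K - 1 - a))
  rw [degree_ptD] at h1
  have h2 : (1 : ℤ) ≤ rk V := by exact_mod_cast Nat.pos_of_ne_zero hr
  obtain ⟨φ, h3, h4⟩ := sd (L := V.twist (ptD K (-chiO K - 1 - a))) (by nlinarith)
  have h5 := chiL_mono h4 (by rw [h3, rk_line one_ne_zero'])
  rw [mapL_twist, rk_twist] at h3
  rw [mapL_twist, chiL_twist', h3, degree_ptD, chiL_line one_ne_zero', degree_canon] at h5
  exact ⟨φ, h3, by push_cast at h5; omega⟩

/-- Sections lift when the first cohomology of the kernel vanishes. -/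
theorem h1l (G : Lat K N) (p : (Fin N → K) →ₗ[K] (Fin N' → K))
    (h : hdim (G.restrict (LinearMap.ker p)) 0 ≤ chiL (G.restrict (LinearMap.ker p)))
    {σ : Fin N' → K} (hσ : σ ∈ sec (G.mapL p) 0) : ∃ w ∈ sec G 0, p w = σ := by
  obtain ⟨m, e, a, hb⟩ := exists_isBG (G.restrict (LinearMap.ker p))
  have ha : ∀ i, 0 ≤ a i + 0 + 1 := by
    rw [hb.hdim_eq, hb.chiL_eq] at h
    have h1 := (Finset.sum_eq_sum_iff_of_le (s := Finset.univ) (f := fun i => a i + 1)
      (g := fun i => ((a i + 0 + 1).toNat : ℤ)) fun i _ => by omega).1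
      (le_antisymm (Finset.sum_le_sum fun i _ => by omega) h)
    intro i
    have := h1 i (Finset.mem_univ i)
    omega
  obtain ⟨h0, h1⟩ := mem_sec'.1 hσ
  rw [neg_zero, zpow_zero, one_smul] at h1
  obtain ⟨w₀, hw₀, e₀⟩ := exists_lift_Γ G p good_U0 h0
  obtain ⟨w₁, hw₁, e₁⟩ := exists_lift_Γ G p good_Ui h1
  obtain ⟨x₀, hx₀⟩ := good_U0 (K := K).ne
  obtain ⟨x₁, hx₁⟩ := good_Ui (K := K).ne
  have h2 : w₀ - w₁ ∈ (G.restrict (LinearMap.ker p)).gen := by
    refine ⟨sub_mem (Lat.mem_gen (hw₀ x₀ hx₀)) (Lat.mem_gen (hw₁ x₁ hx₁)), ?_⟩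
    rw [SetLike.mem_coe, LinearMap.mem_ker, map_sub, e₀, e₁, sub_self]
  obtain ⟨α, hα, hβ⟩ := hb.exists_decomp (n := 0) ha h2
  rw [neg_zero, zpow_zero, one_smul] at hβ
  refine ⟨w₀ - α, mem_sec'.2 ⟨fun x hx => sub_mem (hw₀ x hx) (Lat.mem_restrict.1 (hα x hx)).1,
    fun x hx => ?_⟩, ?_⟩
  · have h3 := add_mem (Lat.mem_restrict.1 (hβ x hx)).1 (hw₁ x hx)
    rw [neg_zero, zpow_zero, one_smul]
    convert h3 using 1
    abel
  · rw [map_sub, e₀, (Lat.mem_restrict.1 (hα x₀ hx₀)).2, sub_zero]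

/-- Lifting of a line subsheaf of the quotient. -/
theorem lex {E U : Lat K N} {M : Lat K N'} (q : (Fin N → K) →ₗ[K] (Fin N' → K))
    (hU : U ≤ E.restrict (LinearMap.ker q)) (hM : M ≤ E.mapL q) (h1 : rk M = 1)
    (h : ∀ W, U ≤ W → W ≤ E.restrict (LinearMap.ker q) →
      rk W + 1 = rk (E.restrict (LinearMap.ker q)) →
      chiL M - 2 * chiO K < chiL (E.restrict (LinearMap.ker q)) - chiL W) :
    ∃ G ≤ E, G.restrict (LinearMap.ker q) = U ∧ G.mapL q = M := by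
  obtain ⟨s, D, hs, rfl⟩ := exists_line_of_rk h1
  obtain ⟨P, hP⟩ := exists_ker_eq U.gen
  set π := Matrix.toLin' P with hπ
  have hk : LinearMap.ker π ≤ LinearMap.ker q := hP ▸ (Lat.gen_mono hU).trans inf_le_right
  obtain ⟨q', hq'⟩ : ∃ q' : (Fin N → K) →ₗ[K] (Fin N' → K), ∀ w, q' (π w) = q w := by
    obtain ⟨q', hq'⟩ := ((LinearMap.ker π).liftQ q hk ∘ₗ
      π.quotKerEquivRange.symm.toLinearMap).exists_extend
    refine ⟨q', fun w => ?_⟩
    have := LinearMap.congr_fun hq' ⟨π w, LinearMap.mem_range_self π w⟩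
    simpa [LinearMap.quotKerEquivRange_symm_apply_image] using this
  set A := E.restrict (LinearMap.ker q) with hA
  have e1 : (E.mapL π).restrict (LinearMap.ker q') = A.mapL π := Lat.ext' fun x => by
    ext w
    rw [Lat.mem_restrict, Lat.mem_mapL, Lat.mem_mapL]
    constructor
    · rintro ⟨⟨v, hv, rfl⟩, h2⟩
      exact ⟨v, Lat.mem_restrict.2 ⟨hv, (hq' v).symm.trans h2⟩, rfl⟩
    · rintro ⟨v, hv, rfl⟩
      exact ⟨⟨v, (Lat.mem_restrict.1 hv).1, rfl⟩, (hq' v).trans (Lat.mem_restrict.1 hv).2⟩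
  have e2 : (E.mapL π).mapL q' = E.mapL q := by
    rw [mapL_mapL]
    congr 1
    exact LinearMap.ext hq'
  have h2 : hdim ((A.mapL π).twist (-D)) 0 ≤ chiL ((A.mapL π).twist (-D)) := by
    by_contra! h2
    obtain ⟨φ, h3, h4⟩ := sd h2
    have h5 := chiL_mono h4 (by rw [h3, rk_line one_ne_zero'])
    rw [mapL_twist, rk_twist, mapL_mapL] at h3
    rw [mapL_twist, mapL_mapL, chiL_twist', h3, chiL_line one_ne_zero', degree_canon,
      map_neg] at h5
    have h6 := rk_exact A (φ ∘ₗ π)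
    have h7 := chiL_exact A (φ ∘ₗ π)
    have h8 := h (A.restrict (LinearMap.ker (φ ∘ₗ π)))
      (le_restrict hU (hP ▸ LinearMap.ker_le_ker_comp π φ)) (A.restrict_le _) (by omega)
    rw [chiL_line hs] at h8
    push_cast at h5
    omega
  obtain ⟨t, ht, hts⟩ := h1l ((E.mapL π).twist (-D)) q' (σ := s)
    (by rwa [restrict_twist, e1]) (by rw [mapL_twist, e2]; exact line_le_iff_sec.1 hM)
  have h3 : line t D ≤ E.mapL π := line_le_iff_sec.2 ht
  have hE : pull E π (line t D) ≤ E := fun x w hw => (mem_pull.1 hw).1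
  have h4 : ∀ x, ∀ w ∈ U.S x, π w = 0 := fun x w hw =>
    LinearMap.mem_ker.1 (hP ▸ Lat.mem_gen hw)
  have h5 : U ≤ (pull E π (line t D)).restrict (LinearMap.ker q) := fun x w hw =>
    Lat.mem_restrict.2 ⟨mem_pull.2 ⟨(Lat.mem_restrict.1 (hU x hw)).1, h4 x w hw ▸ zero_mem _⟩,
      (Lat.mem_restrict.1 (hU x hw)).2⟩
  obtain ⟨G, g1, g2, g3⟩ := tlift (E := pull E π (line t D)) q h5 (by
    refine le_antisymm (rk_mono h5) (Submodule.finrank_mono ?_)
    rintro w ⟨⟨-, h6⟩, h7⟩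
    obtain ⟨z, hz⟩ := Submodule.mem_span_singleton.1 (gen_line t D ▸ h6 : π w ∈ K ∙ t)
    have h8 : z • s = 0 := by rw [← hts, ← map_smul, hz, hq']; exact h7
    rw [(smul_eq_zero.1 h8).resolve_right hs, zero_smul] at hz
    exact hP ▸ LinearMap.mem_ker.2 hz.symm)
  refine ⟨G, g1.trans hE, g2, g3.trans (Lat.ext' fun x => ?_)⟩
  ext w
  rw [Lat.mem_mapL]
  constructor
  · rintro ⟨v, hv, rfl⟩
    obtain ⟨z, hz, e⟩ := mem_line.1 (mem_pull.1 hv).2
    exact mem_line.2 ⟨z, hz, by rw [← hq', e, map_smul, hts]⟩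
  · intro hw
    obtain ⟨z, hz, rfl⟩ := mem_line.1 hw
    have h6 : z • t ∈ (line t D).S x := mem_line.2 ⟨z, hz, rfl⟩
    obtain ⟨v, hv, e⟩ := Lat.mem_mapL.1 (h3 x h6)
    exact ⟨v, mem_pull.2 ⟨hv, e ▸ h6⟩, by rw [← hq', e, map_smul, hts]⟩

end Pool.Agent.Lib.CC61.T24
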