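import Pool.Agent.Lib.CC61.GDefs
import Pool.Agent.Lib.CC61.T24A6

/-! Project cc61: lattice operations on subsheaves, additivity of rank and degree. -/

open Filter Set Module

noncomputable section

namespace Pool.Agent.Lib.CC61

open Pool.Agent.Lib.MP_cc3443_ag

variable {K : Type} [Field K] [Algebra ℂ K] [Algebra (RatFunc ℂ) K]
  [IsScalarTower ℂ (RatFunc ℂ) K] [FiniteDimensional (RatFunc ℂ) K] {N N' : ℕ}

/-! ### Images, restrictions, preimages -/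

lemma mem_mapL_of_mem {E : Lat K N} (q : (Fin N → K) →ₗ[K] (Fin N' → K)) {x : Place K}
    {w : Fin N → K} (h : w ∈ E.S x) : q w ∈ (E.mapL q).S x := Lat.mem_mapL.2 ⟨w, h, rfl⟩

lemma mapL_le_iff {E : Lat K N} {q : (Fin N → K) →ₗ[K] (Fin N' → K)} {M : Lat K N'} :
    E.mapL q ≤ M ↔ ∀ x, ∀ w ∈ E.S x, q w ∈ M.S x :=
  ⟨fun h x _ hw => h x (mem_mapL_of_mem q hw), fun h x _ hw => by
    obtain ⟨v, hv, rfl⟩ := Lat.mem_mapL.1 hw
    exact h x v hv⟩

lemma mapL_mono {E E' : Lat K N} (h : E ≤ E') (q : (Fin N → K) →ₗ[K] (Fin N' → K)) :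
    E.mapL q ≤ E'.mapL q := mapL_le_iff.2 fun x _ hw => mem_mapL_of_mem q (h x hw)

@[simp] lemma mapL_bot (q : (Fin N → K) →ₗ[K] (Fin N' → K)) : (⊥ : Lat K N).mapL q = ⊥ :=
  Lat.eq_bot_of_gen (by simp)

@[simp] lemma mapL_id (E : Lat K N) : E.mapL LinearMap.id = E :=
  Lat.ext' fun x => by ext w; simp [Lat.mem_mapL]

lemma mapL_eq_bot_iff {E : Lat K N} {q : (Fin N → K) →ₗ[K] (Fin N' → K)} :
    E.mapL q = ⊥ ↔ E.gen ≤ LinearMap.ker q :=
  ⟨fun h => LinearMap.le_ker_iff_map.2 (by rw [← Lat.gen_mapL, h, Lat.bot_gen]),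
    fun h => Lat.eq_bot_of_gen (LinearMap.le_ker_iff_map.1 h)⟩

lemma mapL_congr {E : Lat K N} {q q' : (Fin N → K) →ₗ[K] (Fin N' → K)}
    (h : ∀ w ∈ E.gen, q w = q' w) : E.mapL q = E.mapL q' :=
  le_antisymm (mapL_le_iff.2 fun _ w hw => h w (Lat.mem_gen hw) ▸ mem_mapL_of_mem q' hw)
    (mapL_le_iff.2 fun _ w hw => h w (Lat.mem_gen hw) ▸ mem_mapL_of_mem q hw)

lemma le_restrict_iff {E G : Lat K N} {W : Submodule K (Fin N → K)} :
    G ≤ E.restrict W ↔ G ≤ E ∧ G.gen ≤ W :=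
  ⟨fun h => ⟨h.trans (E.restrict_le W), (Lat.gen_mono h).trans inf_le_right⟩,
    fun h => le_restrict h.1 h.2⟩

lemma restrict_mono {E E' : Lat K N} (h : E ≤ E') (W : Submodule K (Fin N → K)) :
    E.restrict W ≤ E'.restrict W := le_restrict ((E.restrict_le W).trans h) inf_le_right

lemma restrict_eq_self {E : Lat K N} {W : Submodule K (Fin N → K)} (h : E.gen ≤ W) :
    E.restrict W = E := le_antisymm (E.restrict_le W) (le_restrict le_rfl h)

lemma restrict_restrict (E : Lat K N) (W W' : Submodule K (Fin N → K)) :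
    (E.restrict W).restrict W' = E.restrict (W ⊓ W') :=
  Lat.ext' fun x => by ext w; simp only [Lat.mem_restrict, Submodule.mem_inf, and_assoc]

lemma pull_le (E : Lat K N) (q : (Fin N → K) →ₗ[K] (Fin N' → K)) (M : Lat K N') :
    pull E q M ≤ E := fun _ _ hw => (mem_pull.1 hw).1

lemma le_pull_iff {E G : Lat K N} {q : (Fin N → K) →ₗ[K] (Fin N' → K)} {M : Lat K N'} :
    G ≤ pull E q M ↔ G ≤ E ∧ G.mapL q ≤ M :=
  ⟨fun h => ⟨h.trans (pull_le _ _ _), mapL_le_iff.2 fun x _ hw => (mem_pull.1 (h x hw)).2⟩,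
    fun h x w hw => mem_pull.2 ⟨h.1 x hw, mapL_le_iff.1 h.2 x w hw⟩⟩

lemma restrict_pull (E : Lat K N) (q : (Fin N → K) →ₗ[K] (Fin N' → K)) (M : Lat K N') :
    (pull E q M).restrict (LinearMap.ker q) = E.restrict (LinearMap.ker q) :=
  le_antisymm (restrict_mono (pull_le _ _ _) _) fun x w hw =>
    Lat.mem_restrict.2 ⟨mem_pull.2 ⟨(Lat.mem_restrict.1 hw).1, by
      rw [LinearMap.mem_ker.1 (Lat.mem_restrict.1 hw).2]; exact zero_mem _⟩,
      (Lat.mem_restrict.1 hw).2⟩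

lemma mapL_pull {E : Lat K N} {q : (Fin N → K) →ₗ[K] (Fin N' → K)} {M : Lat K N'}
    (h : M ≤ E.mapL q) : (pull E q M).mapL q = M :=
  le_antisymm (le_pull_iff.1 le_rfl).2 fun x w hw => by
    obtain ⟨v, hv, rfl⟩ := Lat.mem_mapL.1 (h x hw)
    exact mem_mapL_of_mem q (mem_pull.2 ⟨hv, hw⟩)

lemma pull_bot (E : Lat K N) (q : (Fin N → K) →ₗ[K] (Fin N' → K)) :
    pull E q ⊥ = E.restrict (LinearMap.ker q) :=
  Lat.ext' fun x => by ext w; simp [mem_pull, Lat.mem_restrict]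

/-- A subsheaf is determined by its kernel and image inside a larger one. -/
lemma le_of_restrict_mapL {G G' E : Lat K N} {q : (Fin N → K) →ₗ[K] (Fin N' → K)} (h : G ≤ E)
    (h' : G' ≤ E) (h1 : E.restrict (LinearMap.ker q) ≤ G') (h2 : G.mapL q ≤ G'.mapL q) :
    G ≤ G' := fun x w hw => by
  obtain ⟨v, hv, e⟩ := Lat.mem_mapL.1 (h2 x (mem_mapL_of_mem q hw))
  rw [← sub_add_cancel w v]
  exact add_mem (h1 x (Lat.mem_restrict.2 ⟨sub_mem (h x hw) (h' x hv), by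
    rw [LinearMap.mem_ker, map_sub, e, sub_self]⟩)) hv

lemma pull_mapL {E G : Lat K N} {q : (Fin N → K) →ₗ[K] (Fin N' → K)} (h : G ≤ E)
    (h1 : E.restrict (LinearMap.ker q) ≤ G) : pull E q (G.mapL q) = G :=
  le_antisymm (le_of_restrict_mapL (pull_le _ _ _) h h1 (le_pull_iff.1 le_rfl).2)
    (le_pull_iff.2 ⟨h, le_rfl⟩)

/-! ### Saturation -/

lemma _root_.Pool.Agent.Lib.MP_cc3443_ag.Sat.trans {E G F : Lat K N} (h : Sat E G) (h' : Sat G F)
    (hle : F ≤ G) : Sat E F := fun x w hw hF => h' x w (h x w hw (Lat.gen_mono hle hF)) hF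

lemma _root_.Pool.Agent.Lib.MP_cc3443_ag.Sat.mono {E G F : Lat K N} (h : Sat E F) (hle : G ≤ E) :
    Sat G F := fun x w hw hF => h x w (hle x hw) hF

omit [Algebra (RatFunc ℂ) K] [IsScalarTower ℂ (RatFunc ℂ) K]
  [FiniteDimensional (RatFunc ℂ) K] in
lemma sat_self (E : Lat K N) : Sat E E := fun _ _ hw _ => hw

lemma _root_.Pool.Agent.Lib.MP_cc3443_ag.Sat.eq_of_rk {E F : Lat K N} (h : Sat E F) (hle : F ≤ E)
    (hr : rk E = rk F) : E = F := le_antisymm ((sat_iff hle).1 h E hle le_rfl hr) hle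

/-! ### Degree -/

@[simp] lemma dg_bot : dg (⊥ : Lat K N) = 0 := by simp [dg]

lemma chiL_eq_dg (L : Lat K N) : chiL L = dg L + rk L * chiO K := by simp [dg]

lemma dg_exact (G : Lat K N) (q : (Fin N → K) →ₗ[K] (Fin N' → K)) :
    dg G = dg (G.restrict (LinearMap.ker q)) + dg (G.mapL q) := by
  rw [dg, dg, dg, chiL_exact G q, rk_exact G q]
  push_cast
  ring

lemma dg_mono {L L' : Lat K N} (h : L ≤ L') (hr : rk L = rk L') : dg L ≤ dg L' := by
  have := chiL_mono h hr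
  rw [dg, dg, hr]
  omega

lemma eq_of_dg {L L' : Lat K N} (h : L ≤ L') (hr : rk L = rk L') (hc : dg L' ≤ dg L) : L = L' := by
  have := chiL_mono h hr
  rw [dg, dg, hr] at hc
  exact eq_of_chiL h hr (by omega)

lemma dg_lt {L L' : Lat K N} (h : L ≤ L') (hr : rk L = rk L') (hne : L ≠ L') : dg L < dg L' :=
  lt_of_not_ge fun hc => hne (eq_of_dg h hr hc)

lemma hasClass_iff_dg {E F : Lat K N} {ν : ℕ × ℤ} :
    HasClass E F ν ↔ F ≤ E ∧ rk E = rk F + ν.1 ∧ dg E = dg F + ν.2 := by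
  rw [hasClass_iff]
  refine and_congr_right fun _ => and_congr_right fun h => ?_
  rw [dg, dg, h]
  push_cast
  constructor <;> intro h1 <;> linarith

lemma hasClass_self {E F : Lat K N} (h : F ≤ E) : HasClass E F (rk E - rk F, dg E - dg F) :=
  hasClass_iff_dg.2 ⟨h, by have := rk_mono h; simp only; omega, by simp⟩

lemma dg_twist (V : Lat K N) (D : Place K →₀ ℤ) : dg (V.twist D) = dg V + rk V * D.degree := by
  rw [dg, dg, T24.chiL_twist', T24.rk_twist]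
  ring

lemma dg_line {s : Fin N → K} (hs : s ≠ 0) (D : Place K →₀ ℤ) : dg (line s D) = D.degree := by
  rw [dg, chiL_line hs, rk_line hs]
  push_cast
  ring

lemma exists_dg_bound (E : Lat K N) : ∃ B : ℤ, ∀ W, W ≤ E → dg W ≤ B := by
  obtain ⟨C, hC⟩ := exists_chiL_bound E
  refine ⟨C + N * |chiO K|, fun W hW => ?_⟩
  have h1 := hC W hW
  have h2 : (rk W : ℤ) ≤ N := by exact_mod_cast T24.rk_le W
  have h3 := neg_abs_le (chiO K)
  have h4 := abs_nonneg (chiO K)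
  have h5 : (0 : ℤ) ≤ rk W := Int.natCast_nonneg _
  rw [dg]
  nlinarith

lemma rk_mapL_inj {G : Lat K N} {q : (Fin N → K) →ₗ[K] (Fin N' → K)}
    (h : G.gen ⊓ LinearMap.ker q = ⊥) : rk (G.mapL q) = rk G := by
  rw [rk_exact G q, restrict_eq_bot h, rk_bot, zero_add]

lemma chiL_mapL_inj {G : Lat K N} {q : (Fin N → K) →ₗ[K] (Fin N' → K)}
    (h : G.gen ⊓ LinearMap.ker q = ⊥) : chiL (G.mapL q) = chiL G := by
  rw [chiL_exact G q, restrict_eq_bot h, chiL_bot, zero_add]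

lemma dg_mapL_inj {G : Lat K N} {q : (Fin N → K) →ₗ[K] (Fin N' → K)}
    (h : G.gen ⊓ LinearMap.ker q = ⊥) : dg (G.mapL q) = dg G := by
  rw [dg, dg, rk_mapL_inj h, chiL_mapL_inj h]

omit [Algebra ℂ K] [Algebra (RatFunc ℂ) K] [IsScalarTower ℂ (RatFunc ℂ) K]
  [FiniteDimensional (RatFunc ℂ) K] in
lemma inf_ker_eq_bot {q : (Fin N → K) →ₗ[K] (Fin N' → K)} (h : Function.Injective q)
    (W : Submodule K (Fin N → K)) : W ⊓ LinearMap.ker q = ⊥ := by
  rw [LinearMap.ker_eq_bot.2 h, inf_bot_eq]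

omit [Algebra ℂ K] [Algebra (RatFunc ℂ) K] [IsScalarTower ℂ (RatFunc ℂ) K]
  [FiniteDimensional (RatFunc ℂ) K] in
lemma in1_injective : Function.Injective (in1 (K := K) N N') :=
  Function.LeftInverse.injective pr1_in1

omit [Algebra ℂ K] [Algebra (RatFunc ℂ) K] [IsScalarTower ℂ (RatFunc ℂ) K]
  [FiniteDimensional (RatFunc ℂ) K] in
lemma in2_injective : Function.Injective (in2 (K := K) N N') :=
  Function.LeftInverse.injective pr2_in2

/-! ### External sums -/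

lemma in1_mem_oplus {E : Lat K N} {E' : Lat K N'} {x : Place K} {w : Fin N → K} :
    in1 N N' w ∈ (oplus E E').S x ↔ w ∈ E.S x := by simp [mem_oplus]

lemma in2_mem_oplus {E : Lat K N} {E' : Lat K N'} {x : Place K} {w : Fin N' → K} :
    in2 N N' w ∈ (oplus E E').S x ↔ w ∈ E'.S x := by simp [mem_oplus]

lemma mem_gen_oplus {E : Lat K N} {E' : Lat K N'} {w : Fin (N + N') → K} :
    w ∈ (oplus E E').gen ↔ pr1 N N' w ∈ E.gen ∧ pr2 N N' w ∈ E'.gen := Iff.rfl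

lemma oplus_le_oplus_iff {E G : Lat K N} {E' G' : Lat K N'} :
    oplus G G' ≤ oplus E E' ↔ G ≤ E ∧ G' ≤ E' :=
  ⟨fun h => ⟨fun x _ hw => in1_mem_oplus.1 (h x (in1_mem_oplus.2 hw)),
    fun x _ hw => in2_mem_oplus.1 (h x (in2_mem_oplus.2 hw))⟩,
    fun h x _ hw => mem_oplus.2 ⟨h.1 x (mem_oplus.1 hw).1, h.2 x (mem_oplus.1 hw).2⟩⟩

lemma oplus_mono {E G : Lat K N} {E' G' : Lat K N'} (h : G ≤ E) (h' : G' ≤ E') :
    oplus G G' ≤ oplus E E' := oplus_le_oplus_iff.2 ⟨h, h'⟩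

lemma oplus_inj {E G : Lat K N} {E' G' : Lat K N'} :
    oplus G G' = oplus E E' ↔ G = E ∧ G' = E' := by
  simp only [le_antisymm_iff, oplus_le_oplus_iff]
  tauto

lemma le_oplus_iff {A : Lat K (N + N')} {E : Lat K N} {E' : Lat K N'} :
    A ≤ oplus E E' ↔ A.mapL (pr1 N N') ≤ E ∧ A.mapL (pr2 N N') ≤ E' := by
  rw [mapL_le_iff, mapL_le_iff]
  exact ⟨fun h => ⟨fun x _ hw => (mem_oplus.1 (h x hw)).1, fun x _ hw => (mem_oplus.1 (h x hw)).2⟩,
    fun h x w hw => mem_oplus.2 ⟨h.1 x w hw, h.2 x w hw⟩⟩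

lemma oplus_le_iff {A : Lat K (N + N')} {E : Lat K N} {E' : Lat K N'} :
    oplus E E' ≤ A ↔ E.mapL (in1 N N') ≤ A ∧ E'.mapL (in2 N N') ≤ A := by
  rw [mapL_le_iff, mapL_le_iff]
  refine ⟨fun h => ⟨fun x _ hw => h x (in1_mem_oplus.2 hw), fun x _ hw => h x (in2_mem_oplus.2 hw)⟩,
    fun h x w hw => ?_⟩
  rw [← in1_add_in2 w]
  exact add_mem (h.1 x _ (mem_oplus.1 hw).1) (h.2 x _ (mem_oplus.1 hw).2)

lemma mapL_pr1_oplus (E : Lat K N) (E' : Lat K N') : (oplus E E').mapL (pr1 N N') = E :=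
  le_antisymm (le_oplus_iff.1 le_rfl).1 fun _ w hw =>
    Lat.mem_mapL.2 ⟨_, in1_mem_oplus.2 hw, pr1_in1 w⟩

lemma mapL_pr2_oplus (E : Lat K N) (E' : Lat K N') : (oplus E E').mapL (pr2 N N') = E' :=
  le_antisymm (le_oplus_iff.1 le_rfl).2 fun _ w hw =>
    Lat.mem_mapL.2 ⟨_, in2_mem_oplus.2 hw, pr2_in2 w⟩

lemma restrict_ker_pr2_oplus (E : Lat K N) (E' : Lat K N') :
    (oplus E E').restrict (LinearMap.ker (pr2 N N')) = E.mapL (in1 N N') := by
  refine le_antisymm (fun x w hw => ?_) (mapL_le_iff.2 fun x w hw =>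
    Lat.mem_restrict.2 ⟨in1_mem_oplus.2 hw, pr2_in1 w⟩)
  obtain ⟨h1, h2⟩ := Lat.mem_restrict.1 hw
  refine Lat.mem_mapL.2 ⟨_, (mem_oplus.1 h1).1, ?_⟩
  have := in1_add_in2 w
  rwa [LinearMap.mem_ker.1 h2, map_zero, add_zero] at this

lemma restrict_ker_pr1_oplus (E : Lat K N) (E' : Lat K N') :
    (oplus E E').restrict (LinearMap.ker (pr1 N N')) = E'.mapL (in2 N N') := by
  refine le_antisymm (fun x w hw => ?_) (mapL_le_iff.2 fun x w hw =>
    Lat.mem_restrict.2 ⟨in2_mem_oplus.2 hw, pr1_in2 w⟩)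
  obtain ⟨h1, h2⟩ := Lat.mem_restrict.1 hw
  refine Lat.mem_mapL.2 ⟨_, (mem_oplus.1 h1).2, ?_⟩
  have := in1_add_in2 w
  rwa [LinearMap.mem_ker.1 h2, map_zero, zero_add] at this

lemma oplus_bot_right (E : Lat K N) : oplus E (⊥ : Lat K N') = E.mapL (in1 N N') := by
  rw [← restrict_ker_pr2_oplus E ⊥, restrict_eq_self fun w hw => (mem_gen_oplus.1 hw).2]

lemma oplus_bot_left (E' : Lat K N') : oplus (⊥ : Lat K N) E' = E'.mapL (in2 N N') := by
  rw [← restrict_ker_pr1_oplus ⊥ E', restrict_eq_self fun w hw => (mem_gen_oplus.1 hw).1]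

@[simp] lemma oplus_bot : oplus (⊥ : Lat K N) (⊥ : Lat K N') = ⊥ := by
  rw [oplus_bot_right, mapL_bot]

lemma rk_oplus (E : Lat K N) (E' : Lat K N') : rk (oplus E E') = rk E + rk E' := by
  rw [rk_exact _ (pr2 N N'), restrict_ker_pr2_oplus, mapL_pr2_oplus,
    rk_mapL_inj (inf_ker_eq_bot in1_injective _)]

lemma chiL_oplus (E : Lat K N) (E' : Lat K N') : chiL (oplus E E') = chiL E + chiL E' := by
  rw [chiL_exact _ (pr2 N N'), restrict_ker_pr2_oplus, mapL_pr2_oplus,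
    chiL_mapL_inj (inf_ker_eq_bot in1_injective _)]

lemma dg_oplus (E : Lat K N) (E' : Lat K N') : dg (oplus E E') = dg E + dg E' := by
  rw [dg_exact _ (pr2 N N'), restrict_ker_pr2_oplus, mapL_pr2_oplus,
    dg_mapL_inj (inf_ker_eq_bot in1_injective _)]

lemma sat_oplus_iff {E F : Lat K N} {E' F' : Lat K N'} :
    Sat (oplus E E') (oplus F F') ↔ Sat E F ∧ Sat E' F' :=
  ⟨fun h => ⟨fun x w hw hF => in1_mem_oplus.1 (h x _ (in1_mem_oplus.2 hw)
      (mem_gen_oplus.2 (by simpa using hF))),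
    fun x w hw hF => in2_mem_oplus.1 (h x _ (in2_mem_oplus.2 hw)
      (mem_gen_oplus.2 (by simpa using hF)))⟩,
    fun h x _ hw hF => mem_oplus.2 ⟨h.1 x _ (mem_oplus.1 hw).1 (mem_gen_oplus.1 hF).1,
      h.2 x _ (mem_oplus.1 hw).2 (mem_gen_oplus.1 hF).2⟩⟩

lemma twist_oplus (E : Lat K N) (E' : Lat K N') (D : Place K →₀ ℤ) :
    (oplus E E').twist D = oplus (E.twist D) (E'.twist D) :=
  Lat.ext' fun x => by ext w; simp only [Lat.mem_twist, mem_oplus, map_smul]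

/-! ### Intersection and sum -/

lemma mem_linf {E E' : Lat K N} {x : Place K} {w : Fin N → K} :
    w ∈ (linf E E').S x ↔ w ∈ E.S x ∧ w ∈ E'.S x := mem_pull

lemma linf_S (E E' : Lat K N) (x : Place K) : (linf E E').S x = E.S x ⊓ E'.S x := by
  ext w; exact mem_linf

lemma gen_linf (E E' : Lat K N) : (linf E E').gen = E.gen ⊓ E'.gen := rfl

lemma mem_lsup {E E' : Lat K N} {x : Place K} {w : Fin N → K} :
    w ∈ (lsup E E').S x ↔ w ∈ E.S x ⊔ E'.S x := by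
  rw [lsup, Lat.mem_mapL]
  constructor
  · rintro ⟨v, hv, rfl⟩
    exact Submodule.add_mem_sup (mem_oplus.1 hv).1 (mem_oplus.1 hv).2
  · intro hw
    obtain ⟨a, ha, b, hb, rfl⟩ := Submodule.mem_sup.1 hw
    exact ⟨in1 N N a + in2 N N b, add_mem (in1_mem_oplus.2 ha) (in2_mem_oplus.2 hb), by simp⟩

lemma lsup_S (E E' : Lat K N) (x : Place K) : (lsup E E').S x = E.S x ⊔ E'.S x := by
  ext w; exact mem_lsup

lemma linf_le_left (E E' : Lat K N) : linf E E' ≤ E := fun _ _ hw => (mem_linf.1 hw).1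

lemma linf_le_right (E E' : Lat K N) : linf E E' ≤ E' := fun _ _ hw => (mem_linf.1 hw).2

lemma le_linf {E E' G : Lat K N} (h : G ≤ E) (h' : G ≤ E') : G ≤ linf E E' :=
  fun x _ hw => mem_linf.2 ⟨h x hw, h' x hw⟩

lemma le_lsup_left (E E' : Lat K N) : E ≤ lsup E E' := fun x => lsup_S E E' x ▸ le_sup_left

lemma le_lsup_right (E E' : Lat K N) : E' ≤ lsup E E' := fun x => lsup_S E E' x ▸ le_sup_right

lemma lsup_le {E E' G : Lat K N} (h : E ≤ G) (h' : E' ≤ G) : lsup E E' ≤ G :=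
  fun x => lsup_S E E' x ▸ sup_le (h x) (h' x)

lemma linf_eq_left {E E' : Lat K N} : linf E E' = E ↔ E ≤ E' :=
  ⟨fun h => h ▸ linf_le_right E E', fun h => le_antisymm (linf_le_left _ _) (le_linf le_rfl h)⟩

lemma lsup_eq_right {E E' : Lat K N} : lsup E E' = E' ↔ E ≤ E' :=
  ⟨fun h => h ▸ le_lsup_left E E', fun h => le_antisymm (lsup_le h le_rfl) (le_lsup_right _ _)⟩

lemma gen_lsup (E E' : Lat K N) : (lsup E E').gen = E.gen ⊔ E'.gen := by
  refine le_antisymm ?_ (sup_le (Lat.gen_mono (le_lsup_left _ _))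
    (Lat.gen_mono (le_lsup_right _ _)))
  rintro _ ⟨v, hv, rfl⟩
  exact Submodule.add_mem_sup (mem_gen_oplus.1 hv).1 (mem_gen_oplus.1 hv).2

lemma restrict_add_oplus (E E' : Lat K N) :
    (oplus E E').restrict (LinearMap.ker (pr1 N N + pr2 N N)) =
      (linf E E').mapL (in1 N N - in2 N N) := by
  refine le_antisymm (fun x w hw => ?_) (mapL_le_iff.2 fun x w hw => Lat.mem_restrict.2
    ⟨sub_mem (in1_mem_oplus.2 (mem_linf.1 hw).1) (in2_mem_oplus.2 (mem_linf.1 hw).2), by simp⟩)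
  obtain ⟨h1, h2⟩ := Lat.mem_restrict.1 hw
  have h3 : pr2 N N w = -pr1 N N w := eq_neg_of_add_eq_zero_right h2
  obtain ⟨h4, h5⟩ := mem_oplus.1 h1
  rw [h3, neg_mem_iff] at h5
  refine Lat.mem_mapL.2 ⟨_, mem_linf.2 ⟨h4, h5⟩, ?_⟩
  have := in1_add_in2 w
  rwa [h3, map_neg, ← sub_eq_add_neg] at this

omit [Algebra ℂ K] [Algebra (RatFunc ℂ) K] [IsScalarTower ℂ (RatFunc ℂ) K]
  [FiniteDimensional (RatFunc ℂ) K] in
lemma in1_sub_in2_injective :
    Function.Injective (in1 N N - in2 N N : (Fin N → K) →ₗ[K] (Fin (N + N) → K)) :=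
  Function.LeftInverse.injective (g := pr1 N N) fun w => by simp

lemma rk_lsup_add_linf (E E' : Lat K N) : rk (lsup E E') + rk (linf E E') = rk E + rk E' := by
  rw [← rk_oplus E E', rk_exact (oplus E E') (pr1 N N + pr2 N N), restrict_add_oplus,
    rk_mapL_inj (inf_ker_eq_bot in1_sub_in2_injective _), add_comm, lsup]

lemma chiL_lsup_add_linf (E E' : Lat K N) :
    chiL (lsup E E') + chiL (linf E E') = chiL E + chiL E' := by
  rw [← chiL_oplus E E', chiL_exact (oplus E E') (pr1 N N + pr2 N N), restrict_add_oplus,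
    chiL_mapL_inj (inf_ker_eq_bot in1_sub_in2_injective _), add_comm, lsup]

lemma dg_lsup_add_linf (E E' : Lat K N) : dg (lsup E E') + dg (linf E E') = dg E + dg E' := by
  rw [← dg_oplus E E', dg_exact (oplus E E') (pr1 N N + pr2 N N), restrict_add_oplus,
    dg_mapL_inj (inf_ker_eq_bot in1_sub_in2_injective _), add_comm, lsup]

lemma isSum_iff {E F G₁ G₂ : Lat K N} :
    IsSum E F G₁ G₂ ↔ linf G₁ G₂ = F ∧ lsup G₁ G₂ = E :=
  ⟨fun h => ⟨Lat.ext' fun x => (linf_S _ _ x).trans (h x).1,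
    Lat.ext' fun x => (lsup_S _ _ x).trans (h x).2⟩,
    fun h x => ⟨h.1 ▸ (linf_S _ _ x).symm, h.2 ▸ (lsup_S _ _ x).symm⟩⟩

/-! ### Identifications -/

lemma restrict_ker_eq {E F G : Lat K N} {q : (Fin N → K) →ₗ[K] (Fin N' → K)}
    (hq : ∀ x, ∀ w ∈ E.S x, q w = 0 → w ∈ F.S x) (h1 : F ≤ G) (h2 : G ≤ E) :
    G.restrict (LinearMap.ker q) = F.restrict (LinearMap.ker q) :=
  le_antisymm (fun x w hw => Lat.mem_restrict.2 ⟨hq x w (h2 x (Lat.mem_restrict.1 hw).1)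
    (Lat.mem_restrict.1 hw).2, (Lat.mem_restrict.1 hw).2⟩) (restrict_mono h1 _)

lemma iso_mapL' {E F : Lat K N} (h : F ≤ E) {q : (Fin N → K) →ₗ[K] (Fin N' → K)}
    (hq : ∀ x, ∀ w ∈ E.S x, q w = 0 → w ∈ F.S x) :
    Iso (fun p => p.1.mapL q = p.2) E F (E.mapL q) (F.mapL q) := by
  refine ⟨h, rfl, rfl, fun G _ _ => ⟨G.mapL q, rfl⟩, fun G' h1 h2 =>
    ⟨pull E q G', le_pull_iff.2 ⟨h, h1⟩, pull_le _ _ _, mapL_pull h2⟩, ?_, ?_⟩
  · rintro G₁ G₂ G₁' G₂' - h3 h4 h5 (rfl : G₁.mapL q = G₁') (rfl : G₂.mapL q = G₂')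
    exact ⟨fun h6 => mapL_mono h6 q, le_of_restrict_mapL h3 h5 fun x w hw =>
      h4 x (hq x w (Lat.mem_restrict.1 hw).1 (Lat.mem_restrict.1 hw).2)⟩
  · rintro G G' h3 h4 (rfl : G.mapL q = G')
    rw [rk_exact G q, chiL_exact G q, rk_exact F q, chiL_exact F q, restrict_ker_eq hq h3 h4]
    omega

lemma Nice.mapL {ν : Cl} {f : Fn K} (hf : Nice ν f) {E F : Lat K N} (h : F ≤ E)
    {q : (Fin N → K) →ₗ[K] (Fin N' → K)} (hq : ∀ x, ∀ w ∈ E.S x, q w = 0 → w ∈ F.S x) :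
    f N E F = f N' (E.mapL q) (F.mapL q) := hf.iso (del_mapL q) (iso_mapL' h hq)

lemma Nice.eq_zero_of_not_le {ν : Cl} {f : Fn K} (hf : Nice ν f) {E F : Lat K N} (h : ¬ F ≤ E) :
    f N E F = 0 := by_contra fun h0 => h (hasClass_iff.1 (hf.supp h0)).1

lemma Nice.mapL_inj {ν : Cl} {f : Fn K} (hf : Nice ν f) {E F : Lat K N} (h : F ≤ E)
    {q : (Fin N → K) →ₗ[K] (Fin N' → K)} (hq : E.gen ⊓ LinearMap.ker q = ⊥) :
    f N E F = f N' (E.mapL q) (F.mapL q) :=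
  hf.mapL h fun x w hw h0 => by
    have : w ∈ E.gen ⊓ LinearMap.ker q := ⟨Lat.mem_gen hw, h0⟩
    rw [hq, Submodule.mem_bot] at this
    rw [this]
    exact zero_mem _

lemma Nice.isSum {ν : Cl} {f : Fn K} (hf : Nice ν f) {E F G₁ G₂ : Lat K N}
    (h : IsSum E F G₁ G₂) : f N E F = f _ (oplus G₁ G₂) (oplus F F) := by
  obtain ⟨h1, h2⟩ := isSum_iff.1 h
  have h3 := hf.mapL (oplus_mono (h1 ▸ linf_le_left G₁ G₂ : F ≤ G₁) (h1 ▸ linf_le_right G₁ G₂))
    (q := pr1 N N + pr2 N N) fun x w hw h0 => by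
      have h4 : pr2 N N w = -pr1 N N w := eq_neg_of_add_eq_zero_right h0
      obtain ⟨h5, h6⟩ := mem_oplus.1 hw
      rw [h4, neg_mem_iff] at h6
      have h7 : pr1 N N w ∈ F.S x := h1 ▸ mem_linf.2 ⟨h5, h6⟩
      exact mem_oplus.2 ⟨h7, h4 ▸ neg_mem h7⟩
  rw [h3]
  change _ = f N (lsup G₁ G₂) (lsup F F)
  rw [h2, lsup_eq_right.2 le_rfl]

lemma exists_quot (F : Lat K N) :
    ∃ q : (Fin N → K) →ₗ[K] (Fin N → K), LinearMap.ker q = F.gen :=
  let ⟨_, hA⟩ := exists_ker_eq F.gen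
  ⟨_, hA⟩

lemma Nice.sat_mapL {ν : Cl} {f : Fn K} (hf : Nice ν f) {E F : Lat K N} (h : F ≤ E) (hs : Sat E F)
    {q : (Fin N → K) →ₗ[K] (Fin N' → K)} (hq : LinearMap.ker q = F.gen) :
    f N E F = f N' (E.mapL q) ⊥ := by
  rw [hf.mapL h (q := q) fun x w hw h0 => hs x w hw (hq ▸ h0), mapL_eq_bot_iff.2 hq.ge]

lemma Nice.sat_model {E F : Lat K N} (h : F ≤ E) (hs : Sat E F) :
    ∃ V : Lat K N, rk V + rk F = rk E ∧ dg V + dg F = dg E ∧
      ∀ (ν : Cl) (f : Fn K), Nice ν f → f N E F = f N V ⊥ := by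
  obtain ⟨q, hq⟩ := exists_quot F
  refine ⟨E.mapL q, ?_, ?_, fun ν f hf => hf.sat_mapL h hs hq⟩
  · rw [rk_exact E q, hq, ← hs.eq_restrict h, add_comm]
  · rw [dg_exact E q, hq, ← hs.eq_restrict h, add_comm]

/-! ### Definability -/

section
variable {X : Type} [Coded X]

lemma dmap_mapL {L : X → Lat K N} (hL : DMap L) (q : (Fin N → K) →ₗ[K] (Fin N' → K)) :
    DMap fun a => (L a).mapL q := DMap.mapL hL ((dmap_linear q).comp (by fun_prop))

lemma dmap_oplus {L : X → Lat K N} {L' : X → Lat K N'} (hL : DMap L) (hL' : DMap L') :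
    DMap fun a => oplus (L a) (L' a) := by
  refine DMap.of_graph (Del.sig (Del.congr (P := fun p : X × Lat K (N + N') =>
    ((L p.1).mapL (in1 N N') ≤ p.2 ∧ (L' p.1).mapL (in2 N N') ≤ p.2) ∧
      p.2.mapL (pr1 N N') ≤ L p.1 ∧ p.2.mapL (pr2 N N') ≤ L' p.1) ?_ fun p => ?_))
  · exact ((Del.le (dmap_mapL (by fun_prop) _) (by fun_prop)).and
      (Del.le (dmap_mapL (by fun_prop) _) (by fun_prop))).and
      ((Del.le (dmap_mapL (by fun_prop) _) (by fun_prop)).and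
        (Del.le (dmap_mapL (by fun_prop) _) (by fun_prop)))
  · rw [le_antisymm_iff, oplus_le_iff, le_oplus_iff]

lemma dmap_restrict_ker' {L : X → Lat K N} {g : X → (Fin N → K) →ₗ[K] (Fin N' → K)} (hL : DMap L)
    (hg : DMap fun p : X × (Fin N → K) => g p.1 p.2) :
    DMap fun a => (L a).restrict (LinearMap.ker (g a)) := by
  have h1 : DMap fun p : (X × Lat K N) × (Fin N → K) => g p.1.1 p.2 :=
    hg.comp (f := fun p : (X × Lat K N) × (Fin N → K) => (p.1.1, p.2)) (by fun_prop)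
  have h2 : DMap fun p : X × Lat K N => (L p.1).mapL (g p.1) := DMap.mapL (by fun_prop) h1
  have h3 : DMap fun p : X × Lat K N => p.2.mapL (g p.1) := DMap.mapL (by fun_prop) h1
  have h4 : DMap fun p : X × Lat K N => L p.1 := by fun_prop
  have h5 : DMap fun p : X × Lat K N => p.2 := by fun_prop
  refine DMap.of_graph (Del.sig (Del.congr (P := fun p : X × Lat K N =>
    (p.2 ≤ L p.1 ∧ p.2.mapL (g p.1) = ⊥) ∧
      rk (L p.1) = rk p.2 + rk ((L p.1).mapL (g p.1)) ∧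
      chiL (L p.1) = chiL p.2 + chiL ((L p.1).mapL (g p.1))) ?_ fun p => ?_))
  · exact ((Del.le h5 h4).and (Del.eq h3 (by fun_prop))).and
      ((((dfun_rk.comp h4).prod ((dfun_rk.comp h5).prod (dfun_rk.comp h2))).del
        fun t => t.1 = t.2.1 + t.2.2).and
      (((dfun_chiL.comp h4).prod ((dfun_chiL.comp h5).prod (dfun_chiL.comp h2))).del
        fun t => t.1 = t.2.1 + t.2.2))
  · constructor
    · rintro ⟨⟨a1, a2⟩, a3, a4⟩
      have a5 := rk_exact (L p.1) (g p.1)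
      have a6 := chiL_exact (L p.1) (g p.1)
      exact (eq_of_chiL (le_restrict a1 (mapL_eq_bot_iff.1 a2)) (by omega) (by omega)).symm
    · intro e
      rw [← e]
      exact ⟨⟨Lat.restrict_le _ _, mapL_eq_bot_iff.2 inf_le_right⟩, rk_exact _ _, chiL_exact _ _⟩

lemma dmap_restrict_ker {L : X → Lat K N} (hL : DMap L) (q : (Fin N → K) →ₗ[K] (Fin N' → K)) :
    DMap fun a => (L a).restrict (LinearMap.ker q) :=
  dmap_restrict_ker' hL ((dmap_linear q).comp (by fun_prop))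

lemma dmap_restrict {L : X → Lat K N} (hL : DMap L) (W : Submodule K (Fin N → K)) :
    DMap fun a => (L a).restrict W := by
  obtain ⟨A, rfl⟩ := exists_ker_eq W
  exact dmap_restrict_ker hL _

lemma pull_eq (E : Lat K N) (q : (Fin N → K) →ₗ[K] (Fin N' → K)) (M : Lat K N') :
    pull E q M = ((oplus E M).restrict (LinearMap.ker (q ∘ₗ pr1 N N' - pr2 N N'))).mapL
      (pr1 N N') := by
  refine le_antisymm (fun x w hw => ?_) (mapL_le_iff.2 fun x w hw => ?_)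
  · obtain ⟨h1, h2⟩ := mem_pull.1 hw
    exact Lat.mem_mapL.2 ⟨in1 N N' w + in2 N N' (q w), Lat.mem_restrict.2
      ⟨add_mem (in1_mem_oplus.2 h1) (in2_mem_oplus.2 h2), by simp⟩, by simp⟩
  · obtain ⟨h1, h2⟩ := Lat.mem_restrict.1 hw
    have h3 : q (pr1 N N' w) = pr2 N N' w := sub_eq_zero.1 h2
    exact mem_pull.2 ⟨(mem_oplus.1 h1).1, h3 ▸ (mem_oplus.1 h1).2⟩

lemma dmap_pull {L : X → Lat K N} {M : X → Lat K N'} (hL : DMap L) (hM : DMap M)
    (q : (Fin N → K) →ₗ[K] (Fin N' → K)) : DMap fun a => pull (L a) q (M a) := by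
  simp only [pull_eq]
  exact dmap_mapL (dmap_restrict_ker (dmap_oplus hL hM) _) _

lemma dmap_linf {L L' : X → Lat K N} (hL : DMap L) (hL' : DMap L') :
    DMap fun a => linf (L a) (L' a) := dmap_pull hL hL' _

lemma dmap_lsup {L L' : X → Lat K N} (hL : DMap L) (hL' : DMap L') :
    DMap fun a => lsup (L a) (L' a) := dmap_mapL (dmap_oplus hL hL') _

lemma dfun_dg : DFun fun L : Lat K N => dg L :=
  dfun_chiL.map₂ dfun_rk fun c r => c - (r : ℤ) * chiO K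

lemma del_dg_eq {L : X → Lat K N} (hL : DMap L) (k : ℤ) : Del fun a => dg (L a) = k :=
  (dfun_dg.comp hL).del (· = k)

end

end Pool.Agent.Lib.CC61
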