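import Pool.Agent.Lib.CC61.GBlue
import Pool.Agent.Lib.CC61.GKit1
import Pool.Agent.Lib.CC61.GKit2

open Filter Set Module

noncomputable section

namespace Pool.Agent.Lib.CC61

open Pool.Agent.Lib.MP_cc3443_ag

variable {K : Type} [Field K] [Algebra ℂ K] [Algebra (RatFunc ℂ) K]
  [IsScalarTower ℂ (RatFunc ℂ) K] [FiniteDimensional (RatFunc ℂ) K] {N N' : ℕ}

namespace T43

theorem cls_of_word {a : Cl → Fn K} (ha : ∀ ν, Nice ν (a ν)) {l : ℕ} {p : Fin l → Cl} {V : Lat K N}
    (h : word a (List.ofFn p) N V ⊥ ≠ 0) : rk V = (∑ i, p i).1 ∧ dg V = (∑ i, p i).2 := by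
  have := (hasClass_iff_dg.1 ((nice_word ha _).supp h)).2
  simpa [List.sum_ofFn] using this

omit [IsScalarTower ℂ (RatFunc ℂ) K] [FiniteDimensional (RatFunc ℂ) K] in
theorem word_succ (a : Cl → Fn K) {l : ℕ} (p : Fin (l + 1) → Cl) :
    word a (List.ofFn p) = hall (a (p 0)) (word a (List.ofFn (Fin.tail p))) := by
  rw [List.ofFn_succ]
  rfl

/-- Letterwise splittings that occur inside fixed lattices. -/
def Spl (a : Cl → Fn K) (E : Lat K N) (E' : Lat K N') {l : ℕ} (w : Fin l → Cl) :
    Set ((Fin l → Cl) × (Fin l → Cl)) :=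
  {p | p.1 + p.2 = w ∧ (∃ V ≤ E, word a (List.ofFn p.1) N V ⊥ ≠ 0) ∧
    ∃ W ≤ E', word a (List.ofFn p.2) N' W ⊥ ≠ 0}

theorem tail_mem {a : Cl → Fn K} (ha : ∀ ν, Nice ν (a ν)) {E : Lat K N} {E' : Lat K N'} {l : ℕ}
    {w : Fin (l + 1) → Cl} {p : (Fin (l + 1) → Cl) × (Fin (l + 1) → Cl)} (h : p ∈ Spl a E E' w) :
    (Fin.tail p.1, Fin.tail p.2) ∈ Spl a E E' (Fin.tail w) := by
  obtain ⟨rfl, ⟨V, h1, h2⟩, W, h3, h4⟩ := h
  rw [word_succ] at h2 h4
  obtain ⟨G, b1, b2⟩ := Nice.exists_of_hall h2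
  obtain ⟨G', b3, b4⟩ := Nice.exists_of_hall h4
  exact ⟨rfl, ⟨G, ((ha _).le b1).trans h1, b2⟩, G', ((ha _).le b3).trans h3, b4⟩

theorem spl_finite {a : Cl → Fn K} (ha : ∀ ν, Nice ν (a ν)) (E : Lat K N) (E' : Lat K N') (l : ℕ)
    (w : Fin l → Cl) : (Spl a E E' w).Finite := by
  obtain ⟨B, hB⟩ := exists_dg_bound E
  obtain ⟨B', hB'⟩ := exists_dg_bound E'
  induction l with
  | zero => exact Set.toFinite _
  | succ l ih =>
    refine Set.Finite.of_finite_fibers (fun p => (Fin.tail p.1, Fin.tail p.2))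
      ((ih (Fin.tail w)).subset ?_) fun q _ => ?_
    · rintro _ ⟨p, hp, rfl⟩
      exact tail_mem ha hp
    · refine Set.Finite.of_injOn (f := fun p => p.1 0) (t := Icc 0 (w 0).1 ×ˢ
        Icc ((w 0).2 - B' + (∑ i, q.2 i).2) (B - (∑ i, q.1 i).2)) ?_ ?_
        ((finite_Icc _ _).prod (finite_Icc _ _))
      · rintro p ⟨⟨rfl, ⟨V, h1, h2⟩, W, h3, h4⟩, rfl⟩
        have b1 := (cls_of_word ha h2).2
        have b2 := (cls_of_word ha h4).2
        have b3 := hB V h1
        have b4 := hB' W h3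
        rw [Fin.sum_univ_succ, Prod.snd_add] at b1 b2
        simp only [mem_prod, mem_Icc, Pi.add_apply, Prod.fst_add, Prod.snd_add, Fin.tail]
        omega
      · rintro p ⟨⟨h1, -⟩, h2⟩ p' ⟨⟨h3, -⟩, h4⟩ h5
        have h6 := Prod.ext_iff.1 (h2.trans h4.symm)
        have h7 : p.1 = p'.1 := by
          rw [← Fin.cons_self_tail p.1, ← Fin.cons_self_tail p'.1]
          exact congrArg₂ _ h5 h6.1
        exact Prod.ext h7 (add_left_cancel (h1.trans (h7 ▸ h3.symm)))

theorem bFn_oplus {ν μ μ' : Cl} {V G : Lat K N} {W G' : Lat K N'} (h : HasClass V G μ)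
    (h' : HasClass W G' μ') (e : μ + μ' = ν) :
    bFn ν _ (oplus V W) (oplus G G') = bFn μ N V G * bFn μ' N' W G' := by
  have h1 : HasClass (oplus V W) (oplus G G') ν := by
    rw [hasClass_iff_dg] at h h' ⊢
    rw [rk_oplus, rk_oplus, dg_oplus, dg_oplus, ← e, Prod.fst_add, Prod.snd_add]
    exact ⟨oplus_mono h.1 h'.1, by omega, by omega⟩
  simp only [bFn, h, h', h1, true_and, sat_oplus_iff, ind_and]

end T43

open T43 in
variable (K) in
theorem st_COPB (hL : St_LET K) (hC : St_COPST K) : St_COPB K := by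
  classical
  have hb := hL.1
  intro l N N'
  induction l with
  | zero =>
    intro V W w
    rw [finsum_eq_single _ (w, w) fun p hp => absurd (Subsingleton.elim _ _) hp,
      if_pos (Subsingleton.elim _ _)]
    simp only [List.ofFn_zero, word]
    by_cases h : V = ⊥ ∧ W = ⊥
    · rw [h.1, h.2, oplus_bot, torsFn_self, torsFn_self, torsFn_self, mul_one]
    · rw [torsFn_zero fun h1 => h (oplus_inj.1 (h1.trans oplus_bot.symm))]
      rcases not_and_or.1 h with h1 | h1
      · rw [torsFn_zero h1, zero_mul]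
      · rw [torsFn_zero h1, mul_zero]
  | succ l ih =>
    intro V W w
    by_cases h0 : rk V + rk W = (∑ i, w i).1 ∧ dg V + dg W = (∑ i, w i).2
    swap
    · rw [finsum_eq_zero_of_forall_eq_zero fun p => ?_]
      · by_contra h1
        exact h0 (by simpa only [rk_oplus, dg_oplus] using cls_of_word hb h1)
      · split_ifs with h1
        · by_contra h2
          have b1 := cls_of_word hb (left_ne_zero_of_mul h2)
          have b2 := cls_of_word hb (right_ne_zero_of_mul h2)
          subst h1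
          simp only [Pi.add_apply, Finset.sum_add_distrib, Prod.fst_add, Prod.snd_add] at h0
          omega
        · rfl
    have hS := spl_finite hb V W l (Fin.tail w)
    let a : (Fin l → Cl) × (Fin l → Cl) → Cl := fun p =>
      (rk V - (∑ i, p.1 i).1, dg V - (∑ i, p.1 i).2)
    let b : (Fin l → Cl) × (Fin l → Cl) → Cl := fun p =>
      (rk W - (∑ i, p.2 i).1, dg W - (∑ i, p.2 i).2)
    have hab : ∀ p ∈ hS.toFinset, a p + b p = w 0 := fun p hp => by
      obtain ⟨h1, ⟨G, h2, h3⟩, G', h4, h5⟩ := hS.mem_toFinset.1 hp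
      have b1 := (cls_of_word hb h3).1
      have b2 := (cls_of_word hb h5).1
      have b3 := rk_mono h2
      have b4 := rk_mono h4
      have b5 : ∑ i, w i = w 0 + (∑ i, p.1 i + ∑ i, p.2 i) := by
        rw [Fin.sum_univ_succ, ← Finset.sum_add_distrib]
        exact congrArg _ (Finset.sum_congr rfl fun i _ => (congrFun h1 i).symm)
      simp only [b5, Prod.fst_add, Prod.snd_add] at h0
      exact Prod.ext (by simp only [a, b, Prod.fst_add]; omega)
        (by simp only [a, b, Prod.snd_add]; omega)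
    have h1 := hC N N' V ⊥ W ⊥ _ _ _ _ _ hS.toFinset a (fun p => (List.ofFn p.1).sum) b
      (fun p => (List.ofFn p.2).sum) (fun p => bFn (a p)) (fun p => word bFn (List.ofFn p.1))
      (fun p => bFn (b p)) (fun p => word bFn (List.ofFn p.2)) bot_le bot_le (hb (w 0))
      (nice_word hb (List.ofFn (Fin.tail w))) (fun p hp => ⟨hb _, nice_word hb _, hb _,
        nice_word hb _, by
          simp only [List.sum_ofFn, ← (hS.mem_toFinset.1 hp).1, Pi.add_apply,
            Finset.sum_add_distrib]⟩) fun G G' _ g _ g' => by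
      rw [oplus_bot, ih G G', finsum_eq_sum_of_support_subset (s := hS.toFinset) _ fun p hp => ?_,
        Finset.mul_sum]
      · refine Finset.sum_congr rfl fun p hp => ?_
        rw [if_pos (hS.mem_toFinset.1 hp).1]
        by_cases h2 : word bFn (List.ofFn p.1) N G ⊥ * word bFn (List.ofFn p.2) N' G' ⊥ = 0
        · rw [h2, mul_zero, mul_mul_mul_comm, h2, mul_zero]
        have b1 := cls_of_word hb (left_ne_zero_of_mul h2)
        have b2 := cls_of_word hb (right_ne_zero_of_mul h2)
        rw [mul_mul_mul_comm, bFn_oplus (μ := a p) (μ' := b p) _ _ (hab p hp)]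
        · simpa only [a, b1.1, b1.2] using hasClass_self g
        · simpa only [b, b2.1, b2.2] using hasClass_self g'
      · rw [Function.mem_support, Ne, ite_eq_right_iff, Classical.not_imp] at hp
        exact hS.mem_toFinset.2 ⟨hp.1, ⟨G, g, left_ne_zero_of_mul hp.2⟩, G', g',
          right_ne_zero_of_mul hp.2⟩
    rw [oplus_bot] at h1
    rw [word_succ, h1, finsum_eq_sum_of_support_subset (s := hS.toFinset.image fun p =>
      (Fin.cons (a p) p.1, Fin.cons (b p) p.2)) _ fun p hp => ?_, Finset.sum_image fun p _ p' _ e => ?_]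
    · refine Finset.sum_congr rfl fun p hp => ?_
      rw [if_pos, word_succ, word_succ]
      · rfl
      · funext i
        refine Fin.cases (hab p hp) (fun i => ?_) i
        exact congrFun (hS.mem_toFinset.1 hp).1 i
    · exact congrArg (fun q : (Fin (l + 1) → Cl) × (Fin (l + 1) → Cl) =>
        (Fin.tail q.1, Fin.tail q.2)) e
    · rw [Function.mem_support, Ne, ite_eq_right_iff, Classical.not_imp] at hp
      have b1 := cls_of_word hb (left_ne_zero_of_mul hp.2)
      have b2 := cls_of_word hb (right_ne_zero_of_mul hp.2)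
      refine Finset.mem_coe.2 (Finset.mem_image.2 ⟨_, hS.mem_toFinset.2 (tail_mem hb
        ⟨hp.1, ⟨V, le_rfl, left_ne_zero_of_mul hp.2⟩, W, le_rfl, right_ne_zero_of_mul hp.2⟩), ?_⟩)
      rw [Fin.sum_univ_succ] at b1 b2
      have b3 : a (Fin.tail p.1, Fin.tail p.2) = p.1 0 := by simp [a, b1.1, b1.2, Fin.tail]
      have b4 : b (Fin.tail p.1, Fin.tail p.2) = p.2 0 := by simp [b, b2.1, b2.2, Fin.tail]
      rw [b3, b4, Fin.cons_self_tail, Fin.cons_self_tail]

end Pool.Agent.Lib.CC61
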