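import Pool.Agent.Lib.CC61.GBlue
import Pool.Agent.Lib.CC61.GKit1
import Pool.Agent.Lib.CC61.GKit2
import Pool.Agent.Lib.CC61.AKit

open Finset
open scoped TensorProduct

noncomputable section

namespace Pool.Agent.Lib.CC61

open Pool.Agent.Lib.MP_cc3443_ag

variable (K : Type) [Field K] [Algebra ℂ K] [Algebra (RatFunc ℂ) K]
  [IsScalarTower ℂ (RatFunc ℂ) K] [FiniteDimensional (RatFunc ℂ) K]

namespace T59

theorem add_sub_par {μ ν : Cl} (h : μ ∈ par ν) : μ + (ν - μ) = ν := by
  have := mem_range.1 (mem_product.1 (mem_filter.1 h).1).1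
  refine Prod.ext ?_ (by simp)
  simp only [Prod.fst_add, Prod.fst_sub]
  omega

theorem split_word (hL : St_LET K) (hC : St_COPST K) (hS : St_SSUM K) (N N' : ℕ) (w : List Cl) :
    ∃ (κ : Type) (s : Finset κ) (u v : κ → List Cl), (∀ k ∈ s, (u k).sum + (v k).sum = w.sum) ∧
      DT (w.map (FreeAlgebra.ι ℂ)).prod = ∑ k ∈ s, wd (u k) ⊗ₜ[ℂ] wd (v k) ∧
      ∀ (E F : Lat K N) (E' F' : Lat K N'), F ≤ E → F' ≤ E' →
        word ssFn w _ (oplus E E') (oplus F F') =
          ∑ k ∈ s, word ssFn (u k) N E F * word ssFn (v k) N' E' F' := by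
  induction w with
  | nil =>
    refine ⟨Unit, univ, fun _ => [], fun _ => [], by simp,
      by simp [Algebra.TensorProduct.one_def], fun E F E' F' _ _ => ?_⟩
    simp only [word, univ_unique, sum_singleton]
    by_cases h : E = F ∧ E' = F'
    · rw [h.1, h.2, torsFn_self, torsFn_self, torsFn_self, one_mul]
    · rw [by_contra fun h1 => h (oplus_inj.1 (eq_of_torsFn h1))]
      exact (by_contra fun h1 => h ⟨eq_of_torsFn (left_ne_zero_of_mul h1),
        eq_of_torsFn (right_ne_zero_of_mul h1)⟩ : _ = (0 : ℂ)).symm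
  | cons ν w ih =>
    obtain ⟨κ, s, u, v, h1, h2, h3⟩ := ih
    refine ⟨Cl × κ, par ν ×ˢ s, fun p => p.1 :: u p.2, fun p => (ν - p.1) :: v p.2,
      fun p hp => ?_, ?_, fun E F E' F' h h' => ?_⟩
    · rw [List.sum_cons, List.sum_cons, List.sum_cons, add_add_add_comm,
        add_sub_par (mem_product.1 hp).1, h1 _ (mem_product.1 hp).2]
    · rw [List.map_cons, List.prod_cons, map_mul, h2, DT, FreeAlgebra.lift_ι_apply, sum_mul_sum,
        sum_product]
      simp [wd_cons]
    · refine hC N N' E F E' F' ν w.sum _ _ _ (par ν ×ˢ s) (fun p => p.1) (fun p => (u p.2).sum)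
        (fun p => ν - p.1) (fun p => (v p.2).sum) (fun p => ssFn p.1) (fun p => word ssFn (u p.2))
        (fun p => ssFn (ν - p.1)) (fun p => word ssFn (v p.2)) h h' (hL.2.1 ν)
        (nice_word hL.2.1 w) (fun p hp => ⟨hL.2.1 _, nice_word hL.2.1 _, hL.2.1 _,
          nice_word hL.2.1 _, h1 _ (mem_product.1 hp).2⟩) fun G G' a b c d => ?_
      rw [hS N N' E G E' G' ν b d, h3 G F G' F' a c, sum_mul_sum, sum_product]
      exact sum_congr rfl fun _ _ => sum_congr rfl fun _ _ => by ring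

end T59

theorem st_COPS (hL : St_LET K) (hC : St_COPST K) (hS : St_SSUM K) : St_COPS K := by
  intro N N' E F E' F' t h h'
  have h0 : ∀ (N : ℕ) (E F : Lat K N) (u v : List Cl),
      word ssFn (u ++ 0 :: v) N E F = word ssFn (u ++ v) N E F := fun N E F u v => by
    rw [word_nil0 hL.2.1 (hL.2.2.2.2.2.2.1 0)]
  refine LinearMap.congr_fun (TA.lhom_ext
    (f := evT fun w => word ssFn w _ (oplus E E') (oplus F F'))
    (g := ev2 (fun w => word ssFn w N E F) (fun w => word ssFn w N' E' F') ∘ₗ DT.toLinearMap)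
    fun w => ?_) t
  obtain ⟨κ, s, u, v, -, h2, h3⟩ := T59.split_word K hL hC hS N N' w
  rw [evT_basis, LinearMap.comp_apply, AlgHom.toLinearMap_apply, h2, h3 E F E' F' h h', map_sum]
  exact sum_congr rfl fun k _ => by rw [ev2_tmul, evT_wd (h0 N E F), evT_wd (h0 N' E' F')]

end Pool.Agent.Lib.CC61
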