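import Pool.Agent.Lib.CC61.GBlue
import Pool.Agent.Lib.CC61.GKit1
import Pool.Agent.Lib.CC61.GKit2

open Filter Set Module

noncomputable section

namespace Pool.Agent.Lib.CC61

open Pool.Agent.Lib.MP_cc3443_ag

variable {K : Type} [Field K] [Algebra ℂ K] [Algebra (RatFunc ℂ) K]
  [IsScalarTower ℂ (RatFunc ℂ) K] [FiniteDimensional (RatFunc ℂ) K] {N N' : ℕ}

namespace T43

theorem nice_inj {ν : Cl} {f : Fn K} (hf : Nice ν f) (E F : Lat K N)
    {q : (Fin N → K) →ₗ[K] (Fin N' → K)} (hq : Function.Injective q) :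
    f N' (E.mapL q) (F.mapL q) = f N E F := by
  by_cases h : F ≤ E
  · exact (hf.mapL_inj h (inf_ker_eq_bot hq _)).symm
  · rw [hf.eq_zero_of_not_le h, hf.eq_zero_of_not_le fun h1 => h fun x w hw => ?_]
    obtain ⟨v, hv, e⟩ := Lat.mem_mapL.1 (h1 x (mem_mapL_of_mem q hw))
    exact hq e ▸ hv

/-- Scaling of the first summand. -/
def scl (N N' : ℕ) (t : ℂ) : (Fin (N + N') → K) →ₗ[K] (Fin (N + N') → K) :=
  algebraMap ℂ K t • (in1 N N' ∘ₗ pr1 N N') + in2 N N' ∘ₗ pr2 N N'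

omit [Algebra (RatFunc ℂ) K] [IsScalarTower ℂ (RatFunc ℂ) K] [FiniteDimensional (RatFunc ℂ) K] in
theorem scl_scl {t : ℂ} (ht : t ≠ 0) (w : Fin (N + N') → K) :
    scl N N' t⁻¹ (scl N N' t w) = w := by
  conv_rhs => rw [← in1_add_in2 w]
  simp [scl, smul_smul, ht, -algebraMap_smul]

theorem scl_mem {E : Lat K N} {E' : Lat K N'} (t : ℂ) {x : Place K} {w : Fin (N + N') → K}
    (h : w ∈ (oplus E E').S x) : scl N N' t w ∈ (oplus E E').S x := by
  have := Lat.smul_mem (x.const t) (mem_oplus.1 h).1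
  simpa [scl, mem_oplus] using And.intro this (mem_oplus.1 h).2

theorem mapL_scl (E : Lat K N) (E' : Lat K N') {t : ℂ} (ht : t ≠ 0) :
    (oplus E E').mapL (scl N N' t) = oplus E E' :=
  le_antisymm (mapL_le_iff.2 fun _ _ hw => scl_mem t hw) fun _ w hw =>
    Lat.mem_mapL.2 ⟨_, scl_mem t⁻¹ hw, by simpa using scl_scl (inv_ne_zero ht) w⟩

theorem mapL_pr1_in1 {E : Lat K N} {U : Lat K (N + N')} (h : U ≤ E.mapL (in1 N N')) :
    U.mapL (pr1 N N') ≤ E ∧ (U.mapL (pr1 N N')).mapL (in1 N N') = U := by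
  refine ⟨mapL_le_iff.2 fun x w hw => ?_, ?_⟩
  · obtain ⟨v, hv, rfl⟩ := Lat.mem_mapL.1 (h x hw)
    simpa using hv
  · rw [T24.mapL_mapL, mapL_congr (q' := LinearMap.id) fun w hw => ?_, mapL_id]
    obtain ⟨v, -, rfl⟩ := Lat.gen_mono h hw
    simp

end T43

open T43 in
variable (K) in
theorem st_COPST (hF : St_FIB K) (hI : St_LIFT K) : St_COPST K := by
  classical
  intro N N' E F E' F' μ ν f g κ s μ₁ ν₁ μ₂ ν₂ f₁ g₁ f₂ g₂ _ _ hf hg hk H
  have hψ := hf.dfun_hall hg (oplus E E') (oplus F F')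
  obtain ⟨C₁, c1⟩ := exists_chiL_bound (E.mapL (in1 N N'))
  obtain ⟨C₂, c2⟩ := exists_chiL_bound E'
  obtain ⟨r, hr⟩ : ∃ r, r = rk F + rk F' + ν.1 := ⟨_, rfl⟩
  obtain ⟨c, hc⟩ : ∃ c, c = chiL F + chiL F' + ν.2 + ν.1 * chiO K := ⟨_, rfl⟩
  let J : κ → ℕ × ℤ := fun k => (rk F + (ν₁ k).1, chiL F + (ν₁ k).2 + (ν₁ k).1 * chiO K)
  have e1 : ∀ k ∈ s, (ν₁ k).1 + (ν₂ k).1 = ν.1 := fun k h => congrArg Prod.fst (hk k h).2.2.2.2
  have e2 : ∀ k ∈ s, (ν₁ k).2 + (ν₂ k).2 = ν.2 := fun k h => congrArg Prod.snd (hk k h).2.2.2.2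
  have hI1 : ∀ j ∈ Finset.Icc 0 r ×ˢ Finset.Icc (c - C₂) C₁ ∪ s.image J, j.1 ≤ r := fun j hj => by
    rcases Finset.mem_union.1 hj with h | h
    · exact (Finset.mem_Icc.1 (Finset.mem_product.1 h).1).2
    · obtain ⟨k, h1, rfl⟩ := Finset.mem_image.1 h
      have := e1 k h1
      simp only [J]
      omega
  have da : ∀ k ∈ s, DFun fun U => f₁ k _ (E.mapL (in1 N N')) U * g₁ k _ U (F.mapL (in1 N N')) :=
    fun k h => (hk k h).1.dfun_hall (hk k h).2.1 _ _
  have db : ∀ k ∈ s, DFun fun M => f₂ k _ E' M * g₂ k _ M F' :=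
    fun k h => (hk k h).2.2.1.dfun_hall (hk k h).2.2.2.1 _ _
  rw [hf.hall_eq hg, rk_oplus, chiL_oplus, ← hr, ← hc, hF _ N' (oplus E E') (pr2 N N') r c _ _ hψ
    hI1 fun A hA _ => ?_, restrict_ker_pr2_oplus, mapL_pr2_oplus]
  · refine (Finset.sum_congr rfl (g := fun j => ∑ k ∈ s,
      ((QC (E.mapL (in1 N N')) j.1 j.2).int fun U =>
        f₁ k _ (E.mapL (in1 N N')) U * g₁ k _ U (F.mapL (in1 N N'))) *
      (QC E' (r - j.1) (c - j.2)).int fun M => f₂ k _ E' M * g₂ k _ M F') fun j hj => ?_).trans ?_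
    · have h1 := hI1 j hj
      rw [Finset.sum_congr rfl fun k h => (Chart.int_mul_const _ (da k h) _).symm,
        ← Chart.int_sum _ _ fun k h => (da k h).mul (DFun.const _)]
      refine Chart.int_congr _ fun U hU => ?_
      rw [Finset.sum_congr rfl fun k h => (Chart.int_const_mul _ (db k h) _).symm,
        ← Chart.int_sum _ _ fun k h => (DFun.const _).mul (db k h)]
      refine Chart.int_congr _ fun M hM => ?_
      obtain ⟨u0, u1, u2⟩ := QC_R.1 hU
      obtain ⟨m0, m1, m2⟩ := QC_R.1 hM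
      obtain ⟨g0, g1⟩ := mapL_pr1_in1 u0
      generalize U.mapL (pr1 N N') = G at g0 g1
      subst g1
      rw [rk_mapL_inj (inf_ker_eq_bot in1_injective _)] at u1
      rw [chiL_mapL_inj (inf_ker_eq_bot in1_injective _)] at u2
      have h2 := hI.2 N N' E G E' M _ g0 m0 hψ fun t A ht _ => by
        have h3 : Function.Injective (scl (K := K) N N' t) :=
          Function.LeftInverse.injective (scl_scl ht)
        have h4 := nice_inj hf (oplus E E') A h3
        have h5 := nice_inj hg A (oplus F F') h3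
        rw [mapL_scl _ _ ht] at h4 h5
        exact congrArg₂ (· * ·) h4 h5
      rw [show rk G + rk M = r by omega, show chiL G + chiL M = c by omega] at h2
      rw [h2, Finset.sum_congr rfl fun k h => by
        rw [nice_inj (hk k h).1 E G in1_injective, nice_inj (hk k h).2.1 G F in1_injective]]
      by_cases h3 : F ≤ G ∧ F' ≤ M
      · exact H G M h3.1 g0 h3.2 m0
      · rw [hg.eq_zero_of_not_le fun h4 => h3 (oplus_le_oplus_iff.1 h4), mul_zero]
        refine (Finset.sum_eq_zero fun k h => ?_).symm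
        rcases not_and_or.1 h3 with h4 | h4
        · rw [(hk k h).2.1.eq_zero_of_not_le h4, mul_zero, zero_mul]
        · rw [(hk k h).2.2.2.1.eq_zero_of_not_le h4, mul_zero, mul_zero]
    · rw [Finset.sum_comm]
      refine Finset.sum_congr rfl fun k h => ?_
      obtain ⟨a1, a2, a3, a4, -⟩ := hk k h
      have b1 := rk_mapL_inj (inf_ker_eq_bot (in1_injective (N' := N')) F.gen)
      have b2 := chiL_mapL_inj (inf_ker_eq_bot (in1_injective (N' := N')) F.gen)
      rw [Finset.sum_eq_single_of_mem (J k) (Finset.mem_union_right _ (Finset.mem_image_of_mem J h))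
        fun j _ hj => ?_, ← nice_inj (a1.mul a2) E F (in1_injective (N' := N')), a1.hall_eq a2,
        a3.hall_eq a4, b1, b2]
      · have b3 := e1 k h
        have b4 := e2 k h
        have b5 : c - (J k).2 = chiL F' + (ν₂ k).2 + (ν₂ k).1 * chiO K := by
          simp only [J, hc, ← b3, ← b4]
          push_cast
          ring
        rw [b5, show r - (J k).1 = rk F' + (ν₂ k).1 by simp only [J]; omega]
      · rw [Chart.int_eq_zero _ fun U hU => by_contra fun h0 => hj ?_, zero_mul]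
        obtain ⟨-, u1, u2⟩ := QC_R.1 hU
        obtain ⟨-, u3, u4⟩ := a1.qr a2 h0
        exact Prod.ext (by simp only [J]; omega) (by simp only [J]; omega)
  · have h1 := rk_exact A (pr2 N N')
    have h2 := chiL_exact A (pr2 N N')
    have h3 := c1 _ (restrict_ker_pr2_oplus E E' ▸ restrict_mono hA.1 _)
    have h4 := c2 _ (le_oplus_iff.1 hA.1).2
    have h5 := hA.2.1
    have h6 := hA.2.2
    refine Finset.mem_union_left _ (Finset.mem_product.2 ⟨Finset.mem_Icc.2 ?_, Finset.mem_Icc.2 ?_⟩)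
    all_goals simp only; omega

end Pool.Agent.Lib.CC61
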