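import Pool.Agent.Lib.CC61.GBlue
import Pool.Agent.Lib.CC61.GKit1
import Pool.Agent.Lib.CC61.GKit2

/-! Project cc61, block FIB. -/

noncomputable section

namespace Pool.Agent.Lib.CC61

open Pool.Agent.Lib.MP_cc3443_ag

variable (K : Type) [Field K] [Algebra ℂ K] [Algebra (RatFunc ℂ) K]
  [IsScalarTower ℂ (RatFunc ℂ) K] [FiniteDimensional (RatFunc ℂ) K]

theorem st_FIB : St_FIB K := by
  intro N N' E q r c ψ I hψ _ hI
  have d1 : Del fun p : Lat K N × Lat K N => p.1.restrict (LinearMap.ker q) = p.2 :=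
    Del.eq (dmap_restrict_ker (by fun_prop) q) (by fun_prop)
  have d2 : Del fun p : Lat K N × Lat K N' => p.1.mapL q = p.2 :=
    Del.eq (dmap_mapL (by fun_prop) q) (by fun_prop)
  rw [disint (QC E r c) (E.restrict (LinearMap.ker q)) hψ d1 I fun G hG h0 =>
    ⟨_, rfl, restrict_mono (QC_R.1 hG).1 _, hI G (QC_R.1 hG) h0, fun G' _ e => Eq.symm e⟩]
  refine Finset.sum_congr rfl fun j _ => Chart.int_congr _ fun U hU => ?_
  obtain ⟨-, u1, u2⟩ := QC_R.1 hU
  have d3 : DFun fun G : Lat K N => ind (G.restrict (LinearMap.ker q) = U) * ψ G :=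
    (Del.eq (dmap_restrict_ker (by fun_prop) q) (by fun_prop)).ind.mul hψ
  rw [disint (QC E r c) (E.mapL q) d3 d2 {(r - j.1, c - j.2)} fun G hG h0 => ?_,
    Finset.sum_singleton]
  · refine Chart.int_congr _ fun M _ => Chart.int_congr _ fun G _ => ?_
    rw [ind_and]
    ring
  · obtain ⟨g0, g1, g2⟩ := QC_R.1 hG
    have e : G.restrict (LinearMap.ker q) = U := of_ind_ne_zero (left_ne_zero_of_mul h0)
    refine ⟨_, rfl, mapL_mono g0 q, ?_, fun G' _ e => Eq.symm e⟩
    have a1 := rk_exact G q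
    have a2 := chiL_exact G q
    rw [e] at a1 a2
    rw [Finset.mem_singleton, Prod.mk.injEq]
    omega

end Pool.Agent.Lib.CC61
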