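import Pool.Agent.Lib.CC61.AKit
import Pool.Agent.Lib.CC61.ABlue

open Finset

noncomputable section

namespace Pool.Agent.Lib.CC61

namespace T59

/-- Families with support in a given set. -/
def SuppIn {l : ℕ} (Z : Finset ((Fin l → ℕ) × (Fin l → ℤ))) : Submodule ℂ (Fam l) where
  carrier := {T | ∀ γ m, (γ, m) ∉ Z → (T γ).coeff m = 0}
  add_mem' := fun ha hb γ m h => by simp [ha γ m h, hb γ m h]
  zero_mem' := fun _ _ _ => by simp
  smul_mem' := fun c T ha γ m h => by simp [ha γ m h]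

instance {l : ℕ} (Z : Finset ((Fin l → ℕ) × (Fin l → ℤ))) : Module.Finite ℂ (SuppIn Z) := by
  let R : SuppIn Z →ₗ[ℂ] Z → ℂ :=
    { toFun := fun T p => (T.1 p.1.1).coeff p.1.2
      map_add' := fun _ _ => by ext; simp
      map_smul' := fun _ _ => by ext; simp }
  refine Module.Finite.of_injective R ((injective_iff_map_eq_zero R).2 fun T h => ?_)
  ext γ m
  by_cases hm : (γ, m) ∈ Z
  · exact congrFun h ⟨_, hm⟩
  · simpa using T.2 γ m hm

end T59

open T59 in
theorem st_FIN (hN : St_NUM) (hK : St_KER) : St_FIN := by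
  classical
  intro h X wb hB ν
  obtain ⟨h1, h2⟩ := hN h X wb hB ν.1
  choose S hA hS using h1
  obtain ⟨B, hI⟩ := hB.ind ν
  obtain ⟨Z, hZ⟩ := h2 ν B
  have h3 : Submodule.span ℂ (S '' {V | X.cl V = ν ∧ X.Box B V}) ≤ SuppIn Z := by
    rw [Submodule.span_le]
    rintro _ ⟨V, hV, rfl⟩ γ m hm
    exact by_contra fun h => hm (hZ V _ hV.1 hV.2 (hS V) γ m h)
  obtain ⟨s, h4, h5⟩ := (Submodule.fg_span_iff_fg_span_finset_subset _).1
    (Module.Finite.iff_fg.1 (Submodule.finiteDimensional_of_le h3))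
  obtain ⟨t, h6, rfl⟩ := Finset.subset_set_image_iff.1 h4
  let R : PP X wb ν →ₗ[ℂ] t → ℂ :=
    { toFun := fun f V => f.1 V
      map_add' := fun _ _ => rfl
      map_smul' := fun _ _ => rfl }
  refine Module.Finite.of_injective R ((injective_iff_map_eq_zero R).2 fun f hf => ?_)
  ext V
  by_cases hV : X.cl V = ν
  swap
  · exact f.2.1 V hV
  rcases hI V hV with h7 | ⟨V₁, V₂, h7, h8, -, h9⟩
  · have h8 : S V ∈ Submodule.span ℂ (S '' t) := by
      rw [← coe_image, ← h5]
      exact Submodule.subset_span ⟨V, ⟨hV, h7⟩, rfl⟩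
    obtain ⟨c, h9, h10⟩ := (Finsupp.mem_span_image_iff_linearCombination ℂ).1 h8
    have h11 : ∀ W ∈ c.support, W ∈ t := fun W hW => (Finsupp.mem_supported _ _).1 h9 hW
    have h12 := f.2.2.1 _ ((hK h X wb hB _ S hS hA (Finsupp.single V 1 - c) fun W hW => by
      rcases mem_union.1 (Finsupp.support_sub hW) with h | h
      · rw [mem_singleton.1 (Finsupp.support_single_subset h), hV]
      · rw [(h6 (h11 W h)).1]).1.1 (by simp [h10]))
    rw [map_sub, Finsupp.linearCombination_single, one_smul, sub_eq_zero,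
      Finsupp.linearCombination_apply, Finsupp.sum] at h12
    exact h12.trans (sum_eq_zero fun W hW => smul_eq_zero_of_right _ (congrFun hf ⟨W, h11 W hW⟩))
  · have h10 := f.2.2.1 (Finsupp.single V 1 - Finsupp.single (X.add V₁ V₂) 1) (by simp [h9])
    simpa [f.2.2.2 V₁ V₂ h7 h8] using h10

end Pool.Agent.Lib.CC61
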