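import Pool.Agent.Lib.CC61.T39X

open Filter Set Module

noncomputable section

namespace Pool.Agent.Lib.CC61

open Pool.Agent.Lib.MP_cc3443_ag

namespace T39

variable {K : Type} [Field K] [Algebra ℂ K] [Algebra (RatFunc ℂ) K]
  [IsScalarTower ℂ (RatFunc ℂ) K] [FiniteDimensional (RatFunc ℂ) K]

lemma sand_rho (hR : St_RHO K) {ν : Cl} {H : Submodule ℂ (Fn K)} (hH : Sand K ν H) {f : Fn K}
    (hf : f ∈ H) (s : Finset (Σ N, Lat K N × Lat K N)) :
    ∃ t ∈ Tc ν, Nice ν (rho t : Fn K) ∧ ∀ p ∈ s, f p.1 p.2.1 p.2.2 = rho t p.1 p.2.1 p.2.2 := by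
  obtain ⟨f', h1, h2⟩ := hH.2 f hf s
  obtain ⟨t, ht, rfl⟩ := hR.2.1 ν f' h1
  exact ⟨t, ht, (hR.1 ν t ht).1, h2⟩

lemma sand_two (hR : St_RHO K) {ν : Cl} {H : Submodule ℂ (Fn K)} (hH : Sand K ν H) {f : Fn K}
    (hf : f ∈ H) {N N' : ℕ} (E F : Lat K N) (E' F' : Lat K N') :
    ∃ g : Fn K, Nice ν g ∧ f N E F = g N E F ∧ f N' E' F' = g N' E' F' := by
  classical
  obtain ⟨t, -, h1, h2⟩ := sand_rho hR hH hf {⟨N, E, F⟩, ⟨N', E', F'⟩}
  exact ⟨_, h1, h2 ⟨N, E, F⟩ (by simp), h2 ⟨N', E', F'⟩ (by simp)⟩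

lemma sand_class (hR : St_RHO K) {ν : Cl} {H : Submodule ℂ (Fn K)} (hH : Sand K ν H) {f : Fn K}
    (hf : f ∈ H) {N : ℕ} {E F : Lat K N} (h : f N E F ≠ 0) : HasClass E F ν := by
  obtain ⟨g, h1, h2, -⟩ := sand_two hR hH hf E F E F
  exact h1.supp (h2 ▸ h)

variable (K) in
/-- Restriction to bundles. -/
def resL : Fn K →ₗ[ℂ] ((bun K).Λ → ℂ) where
  toFun := fun f V => f V.1 V.2 ⊥
  map_add' := fun _ _ => rfl
  map_smul' := fun _ _ => rfl

end T39

variable (K : Type) [Field K] [Algebra ℂ K] [Algebra (RatFunc ℂ) K]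
  [IsScalarTower ℂ (RatFunc ℂ) K] [FiniteDimensional (RatFunc ℂ) K]

open T39 in
theorem st_FINAL (hR : St_RHO K) : St_FINAL K := by
  classical
  intro ν H n y hν hH hy hli hPP
  have h1 : ∀ i, (rho (y i) : Fn K) ∈ H ∧ Prim (rho (y i) : Fn K) := fun i =>
    ⟨hH.1 _ (hR.1 ν _ (mem_Pr.mp (hy i)).1).2, hR.2.2.1 ν _ (hy i)⟩
  refine rank_eq_of_basis (fun i => rho (y i)) (LinearIndependent.of_comp (resL K) hli) h1
    fun f hf hp => ?_
  have h2 : resL K f ∈ PP (bun K) (wv K ssFn) ν := by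
    refine ⟨fun V hV => ?_, fun φ hφ => ?_, fun V W hV hW => ?_⟩
    · by_contra hn
      exact hV (hasClass_bot_iff.mp (sand_class hR hH hf hn))
    · obtain ⟨t, -, -, h2⟩ := sand_rho hR hH hf
        (φ.support.image fun V : Σ N, Lat K N => (⟨V.1, V.2, ⊥⟩ : Σ N, Lat K N × Lat K N))
      have h3 := evT_comb (wv K ssFn) φ t
      rw [hφ, evT_zero] at h3
      rw [h3, Finsupp.linearCombination_apply, Finsupp.linearCombination_apply]
      refine Finsupp.sum_congr fun V hV => ?_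
      exact congrArg _ (h2 ⟨V.1, V.2, ⊥⟩ (Finset.mem_image_of_mem _ hV))
    · refine hp.eq_zero (fun x => (isSum_oplus V.2 W.2 x).1) (fun x => (isSum_oplus V.2 W.2 x).2)
        (fun h => hV.ne' ?_) fun h => hW.ne' ?_
      · have h3 := (congrArg rk h).trans rk_bot
        rw [rk_oplus, rk_bot] at h3
        exact h3
      · have h3 := (congrArg rk h).trans rk_bot
        rw [rk_oplus, rk_bot, zero_add] at h3
        exact h3
  rw [hPP] at h2
  obtain ⟨c, hc⟩ := (Submodule.mem_span_range_iff_exists_fun ℂ).mp h2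
  refine (Submodule.mem_span_range_iff_exists_fun ℂ).mpr ⟨c, (sub_eq_zero.mp ?_).symm⟩
  set g := f - ∑ i, c i • (rho (y i) : Fn K) with hg
  have h3 : g ∈ H := H.sub_mem hf (H.sum_mem fun i _ => H.smul_mem _ (h1 i).1)
  have h4 : g ∈ PrimS K := (PrimS K).sub_mem hp
    ((PrimS K).sum_mem fun i _ => (PrimS K).smul_mem _ (h1 i).2)
  have h5 : resL K g = 0 := by
    rw [hg, map_sub, map_sum, ← hc, sub_eq_zero]
    exact Finset.sum_congr rfl fun i _ => rfl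
  funext N E F
  by_contra hn
  obtain ⟨a1, a2, -⟩ := hasClass_iff_dg.mp (sand_class hR hH h3 hn)
  by_cases hs : Sat E F
  · obtain ⟨W, -, -, a3⟩ := Nice.sat_model a1 hs
    obtain ⟨g', b1, b2, b3⟩ := sand_two hR hH h3 E F W ⊥
    exact hn (b2.trans ((a3 ν _ b1).trans (b3.symm.trans (congrFun h5 ⟨N, W⟩))))
  · exact hn (Prim.not_sat h4 a1 hs (by omega))

end Pool.Agent.Lib.CC61
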