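import Pool.Agent.Lib.CC61.AKit

open Finset

noncomputable section

namespace Pool.Agent.Lib.CC61

namespace T33

variable {l : ℕ}

/-- A family with support in a finite set is the sum of its monomials. -/
lemma fam_eq_sum (Z : Finset ((Fin l → ℕ) × (Fin l → ℤ))) (T : Fam l)
    (hT : ∀ γ m, (T γ).coeff m ≠ 0 → (γ, m) ∈ Z) :
    T = ∑ p ∈ Z, (T p.1).coeff p.2 • (Pi.single p.1 (zz p.2) : Fam l) := by
  funext γ
  ext m
  rw [Finset.sum_apply, AddMonoidAlgebra.coeff_sum, Finsupp.finsetSum_apply,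
    Finset.sum_eq_single (γ, m)]
  · simp [coeff_zz]
  · rintro ⟨δ, s⟩ _ hp
    by_cases e : δ = γ
    · subst e
      have : s ≠ m := fun e => hp (by rw [e])
      simp [coeff_zz, this]
    · simp [Pi.single_eq_of_ne (Ne.symm e)]
  · intro hp
    have : (T γ).coeff m = 0 := by_contra fun h1 => hp (hT γ m h1)
    simp [this]

end T33

theorem st_HC (hN : St_NUM) : St_HC := by
  classical
  intro h X wb H l S hS V n
  by_contra hn
  obtain ⟨φ, h1, h2⟩ := Submodule.exists_dual_map_eq_bot_of_notMem hn inferInstance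
  obtain ⟨B, hB⟩ := H.hecke V n
  obtain ⟨B₀, hB₀⟩ := H.box_ex V
  obtain ⟨Z, hZ⟩ := (hN h X wb H l).2 ((X.cl V).1, (X.cl V).2 - n) B
  obtain ⟨Z₀, hZ₀⟩ := (hN h X wb H l).2 (X.cl V) B₀
  set Y := Z ∪ Z₀.biUnion fun p => {p.1} ×ˢ (TT h n p.1 * S V p.1).coeff.support with hY
  set c : (Fin l → ℕ) × (Fin l → ℤ) → ℂ := fun p => φ (Pi.single p.1 (zz p.2)) with hc
  have e0 : ∀ T : Fam l, (∀ γ m, (T γ).coeff m ≠ 0 → (γ, m) ∈ Y) →
      φ T = ∑ p ∈ Y, c p * (T p.1).coeff p.2 := fun T hT => by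
    conv_lhs => rw [T33.fam_eq_sum Y T hT]
    simp [map_sum, hc, mul_comm]
  set ξ : (Fin l → Cl) →₀ ℂ := ∑ p ∈ Y, ∑ s ∈ (Dl h p.1).coeff.support,
    Finsupp.single (fun a => (p.1 a, (p.2 - s) a)) (c p * (Dl h p.1).coeff s) with hξ
  have e : ∀ F : (Fin l → Cl) → ℂ, (ξ.sum fun w c => c * F w) =
      ∑ p ∈ Y, c p * act (Dl h p.1) (fun m => F fun a => (p.1 a, m a)) p.2 := fun F => by
    change Finsupp.linearCombination ℂ F ξ = _
    simp only [hξ, map_sum, act_apply, Finset.mul_sum, mul_assoc, Finsupp.linearCombination_single,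
      smul_eq_mul]
  have h3 := hB l ξ fun G hG hb => by
    have h4 : X.cl G = ((X.cl V).1, (X.cl V).2 - n) := by
      rw [← hG]; simp
    have h5 : φ (S G) = 0 := by
      rw [← Submodule.mem_bot ℂ, ← h2]
      exact Submodule.mem_map_of_mem (Submodule.subset_span ⟨G, by simp [h4], rfl⟩)
    rw [e fun w => wb G (List.ofFn w), ← h5,
      e0 _ fun γ m hm => Finset.mem_union_left _ (hZ G _ h4 hb (hS G) γ m hm)]
    exact Finset.sum_congr rfl fun p _ => by rw [← hS G p.1]; rfl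
  refine h1 ?_
  rw [e0 _ fun γ m hm => ?_, ← h3, e]
  · refine Finset.sum_congr rfl fun p _ => ?_
    rw [← funext (act_TT h n (wb V) p.1), ← act_mul, mul_comm (Dl h p.1), act_mul, hS V p.1,
      act_coeff]
    rfl
  · obtain ⟨s, -, hs⟩ := exists_of_mul hm
    exact Finset.mem_union_right _ (Finset.mem_biUnion.2 ⟨_, hZ₀ V _ rfl hB₀ (hS V) γ _ hs,
      Finset.mem_product.2 ⟨Finset.mem_singleton_self _, Finsupp.mem_support_iff.2 hm⟩⟩)

end Pool.Agent.Lib.CC61
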