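import Pool.Agent.Lib.CC61.B_QUOT

/-! Project cc61, block HECKE. -/

noncomputable section

namespace Pool.Agent.Lib.CC61

open Pool.Agent.Lib.MP_cc3443_ag

variable (K : Type) [Field K] [Algebra ℂ K] [Algebra (RatFunc ℂ) K]
  [IsScalarTower ℂ (RatFunc ℂ) K] [FiniteDimensional (RatFunc ℂ) K]

namespace T24

variable {K} {N N' : ℕ}

theorem rk_sat {E F : Lat K N} (h : F ≤ E) : rk (E.restrict F.gen) = rk F := by
  rw [rk, rk, gen_restrict_gen h]

theorem restrict_gen_eq_iff {G F : Lat K N} : G.restrict F.gen = F ↔ F ≤ G ∧ Sat G F :=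
  ⟨fun h => ⟨h ▸ G.restrict_le _, h ▸ sat_restrict G _⟩, fun h => (h.2.eq_restrict h.1).symm⟩

/-- A bundle over a torsion sheaf. -/
theorem hall_b_tors (hL : St_LET K) {E F : Lat K N} {μ : Cl} {a : ℕ}
    (h : HasClass E F (μ.1, μ.2 + a)) : hall (bFn μ) (torsFn a) N E F =
      ind (chiL (E.restrict F.gen) = chiL F + a) := by
  obtain ⟨h1, h2, h3⟩ := hasClass_iff.1 h
  have h4 := rk_sat h1
  have h5 : ∀ G, bFn μ N E G ≠ 0 → torsFn a N G F ≠ 0 →
      G = E.restrict F.gen ∧ chiL G = chiL F + a := fun G g1 g2 => by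
    obtain ⟨a1, a2, a3⟩ := hasClass_iff.1 ((Nice.tors a).supp g2)
    have a4 : HasClass E G μ ∧ Sat E G := of_ind_ne_zero g1
    exact ⟨by rw [gen_eq_of_rk a1 (by simpa using a2.symm)]
              exact a4.2.eq_restrict (hasClass_iff.1 a4.1).1, by simpa using a3⟩
  by_cases e : chiL (E.restrict F.gen) = chiL F + a
  · have h6 : HasClass (E.restrict F.gen) F (0, (a : ℤ)) :=
      hasClass_iff.2 ⟨le_restrict h1 le_rfl, by simpa using h4, by simpa using e⟩
    rw [(hL.1 μ).hall_single (Nice.tors a) (E.restrict_le _) h6 fun G g1 g2 => (h5 G g1 g2).1,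
      ind_true e, show torsFn a N (E.restrict F.gen) F = 1 from if_pos h6, mul_one]
    exact ind_true ⟨hasClass_iff.2 ⟨E.restrict_le _, by simp only at h2; omega,
      by simp only at h3; omega⟩, sat_restrict E _⟩
  · rw [ind_false e]
    refine Nice.hall_eq_zero fun G => by_contra fun g => e ?_
    obtain ⟨rfl, g2⟩ := h5 G (left_ne_zero_of_mul g) (right_ne_zero_of_mul g)
    exact g2

/-- A torsion sheaf over a bundle. -/
theorem hall_tors_b (hL : St_LET K) (hI : St_LIFT K) {E F : Lat K N} {ν : Cl} {k : ℕ}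
    (h : HasClass E F (ν.1, ν.2 + k)) {q : (Fin N → K) →ₗ[K] (Fin N' → K)}
    (hq : LinearMap.ker q = F.gen) : hall (torsFn k) (bFn ν) N E F =
      (QC (E.mapL q) ν.1 (ν.2 + ν.1 * chiO K)).int fun _ => 1 := by
  obtain ⟨h1, h2, h3⟩ := hasClass_iff.1 h
  simp only at h2 h3
  have d1 : DFun fun G : Lat K N => ind (G.restrict (LinearMap.ker q) = F) :=
    (Del.eq (dmap_restrict_ker (by fun_prop) q) (by fun_prop)).ind
  have d2 : Del fun p : Lat K N × Lat K N' => p.1.mapL q = p.2 :=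
    Del.eq (dmap_mapL (by fun_prop) q) (by fun_prop)
  rw [(Nice.tors k).hall_eq (hL.1 ν), Chart.int_congr _
    (G := fun G => ind (G.restrict (LinearMap.ker q) = F)) fun G hG => ?_,
    disint _ (E.mapL q) d1 d2 {(ν.1, ν.2 + ν.1 * chiO K)} fun G hG h0 => ?_, Finset.sum_singleton]
  · refine Chart.int_congr _ fun M hM => ?_
    obtain ⟨m1, m2, m3⟩ := QC_R.1 hM
    simp only at m2 m3
    rw [← ind_true (lift_tors (V := E) (U := F) (hq ▸ le_restrict h1 le_rfl) m1
      (hq ▸ (rk_sat h1).symm)), ← lam_eq hI (i := rk F + ν.1) (χ := chiL F + ν.2 + ν.1 * chiO K)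
      (by omega) (by omega)]
    refine Chart.int_congr _ fun G _ => ?_
    rw [ind_and]
    ring
  · obtain ⟨g0, g1, g2⟩ := QC_R.1 hG
    have e : G.restrict (LinearMap.ker q) = F := of_ind_ne_zero h0
    refine ⟨_, rfl, mapL_mono g0 q, ?_, fun G' _ e => Eq.symm e⟩
    have a1 := rk_exact G q
    have a2 := chiL_exact G q
    rw [e] at a1 a2
    rw [Finset.mem_singleton, Prod.mk.injEq]
    omega
  · obtain ⟨g0, g1, g2⟩ := QC_R.1 hG
    have e : HasClass E G (0, (k : ℤ)) :=
      hasClass_iff.2 ⟨g0, by simp only; omega, by simp only; omega⟩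
    rw [show torsFn k N E G = 1 from if_pos e, one_mul, hq]
    exact ind_congr ⟨fun a => restrict_gen_eq_iff.2 ⟨(hasClass_iff.1 a.1).1, a.2⟩, fun a =>
      ⟨hasClass_iff.2 ⟨(restrict_gen_eq_iff.1 a).1, g1, g2⟩, (restrict_gen_eq_iff.1 a).2⟩⟩

end T24

theorem st_HECKE (hL : St_LET K) (hI : St_LIFT K) (hQ : St_QUOT K) : St_HECKE K := by
  intro h hχ k ν
  funext N E F
  have n1 : ∀ j ∈ Finset.range (k + 1), Nice (ν.1, ν.2 + k)
      (hall (bFn (ν.1, ν.2 + j)) (torsFn (k - j)) : Fn K) := fun j hj => by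
    have := Finset.mem_range.1 hj
    convert (hL.1 (ν.1, ν.2 + j)).mul (Nice.tors (k - j)) using 1
    refine Prod.ext rfl ?_
    simp only [Prod.snd_add]
    omega
  by_cases hc : HasClass E F (ν.1, ν.2 + k)
  swap
  · have n2 : Nice (ν.1, ν.2 + k) (hall (torsFn k) (bFn ν) : Fn K) := by
      convert (Nice.tors k).mul (hL.1 ν) using 1
      exact Prod.ext (by simp) (by simp [add_comm])
    rw [by_contra fun h0 => hc (n2.supp h0)]
    exact (by_contra fun h0 => hc ((Nice.sum _ fun j hj => (n1 j hj).smul _).supp h0) :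
      (∑ j ∈ Finset.range (k + 1), cc h ν.1 j •
        hall (bFn (ν.1, ν.2 + j)) (torsFn (k - j)) : Fn K) N E F = 0).symm
  obtain ⟨q, hq⟩ := exists_quot F
  obtain ⟨h1, h2, h3⟩ := hasClass_iff.1 hc
  have e1 := rk_exact E q
  have e2 := chiL_exact E q
  have e3 := T24.rk_sat h1
  have e4 := chiL_mono (le_restrict h1 le_rfl) e3.symm
  rw [hq] at e1 e2
  simp only at h2 h3
  rw [T24.hall_tors_b hL hI hc hq]
  simp only [Finset.sum_apply, Pi.smul_apply, smul_eq_mul]
  rw [Finset.sum_congr rfl fun j hj => by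
    rw [T24.hall_b_tors hL (a := k - j) (by
      have := Finset.mem_range.1 hj
      rwa [show ν.2 + j + (k - j : ℕ) = ν.2 + k by omega])]]
  obtain ⟨a, ha⟩ := Int.eq_ofNat_of_zero_le (sub_nonneg.2 e4)
  by_cases e5 : a ≤ k
  · rw [Finset.sum_eq_single_of_mem (k - a) (Finset.mem_range.2 (by omega)) fun j hj hne => by
      have := Finset.mem_range.1 hj
      rw [ind_false (by omega), mul_zero], ind_true (by omega), mul_one,
      show ν.1 = rk (E.mapL q) by omega, ← hQ h hχ]
    congr 2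
    rw [show rk (E.mapL q) = ν.1 by omega]
    omega
  · rw [Finset.sum_eq_zero fun j hj => by rw [ind_false (by omega), mul_zero]]
    refine Chart.int_eq_zero _ fun M hM => ?_
    obtain ⟨m1, m2, m3⟩ := QC_R.1 hM
    have := chiL_mono m1 (by omega)
    omega

end Pool.Agent.Lib.CC61
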