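import Pool.Agent.Lib.CC61.GBlue
import Pool.Agent.Lib.CC61.GKit1
import Pool.Agent.Lib.CC61.GKit2

open Filter Set Module

noncomputable section

namespace Pool.Agent.Lib.CC61

open Pool.Agent.Lib.MP_cc3443_ag

namespace T43

theorem sum_tuple_succ {l n : ℕ} (φ : (Fin (l + 1) → ℕ) → ℂ) :
    ∑ J ∈ Finset.Nat.antidiagonalTuple (l + 1) n, φ J = ∑ j ∈ Finset.range (n + 1),
      ∑ J ∈ Finset.Nat.antidiagonalTuple l (n - j), φ (Fin.cons j J) := by
  rw [Finset.sum_sigma']
  refine Finset.sum_nbij' (fun J => ⟨J 0, Fin.tail J⟩) (fun p => Fin.cons p.1 p.2) ?_ ?_ ?_ ?_ ?_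
  · intro J hJ
    simp only [Finset.mem_sigma, Finset.mem_range, Finset.Nat.mem_antidiagonalTuple,
      Fin.sum_univ_succ, Fin.tail] at hJ ⊢
    omega
  · intro p hp
    simp only [Finset.mem_sigma, Finset.mem_range, Finset.Nat.mem_antidiagonalTuple,
      Fin.sum_univ_succ, Fin.cons_zero, Fin.cons_succ] at hp ⊢
    omega
  all_goals simp

theorem sum_shift {l m : ℕ} (w : Fin l → Cl) {J : Fin l → ℕ}
    (h : J ∈ Finset.Nat.antidiagonalTuple l m) :
    (List.ofFn fun a => ((w a).1, (w a).2 + J a)).sum = (0, (m : ℤ)) + (List.ofFn w).sum := by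
  rw [← Finset.Nat.mem_antidiagonalTuple.1 h]
  refine Prod.ext ?_ ?_
  all_goals simp [List.sum_ofFn, Prod.fst_sum, Prod.snd_sum, Finset.sum_add_distrib, add_comm]

end T43

variable (K : Type) [Field K] [Algebra ℂ K] [Algebra (RatFunc ℂ) K]
  [IsScalarTower ℂ (RatFunc ℂ) K] [FiniteDimensional (RatFunc ℂ) K]

open T43 in
theorem st_HW (hL : St_LET K) (hH : St_HECKE K) : St_HW K := by
  have hb := hL.1
  intro h hχ l
  induction l with
  | zero =>
    intro n w N E F hs
    rw [List.ofFn_zero, word, (Nice.tors n).hall_unit_right, hkW]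
    rcases n with _ | n
    · simp [word]
    · rw [Finset.Nat.antidiagonalTuple_zero_succ, Finset.sum_empty]
      refine ind_false fun h1 => ?_
      obtain ⟨a, b, c⟩ := hasClass_iff_dg.1 h1
      rw [hs.eq_of_rk a b] at c
      simp only at c
      omega
  | succ l ih =>
    intro n w N E F hs
    have h1 := nice_word hb (List.ofFn fun i : Fin l => w i.succ)
    have h2 : ∀ j ∈ Finset.range (n + 1), Nice ((w 0).1, (w 0).2 + n)
        (hall (bFn ((w 0).1, (w 0).2 + j)) (torsFn (n - j)) : Fn K) := fun j hj => by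
      convert (hb ((w 0).1, (w 0).2 + j)).mul (Nice.tors (n - j)) using 1
      rw [Finset.mem_range] at hj
      exact Prod.ext rfl (by simp only [Prod.snd_add]; omega)
    rw [List.ofFn_succ, word, ← (Nice.tors n).hall_assoc (hb _) h1, hH h hχ,
      Nice.hall_sum_left _ (fun j hj => (h2 j hj).smul _) h1, hkW, sum_tuple_succ]
    simp only [Finset.sum_apply]
    refine Finset.sum_congr rfl fun j hj => ?_
    have h3 : ∀ J ∈ Finset.Nat.antidiagonalTuple l (n - j), Nice _ (word bFn (List.ofFn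
        fun a : Fin l => ((w a.succ).1, (w a.succ).2 + J a)) : Fn K) := fun J hJ =>
      sum_shift (fun a => w a.succ) hJ ▸ nice_word hb _
    rw [(h2 j hj).hall_smul_left h1, (hb _).hall_assoc (Nice.tors _) h1, Pi.smul_apply,
      Pi.smul_apply, Pi.smul_apply, (hb _).hall_congr ((Nice.tors _).mul h1) (hb _)
        (Nice.sum _ fun J hJ => (h3 J hJ).smul (∏ a : Fin l, cc h (w a.succ).1 (J a)))
        fun G hG => by rw [ih _ _ _ _ _ (hs.mono hG), hkW]; simp only [Finset.sum_apply]; rfl,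
      (hb _).hall_sum_right _ fun J hJ => (h3 J hJ).smul _]
    simp only [Finset.sum_apply, smul_eq_mul, Finset.mul_sum]
    refine Finset.sum_congr rfl fun J hJ => ?_
    rw [(hb _).hall_smul_right (h3 J hJ), List.ofFn_succ, Fin.prod_univ_succ, mul_assoc]
    rfl

end Pool.Agent.Lib.CC61
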