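import Pool.Agent.Lib.CC61.B_KER

open Finset Module

noncomputable section

namespace Pool.Agent.Lib.CC61

namespace T59

theorem exists_section {A B : Type} [AddCommGroup A] [Module ℂ A] [AddCommGroup B] [Module ℂ B]
    (π : A →ₗ[ℂ] B) (D : Submodule ℂ A) :
    ∃ s : B →ₗ[ℂ] A, ∀ a ∈ D, s (π a) ∈ D ∧ π (s (π a)) = π a := by
  obtain ⟨g, hg⟩ := (π.domRestrict D).rangeRestrict.exists_rightInverse_of_surjective
    (LinearMap.range_rangeRestrict _)
  obtain ⟨s, hs⟩ := LinearMap.exists_extend (D.subtype ∘ₗ g)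
  refine ⟨s, fun a ha => ?_⟩
  have h1 : s (π a) = g ⟨π a, ⟨a, ha⟩, rfl⟩ := LinearMap.congr_fun hs ⟨π a, ⟨a, ha⟩, rfl⟩
  rw [h1]
  exact ⟨(g _).2, congrArg Subtype.val (LinearMap.congr_fun hg ⟨π a, ⟨a, ha⟩, rfl⟩)⟩

variable {l h : ℕ} {X : Sys} {wb : X.Λ → List Cl → ℂ} {S : X.Λ → Fam l}

open Classical in
theorem lc_filter (hB : AxW X wb) (ν : Cl) {φ : X.Λ →₀ ℂ}
    (h0 : Finsupp.linearCombination ℂ wb φ = 0) :
    Finsupp.linearCombination ℂ wb (φ.filter fun V => X.cl V = ν) = 0 := by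
  ext w
  have h1 := congrFun h0 w
  rw [lc_apply] at h1 ⊢
  rw [Finsupp.support_filter, sum_congr rfl fun V hV => by
    rw [Finsupp.filter_apply_pos (fun V => X.cl V = ν) _ (mem_filter.1 hV).2]]
  by_cases hw : w.sum = ν
  · rw [← h1]
    exact sum_filter_of_ne fun V _ hV => (hB.supp (right_ne_zero_of_smul hV)).symm.trans hw
  · exact sum_eq_zero fun V hV => smul_eq_zero_of_right _
      (by_contra fun h => hw ((hB.supp h).trans (mem_filter.1 hV).2))

theorem rank_le (hS : St_SURJ) (hK : St_KER) (hF : St_FIN) (hB : AxB h X wb)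
    (h1 : ∀ V, IsNum h (wb V) (S V)) (h2 : AxN h X S) (hl : 0 < l) {ν ν' : Cl} (hν : ν.1 = l)
    (hν' : ν'.1 = l) (M : Fam l) (hD : ∀ T ∈ Dec l h ν', M * T ∈ Dec l h ν)
    (hO : Adm l h ν ≤ Dec l h ν ⊔ (Adm l h ν').map (LinearMap.mulLeft ℂ M)) :
    finrank ℂ (PP X wb ν) ≤ finrank ℂ (PP X wb ν') := by
  classical
  obtain ⟨a1, a2⟩ := hS l h X S h2 ν (hν ▸ hl) hν.le
  obtain ⟨b1, b2⟩ := hS l h X S h2 ν' (hν' ▸ hl) hν'.le
  obtain ⟨s, hs⟩ := exists_section (Finsupp.linearCombination ℂ S)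
    (Finsupp.supported ℂ ℂ {V | X.cl V = ν})
  have c1 : ∀ f ∈ PP X wb ν, ∀ V, X.cl V = ν →
      Finsupp.linearCombination ℂ f (s (S V)) = f V := by
    intro f hf V hV
    have h3 := Finsupp.single_mem_supported (s := {V | X.cl V = ν}) ℂ (1 : ℂ) hV
    obtain ⟨h4, h5⟩ := hs _ h3
    rw [Finsupp.linearCombination_single, one_smul] at h4 h5
    have h6 := hf.2.1 _ ((hK h X wb hB l S h1 h2.adm _ fun W hW => (hν ▸ congrArg Prod.fst
      ((Finsupp.mem_supported _ _).1 (sub_mem h4 h3) hW)).le).1.1 (by simp [h5]))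
    simpa [sub_eq_zero] using h6
  have c2 : ∀ f ∈ PP X wb ν, Dec l h ν ≤ LinearMap.ker (Finsupp.linearCombination ℂ f ∘ₗ s) := by
    intro f hf
    rw [← a2, Submodule.span_le]
    rintro _ ⟨V, W, h3, h4, h5, rfl⟩
    exact (c1 f hf _ ((h2.cl_add V W).trans h5)).trans (hf.2.2 V W h3 h4)
  let Θ : PP X wb ν →ₗ[ℂ] PP X wb ν' :=
    { toFun := fun f => ⟨fun V => if X.cl V = ν' then
          Finsupp.linearCombination ℂ f.1 (s (M * S V)) else 0, fun V hV => if_neg hV,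
        fun φ hφ => by
          have h3 := (hK h X wb hB l S h1 h2.adm _ fun W hW => (hν' ▸ congrArg Prod.fst
            (mem_filter.1 hW).2).le).1.2 (lc_filter hB.toAxW ν' hφ)
          have h4 := congrArg (Finsupp.linearCombination ℂ f.1 ∘ₗ s ∘ₗ LinearMap.mulLeft ℂ M) h3
          rw [map_zero, Finsupp.apply_linearCombination, Finsupp.linearCombination_apply,
            Finsupp.sum, Finsupp.support_filter, sum_filter] at h4
          rw [Finsupp.linearCombination_apply, Finsupp.sum]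
          refine (sum_congr rfl fun V _ => ?_).trans h4
          split_ifs with hV <;> simp [hV],
        fun V W hV hW => by
          beta_reduce
          split_ifs with h3
          · refine c2 f.1 f.2 (hD _ ?_)
            rw [← b2]
            exact Submodule.subset_span ⟨V, W, hV, hW, (h2.cl_add V W).symm.trans h3, rfl⟩
          · rfl⟩
      map_add' := fun f g => by
        ext V
        by_cases hV : X.cl V = ν' <;>
          simp [hV, Finsupp.linearCombination_apply, Finsupp.sum, mul_add, sum_add_distrib]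
      map_smul' := fun c f => by
        ext V
        by_cases hV : X.cl V = ν' <;>
          simp [hV, Finsupp.linearCombination_apply, Finsupp.sum, mul_sum, mul_left_comm] }
  have := hF h X wb hB ν'
  refine LinearMap.finrank_le_finrank_of_injective (f := Θ)
    ((injective_iff_map_eq_zero Θ).2 fun f hf => ?_)
  ext V
  by_cases hV : X.cl V = ν
  swap
  · exact f.2.1 V hV
  refine (c1 f.1 f.2 V hV).symm.trans ((hO.trans (sup_le (c2 f.1 f.2) ?_)) (hV ▸ h2.adm V))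
  rw [Submodule.map_le_iff_le_comap, ← b1, Submodule.span_le]
  rintro _ ⟨W, hW, rfl⟩
  exact (if_pos hW).symm.trans (congrFun (congrArg Subtype.val hf) W)

theorem Dec_map {ν ν' : Cl} (M : Fam l) (H : ∀ ν₁ ν₂ T T', 0 < ν₁.1 → 0 < ν₂.1 → ν₁ + ν₂ = ν' →
    T ∈ Adm l h ν₁ → T' ∈ Adm l h ν₂ → M * sh h T T' ∈ Dec l h ν) :
    ∀ T ∈ Dec l h ν', M * T ∈ Dec l h ν := by
  intro T hT
  refine (Submodule.span_le (p := (Dec l h ν).comap (LinearMap.mulLeft ℂ M))).2 ?_ hT
  rintro _ ⟨ν₁, ν₂, T, T', h1, h2, h3, h4, h5, rfl⟩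
  exact H _ _ _ _ h1 h2 h3 h4 h5

end T59

open T59 in
theorem st_INDEP (hA : St_AXN) (hS : St_SURJ) (hP : St_PSUR) (hK : St_KER) (hF : St_FIN)
    (hSH : St_SH) : St_INDEP := by
  intro h X wb hB r d d' hr
  obtain ⟨S, h1, h2⟩ := hA h X wb hB r
  obtain ⟨-, -, s3, s4, s5, -⟩ := hSH r h
  have m1 : Monotone fun d : ℤ => finrank ℂ (PP X wb (r, d)) := by
    refine monotone_int_of_le_succ fun d => rank_le hS hK hF hB h1 h2 hr rfl rfl (PW (-1))
      (Dec_map _ fun ν₁ ν₂ T T' h3 h4 h5 h6 h7 => ?_) (hP r h r d hr le_rfl)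
    rw [s3]
    simp only [Prod.ext_iff, Prod.fst_add, Prod.snd_add] at h5
    exact add_mem
      (Submodule.subset_span ⟨(ν₁.1, ν₁.2 + -1), ν₂, _, _, h3, h4, Prod.ext h5.1 (by
        simp only [Prod.snd_add]; omega), (s5 _ _ _ h6).1, h7, rfl⟩)
      (Submodule.subset_span ⟨ν₁, (ν₂.1, ν₂.2 + -1), _, _, h3, h4, Prod.ext h5.1 (by
        simp only [Prod.snd_add]; omega), h6, (s5 _ _ _ h7).1, rfl⟩)
  have m2 : ∀ d k : ℤ, finrank ℂ (PP X wb (r, d + k * r)) ≤ finrank ℂ (PP X wb (r, d)) := by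
    intro d k
    refine rank_le hS hK hF hB h1 h2 hr rfl rfl (TW k)
      (Dec_map _ fun ν₁ ν₂ T T' h3 h4 h5 h6 h7 => ?_) fun T hT => Submodule.mem_sup_right
        ⟨TW (-k) * T, by simpa [twC] using (s5 (-k) _ T hT).2, ?_⟩
    · rw [s4]
      simp only [Prod.ext_iff, Prod.fst_add, Prod.snd_add] at h5
      refine Submodule.subset_span ⟨twC k ν₁, twC k ν₂, _, _, h3, h4, Prod.ext h5.1 ?_,
        (s5 _ _ _ h6).2, (s5 _ _ _ h7).2, rfl⟩
      simp only [twC, Prod.snd_add, ← h5.1, ← h5.2]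
      push_cast
      ring
    · funext γ
      have : (fun a => k * (γ a : ℤ)) + (fun a => -k * (γ a : ℤ)) = 0 := by
        ext a
        simp
      simp only [LinearMap.mulLeft_apply, Pi.mul_apply, TW, ← mul_assoc, ← zz_add, this, zz_zero,
        one_mul]
  have m3 : ∀ d d' : ℤ, finrank ℂ (PP X wb (r, d')) ≤ finrank ℂ (PP X wb (r, d)) := by
    intro d d'
    refine (m1 ?_).trans (m2 d |d' - d|)
    have h3 : (1 : ℤ) ≤ r := by exact_mod_cast hr
    nlinarith [le_abs_self (d' - d), abs_nonneg (d' - d)]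
  exact le_antisymm (m3 _ _) (m3 _ _)

end Pool.Agent.Lib.CC61
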