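import Pool.Agent.Lib.CC61.AKit
import Pool.Agent.Lib.CC61.ABlue

open Finset

noncomputable section

namespace Pool.Agent.Lib.CC61

namespace T59

theorem exists_ofFn {l : ℕ} (w : List Cl) (h : w.length = l) :
    ∃ f : Fin l → Cl, List.ofFn f = w := by
  subst h
  exact ⟨w.get, List.ofFn_get w⟩

theorem length_le_rank (w : List Cl) (h : ∀ a ∈ w, 0 < a.1) : w.length ≤ w.sum.1 := by
  induction w with
  | nil => simp
  | cons a w ih =>
    have h1 := h a List.mem_cons_self
    have h2 := ih fun b hb => h b (List.mem_cons_of_mem _ hb)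
    simp only [List.length_cons, List.sum_cons, Prod.fst_add]
    omega

theorem pad {l : ℕ} {e : List Cl → ℂ} (h0 : ∀ u v, e (u ++ 0 :: v) = e (u ++ v))
    (h1 : ∀ u v (m : ℤ), m ≠ 0 → e (u ++ (0, m) :: v) = 0) (h2 : ∀ w, e w ≠ 0 → w.sum.1 ≤ l)
    {w : List Cl} (hw : e w ≠ 0) : ∃ f : Fin l → Cl, e (List.ofFn f) ≠ 0 ∧
      ∃ t, List.ofFn f = w.filter (· ≠ 0) ++ t := by
  have h3 : ∀ w, e (w.filter (· ≠ 0)) = e w := fun w => by simpa using filter_nil0 h0 [] w []
  have h4 : (w.filter (· ≠ 0)).length ≤ l := by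
    refine (length_le_rank _ fun a ha => Nat.pos_of_ne_zero fun h => hw ?_).trans
      (h2 _ (by rwa [h3]))
    obtain ⟨u, v, huv⟩ := List.append_of_mem ha
    have h5 : a ≠ 0 := by simpa using (List.mem_filter.1 ha).2
    obtain ⟨a, m⟩ := a
    obtain rfl : a = 0 := h
    rw [← h3, huv]
    exact h1 u v m fun h => h5 (by rw [h]; rfl)
  obtain ⟨f, hf⟩ := exists_ofFn (l := l)
    (w.filter (· ≠ 0) ++ List.replicate (l - (w.filter (· ≠ 0)).length) 0) (by
      rw [List.length_append, List.length_replicate]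
      omega)
  refine ⟨f, ?_, _, hf⟩
  rw [hf, ← h3]
  simpa [← h3 w] using hw

variable {Λ : Type} {l h : ℕ} {wb : Λ → List Cl → ℂ} {S : Λ → Fam l}

theorem lc_apply {α M : Type} [AddCommMonoid M] [Module ℂ M] (v : Λ → α → M) (φ : Λ →₀ ℂ)
    (a : α) : Finsupp.linearCombination ℂ v φ a = ∑ V ∈ φ.support, φ V • v V a := by
  simp [Finsupp.linearCombination_apply, Finsupp.sum]

theorem EE_lc (φ : Λ →₀ ℂ) (γ : Fin l → ℕ) :
    EE (Finsupp.linearCombination ℂ wb φ) γ = ∑ V ∈ φ.support, φ V • EE (wb V) γ := by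
  ext m
  simp [EE, lc_apply]

theorem coeff_lc (φ : Λ →₀ ℂ) (γ : Fin l → ℕ) (m : Fin l → ℤ) :
    (Finsupp.linearCombination ℂ S φ γ).coeff m = ∑ V ∈ φ.support, φ V * (S V γ).coeff m := by
  simp [lc_apply]

theorem isNum_lc (hS : ∀ V, IsNum h (wb V) (S V)) (φ : Λ →₀ ℂ) :
    IsNum h (Finsupp.linearCombination ℂ wb φ) (Finsupp.linearCombination ℂ S φ) := by
  intro γ
  ext m
  simp [EE_lc, coeff_lc, hS _ γ]

end T59

open T59 in
theorem st_KER : St_KER := by
  intro h X wb hB l S hS hA φ hφ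
  have hN := isNum_lc hS φ
  have hL : ∀ γ : Fin l → ℕ, LowB (EE (Finsupp.linearCombination ℂ wb φ) γ) := fun γ => by
    rw [EE_lc]
    exact LowB.sum _ fun V _ => (hB.toAxW.lowB_EE V γ).smul _
  have hE : ∀ (σ : Equiv.Perm (Fin l)) γ m, (Finsupp.linearCombination ℂ S φ (γ ∘ σ)).coeff
      (m ∘ σ) = (Finsupp.linearCombination ℂ S φ γ).coeff m := fun σ γ m => by
    simp only [coeff_lc, (hA _).1.2 σ γ m]
  have hP := fun w => pad (l := l) (e := Finsupp.linearCombination ℂ wb φ) (w := w)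
    (fun u v => by simp only [lc_apply, hB.nil0]) (fun u v m hm => by
      simp [lc_apply, hB.nil1 _ u v m hm]) fun w hw => by
      rw [lc_apply] at hw
      obtain ⟨V, hV, h1⟩ := exists_ne_zero_of_sum_ne_zero hw
      rw [hB.supp (right_ne_zero_of_smul h1)]
      exact hφ V hV
  generalize Finsupp.linearCombination ℂ wb φ = e at *
  generalize Finsupp.linearCombination ℂ S φ = T at *
  refine ⟨⟨fun h0 => funext fun w => by_contra fun hw => ?_, fun h0 => funext fun γ => ?_⟩,
    fun h0 ν w h1 h2 => by_contra fun hw => ?_, fun h0 γ m hm a ha => ?_⟩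
  · obtain ⟨f, hf, -⟩ := hP w hw
    have := (hL fun a => (f a).1).eq_zero _ ((hN _).trans (by subst h0; rfl))
    exact hf (congrFun this fun a => (f a).2)
  · have := hN γ
    rw [h0, show EE 0 γ = 0 from rfl, map_zero] at this
    ext m
    simpa using (congrFun this m).symm
  · obtain ⟨f, hf, t, ht⟩ := hP _ hw
    have hν : ν ≠ 0 := by
      rintro rfl
      simp at h1
    rw [List.filter_cons_of_pos (by simpa)] at ht
    cases l with
    | zero => simp at ht
    | succ l =>
      rw [List.ofFn_succ, List.cons_append, List.cons.injEq] at ht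
      refine hf ((hL fun a => (f a).1).cancel_dP _ (Z := {m | m 0 ≤ 0}) (fun a b hab m hm => ?_)
        (fun m hm => (congrFun (hN _) m).trans (by_contra fun h3 => ?_)) (fun a => (f a).2)
        (ht.1 ▸ h2 :))
      · have hb : (0 : Fin (l + 1)) ≠ b := (Fin.pos_of_ne_zero (ne_bot_of_gt hab)).ne
        have : (0 : ℤ) ≤ (Pi.single a 1 : Fin (l + 1) → ℤ) 0 := by
          rw [Pi.single_apply]
          split_ifs <;> simp
        simp only [Set.mem_ofPred_eq, Pi.sub_apply, Pi.add_apply, Pi.single_eq_of_ne hb] at hm ⊢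
        omega
      · exact absurd (h0 _ m h3 0 (ht.1 ▸ h1 :)) (not_lt.2 hm)
  · cases l with
    | zero => exact a.elim0
    | succ l =>
      rw [← hE (Equiv.swap 0 a)] at hm
      obtain ⟨s, h1, h2⟩ := exists_of_act (F := EE e _) (by rwa [hN])
      have h3 := (dP_supp _ h1).1 0
      rw [EE, List.ofFn_succ] at h2
      by_contra h4
      refine h2 (h0 _ _ (by simpa using ha) ?_)
      simp only [Pi.sub_apply, Function.comp, Equiv.swap_apply_left]
      omega

end Pool.Agent.Lib.CC61
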