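import Pool.Agent.Lib.MP_cc3443_ag.Lower

/-! Project cc61: lifting of sections, cones, fibres of kernel and image. -/

open Filter Set Module

noncomputable section

namespace Pool.Agent.Lib.CC61.T43

open Pool.Agent.Lib.MP_cc3443_ag

theorem chi1_equiv (e : ℂ ≃ ℂ) (f : ℂ → ℂ) : chi1 (fun a => f (e a)) = chi1 f := by
  have h : (fun c => ∀ᶠ a in cofinite, f (e a) = c) = fun c => ∀ᶠ a in cofinite, f a = c := by
    funext c
    refine propext ⟨fun h => ?_, fun h => e.injective.tendsto_cofinite.eventually h⟩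
    simpa using e.symm.injective.tendsto_cofinite.eventually h
  unfold chi1
  rw [h]
  congr 1
  exact finsum_comp_equiv e (f := fun a => f a - _)

theorem smul_cons {n : ℕ} (t a : ℂ) (c : Fin n → ℂ) :
    t • (Fin.cons a c : Fin (n + 1) → ℂ) = Fin.cons (t * a) (t • c) := by
  ext i
  refine Fin.cases ?_ (fun j => ?_) i <;> simp

theorem chiN_scale (n : ℕ) {t : ℂ} (ht : t ≠ 0) (F : (Fin n → ℂ) → ℂ) :
    chiN n (fun c => F (t • c)) = chiN n F := by
  induction n with
  | zero => exact congrArg F (Subsingleton.elim _ _)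
  | succ n ih =>
    simp only [chiN, smul_cons]
    rw [← chi1_equiv (Equiv.mulLeft₀ t ht) fun a => chiN n fun c => F (Fin.cons a c)]
    congr 1
    funext a
    exact ih fun c => F (Fin.cons (t * a) c)

/-- The Euler integral of a conical function is its value at the vertex. -/
theorem chiN_cone (n : ℕ) {F : (Fin n → ℂ) → ℂ} (h : ∀ (t : ℂ) c, t ≠ 0 → F (t • c) = F c) :
    chiN n F = F 0 := by
  induction n with
  | zero => exact congrArg F (Subsingleton.elim _ _)
  | succ n ih =>
    simp only [chiN]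
    rw [chi1_eq_sum (c := chiN n fun c => F (Fin.cons 1 c)) {0}, Finset.sum_singleton,
      add_sub_cancel, ih]
    · congr 1
      ext i
      refine Fin.cases ?_ (fun j => ?_) i <;> simp
    · intro t c ht
      rw [← h t (Fin.cons 0 c) ht, smul_cons, mul_zero]
    · intro a ha
      rw [Finset.mem_singleton] at ha
      rw [← chiN_scale n ha]
      congr 1
      funext c
      rw [← h a (Fin.cons 1 c) ha, smul_cons, mul_one]

variable {K : Type} [Field K] [Algebra ℂ K] [Algebra (RatFunc ℂ) K]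
  [IsScalarTower ℂ (RatFunc ℂ) K] [FiniteDimensional (RatFunc ℂ) K] {N N' : ℕ}

theorem mem_sec_restrict {G : Lat K N} {W : Submodule K (Fin N → K)} {n : ℤ} {w : Fin N → K} :
    w ∈ sec (G.restrict W) n ↔ w ∈ sec G n ∧ w ∈ W := by
  simp only [mem_sec, Lat.mem_restrict, forall_and, Submodule.smul_mem_iff _ (tw_ne_zero _ n),
    forall_const]

theorem map_mem_sec {G : Lat K N} (p : (Fin N → K) →ₗ[K] (Fin N' → K)) {n : ℤ} {w : Fin N → K}
    (hw : w ∈ sec G n) : p w ∈ sec (G.mapL p) n :=
  mem_sec.2 fun x => Lat.mem_mapL.2 ⟨_, mem_sec.1 hw x, map_smul _ _ _⟩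

/-- Sections of the image lift when the kernel is regular. -/
theorem lift_sec (G : Lat K N) (p : (Fin N → K) →ₗ[K] (Fin N' → K)) {n : ℤ}
    (h : Reg (G.restrict (LinearMap.ker p)) n) {σ : Fin N' → K} (hσ : σ ∈ sec (G.mapL p) n) :
    ∃ w ∈ sec G n, p w = σ := by
  have h0 := ((p.restrictScalars ℂ).domRestrict (sec G n)).finrank_range_add_finrank_ker
  rw [LinearMap.range_domRestrict, LinearMap.ker_domRestrict,
    ← Submodule.finrank_map_subtype_eq, Submodule.map_comap_subtype] at h0
  have h1 : sec G n ⊓ LinearMap.ker (p.restrictScalars ℂ) =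
      sec (G.restrict (LinearMap.ker p)) n := by
    ext w
    rw [mem_sec_restrict]
    rfl
  have h2 : (sec G n).map (p.restrictScalars ℂ) ≤ sec (G.mapL p) n := by
    rintro _ ⟨w, hw, rfl⟩
    exact map_mem_sec p hw
  have h3 := hdim_exact G p h
  simp only [hdim] at h3
  rw [h1] at h0
  have h4 := Submodule.eq_of_le_of_finrank_eq h2 (by omega)
  rw [← h4] at hσ
  exact hσ

theorem eq_of_fib {G G' : Lat K N} {q : (Fin N → K) →ₗ[K] (Fin N' → K)} (h : G ≤ G')
    (h1 : G.restrict (LinearMap.ker q) = G'.restrict (LinearMap.ker q))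
    (h2 : G.mapL q = G'.mapL q) : G = G' :=
  eq_of_chiL h (by rw [rk_exact G q, rk_exact G' q, h1, h2])
    (by rw [chiL_exact G q, chiL_exact G' q, h1, h2])

theorem genL_reindex {ι κ : Type} [Finite ι] [Finite κ] (e : κ ≃ ι) (n : ℤ) (G : ι → Fin N → K) :
    genL n G = genL n fun j => G (e j) :=
  le_antisymm (genL_le.2 fun j => by simpa using mem_sec_genL n (fun j => G (e j)) (e.symm j))
    (genL_le.2 fun j => mem_sec_genL n G (e j))

theorem dmap_genL {X ι : Type} [Coded X] [Fintype ι] (n : ℤ) {G : X → ι → Fin N → K}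
    (hG : ∀ j, DMap fun a => G a j) : DMap fun a => genL n (G a) := by
  simp only [genL_reindex (Fintype.equivFin ι).symm n]
  exact DMap.genL n (DMap.pi fun j => hG _)

end Pool.Agent.Lib.CC61.T43
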