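import Pool.Agent.Lib.CC61.GBlue
import Pool.Agent.Lib.CC61.T43A

open Filter Set Module

noncomputable section

namespace Pool.Agent.Lib.CC61

open Pool.Agent.Lib.MP_cc3443_ag

variable {K : Type} [Field K] [Algebra ℂ K] [Algebra (RatFunc ℂ) K]
  [IsScalarTower ℂ (RatFunc ℂ) K] [FiniteDimensional (RatFunc ℂ) K] {N N' : ℕ}

namespace T43

/-- Admissible changes of the lifts. -/
def adm (E U : Lat K N) (q : (Fin N → K) →ₗ[K] (Fin N' → K)) (n : ℤ) {m : ℕ}
    (σ : Fin m → Fin N' → K) : Submodule ℂ (Fin m → Fin N → K) where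
  carrier := {v | (∀ j, v j ∈ sec E n) ∧ (∀ j, q (v j) = 0) ∧ ∀ (x : Place K) (a : Fin m → K),
    (∀ j, a j ∈ x.O) → ∑ j, a j • tw x n • σ j = 0 → ∑ j, a j • tw x n • v j ∈ U.S x}
  add_mem' := fun {v w} hv hw => ⟨fun j => add_mem (hv.1 j) (hw.1 j),
    fun j => by rw [Pi.add_apply, map_add, hv.2.1, hw.2.1, add_zero], fun x a h1 h2 => by
      simp only [Pi.add_apply, smul_add, Finset.sum_add_distrib]
      exact add_mem (hv.2.2 x a h1 h2) (hw.2.2 x a h1 h2)⟩
  zero_mem' := ⟨fun _ => zero_mem _, fun _ => map_zero _, fun x a _ _ => by simp⟩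
  smul_mem' := fun c v hv => ⟨fun j => Submodule.smul_mem _ _ (hv.1 j),
    fun j => by rw [Pi.smul_apply, ← algebraMap_smul K, map_smul, hv.2.1, smul_zero],
    fun x a h1 h2 => by
      have h3 := Lat.smul_mem (x.const c) (hv.2.2 x a h1 h2)
      rw [Finset.smul_sum] at h3
      convert h3 using 2 with j
      rw [Pi.smul_apply, ← algebraMap_smul K c, smul_comm (tw x n), smul_comm (a j)]⟩

instance (E U : Lat K N) (q : (Fin N → K) →ₗ[K] (Fin N' → K)) (n : ℤ) {m : ℕ}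
    (σ : Fin m → Fin N' → K) : Module.Finite ℂ (adm E U q n σ) := by
  have h : adm E U q n σ ≤ LinearMap.range
      (LinearMap.pi fun j => (sec E n).subtype ∘ₗ LinearMap.proj j :
        (Fin m → sec E n) →ₗ[ℂ] (Fin m → Fin N → K)) :=
    fun v hv => ⟨fun j => ⟨v j, hv.1 j⟩, rfl⟩
  exact Submodule.finiteDimensional_of_le h

theorem rel_mem {G : Lat K N} {q : (Fin N → K) →ₗ[K] (Fin N' → K)} {n : ℤ} {m : ℕ}
    {w : Fin m → Fin N → K} (hw : ∀ j, w j ∈ sec G n) {x : Place K} {a : Fin m → K}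
    (h1 : ∀ j, a j ∈ x.O) (h2 : ∑ j, a j • tw x n • q (w j) = 0) :
    ∑ j, a j • tw x n • w j ∈ (G.restrict (LinearMap.ker q)).S x :=
  Lat.mem_restrict.2 ⟨sum_mem fun j _ => Lat.smul_mem (h1 j) (mem_sec.1 (hw j) x), by
    rw [LinearMap.mem_ker, map_sum]; simpa only [map_smul] using h2⟩

theorem adm_spec {E G₀ : Lat K N} {q : (Fin N → K) →ₗ[K] (Fin N' → K)} (h : G₀ ≤ E) {n : ℤ}
    (r1 : Reg (G₀.restrict (LinearMap.ker q)) n) (r2 : Reg (G₀.mapL q) n) {m m' : ℕ}
    {u : Fin m' → Fin N → K} {w₀ : Fin m → Fin N → K}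
    (hu : Submodule.span ℂ (range u) = sec (G₀.restrict (LinearMap.ker q)) n)
    (hw : ∀ j, w₀ j ∈ sec G₀ n)
    (hs : Submodule.span ℂ (range fun j => q (w₀ j)) = sec (G₀.mapL q) n) {v : Fin m → Fin N → K}
    (hv : v ∈ adm E (G₀.restrict (LinearMap.ker q)) q n fun j => q (w₀ j)) :
    genL n (Sum.elim u (w₀ + v)) ≤ E ∧
      (genL n (Sum.elim u (w₀ + v))).restrict (LinearMap.ker q) =
        G₀.restrict (LinearMap.ker q) ∧ (genL n (Sum.elim u (w₀ + v))).mapL q = G₀.mapL q := by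
  have hu' : ∀ j, u j ∈ sec (G₀.restrict (LinearMap.ker q)) n := fun j =>
    hu ▸ Submodule.subset_span ⟨j, rfl⟩
  have hq : ∀ j, q (u j) = 0 := fun j => (mem_sec_restrict.1 (hu' j)).2
  have hq' : ∀ j, q ((w₀ + v) j) = q (w₀ j) := fun j => by
    rw [Pi.add_apply, map_add, hv.2.1, add_zero]
  refine ⟨genL_le.2 ?_, le_antisymm (fun x w hx => ?_) ?_, ?_⟩
  · rintro (j | j)
    · exact sec_mono h n (mem_sec_restrict.1 (hu' j)).1
    · exact add_mem (sec_mono h n (hw j)) (hv.1 j)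
  · obtain ⟨h1, h2⟩ := Lat.mem_restrict.1 hx
    rw [genL_S, mem_span_O] at h1
    obtain ⟨c, hc, rfl⟩ := h1
    rw [Fintype.sum_sum_type] at h2 ⊢
    have h3 : ∑ j, c (Sum.inr j) • tw x n • q (w₀ j) = 0 := by
      simpa only [LinearMap.mem_ker, map_add, map_sum, map_smul, Sum.elim_inl, Sum.elim_inr, hq,
        hq', smul_zero, Finset.sum_const_zero, zero_add] using h2
    refine add_mem (sum_mem fun j _ => Lat.smul_mem (hc _) (mem_sec.1 (hu' j) x)) ?_
    simp only [Sum.elim_inr, Pi.add_apply, smul_add, Finset.sum_add_distrib]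
    exact add_mem (rel_mem hw (fun j => hc _) h3) (hv.2.2 x _ (fun j => hc _) h3)
  · rw [← r1.eq_genL hu]
    exact genL_le.2 fun j => mem_sec_restrict.2 ⟨mem_sec_genL n (Sum.elim u (w₀ + v)) (Sum.inl j),
      hq j⟩
  · rw [mapL_genL]
    refine r2.eq_genL ?_
    rw [← hs]
    refine le_antisymm (Submodule.span_le.2 ?_) (Submodule.span_mono ?_)
    · rintro _ ⟨j | j, rfl⟩
      · simp [hq]
      · exact Submodule.subset_span ⟨j, (hq' j).symm⟩
    · rintro _ ⟨j, rfl⟩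
      exact ⟨Sum.inr j, hq' j⟩

end T43

open T43 in
variable (K) in
theorem st_LCH : St_LCH K := by
  intro N N' E G₀ q h
  obtain ⟨n₀, r1, r2⟩ := ((eventually_reg (G₀.restrict (LinearMap.ker q))).and
    (eventually_reg (G₀.mapL q))).exists
  refine ⟨n₀, fun n hn m m' u w₀ hu hw _ hs => ?_⟩
  replace r1 := r1.mono hn
  replace r2 := r2.mono hn
  set T := adm E (G₀.restrict (LinearMap.ker q)) q n fun j => q (w₀ j) with hT
  let φ : (Fin (finrank ℂ T) → ℂ) →ₗ[ℂ] (Fin m → Fin N → K) := T.subtype ∘ₗ epsE T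
  have hφ : ∀ c, φ c ∈ T := fun c => (epsE T c).2
  have key := fun c => adm_spec h r1 r2 hu hw hs (hφ c)
  have hu' : ∀ j, u j ∈ sec (G₀.restrict (LinearMap.ker q)) n := fun j =>
    hu ▸ Submodule.subset_span ⟨j, rfl⟩
  have hle : ∀ c c', (∀ j, φ c' j - φ c j ∈ sec (G₀.restrict (LinearMap.ker q)) n) →
      genL n (Sum.elim u (w₀ + φ c')) ≤ genL n (Sum.elim u (w₀ + φ c)) := fun c c' h1 => by
    refine genL_le.2 ?_
    rintro (j | j)
    · exact mem_sec_genL n (Sum.elim u (w₀ + φ c)) (Sum.inl j)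
    · have h2 := h1 j
      rw [← (key c).2.1] at h2
      have h3 := add_mem (mem_sec_genL n (Sum.elim u (w₀ + φ c)) (Sum.inr j))
        (mem_sec_restrict.1 h2).1
      simpa using h3
  refine ⟨⟨finrank ℂ T, fun _ => True, Del.const True, fun c => genL n (Sum.elim u (w₀ + φ c)),
    dmap_genL n ?_, fun c _ => ?_⟩, fun _ => trivial, fun G => ⟨?_, ?_⟩, φ,
    fun c j => (hφ c).2.1 j, fun _ => rfl⟩
  · rintro (j | j)
    · exact DMap.const _
    · have := dmap_clinear ((LinearMap.proj j) ∘ₗ φ)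
      exact DMap.add (DMap.const (w₀ j)) this
  · rw [← chiN_affine _ c ((Submodule.pi univ fun _ =>
      sec (G₀.restrict (LinearMap.ker q)) n).comap φ)]
    congr 1
    funext c'
    refine ind_congr ?_
    simp only [true_and, Submodule.mem_comap, Submodule.mem_pi, mem_univ, forall_const, map_sub,
      Pi.sub_apply]
    refine ⟨fun h1 j => ?_, fun h1 => le_antisymm (hle c c' h1) (hle c' c fun j => ?_)⟩
    · rw [← (key c).2.1]
      refine mem_sec_restrict.2 ⟨?_, ?_⟩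
      · have h2 := mem_sec_genL n (Sum.elim u (w₀ + φ c')) (Sum.inr j)
        rw [h1] at h2
        simpa using sub_mem h2 (mem_sec_genL n (Sum.elim u (w₀ + φ c)) (Sum.inr j))
      · rw [LinearMap.mem_ker, map_sub, (hφ c).2.1, (hφ c').2.1, sub_zero]
    · simpa using neg_mem (h1 j)
  · rintro ⟨c, -, rfl⟩
    exact key c
  · rintro ⟨h1, h2, h3⟩
    have h4 : ∀ j, ∃ w ∈ sec G n, q w = q (w₀ j) := fun j =>
      lift_sec G q (h2 ▸ r1) (h3 ▸ map_mem_sec q (hw j))
    choose w h5 h6 using h4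
    have h7 : w - w₀ ∈ T := ⟨fun j => sub_mem (sec_mono h1 n (h5 j)) (sec_mono h n (hw j)),
      fun j => by rw [Pi.sub_apply, map_sub, h6, sub_self], fun x a h8 h9 => by
        simp only [Pi.sub_apply, smul_sub, Finset.sum_sub_distrib]
        exact sub_mem (h2 ▸ rel_mem h5 h8 (by simpa only [h6] using h9)) (rel_mem hw h8 h9)⟩
    obtain ⟨c, hc⟩ := (epsE_bij T).2 ⟨_, h7⟩
    have h8 : φ c = w - w₀ := congrArg Subtype.val hc
    refine ⟨c, trivial, eq_of_fib (genL_le.2 ?_) ((key c).2.1.trans h2.symm)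
      ((key c).2.2.trans h3.symm)⟩
    rintro (j | j)
    · exact (mem_sec_restrict.1 (h2 ▸ hu' j)).1
    · simpa [h8] using h5 j

end Pool.Agent.Lib.CC61
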