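import Pool.Agent.Lib.CC61.GBlue
import Pool.Agent.Lib.CC61.GKit1
import Pool.Agent.Lib.CC61.GKit2

/-! Project cc61, block LET: the letters are constructible and invariant. -/

open Filter Set Module

noncomputable section

namespace Pool.Agent.Lib.CC61

open Pool.Agent.Lib.MP_cc3443_ag

namespace T24

variable {K : Type} [Field K] [Algebra ℂ K] [Algebra (RatFunc ℂ) K]
  [IsScalarTower ℂ (RatFunc ℂ) K] [FiniteDimensional (RatFunc ℂ) K] {N N' : ℕ}

/-- Relative class. -/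
def rel (W F : Lat K N) : ℤ × ℤ := ((rk W : ℤ) - rk F, dg W - dg F)

/-- All subsheaves of `E / F` have their class in `R`. -/
def AllSub (R : ℤ × ℤ → Prop) (E F : Lat K N) : Prop := ∀ W, F ≤ W → W ≤ E → R (rel W F)

theorem rel_eq_zero {W F : Lat K N} (h : F ≤ W) : rel W F = 0 ↔ W = F := by
  refine ⟨fun e => ?_, by rintro rfl; simp [rel]⟩
  have e1 : (rk W : ℤ) - rk F = 0 := congrArg Prod.fst e
  have e2 : dg W - dg F = 0 := congrArg Prod.snd e
  exact (eq_of_dg h (by omega) (by omega)).symm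

theorem rel_eq_rel {W E F : Lat K N} (h : W ≤ E) : rel W F = rel E F ↔ W = E := by
  refine ⟨fun e => ?_, by rintro rfl; rfl⟩
  have e1 : (rk W : ℤ) - rk F = rk E - rk F := congrArg Prod.fst e
  have e2 : dg W - dg F = dg E - dg F := congrArg Prod.snd e
  exact eq_of_dg h (by omega) (by omega)

theorem del_exists_QR {Y : Type} [Coded Y] (E₀ : Lat K N) (r : ℕ) (c : ℤ)
    {P : Y × Lat K N → Prop} (hP : Del P) : Del fun y => ∃ W, QR E₀ r c W ∧ P (y, W) := by
  have h1 := (QC E₀ r c).hdec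
  refine (Del.exists'' (P := fun p : Y × (Fin (QC E₀ r c).n → ℂ) =>
    (QC E₀ r c).S p.2 ∧ P (p.1, (QC E₀ r c).dec p.2))
    (((QC E₀ r c).hS.comp (by fun_prop)).and (hP.comp (by fun_prop)))).congr fun y => ⟨?_, ?_⟩
  · rintro ⟨a, h2, h3⟩
    exact ⟨_, QC_R.1 ⟨a, h2, rfl⟩, h3⟩
  · rintro ⟨W, h2, h3⟩
    obtain ⟨a, h4, rfl⟩ := QC_R.2 h2
    exact ⟨a, h4, h3⟩

theorem dfun_rel {X : Type} [Coded X] {W F : X → Lat K N} (hW : DMap W) (hF : DMap F) :
    DFun fun a => rel (W a) (F a) :=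
  ((dfun_rk.comp hW).map₂ (dfun_rk.comp hF) fun a b => (a : ℤ) - b).prod
    ((dfun_dg.comp hW).map₂ (dfun_dg.comp hF) fun a b => a - b)

theorem del_allSub (E₀ : Lat K N) (R : ℤ × ℤ → ℤ × ℤ → Prop)
    (hR : ∀ γ, ∃ b : ℤ, ∀ i d, 0 < i → i ≤ γ.1 → d < b → R γ (i, d)) :
    Del fun p : Lat K N × Lat K N => p.1 ≤ E₀ ∧ p.2 ≤ p.1 ∧ AllSub (R (rel p.1 p.2)) p.1 p.2 := by
  have hA : Del fun p : Lat K N × Lat K N => p.1 ≤ E₀ := Del.le (by fun_prop) (by fun_prop)
  have hB : Del fun p : Lat K N × Lat K N => p.2 ≤ p.1 := Del.le (by fun_prop) (by fun_prop)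
  have hC : Del fun q : (Lat K N × Lat K N) × Lat K N =>
      q.1.2 ≤ q.2 ∧ q.2 ≤ q.1.1 ∧ ¬ R (rel q.1.1 q.1.2) (rel q.2 q.1.2) :=
    (Del.le (by fun_prop) (by fun_prop)).and ((Del.le (by fun_prop) (by fun_prop)).and
      (((dfun_rel (by fun_prop) (by fun_prop)).prod (dfun_rel (by fun_prop) (by fun_prop))).del
        fun t => ¬ R t.1 t.2))
  constructor
  · obtain ⟨C, hC'⟩ := exists_chiL_bound E₀
    refine (Sig.exists_countable (P := fun (lo : ℤ) (p : Lat K N × Lat K N) =>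
      (p.1 ≤ E₀ ∧ p.2 ≤ p.1) ∧ (∀ i d : ℤ, 0 ≤ i → i ≤ (rel p.1 p.2).1 → (i = 0 → 0 ≤ d) →
        d + i * chiO K + chiL p.2 < lo → R (rel p.1 p.2) (i, d)) ∧
      ∀ j : (Finset.range (N + 1) ×ˢ Finset.Icc lo C : Finset (ℕ × ℤ)),
        ¬ ∃ W, QR E₀ j.1.1 j.1.2 W ∧ p.2 ≤ W ∧ W ≤ p.1 ∧ ¬ R (rel p.1 p.2) (rel W p.2))
      fun lo => Del.sig ((hA.and hB).and (Del.and ?_ (Del.forall_finite fun j =>
        (del_exists_QR E₀ j.1.1 j.1.2 hC).not)))).congr fun p => ⟨?_, ?_⟩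
    · exact ((dfun_rel (W := fun p : Lat K N × Lat K N => p.1) (F := fun p => p.2) (by fun_prop)
        (by fun_prop)).prod (dfun_chiL.comp (f := fun p : Lat K N × Lat K N => p.2)
          (by fun_prop))).del fun t => ∀ i d : ℤ, 0 ≤ i → i ≤ t.1.1 → (i = 0 → 0 ≤ d) →
            d + i * chiO K + t.2 < lo → R t.1 (i, d)
    · rintro ⟨lo, ⟨h1, h2⟩, h3, h4⟩
      refine ⟨h1, h2, fun W w1 w2 => ?_⟩
      have a1 := rk_mono w1
      have a2 := rk_mono w2
      by_cases hl : chiL W < lo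
      · refine h3 _ _ (by omega) (by simp only [rel]; omega) (fun h0 => ?_) ?_
        · have := dg_mono w1 (by omega)
          omega
        · rw [dg, dg]
          linarith
      · by_contra hn
        refine h4 ⟨(rk W, chiL W), Finset.mem_product.2 ⟨Finset.mem_range.2 ?_,
          Finset.mem_Icc.2 ⟨not_lt.1 hl, hC' W (w2.trans h1)⟩⟩⟩ ⟨W, ⟨w2.trans h1, rfl, rfl⟩,
          w1, w2, hn⟩
        exact Nat.lt_succ_of_le (rk_le W)
    · rintro ⟨h1, h2, h3⟩
      obtain ⟨b, hb⟩ := hR (rel p.1 p.2)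
      refine ⟨min b 0 - |chiO K| * N + chiL p.2, ⟨h1, h2⟩, fun i d i0 i1 i2 i3 => ?_,
        fun j ⟨W, _, w1, w2, w3⟩ => w3 (h3 W w1 w2)⟩
      have a1 : (rk p.1 : ℤ) ≤ N := by exact_mod_cast rk_le p.1
      have a2 : i ≤ N := by simp only [rel] at i1; omega
      have a3 := neg_abs_le (chiO K)
      have a4 := abs_nonneg (chiO K)
      have a5 : d < min b 0 := by nlinarith
      rw [lt_min_iff] at a5
      exact hb i d (lt_of_le_of_ne i0 fun h0 => by have := i2 h0.symm; omega) i1 a5.1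
  · refine (hA.not.sig.or (hB.not.sig.or hC.sig.exists'')).congr fun p => ?_
    simp only [AllSub]
    push Not
    tauto

theorem iso_rel {Γ : Lat K N × Lat K N' → Prop} {E F G : Lat K N} {E' F' G' : Lat K N'}
    (h : Iso Γ E F E' F') (h1 : F ≤ G) (h2 : G ≤ E) (h3 : Γ (G, G')) : rel G' F' = rel G F := by
  obtain ⟨a1, a2⟩ := h.cls G G' h1 h2 h3
  have a3 : (rk G' : ℤ) - rk F' = rk G - rk F := by omega
  refine Prod.ext a3 ?_
  simp only [rel, dg]
  linear_combination a2 - chiO K * a3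

theorem iso_allSub {Γ : Lat K N × Lat K N' → Prop} {E F : Lat K N} {E' F' : Lat K N'}
    (h : Iso Γ E F E' F') (R : ℤ × ℤ → Prop) : AllSub R E F ↔ AllSub R E' F' := by
  constructor
  · intro H W' w1 w2
    obtain ⟨W, a1, a2, a3⟩ := h.ex' W' w1 w2
    rw [iso_rel h a1 a2 a3]
    exact H W a1 a2
  · intro H W w1 w2
    obtain ⟨W', a⟩ := h.ex W w1 w2
    rw [← iso_rel h w1 w2 a]
    exact H W' (h.mem w1 w2 a).1 (h.mem w1 w2 a).2

theorem nice_allSub (γ : Cl) (R : ℤ × ℤ → Prop)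
    (hR : ∃ b : ℤ, ∀ i d : ℤ, 0 < i → i ≤ γ.1 → d < b → R (i, d)) :
    Nice γ (fun _ E F => ind (HasClass E F γ ∧ AllSub R E F) : Fn K) := by
  refine ⟨fun h => (of_ind_ne_zero h).1, fun N E₀ => ?_,
    fun _ h => ind_congr (by rw [h.hasClass_iff, iso_allSub h])⟩
  have h1 := (Del.hasClass (E := fun p : Lat K N × Lat K N => p.1) (F := fun p => p.2)
    (by fun_prop) (by fun_prop) γ).and (del_allSub E₀ (fun δ t => δ.1 = γ.1 → R t) fun δ => by
      obtain ⟨b, hb⟩ := hR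
      exact ⟨b, fun i d i0 i1 i2 e => hb i d i0 (e ▸ i1) i2⟩)
  simp only [← ind_and]
  refine Del.ind (h1.congr fun p => ⟨fun h => ⟨h.2.1, h.1, fun W w1 w2 => h.2.2.2 W w1 w2 ?_⟩,
    fun h => ⟨h.2.1, h.1, (hasClass_iff.1 h.2.1).1, fun W w1 w2 _ => h.2.2 W w1 w2⟩⟩)
  have := (hasClass_iff.1 h.1).2.1
  simp only [rel]
  omega

theorem ss_eq (ν : Cl) (E F : Lat K N) : ssFn ν N E F = ind (HasClass E F ν ∧
    ∀ W, F ≤ W → W ≤ E → (dg W - dg F) * ν.1 ≤ ν.2 * ((rk W : ℤ) - rk F)) := by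
  refine ind_congr (and_congr_right fun _ => ⟨fun H W w1 w2 => ?_, fun H G μ h1 h2 => ?_⟩)
  · have := H W _ (Lat.le_iff_st.2 w2) (hasClass_self w1)
    simpa only [Nat.cast_sub (rk_mono w1)] using this
  · obtain ⟨a1, a2, a3⟩ := hasClass_iff_dg.1 h2
    have := H G a1 (Lat.le_iff_st.1 h1)
    rw [a2, a3] at this
    simpa using this

theorem subLt_iff (β : Cl) (E F : Lat K N) :
    SubLt β E F ↔ AllSub (fun t => t ≠ 0 → t.2 * β.1 < β.2 * t.1) E F :=
  forall₃_congr fun _ h _ => by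
    simp only [Ne, rel_eq_zero h]
    rfl

theorem eq_of_hasClass_zero {E F : Lat K N} (h : HasClass E F 0) : E = F := by
  obtain ⟨a1, a2, a3⟩ := hasClass_iff_dg.1 h
  exact (eq_of_dg a1 (by simpa using a2.symm) (by simpa using a3.le)).symm

theorem lt_zero (β : Cl) : (ltFn β 0 : Fn K) = torsFn 0 := by
  funext N E F
  refine ind_congr (and_iff_left_of_imp fun h W w1 w2 w3 => ?_)
  rw [eq_of_hasClass_zero h] at w2
  exact absurd (le_antisymm w2 w1) w3

theorem lt_tors (β : Cl) {m : ℤ} (hm : m ≠ 0) : (ltFn β (0, m) : Fn K) = 0 := by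
  funext N E F
  refine ind_false fun ⟨h1, h2⟩ => ?_
  obtain ⟨a1, a2, a3⟩ := hasClass_iff_dg.1 h1
  have a4 := dg_mono a1 (by simpa using a2.symm)
  have a5 := h2 E a1 le_rfl (by rintro rfl; simp [hm] at a3)
  have a6 : (0 : ℤ) ≤ β.1 := Int.natCast_nonneg _
  simp only [add_zero] at a2
  rw [a2, sub_self, mul_zero] at a5
  nlinarith

theorem lt_eq_b (γ : Cl) : (ltFn (0, 1) γ : Fn K) = bFn γ := by
  funext N E F
  refine ind_congr (and_congr_right fun h => ?_)
  rw [sat_iff (hasClass_iff.1 h).1]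
  refine forall₃_congr fun W w1 _ => ?_
  have := rk_mono w1
  simp only [Nat.cast_zero, mul_zero, one_mul, sub_pos, Nat.cast_lt]
  constructor
  · intro H e
    by_contra hn
    have := H (by rintro rfl; exact hn le_rfl)
    omega
  · intro H hne
    exact lt_of_le_of_ne this fun e => hne (le_antisymm (H e.symm) w1)

theorem nice_lt (β γ : Cl) : Nice γ (ltFn β γ : Fn K) := by
  by_cases hβ : β.1 = 0 ∧ β.2 ≤ 0
  · by_cases hγ : γ = 0
    · rw [hγ, lt_zero]
      exact Nice.unit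
    · have : (ltFn β γ : Fn K) = 0 := by
        funext N E F
        refine ind_false fun ⟨h1, h2⟩ => ?_
        obtain ⟨a1, a2, a3⟩ := hasClass_iff_dg.1 h1
        have a5 := h2 E a1 le_rfl (by
          rintro rfl
          exact hγ (Prod.ext (by simpa using a2) (by simpa using a3)))
        have a6 : (rk F : ℤ) ≤ rk E := by exact_mod_cast rk_mono a1
        rw [hβ.1, Nat.cast_zero, mul_zero] at a5
        nlinarith [hβ.2]
      rw [this]
      exact Nice.zero γ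
  · have : (ltFn β γ : Fn K) = fun _ E F => ind (HasClass E F γ ∧
        AllSub (fun t => t ≠ 0 → t.2 * β.1 < β.2 * t.1) E F) := by
      funext N E F
      exact ind_congr (by rw [subLt_iff])
    rw [this]
    refine nice_allSub γ _ ⟨-|β.2| * γ.1, fun i d i0 i1 i2 _ => ?_⟩
    have a1 := neg_abs_le β.2
    have a2 := abs_nonneg β.2
    rcases Nat.eq_zero_or_pos β.1 with h0 | h0
    · have : 0 < β.2 := not_le.1 fun h => hβ ⟨h0, h⟩
      simp only [h0, Nat.cast_zero, mul_zero]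
      positivity
    · have a3 : (1 : ℤ) ≤ β.1 := by exact_mod_cast h0
      have a4 : d < 0 := by nlinarith
      simp only
      nlinarith

theorem nice_ss (ν : Cl) : Nice ν (ssFn ν : Fn K) := by
  have : (ssFn ν : Fn K) = fun _ E F => ind (HasClass E F ν ∧
      AllSub (fun t => t.2 * ν.1 ≤ ν.2 * t.1) E F) := by
    funext N E F
    exact ss_eq ν E F
  rw [this]
  refine nice_allSub ν _ ⟨-|ν.2| * ν.1, fun i d i0 i1 i2 => ?_⟩
  have a1 := neg_abs_le ν.2
  have a2 := abs_nonneg ν.2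
  have a4 : d < 0 := by nlinarith
  simp only
  nlinarith

theorem ss_tors (m : ℤ) (E F : Lat K N) : ssFn (0, m) N E F = ind (HasClass E F (0, m)) := by
  rw [ss_eq]
  refine ind_congr (and_iff_left_of_imp fun h W w1 w2 => ?_)
  have a1 := (hasClass_iff.1 h).2.1
  have a2 := rk_mono w1
  have a3 := rk_mono w2
  have a4 : rk W = rk F := by simp only at a1; omega
  simp [a4]

end T24

variable (K : Type) [Field K] [Algebra ℂ K] [Algebra (RatFunc ℂ) K]
  [IsScalarTower ℂ (RatFunc ℂ) K] [FiniteDimensional (RatFunc ℂ) K]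

open T24 in
theorem st_LET : St_LET K := by
  refine ⟨fun ν => lt_eq_b (K := K) ν ▸ nice_lt _ ν, nice_ss, nice_lt, fun N E₀ c => ?_,
    fun N E₀ c => ?_, fun ν N E F => ss_eq ν E F, fun d => ?_, fun ν hν => ?_,
    by rw [← lt_eq_b, lt_zero], fun m hm => by rw [← lt_eq_b, lt_tors _ hm], lt_eq_b, lt_zero,
    fun β m hm => lt_tors β hm⟩
  · refine (del_allSub E₀ (fun γ t => t ≠ γ → c * (γ.1 - t.1) < γ.2 - t.2) fun γ =>
      ⟨γ.2 - |c| * γ.1, fun i d i0 i1 i2 _ => ?_⟩).congr fun p =>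
        and_congr_right fun _ => and_congr_right fun _ => forall₃_congr fun W _ w2 => ?_
    · have a1 := le_abs_self c
      have a2 := abs_nonneg c
      simp only
      nlinarith
    · simp only [Ne, rel_eq_rel w2]
      simp only [rel, sub_sub_sub_cancel_right]
  · refine del_allSub E₀ (fun _ t => t.2 ≤ c * t.1) fun γ =>
      ⟨-|c| * γ.1, fun i d i0 i1 i2 => ?_⟩
    have a1 := neg_abs_le c
    have a2 := abs_nonneg c
    simp only
    nlinarith
  · funext N E F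
    exact ss_tors d E F
  · funext N E F
    obtain ⟨r, m⟩ := ν
    simp only [Val, not_or, not_lt, not_le, Nat.le_zero] at hν
    obtain ⟨rfl, hm⟩ := hν
    rw [ss_tors]
    refine ind_false fun h => ?_
    obtain ⟨a1, a2, a3⟩ := hasClass_iff_dg.1 h
    have := dg_mono a1 (by simpa using a2.symm)
    simp only at a3
    omega

end Pool.Agent.Lib.CC61
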