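import Pool.Agent.Lib.CC61.GBlue
import Pool.Agent.Lib.CC61.T43A

open Filter Set Module

noncomputable section

namespace Pool.Agent.Lib.CC61

open Pool.Agent.Lib.MP_cc3443_ag

variable {K : Type} [Field K] [Algebra ℂ K] [Algebra (RatFunc ℂ) K]
  [IsScalarTower ℂ (RatFunc ℂ) K] [FiniteDimensional (RatFunc ℂ) K] {N N' : ℕ}

namespace T43

theorem int_fib {E G₀ : Lat K N} {q : (Fin N → K) →ₗ[K] (Fin N' → K)} (C : Chart (Lat K N))
    (hC : ∀ G, C.R G ↔ G ≤ E ∧ G.restrict (LinearMap.ker q) = G₀.restrict (LinearMap.ker q) ∧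
      G.mapL q = G₀.mapL q) {ψ : Lat K N → ℂ} (hψ : DFun ψ) :
    (QC E (rk G₀) (chiL G₀)).int (fun G => ind (G.restrict (LinearMap.ker q) =
      G₀.restrict (LinearMap.ker q) ∧ G.mapL q = G₀.mapL q) * ψ G) = C.int ψ := by
  have h1 : ∀ G, C.R G ↔ QR E (rk G₀) (chiL G₀) G ∧ G₀.restrict (LinearMap.ker q) ≤ G ∧
      G.mapL q = G₀.mapL q := fun G => by
    rw [hC]
    constructor
    · rintro ⟨a, b, c⟩
      exact ⟨⟨a, by rw [rk_exact G q, rk_exact G₀ q, b, c],
        by rw [chiL_exact G q, chiL_exact G₀ q, b, c]⟩, b ▸ G.restrict_le _, c⟩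
    · rintro ⟨⟨a, b, c⟩, d, e⟩
      rw [rk_exact G q, rk_exact G₀ q, e] at b
      rw [chiL_exact G q, chiL_exact G₀ q, e] at c
      exact ⟨a, (eq_of_chiL (le_restrict d inf_le_right) (by omega) (by omega)).symm, e⟩
  have h2 : Del C.R := ((Del.qr (DMap.const E) DMap.id' _ _).and
    ((Del.le (DMap.const _) DMap.id').and (Del.eq (DMap.mapL (g := fun _ => q) DMap.id'
      ((dmap_linear q).comp (by fun_prop))) (DMap.const _)))).congr fun G => (h1 G).symm
  rw [Chart.int_congr _ (G := fun G => ind (C.R G) * ψ G) fun G hG => by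
      rw [ind_congr ((hC G).trans (and_iff_right (QC_R.1 hG).1))],
    Chart.int_indep _ C (h2.ind.mul hψ) fun G hG => ?_]
  · exact C.int_congr fun G hG => by rw [ind_true hG, one_mul]
  · have h3 := of_ind_ne_zero (left_ne_zero_of_mul hG)
    exact ⟨fun _ => h3, fun _ => QC_R.2 ((h1 G).1 h3).1⟩

theorem exists_gen_sec (L : Lat K N) (n : ℤ) :
    ∃ (m : ℕ) (u : Fin m → Fin N → K), LinearIndependent ℂ u ∧
      Submodule.span ℂ (range u) = sec L n := by
  refine ⟨_, (sec L n).subtype ∘ finBasis ℂ (sec L n),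
    (finBasis ℂ (sec L n)).linearIndependent.map' _ (Submodule.ker_subtype _), ?_⟩
  have h := congrArg (Submodule.map (sec L n).subtype) (finBasis ℂ (sec L n)).span_eq
  rwa [Submodule.map_span, ← range_comp, Submodule.map_subtype_top] at h

omit [Algebra ℂ K] [Algebra (RatFunc ℂ) K] [IsScalarTower ℂ (RatFunc ℂ) K]
  [FiniteDimensional (RatFunc ℂ) K] in
theorem in1_pr1 {w : Fin (N + N') → K} (h : pr2 N N' w = 0) : in1 N N' (pr1 N N' w) = w := by
  have := in1_add_in2 w
  rwa [h, map_zero, add_zero] at this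

theorem restrict_oplus (G : Lat K N) (G' : Lat K N') :
    (oplus G G').restrict (LinearMap.ker (pr2 N N')) = G.mapL (in1 N N') :=
  Lat.ext' fun x => by
    ext w
    rw [Lat.mem_restrict, mem_oplus, Lat.mem_mapL, LinearMap.mem_ker]
    constructor
    · rintro ⟨h1, h2⟩
      exact ⟨_, h1.1, in1_pr1 h2⟩
    · rintro ⟨v, hv, rfl⟩
      simpa using hv

theorem mapL_oplus (G : Lat K N) (G' : Lat K N') : (oplus G G').mapL (pr2 N N') = G' :=
  Lat.ext' fun x => by
    ext w
    rw [Lat.mem_mapL]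
    constructor
    · rintro ⟨v, hv, rfl⟩
      exact (mem_oplus.1 hv).2
    · intro hw
      exact ⟨in2 N N' w, mem_oplus.2 (by simpa using hw), by simp⟩

theorem restrict_in1 (G : Lat K N) : G.restrict (LinearMap.ker (in1 N N')) = ⊥ :=
  restrict_eq_bot (eq_bot_iff.2 fun w hw => by
    have := congrArg (pr1 N N') (LinearMap.mem_ker.1 hw.2)
    simpa using this)

theorem genL_scale {m m' : ℕ} (n : ℤ) (u : Fin m' → Fin N → K) (w : Fin m → Fin N → K) {t : ℂ}
    (ht : t ≠ 0) : genL n (Sum.elim (t • u) w) = genL n (Sum.elim u w) := by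
  refine le_antisymm (genL_le.2 ?_) (genL_le.2 ?_)
  · rintro (j | j)
    · exact Submodule.smul_mem _ _ (mem_sec_genL n (Sum.elim u w) (Sum.inl j))
    · exact mem_sec_genL n (Sum.elim u w) (Sum.inr j)
  · rintro (j | j)
    · exact (Submodule.smul_mem_iff _ ht).1 (mem_sec_genL n (Sum.elim (t • u) w) (Sum.inl j))
    · exact mem_sec_genL n (Sum.elim (t • u) w) (Sum.inr j)

end T43

open T43 in
variable (K) in
theorem st_LIFT (hL : St_LCH K) : St_LIFT K := by
  refine ⟨fun N N' E U M q => ?_, fun N N' E G E' G' ψ h h' hψ hc => ?_⟩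
  · by_cases h : ∃ G ≤ E, G.restrict (LinearMap.ker q) = U ∧ G.mapL q = M
    · rw [ind_true h]
      obtain ⟨G₀, h, rfl, rfl⟩ := h
      obtain ⟨n₀, hn⟩ := hL N N' E G₀ q h
      obtain ⟨n, h1, h2⟩ := ((eventually_ge_atTop n₀).and
        (eventually_reg (G₀.restrict (LinearMap.ker q)))).exists
      obtain ⟨m', u, -, hu⟩ := exists_gen_sec (G₀.restrict (LinearMap.ker q)) n
      obtain ⟨m, σ, h3, h4⟩ := exists_gen_sec (G₀.mapL q) n
      choose w h5 h6 using fun j => lift_sec G₀ q h2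
        (show σ j ∈ sec (G₀.mapL q) n from h4 ▸ Submodule.subset_span ⟨j, rfl⟩)
      obtain ⟨C, h7, h8, -⟩ := hn n h1 m m' u w hu h5 (by simpa only [h6] using h3)
        (by simpa only [h6] using h4)
      have h9 := int_fib C h8 (DFun.const 1)
      simp only [mul_one] at h9
      rw [← rk_exact, ← chiL_exact, h9]
      simp [Chart.int, h7]
    · rw [ind_false h]
      exact Chart.int_eq_zero _ fun G hG => ind_false fun h1 => h ⟨G, (QC_R.1 hG).1, h1⟩
  · have h0 : oplus G G' ≤ oplus E E' := fun x w hw =>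
      mem_oplus.2 ⟨h x (mem_oplus.1 hw).1, h' x (mem_oplus.1 hw).2⟩
    obtain ⟨n, hn⟩ := hL _ N' (oplus E E') (oplus G G') (pr2 N N') h0
    obtain ⟨m', u, -, hu⟩ := exists_gen_sec ((oplus G G').restrict (LinearMap.ker (pr2 N N'))) n
    obtain ⟨m, σ, h3, h4⟩ := exists_gen_sec G' n
    have h5 : ∀ j, in2 N N' (σ j) ∈ sec (oplus G G') n := fun j => mem_sec.2 fun x => by
      have := mem_sec.1 (show σ j ∈ sec G' n from h4 ▸ Submodule.subset_span ⟨j, rfl⟩) x
      simpa [mem_oplus] using this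
    have h6 : ∀ j, u j ∈ sec (oplus G G') n ∧ pr2 N N' (u j) = 0 := fun j =>
      mem_sec_restrict.1 (show u j ∈ sec ((oplus G G').restrict (LinearMap.ker (pr2 N N'))) n from
        hu ▸ Submodule.subset_span ⟨j, rfl⟩)
    obtain ⟨C, h7, h8, φ, h9, h10⟩ := hn n le_rfl m m' u (fun j => in2 N N' (σ j)) hu h5
      (by simpa using h3) (by simpa [mapL_oplus] using h4)
    have h11 := int_fib C h8 hψ
    have h12 : C.dec 0 = oplus G G' := by
      have := (h8 _).1 ⟨0, h7 0, rfl⟩
      refine eq_of_fib ?_ this.2.1 this.2.2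
      rw [h10, genL_le]
      rintro (j | j)
      · exact (h6 j).1
      · simpa using h5 j
    rw [rk_exact _ (pr2 N N'), chiL_exact _ (pr2 N N'), restrict_oplus, mapL_oplus] at h11
    rw [rk_exact G (in1 N N'), chiL_exact G (in1 N N'), restrict_in1, rk_bot, chiL_bot, zero_add,
      zero_add, h11, ← h12]
    simp only [Chart.int, h7, ind_true, one_mul]
    refine chiN_cone _ (F := fun c => ψ (C.dec c)) fun t c ht => ?_
    rw [← hc t (C.dec c) ht ((h8 _).1 ⟨c, h7 c, rfl⟩).1, h10, h10, mapL_genL, ← genL_scale n u _ ht]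
    congr 2
    funext j
    rcases j with j | j
    · simp [in1_pr1 (h6 j).2, (h6 j).2]
    · simp [in1_pr1 (h9 c j), h9 c j, add_comm]

end Pool.Agent.Lib.CC61
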