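import Pool.Agent.Lib.CC61.AKit

open Finset

noncomputable section

namespace Pool.Agent.Lib.CC61

namespace T61

/-- Hecke axiom for an indexed combination of words. -/
lemma hecke' {h : ℕ} {X : Sys} {wb : X.Λ → List Cl → ℂ} (A : AxB h X wb) (V : X.Λ) (n : ℕ) :
    ∃ B, ∀ (l : ℕ) (ι : Type) (s : Finset ι) (c : ι → ℂ) (w : ι → Fin l → Cl),
      (∀ G, X.cl G + (0, (n : ℤ)) = X.cl V → X.Box B G →
        ∑ i ∈ s, c i * wb G (List.ofFn (w i)) = 0) → ∑ i ∈ s, c i * hkW h n (wb V) (w i) = 0 := by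
  obtain ⟨B, hB⟩ := A.hecke V n
  refine ⟨B, fun l ι s c w hw => ?_⟩
  have e : ∀ F : (Fin l → Cl) → ℂ, ((∑ i ∈ s, Finsupp.single (w i) (c i)).sum fun w c => c * F w) =
      ∑ i ∈ s, c i * F (w i) := fun F => by
    have := map_sum (Finsupp.linearCombination ℂ F) (fun i => Finsupp.single (w i) (c i)) s
    simp only [Finsupp.linearCombination_single, smul_eq_mul] at this
    exact this
  rw [← e]
  exact hB l _ fun G h1 h2 => by rw [e fun w => wb G (List.ofFn w)]; exact hw G h1 h2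

/-- The swap of two variables. -/
def sg : Equiv.Perm (Fin 2) := Equiv.swap 0 1

@[simp] lemma sg0 : sg 0 = 1 := rfl
@[simp] lemma sg1 : sg 1 = 0 := rfl

lemma comp_sg {α : Type*} (m : Fin 2 → α) : (m ∘ sg) ∘ sg = m := by
  funext a; fin_cases a <;> rfl

/-- Even power of the difference. -/
def W (k : ℕ) : LP 2 := dP fun _ _ => k

lemma W_add (a b : ℕ) : W (a + b) = W a * W b := dP_add _ _

lemma ren_W (k : ℕ) : ren sg (W k) = W k := ren_dP sg fun _ _ => k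

lemma offDiag2 : (univ : Finset (Fin 2)).offDiag = {(0, 1), (1, 0)} := by decide

lemma Dl_eq (h : ℕ) (γ : Fin 2 → ℕ) : Dl h γ = W (h * min (γ 0) (γ 1)) := by
  simp [Dl, W, dP, offDiag2, min_comm (γ 1)]

lemma W_eq (h j : ℕ) : W (h * j) = (-1 : ℂ) ^ (h * j) • ∑ k ∈ range (2 * h * j + 1),
    cc h j k • zz ![(k : ℤ), 2 * h * j - k] := by
  have h1 : W (h * j) = (-1 : ℂ) ^ (h * j) • (-zv 0 1 + zv 1 1) ^ (2 * h * j) := by
    have e : (zv 0 1 - zv 1 1 : LP 2) = (-1 : ℂ) • (-zv 0 1 + zv 1 1) := by simp [sub_eq_add_neg]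
    have e' : (zv 1 1 - zv 0 1 : LP 2) = -zv 0 1 + zv 1 1 := by ring
    simp only [W, dP, offDiag2]
    rw [Finset.prod_pair (by decide), e, e', smul_pow, smul_mul_assoc, ← pow_add]
    congr 2
    ring
  have h2 : ∀ (a : Fin 2) (k : ℕ), zv a 1 ^ k = zv a (k : ℤ) := fun a k => by
    induction k with
    | zero => simp
    | succ k ih => rw [pow_succ, ih, ← zv_add]; rfl
  rw [h1, add_pow]
  congr 1
  refine Finset.sum_congr rfl fun k hk => ?_
  have hk' : k ≤ 2 * h * j := Nat.lt_succ_iff.1 (Finset.mem_range.1 hk)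
  rw [zz_eq_prod, Fin.prod_univ_two, neg_pow, h2, h2, cc, Nat.cast_sub hk', Algebra.smul_def]
  simp only [map_mul, map_pow, map_neg, map_one, map_natCast, Matrix.cons_val_zero,
    Matrix.cons_val_one]
  push_cast
  ring

lemma TT_one (h : ℕ) (γ : Fin 2 → ℕ) :
    TT h 1 γ = cc h (γ 0) 1 • zz ![-1, 0] + cc h (γ 1) 1 • zz ![0, -1] := by
  have e : Finset.Nat.antidiagonalTuple 2 1 = {![1, 0], ![0, 1]} := by decide
  rw [TT, e, Finset.sum_pair (by decide)]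
  simp only [Fin.prod_univ_two, Matrix.cons_val_zero, Matrix.cons_val_one]
  have e1 : (fun a => -((![1, 0] : Fin 2 → ℕ) a : ℤ)) = ![-1, 0] := by funext a; fin_cases a <;> rfl
  have e2 : (fun a => -((![0, 1] : Fin 2 → ℕ) a : ℤ)) = ![0, -1] := by funext a; fin_cases a <;> rfl
  rw [e1, e2]
  simp [cc]

lemma ren_TT (h : ℕ) (γ : Fin 2 → ℕ) : ren sg (TT h 1 (γ ∘ sg)) = TT h 1 γ := by
  have e1 : (![-1, 0] : Fin 2 → ℤ) ∘ sg.symm = ![0, -1] := by funext a; fin_cases a <;> rfl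
  have e2 : (![0, -1] : Fin 2 → ℤ) ∘ sg.symm = ![-1, 0] := by funext a; fin_cases a <;> rfl
  simp only [TT_one, map_add, map_smul, ren_perm_zz, e1, e2, Function.comp, sg0, sg1]
  exact add_comm _ _

lemma ren_TW (γ : Fin 2 → ℕ) : ren sg (TW 1 (γ ∘ sg)) = TW 1 γ := by
  rw [TW, ren_perm_zz, TW]
  congr 1
  funext a; fin_cases a <;> rfl

/-- The defect of commutativity. -/
def Df (e : List Cl → ℂ) (γ : Fin 2 → ℕ) : Ds 2 := EE e γ - fun m => EE e (γ ∘ sg) (m ∘ sg)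

lemma act_Df {P Q : LP 2} (hP : ren sg Q = P) (e : List Cl → ℂ) (γ : Fin 2 → ℕ) (m : Fin 2 → ℤ) :
    act P (Df e γ) m = act P (EE e γ) m - act Q (EE e (γ ∘ sg)) (m ∘ sg) := by
  rw [Df, map_sub, Pi.sub_apply, ← act_ren, hP]

/-- The lowest exponent of the second variable. -/
def Low (F : Ds 2) (a : ℤ) : Prop := (∀ m, m 1 < a → F m = 0) ∧ ∃ m, m 1 = a ∧ F m ≠ 0

lemma Low.tt {F : Ds 2} {a : ℤ} (hF : Low F a) {h : ℕ} {γ : Fin 2 → ℕ} (h0 : cc h (γ 1) 1 ≠ 0) :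
    Low (act (TT h 1 γ) F) (a - 1) := by
  obtain ⟨h1, m, h2, h3⟩ := hF
  simp only [Low, TT_one, map_add, map_smul, LinearMap.add_apply, LinearMap.smul_apply, Pi.add_apply,
    Pi.smul_apply, act_zz, smul_eq_mul]
  have e : ∀ (x y : ℤ) (m : Fin 2 → ℤ), (m - ![x, y]) 1 = m 1 - y := fun _ _ _ => rfl
  have e' : (m + ![0, -1] : Fin 2 → ℤ) 1 = m 1 + -1 := rfl
  refine ⟨fun m' hm => by rw [h1 _ (by rw [e]; omega), h1 _ (by rw [e]; omega)]; simp,
    m + ![0, -1], by rw [e']; omega, ?_⟩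
  rw [h1 _ (by rw [e, e']; omega), add_sub_cancel_right, mul_zero, zero_add]
  exact mul_ne_zero h0 h3

lemma Low.tw {F : Ds 2} {a : ℤ} (hF : Low F a) (γ : Fin 2 → ℕ) :
    Low (act (TW 1 γ) F) (a + γ 1) := by
  obtain ⟨h1, m, h2, h3⟩ := hF
  simp only [Low, TW, act_zz]
  exact ⟨fun m' hm => h1 _ (by simp; omega), m + fun a => 1 * (γ a : ℤ), by simp [h2],
    by simpa using h3⟩

variable {h : ℕ} {X : Sys} {wb : X.Λ → List Cl → ℂ} (A : AxB h X wb)
include A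

lemma EE_supp {V : X.Λ} {γ : Fin 2 → ℕ} {m : Fin 2 → ℤ} (h0 : EE (wb V) γ m ≠ 0) :
    γ 0 + γ 1 = (X.cl V).1 ∧ m 0 + m 1 = (X.cl V).2 := by
  have := A.supp h0
  simp only [List.ofFn_succ, List.ofFn_zero, List.sum_cons, List.sum_nil, add_zero] at this
  exact ⟨congrArg Prod.fst this, congrArg Prod.snd this⟩

lemma window (r : ℕ) (B : ℤ) : ∃ L : ℤ, ∀ V, (X.cl V).1 ≤ r → X.Box B V → ∀ (γ : Fin 2 → ℕ) (k : ℕ)
    (m : Fin 2 → ℤ), act (W (k + h * γ 1)) (EE (wb V) γ) m ≠ 0 → -L ≤ m 0 ∧ -L ≤ m 1 := by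
  obtain ⟨L, hL⟩ := A.van r B
  refine ⟨max L (2 * B), fun V h1 h2 γ k m hm => ?_⟩
  rw [W_add, act_mul] at hm
  obtain ⟨s, h3, h4⟩ := exists_of_act hm
  have h5 := (dP_supp _ h3).1
  constructor
  · obtain ⟨t, h6, h7⟩ := exists_of_act h4
    have h8 := A.toAxW.lowB h2 (w := fun a => (γ a, (m - s - t) a)) h7 1
    have h9 : (univ.filter fun a : Fin 2 => a.1 < 1) = {0} := by decide
    simp only [h9, Finset.sum_singleton, Pi.sub_apply] at h8
    have := (dP_supp _ h6).1 0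
    have := h5 0
    omega
  · by_contra h6
    apply h4
    have h7 := hL V h1 h2 (γ 0) (γ 1) ((m - s) 0) ((m - s) 1 - 2 * h * γ 1) (by
      have := h5 1
      have : (0 : ℤ) ≤ 2 * h * γ 1 := by positivity
      simp only [Pi.sub_apply]
      omega)
    simp only [W_eq, map_smul, map_sum, LinearMap.smul_apply, LinearMap.sum_apply, Pi.smul_apply,
      Finset.sum_apply, act_zz, smul_eq_mul]
    rw [← mul_zero ((-1 : ℂ) ^ (h * γ 1)), ← h7]
    congr 1
    refine Finset.sum_congr rfl fun k _ => ?_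
    simp only [EE, List.ofFn_succ, List.ofFn_zero, Pi.sub_apply, Matrix.cons_val_zero,
      Fin.succ_zero_eq_one, Matrix.cons_val_one]
    congr 5
    ring

lemma Df_zero {V : X.Λ} {γ : Fin 2 → ℕ} (h0 : γ 0 = 0 ∨ γ 1 = 0) : Df (wb V) γ = 0 := by
  have key : ∀ (ν : Cl) (m : ℤ), wb V [(0, m), ν] = wb V [ν, (0, m)] := fun ν m => by
    by_cases e : m = 0
    · subst e
      exact (A.nil0 V [] [ν]).trans (A.nil0 V [ν] []).symm
    · exact (A.nil1 V [] [ν] m e).trans (A.nil1 V [ν] [] m e).symm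
  funext m
  simp only [Df, EE, Pi.sub_apply, List.ofFn_succ, List.ofFn_zero, Function.comp, sg0, sg1,
    Fin.succ_zero_eq_one, Pi.zero_apply]
  rcases h0 with e | e <;> simp [e, key]

/-- Vanishing below the level `L` for all bundles of class `ν`. -/
def Van (X : Sys) (wb : X.Λ → List Cl → ℂ) (γ : Fin 2 → ℕ) (L : ℤ) (ν : Cl) (P : LP 2) : Prop :=
  ∀ G, X.cl G = ν → ∀ m : Fin 2 → ℤ, m 1 < L → act P (Df (wb G) γ) m = 0

lemma Van.tt {γ : Fin 2 → ℕ} {L : ℤ} {ν : Cl} {P : LP 2} (hv : Van X wb γ L ν P) :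
    Van X wb γ L (ν + (0, 1)) (P * TT h 1 γ) := by
  intro V hV m hm
  obtain ⟨B, hB⟩ := hecke' A V 1
  have := hB 2 ((Fin 2 → ℤ) ⊕ (Fin 2 → ℤ)) (P.coeff.support.disjSum P.coeff.support)
    (Sum.elim P.coeff fun s => -P.coeff s)
    (Sum.elim (fun s a => (γ a, (m - s) a)) fun s a => ((γ ∘ sg) a, ((m - s) ∘ sg) a))
    fun G hG _ => by
      have h1 := hv G (add_right_cancel (hG.trans hV)) m hm
      rw [act_apply] at h1
      rw [← h1, Finset.sum_disjSum, ← Finset.sum_add_distrib]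
      refine Finset.sum_congr rfl fun s _ => ?_
      simp only [Sum.elim_inl, Sum.elim_inr, Df, EE, Pi.sub_apply]
      ring
  rw [act_mul, act_apply, ← this, Finset.sum_disjSum, ← Finset.sum_add_distrib]
  refine Finset.sum_congr rfl fun s _ => ?_
  rw [act_Df (ren_TT h γ), act_TT, act_TT]
  simp only [Sum.elim_inl, Sum.elim_inr]
  ring

omit A in
lemma EE_twist {l : ℕ} {V V' : X.Λ} {k : ℤ} (hV : ∀ w, wb V' (w.map (twC k)) = wb V w)
    (γ : Fin l → ℕ) : EE (wb V') γ = act (TW k γ) (EE (wb V) γ) := by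
  funext m
  rw [TW, act_zz, EE, EE, ← hV, List.map_ofFn]
  congr 2
  funext a
  simp [twC]

lemma Van.tw {γ : Fin 2 → ℕ} {L : ℤ} {ν : Cl} {P : LP 2} (hv : Van X wb γ L (twC 1 ν) P) :
    Van X wb γ L ν (P * TW 1 γ) := by
  intro V hV m hm
  obtain ⟨V', h1, h2⟩ := A.twist V 1
  rw [act_mul, ← hv V' (hV ▸ h1) m hm]
  have : act (TW 1 γ) (Df (wb V) γ) = Df (wb V') γ := by
    funext m'
    rw [act_Df (ren_TW γ), ← EE_twist h2, ← EE_twist h2]
    rfl
  rw [this]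

lemma Df_eq_zero {γ : Fin 2 → ℕ} {L : ℤ} {ν : Cl} {P : LP 2} (hv : Van X wb γ L ν P)
    (h0 : 0 < γ 0) (h1 : 0 < γ 1) (h2 : γ 0 + γ 1 = ν.1) {V : X.Λ} (hV : X.cl V = ν) :
    act P (Df (wb V) γ) = 0 := by
  have hc : cc h (γ 1) 1 ≠ 0 := by
    have := A.hpos
    simp only [cc, pow_one, Nat.choose_one_right]
    exact mul_ne_zero (by norm_num) (Nat.cast_ne_zero.2 (by positivity))
  have a1 : ∀ (k : ℕ) (Q : LP 2), Van X wb γ L ν Q →
      Van X wb γ L (ν + (0, (k : ℤ))) (Q * TT h 1 γ ^ k) := fun k Q hQ => by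
    induction k with
    | zero => simpa [Prod.mk_zero_zero] using hQ
    | succ k ih =>
      have := ih.tt A
      rwa [add_assoc, mul_assoc, ← pow_succ, Prod.mk_add_mk] at this
  have a2 : ∀ (k : ℕ) (F : Ds 2) (a : ℤ), Low F a → Low (act (TT h 1 γ ^ k) F) (a - k) :=
    fun k F a hF => by
      induction k with
      | zero => simpa using hF
      | succ k ih =>
        have := ih.tt hc
        rwa [← act_mul, ← pow_succ', sub_sub] at this
  have a3 : ∀ (n : ℕ) (Q : LP 2) (a : ℤ), Van X wb γ L ν Q → Low (act Q (Df (wb V) γ)) a →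
      L + n ≤ a := fun n => by
    induction n with
    | zero =>
      rintro Q a hQ ⟨-, m, rfl, hm⟩
      simpa using not_lt.1 fun h3 => hm (hQ V hV m h3)
    | succ n ih =>
      intro Q a hQ hL
      have h3 : twC 1 ν = ν + (0, (ν.1 : ℤ)) := by simp [twC, Prod.ext_iff]
      have h4 := ih _ _ (Van.tw A (h3 ▸ a1 ν.1 Q hQ)) (by
        have := (a2 ν.1 _ _ hL).tw γ
        rwa [← act_mul, ← act_mul, mul_comm, mul_comm (TW 1 γ), ← mul_assoc] at this)
      push_cast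
      omega
  by_contra h3
  obtain ⟨m₀, hm₀⟩ := Function.ne_iff.1 h3
  obtain ⟨a, ⟨m, h4, h5⟩, h6⟩ := Int.exists_least_of_bdd
    (P := fun a => ∃ m : Fin 2 → ℤ, m 1 = a ∧ act P (Df (wb V) γ) m ≠ 0)
    ⟨L, by rintro _ ⟨m, rfl, hm⟩; exact not_lt.1 fun h3 => hm (hv V hV m h3)⟩ ⟨_, m₀, rfl, hm₀⟩
  have := a3 (a - L + 1).toNat P a hv
    ⟨fun m' hm' => by_contra fun h7 => absurd (h6 _ ⟨m', rfl, h7⟩) (not_le.2 hm'), m, h4, h5⟩
  omega

omit A in
lemma Df_of_num {e : List Cl → ℂ} {S : Fam 2} {r : ℕ} (h1 : S ∈ AdmU 2 r) (h2 : IsNum h e S)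
    (γ : Fin 2 → ℕ) : act (Dl h γ) (Df e γ) = 0 := by
  funext m
  rw [act_Df (ren_Dl h sg γ), h2, h2, h1.2]
  simp

lemma finite_le {V : X.Λ} {γ : Fin 2 → ℕ} (hγ : γ 1 ≤ γ 0) :
    (Function.support (act (Dl h γ) (EE (wb V) γ))).Finite := by
  obtain ⟨B, hB⟩ := A.box_ex V
  obtain ⟨L, hL⟩ := window A (X.cl V).1 B
  refine (Set.finite_Icc (fun _ => -L) fun _ => (X.cl V).2 + dD h γ + L).subset fun m hm => ?_
  have h1 := hL V le_rfl hB γ 0 m (by rwa [zero_add, ← min_eq_right hγ, ← Dl_eq])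
  obtain ⟨s, h2, h3⟩ := exists_of_act hm
  have h4 := (dP_supp _ h2).2.1
  have h5 := (EE_supp A h3).2
  rw [Fin.sum_univ_two] at h4
  simp only [Pi.sub_apply] at h5
  have h6 : dD h γ = s 0 + s 1 := h4.symm
  exact ⟨fun a => by fin_cases a <;> simp [h1.1, h1.2], fun a => by fin_cases a <;> simp <;> omega⟩

lemma cancel_le {V : X.Λ} {γ : Fin 2 → ℕ} (hγ : γ 0 ≤ γ 1)
    (h0 : act (W (h * γ 1)) (Df (wb V) γ) = 0) : act (Dl h γ) (Df (wb V) γ) = 0 := by
  obtain ⟨k, hk⟩ := Nat.exists_eq_add_of_le hγ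
  have h1 : W (h * γ 1) = W (h * k) * Dl h γ := by
    rw [Dl_eq, min_eq_left hγ, ← W_add, hk]; congr 1; ring
  rw [h1, act_mul] at h0
  refine LowB.eq_zero ?_ _ h0
  rw [Df, map_sub]
  refine ((A.toAxW.lowB_EE V γ).act _).sub ?_
  have h2 := finite_le A (V := V) (γ := γ ∘ sg) hγ
  have h3 := LowB.coeff (ren sg (AddMonoidAlgebra.ofCoeff (Finsupp.ofSupportFinite _ h2)))
  have e : (act (Dl h γ) fun m => EE (wb V) (γ ∘ sg) (m ∘ sg)) =
      (ren sg (AddMonoidAlgebra.ofCoeff (Finsupp.ofSupportFinite _ h2))).coeff := by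
    funext m
    rw [coeff_ren, ← ren_Dl h sg γ, act_ren]
    rfl
  rwa [e]

omit A in
lemma Df_swap {e : List Cl → ℂ} {γ : Fin 2 → ℕ} {k : ℕ} (h0 : act (W k) (Df e (γ ∘ sg)) = 0) :
    act (W k) (Df e γ) = 0 := by
  funext m
  have := congrFun h0 (m ∘ sg)
  rw [act_Df (ren_W k), comp_sg, comp_sg, Pi.zero_apply, sub_eq_zero] at this
  rw [act_Df (ren_W k), this]
  simp

lemma exists_num {V : X.Λ} (h0 : ∀ γ : Fin 2 → ℕ, act (Dl h γ) (Df (wb V) γ) = 0) :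
    ∃ S : Fam 2, S ∈ AdmU 2 (X.cl V).1 ∧ IsNum h (wb V) S := by
  have h1 : ∀ γ m, act (Dl h (γ ∘ sg)) (EE (wb V) (γ ∘ sg)) (m ∘ sg) =
      act (Dl h γ) (EE (wb V) γ) m := fun γ m => by
    have := congrFun (h0 γ) m
    rw [act_Df (ren_Dl h sg γ), Pi.zero_apply, sub_eq_zero] at this
    exact this.symm
  have h2 : ∀ γ : Fin 2 → ℕ, (Function.support (act (Dl h γ) (EE (wb V) γ))).Finite := fun γ => by
    rcases le_total (γ 1) (γ 0) with e | e
    · exact finite_le A e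
    · refine ((finite_le A (V := V) (γ := γ ∘ sg) e).image (· ∘ sg)).subset fun m hm => ?_
      exact ⟨m ∘ sg, by rwa [Function.mem_support, h1], comp_sg m⟩
  refine ⟨fun γ => AddMonoidAlgebra.ofCoeff (Finsupp.ofSupportFinite _ (h2 γ)),
    ⟨fun γ m hm => ?_, fun σ γ m => ?_⟩, fun γ => rfl⟩
  · obtain ⟨s, h3, h4⟩ := exists_of_act (P := Dl h γ) (F := EE (wb V) γ) hm
    refine ⟨by rw [Fin.sum_univ_two]; exact (EE_supp A h4).1, fun a ha => ?_⟩
    have h5 := (dP_supp _ h3).2.2 a fun b => by simp [ha]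
    have h6 : (m - s) a = 0 := by
      by_contra h6
      apply h4
      change wb V [(γ 0, (m - s) 0), (γ 1, (m - s) 1)] = 0
      fin_cases a
      · rw [show γ 0 = 0 from ha]; exact A.nil1 V [] _ _ h6
      · rw [show γ 1 = 0 from ha]; exact A.nil1 V [_] [] _ h6
    simpa [h5] using h6
  · have : σ = 1 ∨ σ = sg := by revert σ; decide
    rcases this with rfl | rfl
    · rfl
    · exact h1 γ m

end T61

open T61 in
theorem st_LOC (hC : St_CONV) (hSH : St_SH) : St_LOC := by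
  intro h X wb A
  suffices H : ∀ r V, (X.cl V).1 = r → ∃ S : Fam 2, S ∈ AdmU 2 (X.cl V).1 ∧ IsNum h (wb V) S from
    fun V => H _ V rfl
  intro r
  induction r using Nat.strong_induction_on with
  | _ r ih =>
  intro V hV
  have key : ∀ γ : Fin 2 → ℕ, γ 0 ≤ γ 1 → act (Dl h γ) (Df (wb V) γ) = 0 := fun γ hγ => by
    rcases Nat.eq_zero_or_pos (γ 0) with e | e
    · rw [Df_zero A (Or.inl e), map_zero]
    by_cases e2 : γ 0 + γ 1 = (X.cl V).1
    swap
    · have : Df (wb V) γ = 0 := by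
        funext m
        have a : EE (wb V) γ m = 0 := by_contra fun h1 => e2 (EE_supp A h1).1
        have b : EE (wb V) (γ ∘ sg) (m ∘ sg) = 0 :=
          by_contra fun h1 => e2 ((add_comm _ _).trans (EE_supp A h1).1)
        simp [Df, a, b]
      rw [this, map_zero]
    obtain ⟨B, hB⟩ := A.ind (X.cl V)
    obtain ⟨L, hL⟩ := window A r B
    obtain ⟨k, hk⟩ := Nat.exists_eq_add_of_le hγ
    have e3 : h * γ 1 = h * k + h * γ 0 := by rw [hk]; ring
    refine cancel_le A hγ (Df_eq_zero A (L := -L) (fun G hG m hm => ?_) e (e.trans_le hγ) e2 rfl)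
    rcases hB G hG with h1 | ⟨V₁, V₂, h1, h2, h3, h4⟩
    · have h2 : (X.cl G).1 ≤ r := by rw [hG, hV]
      have a : act (W (h * γ 1)) (EE (wb G) γ) m = 0 := by_contra fun h3 =>
        absurd (hL G h2 h1 γ 0 m (by rwa [zero_add])).2 (not_le.2 hm)
      have b : act (W (h * γ 1)) (EE (wb G) (γ ∘ sg)) (m ∘ sg) = 0 := by_contra fun h3 =>
        absurd (hL G h2 h1 (γ ∘ sg) (h * k) (m ∘ sg) (by rwa [e3] at h3)).1 (not_le.2 hm)
      rw [act_Df (ren_W _), a, b, sub_zero]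
    · have h5 : (X.cl V₁).1 + (X.cl V₂).1 = r := by rw [← hV, ← h3, A.cl_add]; rfl
      obtain ⟨S₁, a1, a2⟩ := ih _ (by omega) V₁ rfl
      obtain ⟨S₂, b1, b2⟩ := ih _ (by omega) V₂ rfl
      have := Df_of_num ((hSH 2 h).1 _ _ _ _ a1 b1) (hC h X wb A 2 V₁ V₂ _ _ a2 b2) γ
      rw [Dl_eq, min_eq_left hγ] at this
      rw [h4, e3, W_add, act_mul, this, map_zero, Pi.zero_apply]
  refine exists_num A fun γ => ?_
  rcases le_total (γ 0) (γ 1) with e | e
  · exact key γ e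
  · have := key (γ ∘ sg) e
    rw [Dl_eq] at this ⊢
    exact Df_swap (by rwa [min_comm])

end Pool.Agent.Lib.CC61
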