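import Pool.Agent.Lib.CC61.GKit1
import Pool.Agent.Lib.CC61.GKit2

/-! Project cc61: functions that are locally combinations of words. -/

open Filter Set Module

noncomputable section

namespace Pool.Agent.Lib.CC61

open Pool.Agent.Lib.MP_cc3443_ag

variable {K : Type} [Field K] [Algebra ℂ K] [Algebra (RatFunc ℂ) K]
  [IsScalarTower ℂ (RatFunc ℂ) K] [FiniteDimensional (RatFunc ℂ) K]

namespace T43

/-- The span of the words satisfying `P`. -/
def WS (a : Cl → Fn K) (P : List Cl → Prop) : Submodule ℂ (Fn K) :=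
  Submodule.span ℂ (word a '' {w | P w})

/-- Functions that agree with elements of `W` on bounded pairs satisfying `R`. -/
def LocS (R : ∀ N, Lat K N → Lat K N → Prop) (W : Submodule ℂ (Fn K)) : Submodule ℂ (Fn K) where
  carrier := {f | ∀ B : ℤ, ∃ g ∈ W, ∀ N (E F : Lat K N), Bd B E F → R N E F → f N E F = g N E F}
  add_mem' := fun hf hg B => by
    obtain ⟨f', h1, h2⟩ := hf B
    obtain ⟨g', h3, h4⟩ := hg B
    exact ⟨f' + g', add_mem h1 h3, fun N E F a b => by
      simp only [Pi.add_apply, h2 N E F a b, h4 N E F a b]⟩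
  zero_mem' := fun _ => ⟨0, zero_mem _, fun _ _ _ _ _ => rfl⟩
  smul_mem' := fun c f hf B => by
    obtain ⟨f', h1, h2⟩ := hf B
    exact ⟨c • f', W.smul_mem c h1, fun N E F a b => by simp only [Pi.smul_apply, h2 N E F a b]⟩

variable {R : ∀ N, Lat K N → Lat K N → Prop} {W W' : Submodule ℂ (Fn K)} {a b : Cl → Fn K}
  {P Q S : List Cl → Prop} {μ ν : Cl} {f f' : Fn K}

omit [IsScalarTower ℂ (RatFunc ℂ) K] [FiniteDimensional (RatFunc ℂ) K] in
theorem word_mem {w : List Cl} (h : P w) : word a w ∈ WS a P := Submodule.subset_span ⟨w, h, rfl⟩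

theorem locIn_iff : LocIn R a P f ↔ f ∈ LocS R (WS a P) := by
  have e : ∀ (ξ : List Cl →₀ ℂ) N (E F : Lat K N), Finsupp.linearCombination ℂ (word a) ξ N E F =
      ξ.sum fun w c => c * word a w N E F := fun ξ N E F => by
    simp [Finsupp.linearCombination_apply, Finsupp.sum, Finset.sum_apply]
  refine forall_congr' fun B => ⟨?_, ?_⟩
  · rintro ⟨ξ, h1, h2⟩
    exact ⟨_, (Finsupp.mem_span_image_iff_linearCombination ℂ).2 ⟨ξ, h1, rfl⟩,
      fun N E F c d => (h2 N E F c d).trans (e ξ N E F).symm⟩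
  · rintro ⟨g, h1, h2⟩
    obtain ⟨ξ, h3, rfl⟩ := (Finsupp.mem_span_image_iff_linearCombination ℂ).1 h1
    exact ⟨ξ, h3, fun N E F c d => (h2 N E F c d).trans (e ξ N E F)⟩

theorem loc_of_mem (h : f ∈ W) : f ∈ LocS R W := fun _ => ⟨f, h, fun _ _ _ _ _ => rfl⟩

theorem loc_word {w : List Cl} (h : P w) : word a w ∈ LocS R (WS a P) := loc_of_mem (word_mem h)

theorem loc_loc (h : f ∈ LocS R (LocS R W)) : f ∈ LocS R W := fun B => by
  obtain ⟨g, h1, h2⟩ := h B
  obtain ⟨g', h3, h4⟩ := h1 B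
  exact ⟨g', h3, fun N E F c d => (h2 N E F c d).trans (h4 N E F c d)⟩

theorem loc_mono (h : f ∈ LocS R W) (h' : W ≤ W') : f ∈ LocS R W' := fun B =>
  (h B).imp fun _ hg => ⟨h' hg.1, hg.2⟩

theorem loc_trans (h : f ∈ LocS R (WS a P)) (h' : ∀ w, P w → word a w ∈ LocS R W) :
    f ∈ LocS R W :=
  loc_loc (loc_mono h (Submodule.span_le.2 (by rintro _ ⟨w, hw, rfl⟩; exact h' w hw)))

theorem loc_imp (h : f ∈ LocS R (WS a P)) (h' : ∀ w, P w → Q w) : f ∈ LocS R (WS a Q) :=
  loc_trans h fun w hw => loc_word (h' w hw)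

theorem nice_of_mem (hb : ∀ ν, Nice ν (b ν)) (hQ : ∀ w, Q w → w.sum = ν) {g : Fn K}
    (h : g ∈ WS b Q) : Nice ν g := by
  induction h using Submodule.span_induction with
  | mem _ h => obtain ⟨w, hw, rfl⟩ := h; exact hQ w hw ▸ nice_word hb w
  | zero => exact Nice.zero ν
  | add _ _ _ _ h h' => exact h.add h'
  | smul c _ _ h => exact h.smul c

theorem loc_hall_right (hb : ∀ ν, Nice ν (b ν)) (hR : ∀ N E F G, R N E F → G ≤ E → R N G F)
    (hf : Nice μ f) (hf' : Nice ν f') (h2 : f' ∈ LocS R (WS b Q)) (hQ : ∀ w, Q w → w.sum = ν)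
    (h : ∀ v, Q v → hall f (word b v) ∈ LocS R W) : hall f f' ∈ LocS R W := by
  refine loc_loc fun B => ?_
  obtain ⟨g, h3, h4⟩ := h2 B
  refine ⟨hall f g, ?_, fun N E F c d => hf.hall_congr hf' hf (nice_of_mem hb hQ h3) fun G hG => by
    rw [h4 N G F (fun U h5 h6 => c U h5 (h6.trans hG)) (hR N E F G d hG)]⟩
  clear h4
  induction h3 using Submodule.span_induction with
  | mem _ h' => obtain ⟨w, hw, rfl⟩ := h'; exact h w hw
  | zero => simp
  | add _ _ c d e e' =>
    rw [hf.hall_add_right (nice_of_mem hb hQ c) (nice_of_mem hb hQ d)]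
    exact add_mem e e'
  | smul c _ d e =>
    rw [hf.hall_smul_right (nice_of_mem hb hQ d)]
    exact Submodule.smul_mem _ _ e

theorem loc_hall_left (hb : ∀ ν, Nice ν (b ν)) (hf : Nice μ f) (hf' : Nice ν f')
    (h1 : f ∈ LocS (fun _ _ _ => True) (WS b P)) (hP : ∀ w, P w → w.sum = μ)
    (h : ∀ u, P u → hall (word b u) f' ∈ LocS R W) : hall f f' ∈ LocS R W := by
  refine loc_loc fun B => ?_
  obtain ⟨g, h3, h4⟩ := h1 (B - ν.2)
  refine ⟨hall g f', ?_, fun N E F c _ =>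
    hf.hall_congr hf' (nice_of_mem hb hP h3) hf' fun G _ => ?_⟩
  · clear h4
    induction h3 using Submodule.span_induction with
    | mem _ h' => obtain ⟨w, hw, rfl⟩ := h'; exact h w hw
    | zero => simp
    | add _ _ c d e e' =>
      rw [(nice_of_mem hb hP c).hall_add_left (nice_of_mem hb hP d) hf']
      exact add_mem e e'
    | smul c _ d e =>
      rw [(nice_of_mem hb hP d).hall_smul_left hf']
      exact Submodule.smul_mem _ _ e
  · by_cases h0 : f' N G F = 0
    · rw [h0, mul_zero, mul_zero]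
    · obtain ⟨h5, -, h6⟩ := hasClass_iff_dg.1 (hf'.supp h0)
      rw [h4 N E G (fun U h7 h8 => by have := c U (h5.trans h7) h8; omega) trivial]

/-- Products of local combinations. -/
theorem loc_hall (hb : ∀ ν, Nice ν (b ν)) (hR : ∀ N E F G, R N E F → G ≤ E → R N G F)
    (hf : Nice μ f) (hf' : Nice ν f') (h1 : f ∈ LocS (fun _ _ _ => True) (WS b P))
    (h2 : f' ∈ LocS R (WS b Q)) (hP : ∀ w, P w → w.sum = μ) (hQ : ∀ w, Q w → w.sum = ν)
    (hS : ∀ u v, P u → Q v → S (u ++ v)) : hall f f' ∈ LocS R (WS b S) :=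
  loc_hall_left hb hf hf' h1 hP fun u hu => loc_hall_right hb hR (nice_word hb u) hf' h2 hQ
    fun v hv => word_append hb u v ▸ loc_word (hS u v hu hv)

theorem slope_trans {x y z : Cl} (hy : 0 < y.1) (h : x.2 * y.1 ≤ y.2 * x.1)
    (h' : y.2 * z.1 ≤ z.2 * y.1) : x.2 * z.1 ≤ z.2 * x.1 := by
  have h1 : (0 : ℤ) < y.1 := by exact_mod_cast hy
  have h2 := mul_le_mul_of_nonneg_right h (Int.natCast_nonneg z.1)
  have h3 := mul_le_mul_of_nonneg_right h' (Int.natCast_nonneg x.1)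
  exact le_of_mul_le_mul_right (a := (y.1 : ℤ)) (by linarith) h1

theorem sub_add_cl {γ δ : Cl} (h : δ.1 ≤ γ.1) : γ - δ + δ = γ :=
  Prod.ext (by simp only [Prod.fst_add, Prod.fst_sub]; omega) (by simp)

theorem fst_le_sum {w : List Cl} {x : Cl} (h : x ∈ w) : x.1 ≤ w.sum.1 := by
  induction w with
  | nil => simp at h
  | cons y w ih =>
    rw [List.sum_cons, Prod.fst_add]
    rcases List.mem_cons.1 h with rfl | h
    · omega
    · have := ih h
      omega

theorem hd_snoc {γ δ : Cl} {u : List Cl} (h0 : 0 < δ.1) (h1 : δ.1 ≤ γ.1)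
    (h2 : γ.2 * δ.1 ≤ δ.2 * γ.1) (h : Hd (γ - δ) u) : Hd γ (u ++ [δ]) := by
  have e := sub_add_cl h1
  refine ⟨by simp [h.1, e], fun x hx => ?_, fun x hx => ?_⟩
  · rcases List.mem_append.1 hx with hx | hx
    · exact h.2.1 x hx
    · rwa [List.mem_singleton.1 hx]
  · rcases u with _ | ⟨y, u⟩
    · have h3 : δ = γ := by rw [← e, ← h.1]; simp
      obtain rfl : δ = x := by simpa using hx
      rw [← h3]
    · obtain rfl : y = x := by simpa using hx
      have h3 := h.2.1 y List.mem_cons_self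
      have h4 := fst_le_sum (w := y :: u) List.mem_cons_self
      rw [h.1] at h4
      refine slope_trans (y := γ - δ) (by omega) (h.2.2 y rfl) ?_
      rw [Prod.snd_sub, Prod.fst_sub, Nat.cast_sub h1]
      linarith

theorem hd_ne_nil {x : Cl} (hx : 0 < x.1) {v : List Cl} (h : Hd x v) :
    ∃ y v', v = y :: v' ∧ 0 < y.1 ∧ y.2 * x.1 ≤ x.2 * y.1 := by
  rcases v with _ | ⟨y, v⟩
  · rw [← h.1] at hx
    simp at hx
  · exact ⟨y, v, rfl, h.2.1 y List.mem_cons_self, h.2.2 y rfl⟩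

end T43

end Pool.Agent.Lib.CC61
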