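import Pool.Agent.Lib.CC61.GBlue
import Pool.Agent.Lib.CC61.LocKit

open Filter Set Module

noncomputable section

namespace Pool.Agent.Lib.CC61

open Pool.Agent.Lib.MP_cc3443_ag

variable (K : Type) [Field K] [Algebra ℂ K] [Algebra (RatFunc ℂ) K]
  [IsScalarTower ℂ (RatFunc ℂ) K] [FiniteDimensional (RatFunc ℂ) K]

open T43 in
theorem st_LOCA (hL : St_LET K) (hH : St_HN K) : St_LOCA K := by
  obtain ⟨-, hs, hl, -, -, -, -, -, -, -, -, l0, l1⟩ := hL
  intro β γ
  rw [locIn_iff]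
  generalize hr : γ.1 = r
  induction r using Nat.strong_induction_on generalizing β γ with
  | _ r ih =>
    subst hr
    rcases Nat.eq_zero_or_pos γ.1 with h0 | h0
    · obtain ⟨i, m⟩ := γ
      obtain rfl : i = 0 := h0
      by_cases hm : m = 0
      · subst hm
        exact l0 β ▸ loc_word (w := []) ⟨rfl, by simp, by simp⟩
      · rw [l1 β m hm]
        exact zero_mem _
    · refine loc_loc fun B => ⟨∑ δ ∈ Finset.Icc 1 γ.1 ×ˢ Finset.Icc (-|γ.2|) B with
        δ.2 * β.1 < β.2 * δ.1 ∧ γ.2 * δ.1 ≤ δ.2 * γ.1, hall (ltFn δ (γ - δ)) (ssFn δ),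
        sum_mem fun δ hδ => ?_, fun N E F h _ => by
          simp only [hH β γ B N E F h0 h, Finset.sum_apply]⟩
      simp only [Finset.mem_filter, Finset.mem_product, Finset.mem_Icc] at hδ
      refine loc_hall (Q := (· = [δ])) hs (fun _ _ _ _ _ _ => trivial) (hl _ _) (hs δ)
        (ih _ (by rw [Prod.fst_sub]; omega) δ _ rfl) (word_single hs δ ▸ loc_word rfl)
        (fun w hw => hw.1) (by rintro _ rfl; simp) ?_
      rintro u _ hu rfl
      exact hd_snoc hδ.1.1.1 hδ.1.1.2 hδ.2.2 hu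

end Pool.Agent.Lib.CC61
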