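import Pool.Agent.Lib.CC61.GBlue
import Pool.Agent.Lib.CC61.LocKit

open Filter Set Module

noncomputable section

namespace Pool.Agent.Lib.CC61

open Pool.Agent.Lib.MP_cc3443_ag

variable {K : Type} [Field K] [Algebra ℂ K] [Algebra (RatFunc ℂ) K]
  [IsScalarTower ℂ (RatFunc ℂ) K] [FiniteDimensional (RatFunc ℂ) K]

namespace T43

theorem loc_letters {a b : Cl → Fn K} (ha : ∀ ν, Nice ν (a ν)) (hb : ∀ ν, Nice ν (b ν))
    {u : List Cl} (h : ∀ x ∈ u, a x ∈ LocS (fun _ _ _ => True) (WS b (Hd x))) :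
    word a u ∈ LocS (fun _ _ _ => True) (WS b fun w => w.sum = u.sum ∧ ∀ x ∈ w, 0 < x.1) := by
  induction u with
  | nil => exact loc_word (w := []) ⟨rfl, by simp⟩
  | cons x u ih =>
    refine loc_hall hb (fun _ _ _ _ _ _ => trivial) (ha x) (nice_word ha u)
      (h x List.mem_cons_self) (ih fun y hy => h y (List.mem_cons_of_mem _ hy))
      (fun w hw => hw.1) (fun w hw => hw.1) fun v v' h1 h2 => ⟨by simp [h1.1, h2.1], fun y hy => ?_⟩
    exact (List.mem_append.1 hy).elim (h1.2.1 y) (h2.2 y)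

theorem loc_hd {a b : Cl → Fn K} (ha : ∀ ν, Nice ν (a ν)) (hb : ∀ ν, Nice ν (b ν)) {β : Cl}
    {u : List Cl} (hu : Hd β u) (h : ∀ x ∈ u, a x ∈ LocS (fun _ _ _ => True) (WS b (Hd x))) :
    word a u ∈ LocS (fun _ _ _ => True) (WS b (Hd β)) := by
  rcases u with _ | ⟨x, u⟩
  · exact loc_word (w := []) hu
  · refine loc_hall hb (fun _ _ _ _ _ _ => trivial) (ha x) (nice_word ha u)
      (h x List.mem_cons_self) (loc_letters ha hb fun y hy => h y (List.mem_cons_of_mem _ hy))
      (fun w hw => hw.1) (fun w hw => hw.1) fun v v' h1 h2 =>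
        ⟨by simp [h1.1, h2.1, ← hu.1], fun y hy => ?_, fun y hy => ?_⟩
    · exact (List.mem_append.1 hy).elim (h1.2.1 y) (h2.2 y)
    · have h3 := hu.2.1 x List.mem_cons_self
      obtain ⟨z, v, rfl, -, h4⟩ := hd_ne_nil h3 h1
      obtain rfl : z = y := by simpa using hy
      exact slope_trans h3 h4 (hu.2.2 x rfl)

end T43

open T43 in
variable (K) in
theorem st_LOCB (hL : St_LET K) (hH : St_HN K) (hA : St_LOCA K) : St_LOCB K := by
  classical
  obtain ⟨hb, hs, hl, -, -, -, -, -, -, -, lb, l0, l1⟩ := hL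
  intro β
  rw [locIn_iff]
  generalize hr : β.1 = r
  induction r using Nat.strong_induction_on generalizing β with
  | _ r ih =>
    subst hr
    intro h0
    refine loc_loc fun B => ?_
    by_cases hB : β.2 ≤ B
    swap
    · refine ⟨0, zero_mem _, fun N E F h _ => by_contra fun h1 => hB ?_⟩
      obtain ⟨h2, -, h3⟩ := hasClass_iff_dg.1 ((hs β).supp h1)
      have := h E h2 le_rfl
      omega
    obtain ⟨s, hs'⟩ : ∃ s : Finset Cl, s = (Finset.Icc 1 β.1 ×ˢ Finset.Icc (-|β.2|) B).filter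
      fun δ => δ.2 * ((0, 1) : Cl).1 < ((0, 1) : Cl).2 * δ.1 ∧ β.2 * δ.1 ≤ δ.2 * β.1 := ⟨_, rfl⟩
    have h1 : β ∈ s := by
      simp only [hs', Finset.mem_filter, Finset.mem_product, Finset.mem_Icc]
      exact ⟨⟨⟨h0, le_rfl⟩, neg_abs_le _, hB⟩, by simpa using h0, le_rfl⟩
    refine ⟨bFn β - ∑ δ ∈ s.erase β, hall (ltFn δ (β - δ)) (ssFn δ), sub_mem ?_
      (sum_mem fun δ hδ => ?_), fun N E F h _ => ?_⟩
    · exact word_single hb β ▸ loc_word ⟨by simp, by simpa using h0, by simp⟩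
    · simp only [hs', Finset.mem_erase, Finset.mem_filter, Finset.mem_product,
        Finset.mem_Icc] at hδ
      obtain ⟨d0, ⟨⟨d1, d2⟩, -⟩, -, d3⟩ := hδ
      rcases d2.eq_or_lt with e | d4
      · have e1 : β - δ = (0, β.2 - δ.2) := Prod.ext (by simp [e]) rfl
        rw [e1, l1 _ _ fun e2 => d0 (Prod.ext e (by omega)), hall_zero_left]
        exact zero_mem _
      · refine loc_trans (P := fun w => Hd β w ∧ ∀ x ∈ w, x.1 < β.1) (loc_hall (Q := (· = [δ])) hs
          (fun _ _ _ _ _ _ => trivial) (hl _ _) (hs δ) (locIn_iff.1 (hA δ (β - δ)))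
          (word_single hs δ ▸ loc_word rfl) (fun w hw => hw.1) (by rintro _ rfl; simp) ?_)
          fun w hw => loc_hd hs hb hw.1 fun x hx => ih _ (hw.2 x hx) x rfl (hw.1.2.1 x hx)
        rintro u _ hu rfl
        refine ⟨hd_snoc d1 d2 d3 hu, fun x hx => ?_⟩
        rcases List.mem_append.1 hx with hx | hx
        · have := fst_le_sum hx
          rw [hu.1, Prod.fst_sub] at this
          omega
        · rwa [List.mem_singleton.1 hx]
    · have h2 := hH (0, 1) β B N E F h0 h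
      rw [lb, ← hs', ← Finset.add_sum_erase _ _ h1, show β - β = 0 from Prod.ext (by simp) (by simp), l0,
        (hs β).hall_unit_left] at h2
      simp only [Pi.sub_apply, Finset.sum_apply, h2, add_sub_cancel_right]

end Pool.Agent.Lib.CC61
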