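import Pool.Agent.Lib.CC61.GBlue
import Pool.Agent.Lib.CC61.GKit1
import Pool.Agent.Lib.CC61.GKit2

/-! Project cc61, block NC. -/

noncomputable section

namespace Pool.Agent.Lib.CC61

open Pool.Agent.Lib.MP_cc3443_ag

variable (K : Type) [Field K] [Algebra ℂ K] [Algebra (RatFunc ℂ) K]
  [IsScalarTower ℂ (RatFunc ℂ) K] [FiniteDimensional (RatFunc ℂ) K]

namespace T24

variable {K} {N : ℕ}

theorem fq_dg {c : ℤ} {A T : Lat K N} (h : T ≤ A) (hF : FQ c A T) :
    dg A - |c| * rk A ≤ dg T := by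
  have h1 := hF A h le_rfl
  have h2 : (rk T : ℤ) ≤ rk A := by exact_mod_cast rk_mono h
  have h3 : (0 : ℤ) ≤ rk T := by positivity
  have h4 := le_abs_self c
  have h5 := abs_nonneg c
  nlinarith

theorem fq_box {B c : ℤ} {r : ℕ} {A T : Lat K N} (hA : Box B A) (hr : rk A ≤ r) (h : T ≤ A)
    (hF : FQ c A T) : Box (B + |c| * r) T := by
  have h1 := fq_dg h hF
  have h2 : (rk A : ℤ) ≤ r := by exact_mod_cast hr
  have h3 := abs_nonneg c
  have h4 := hA.2
  refine ⟨fun W hW => (hA.1 W (hW.trans h)).trans (le_add_of_nonneg_right (by positivity)), ?_⟩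
  nlinarith

theorem finite_cls {A : Lat K N} {P : Lat K N → Prop} {b : ℤ} (h : ∀ T, T ≤ A → P T → b ≤ dg T) :
    {j : ℕ × ℤ | ∃ T, T ≤ A ∧ P T ∧ (rk T, chiL T) = j}.Finite := by
  obtain ⟨B, hB⟩ := exists_dg_bound A
  refine (((Set.finite_Icc 0 (rk A)).prod (Set.finite_Icc b B)).image
    fun p : ℕ × ℤ => (p.1, p.2 + p.1 * chiO K)).subset ?_
  rintro _ ⟨T, h1, h2, rfl⟩
  exact ⟨(rk T, dg T), ⟨⟨Nat.zero_le _, rk_mono h1⟩, h T h1 h2, hB T h1⟩, by rw [chiL_eq_dg]⟩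

theorem dfun_tq (hL : St_LET K) (T : Lat K N) (c : ℤ) :
    DFun fun U : Lat K N => ind (U ≤ T ∧ TQ c T U) :=
  (((hL.2.2.2.1 N T c).comp (f := fun U => (T, U)) (by fun_prop)).congr fun _ =>
    and_iff_right le_rfl).ind

/-- Vanishing by disintegration along the torsion pair. -/
theorem van_tp (hT : St_TP K) (hL : St_LET K) (A : Lat K N) (c : ℤ) (i : ℕ) (χ : ℤ)
    {φ : Lat K N → ℂ} (hφ : DFun φ) (H : ∀ T, T ≤ A → FQ c A T → ∃ v : ℂ,
      (∀ U, QR T i χ U → TQ c T U → φ U = v) ∧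
      v * (QC T i χ).int (fun U => ind (TQ c T U)) = 0) : (QC A i χ).int φ = 0 := by
  have hΓ : Del fun p : Lat K N × Lat K N => (p.2 ≤ A ∧ p.1 ≤ p.2 ∧ TQ c p.2 p.1) ∧
      (A ≤ A ∧ p.2 ≤ A ∧ FQ c A p.2) :=
    ((hL.2.2.2.1 N A c).comp (f := fun p : Lat K N × Lat K N => (p.2, p.1)) (by fun_prop)).and
      ((hL.2.2.2.2.1 N A c).comp (f := fun p : Lat K N × Lat K N => (A, p.2)) (by fun_prop))
  have hfin := finite_cls (A := A) (P := FQ c A) fun T => fq_dg
  rw [disint (QC A i χ) A hφ hΓ hfin.toFinset fun U hU _ => ?_]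
  · refine Finset.sum_eq_zero fun j _ => Chart.int_eq_zero _ fun T hT' => ?_
    have h0 := (QC_R.1 hT').1
    by_cases hF : FQ c A T
    · obtain ⟨v, h1, h2⟩ := H T h0 hF
      have hD := dfun_tq hL T c
      rw [← h2, Chart.int_congr (QC T i χ) (G := fun U => ind (U ≤ T ∧ TQ c T U))
        (fun U hU => ind_congr (and_iff_right (QC_R.1 hU).1).symm), ← Chart.int_const_mul _ hD,
        ← int_QC_le h0 _ _ ((DFun.const v).mul hD)]
      refine Chart.int_congr _ fun U hU => ?_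
      by_cases h3 : U ≤ T ∧ TQ c T U
      · rw [h1 U ⟨h3.1, (QC_R.1 hU).2⟩ h3.2, ind_true ⟨⟨h0, h3⟩, le_rfl, h0, hF⟩, ind_true h3,
          ind_true h3.1, mul_one]
      · rw [ind_false h3, ind_false fun h4 => h3 h4.1.2, zero_mul, mul_zero, mul_zero]
    · exact Chart.int_eq_zero _ fun U _ => by rw [ind_false fun h4 => hF h4.2.2.2, zero_mul]
  · obtain ⟨T, t1, t2, t3, t4⟩ := hT.1 N A U c (QC_R.1 hU).1
    refine ⟨T, ⟨⟨t2, t1, t3⟩, le_rfl, t2, t4⟩, t2, hfin.mem_toFinset.2 ⟨T, t2, t4, rfl⟩,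
      fun T' h1 h2 => le_antisymm ?_ ?_⟩
    · exact hT.2 N A U T' T c h2.1.2.1 h1 t1 t2 h2.1.2.2 t4
    · exact hT.2 N A U T T' c t1 t2 h2.1.2.1 h1 t3 h2.2.2.2

theorem nc_aux (hT : St_TP K) (hL : St_LET K) {r : ℕ} (hV : VanP K r) (c : ℤ) (s : ℕ) :
    ∀ B : ℤ, ∃ L : ℤ, ∀ (N : ℕ) (V : Lat K N), rk V ≤ r → rk V < s → Box B V →
      ∀ (i : ℕ) (l : ℤ), l < -L → qi V i l (fun U => ind (TQ c V U)) = 0 := by
  induction s with
  | zero => exact fun _ => ⟨0, fun _ _ _ h => absurd h (Nat.not_lt_zero _)⟩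
  | succ s ih =>
    intro B
    obtain ⟨L₁, h1⟩ := hV B
    obtain ⟨L₂, h2⟩ := ih (B + |c| * r)
    refine ⟨max L₁ L₂, fun N V v1 v2 v3 i l hl => ?_⟩
    have hD := dfun_tq hL V c
    have h3 := h1 N V v1 v3 i l (by omega)
    have h4 := van_tp hT hL V c i (l + i * chiO K)
      ((DFun.const 1).add ((DFun.const (-1)).mul hD)) fun T t1 t2 => by
        by_cases e : T = V
        · subst e
          exact ⟨0, fun U u1 u2 => by rw [ind_true ⟨u1.1, u2⟩]; ring, zero_mul _⟩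
        · have t3 : rk T < rk V := lt_of_le_of_ne (rk_mono t1) fun t3 => e <| eq_of_dg t1 t3 <| by
            have := t2 V t1 le_rfl
            rw [t3, sub_self, mul_zero] at this
            omega
          refine ⟨1, fun U u1 _ => ?_, ?_⟩
          · rw [ind_false fun u3 =>
              e (le_antisymm t1 (hT.2 N V U V T c u3.1 le_rfl u1.1 t1 u3.2 t2))]
            ring
          · rw [one_mul]
            exact h2 N T (by omega) (by omega) (fq_box v3 v1 t1 t2) i l (by omega)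
    rw [Chart.int_add _ (DFun.const 1) ((DFun.const (-1)).mul hD), Chart.int_const_mul _ hD] at h4
    rw [qi] at h3 ⊢
    rw [Chart.int_congr _ (G := fun U => ind (U ≤ V ∧ TQ c V U))
      fun U hU => ind_congr (and_iff_right (QC_R.1 hU).1).symm]
    linear_combination h3 - h4

end T24

theorem st_NC (hT : St_TP K) (hL : St_LET K) : St_NC K := fun r hV B c =>
  let ⟨L, h⟩ := T24.nc_aux hT hL hV c (r + 1) B
  ⟨L, fun N V h1 => h N V h1 (Nat.lt_succ_of_le h1)⟩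

end Pool.Agent.Lib.CC61
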