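import Pool.Agent.Lib.CC61.AKit

open Finset

noncomputable section

namespace Pool.Agent.Lib.CC61

namespace T61N

variable {l : ℕ}

/-- `κ` is the unique monomial of least weight. -/
def Bot (w : Fin l → ℤ) (P : LP l) (κ : Fin l → ℤ) : Prop :=
  P.coeff κ ≠ 0 ∧ ∀ m, P.coeff m ≠ 0 → m ≠ κ → ∑ a, w a * κ a < ∑ a, w a * m a

lemma Bot.le {w : Fin l → ℤ} {P : LP l} {κ m : Fin l → ℤ} (h : Bot w P κ) (hm : P.coeff m ≠ 0) :
    ∑ a, w a * κ a ≤ ∑ a, w a * m a := by
  by_cases e : m = κ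
  · rw [e]
  · exact (h.2 m hm e).le

lemma Bot.mul {w : Fin l → ℤ} {P Q : LP l} {κ κ' : Fin l → ℤ} (h : Bot w P κ) (h' : Bot w Q κ') :
    Bot w (P * Q) (κ + κ') := by
  constructor
  · rw [coeff_mul_eq, Finset.sum_eq_single κ (fun s hs hne => ?_)
      fun h1 => absurd (Finsupp.mem_support_iff.2 h.1) h1, add_sub_cancel_left]
    · exact mul_ne_zero h.1 h'.1
    · refine mul_eq_zero_of_right _ (by_contra fun h1 => ?_)
      have h2 := h.2 s (Finsupp.mem_support_iff.1 hs) hne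
      have h3 := h'.le h1
      simp only [Pi.sub_apply, Pi.add_apply, mul_sub, mul_add, sum_sub_distrib,
        sum_add_distrib] at h3
      omega
  · intro m hm hne
    obtain ⟨s, h1, h2⟩ := exists_of_mul hm
    have h3 := h'.le h2
    simp only [Pi.sub_apply, Pi.add_apply, mul_sub, mul_add, sum_sub_distrib,
      sum_add_distrib] at h3 ⊢
    by_cases e : s = κ
    · have := h'.2 _ h2 fun e' => hne (by rw [← e', e]; abel)
      simp only [Pi.sub_apply, mul_sub, sum_sub_distrib, e] at this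
      omega
    · have := h.2 s h1 e
      omega

lemma coeff_one_ne {m : Fin l → ℤ} (h : (1 : LP l).coeff m ≠ 0) : m = 0 :=
  by_contra fun h2 => h (by rw [← zz_zero, coeff_zz, if_neg (Ne.symm h2)])

lemma coeff_diff {a b : Fin l} {s : Fin l → ℤ} (h : (zv a 1 - zv b 1).coeff s ≠ 0) :
    s = Pi.single a 1 ∨ s = Pi.single b 1 := by
  by_contra h7
  push Not at h7
  exact h (by simp [zv, coeff_zz, h7.1.symm, h7.2.symm])

lemma wt_single (w : Fin l → ℤ) (a : Fin l) : ∑ c, w c * (Pi.single a 1 : Fin l → ℤ) c = w a := by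
  rw [Finset.sum_eq_single a] <;> simp +contextual

lemma bot_dP (n : Fin l → Fin l → ℕ) : Bot (fun a => a.1) (dP n)
    (∑ p ∈ (univ : Finset (Fin l)).offDiag, n p.1 p.2 • Pi.single (min p.1 p.2) 1) := by
  have h0 : Bot (fun a : Fin l => (a.1 : ℤ)) 1 0 :=
    ⟨by rw [← zz_zero, coeff_zz]; simp, fun m hm hne => absurd (coeff_one_ne hm) hne⟩
  have h1 : ∀ a b : Fin l, a ≠ b →
      Bot (fun a : Fin l => (a.1 : ℤ)) (zv a 1 - zv b 1) (Pi.single (min a b) 1) := fun a b hab => by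
    have e : (Pi.single a 1 : Fin l → ℤ) ≠ Pi.single b 1 := fun e => by simpa [hab] using congrFun e a
    constructor
    · rcases le_total a b with h | h <;> simp [h, zv, coeff_zz, e, e.symm]
    · intro m hm hne
      rcases coeff_diff hm with rfl | rfl <;> rw [wt_single, wt_single]
      · have : b < a := not_le.1 fun h => hne (by rw [min_eq_left h])
        rw [min_eq_right this.le]; exact_mod_cast this
      · have : a < b := not_le.1 fun h => hne (by rw [min_eq_right h])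
        rw [min_eq_left this.le]; exact_mod_cast this
  have h2 : ∀ (P : LP l) κ (k : ℕ), Bot (fun a : Fin l => (a.1 : ℤ)) P κ →
      Bot (fun a : Fin l => (a.1 : ℤ)) (P ^ k) (k • κ) := fun P κ k h => by
    induction k with
    | zero => simpa using h0
    | succ k ih => rw [pow_succ, succ_nsmul]; exact ih.mul h
  have h3 : ∀ s : Finset (Fin l × Fin l), (∀ p ∈ s, p.1 ≠ p.2) → Bot (fun a : Fin l => (a.1 : ℤ))
      (∏ p ∈ s, (zv p.1 1 - zv p.2 1) ^ n p.1 p.2)
      (∑ p ∈ s, n p.1 p.2 • Pi.single (min p.1 p.2) 1) := fun s => by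
    induction s using Finset.induction_on with
    | empty => intro _; simpa using h0
    | insert p s hp ih =>
      intro h4
      rw [Finset.prod_insert hp, Finset.sum_insert hp]
      exact (h2 _ _ _ (h1 _ _ (h4 p (mem_insert_self _ _)))).mul
        (ih fun q hq => h4 q (mem_insert_of_mem hq))
  exact h3 _ fun p hp => (Finset.mem_offDiag.1 hp).2.2

/-- Subset bound for the monomials of `dP n`. -/
lemma dP_sub (n : Fin l → Fin l → ℕ) (C : Finset (Fin l)) {m : Fin l → ℤ} (h : (dP n).coeff m ≠ 0) :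
    ∑ p ∈ C.offDiag, (n p.1 p.2 : ℤ) ≤ ∑ a ∈ C, m a := by
  let Ge : LP l → ℤ → Prop := fun P x => ∀ m, P.coeff m ≠ 0 → x ≤ ∑ a ∈ C, m a
  have h0 : Ge 1 0 := fun m hm => by simp [coeff_one_ne hm]
  have h1 : ∀ P Q x y, Ge P x → Ge Q y → Ge (P * Q) (x + y) := fun P Q x y hP hQ m hm => by
    obtain ⟨s, h1, h2⟩ := exists_of_mul hm
    have := hP s h1
    have h3 := hQ _ h2
    simp only [Pi.sub_apply, sum_sub_distrib] at h3
    omega
  have h2 : ∀ P x (k : ℕ), Ge P x → Ge (P ^ k) (k * x) := fun P x k hP => by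
    induction k with
    | zero => simpa using h0
    | succ k ih => rw [pow_succ]; push_cast; rw [add_mul, one_mul]; exact h1 _ _ _ _ ih hP
  have h3 : ∀ a b, Ge (zv a 1 - zv b 1) (if a ∈ C ∧ b ∈ C then 1 else 0) := fun a b m hm => by
    rcases coeff_diff hm with rfl | rfl <;> rw [Finset.sum_pi_single'] <;> split_ifs <;> simp_all
  have h4 : ∀ s : Finset (Fin l × Fin l), Ge (∏ p ∈ s, (zv p.1 1 - zv p.2 1) ^ n p.1 p.2)
      (∑ p ∈ s, n p.1 p.2 * if p.1 ∈ C ∧ p.2 ∈ C then 1 else 0) := fun s => by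
    induction s using Finset.induction_on with
    | empty => simpa using h0
    | insert p s hp ih =>
      rw [Finset.prod_insert hp, Finset.sum_insert hp]
      exact h1 _ _ _ _ (h2 _ _ _ (h3 _ _)) ih
  refine le_trans (le_of_eq ?_) (h4 _ m h)
  simp only [mul_ite, mul_one, mul_zero]
  rw [← Finset.sum_filter]
  congr 1
  ext p
  simp only [mem_filter, mem_offDiag, mem_univ, true_and]
  tauto

/-- One factor of an expansion of the inverse of a difference. -/
def fT (T : Finset (Fin l)) (a : Fin l) (x : ℤ) : ℂ :=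
  if a ∈ T then (if 0 ≤ x then -1 else 0) else if 0 ≤ x then 0 else 1

/-- Expansion of the inverse of the star product. -/
def cT (ρ : Fin l) (T U : Finset (Fin l)) : Ds l := fun η =>
  if (∀ a ∉ U, a ≠ ρ → η a = 0) ∧ ∑ a, η a = -U.card then ∏ a ∈ U, fT T a (η a) else 0

lemma act_cT (ρ : Fin l) (T U : Finset (Fin l)) (hU : ρ ∉ U) :
    act (∏ a ∈ U, (zv a 1 - zv ρ 1)) (cT ρ T U) = ((1 : LP l).coeff : Ds l) := by
  induction U using Finset.induction_on with
  | empty =>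
    funext η
    rw [← zz_zero, coeff_zz]
    simp only [prod_empty, map_one, Module.End.one_apply, cT, notMem_empty, not_false_eq_true,
      forall_const, card_empty, Nat.cast_zero, neg_zero]
    refine if_congr ⟨fun h => ?_, fun h => by simp [← h]⟩ rfl rfl
    have h1 := h.2
    rw [Finset.sum_eq_single ρ (fun b _ hb => h.1 b hb) (by simp)] at h1
    funext a
    by_cases e : a = ρ
    · rw [e, h1]; rfl
    · exact (h.1 a e).symm
  | insert a U ha ih =>
    rw [Finset.prod_insert ha, mul_comm, act_mul, ← ih fun h => hU (mem_insert_of_mem h)]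
    congr 1
    funext η
    have h1 : a ≠ ρ := fun e => hU (e ▸ mem_insert_self _ _)
    have h2 : ρ ∉ U := fun h => hU (mem_insert_of_mem h)
    have e1 : ∏ b ∈ U, fT T b ((η - Pi.single a 1 : Fin l → ℤ) b) = ∏ b ∈ U, fT T b (η b) :=
      Finset.prod_congr rfl fun b hb => by
        rw [Pi.sub_apply, Pi.single_eq_of_ne (fun e : b = a => ha (e ▸ hb)), sub_zero]
    have e2 : ∏ b ∈ U, fT T b ((η - Pi.single ρ 1 : Fin l → ℤ) b) = ∏ b ∈ U, fT T b (η b) :=
      Finset.prod_congr rfl fun b hb => by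
        rw [Pi.sub_apply, Pi.single_eq_of_ne (fun e : b = ρ => h2 (e ▸ hb)), sub_zero]
    have e3 : ∀ c, c = a ∨ c = ρ → (((∀ b ∉ insert a U, b ≠ ρ → (η - Pi.single c 1 : Fin l → ℤ) b = 0) ∧
        ∑ b, (η - Pi.single c 1 : Fin l → ℤ) b = -(insert a U).card) ↔
        (∀ b ∉ insert a U, b ≠ ρ → η b = 0) ∧ ∑ b, η b = -U.card) := fun c hc => by
      refine and_congr (forall₃_congr fun b hb hb' => ?_) ?_
      · rw [Pi.sub_apply, Pi.single_eq_of_ne, sub_zero]
        rintro rfl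
        exact hc.elim (fun e => hb (e ▸ mem_insert_self _ _)) hb'
      · simp only [Pi.sub_apply, sum_sub_distrib, Finset.sum_pi_single', mem_univ, if_true,
          card_insert_of_notMem ha]
        push_cast
        omega
    have e4 : fT T a (η a - 1) - fT T a (η a) = if η a = 0 then 1 else 0 := by
      unfold fT
      split_ifs <;> first | omega | simp
    simp only [map_sub, LinearMap.sub_apply, Pi.sub_apply, zv, act_zz]
    simp only [cT, e3 a (Or.inl rfl), e3 ρ (Or.inr rfl), Finset.prod_insert ha, e1, e2]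
    simp only [Pi.sub_apply, Pi.single_eq_same, Pi.single_eq_of_ne h1, sub_zero]
    by_cases h3 : (∀ b ∉ insert a U, b ≠ ρ → η b = 0) ∧ ∑ b, η b = -U.card
    · rw [if_pos h3, if_pos h3, ← sub_mul, e4]
      by_cases h4 : η a = 0
      · have h5 : ∀ b ∉ U, b ≠ ρ → η b = 0 := fun b hb hb' => by
          by_cases e : b = a
          · rw [e, h4]
          · exact h3.1 b (by simp [e, hb]) hb'
        rw [if_pos h4, one_mul, if_pos ⟨h5, h3.2⟩]
      · rw [if_neg h4, zero_mul, if_neg fun h5 => h4 (h5.1 a ha h1)]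
    · rw [if_neg h3, if_neg h3, sub_zero,
        if_neg fun h5 => h3 ⟨fun b hb => h5.1 b fun h6 => hb (mem_insert_of_mem h6), h5.2⟩]

lemma sum_cT (ρ : Fin l) (U : Finset (Fin l)) {η : Fin l → ℤ} (h1 : ∀ a ∉ U, a ≠ ρ → η a = 0)
    (h2 : ∑ a, η a = -U.card) : ∑ T ∈ U.powerset, (-1) ^ T.card * cT ρ T U η = 1 := by
  have h3 := Finset.prod_add (fun a => if 0 ≤ η a then (1 : ℂ) else 0)
    (fun a => if 0 ≤ η a then (0 : ℂ) else 1) U
  rw [Finset.prod_eq_one fun a _ => by split_ifs <;> simp] at h3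
  refine Eq.trans (Finset.sum_congr rfl fun T hT => ?_) h3.symm
  rw [cT, if_pos ⟨h1, h2⟩, ← Finset.prod_sdiff (mem_powerset.1 hT), mul_comm (∏ _ ∈ U \ T, _),
    ← mul_assoc, ← Finset.prod_const, ← Finset.prod_mul_distrib]
  congr 1
  · exact Finset.prod_congr rfl fun a ha => by simp only [fT, if_pos ha]; split_ifs <;> simp
  · exact Finset.prod_congr rfl fun a ha => by simp only [fT, if_neg (mem_sdiff.1 ha).2]

/-- Sorting key. -/
def key (ρ : Fin l) (T Y : Finset (Fin l)) (a : Fin l) : ℕ :=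
  if a ∈ T then 0 else if a = ρ then 1 else if a ∈ Y then 2 else 3

lemma lowB_cT {ρ : Fin l} {T Y : Finset (Fin l)} (hT : ρ ∉ T) {σ : Equiv.Perm (Fin l)}
    (hσ : Monotone (key ρ T Y ∘ σ)) : LowB fun m => cT ρ T (Y.erase ρ) (m ∘ σ.symm) := by
  refine ⟨(Y.erase ρ).card, fun m hm k => ?_⟩
  simp only [cT, ne_eq, ite_eq_right_iff, Classical.not_imp] at hm
  obtain ⟨⟨h1, h2⟩, h3⟩ := hm
  have h4 : ∀ a, σ a ≠ ρ → (σ a ∈ T → 0 ≤ m a) ∧ (σ a ∉ T → m a ≤ 0) := fun a ha => by
    by_cases e : σ a ∈ Y.erase ρ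
    · have := Finset.prod_ne_zero_iff.1 h3 _ e
      simp only [fT, Function.comp, Equiv.symm_apply_apply] at this
      constructor <;> intro h5 <;> by_contra h6 <;> apply this
      · rw [if_pos h5, if_neg h6]
      · rw [if_neg h5, if_pos (by omega)]
    · have := h1 _ e ha
      simp only [Function.comp, Equiv.symm_apply_apply] at this
      omega
  have h5 : key ρ T Y (σ (σ.symm ρ)) = 1 := by simp [key, hT]
  by_cases e : (σ.symm ρ).1 < k
  · rw [show ∑ a, (m ∘ σ.symm) a = ∑ a, m a from Equiv.sum_comp σ.symm m,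
      ← Finset.sum_filter_add_sum_filter_not univ fun a => a.1 < k] at h2
    have : ∑ a with ¬ a.1 < k, m a ≤ 0 := Finset.sum_nonpos fun a ha => by
      have h6 := (mem_filter.1 ha).2
      have h7 : σ.symm ρ ≤ a := Fin.le_def.2 (by omega)
      have h8 : 1 ≤ key ρ T Y (σ a) := h5 ▸ hσ h7
      refine (h4 a fun e' => h6 (by rwa [← e', Equiv.symm_apply_apply] at e)).2 fun h9 => ?_
      simp [key, h9] at h8
    omega
  · refine le_trans (by omega) (Finset.sum_nonneg fun a ha => ?_)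
    have h6 := (mem_filter.1 ha).2
    have h7 : a ≤ σ.symm ρ := Fin.le_def.2 (by omega)
    have h8 : key ρ T Y (σ a) ≤ 1 := h5 ▸ hσ h7
    have h9 : σ a ≠ ρ := fun e' => e (by rwa [← e', Equiv.symm_apply_apply])
    refine (h4 a h9).1 (by_contra fun h10 => ?_)
    simp only [key, if_neg h10, if_neg h9] at h8
    split_ifs at h8 <;> omega

lemma exists_sort {r : ℕ} (hr : r ≤ l) {ρ : Fin l} (hρ : ρ ∈ Y0 l r) {T : Finset (Fin l)}
    (hT : T ⊆ Y0 l r) : ∃ σ : Equiv.Perm (Fin l), Monotone (key ρ T (Y0 l r) ∘ σ) ∧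
      ∀ a, σ a ∈ Y0 l r ↔ a ∈ Y0 l r := by
  refine ⟨Tuple.sort (key ρ T (Y0 l r)), Tuple.monotone_sort _, fun a => ?_⟩
  have h1 : ∀ b, key ρ T (Y0 l r) b ≤ 2 ↔ b ∈ Y0 l r := fun b => by
    unfold key
    split_ifs with h h' h''
    · simp [hT h]
    · simp [h', hρ]
    · simp [h'']
    · simp [h'']
  have h2 := Tuple.lt_card_le_iff_apply_le_of_monotone (Tuple.monotone_sort (key ρ T (Y0 l r)))
    (a := 2) (j := a)
  have h3 : #{i | (key ρ T (Y0 l r) ∘ Tuple.sort (key ρ T (Y0 l r))) i ≤ 2} = r :=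
    (Finset.card_equiv (Tuple.sort (key ρ T (Y0 l r))) fun i => by
      simp only [mem_filter, mem_univ, true_and, Function.comp, h1]).trans (card_Y0 hr)
  rw [h3, Function.comp, h1] at h2
  rw [← h2]
  simp [Y0]

/-- Exponents of the complementary factor. -/
def n1 (h : ℕ) (ρ : Fin l) (Y : Finset (Fin l)) (a b : Fin l) : ℕ :=
  if a ∈ Y ∧ b ∈ Y then (if b = ρ then h - 1 else h) else 0

lemma Dl_split {h : ℕ} (hh : 0 < h) {ρ : Fin l} {Y : Finset (Fin l)} (hρ : ρ ∈ Y) :
    ∃ n2, dP n2 = ∏ a ∈ Y.erase ρ, (zv a 1 - zv ρ 1) ∧ Dl h (oneY Y) = dP n2 * dP (n1 h ρ Y) := by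
  refine ⟨fun a b => if a ∈ Y ∧ b = ρ then 1 else 0, ?_, ?_⟩
  · simp only [dP, pow_ite, pow_one, pow_zero]
    rw [← Finset.prod_filter]
    refine Finset.prod_nbij' Prod.fst (fun a => (a, ρ)) ?_ ?_ ?_ ?_ ?_ <;>
      simp +contextual [eq_comm]
  · rw [← dP_add, Dl]
    congr 1
    funext a b
    simp only [oneY, n1]
    by_cases e : b = ρ
    · by_cases e' : a ∈ Y <;> simp [e, e', hρ]
      omega
    · by_cases e' : a ∈ Y <;> by_cases e'' : b ∈ Y <;> simp [e, e', e'']

lemma sum_n1 {h : ℕ} (hh : 0 < h) (ρ : Fin l) {Y C : Finset (Fin l)} (hC : C ⊆ Y) :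
    (h : ℤ) * (C.card * C.card - C.card) - (if ρ ∈ C then (C.card : ℤ) - 1 else 0) ≤
      ∑ p ∈ C.offDiag, (n1 h ρ Y p.1 p.2 : ℤ) := by
  have h1 : ∑ p ∈ C.offDiag, (n1 h ρ Y p.1 p.2 : ℤ) =
      ∑ p ∈ C.offDiag, ((h : ℤ) - if p.2 = ρ then 1 else 0) :=
    Finset.sum_congr rfl fun p hp => by
      obtain ⟨a, b, -⟩ := mem_offDiag.1 hp
      rw [n1, if_pos ⟨hC a, hC b⟩]
      split_ifs <;> omega
  have h2 : ((C.offDiag.card : ℕ) : ℤ) = C.card * C.card - C.card := by
    rw [offDiag_card, Nat.cast_sub (Nat.le_mul_self _)]; push_cast; ring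
  have h3 : #{p ∈ C.offDiag | p.2 = ρ} ≤ if ρ ∈ C then (C.erase ρ).card else 0 := by
    split_ifs with e
    · refine Finset.card_le_card_of_injOn Prod.fst (fun p hp => ?_) fun p hp q hq e => ?_
      · obtain ⟨a, b⟩ := mem_filter.1 hp
        obtain ⟨c, -, d⟩ := mem_offDiag.1 a
        exact mem_erase.2 ⟨b ▸ d, c⟩
      · exact Prod.ext e ((mem_filter.1 hp).2.trans (mem_filter.1 hq).2.symm)
    · rw [Nat.le_zero, card_eq_zero, filter_eq_empty_iff]
      exact fun p hp e' => e (e' ▸ (mem_offDiag.1 hp).2.1)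
  rw [h1, sum_sub_distrib, sum_const, nsmul_eq_mul, h2, Finset.sum_boole, mul_comm]
  split_ifs at h3 ⊢ with e
  · rw [card_erase_of_mem e] at h3
    have := card_pos.2 ⟨ρ, e⟩
    omega
  · omega

lemma vertex {h r : ℕ} (hh : 0 < h) (hr : r ≤ l) {ρ : Fin l} (hρ : ρ.1 = 0) (c : Fin l) :
    (∑ p ∈ (univ : Finset (Fin l)).offDiag,
      n1 h ρ (Y0 l r) p.1 p.2 • (Pi.single (min p.1 p.2) 1 : Fin l → ℤ)) c =
      if c.1 < r then 2 * h * (r - 1 - c.1) - (if c = ρ then (r : ℤ) - 1 else 0) else 0 := by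
  have h1 : (∑ p ∈ (univ : Finset (Fin l)).offDiag,
      n1 h ρ (Y0 l r) p.1 p.2 • (Pi.single (min p.1 p.2) 1 : Fin l → ℤ)) c =
      ∑ b ∈ Ioi c, ((n1 h ρ (Y0 l r) c b : ℤ) + n1 h ρ (Y0 l r) b c) := by
    simp only [Finset.sum_apply, Pi.smul_apply, Pi.single_apply]
    simp only [smul_ite, smul_zero, nsmul_eq_mul, mul_one]
    rw [← Finset.sum_filter, sum_add_distrib,
      ← Finset.sum_filter_add_sum_filter_not _ fun p : Fin l × Fin l => p.1 < p.2]
    congr 1
    · refine Finset.sum_nbij' Prod.snd (fun b => (c, b)) ?_ ?_ ?_ ?_ ?_ <;>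
        simp only [mem_filter, mem_offDiag, mem_univ, true_and, mem_Ioi, Prod.forall, Prod.ext_iff]
      · rintro a b ⟨⟨-, e⟩, e'⟩; rwa [e, min_eq_left e'.le]
      · exact fun b hb => ⟨⟨hb.ne, (min_eq_left hb.le).symm⟩, hb⟩
      · rintro a b ⟨⟨-, e⟩, e'⟩; rw [e, min_eq_left e'.le]; simp
      · simp
      · rintro a b ⟨⟨-, e⟩, e'⟩; rw [e, min_eq_left e'.le]
    · refine Finset.sum_nbij' Prod.fst (fun b => (b, c)) ?_ ?_ ?_ ?_ ?_ <;>
        simp only [mem_filter, mem_offDiag, mem_univ, true_and, mem_Ioi, Prod.forall, Prod.ext_iff,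
          not_lt]
      · rintro a b ⟨⟨e0, e⟩, e'⟩; rw [e, min_eq_right e']; exact lt_of_le_of_ne e' (Ne.symm e0)
      · exact fun b hb => ⟨⟨hb.ne', (min_eq_right hb.le).symm⟩, hb.le⟩
      · rintro a b ⟨⟨-, e⟩, e'⟩; rw [e, min_eq_right e']
      · simp
      · rintro a b ⟨⟨-, e⟩, e'⟩; rw [e, min_eq_right e']
  rw [h1]
  by_cases hc : c.1 < r
  · have h2 : ∀ b ∈ Ioi c, ((n1 h ρ (Y0 l r) c b : ℤ) + n1 h ρ (Y0 l r) b c) =
        if b.1 < r then 2 * (h : ℤ) - (if c = ρ then 1 else 0) else 0 := fun b hb => by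
      have : b ≠ ρ := fun e => by have := Fin.lt_def.1 (mem_Ioi.1 hb); rw [e] at this; omega
      simp only [n1, Y0, mem_filter, mem_univ, true_and, hc, and_true, if_neg this]
      split_ifs <;> omega
    have h3 : ((#{b ∈ Ioi c | b.1 < r} : ℕ) : ℤ) = r - 1 - c.1 := by
      have : #{b ∈ Ioi c | b.1 < r} = (Ioo c.1 r).card :=
        Finset.card_nbij' Fin.val (fun b => if e : b < l then ⟨b, e⟩ else c)
          (fun b hb => by simpa using hb)
          (fun b hb => by
            have := mem_Ioo.1 hb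
            simp only [dif_pos (show b < l by omega), coe_filter, mem_Ioi, Set.mem_ofPred_eq]
            exact this)
          (fun b _ => by simp) fun b hb => by
            have := mem_Ioo.1 hb
            simp only [dif_pos (show b < l by omega)]
      rw [this, Nat.card_Ioo]
      omega
    rw [Finset.sum_congr rfl h2, ← Finset.sum_filter, sum_const, nsmul_eq_mul, h3, if_pos hc]
    split_ifs with e
    · rw [e, hρ]; push_cast; ring
    · ring
  · rw [if_neg hc]
    exact Finset.sum_eq_zero fun b _ => by simp [n1, Y0, hc]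

lemma core {h r : ℕ} (hh : 0 < h) (h0 : 0 < r) (hr : r ≤ l) {E : Ds l} {Q : LP l} (hE : LowB E)
    (hQ : act (Dl h (oneY (Y0 l r))) E = Q.coeff)
    (hs : ∀ σ : Equiv.Perm (Fin l), oneY (Y0 l r) ∘ σ = oneY (Y0 l r) →
      ∀ m, Q.coeff (m ∘ σ) = Q.coeff m)
    (h1 : E (fun a => if a.1 < r then 2 * h * a.1 else 0) = 1)
    (h2 : ∀ m, E m ≠ 0 → (∀ a ∉ Y0 l r, m a = 0) ∧ ∑ a, m a = h * (r * r - r))
    (h3 : ∀ m, E m ≠ 0 → (∀ A ⊆ Y0 l r, (h : ℤ) * A.card * (A.card - 1) ≤ ∑ a ∈ A, m a) →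
      m = fun a => if a.1 < r then 2 * (h : ℤ) * a.1 else 0) : evP 1 Q ≠ 0 := by
  set Y := Y0 l r with hY
  let ρ : Fin l := ⟨0, by omega⟩
  have hρ : ρ ∈ Y := by simp [hY, Y0, ρ, h0]
  have hYc : Y.card = r := card_Y0 hr
  have hm : ∀ a, a ∈ Y ↔ a.1 < r := fun a => by simp [hY, Y0]
  obtain ⟨n2, e1, e2⟩ := Dl_split hh hρ
  let μ : Fin l → ℤ := fun c =>
    if c.1 < r then 2 * h * (r - 1) - (if c = ρ then (r : ℤ) - 1 else 0) else 0
  have a1 : ∀ (T : Finset (Fin l)) (σ : Equiv.Perm (Fin l)), ρ ∉ T → Monotone (key ρ T Y ∘ σ) →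
      (∀ a, σ a ∈ Y ↔ a ∈ Y) →
      act (dP (n1 h ρ Y)) (fun m => E (m ∘ σ)) = act Q (cT ρ T (Y.erase ρ)) := by
    intro T σ hT hσ hσ'
    have e3 : oneY Y ∘ σ = oneY Y := funext fun a => by simp [oneY, hσ']
    have e4 : act (dP n2) (act (dP (n1 h ρ Y)) (fun m => E (m ∘ σ)) -
        act Q (cT ρ T (Y.erase ρ))) = 0 := by
      rw [map_sub, ← act_mul, ← act_mul, ← e2, mul_comm, act_mul, e1,
        act_cT _ _ _ (notMem_erase _ _), act_coeff, mul_one]
      funext m
      rw [Pi.sub_apply, ← ren_Dl h σ, act_ren, e3, hQ, hs σ e3, sub_self, Pi.zero_apply]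
    have e5 : LowB fun m => (act (dP (n1 h ρ Y)) (fun m => E (m ∘ σ)) -
        act Q (cT ρ T (Y.erase ρ))) (m ∘ σ.symm) := by
      have := (hE.act (ren σ.symm (dP (n1 h ρ Y)))).sub ((lowB_cT hT hσ).act (ren σ.symm Q))
      have e6 : E = fun m' => (fun m => E (m ∘ σ)) (m' ∘ σ.symm) := by
        funext m'; simp [Function.comp_assoc]
      refine this.imp fun B hB m hm => hB m ?_
      rw [Pi.sub_apply, act_ren, e6, act_ren σ.symm _ (fun m => E (m ∘ σ))]
      exact hm
    have e6 := e5.eq_zero (fun a b => n2 (σ a) (σ b)) (by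
      funext m
      have e7 : (dP fun a b => n2 (σ a) (σ b)) = ren σ.symm (dP n2) := by
        rw [← ren_dP σ n2, ren_ren]; simp
      rw [e7, act_ren, e4]; rfl)
    funext m
    have := congrFun e6 (m ∘ σ)
    simpa [Function.comp_assoc, sub_eq_zero] using this
  have a2 : ∀ (σ : Equiv.Perm (Fin l)) κ, (∀ a, σ a ∈ Y ↔ a ∈ Y) → (dP (n1 h ρ Y)).coeff κ ≠ 0 →
      E ((μ - κ) ∘ σ) ≠ 0 → σ ρ = ρ ∧
        (μ - κ) ∘ σ = fun a => if a.1 < r then 2 * (h : ℤ) * a.1 else 0 := by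
    intro σ κ hσ hκ hE'
    have b1 : ∀ A ⊆ Y, (h : ℤ) * A.card * (A.card - 1) +
        (if ρ ∈ A.map σ.toEmbedding then 0 else A.card) ≤ ∑ a ∈ A, ((μ - κ) ∘ σ) a := by
      intro A hA
      have c1 : A.map σ.toEmbedding ⊆ Y := fun b hb => by
        obtain ⟨a, ha, rfl⟩ := mem_map.1 hb
        exact (hσ a).2 (hA ha)
      have c2 : ∑ a ∈ A, ((μ - κ) ∘ σ) a = ∑ a ∈ A.map σ.toEmbedding, (μ - κ) a := by
        rw [Finset.sum_map]; rfl
      have c3 : ∑ a ∈ Y, (μ - κ) a = h * (r * r - r) := by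
        rw [← (h2 _ hE').2, show ∑ a, ((μ - κ) ∘ σ) a = ∑ a, (μ - κ) a from Equiv.sum_comp σ _]
        refine Finset.sum_subset (subset_univ _) fun b _ hb => ?_
        simpa using (h2 _ hE').1 (σ.symm b) fun h4 => hb (by simpa using (hσ _).2 h4)
      set C := Y \ A.map σ.toEmbedding with hC
      have c4 : C ⊆ Y := sdiff_subset
      have c5 := (sum_n1 hh ρ c4).trans (dP_sub _ C hκ)
      have c6 : ∑ a ∈ C, μ a = C.card * (2 * h * (r - 1)) - if ρ ∈ C then (r : ℤ) - 1 else 0 := by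
        rw [Finset.sum_congr rfl fun a ha => if_pos ((hm a).1 (c4 ha)), sum_sub_distrib, sum_const,
          nsmul_eq_mul, Finset.sum_ite_eq']
      have c7 : (r : ℤ) = C.card + A.card := by
        rw [← hYc, ← card_sdiff_add_card_eq_card c1, card_map]; push_cast; rfl
      have c8 : ρ ∈ C ↔ ρ ∉ A.map σ.toEmbedding := by rw [hC, mem_sdiff, and_iff_right hρ]
      rw [← Finset.sum_sdiff c1, ← hC] at c3
      simp only [Pi.sub_apply, sum_sub_distrib] at c2 c3 ⊢
      rw [c6] at c3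
      rw [c2]
      by_cases e : ρ ∈ A.map σ.toEmbedding
      · rw [if_neg (c8.not_left.2 e)] at c3 c5
        rw [if_pos e, Nat.cast_zero]
        rw [c7] at c3
        nlinarith
      · rw [if_pos (c8.2 e)] at c3 c5
        rw [if_neg e]
        rw [c7] at c3
        nlinarith
    have b2 := h3 _ hE' fun A hA => le_trans (by split_ifs <;> omega) (b1 A hA)
    refine ⟨by_contra fun e => ?_, b2⟩
    have := b1 {ρ} (singleton_subset_iff.2 hρ)
    rw [b2, if_neg (by simpa using Ne.symm e)] at this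
    simp [ρ] at this
  have a3 : evP 1 Q = ∑ T ∈ (Y.erase ρ).powerset, (-1) ^ T.card * act Q (cT ρ T (Y.erase ρ)) μ := by
    simp only [act_apply, Finset.mul_sum]
    rw [evP_one, Finset.sum_comm]
    refine Finset.sum_congr rfl fun s hs' => ?_
    simp only [mul_left_comm _ (Q.coeff s)]
    have b0 := Finsupp.mem_support_iff.1 hs'
    rw [← hQ] at b0
    obtain ⟨t, b1, b2⟩ := exists_of_act b0
    obtain ⟨-, b3, b4⟩ := dP_supp _ b1
    obtain ⟨b5, b6⟩ := h2 _ b2
    rw [← Finset.mul_sum, sum_cT, mul_one]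
    · intro a ha ha'
      have b7 : a ∉ Y := fun e => ha (mem_erase.2 ⟨ha', e⟩)
      have b8 := b4 a fun b => by simp [oneY, b7]
      have b9 := b5 a b7
      simp only [Pi.sub_apply, μ, if_neg (mt (hm a).2 b7)] at b9 ⊢
      omega
    · have b7 : ∑ a, μ a = r * (2 * h * (r - 1)) - (r - 1) := by
        rw [← Finset.sum_subset (subset_univ Y) fun a _ ha => if_neg (mt (hm a).2 ha),
          Finset.sum_congr rfl fun a ha => if_pos ((hm a).1 ha), sum_sub_distrib, sum_const,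
          nsmul_eq_mul, Finset.sum_ite_eq', if_pos hρ, hYc]
      have b8 : ∑ a, t a = h * (r * r - r) := by
        rw [b3, ← Finset.sum_subset (offDiag_mono (subset_univ Y)) fun p hp hp' => ?_,
          Finset.sum_congr rfl (g := fun _ => (h : ℤ)) fun p hp => ?_, sum_const, offDiag_card, hYc,
          nsmul_eq_mul, Nat.cast_sub (Nat.le_mul_self _)]
        · push_cast; ring
        · simp [oneY, (mem_offDiag.1 hp).1, (mem_offDiag.1 hp).2.1]
        · have : p.1 ∉ Y ∨ p.2 ∉ Y := by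
            by_contra e
            push Not at e
            exact hp' (mem_offDiag.2 ⟨e.1, e.2, (mem_offDiag.1 hp).2.2⟩)
          rcases this with e | e <;> simp [oneY, e]
      simp only [Pi.sub_apply, sum_sub_distrib] at b6 ⊢
      rw [card_erase_of_mem hρ, hYc, Nat.cast_sub h0]
      push_cast
      linarith
  have a4 : Monotone (key ρ ∅ Y ∘ (1 : Equiv.Perm (Fin l))) := fun a b hab => by
    have := Fin.le_def.1 hab
    simp only [Function.comp, Equiv.Perm.coe_one, id, key, notMem_empty, if_false, hm, ρ,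
      Fin.ext_iff]
    split_ifs <;> omega
  rw [a3, Finset.sum_eq_single ∅ (fun T hT hne => ?_) (by simp), card_empty, pow_zero, one_mul,
    ← a1 ∅ 1 (notMem_empty _) a4 fun _ => Iff.rfl, act_apply]
  · have b1 := (bot_dP (n1 h ρ Y)).1
    have b2 : ∀ κ, (μ - κ = fun a => if a.1 < r then 2 * (h : ℤ) * a.1 else 0) ↔
        κ = ∑ p ∈ (univ : Finset (Fin l)).offDiag,
          n1 h ρ Y p.1 p.2 • (Pi.single (min p.1 p.2) 1 : Fin l → ℤ) := fun κ => by
      simp only [funext_iff, hY, vertex hh hr (ρ := ρ) rfl, Pi.sub_apply, μ]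
      refine forall_congr' fun c => ?_
      split_ifs <;> constructor <;> intro e <;> linarith
    rw [Finset.sum_eq_single _ (fun κ hκ hne => ?_) fun e => absurd (Finsupp.mem_support_iff.2 b1) e]
    · have : E ((μ - ∑ p ∈ (univ : Finset (Fin l)).offDiag,
          n1 h ρ Y p.1 p.2 • (Pi.single (min p.1 p.2) 1 : Fin l → ℤ)) ∘ (1 : Equiv.Perm (Fin l))) =
          1 := by rw [← h1, ← (b2 _).2 rfl]; rfl
      rwa [this, mul_one]
    · exact mul_eq_zero_of_right _ (by_contra fun e => hne ((b2 κ).1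
        (a2 1 κ (fun _ => Iff.rfl) (Finsupp.mem_support_iff.1 hκ) e).2))
  · have hT' := mem_powerset.1 hT
    have b1 : ρ ∉ T := fun e => notMem_erase _ _ (hT' e)
    obtain ⟨σ, b2, b3⟩ := exists_sort hr hρ (hT'.trans (erase_subset _ _))
    rw [← a1 T σ b1 b2 b3]
    refine mul_eq_zero_of_right _ (by_contra fun e => ?_)
    obtain ⟨κ, b4, b5⟩ := exists_of_act e
    obtain ⟨t, ht⟩ := nonempty_iff_ne_empty.2 hne
    have := b2 (show ρ ≤ σ.symm t from Fin.le_def.2 (Nat.zero_le _))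
    simp [key, (a2 σ κ b3 b4 b5).1, b1, ht] at this

lemma tail_zero {h : ℕ} {X : Sys} {wb : X.Λ → List Cl → ℂ} (A : AxB h X wb) (V : X.Λ)
    (u v : List Cl) (hv : ∀ x ∈ v, x.1 = 0) :
    ((∀ x ∈ v, x.2 = 0) → wb V (u ++ v) = wb V u) ∧ (wb V (u ++ v) ≠ 0 → ∀ x ∈ v, x.2 = 0) := by
  induction v with
  | nil => simp
  | cons x v ih =>
    obtain ⟨i, m⟩ := x
    obtain rfl : i = 0 := hv _ List.mem_cons_self
    have ih' := ih fun y hy => hv y (List.mem_cons_of_mem _ hy)
    by_cases e : m = 0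
    · subst e
      have : wb V (u ++ (0, 0) :: v) = wb V (u ++ v) := A.nil0 V u v
      simpa [this] using ih'
    · simp [A.nil1 V u v m e, e]

end T61N

open T61N in
theorem st_NOP : St_NOP := by
  intro h X wb A l r h0 hr
  obtain ⟨V, h1, h2, h3⟩ := A.oper r h0
  refine ⟨V, h1, fun S hS hN => ?_⟩
  obtain ⟨k, rfl⟩ := Nat.exists_eq_add_of_le hr
  have e1 : ∀ m : Fin (r + k) → ℤ, EE (wb V) (oneY (Y0 (r + k) r)) m =
      wb V ((List.ofFn fun a : Fin r => ((1 : ℕ), m (a.castAdd k))) ++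
        List.ofFn fun a : Fin k => ((0 : ℕ), m (a.natAdd r))) := fun m => by
    rw [EE, ← List.ofFn_fin_append]
    congr 2
    funext a
    refine Fin.addCases (fun a => ?_) (fun a => ?_) a <;> simp [oneY, Y0]
  have e2 : ∀ m : Fin (r + k) → ℤ, ∀ x ∈ List.ofFn fun a : Fin k => ((0 : ℕ), m (a.natAdd r)),
      x.1 = 0 := fun m => List.forall_mem_ofFn_iff.2 fun _ => rfl
  have e3 : ∀ m, EE (wb V) (oneY (Y0 (r + k) r)) m ≠ 0 → (∀ a : Fin k, m (a.natAdd r) = 0) ∧
      wb V (List.ofFn fun a : Fin r => ((1 : ℕ), m (a.castAdd k))) ≠ 0 := fun m hm => by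
    rw [e1] at hm
    have := tail_zero A V (List.ofFn fun a : Fin r => ((1 : ℕ), m (a.castAdd k))) _ (e2 m)
    exact ⟨List.forall_mem_ofFn_iff.1 (this.2 hm), by rwa [← this.1 (this.2 hm)]⟩
  have e4 : (X.cl V).2 = h * (r * r - r) := by
    rw [← A.supp (h2 ▸ one_ne_zero), List.sum_ofFn, Prod.snd_sum, ← Finset.mul_sum,
      Fin.sum_univ_eq_sum_range (fun a => (a : ℤ))]
    have := congrArg (Nat.cast (R := ℤ)) (Finset.sum_range_id_mul_two r)
    push_cast [Nat.cast_sub h0] at this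
    linear_combination (h : ℤ) * this
  refine core A.hpos h0 hr (A.toAxW.lowB_EE V _) (hN _) (fun σ hσ m => ?_) ?_ (fun m hm => ?_)
    fun m hm hA => ?_
  · have := hS.1.2 σ (oneY (Y0 (r + k) r)) m
    rwa [hσ] at this
  · rw [e1, (tail_zero A V _ _ (List.forall_mem_ofFn_iff.2 fun _ => rfl)).1
      (List.forall_mem_ofFn_iff.2 fun a => by simp), ← h2]
    simp
  · refine ⟨fun a => Fin.addCases (fun a ha => absurd (by simp [Y0]) ha)
      (fun a _ => (e3 m hm).1 a) a, ?_⟩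
    rw [← e4, ← A.supp hm, List.sum_ofFn, Prod.snd_sum]
  · have := h3 _ (e3 m hm).2 fun B => by
      have := hA (B.map (Fin.castAddEmb k)) fun b hb => by
        obtain ⟨a, -, rfl⟩ := mem_map.1 hb
        simp [Y0]
      rwa [card_map, Finset.sum_map] at this
    funext a
    refine Fin.addCases (fun a => ?_) (fun a => ?_) a
    · simp [this a]
    · simp [(e3 m hm).1 a]

end Pool.Agent.Lib.CC61
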