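import Pool.Agent.Lib.CC61.AKit

open Finset

noncomputable section

namespace Pool.Agent.Lib.CC61

namespace T33

variable {l : ℕ}

lemma ofFn_split {α : Type*} : ∀ {n : ℕ} (i : Fin n) (g : Fin (n + 1) → α), ∃ u v : List α,
    ∀ f : Fin (n + 1) → α, (∀ c, c ≠ i.castSucc → c ≠ i.succ → f c = g c) →
      List.ofFn f = u ++ [f i.castSucc, f i.succ] ++ v
  | 0, i, _ => i.elim0
  | n + 1, i, g => by
    refine Fin.cases ?_ (fun j => ?_) i
    · refine ⟨[], List.ofFn fun c : Fin n => g c.succ.succ, fun f hf => ?_⟩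
      have : (fun c : Fin n => f c.succ.succ) = fun c => g c.succ.succ :=
        funext fun c => hf _ (Fin.succ_ne_zero _) (by simp [Fin.ext_iff])
      rw [List.ofFn_succ, List.ofFn_succ, this]
      simp
    · obtain ⟨u, v, h⟩ := ofFn_split j fun c => g c.succ
      refine ⟨g 0 :: u, v, fun f hf => ?_⟩
      rw [List.ofFn_succ, h (fun c => f c.succ) fun c h1 h2 => hf _
        (fun e => h1 (by rw [← Fin.succ_castSucc] at e; exact Fin.succ_injective _ e))
        (fun e => h2 (Fin.succ_injective _ e)),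
        hf 0 (by simp [Fin.ext_iff]) (by simp [Fin.ext_iff])]
      rfl

/-- Two variables placed at positions `a`, `b`. -/
def em (a b : Fin l) : LP 2 →ₐ[ℂ] LP l :=
  AddMonoidAlgebra.mapDomainAlgHom ℂ ℂ
    { toFun := fun s : Fin 2 → ℤ => (Pi.single a (s 0) + Pi.single b (s 1) : Fin l → ℤ)
      map_zero' := by simp
      map_add' := fun s t => by simp only [Pi.add_apply, Pi.single_add]; abel }

lemma em_zz (a b : Fin l) (s : Fin 2 → ℤ) :
    em a b (zz s) = zz (Pi.single a (s 0) + Pi.single b (s 1)) := by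
  simp [em, zz]

lemma act_em (a b : Fin l) (P : LP 2) (F : Ds l) (m : Fin l → ℤ) :
    act (em a b P) F m = ∑ s ∈ P.coeff.support,
      P.coeff s * F (m - (Pi.single a (s 0) + Pi.single b (s 1))) := by
  conv_lhs => rw [eq_sum_zz P]
  simp [map_sum, Finset.sum_apply, em_zz]

lemma em_Dl (h : ℕ) (a b : Fin l) (δ : Fin 2 → ℕ) : em a b (Dl h δ) =
    (zv a 1 - zv b 1) ^ (h * min (δ 0) (δ 1)) * (zv b 1 - zv a 1) ^ (h * min (δ 1) (δ 0)) := by
  have e : (univ : Finset (Fin 2)).offDiag = {(0, 1), (1, 0)} := by decide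
  have e0 : em a b (zv 0 1) = zv a 1 := by rw [zv, em_zz]; simp [zv]
  have e1 : em a b (zv 1 1) = zv b 1 := by rw [zv, em_zz]; simp [zv]
  rw [Dl, dP, e, Finset.prod_pair (by decide)]
  simp only [map_mul, map_pow, map_sub, e0, e1]

variable {h : ℕ} {X : Sys} {wb : X.Λ → List Cl → ℂ}

lemma ideal2 (H : AxB h X wb) {ι : Type*} (ν : Cl) (A A' : Finset ι) (c c' : ι → ℂ)
    (w w' : ι → List Cl) (hw : ∀ i ∈ A, (w i).sum = ν) (hw' : ∀ i ∈ A', (w' i).sum = ν)
    (h0 : ∀ W, ∑ i ∈ A, c i * wb W (w i) = ∑ i ∈ A', c' i * wb W (w' i)) (V : X.Λ) (u v : List Cl) :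
    ∑ i ∈ A, c i * wb V (u ++ w i ++ v) = ∑ i ∈ A', c' i * wb V (u ++ w' i ++ v) := by
  set ξ : List Cl →₀ ℂ := ∑ i ∈ A, Finsupp.single (w i) (c i) - ∑ i ∈ A', Finsupp.single (w' i) (c' i)
    with hξ
  have e : ∀ F : List Cl → ℂ, (ξ.sum fun w c => c * F w) =
      ∑ i ∈ A, c i * F (w i) - ∑ i ∈ A', c' i * F (w' i) := fun F => by
    change Finsupp.linearCombination ℂ F ξ = _
    simp [hξ, map_sum]
  have hs : ξ ∈ Finsupp.supported ℂ ℂ {x : List Cl | x.sum = ν} :=
    sub_mem (sum_mem fun i hi => Finsupp.single_mem_supported ℂ _ (hw i hi))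
      (sum_mem fun i hi => Finsupp.single_mem_supported ℂ _ (hw' i hi))
  have := H.ideal ν ξ (fun x hx => hs hx) (fun W => by rw [e, h0 W, sub_self]) V u v
  rw [e fun x => wb V (u ++ x ++ v)] at this
  exact sub_eq_zero.1 this

/-- The numerator as a distribution. -/
def NN (h : ℕ) (e : List Cl → ℂ) (γ : Fin l → ℕ) : Ds l := act (Dl h γ) (EE e γ)

lemma NN_swap (hL : St_LOC) (H : AxB h X wb) (V : X.Λ) {n : ℕ} (i : Fin n) (γ : Fin (n + 1) → ℕ)
    (m : Fin (n + 1) → ℤ) :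
    NN h (wb V) (γ ∘ Equiv.swap i.castSucc i.succ) (m ∘ Equiv.swap i.castSucc i.succ) =
      NN h (wb V) γ m := by
  set a := i.castSucc with ha
  set b := i.succ with hb
  have hab : a ≠ b := (Fin.castSucc_lt_succ (i := i)).ne
  set σ := Equiv.swap a b with hσ
  set τ : Equiv.Perm (Fin 2) := Equiv.swap 0 1 with hτ
  set δ : Fin 2 → ℕ := ![γ a, γ b] with hδ
  have key : ∀ m : Fin (n + 1) → ℤ, act (em a b (Dl h δ)) (EE (wb V) γ) m =
      act (em a b (Dl h (δ ∘ τ))) (EE (wb V) (γ ∘ σ)) (m ∘ σ) := by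
    intro m
    obtain ⟨u, v, huv⟩ := ofFn_split i fun c => ((γ c, m c) : Cl)
    have h1 := ideal2 H (γ a + γ b, m a + m b - dD h δ) (Dl h δ).coeff.support
      (Dl h (δ ∘ τ)).coeff.support (Dl h δ).coeff (Dl h (δ ∘ τ)).coeff
      (fun s => [(γ a, m a - s 0), (γ b, m b - s 1)]) (fun s => [(γ b, m b - s 0), (γ a, m a - s 1)])
      (fun s hs => by
        have := (dP_supp _ (Finsupp.mem_support_iff.1 hs)).2.1
        rw [Fin.sum_univ_two] at this
        have h2 : s 0 + s 1 = dD h δ := this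
        refine Prod.ext (by simp) ?_
        simp only [List.sum_cons, List.sum_nil, add_zero, Prod.snd_add]
        linarith)
      (fun s hs => by
        have := (dP_supp _ (Finsupp.mem_support_iff.1 hs)).2.1
        rw [Fin.sum_univ_two] at this
        have h2 : s 0 + s 1 = dD h (δ ∘ τ) := this
        rw [dD_comp] at h2
        refine Prod.ext (by simp [add_comm]) ?_
        simp only [List.sum_cons, List.sum_nil, add_zero, Prod.snd_add]
        linarith)
      (fun W => by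
        obtain ⟨S, hS, hN⟩ := hL h X wb H W
        have h2 := hS.2 τ δ ![m a, m b]
        rw [← hN, ← hN, act_apply, act_apply] at h2
        simpa [EE, hδ, hτ] using h2.symm) V u v
    rw [act_em, act_em]
    convert h1 using 1
    · refine Finset.sum_congr rfl fun s _ => ?_
      rw [EE, huv _ fun c (h2 : c ≠ a) (h3 : c ≠ b) => by simp [h2, h3]]
      simp [← ha, ← hb, hab, hab.symm]
    · refine Finset.sum_congr rfl fun s _ => ?_
      rw [EE, huv _ fun c (h2 : c ≠ a) (h3 : c ≠ b) => by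
        simp [h2, h3, hσ, Equiv.swap_apply_of_ne_of_ne h2 h3]]
      simp [← ha, ← hb, hab, hab.symm, hσ]
  obtain ⟨Q, hQ⟩ : em a b (Dl h (δ ∘ τ)) ∣ Dl h (γ ∘ σ) := by
    have := Finset.prod_dvd_prod_of_subset ({(a, b), (b, a)} : Finset _) (univ : Finset _).offDiag
      (fun p : Fin (n + 1) × Fin (n + 1) =>
        ((zv p.1 1 - zv p.2 1) ^ (h * min ((γ ∘ σ) p.1) ((γ ∘ σ) p.2)) : LP (n + 1)))
      (by intro p hp; simp only [mem_insert, mem_singleton] at hp
          rcases hp with rfl | rfl <;> simp [hab, hab.symm])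
    rw [Finset.prod_pair (by simp [hab])] at this
    rw [em_Dl]
    simpa [hσ, hτ, hδ, Dl, dP] using this
  have h3 : ren σ (em a b (Dl h (δ ∘ τ))) = em a b (Dl h δ) := by
    rw [em_Dl, em_Dl]
    simp [ren_zv, hσ, hτ, mul_comm]
  have h4 : Dl h γ = ren σ Q * em a b (Dl h δ) := by
    rw [← ren_Dl h σ γ, hQ, map_mul, h3, mul_comm]
  rw [NN, NN, h4, hQ, mul_comm, act_mul, act_mul, ← act_ren, funext key]

lemma NN_perm (hL : St_LOC) (H : AxB h X wb) (V : X.Λ) (σ : Equiv.Perm (Fin l)) (γ : Fin l → ℕ)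
    (m : Fin l → ℤ) : NN h (wb V) (γ ∘ σ) (m ∘ σ) = NN h (wb V) γ m := by
  cases l with
  | zero => rw [Subsingleton.elim σ 1]; rfl
  | succ n =>
    have hσ : σ ∈ Submonoid.closure
        (Set.range fun i : Fin n => Equiv.swap i.castSucc i.succ) := by
      rw [Equiv.Perm.mclosure_swap_castSucc_succ]; trivial
    induction hσ using Submonoid.closure_induction generalizing γ m with
    | mem x hx => obtain ⟨i, rfl⟩ := hx; exact NN_swap hL H V i γ m
    | one => rfl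
    | mul x y _ _ hx hy => exact (hy (γ ∘ x) (m ∘ x)).trans (hx γ m)

lemma NN_supp (H : AxB h X wb) {V : X.Λ} {γ : Fin l → ℕ} {m : Fin l → ℤ}
    (hm : NN h (wb V) γ m ≠ 0) : ∑ a, γ a = (X.cl V).1 ∧ (∀ a, γ a = 0 → m a = 0) ∧
      ∑ a, m a = (X.cl V).2 + dD h γ ∧ ∀ B, X.Box B V → ∀ a : Fin l, a.1 = 0 → -(2 * B) ≤ m a := by
  obtain ⟨s, h1, h2⟩ := exists_of_act hm
  obtain ⟨h3, h4, h5⟩ := dP_supp _ h1
  have h6 := H.supp h2
  rw [List.sum_ofFn] at h6
  have h7 := congrArg Prod.fst h6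
  have h8 := congrArg Prod.snd h6
  simp only [Prod.fst_sum, Prod.snd_sum, Pi.sub_apply, Finset.sum_sub_distrib] at h7 h8
  refine ⟨h7, fun a ha => ?_, ?_, fun B hB a ha => ?_⟩
  · have e1 : s a = 0 := h5 a fun b => by simp [ha]
    obtain ⟨u, v, huv⟩ := List.append_of_mem
      (List.mem_ofFn.2 ⟨a, rfl⟩ : ((γ a, (m - s) a) : Cl) ∈ List.ofFn fun c => ((γ c, (m - s) c) : Cl))
    by_contra h9
    refine h2 ?_
    rw [EE, huv, ha]
    exact H.nil1 V u v _ (by simpa [e1] using h9)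
  · have : ∑ a, s a = dD h γ := h4
    linarith
  · have h9 := H.toAxW.lowB hB (w := fun c => (γ c, (m - s) c)) h2 1
    rw [Finset.sum_eq_single a (fun c hc hca => absurd (Fin.ext (by
      have := (Finset.mem_filter.1 hc).2; omega)) hca) (by simp [ha])] at h9
    have := h3 a
    simp only [Pi.sub_apply] at h9
    linarith

lemma NN_low (hL : St_LOC) (H : AxB h X wb) {V : X.Λ} {B : ℤ} (hB : X.Box B V) {γ : Fin l → ℕ}
    {m : Fin l → ℤ} (hm : NN h (wb V) γ m ≠ 0) (a : Fin l) : -(2 * B) ≤ m a := by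
  rw [← NN_perm hL H V (Equiv.swap ⟨0, a.pos⟩ a)] at hm
  simpa using (NN_supp H hm).2.2.2 B hB ⟨0, a.pos⟩ rfl

lemma fin_box (l h r : ℕ) (d C : ℤ) : {p : (Fin l → ℕ) × (Fin l → ℤ) | ∑ a, p.1 a = r ∧
    (∀ a, -C ≤ p.2 a) ∧ ∑ a, p.2 a = d + dD h p.1}.Finite := by
  refine ((Set.finite_Iic fun _ : Fin l => r).biUnion fun γ _ => (Set.finite_singleton γ).prod
    (Set.finite_Icc (fun _ : Fin l => -C) fun _ => d + dD h γ + l * C - C)).subset ?_
  rintro ⟨γ, m⟩ ⟨h1, h2, h3⟩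
  simp only at h1 h2 h3
  refine Set.mem_biUnion (x := γ) (fun a => ?_) ⟨rfl, h2, fun a => ?_⟩
  · exact h1 ▸ Finset.single_le_sum (fun _ _ => Nat.zero_le _) (Finset.mem_univ a)
  · have := Finset.single_le_sum (f := fun c => m c + C) (fun c _ => by linarith [h2 c])
      (Finset.mem_univ a)
    simp only [Finset.sum_add_distrib, Finset.sum_const, Finset.card_univ, Fintype.card_fin,
      nsmul_eq_mul, h3] at this
    simp only
    linarith

end T33

theorem st_NUM (hL : St_LOC) : St_NUM := by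
  intro h X wb H l
  have key : ∀ {V B}, X.Box B V → ∀ (γ : Fin l → ℕ) m, T33.NN h (wb V) γ m ≠ 0 →
      (γ, m) ∈ (T33.fin_box l h (X.cl V).1 (X.cl V).2 (2 * B)).toFinset := fun hB γ m hm =>
    (Set.Finite.mem_toFinset _).2
      ⟨(T33.NN_supp H hm).1, T33.NN_low hL H hB hm, (T33.NN_supp H hm).2.2.1⟩
  refine ⟨fun V => ?_, fun ν B => ⟨(T33.fin_box l h ν.1 ν.2 (2 * B)).toFinset, ?_⟩⟩
  · obtain ⟨B, hB⟩ := H.box_ex V
    have hf : ∀ γ : Fin l → ℕ, (Function.support (T33.NN h (wb V) γ)).Finite := fun γ =>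
      ((T33.fin_box l h (X.cl V).1 (X.cl V).2 (2 * B)).image Prod.snd).subset fun m hm =>
        ⟨(γ, m), (Set.Finite.mem_toFinset _).1 (key hB γ m hm), rfl⟩
    refine ⟨fun γ => AddMonoidAlgebra.ofCoeff (Finsupp.ofSupportFinite _ (hf γ)),
      ⟨⟨fun γ m hm => ?_, fun σ γ m => T33.NN_perm hL H V σ γ m⟩, fun γ m hm => ?_⟩, fun γ => rfl⟩
    · exact ⟨(T33.NN_supp H hm).1, (T33.NN_supp H hm).2.1⟩
    · exact (T33.NN_supp H hm).2.2.1
  · rintro V S rfl hB hS γ m hm
    exact key hB γ m (by rwa [T33.NN, hS γ])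

end Pool.Agent.Lib.CC61
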