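import Pool.Agent.Lib.CC61.GBlue
import Pool.Agent.Lib.CC61.GKit2

open Filter Set Module WithZero

noncomputable section

namespace Pool.Agent.Lib.CC61

open Pool.Agent.Lib.MP_cc3443_ag

variable {K : Type} [Field K]

namespace T43

/-- Coordinates indexed by natural numbers. -/
def co (r k : ℕ) : (Fin r → K) →ₗ[K] K := if h : k < r then LinearMap.proj ⟨k, h⟩ else 0

/-- The previous coordinate. -/
def pv (r : ℕ) : ℕ → (Fin r → K) →ₗ[K] K
  | 0 => 0
  | k + 1 => co r k

theorem co_apply {r k : ℕ} (h : k < r) (w : Fin r → K) : co r k w = w ⟨k, h⟩ := by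
  simp [co, h]

theorem co_mk {r k : ℕ} (h : k < r) (f : ℕ → K) : co r k (fun i : Fin r => f i) = f k :=
  co_apply h _

/-- Vanishing of the first coordinates. -/
def low (r k : ℕ) : Submodule K (Fin r → K) := ⨅ j < k, LinearMap.ker (co r j)

theorem mem_low {r k : ℕ} {w : Fin r → K} : w ∈ low r k ↔ ∀ j < k, co r j w = 0 := by
  simp [low]

theorem pv_low {r k : ℕ} {w : Fin r → K} (h : w ∈ low r k) : pv r k w = 0 := by
  rcases k with _ | k
  · rfl
  · exact mem_low.1 h k (by omega)

theorem low_succ (r k : ℕ) : (low r k ⊓ LinearMap.ker ((co r k).smulRight (1 : Fin 1 → K)) :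
    Submodule K (Fin r → K)) = low r (k + 1) := by
  ext w
  simp only [Submodule.mem_inf, mem_low, LinearMap.mem_ker, LinearMap.smulRight_apply,
    smul_eq_zero, or_iff_left (one_ne_zero (α := Fin 1 → K)), Nat.lt_succ_iff_lt_or_eq, or_imp,
    forall_and, forall_eq]

variable [Algebra ℂ K] [Algebra (RatFunc ℂ) K]
  [IsScalarTower ℂ (RatFunc ℂ) K] [FiniteDimensional (RatFunc ℂ) K]

theorem exists_lat {r : ℕ} (T : Place K → (Fin r → K) →ₗ[K] (Fin r → K))
    (h1 : ∀ x, Function.Injective (T x)) (h2 : ∀ᶠ x in cofinite, T x = LinearMap.id) :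
    ∃ V : Lat K r, V.gen = ⊤ ∧ ∀ x w, w ∈ V.S x ↔ ∀ i, T x w i ∈ x.O := by
  let e := fun x => LinearEquiv.ofInjectiveEndo (T x) (h1 x)
  have he : ∀ x w, e x w = T x w := fun _ _ => rfl
  refine ⟨(Lat.free fun i : Fin r => (Pi.single i 1 : Fin r → K)).mapF
    (fun x => (e x).symm.toLinearMap) LinearMap.id (h2.mono fun x hx => ?_) fun x => ?_, ?_,
    fun x w => ?_⟩
  · refine LinearMap.ext fun w => (e x).injective ?_
    rw [LinearEquiv.coe_coe, LinearEquiv.apply_symm_apply, he, hx]
    rfl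
  · rw [Lat.free_gen, span_single_top, Submodule.map_top, Submodule.map_top, LinearEquiv.range,
      LinearMap.range_id]
  · rw [Lat.mapF, Lat.mk'_gen, Lat.free_gen, span_single_top, Submodule.map_id]
  · rw [Lat.mem_mapF, ← mem_free_single, ← he]
    constructor
    · rintro ⟨v, hv, rfl⟩
      simpa using hv
    · exact fun hw => ⟨_, hw, by simp⟩

theorem exists_oper_lat (r : ℕ) (A : Place K →₀ ℤ) (c : Place K → K)
    (hc : ∀ᶠ x in cofinite, c x = 0) : ∃ V : Lat K r, V.gen = ⊤ ∧ ∀ x w, w ∈ V.S x ↔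
      ∀ k < r, x.val (co r k w - c x * pv r k w) ≤ exp (k * A x) := by
  refine (exists_lat (fun x : Place K => LinearMap.pi fun i : Fin r =>
    x.unif ^ ((i : ℕ) * A x) • (co r i - c x • pv r i)) (fun x => ?_) ?_).imp
    fun V ⟨h1, h2⟩ => ⟨h1, fun x w => ?_⟩
  rotate_right
  · simp only [h2, LinearMap.pi_apply, LinearMap.smul_apply, LinearMap.sub_apply, smul_eq_mul,
      x.zpow_mul_mem_iff]
    exact ⟨fun h k hk => h ⟨k, hk⟩, fun h i => h i i.2⟩
  · rw [injective_iff_map_eq_zero]
    intro w hw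
    have h1 : ∀ k < r, co r k w = c x * pv r k w := fun k hk => by
      simpa [zpow_ne_zero _ x.unif_ne_zero, sub_eq_zero] using congrFun hw ⟨k, hk⟩
    have h2 : ∀ k ≤ r, pv r k w = 0 := by
      intro k
      induction k with
      | zero => exact fun _ => rfl
      | succ k ih => intro hk; rw [pv, h1 k hk, ih (by omega), mul_zero]
    funext i
    exact (co_apply i.2 w).symm.trans (h2 (i + 1) i.2)
  · have h3 : ∀ᶠ x in cofinite, A x = 0 := A.hasFiniteSupport.subset fun x hx => hx
    refine (hc.and h3).mono fun x hx => LinearMap.ext fun w => funext fun i => ?_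
    simp [hx.1, hx.2, co_apply i.2]

end T43

variable [Algebra ℂ K] [Algebra (RatFunc ℂ) K]
  [IsScalarTower ℂ (RatFunc ℂ) K] [FiniteDimensional (RatFunc ℂ) K]

open T43 in
variable (K) in
theorem st_OPER1 : St_OPER1 K := by
  classical
  intro h hχ r
  obtain ⟨A, P, hA, hP⟩ := exists_special (K := K) (k := 2 * h) (by omega)
  obtain ⟨c, hc⟩ : ∃ c : Place K → K, c = fun x => if x = P then x.unif ^ (-(A x + 1)) else 0 :=
    ⟨_, rfl⟩
  obtain ⟨V, h1, h2⟩ := exists_oper_lat r A c (hc ▸
    (Set.finite_singleton P).subset fun x hx => by_contra fun h => hx (if_neg h))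
  have h3 : ∀ k, (V.restrict (low r k)).gen = low r k := fun k => by
    rw [Lat.gen_restrict, h1, top_inf_eq]
  have h4 : ∀ k, (V.restrict (low r k)).restrict
      (LinearMap.ker ((co r k).smulRight (1 : Fin 1 → K))) = V.restrict (low r (k + 1)) :=
    fun k => by rw [restrict_restrict, low_succ]
  have h5 : ∀ k < r, (V.restrict (low r k)).mapL ((co r k).smulRight (1 : Fin 1 → K)) =
      line 1 ((k : ℤ) • A) := fun k hk => Lat.ext' fun x => by
    ext w
    rw [Lat.mem_mapL, mem_line]
    constructor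
    · rintro ⟨v, hv, rfl⟩
      obtain ⟨a, b⟩ := Lat.mem_restrict.1 hv
      exact ⟨_, by simpa [pv_low b] using (h2 x v).1 a k hk, rfl⟩
    · rintro ⟨z, hz, rfl⟩
      let f : ℕ → K := fun j => if j < k then 0 else c x ^ (j - k) * z
      have b : (fun i : Fin r => f i) ∈ low r k := mem_low.2 fun j hj => by
        rw [co_mk (by omega)]; exact if_pos hj
      have e : co r k (fun i : Fin r => f i) = z := by rw [co_mk hk]; simp [f]
      refine ⟨fun i => f i, Lat.mem_restrict.2 ⟨(h2 x _).2 fun j hj => ?_, b⟩, by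
        rw [LinearMap.smulRight_apply, e]⟩
      rcases lt_trichotomy j k with a | rfl | a
      · rw [mem_low.1 b j a, pv_low (mem_low.2 fun i hi => mem_low.1 b i (hi.trans a))]
        simp
      · simpa [e, pv_low b] using hz
      · obtain ⟨d, rfl⟩ := Nat.exists_eq_add_of_lt a
        rw [pv, co_mk hj, co_mk (by omega)]
        simp [f, add_assoc, pow_succ', mul_assoc]
  have h6 : ∀ k : ℕ, ((k : ℤ) • A).degree = 2 * (h : ℤ) * k := fun k => by
    rw [map_zsmul, hA, smul_eq_mul, mul_comm]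
  refine ⟨r, fun k => V.restrict (low r k), Lat.eq_bot_of_gen ?_, fun k hk => ⟨?_, ?_⟩,
    fun k hk M a b d e => ?_⟩
  · rw [h3, eq_bot_iff]
    intro w hw
    funext i
    exact (co_apply i.2 w).symm.trans (mem_low.1 hw i i.2)
  · rw [hasClass_iff_dg, rk_exact _ ((co r k).smulRight (1 : Fin 1 → K)),
      dg_exact _ ((co r k).smulRight (1 : Fin 1 → K)), h5 k hk, rk_line one_ne_zero,
      dg_line one_ne_zero, h6, h4]
    exact ⟨h4 k ▸ Lat.restrict_le _ _, rfl, rfl⟩
  · rw [← h4]
    exact sat_restrict _ _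
  · simp only [h3] at a b d e ⊢
    have h7 : M.restrict (LinearMap.ker ((co r k).smulRight (1 : Fin 1 → K))) =
        V.restrict (low r (k + 2)) := by
      rw [← d, ← low_succ, ← restrict_restrict,
        restrict_eq_self (W := low r k) (h3 k ▸ Lat.gen_mono b)]
    have h8 := rk_exact M ((co r k).smulRight (1 : Fin 1 → K))
    have h9 := dg_exact M ((co r k).smulRight (1 : Fin 1 → K))
    have h10 := mapL_mono b ((co r k).smulRight (1 : Fin 1 → K))
    rw [h7] at h8 h9
    rw [h5 k (by omega)] at h10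
    by_contra! h11
    have h12 := eq_of_dg h10 (by rw [rk_line one_ne_zero]; omega)
      (by rw [dg_line one_ne_zero, h6]; omega)
    have h13 : ∀ x : Place K, ∃ w ∈ M.S x, co r k w = x.unif ^ (-(k * A x)) := fun x => by
      have : x.unif ^ (-(k * A x)) • (1 : Fin 1 → K) ∈ (line 1 ((k : ℤ) • A)).S x := by
        rw [smul_mem_line one_ne_zero, x.val_unif_zpow, neg_neg]; simp
      obtain ⟨w, hw, e⟩ := Lat.mem_mapL.1 (h12 ▸ this)
      exact ⟨w, hw, smul_left_injective K one_ne_zero e⟩
    obtain ⟨s, hs, hs'⟩ : ∃ s ∈ M.gen, co r k s = 1 := by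
      obtain ⟨w, hw, e⟩ := h13 P
      exact ⟨P.unif ^ (k * A P) • w, M.gen.smul_mem _ (Lat.mem_gen hw), by
        simp [e, zpow_ne_zero _ P.unif_ne_zero]⟩
    have h14 : ∀ w ∈ M.gen, co r (k + 1) w = co r k w * co r (k + 1) s := fun w hw => by
      have : w - co r k w • s ∈ (M.restrict
          (LinearMap.ker ((co r k).smulRight (1 : Fin 1 → K)))).gen :=
        ⟨sub_mem hw (M.gen.smul_mem _ hs), by simp [hs']⟩
      rw [h7, h3] at this
      simpa [sub_eq_zero] using mem_low.1 this (k + 1) (by omega)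
    have h15 : ∀ x : Place K, x.val (co r (k + 1) s - c x) ≤ exp (A x) := fun x => by
      obtain ⟨w, hw, e⟩ := h13 x
      have := (h2 x w).1 (Lat.mem_restrict.1 (b x hw)).1 (k + 1) hk
      rw [pv, h14 w (Lat.mem_gen hw), e, mul_comm (c x), ← mul_sub, x.val_zpow_mul_le] at this
      convert this using 2
      push_cast
      ring
    refine hP (co r (k + 1) s) (fun x hx => by simpa [hc, hx] using h15 x) ?_
    have h16 := h15 P
    simp only [hc, if_true] at h16
    have h17 : P.val (P.unif ^ (-(A P + 1))) = exp (A P + 1) := by rw [P.val_unif_zpow, neg_neg]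
    rw [← sub_add_cancel (co r (k + 1) s) (P.unif ^ (-(A P + 1))),
      P.val.map_add_eq_of_lt_right, h17]
    rw [h17]
    exact h16.trans_lt (exp_lt_exp.2 (by omega))

end Pool.Agent.Lib.CC61
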