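import Pool.Agent.Lib.CC61.GBlue
import Pool.Agent.Lib.CC61.GKit1
import Pool.Agent.Lib.CC61.GKit2

open Filter Set Module

noncomputable section

namespace Pool.Agent.Lib.CC61

open Pool.Agent.Lib.MP_cc3443_ag

variable {K : Type} [Field K] [Algebra ℂ K] [Algebra (RatFunc ℂ) K]
  [IsScalarTower ℂ (RatFunc ℂ) K] [FiniteDimensional (RatFunc ℂ) K] {N : ℕ}

namespace T43

/-- Flags of subbundles with line bundle quotients. -/
def IsFl (r : ℕ) (m : ℕ → ℤ) (M : ℕ → Lat K N) : Prop :=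
  ∀ k < r, HasClass (M k) (M (k + 1)) (1, m k) ∧ Sat (M k) (M (k + 1))

omit [IsScalarTower ℂ (RatFunc ℂ) K] [FiniteDimensional (RatFunc ℂ) K] in
theorem IsFl.cons {r : ℕ} {m : ℕ → ℤ} {M : ℕ → Lat K N} {E : Lat K N}
    (h : IsFl r (fun k => m (k + 1)) M) (h0 : HasClass E (M 0) (1, m 0) ∧ Sat E (M 0)) :
    IsFl (r + 1) m fun k => Nat.casesOn k E M := by
  rintro (_ | k) hk
  · exact h0
  · exact h k (by omega)

theorem exists_fl (r : ℕ) : ∀ (m : ℕ → ℤ) (E F : Lat K N),
    word bFn (List.ofFn fun a : Fin r => ((1 : ℕ), m a)) N E F ≠ 0 →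
    ∃ M, IsFl r m M ∧ M 0 = E ∧ M r = F := by
  induction r with
  | zero =>
    intro m E F h
    exact ⟨fun _ => E, fun k hk => by omega, rfl, eq_of_torsFn h⟩
  | succ r ih =>
    intro m E F h
    rw [List.ofFn_succ] at h
    obtain ⟨G, h1, h2⟩ := Nice.exists_of_hall h
    obtain ⟨M, h3, rfl, h4⟩ := ih (fun k => m (k + 1)) G F h2
    exact ⟨_, h3.cons (of_ind_ne_zero h1), rfl, h4⟩

theorem word_eq_one (hb : ∀ ν, Nice ν (bFn ν : Fn K)) (r : ℕ) : ∀ (m : ℕ → ℤ) (Fl : ℕ → Lat K N),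
    IsFl r m Fl → (∀ M, IsFl r m M → M 0 = Fl 0 → M r = Fl r → ∀ k ≤ r, M k = Fl k) →
    word bFn (List.ofFn fun a : Fin r => ((1 : ℕ), m a)) N (Fl 0) (Fl r) = 1 := by
  induction r with
  | zero => exact fun m Fl _ _ => torsFn_self _
  | succ r ih =>
    intro m Fl h hu
    have h0 := h 0 (by omega)
    have h1 := ih (fun k => m (k + 1)) (fun k => Fl (k + 1)) (fun k hk => h (k + 1) (by omega))
      fun M h2 h3 h4 k hk => hu _ (h2.cons (h3 ▸ h0)) rfl h4 (k + 1) (by omega)
    have h2 := nice_word hb (List.ofFn fun a : Fin r => ((1 : ℕ), m (a + 1)))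
    rw [List.ofFn_succ]
    refine ((hb _).hall_single h2 (hasClass_iff.1 h0.1).1 (h2.supp (h1 ▸ one_ne_zero))
      fun G h3 h4 => ?_).trans ?_
    · obtain ⟨M, h5, rfl, h6⟩ := exists_fl r (fun k => m (k + 1)) G _ h4
      exact hu _ (h5.cons (of_ind_ne_zero h3)) rfl h6 1 (by omega)
    · rw [h1, mul_one]
      exact ind_true h0

theorem card_bound (A : Finset ℕ) : (A.card : ℤ) * (A.card - 1) ≤ ∑ a ∈ A, 2 * (a : ℤ) := by
  induction A using Finset.induction_on_max with
  | empty => simp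
  | insert a s ha ih =>
    have h1 : a ∉ s := fun h => lt_irrefl _ (ha a h)
    have h2 : s.card ≤ a := by
      simpa using Finset.card_le_card fun b hb => Finset.mem_range.2 (ha b hb)
    rw [Finset.card_insert_of_notMem h1, Finset.sum_insert h1]
    push_cast
    have h3 : (s.card : ℤ) ≤ a := by exact_mod_cast h2
    linarith

end T43

open T43 in
variable (K) in
theorem st_OPER3 (hL : St_LET K) (h1 : St_OPER1 K) (h2 : St_OPER2 K) : St_OPER3 K := by
  intro h hχ r _
  obtain ⟨N, Fl, hO⟩ := h1 h hχ r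
  have h3 : ∀ k ≤ r, rk (Fl 0) = rk (Fl k) + k := by
    intro k
    induction k with
    | zero => simp
    | succ k ih =>
      intro hk
      have := (hasClass_iff.1 (hO.cls k hk).1).2.1
      have := ih (by omega)
      simp only at *
      omega
  refine ⟨N, Fl 0, by simpa [hO.bot] using h3 r le_rfl, ?_, fun m hm hA a => ?_⟩
  · rw [← hO.bot]
    refine word_eq_one hL.1 r (fun k => 2 * (h : ℤ) * k) Fl hO.cls fun M a b c =>
      h2 h r N Fl M _ hO b (c.trans hO.bot) a fun A _ => ?_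
    have := mul_le_mul_of_nonneg_left (card_bound A) (Int.natCast_nonneg h)
    rw [Finset.mul_sum] at this
    rw [mul_assoc]
    exact this.trans (Finset.sum_le_sum fun a _ => le_of_eq (by ring))
  · let m' : ℕ → ℤ := fun k => if hk : k < r then m ⟨k, hk⟩ else 0
    have e : ∀ a : Fin r, m' a = m a := fun a => dif_pos a.2
    obtain ⟨M, b, c, d⟩ := exists_fl r m' (Fl 0) ⊥ (by simpa only [e] using hm)
    have h4 := h2 h r N Fl M m' hO c d b fun A hA' => by
      have h5 := hA (A.attachFin fun k hk => Finset.mem_range.1 (hA' hk))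
      rw [Finset.card_attachFin] at h5
      refine h5.trans (le_of_eq ?_)
      refine Finset.sum_bij (fun k _ => (k : ℕ)) (fun k hk => (Finset.mem_attachFin _).1 hk)
        (fun _ _ _ _ => Fin.ext) (fun k hk => ⟨⟨k, Finset.mem_range.1 (hA' hk)⟩,
          (Finset.mem_attachFin _).2 hk, rfl⟩) fun k _ => (e k).symm
    have h5 := (hasClass_iff_dg.1 (b a a.2).1).2.2
    have h6 := (hasClass_iff_dg.1 (hO.cls a a.2).1).2.2
    rw [h4 a a.2.le, h4 (a + 1) a.2, e] at h5
    simp only at h5 h6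
    omega

end Pool.Agent.Lib.CC61
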