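import Pool.Agent.Lib.CC61.ABlue

noncomputable section

namespace Pool.Agent.Lib.CC61

theorem st_PLUS (hA : St_AXN) (hS : St_SURJ) (hK : St_KER) : St_PLUS := by
  intro h X wb hB ν hν
  obtain ⟨S, h1, h2⟩ := hA h X wb hB ν.1
  have h3 := fun (φ : X.Λ →₀ ℂ) (hφ : φ ∈ Finsupp.supported ℂ ℂ {V | X.cl V = ν}) =>
    hK h X wb hB _ S h1 h2.adm φ fun V hV =>
      (congrArg Prod.fst ((Finsupp.mem_supported _ _).1 hφ hV)).le
  let D : Submodule ℂ (X.Λ →₀ ℂ) :=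
    Finsupp.supported ℂ ℂ {V | X.cl V = ν} ⊓ Pos.comap (Finsupp.linearCombination ℂ wb)
  let f := (Finsupp.linearCombination ℂ wb).domRestrict D
  let g := (Finsupp.linearCombination ℂ S).domRestrict D
  have e1 : f.ker = g.ker := Submodule.ext fun φ => (h3 φ.1 φ.2.1).1.symm
  have e2 : f.range = RR X wb ν ⊓ Pos := by
    refine le_antisymm ?_ fun e he => ?_
    · rintro _ ⟨φ, rfl⟩
      exact ⟨(Finsupp.mem_span_image_iff_linearCombination ℂ).2 ⟨φ.1, φ.2.1, rfl⟩, φ.2.2⟩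
    · obtain ⟨φ, h4, rfl⟩ := (Finsupp.mem_span_image_iff_linearCombination ℂ).1 he.1
      exact ⟨⟨φ, h4, he.2⟩, rfl⟩
  have e3 : g.range = Adm ν.1 h ν ⊓ PosF ν.1 := by
    rw [← (hS _ h X S h2 ν hν le_rfl).1]
    refine le_antisymm ?_ fun e he => ?_
    · rintro _ ⟨φ, rfl⟩
      exact ⟨(Finsupp.mem_span_image_iff_linearCombination ℂ).2 ⟨φ.1, φ.2.1, rfl⟩,
        (h3 φ.1 φ.2.1).2.2 φ.2.2⟩
    · obtain ⟨φ, h4, rfl⟩ := (Finsupp.mem_span_image_iff_linearCombination ℂ).1 he.1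
      exact ⟨⟨φ, h4, (h3 φ h4).2.1 he.2⟩, rfl⟩
  exact ⟨(LinearEquiv.ofEq _ _ e2.symm).trans <| f.quotKerEquivRange.symm.trans <|
    (Submodule.quotEquivOfEq _ _ e1).trans <| g.quotKerEquivRange.trans (LinearEquiv.ofEq _ _ e3)⟩

end Pool.Agent.Lib.CC61
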