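import Pool.Agent.Lib.CC61.T59k

open Finset
open scoped TensorProduct

noncomputable section

namespace Pool.Agent.Lib.CC61

namespace T59

section Newton

variable {A : Type} [Ring A] [Algebra ℂ A]

/-- The Newton relation. -/
def Nw (s ψ : ℕ → A) : Prop :=
  ∀ k : ℕ, ((k : ℂ) + 1) • s (k + 1) = ∑ p ∈ antidiagonal k, s p.1 * ψ p.2

omit [Algebra ℂ A] in
theorem sum_anti (f : ℕ → ℕ → A) (k : ℕ) :
    ∑ p ∈ antidiagonal k, f p.1 p.2 = ∑ j ∈ range (k + 1), f (k - j) j := by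
  rw [← Finset.Nat.sum_antidiagonal_swap]
  exact Finset.Nat.sum_antidiagonal_eq_sum_range_succ (fun j i => f i j) k

theorem Nw.step {s ψ : ℕ → A} (h : Nw s ψ) (h0 : s 0 = 1) (k : ℕ) :
    ((k : ℂ) + 1) • s (k + 1) = ψ k + ∑ j ∈ range k, s (k - j) * ψ j := by
  rw [h k, sum_anti (fun i j => s i * ψ j), sum_range_succ, add_comm]
  simp [h0]

theorem Nw.unique {s ψ ψ' : ℕ → A} (h : Nw s ψ) (h' : Nw s ψ') (h0 : s 0 = 1) (k : ℕ) :
    ψ k = ψ' k := by
  induction k using Nat.strong_induction_on with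
  | _ k ih =>
    have := (h.step h0 k).symm.trans (h'.step h0 k)
    rwa [sum_congr rfl fun j hj => by rw [ih j (mem_range.1 hj)], add_left_inj] at this

/-- The Newton sequence. -/
def psi (s : ℕ → A) (k : ℕ) : A := ((k : ℂ) + 1) • s (k + 1) - ∑ j : Fin k, s (k - j) * psi s j

theorem nw_psi {s : ℕ → A} (h0 : s 0 = 1) : Nw s (psi s) := by
  intro k
  rw [sum_anti (fun i j => s i * psi s j), sum_range_succ, psi, Fin.sum_univ_eq_sum_range
    (fun j => s (k - j) * psi s j)]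
  simp [h0]

theorem Nw.map {B : Type} [Ring B] [Algebra ℂ B] (f : A →ₐ[ℂ] B) {s ψ : ℕ → A} (h : Nw s ψ) :
    Nw (fun k => f (s k)) fun k => f (ψ k) := fun k => by
  simpa [map_sum] using congrArg f (h k)

theorem Nw.mul {s ψ t χ : ℕ → A} (h : Nw s ψ) (h' : Nw t χ) (hc : ∀ i j, ψ i * t j = t j * ψ i) :
    Nw (fun k => ∑ p ∈ antidiagonal k, s p.1 * t p.2) fun k => ψ k + χ k := by
  intro k
  have e1 : PowerSeries.mk (fun k : ℕ => ((k : ℂ) + 1) • s (k + 1)) =
      PowerSeries.mk s * PowerSeries.mk ψ := by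
    ext k
    simpa [PowerSeries.coeff_mul] using h k
  have e2 : PowerSeries.mk (fun k : ℕ => ((k : ℂ) + 1) • t (k + 1)) =
      PowerSeries.mk t * PowerSeries.mk χ := by
    ext k
    simpa [PowerSeries.coeff_mul] using h' k
  have e3 : PowerSeries.mk ψ * PowerSeries.mk t = PowerSeries.mk t * PowerSeries.mk ψ := by
    ext k
    rw [PowerSeries.coeff_mul, PowerSeries.coeff_mul, ← Finset.Nat.sum_antidiagonal_swap]
    simp [hc]
  have e4 : PowerSeries.mk s * PowerSeries.mk t * (PowerSeries.mk ψ + PowerSeries.mk χ) =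
      PowerSeries.mk (fun k : ℕ => ((k : ℂ) + 1) • s (k + 1)) * PowerSeries.mk t +
      PowerSeries.mk s * PowerSeries.mk (fun k : ℕ => ((k : ℂ) + 1) • t (k + 1)) := by
    rw [e1, e2, mul_add, mul_assoc, ← e3, mul_assoc, mul_assoc]
  have e5 := congrArg (PowerSeries.coeff k) e4
  simp only [PowerSeries.coeff_mul, map_add, PowerSeries.coeff_mk] at e5
  rw [e5, smul_sum]
  have e6 : ∀ p ∈ antidiagonal (k + 1), ((k : ℂ) + 1) • (s p.1 * t p.2) =
      ((p.1 : ℂ) • s p.1) * t p.2 + s p.1 * ((p.2 : ℂ) • t p.2) := by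
    intro p hp
    rw [smul_mul_assoc, mul_smul_comm, ← add_smul, ← Nat.cast_add,
      HasAntidiagonal.mem_antidiagonal.1 hp, Nat.cast_succ]
  rw [sum_congr rfl e6, sum_add_distrib, Finset.Nat.sum_antidiagonal_succ,
    Finset.Nat.sum_antidiagonal_succ' (f := fun p => s p.1 * ((p.2 : ℂ) • t p.2))]
  simp

variable {s ψ : ℕ → A} (W : ℕ → Submodule ℂ A)

theorem Nw.mem_psi (h : Nw s ψ) (h0 : s 0 = 1)
    (hW : ∀ a b x y, x ∈ W a → y ∈ W b → x * y ∈ W (a + b)) (hs : ∀ k, s (k + 1) ∈ W (k + 1))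
    (k : ℕ) : ψ k ∈ W (k + 1) := by
  induction k using Nat.strong_induction_on with
  | _ k ih =>
    rw [← sub_eq_iff_eq_add.2 (h.step h0 k)]
    refine sub_mem (Submodule.smul_mem _ _ (hs k)) (sum_mem fun j hj => ?_)
    have hj := mem_range.1 hj
    obtain ⟨i, rfl⟩ : ∃ i, k = i + 1 + j := ⟨k - j - 1, by omega⟩
    rw [Nat.add_sub_cancel]
    exact hW (i + 1) (j + 1) _ _ (hs i) (ih j hj)

theorem Nw.mem_s (h : Nw s ψ) (h0 : s 0 = 1)
    (hW : ∀ a b x y, x ∈ W a → y ∈ W b → x * y ∈ W (a + b)) (hψ : ∀ k, ψ k ∈ W (k + 1))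
    (k : ℕ) : s (k + 1) ∈ W (k + 1) := by
  induction k using Nat.strong_induction_on with
  | _ k ih =>
    have hk : ((k : ℂ) + 1) ≠ 0 := by exact_mod_cast k.succ_ne_zero
    rw [← Submodule.smul_mem_iff _ hk, h.step h0 k]
    refine add_mem (hψ k) (sum_mem fun j hj => ?_)
    have hj := mem_range.1 hj
    obtain ⟨i, rfl⟩ : ∃ i, k = i + 1 + j := ⟨k - j - 1, by omega⟩
    rw [Nat.add_sub_cancel]
    exact hW (i + 1) (j + 1) _ _ (ih i (by omega)) (hψ j)

end Newton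

/-- Primitive classes. -/
def Prm (β : Cl) : Prop := Int.gcd β.1 β.2 = 1 ∧ Val β

theorem Prm.ne {β : Cl} (h : Prm β) : β ≠ 0 := by
  rintro rfl
  simp [Prm] at h

theorem Val.nsmul {β : Cl} (h : Val β) (k : ℕ) : Val (k • β) := by
  induction k with
  | zero => simp [Val]
  | succ k ih => rw [succ_nsmul]; exact Val.add ih h

theorem exists_prm {ν : Cl} (h0 : ν ≠ 0) (h : Val ν) : ∃ k β, Prm β ∧ ν = (k + 1) • β := by
  obtain ⟨r, d⟩ := ν
  have hg : 0 < Int.gcd r d := Int.gcd_pos_iff.2 (by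
    simp only [Ne, Prod.ext_iff, Prod.fst_zero, Prod.snd_zero] at h0
    omega)
  obtain ⟨p, q, h1, h2, h3⟩ := Int.exists_gcd_one hg
  obtain ⟨k, hk⟩ : ∃ k, Int.gcd r d = k + 1 := ⟨_, (Nat.succ_pred_eq_of_pos hg).symm⟩
  rw [hk] at h2 h3
  push_cast at h2 h3
  have hp : 0 ≤ p := by nlinarith [Int.natCast_nonneg r, Int.natCast_nonneg k]
  lift p to ℕ using hp
  refine ⟨k, (p, q), ⟨h1, ?_⟩, Prod.ext ?_ ?_⟩
  · simp only [Val] at h ⊢
    rcases h with h | h
    · refine .inl (Nat.pos_of_ne_zero ?_)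
      rintro rfl
      omega
    · exact .inr (by nlinarith [Int.natCast_nonneg k])
  · have : (r : ℤ) = ((k + 1) * p : ℕ) := by push_cast; linarith
    simpa using Int.natCast_inj.1 this
  · simp only [Prod.smul_mk, nsmul_eq_mul]
    push_cast
    linarith

theorem ns1 (j : ℕ) (β : Cl) : (j • β).1 = j * β.1 := rfl

theorem ns2 (j : ℕ) (β : Cl) : (j • β).2 = j * β.2 := by
  rw [Prod.smul_snd, nsmul_eq_mul]

theorem mem_par {β μ : Cl} (h : Prm β) (k : ℕ) :
    μ ∈ par (k • β) ↔ ∃ j ≤ k, j • β = μ := by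
  obtain ⟨p, q⟩ := β
  obtain ⟨a, b⟩ := μ
  obtain ⟨h1, h2⟩ := h
  simp only [par, Val, mem_filter, mem_product, mem_range, mem_Icc, Prod.smul_mk, smul_eq_mul,
    nsmul_eq_mul, Prod.ext_iff, ← abs_le, Nat.cast_mul, Nat.lt_succ_iff] at *
  constructor
  · rintro ⟨⟨h3, h4⟩, h5, h6⟩
    rcases k.eq_zero_or_pos with rfl | hk
    · exact ⟨0, le_rfl, by omega, by simpa [eq_comm] using h4⟩
    rcases p.eq_zero_or_pos with rfl | hp
    · have hq : q = 1 := by
        simp only [Nat.cast_zero, Int.gcd_zero_left] at h1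
        omega
      subst hq
      have := h6 rfl
      exact ⟨b.toNat, by omega, by omega, by omega⟩
    · have hk' : (k : ℤ) ≠ 0 := by omega
      have h7 : b * p = q * a := mul_left_cancel₀ hk' (by linarith)
      have h8 : (p : ℤ) ∣ a := Int.dvd_of_dvd_mul_right_of_gcd_one ⟨b, by linarith⟩ h1
      obtain ⟨j, rfl⟩ := Int.natCast_dvd_natCast.1 h8
      have hp' : (p : ℤ) ≠ 0 := by omega
      refine ⟨j, by nlinarith, mul_comm _ _, mul_left_cancel₀ hp' ?_⟩
      push_cast at h7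
      linarith
  · rintro ⟨j, hj, rfl, rfl⟩
    have hj' : (j : ℤ) ≤ k := by exact_mod_cast hj
    refine ⟨⟨Nat.mul_le_mul_right _ hj, ?_⟩, by push_cast; ring, fun h0 => ?_⟩
    · rw [abs_mul, abs_mul, Nat.abs_cast, Nat.abs_cast]
      exact mul_le_mul_of_nonneg_right hj' (abs_nonneg _)
    · rcases Nat.mul_eq_zero.1 h0 with rfl | rfl
      · obtain rfl : j = 0 := by omega
        simp
      · have hq : 0 ≤ q := by omega
        exact ⟨by positivity, mul_le_mul_of_nonneg_right hj' hq⟩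

theorem DT_nsmul {β : Cl} (h : Prm β) (k : ℕ) :
    DT (sT (k • β)) = ∑ p ∈ antidiagonal k, sT (p.1 • β) ⊗ₜ[ℂ] sT (p.2 • β) := by
  have hinj : ∀ i j : ℕ, i • β = j • β → i = j := by
    intro i j hij
    have h0 := h.ne
    simp only [Ne, Prod.ext_iff, ns1, ns2, Prod.fst_zero, Prod.snd_zero, not_and_or] at hij h0
    rcases h0 with h0 | h0
    · exact mul_right_cancel₀ h0 hij.1
    · exact_mod_cast mul_right_cancel₀ h0 hij.2
  rw [DT_sT]
  refine (sum_bij (fun p _ => p.1 • β) ?_ ?_ ?_ ?_).symm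
  · intro p hp
    have := HasAntidiagonal.mem_antidiagonal.1 hp
    exact (mem_par h k).2 ⟨_, by omega, rfl⟩
  · intro p hp p' hp' e
    have h1 := HasAntidiagonal.mem_antidiagonal.1 hp
    have h2 := HasAntidiagonal.mem_antidiagonal.1 hp'
    have := hinj _ _ e
    exact Prod.ext this (by omega)
  · intro μ hμ
    obtain ⟨j, hj, rfl⟩ := (mem_par h k).1 hμ
    exact ⟨(j, k - j), HasAntidiagonal.mem_antidiagonal.2 (by simp [hj]), rfl⟩
  · intro p hp
    rw [← HasAntidiagonal.mem_antidiagonal.1 hp, add_nsmul]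
    congr 2
    ext <;> simp

theorem sT_zero_nsmul (β : Cl) : sT (0 • β) = 1 := by simp [sT]

theorem psi_mem_Pr {β : Cl} (h : Prm β) (k : ℕ) :
    psi (fun j => sT (j • β)) k ∈ Pr ((k + 1) • β) := by
  have hN := nw_psi (s := fun j => sT (j • β)) (sT_zero_nsmul β)
  rw [mem_Pr]
  refine ⟨hN.mem_psi (fun j => Tc (j • β)) (sT_zero_nsmul β)
    (fun a b x y hx hy => add_nsmul β a b ▸ Tc_mul hx hy)
    (fun k => sT_mem_Tc (Val.nsmul h.2 _)) k, ?_⟩
  have h1 := (hN.map Algebra.TensorProduct.includeLeft).mul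
    (hN.map (Algebra.TensorProduct.includeRight (R := ℂ) (A := TA))) (by simp)
  have h2 := hN.map DT
  simp only [DT_nsmul h] at h2
  simp only [Algebra.TensorProduct.includeLeft_apply, Algebra.TensorProduct.includeRight_apply,
    Algebra.TensorProduct.tmul_mul_tmul, one_mul, mul_one] at h1
  exact h2.unique h1 (by simp [sT, Algebra.TensorProduct.one_def]) k

theorem nsmul_succ_ne {β : Cl} (h : Prm β) (k : ℕ) : (k + 1) • β ≠ 0 := by
  rw [succ_nsmul']
  exact Val.add_ne h.2 (Val.nsmul h.2 k) h.ne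

theorem sT_mem_PrP {Q : List (Cl × TA) → Prop} (hQ : ∀ L L', Q L → Q L' → Q (L ++ L')) {β : Cl}
    (h : Prm β) (h1 : ∀ k, Q [((k + 1) • β, psi (fun j => sT (j • β)) k)]) (k : ℕ) :
    sT ((k + 1) • β) ∈ PrP Q ((k + 1) • β) :=
  (nw_psi (s := fun j => sT (j • β)) (sT_zero_nsmul β)).mem_s (fun j => PrP Q (j • β))
    (sT_zero_nsmul β) (fun a b _ _ hx hy => add_nsmul β a b ▸ PrP_mul hQ hx hy)
    (fun k => Submodule.subset_span ⟨[(_, _)], by
      simpa using ⟨nsmul_succ_ne h k, Val.nsmul h.2 _, psi_mem_Pr h k⟩, h1 k, by simp, by simp⟩) k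

theorem one_mem_PrP : (1 : TA) ∈ PrP (fun _ => True) 0 :=
  Submodule.subset_span ⟨[], by simp, trivial, rfl, rfl⟩

theorem wd_mem_PrP (w : List Cl) (hw : ∀ x ∈ w, Val x) : wd w ∈ PrP (fun _ => True) w.sum := by
  induction w with
  | nil => exact one_mem_PrP
  | cons a w ih =>
    rw [wd_cons, List.sum_cons]
    refine PrP_mul (fun _ _ _ _ => trivial) ?_ (ih fun x hx => hw x (List.mem_cons_of_mem _ hx))
    by_cases h0 : a = 0
    · subst h0
      simpa [sT] using one_mem_PrP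
    · obtain ⟨k, β, hβ, rfl⟩ := exists_prm h0 (hw a List.mem_cons_self)
      exact sT_mem_PrP (fun _ _ _ _ => trivial) hβ (fun _ => trivial) k

theorem sum_filter_ne (w : List Cl) : (w.filter (· ≠ 0)).sum = w.sum := by
  induction w with
  | nil => rfl
  | cons a w ih => by_cases h : a = 0 <;> simp_all

end T59

open T59 in
theorem st_PSI : St_PSI := by
  refine ⟨fun ν => Submodule.span_le.2 ?_, fun ν h1 h2 => ?_, fun _ _ _ _ => Pr_comm,
    fun d hd => ?_⟩
  · rintro _ ⟨w, ⟨rfl, hw⟩, rfl⟩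
    exact wd_mem_PrP w hw
  · obtain ⟨k, β, hβ, rfl⟩ := exists_prm (ν := ν) (by rintro rfl; simp at h1) (.inl h1)
    have h3 : 0 < β.1 := Nat.pos_of_ne_zero fun h => by simp [h] at h1
    have h4 : β.2 ≤ 0 := by
      rw [ns2] at h2
      push_cast at h2
      nlinarith [Int.natCast_nonneg k]
    have h5 : ∀ j : ℕ, 0 < ((j + 1) • β).1 := fun j => by simpa using h3
    refine sT_mem_PrP (fun L L' h h' => ⟨by simp [h.1], fun p hp =>
      (List.mem_append.1 hp).elim (h.2 p) (h'.2 p)⟩) hβ (fun j => ⟨by simp, ?_⟩) k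
    simp only [List.mem_singleton, forall_eq]
    refine ⟨h5 j, (nw_psi (s := fun j => sT (j • β)) (sT_zero_nsmul β)).mem_psi
      (fun j => Tm (j • β)) (sT_zero_nsmul β)
      (fun a b x y hx hy => add_nsmul β a b ▸ Tm_mul hx hy)
      (fun i => sT_mem_Tm (h5 i) ?_) j⟩
    rw [ns2]
    exact mul_nonpos_of_nonneg_of_nonpos (Int.natCast_nonneg _) h4
  · obtain ⟨k, rfl⟩ : ∃ k, d = k + 1 := ⟨d - 1, by omega⟩
    have hβ : Prm (0, 1) := ⟨by simp, by simp [Val]⟩
    have e1 : (k + 1) • ((0, 1) : Cl) = (0, ((k + 1 : ℕ) : ℤ)) := by simp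
    have h1 := psi_mem_Pr hβ k
    rw [e1] at h1
    refine ⟨_, h1, fun e he => ?_⟩
    let ε : TA →ₐ[ℂ] ℂ := FreeAlgebra.lift ℂ fun _ => 1
    have hε : ∀ ν, ε (sT ν) = 1 := fun ν => by by_cases h : ν = 0 <;> simp [sT, h, ε]
    have h2 : ∀ t ∈ Tc (0, ((k + 1 : ℕ) : ℤ)), evT e t = ε t := by
      intro t ht
      refine LinearMap.eqOn_span' (f := evT e) (g := ε.toLinearMap) ?_ ht
      rintro _ ⟨w, ⟨h3, h4⟩, rfl⟩
      have : ε (wd w) = 1 := by simp [wd, map_list_prod, Function.comp_def, hε]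
      rw [AlgHom.toLinearMap_apply, this, wd_eq_bw, evT_bw]
      exact he _ (by rw [sum_filter_ne, h3]) fun x hx => h4 x (List.mem_of_mem_filter hx)
    rw [h2 _ (mem_Pr.1 h1).1]
    have h3 := (nw_psi (s := fun j => sT (j • ((0, 1) : Cl))) (sT_zero_nsmul _)).map ε
    simp only [hε] at h3
    exact h3.unique (ψ' := fun _ => 1) (fun j => by simp) rfl k

end Pool.Agent.Lib.CC61
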