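import Pool.Agent.Lib.CC61.B_SH

open Finset

noncomputable section

namespace Pool.Agent.Lib.CC61

namespace T39

variable {l : ℕ}

/-- Component of total degree `e`. -/
def cmp (e : ℤ) : LP l →ₗ[ℂ] LP l where
  toFun P := .ofCoeff (P.coeff.filter fun m => ∑ a, m a = e)
  map_add' P Q := by rw [AddMonoidAlgebra.coeff_add, Finsupp.filter_add]; rfl
  map_smul' c P := by rw [AddMonoidAlgebra.coeff_smul, Finsupp.filter_smul]; rfl

theorem coeff_cmp (e : ℤ) (P : LP l) (m : Fin l → ℤ) :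
    (cmp e P).coeff m = if ∑ a, m a = e then P.coeff m else 0 := Finsupp.filter_apply _ _ _

theorem cmp_mem (e : ℤ) (P : LP l) : cmp e P ∈ Gr tot e := mem_Gr.mpr fun m hm => by
  by_contra hn
  exact hm (by rw [coeff_cmp]; exact if_neg hn)

theorem cmp_of_mem {e e' : ℤ} {P : LP l} (h : P ∈ Gr tot e') :
    cmp e P = if e' = e then P else 0 := lp_ext fun m => by
  rw [coeff_cmp]
  by_cases hm : P.coeff m = 0
  · split_ifs <;> simp [hm]
  · have h1 : ∑ a, m a = e' := mem_Gr.mp h m hm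
    rw [h1]
    split_ifs <;> simp

theorem cmp_mul {k : ℤ} {U : LP l} (hU : U ∈ Gr tot k) (e : ℤ) (P : LP l) :
    cmp (e + k) (U * P) = U * cmp e P := by
  refine lp_induction (p := fun P => cmp (e + k) (U * P) = U * cmp e P) P (by simp)
    (fun P Q h1 h2 => by rw [mul_add, map_add, map_add, mul_add, h1, h2]) fun c m => ?_
  have h1 : c • zz m ∈ Gr tot (tot m) := Submodule.smul_mem _ _ (zz_mem rfl)
  rw [cmp_of_mem h1, cmp_of_mem (Gr_mul hU h1)]
  by_cases h : tot m = e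
  · rw [if_pos h, if_pos (by rw [h, add_comm])]
  · rw [if_neg h, if_neg (by omega), mul_zero]

/-- Homogeneous component of a family. -/
def hc (h : ℕ) (d : ℤ) : Fam l →ₗ[ℂ] Fam l where
  toFun S γ := cmp (d + dD h γ) (S γ)
  map_add' _ _ := funext fun _ => map_add _ _ _
  map_smul' c S := funext fun γ => map_smul (cmp (d + dD h γ)) c (S γ)

theorem hc_apply (h : ℕ) (d : ℤ) (S : Fam l) (γ : Fin l → ℕ) :
    hc h d S γ = cmp (d + dD h γ) (S γ) := rfl

theorem hc_mem (h : ℕ) (d : ℤ) (S : Fam l) : hc h d S ∈ Hom l h d :=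
  mem_Hom.mpr fun _ => cmp_mem _ _

theorem hc_of_mem {h : ℕ} (d : ℤ) {d' : ℤ} {S : Fam l} (hS : S ∈ Hom l h d') :
    hc h d S = if d' = d then S else 0 := by
  funext γ
  rw [hc_apply, cmp_of_mem (mem_Hom.mp hS γ)]
  by_cases h1 : d' = d
  · rw [if_pos h1, if_pos (by rw [h1])]
  · rw [if_neg h1, if_neg (by omega)]; rfl

theorem hc_admU (h : ℕ) (d : ℤ) {r : ℕ} {S : Fam l} (hS : S ∈ AdmU l r) : hc h d S ∈ AdmU l r := by
  refine ⟨fun γ m hm => hS.1 γ m fun h0 => hm ?_, fun σ γ m => ?_⟩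
  · rw [hc_apply, coeff_cmp, h0, ite_self]
  · rw [hc_apply, hc_apply, coeff_cmp, coeff_cmp, hS.2, dD_perm,
      show ∑ a, (m ∘ σ) a = ∑ a, m a from Equiv.sum_comp σ m]

theorem exists_sum_hc (h : ℕ) {r : ℕ} {S : Fam l} (hS : S ∈ AdmU l r) :
    ∃ I : Finset ℤ, S = ∑ d ∈ I, hc h d S := by
  refine ⟨(Finset.Nat.antidiagonalTuple l r).biUnion fun γ =>
    (S γ).coeff.support.image fun m => ∑ a, m a - dD h γ, funext fun γ => lp_ext fun m => ?_⟩
  rw [Finset.sum_apply, AddMonoidAlgebra.coeff_sum, Finsupp.finsetSum_apply]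
  simp only [hc_apply, coeff_cmp]
  by_cases hm : (S γ).coeff m = 0
  · simp [hm]
  · rw [Finset.sum_eq_single_of_mem (∑ a, m a - dD h γ), if_pos (by ring)]
    · exact mem_biUnion.mpr ⟨γ, Finset.Nat.mem_antidiagonalTuple.mpr (hS.1 γ m hm).1,
        mem_image_of_mem _ (Finsupp.mem_support_iff.mpr hm)⟩
    · intro d _ hd
      exact if_neg (by omega)

theorem hc_dec (h : ℕ) (d : ℤ) {r : ℕ} {S : Fam l} (hS : S ∈ DecU l h r) :
    hc h d S ∈ Dec l h (r, d) := by
  refine (Submodule.span_le (p := (Dec l h (r, d)).comap (hc h d))).mpr ?_ hS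
  rintro _ ⟨r₁, r₂, S, S', h1, h2, h3, hS, hS', rfl⟩
  obtain ⟨I, hI⟩ := exists_sum_hc h hS
  obtain ⟨J, hJ⟩ := exists_sum_hc h hS'
  change hc h d (shL h S S') ∈ Dec l h (r, d)
  rw [hI, hJ, map_sum, map_sum]
  refine Submodule.sum_mem _ fun e' _ => ?_
  rw [map_sum, LinearMap.sum_apply, map_sum]
  refine Submodule.sum_mem _ fun e _ => ?_
  rw [shL_apply, hc_of_mem d (sh_hom h (hc_mem h e S) (hc_mem h e' S'))]
  split_ifs with he
  · exact Submodule.subset_span ⟨(r₁, e), (r₂, e'), _, _, h1, h2, Prod.ext h3 he,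
      ⟨hc_admU h e hS, hc_mem h e S⟩, ⟨hc_admU h e' hS', hc_mem h e' S'⟩, rfl⟩
  · exact Submodule.zero_mem _

theorem hc_PW (h : ℕ) (d k : ℤ) (S : Fam l) : hc h (d + k) (PW k * S) = PW k * hc h d S := by
  funext γ
  rw [hc_apply, Pi.mul_apply, Pi.mul_apply, hc_apply, add_right_comm, cmp_mul (PW_tot k γ)]

theorem prod_zpow_const {ι : Type} (s : Finset ι) (x : ℂˣ) (m : ι → ℤ) :
    ∏ a ∈ s, x ^ m a = x ^ ∑ a ∈ s, m a := by
  classical
  induction s using Finset.induction_on with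
  | empty => simp
  | insert a s ha ih => rw [Finset.prod_insert ha, Finset.sum_insert ha, ih, zpow_add]

theorem evP_of_mem {e : ℤ} {P : LP l} (hP : P ∈ Gr tot e) (x : ℂˣ) :
    evP (fun _ => x) P = ((x ^ e : ℂˣ) : ℂ) * evP 1 P := by
  rw [eq_sum_zz P, map_sum, map_sum, Finset.mul_sum]
  refine Finset.sum_congr rfl fun m hm => ?_
  have h1 : ∑ a, m a = e := hP m hm
  rw [map_smul, map_smul, evP_zz, evP_zz, prod_zpow_const, h1]
  simp [mul_comm]

end T39

open T39 in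
theorem st_GR : St_GR := fun _ h =>
  ⟨hc h, hc_mem h, fun d _ hS => by rw [hc_of_mem d hS, if_pos rfl],
    fun d _ _ hS hd => by rw [hc_of_mem d hS, if_neg (Ne.symm hd)],
    fun _ d _ => hc_admU h d, fun _ _ => exists_sum_hc h, fun _ d _ => hc_dec h d, hc_PW h,
    fun _ _ γ x hS => evP_of_mem (mem_Hom.mp hS γ) x⟩

end Pool.Agent.Lib.CC61
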