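import Pool.Agent.Lib.CC61.B_ST3
import Pool.Agent.Lib.CC61.B_GR

open Finset

noncomputable section

namespace Pool.Agent.Lib.CC61

namespace T39

variable {l : ℕ}

theorem pure_prj_admU {r : ℕ} (hl : r ≤ l) (f : LP l) :
    pure (oneY (Y0 l r)) (prj (Y0 l r) f) ∈ AdmU l r := by
  have := pure_admU' (γ := oneY (Y0 l r)) (P := prj (Y0 l r) f)
    fun a ha => prj_co _ _ (by simpa [oneY] using ha)
  rwa [sum_oneY, card_Y0 hl] at this

end T39

open T39 in
theorem st_PSUR : St_PSUR := by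
  intro l h r d hr hl S hS
  have h0 : prj (Y0 l r) (PW (-1) (oneY (Y0 l r))) = PW (-1) (oneY (Y0 l r)) :=
    prj_of_mem fun a ha => PW_co _ _ a (by simp [oneY, ha])
  have h1 := st_ST3 l h r (DecU l h r ⊔ (AdmU l r).map (LinearMap.mulLeft ℂ (PW (-1)))) hl
    le_sup_left (st_NULL l h r _ hr hl le_sup_left fun x => ⟨PW (-1) (oneY (Y0 l r)), ?_,
      fun f => ?_⟩) hS.1
  · obtain ⟨D, hD, _, ⟨T, hT, rfl⟩, h2⟩ := Submodule.mem_sup.mp h1
    have h3 : hc h d S = S := by rw [hc_of_mem d hS.2, if_pos rfl]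
    rw [← h3, ← h2, map_add]
    refine Submodule.add_mem_sup (hc_dec h d hD) ⟨hc h (d + 1) T, ⟨hc_admU h _ hT, hc_mem h _ T⟩, ?_⟩
    rw [LinearMap.mulLeft_apply, LinearMap.mulLeft_apply, ← hc_PW, add_neg_cancel_right]
  · have h2 : ∑ a, (oneY (Y0 l r) a : ℂ) = r := by
      rw [← Nat.cast_sum, sum_oneY, card_Y0 hl]
    rw [h0, PW, map_sum]
    simp only [map_smul, evP_zv, smul_eq_mul]
    rw [← Finset.sum_mul, h2]
    exact mul_ne_zero (Nat.cast_ne_zero.mpr hr.ne') (Units.ne_zero _)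
  · rw [map_mul, h0, ← pure_mul _ _ _ fun σ δ => (ren_PW _ σ δ).symm, mul_comm]
    exact Submodule.mem_sup_right ⟨_, pure_prj_admU hl f, rfl⟩

end Pool.Agent.Lib.CC61
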