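import Pool.Agent.Lib.CC61.B_VS

/-! Project cc61, block QUOT. -/

noncomputable section

namespace Pool.Agent.Lib.CC61

open Pool.Agent.Lib.MP_cc3443_ag

variable (K : Type) [Field K] [Algebra ℂ K] [Algebra (RatFunc ℂ) K]
  [IsScalarTower ℂ (RatFunc ℂ) K] [FiniteDimensional (RatFunc ℂ) K]

namespace T24

variable {K} {N N' : ℕ}

theorem SS_eq_cc {h : ℕ} (hχ : chiO K = -h) (m : ℕ) : SS K m = cc h 1 m := by
  have h1 : SS K 1 = -(2 * h) := by
    have a1 := SS_rec (K := K) (2 * h)
    have a2 := SS_symm (K := K) (by omega) 0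
    rw [SS_big (by omega) (by push_cast; omega)] at a1
    rw [SS_zero, show -2 * chiO K - 0 = ((2 * h : ℕ) : ℤ) by push_cast; omega] at a2
    rw [a2] at a1
    push_cast at a1
    linear_combination -a1
  induction m with
  | zero => simpa [cc] using SS_zero (K := K)
  | succ m ih =>
    have a1 := SS_rec (K := K) m
    have a2 : (((2 * h).choose (m + 1) : ℕ) : ℂ) * (m + 1) = (2 * h).choose m * (2 * h - m) := by
      rcases le_or_gt m (2 * h) with a | a
      · have := congrArg (Nat.cast : ℕ → ℂ) (Nat.choose_succ_right_eq (2 * h) m)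
        push_cast [Nat.cast_sub a] at this
        exact this
      · simp [Nat.choose_eq_zero_of_lt a, Nat.choose_eq_zero_of_lt (Nat.lt_succ_of_lt a)]
    refine mul_left_cancel₀ (Nat.cast_add_one_ne_zero m) ?_
    rw [ih, h1] at a1
    push_cast
    rw [a1, cc, cc, mul_one, pow_succ]
    linear_combination (-1) ^ m * a2

theorem cc_succ (h r n : ℕ) :
    cc h (r + 1) n = ∑ k ∈ Finset.range (n + 1), cc h r k * cc h 1 (n - k) := by
  rw [cc, mul_add, Nat.add_choose_eq, Finset.Nat.sum_antidiagonal_eq_sum_range_succ_mk,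
    Nat.cast_sum, Finset.mul_sum]
  refine Finset.sum_congr rfl fun k hk => ?_
  obtain ⟨j, rfl⟩ := Nat.exists_eq_add_of_le (Nat.lt_succ_iff.1 (Finset.mem_range.1 hk))
  simp only [cc, Nat.add_sub_cancel_left]
  push_cast
  ring

theorem lift_tors {V U : Lat K N} {M : Lat K N'} {q : (Fin N → K) →ₗ[K] (Fin N' → K)}
    (hU : U ≤ V.restrict (LinearMap.ker q)) (hM : M ≤ V.mapL q)
    (hr : rk U = rk (V.restrict (LinearMap.ker q))) : Lift V q U M := by
  obtain ⟨G, g1, g2, g3⟩ := tlift (E := pull V q M) (U := U) q (by rwa [restrict_pull])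
    (by rwa [restrict_pull])
  exact ⟨G, g1.trans (pull_le _ _ _), g2, g3.trans (mapL_pull hM)⟩

/-- Classes of kernel and image for a sublattice of full rank. -/
theorem full_cls {V G : Lat K N} (q : (Fin N → K) →ₗ[K] (Fin N' → K)) {n : ℕ}
    (hG : QR V (rk V) (chiL V - n) G) : (rk (G.restrict (LinearMap.ker q)),
      chiL (G.restrict (LinearMap.ker q))) ∈ (Finset.range (n + 1)).image fun k : ℕ =>
        (rk (V.restrict (LinearMap.ker q)), chiL (V.restrict (LinearMap.ker q)) - k) := by
  obtain ⟨g1, g2, g3⟩ := hG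
  have a1 := rk_exact G q
  have a2 := rk_exact V q
  have a3 := chiL_exact G q
  have a4 := chiL_exact V q
  have b1 := restrict_mono g1 (LinearMap.ker q)
  have b2 := mapL_mono g1 q
  have b3 := rk_mono b1
  have b4 := rk_mono b2
  have b5 := chiL_mono b1 (by omega)
  have b6 := chiL_mono b2 (by omega)
  refine Finset.mem_image.2 ⟨(chiL (V.restrict (LinearMap.ker q)) -
    chiL (G.restrict (LinearMap.ker q))).toNat, Finset.mem_range.2 (by omega), Prod.ext ?_ ?_⟩
  all_goals simp only
  all_goals omega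

theorem quot_aux (hF : St_FIB K) (hI : St_LIFT K) {h : ℕ} (hχ : chiO K = -h) (r : ℕ) :
    ∀ (V : Lat K N), rk V = r → ∀ n : ℕ,
      (QC V (rk V) (chiL V - n)).int (fun _ => 1) = cc h r n := by
  induction r with
  | zero =>
    intro V hV n
    obtain rfl := eq_bot_of_rk hV
    rcases n with _ | n
    · rw [Chart.int_single _ (y₀ := ⊥) (QC_R.2 ⟨le_rfl, rfl, by simp⟩)
        fun M hM hne => absurd (le_bot_iff.1 (QC_R.1 hM).1) hne]
      simp [cc]
    · rw [Chart.int_eq_zero _ fun M hM => ?_]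
      · simp [cc]
      · obtain ⟨m1, -, m3⟩ := QC_R.1 hM
        rw [le_bot_iff.1 m1] at m3
        omega
  | succ r ih =>
    intro V hV n
    obtain ⟨q, q1⟩ := exists_line_quot (V := V) (by omega)
    have e1 := rk_exact V q
    have e2 := chiL_exact V q
    rw [hF N 1 V q _ _ _ _ (DFun.const 1) (fun j hj => ?_) fun G hG _ => full_cls q hG,
      Finset.sum_image fun a _ b _ e => by simpa using e, cc_succ]
    swap
    · obtain ⟨k, -, rfl⟩ := Finset.mem_image.1 hj
      simp only
      omega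
    refine Finset.sum_congr rfl fun k hk => ?_
    have k1 := Finset.mem_range.1 hk
    obtain ⟨s, D, hs, e⟩ := exists_line_of_rk q1
    have e3 := qq_line hs D (D.degree - (n - k : ℕ))
    have e4 := chiL_line hs D
    rw [sub_sub_cancel, SS_eq_cc hχ, ← e, qq] at e3
    rw [← e] at e4
    rw [← ih (V.restrict (LinearMap.ker q)) (by omega) k, ← e3, mul_comm, ← Chart.int_const_mul _ (DFun.const 1)]
    refine Chart.int_congr _ fun U hU => ?_
    obtain ⟨u1, u2, u3⟩ := QC_R.1 hU
    simp only at u2 u3 ⊢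
    rw [mul_one, show rk V - rk (V.restrict (LinearMap.ker q)) = 1 by omega,
      show chiL V - n - (chiL (V.restrict (LinearMap.ker q)) - k) =
        chiO K + (D.degree - (n - k : ℕ)) by omega]
    refine Chart.int_congr _ fun M hM => ?_
    obtain ⟨m1, m2, m3⟩ := QC_R.1 hM
    exact (lam_eq hI (by omega) (by omega)).trans (ind_true (lift_tors u1 m1 u2))

end T24

theorem st_QUOT (hF : St_FIB K) (hI : St_LIFT K) : St_QUOT K :=
  fun _ hχ _ V => T24.quot_aux hF hI hχ _ V rfl

end Pool.Agent.Lib.CC61
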