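import Pool.Agent.Lib.CC61.T39X

open Filter Set Module

noncomputable section

namespace Pool.Agent.Lib.CC61

open Pool.Agent.Lib.MP_cc3443_ag

namespace T39

variable {K : Type} [Field K] [Algebra ℂ K] [Algebra (RatFunc ℂ) K]
  [IsScalarTower ℂ (RatFunc ℂ) K] [FiniteDimensional (RatFunc ℂ) K]

lemma ss_zero (hL : St_LET K) : (ssFn 0 : Fn K) = torsFn 0 := hL.2.2.2.2.2.2.1 0

lemma ss_nil0 (hL : St_LET K) (N : ℕ) (E F : Lat K N) (u v : List Cl) :
    word ssFn (u ++ 0 :: v) N E F = word ssFn (u ++ v) N E F := by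
  rw [word_nil0 hL.2.1 (ss_zero hL)]

lemma rho_wd (hL : St_LET K) (w : List Cl) : (rho (wd w) : Fn K) = word ssFn w := by
  funext N E F
  exact evT_wd (e := fun w => word ssFn w N E F) (ss_nil0 hL N E F) w

lemma sph_word (hL : St_LET K) (w : List Cl) : SphHN w.sum (word ssFn w : Fn K) := by
  induction w with
  | nil =>
    have := SphHN.gen (K := K) 0
    rwa [ss_zero hL] at this
  | cons ν w ih =>
    rw [List.sum_cons]
    exact SphHN.mul (SphHN.gen ν) ih

lemma rho_nice (hL : St_LET K) {ν : Cl} {t : TA} (ht : t ∈ Tc ν) :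
    Nice ν (rho t : Fn K) ∧ SphHN ν (rho t : Fn K) := by
  rw [← rhoL_apply]
  induction ht using Submodule.span_induction with
  | mem x hx =>
    obtain ⟨w, ⟨rfl, -⟩, rfl⟩ := hx
    rw [rhoL_apply, rho_wd hL]
    exact ⟨nice_word hL.2.1 w, sph_word hL w⟩
  | zero => rw [map_zero]; exact ⟨Nice.zero ν, SphHN.zero ν⟩
  | add x y _ _ h1 h2 => rw [map_add]; exact ⟨h1.1.add h2.1, h1.2.add h2.2⟩
  | smul c x _ h1 => rw [map_smul]; exact ⟨h1.1.smul c, h1.2.smul c⟩

lemma rho_mid (hL : St_LET K) {ν : Cl} {t : TA} (ht : t ∈ Tc ν) (u v : List Cl) :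
    (rho ((u.map (FreeAlgebra.ι ℂ)).prod * t * (v.map (FreeAlgebra.ι ℂ)).prod) : Fn K) =
      hall (word ssFn u) (hall (rho t) (word ssFn v)) := by
  have hu := nice_word (K := K) hL.2.1 u
  have hv := nice_word (K := K) hL.2.1 v
  induction ht using Submodule.span_induction with
  | mem x hx =>
    obtain ⟨w, -, rfl⟩ := hx
    rw [rho_wd hL, ← word_append hL.2.1, ← word_append hL.2.1, ← List.append_assoc]
    funext N E F
    exact evT_mul_wd (e := fun w => word ssFn w N E F) (ss_nil0 hL N E F) u w v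
  | zero => simp [← rhoL_apply]
  | add x y hx hy h1 h2 =>
    have a1 := (rho_nice hL hx).1
    have a2 := (rho_nice hL hy).1
    rw [mul_add, add_mul, ← rhoL_apply, map_add, ← rhoL_apply (x + y), map_add, rhoL_apply,
      rhoL_apply, rhoL_apply, rhoL_apply, h1, h2, a1.hall_add_left a2 hv,
      hu.hall_add_right (a1.mul hv) (a2.mul hv)]
  | smul c x hx h1 =>
    have a1 := (rho_nice hL hx).1
    rw [mul_smul_comm, smul_mul_assoc, ← rhoL_apply, map_smul, ← rhoL_apply (c • x), map_smul,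
      rhoL_apply, rhoL_apply, h1, a1.hall_smul_left hv, hu.hall_smul_right (a1.mul hv)]

lemma rho_mul (hL : St_LET K) {μ ν : Cl} {s t : TA} (hs : s ∈ Tc μ) (ht : t ∈ Tc ν) :
    (rho (s * t) : Fn K) = hall (rho s) (rho t) := by
  have a0 := (rho_nice hL hs).1
  induction ht using Submodule.span_induction with
  | mem x hx =>
    obtain ⟨w, -, rfl⟩ := hx
    have h1 := rho_mid hL hs [] (w.filter (· ≠ 0))
    have h2 : (word ssFn (w.filter (· ≠ 0)) : Fn K) = rho (wd w) := by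
      rw [← rho_wd hL, wd_eq, wd_eq, List.filter_filter]
      simp
    rw [List.map_nil, List.prod_nil, one_mul, ← wd_eq] at h1
    rw [h1, ← h2]
    exact (a0.mul (nice_word hL.2.1 _)).hall_unit_left
  | zero => simp [← rhoL_apply]
  | add x y hx hy h1 h2 =>
    rw [mul_add, ← rhoL_apply, map_add, ← rhoL_apply (x + y), map_add, rhoL_apply,
      rhoL_apply, rhoL_apply, rhoL_apply, h1, h2,
      a0.hall_add_right (rho_nice hL hx).1 (rho_nice hL hy).1]
  | smul c x hx h1 =>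
    rw [mul_smul_comm, ← rhoL_apply, map_smul, ← rhoL_apply (c • x), map_smul,
      rhoL_apply, rhoL_apply, h1, a0.hall_smul_right (rho_nice hL hx).1]

end T39

variable (K : Type) [Field K] [Algebra ℂ K] [Algebra (RatFunc ℂ) K]
  [IsScalarTower ℂ (RatFunc ℂ) K] [FiniteDimensional (RatFunc ℂ) K]

open T39 in
theorem st_RHO (hL : St_LET K) (hC : St_COPS K) : St_RHO K := by
  refine ⟨fun ν t => rho_nice hL, fun ν f hf => ?_, fun ν t ht N E F G₁ G₂ h => ?_,
    fun ν t ht h0 u v => ?_⟩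
  · induction hf with
    | gen ν =>
      by_cases hν : Val ν
      · refine ⟨wd [ν], by simpa using wd_mem_Tc (w := [ν]) (by simpa using hν), ?_⟩
        rw [rho_wd hL, word_single hL.2.1]
      · exact ⟨0, zero_mem _, by rw [hL.2.2.2.2.2.2.2.1 ν hν, ← rhoL_apply, map_zero]⟩
    | zero ν => exact ⟨0, zero_mem _, by rw [← rhoL_apply, map_zero]⟩
    | add _ _ h1 h2 =>
      obtain ⟨s, a1, rfl⟩ := h1
      obtain ⟨t, a2, rfl⟩ := h2
      exact ⟨s + t, add_mem a1 a2, ((rhoL K).map_add s t).symm⟩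
    | smul c _ h1 =>
      obtain ⟨s, a1, rfl⟩ := h1
      exact ⟨c • s, Submodule.smul_mem _ c a1, ((rhoL K).map_smul c s).symm⟩
    | mul _ _ h1 h2 =>
      obtain ⟨s, a1, rfl⟩ := h1
      obtain ⟨t, a2, rfl⟩ := h2
      exact ⟨s * t, mul_mem_Tc a1 a2, (rho_mul hL a1 a2).symm⟩
  · have h1 : IsSum E F G₁ G₂ := fun x => by
      have := h x
      simp only [← Lat.coe_S, ← Submodule.coe_sup, ← Submodule.coe_inf, SetLike.coe_set_eq] at this
      exact this
    have h2 : F ≤ G₁ := fun x => (h1 x).1 ▸ inf_le_left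
    have h3 : F ≤ G₂ := fun x => (h1 x).1 ▸ inf_le_right
    have h4 : ∀ G : Lat K N, evT (fun w => word ssFn w N G F) 1 = torsFn 0 N G F := fun G =>
      evT_basis (fun w => word ssFn w N G F) []
    rw [(rho_nice hL (mem_Pr.mp ht).1).1.isSum h1, hC _ _ _ _ _ _ t h2 h3, (mem_Pr.mp ht).2,
      map_add, ev2_tmul, ev2_tmul, h4, h4]
    rfl
  · have h1 : ∀ u : List Cl, ∀ v, rhoL K ((u.map (FreeAlgebra.ι ℂ)).prod * t * v) = 0 := by
      intro u v
      refine DFunLike.congr_fun (TA.lhom_ext (f := rhoL K ∘ₗ LinearMap.mulLeft ℂ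
        ((u.map (FreeAlgebra.ι ℂ)).prod * t)) (g := 0) fun w => ?_) v
      rw [LinearMap.comp_apply, LinearMap.mulLeft_apply, rhoL_apply, rho_mid hL ht, h0]
      simp
    refine DFunLike.congr_fun (TA.lhom_ext (f := rhoL K ∘ₗ LinearMap.mulRight ℂ v ∘ₗ
      LinearMap.mulRight ℂ t) (g := 0) fun w => h1 w v) u

end Pool.Agent.Lib.CC61
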