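import Pool.Agent.Lib.CC61.T39K

open Finset

noncomputable section

namespace Pool.Agent.Lib.CC61

namespace T39

variable {l : ℕ}

theorem sh_ne {h : ℕ} {S S' : Fam l} {γ : Fin l → ℕ} (hγ : sh h S S' γ ≠ 0) :
    ∃ δ ≤ γ, S δ ≠ 0 ∧ S' (γ - δ) ≠ 0 := by
  obtain ⟨δ, h1, h2⟩ := Finset.exists_ne_zero_of_sum_ne_zero hγ
  exact ⟨δ, mem_Iic.mp h1, left_ne_zero_of_mul (right_ne_zero_of_mul h2),
    right_ne_zero_of_mul (right_ne_zero_of_mul h2)⟩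

theorem cross_co (h : ℕ) {δ ε : Fin l → ℕ} {a : Fin l} (h1 : δ a = 0) (h2 : ε a = 0) :
    cross h δ ε ∈ Gr (co a) 0 :=
  dP_co a _ (fun b => by simp [h1, h2]) fun b => by simp [h1, h2]

theorem ren_sh (h : ℕ) {S S' : Fam l} (σ : Equiv.Perm (Fin l))
    (hS : ∀ γ, ren σ (S (γ ∘ σ)) = S γ) (hS' : ∀ γ, ren σ (S' (γ ∘ σ)) = S' γ) (γ : Fin l → ℕ) :
    ren σ (sh h S S' (γ ∘ σ)) = sh h S S' γ := by
  rw [sh, sh, map_sum]
  symm
  refine Finset.sum_bij' (fun δ _ => δ ∘ σ) (fun δ _ => δ ∘ σ.symm) ?_ ?_ ?_ ?_ ?_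
  · intro δ hδ
    exact mem_Iic.mpr fun a => mem_Iic.mp hδ (σ a)
  · intro δ hδ
    exact mem_Iic.mpr fun a => by simpa using mem_Iic.mp hδ (σ.symm a)
  · intro δ _
    funext a; simp
  · intro δ _
    funext a; simp
  · intro δ _
    rw [map_mul, map_mul, show γ ∘ σ - δ ∘ σ = (γ - δ) ∘ σ from rfl, ren_cross, hS, hS']

theorem sh_admU (h : ℕ) {r r' : ℕ} {S S' : Fam l} (hS : S ∈ AdmU l r) (hS' : S' ∈ AdmU l r') :
    sh h S S' ∈ AdmU l (r + r') := by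
  obtain ⟨a1, a2, a3⟩ := mem_AdmU.mp hS
  obtain ⟨b1, b2, b3⟩ := mem_AdmU.mp hS'
  refine mem_AdmU.mpr ⟨fun γ hγ => ?_, fun γ a ha => Submodule.sum_mem _ fun δ hδ => ?_,
    fun σ => ren_sh h σ (a3 σ) (b3 σ)⟩
  · obtain ⟨δ, h1, h2, h3⟩ := sh_ne hγ
    rw [← a1 δ h2, ← b1 _ h3, ← Finset.sum_add_distrib]
    exact Finset.sum_congr rfl fun a _ => (Nat.add_sub_cancel' (h1 a)).symm
  · have h1 : δ a = 0 := Nat.le_zero.mp (ha ▸ mem_Iic.mp hδ a)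
    have h2 : (γ - δ) a = 0 := by simp [ha]
    exact Gr_mul0 (cross_co h h1 h2) (Gr_mul0 (a2 _ _ h1) (b2 _ _ h2))

theorem cross_tot (h : ℕ) (δ ε : Fin l → ℕ) :
    cross h δ ε ∈ Gr tot (dD h (δ + ε) - dD h δ - dD h ε) := by
  have h1 := dP_tot fun a b =>
    h * (min (δ a + ε a) (δ b + ε b) - min (δ a) (δ b) - min (ε a) (ε b))
  have h2 : dD h (δ + ε) - dD h δ - dD h ε = ∑ p ∈ (univ : Finset (Fin l)).offDiag,
      ((h * (min (δ p.1 + ε p.1) (δ p.2 + ε p.2) - min (δ p.1) (δ p.2) - min (ε p.1) (ε p.2)) : ℕ)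
        : ℤ) := by
    simp only [dD, ← Finset.sum_sub_distrib]
    refine Finset.sum_congr rfl fun p _ => ?_
    have h3 : min (δ p.1 + ε p.1) (δ p.2 + ε p.2) = (min (δ p.1 + ε p.1) (δ p.2 + ε p.2) -
        min (δ p.1) (δ p.2) - min (ε p.1) (ε p.2)) + min (δ p.1) (δ p.2) + min (ε p.1) (ε p.2) := by
      omega
    rw [Pi.add_apply, Pi.add_apply]
    conv_lhs => rw [h3]
    simp only [mul_add, Nat.cast_add]
    ring
  rw [h2]
  exact h1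

theorem sh_hom (h : ℕ) {d d' : ℤ} {S S' : Fam l} (hS : S ∈ Hom l h d) (hS' : S' ∈ Hom l h d') :
    sh h S S' ∈ Hom l h (d + d') := by
  refine mem_Hom.mpr fun γ => Submodule.sum_mem _ fun δ hδ => ?_
  have h1 := Gr_mul (cross_tot h δ (γ - δ)) (Gr_mul (mem_Hom.mp hS δ) (mem_Hom.mp hS' (γ - δ)))
  rw [add_tsub_cancel_of_le (mem_Iic.mp hδ)] at h1
  rw [show d + d' + dD h γ = dD h γ - dD h δ - dD h (γ - δ) +
    (d + dD h δ + (d' + dD h (γ - δ))) by ring]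
  exact h1

theorem PW_add (k : ℤ) (δ ε : Fin l → ℕ) : PW k (δ + ε) = PW k δ + PW k ε := by
  simp [PW, add_smul, Finset.sum_add_distrib]

theorem TW_add (k : ℤ) (δ ε : Fin l → ℕ) : TW k (δ + ε) = TW k δ * TW k ε := by
  rw [TW, TW, TW, ← zz_add]
  congr 1
  funext a
  simp [mul_add]

theorem PW_sh (h : ℕ) (k : ℤ) (S S' : Fam l) :
    PW k * sh h S S' = sh h (PW k * S) S' + sh h S (PW k * S') := by
  funext γ
  simp only [sh, Pi.mul_apply, Pi.add_apply, Finset.mul_sum, ← Finset.sum_add_distrib]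
  refine Finset.sum_congr rfl fun δ hδ => ?_
  conv_lhs => rw [← add_tsub_cancel_of_le (mem_Iic.mp hδ), PW_add, add_tsub_cancel_left]
  ring

theorem TW_sh (h : ℕ) (k : ℤ) (S S' : Fam l) :
    TW k * sh h S S' = sh h (TW k * S) (TW k * S') := by
  funext γ
  simp only [sh, Pi.mul_apply, Finset.mul_sum]
  refine Finset.sum_congr rfl fun δ hδ => ?_
  conv_lhs => rw [← add_tsub_cancel_of_le (mem_Iic.mp hδ), TW_add, add_tsub_cancel_left]
  ring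

theorem mul_admU {r : ℕ} {U S : Fam l} (h0 : ∀ γ a, γ a = 0 → U γ ∈ Gr (co a) 0)
    (hσ : ∀ (σ : Equiv.Perm (Fin l)) γ, ren σ (U (γ ∘ σ)) = U γ) (hS : S ∈ AdmU l r) :
    U * S ∈ AdmU l r := by
  obtain ⟨a1, a2, a3⟩ := mem_AdmU.mp hS
  exact mem_AdmU.mpr ⟨fun γ hγ => a1 γ (right_ne_zero_of_mul hγ),
    fun γ a ha => Gr_mul0 (h0 γ a ha) (a2 γ a ha),
    fun σ γ => by rw [Pi.mul_apply, Pi.mul_apply, map_mul, hσ, a3]⟩

theorem PW_co (k : ℤ) (γ : Fin l → ℕ) (a : Fin l) (ha : γ a = 0) : PW k γ ∈ Gr (co a) 0 := by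
  refine Submodule.sum_mem _ fun b _ => ?_
  by_cases hb : b = a
  · rw [hb, ha]; simp
  · exact Submodule.smul_mem _ _ (zv_co hb k)

theorem PW_tot (k : ℤ) (γ : Fin l → ℕ) : PW k γ ∈ Gr tot k :=
  Submodule.sum_mem _ fun b _ => Submodule.smul_mem _ _ (zv_tot b k)

theorem PW_admU (k : ℤ) {r : ℕ} {S : Fam l} (hS : S ∈ AdmU l r) : PW k * S ∈ AdmU l r :=
  mul_admU (PW_co k) (ren_PW k) hS

theorem TW_admU (k : ℤ) {r : ℕ} {S : Fam l} (hS : S ∈ AdmU l r) : TW k * S ∈ AdmU l r :=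
  mul_admU (fun γ a ha => zz_mem (by simp [co, ha])) (ren_TW k) hS

theorem PW_hom (h : ℕ) (k : ℤ) {d : ℤ} {S : Fam l} (hS : S ∈ Hom l h d) :
    PW k * S ∈ Hom l h (d + k) := by
  refine mem_Hom.mpr fun γ => ?_
  rw [show d + k + dD h γ = k + (d + dD h γ) by ring]
  exact Gr_mul (PW_tot k γ) (mem_Hom.mp hS γ)

theorem TW_adm (h : ℕ) (k : ℤ) {ν : Cl} {S : Fam l} (hS : S ∈ Adm l h ν) :
    TW k * S ∈ Adm l h (twC k ν) := by
  refine ⟨TW_admU k hS.1, mem_Hom.mpr fun γ => ?_⟩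
  by_cases h0 : S γ = 0
  · rw [Pi.mul_apply, h0, mul_zero]; exact Submodule.zero_mem _
  · have h1 : ∑ a, γ a = ν.1 := (mem_AdmU.mp hS.1).1 γ h0
    have h2 : TW k γ ∈ Gr tot (k * ν.1) := zz_mem (by simp [tot, ← h1, Finset.mul_sum])
    rw [show (twC k ν).2 + dD h γ = k * ν.1 + (ν.2 + dD h γ) by simp only [twC]; ring]
    exact Gr_mul h2 (mem_Hom.mp hS.2 γ)

theorem evP_dec {h r : ℕ} (hh : 0 < h) (Y : Finset (Fin l)) (x : ℂˣ) {D : Fam l}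
    (hD : D ∈ DecU l h r) : evP (fun _ => x) (D (oneY Y)) = 0 := by
  induction hD using Submodule.span_induction with
  | zero => simp
  | add a b _ _ h1 h2 => rw [Pi.add_apply, map_add, h1, h2, add_zero]
  | smul c a _ h1 => rw [Pi.smul_apply, map_smul, h1, smul_zero]
  | mem T hT =>
    obtain ⟨r₁, r₂, S, S', h1, h2, -, hS, hS', rfl⟩ := hT
    rw [sh, map_sum]
    refine Finset.sum_eq_zero fun δ hδ => ?_
    by_cases h3 : S δ = 0
    · simp [h3]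
    by_cases h4 : S' (oneY Y - δ) = 0
    · simp [h4]
    obtain ⟨a, -, ha⟩ := Finset.exists_ne_zero_of_sum_ne_zero
      (((mem_AdmU.mp hS).1 δ h3).trans_ne h1.ne')
    obtain ⟨b, -, hb⟩ := Finset.exists_ne_zero_of_sum_ne_zero
      (((mem_AdmU.mp hS').1 _ h4).trans_ne h2.ne')
    have h5 : ∀ c, oneY Y c ≤ 1 := fun c => by unfold oneY; split_ifs <;> simp
    have h6 : δ a ≤ oneY Y a := mem_Iic.mp hδ a
    have h7 := h5 a
    have h8 := h5 b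
    have h9 : (oneY Y - δ) a = oneY Y a - δ a := rfl
    have h10 : (oneY Y - δ) b = oneY Y b - δ b := rfl
    have hab : a ≠ b := by rintro rfl; omega
    rw [map_mul, cross, dP, map_prod, Finset.prod_eq_zero (i := (a, b)) (by simp [hab]), zero_mul]
    rw [map_pow, map_sub, evP_zv, evP_zv, sub_self]
    exact zero_pow (Nat.mul_pos hh (by simp only; omega)).ne'

end T39

open T39 in
theorem st_SH : St_SH := fun _ h =>
  ⟨fun _ _ _ _ => sh_admU h, fun _ _ _ _ => sh_hom h, PW_sh h, TW_sh h,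
    fun k _ _ hS => ⟨⟨PW_admU k hS.1, PW_hom h k hS.2⟩, TW_adm h k hS⟩,
    fun k _ _ => PW_admU k, fun _ Y x _ hh => evP_dec hh Y x⟩

end Pool.Agent.Lib.CC61
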