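import Pool.Agent.Lib.CC61.GBlue
import Pool.Agent.Lib.CC61.GKit1
import Pool.Agent.Lib.CC61.GKit2

/-! Project cc61, block SSUM. -/

noncomputable section

namespace Pool.Agent.Lib.CC61

open Pool.Agent.Lib.MP_cc3443_ag

variable (K : Type) [Field K] [Algebra ℂ K] [Algebra (RatFunc ℂ) K]
  [IsScalarTower ℂ (RatFunc ℂ) K] [FiniteDimensional (RatFunc ℂ) K]

namespace T24

variable {K} {N N' : ℕ}

/-- All subsheaves have slope at most that of `ν`. -/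
def SubLe (ν : Cl) (E F : Lat K N) : Prop :=
  ∀ W, F ≤ W → W ≤ E → (dg W - dg F) * ν.1 ≤ ν.2 * ((rk W : ℤ) - rk F)

theorem subLe_par {μ ν : Cl} {E F : Lat K N} (h : HasClass E F μ) (h1 : μ.2 * ν.1 = ν.2 * μ.1)
    (h2 : μ.1 ≤ ν.1) : SubLe μ E F ↔ SubLe ν E F := by
  obtain ⟨c1, c2, c3⟩ := hasClass_iff_dg.1 h
  refine forall₃_congr fun W w1 w2 => ?_
  have a1 := rk_mono w1
  have a2 := rk_mono w2
  rcases Nat.eq_zero_or_pos μ.1 with e | e
  · have a3 := dg_mono w2 (by omega)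
    have a4 := dg_mono w1 (by omega)
    rw [e, show (rk W : ℤ) - rk F = 0 by omega]
    rw [e] at h1
    simp only [Nat.cast_zero, mul_zero, le_refl, true_iff] at h1 ⊢
    rcases mul_eq_zero.1 h1 with a | a
    · rw [show dg W - dg F = 0 by omega, zero_mul]
    · rw [a, mul_zero]
  · have p1 : (0 : ℤ) < μ.1 := by omega
    have p2 : (0 : ℤ) < ν.1 := by omega
    have e1 : μ.2 * ((rk W : ℤ) - rk F) * ν.1 = ν.2 * ((rk W : ℤ) - rk F) * μ.1 := by
      linear_combination ((rk W : ℤ) - rk F) * h1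
    rw [← mul_le_mul_iff_left₀ p2, e1, mul_right_comm, mul_le_mul_iff_left₀ p1]

theorem subLe_oplus {ν : Cl} {E F : Lat K N} {E' F' : Lat K N'} (h : F ≤ E) (h' : F' ≤ E') :
    SubLe ν (oplus E E') (oplus F F') ↔ SubLe ν E F ∧ SubLe ν E' F' := by
  refine ⟨fun H => ⟨fun W w1 w2 => ?_, fun W w1 w2 => ?_⟩, fun H A a1 a2 => ?_⟩
  · simpa [dg_oplus, rk_oplus] using H _ (oplus_mono w1 le_rfl) (oplus_mono w2 h')
  · simpa [dg_oplus, rk_oplus] using H _ (oplus_mono le_rfl w1) (oplus_mono h w2)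
  · have b0 : (A.restrict (LinearMap.ker (pr2 N N'))).gen ⊓ LinearMap.ker (pr1 N N') = ⊥ :=
      eq_bot_iff.2 fun w hw => by
        have e1 : pr2 N N' w = 0 := hw.1.2
        have e2 : pr1 N N' w = 0 := hw.2
        rw [Submodule.mem_bot, ← in1_add_in2 w, e1, e2, map_zero, map_zero, add_zero]
    have b1 := H.1 ((A.restrict (LinearMap.ker (pr2 N N'))).mapL (pr1 N N'))
      (fun x w hw => Lat.mem_mapL.2 ⟨_, Lat.mem_restrict.2
        ⟨a1 x (in1_mem_oplus.2 hw), pr2_in1 w⟩, pr1_in1 w⟩)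
      ((mapL_mono (A.restrict_le _) _).trans (le_oplus_iff.1 a2).1)
    have b2 := H.2 (A.mapL (pr2 N N')) (mapL_pr2_oplus F F' ▸ mapL_mono a1 _)
      (le_oplus_iff.1 a2).2
    rw [dg_mapL_inj b0, rk_mapL_inj b0] at b1
    rw [dg_exact A (pr2 N N'), rk_exact A (pr2 N N'), dg_oplus, rk_oplus]
    push_cast
    linarith

theorem ss_oplus_iff {ν μ : Cl} {E F : Lat K N} {E' F' : Lat K N'} (h : HasClass E F μ)
    (h' : F' ≤ E') : HasClass (oplus E E') (oplus F F') ν ∧ SubLe ν (oplus E E') (oplus F F') ↔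
      μ ∈ par ν ∧ (HasClass E F μ ∧ SubLe μ E F) ∧
        HasClass E' F' (ν - μ) ∧ SubLe (ν - μ) E' F' := by
  obtain ⟨c1, c2, c3⟩ := hasClass_iff_dg.1 h
  have c4 := rk_mono h'
  have k : μ.2 * ν.1 = ν.2 * μ.1 → μ.1 ≤ ν.1 → HasClass E' F' (ν - μ) →
      (SubLe ν (oplus E E') (oplus F F') ↔ SubLe μ E F ∧ SubLe (ν - μ) E' F') := fun e1 e2 e3 => by
    rw [subLe_oplus c1 h', subLe_par h e1 e2, subLe_par e3 (ν := ν) (by
      rw [Prod.fst_sub, Prod.snd_sub, Nat.cast_sub e2]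
      linear_combination -e1) (Nat.sub_le _ _)]
  simp only [par, Finset.mem_filter, Finset.mem_product, Finset.mem_range, Finset.mem_Icc]
  constructor
  · rintro ⟨a, H⟩
    obtain ⟨-, a2, a3⟩ := hasClass_iff_dg.1 a
    rw [rk_oplus, rk_oplus] at a2
    rw [dg_oplus, dg_oplus] at a3
    have a4 : HasClass E' F' (ν - μ) :=
      hasClass_iff_dg.2 ⟨h', by rw [Prod.fst_sub]; omega, by rw [Prod.snd_sub]; omega⟩
    obtain ⟨H1, H2⟩ := (subLe_oplus c1 h').1 H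
    have b1 := H1 E c1 le_rfl
    have b2 := H2 E' h' le_rfl
    rw [show dg E - dg F = μ.2 by omega, show (rk E : ℤ) - rk F = μ.1 by omega] at b1
    rw [show dg E' - dg F' = ν.2 - μ.2 by omega,
      show (rk E' : ℤ) - rk F' = ν.1 - μ.1 by omega] at b2
    have b3 : μ.2 * ν.1 = ν.2 * μ.1 := by linarith
    have b4 : μ.1 ≤ ν.1 := by omega
    have b5 : ν.1 = 0 → 0 ≤ μ.2 ∧ μ.2 ≤ ν.2 := fun e => by
      have := dg_mono c1 (by omega)
      have := dg_mono h' (by omega)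
      omega
    obtain ⟨H3, H4⟩ := (k b3 b4 a4).1 H
    refine ⟨⟨⟨by omega, abs_le.1 ?_⟩, b3, b5⟩, ⟨h, H3⟩, a4, H4⟩
    rcases Nat.eq_zero_or_pos ν.1 with e | e
    · rw [abs_of_nonneg (b5 e).1]
      exact (b5 e).2.trans (le_abs_self _)
    · refine le_of_mul_le_mul_right ?_ (show (0 : ℤ) < ν.1 by omega)
      rw [← Nat.abs_cast (R := ℤ) ν.1, ← abs_mul, b3, abs_mul, Nat.abs_cast, Nat.abs_cast]
      exact mul_le_mul_of_nonneg_left (by omega) (abs_nonneg _)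
  · rintro ⟨⟨⟨a1, -⟩, a2, -⟩, ⟨-, H1⟩, a3, H2⟩
    obtain ⟨-, b2, b3⟩ := hasClass_iff_dg.1 a3
    rw [Prod.fst_sub] at b2
    rw [Prod.snd_sub] at b3
    exact ⟨hasClass_iff_dg.2 ⟨oplus_mono c1 h', by rw [rk_oplus, rk_oplus]; omega,
      by rw [dg_oplus, dg_oplus]; omega⟩, (k a2 (by omega) a3).2 ⟨H1, H2⟩⟩

end T24

theorem st_SSUM (hL : St_LET K) : St_SSUM K := by
  intro N N' E F E' F' ν h h'
  have h1 := hasClass_self h
  generalize (rk E - rk F, dg E - dg F) = μ at h1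
  have h2 : ∀ κ, κ ≠ μ → ssFn κ N E F * ssFn (ν - κ) N' E' F' = 0 := fun κ e =>
    mul_eq_zero_of_left (by_contra fun h0 => e (by
      obtain ⟨-, a2, a3⟩ := hasClass_iff_dg.1 h1
      obtain ⟨-, b2, b3⟩ := hasClass_iff_dg.1 ((hL.2.1 κ).supp h0)
      exact Prod.ext (by omega) (by omega))) _
  have h3 := T24.ss_oplus_iff (ν := ν) h1 h'
  rw [hL.2.2.2.2.2.1]
  by_cases e : μ ∈ par ν
  · rw [Finset.sum_eq_single_of_mem μ e fun κ _ => h2 κ, hL.2.2.2.2.2.1, hL.2.2.2.2.2.1, ← ind_and]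
    exact ind_congr (h3.trans (and_iff_right e))
  · rw [Finset.sum_eq_zero fun κ hκ => h2 κ fun a => e (a ▸ hκ)]
    exact ind_false fun a => e (h3.1 a).1

end Pool.Agent.Lib.CC61
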