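import Pool.Agent.Lib.CC61.B_HECKE

/-! Project cc61, block SUBQ. -/

noncomputable section

namespace Pool.Agent.Lib.CC61

open Pool.Agent.Lib.MP_cc3443_ag

variable (K : Type) [Field K] [Algebra ℂ K] [Algebra (RatFunc ℂ) K]
  [IsScalarTower ℂ (RatFunc ℂ) K] [FiniteDimensional (RatFunc ℂ) K]

namespace T24

variable {K} {N : ℕ}

theorem word_two (hL : St_LET K) {V : Lat K N} {j : ℕ} (hj : j ≤ rk V) (m m' : ℤ)
    (e : m' + m = dg V) : word bFn [(rk V - j, m'), (j, m)] N V ⊥ =
      (QC V j (m + j * chiO K)).int fun G => ind (Sat V G) := by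
  rw [word, word_single hL.1, (hL.1 _).hall_eq (hL.1 _), rk_bot, chiL_bot, zero_add, zero_add]
  refine Chart.int_congr _ fun G hG => ?_
  obtain ⟨g1, g2, g3⟩ := QC_R.1 hG
  simp only at g2 g3
  have g4 : dg G = m := by rw [dg, g2, g3]; ring
  rw [bFn, bFn, ← ind_and]
  exact ind_congr ⟨fun a => a.1.2, fun a => ⟨⟨hasClass_iff_dg.2 ⟨g1, by simp only; omega,
    by simp only; omega⟩, a⟩, hasClass_iff.2 ⟨bot_le, by simpa using g2, by simpa using g3⟩,
    fun x w _ hw => by rw [Lat.bot_gen, Submodule.mem_bot] at hw; exact hw ▸ zero_mem _⟩⟩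

end T24

theorem st_SUBQ (hL : St_LET K) (hQ : St_QUOT K) : St_SUBQ K := by
  intro h hχ N V j l hj
  obtain ⟨B, hB⟩ := exists_dg_bound V
  have hΓ : Del fun p : Lat K N × Lat K N =>
      (p.1 ≤ p.2 ∧ rk p.2 = j) ∧ p.2 ≤ V ∧ Sat V p.2 :=
    ((Del.le (by fun_prop) (by fun_prop)).and (Del.rk_eq (by fun_prop) j)).and
      (Del.sat (DMap.const V) (by fun_prop))
  rw [qi, disint _ V (DFun.const 1) hΓ ((Finset.range (2 * h * j + 1 + (B - l).toNat)).image
    fun k : ℕ => (j, l + k + j * chiO K)) fun U hU _ => ?_,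
    Finset.sum_image fun a _ b _ e => by simpa using e]
  · refine Eq.trans (Finset.sum_congr rfl fun k _ => ?_) (Finset.sum_subset
      (Finset.range_subset_range.2 (Nat.le_add_right _ (B - l).toNat)) fun k _ hk => by
        rw [cc, Nat.choose_eq_zero_of_lt (by simpa using hk), Nat.cast_zero, mul_zero,
          zero_mul]).symm
    have hD : DFun fun G : Lat K N => ind (G ≤ V ∧ Sat V G) :=
      (Del.sat (DMap.const V) DMap.id').ind
    rw [T24.word_two hL hj _ _ (by ring), Chart.int_congr (QC V j (l + k + j * chiO K))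
      (F := fun G => ind (Sat V G)) (G := fun G => ind (G ≤ V ∧ Sat V G))
      (fun G hG => ind_congr (and_iff_right (QC_R.1 hG).1).symm), ← Chart.int_const_mul _ hD]
    refine Chart.int_congr _ fun G hG => ?_
    obtain ⟨g1, g2, g3⟩ := QC_R.1 hG
    simp only at g2 g3
    have e := hQ h hχ N G k
    rw [g2, g3, show l + k + j * chiO K - k = l + j * chiO K by ring,
      ← int_QC_le g1 _ _ (DFun.const 1)] at e
    rw [← e, mul_comm _ (ind _), ← Chart.int_const_mul _
      ((Del.le DMap.id' (DMap.const G)).ind.mul (DFun.const 1))]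
    refine Chart.int_congr _ fun U _ => ?_
    rw [ind_and, ind_and, ind_true g2]
    ring
  · obtain ⟨u1, u2, u3⟩ := QC_R.1 hU
    have a1 := T24.rk_sat u1
    have a2 := le_restrict u1 le_rfl
    have a3 := chiL_mono a2 a1.symm
    have a4 := hB _ (V.restrict_le U.gen)
    rw [dg, a1, u2] at a4
    refine ⟨V.restrict U.gen, ⟨⟨a2, a1.trans u2⟩, V.restrict_le _, sat_restrict V _⟩,
      V.restrict_le _, Finset.mem_image.2 ⟨(chiL (V.restrict U.gen) - chiL U).toNat,
        Finset.mem_range.2 (by omega), Prod.ext (a1.trans u2).symm (by simp only; omega)⟩,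
      fun G g1 g2 => ?_⟩
    rw [gen_eq_of_rk g2.1.1 (u2.trans g2.1.2.symm)]
    exact g2.2.2.eq_restrict g1

end Pool.Agent.Lib.CC61
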