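import Pool.Agent.Lib.CC61.B_PSUR

open Finset

noncomputable section

namespace Pool.Agent.Lib.CC61

namespace T39

variable {l h : ℕ} {X : Sys} {S : X.Λ → Fam l}

theorem surj_dec (H : AxN h X S) (ν : Cl)
    (ih : ∀ μ : Cl, 0 < μ.1 → μ.1 < ν.1 →
      Submodule.span ℂ (S '' {V | X.cl V = μ}) = Adm l h μ) :
    Submodule.span ℂ {T | ∃ V W, 0 < (X.cl V).1 ∧ 0 < (X.cl W).1 ∧ X.cl V + X.cl W = ν ∧
      T = S (X.add V W)} = Dec l h ν := by
  refine le_antisymm (Submodule.span_mono ?_) (Submodule.span_le.mpr ?_)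
  · rintro _ ⟨V, W, h1, h2, h3, rfl⟩
    exact ⟨_, _, _, _, h1, h2, h3, H.adm V, H.adm W, H.mul V W⟩
  · rintro _ ⟨ν₁, ν₂, S₁, S₂, h1, h2, h3, h4, h5, rfl⟩
    have h6 : ν₁.1 + ν₂.1 = ν.1 := congrArg Prod.fst h3
    rw [← ih ν₁ h1 (by omega)] at h4
    rw [← ih ν₂ h2 (by omega)] at h5
    refine (Submodule.map₂_span_span ℂ (shL h) _ _).le.trans (Submodule.span_mono ?_)
      (Submodule.apply_mem_map₂ (shL h) h4 h5)
    rintro _ ⟨_, ⟨V, rfl, rfl⟩, _, ⟨W, rfl, rfl⟩, rfl⟩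
    exact ⟨V, W, h1, h2, h3, (H.mul V W).symm⟩

theorem surj_adm (H : AxN h X S) (r : ℕ) : ∀ ν : Cl, ν.1 = r → 0 < ν.1 → ν.1 ≤ l →
    Submodule.span ℂ (S '' {V | X.cl V = ν}) = Adm l h ν := by
  induction r using Nat.strong_induction_on with
  | _ r ih =>
    rintro ⟨r', d⟩ rfl hr hl
    simp only at ih hr hl
    set R := Submodule.span ℂ (S '' {G | (X.cl G).1 = r'}) with hR
    have hD : DecU l h r' ≤ R := by
      intro D hD
      have h1 : DecU l h r' ≤ AdmU l r' := Submodule.span_le.mpr (by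
        rintro _ ⟨r₁, r₂, S₁, S₂, -, -, rfl, h1, h2, rfl⟩
        exact sh_admU h h1 h2)
      obtain ⟨I, hI⟩ := exists_sum_hc h (h1 hD)
      rw [hI]
      refine R.sum_mem fun e _ => ?_
      have h2 := hc_dec h e hD
      rw [← surj_dec H (r', e) fun μ a1 a2 => ih _ a2 μ rfl a1 (a2.le.trans hl)] at h2
      refine Submodule.span_mono ?_ h2
      rintro _ ⟨V, W, -, -, h3, rfl⟩
      exact ⟨_, by rw [Set.mem_ofPred_eq, H.cl_add, h3], rfl⟩
    have hT : ∀ U ∈ R, ∀ n, TT h n * U ∈ R := fun U hU n =>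
      (Submodule.span_le (p := R.comap (LinearMap.mulLeft ℂ (TT h n)))).mpr (by
        rintro _ ⟨V, hV, rfl⟩
        have := H.hecke V n
        rwa [show (X.cl V).1 = r' from hV] at this) hU
    have hW : ∀ U ∈ R, ∀ k, TW k * U ∈ R := fun U hU k =>
      (Submodule.span_le (p := R.comap (LinearMap.mulLeft ℂ (TW k)))).mpr (by
        rintro _ ⟨V, hV, rfl⟩
        obtain ⟨V', h1, h2⟩ := H.twist V k
        exact Submodule.subset_span ⟨V', by rw [Set.mem_ofPred_eq, h1]; exact hV, h2⟩) hU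
    have hA : AdmU l r' ≤ R := by
      refine st_ST3 l h r' R hl hD (st_NULL l h r' R hr hl hD fun x => ?_)
      obtain ⟨V, hV, hne⟩ := H.oper r' hr hl
      obtain ⟨D, h1, _, ⟨f₀, rfl⟩, h2⟩ := Submodule.mem_sup.mp (st_ST3 l h r'
        (DecU l h r' ⊔ LinearMap.range (pureL (oneY (Y0 l r')) ∘ₗ (prj (Y0 l r')).toLinearMap)) hl
        le_sup_left (fun f => Submodule.mem_sup_right ⟨f, rfl⟩) (hV ▸ (H.adm V).1))
      change D + pure (oneY (Y0 l r')) (prj (Y0 l r') f₀) = S V at h2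
      set U := pure (oneY (Y0 l r')) (prj (Y0 l r') f₀) with hU
      obtain ⟨-, a2, a3⟩ := mem_AdmU.mp (pure_prj_admU hl f₀)
      have h3 : prj (Y0 l r') (U (oneY (Y0 l r'))) = U (oneY (Y0 l r')) :=
        prj_of_mem fun a ha => a2 _ a (by simp [oneY, ha])
      have h4 : U ∈ R := by
        rw [eq_sub_of_add_eq' h2]
        exact R.sub_mem (Submodule.subset_span ⟨V, hV, rfl⟩) (hD h1)
      refine ⟨U (oneY (Y0 l r')), ?_, fun f => ?_⟩
      · rw [h3, eq_sub_of_add_eq' h2, Pi.sub_apply, map_sub, evP_dec H.hpos _ x h1, sub_zero,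
          evP_of_mem (mem_Hom.mp (H.adm V).2 _) x]
        exact mul_ne_zero (Units.ne_zero _) hne
      · rw [map_mul, h3, ← pure_mul _ _ U fun σ δ => (a3 σ δ).symm]
        refine st_MUL l h R H.hpos hT hW _ U h4 (fun γ hγ => ?_) f
        obtain ⟨σ, -, h5⟩ := Finset.exists_ne_zero_of_sum_ne_zero hγ
        have h6 : γ ∘ σ = oneY (Y0 l r') := by
          by_contra hn
          exact h5 (if_neg hn)
        refine ⟨(Y0 l r').map σ.toEmbedding, card_map _, funext fun a => ?_⟩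
        have h7 := congrFun h6 (σ.symm a)
        simpa [oneY] using h7
    refine le_antisymm (Submodule.span_le.mpr ?_) fun T hT => ?_
    · rintro _ ⟨V, hV, rfl⟩
      exact hV ▸ H.adm V
    · have h1 : hc h d T = T := by rw [hc_of_mem d hT.2, if_pos rfl]
      rw [← h1]
      refine Submodule.mem_comap.mp
        ((Submodule.span_le (p := Submodule.comap (hc h d) _)).mpr ?_ (hA hT.1))
      rintro _ ⟨V, hV, rfl⟩
      rw [SetLike.mem_coe, Submodule.mem_comap, hc_of_mem d (H.adm V).2]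
      split_ifs with h2
      · exact Submodule.subset_span ⟨V, Prod.ext hV h2, rfl⟩
      · exact Submodule.zero_mem _

end T39

open T39 in
theorem st_SURJ : St_SURJ := fun _ _ _ _ H ν h1 h2 =>
  ⟨surj_adm H _ ν rfl h1 h2, surj_dec H ν fun μ a1 a2 => surj_adm H _ μ rfl a1 (a2.le.trans h2)⟩

end Pool.Agent.Lib.CC61
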