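import Pool.Agent.Lib.CC61.GBlue
import Pool.Agent.Lib.CC61.GKit2

/-! Project cc61, block TCH: a torsion sheaf is a direct sum or a chain. -/

open Filter WithZero Finsupp

noncomputable section

namespace Pool.Agent.Lib.CC61

open Pool.Agent.Lib.MP_cc3443_ag

variable {K : Type} [Field K] [Algebra ℂ K] [Algebra (RatFunc ℂ) K]
  [IsScalarTower ℂ (RatFunc ℂ) K] [FiniteDimensional (RatFunc ℂ) K]

namespace T8

variable {N : ℕ}

lemma mem_span_of_line {e w : Fin N → K} {D : Place K →₀ ℤ} {y : Place K}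
    (h : w ∈ (line e D).S y) : w ∈ K ∙ e := by
  obtain ⟨z, -, rfl⟩ := mem_line.1 h
  exact Submodule.smul_mem _ _ (Submodule.mem_span_singleton_self e)

lemma exists_restrict_line {G : Lat K N} {e : Fin N → K} (he : e ≠ 0) (h : e ∈ G.gen) :
    ∃ D, G.restrict (K ∙ e) = line e D :=
  exists_line he (inf_eq_right.2 ((Submodule.span_singleton_le_iff_mem _ _).2 h))

/-- The chain obtained by raising the pole order of one section at one point. -/
lemma chain_line {F : Lat K N} {e : Fin N → K} (he : e ≠ 0) (h : e ∈ F.gen) {D : Place K →₀ ℤ}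
    (hD : F.restrict (K ∙ e) = line e D) (x : Place K) (n : ℕ) :
    Chain (lsup F (line e (D + single x (n : ℤ)))) F n
      fun k => lsup F (line e (D + single x (k : ℤ))) := by
  have h0 : line e D ≤ F := hD ▸ F.restrict_le _
  have hm : ∀ j k : ℕ, j ≤ k → D + single x (j : ℤ) ≤ D + single x (k : ℤ) := fun j k hjk y => by
    by_cases hy : x = y
    · subst hy; simpa using hjk
    · simp [single_eq_of_ne (Ne.symm hy)]
  have hm0 : ∀ k : ℕ, line e D ≤ line e (D + single x (k : ℤ)) := fun k =>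
    (line_le_line he).2 (by simpa using hm 0 k (Nat.zero_le k))
  have hi : ∀ k : ℕ, linf F (line e (D + single x (k : ℤ))) = line e D := fun k =>
    le_antisymm (fun y w hw => hD ▸ Lat.mem_restrict.2 ⟨(mem_linf.1 hw).1,
      mem_span_of_line (mem_linf.1 hw).2⟩) (le_linf h0 (hm0 k))
  have hr : ∀ k : ℕ, rk (lsup F (line e (D + single x (k : ℤ)))) = rk F ∧
      dg (lsup F (line e (D + single x (k : ℤ)))) = dg F + k := fun k => by
    have h1 := rk_lsup_add_linf F (line e (D + single x (k : ℤ)))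
    have h2 := dg_lsup_add_linf F (line e (D + single x (k : ℤ)))
    rw [hi, rk_line he, rk_line he] at h1
    rw [hi, dg_line he, dg_line he, map_add, degree_single] at h2
    omega
  refine ⟨rfl, fun j k hjk _ => hasClass_iff_dg.2 ⟨lsup_le (le_lsup_left _ _)
    (((line_le_line he).2 (hm j k hjk)).trans (le_lsup_right _ _)), ?_, ?_⟩, ?_, fun G h1 h2 => ?_⟩
  · simp [(hr j).1, (hr k).1]
  · simp only [(hr j).2, (hr k).2]; ring
  · exact le_antisymm (lsup_le le_rfl (by simpa using h0)) (le_lsup_left _ _)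
  obtain ⟨D', hD'⟩ := exists_restrict_line he (Lat.gen_mono h1 h)
  have h3 : D ≤ D' := (line_le_line he).1 (hD ▸ hD' ▸ restrict_mono h1 _)
  have h4 : D' ≤ D + single x (n : ℤ) := by
    refine (line_le_line he).1 (hD' ▸ fun y w hw => ?_)
    obtain ⟨f, hf, l, hl, rfl⟩ := Submodule.mem_sup.1 (mem_lsup.1 (h2 y (Lat.mem_restrict.1 hw).1))
    refine add_mem (hm0 n y (hD ▸ Lat.mem_restrict.2 ⟨hf, ?_⟩)) hl
    simpa using sub_mem (Lat.mem_restrict.1 hw).2 (mem_span_of_line hl)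
  have h5 : D x ≤ D' x := h3 x
  have h6 : D' x ≤ D x + n := by simpa using h4 x
  obtain ⟨k, hk⟩ := Int.eq_ofNat_of_zero_le (sub_nonneg.2 h5)
  have h7 : D' = D + single x (k : ℤ) := by
    ext y
    by_cases hy : x = y
    · subst hy; simp only [Finsupp.add_apply, single_eq_same]; omega
    · have h8 := h4 y
      simp only [Finsupp.add_apply, single_eq_of_ne (Ne.symm hy), add_zero] at h8 ⊢
      exact le_antisymm h8 (h3 y)
  refine ⟨k, by omega, le_antisymm (fun y w hw => ?_)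
    (lsup_le h1 (h7 ▸ hD' ▸ G.restrict_le _))⟩
  obtain ⟨f, hf, l, hl, rfl⟩ := Submodule.mem_sup.1 (mem_lsup.1 (h2 y hw))
  refine mem_lsup.2 (Submodule.add_mem_sup hf (h7 ▸ hD' ▸ Lat.mem_restrict.2 ⟨?_,
    mem_span_of_line hl⟩))
  simpa using sub_mem hw (h1 y hf)

/-- Adding one local section. -/
lemma exists_add {G E : Lat K N} (h : G ≤ E) (hr : rk G = rk E) (y : Place K) {w : Fin N → K}
    (hw : w ∈ E.S y) : ∃ G', G ≤ G' ∧ G' ≤ E ∧ G'.S y = G.S y ⊔ y.O ∙ w ∧
      ∀ y', y' ≠ y → G'.S y' = G.S y' := by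
  classical
  have h1 : ∀ y', G.S y' ≤ Function.update G.S y (G.S y ⊔ y.O ∙ w) y' := fun y' => by
    by_cases hy : y' = y
    · subst hy; simp
    · simp [hy]
  have h2 : ∀ y', Function.update G.S y (G.S y ⊔ y.O ∙ w) y' ≤ E.S y' := fun y' => by
    by_cases hy : y' = y
    · subst hy
      simpa using ⟨h y', hw⟩
    · simpa [hy] using h y'
  let G' := G.modify (Function.update G.S y (G.S y ⊔ y.O ∙ w)) (fun y' => (E.fg_S y').of_le (h2 y'))
    (fun y' => le_antisymm (by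
      rw [gen_eq_of_rk h hr, ← E.span_S y']
      exact Submodule.span_mono (h2 y')) (G.span_S y' ▸ Submodule.span_mono (h1 y')))
    ((eventually_cofinite_ne y).mono fun y' hy => Function.update_of_ne hy _ _)
  have h3 : ∀ y', G'.S y' = Function.update G.S y (G.S y ⊔ y.O ∙ w) y' := fun y' => Lat.mk'_S ..
  exact ⟨G', fun y' => h3 y' ▸ h1 y', fun y' => h3 y' ▸ h2 y', by simp [h3],
    fun y' hy => by simp [h3, hy]⟩

lemma mem_sup_span {x : Place K} {A : Submodule x.O (Fin N → K)} {e w : Fin N → K} :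
    w ∈ A ⊔ x.O ∙ e ↔ ∃ z : K, x.val z ≤ 1 ∧ w - z • e ∈ A := by
  constructor
  · intro h
    obtain ⟨a, ha, b, hb, rfl⟩ := Submodule.mem_sup.1 h
    obtain ⟨z, rfl⟩ := Submodule.mem_span_singleton.1 hb
    exact ⟨z, x.mem_iff.1 z.2, by
      change a + (z : K) • e - (z : K) • e ∈ A
      rwa [add_sub_cancel_right]⟩
  · rintro ⟨z, hz, h⟩
    rw [← sub_add_cancel w (z • e)]
    exact Submodule.add_mem_sup h (Submodule.mem_span_singleton.2 ⟨⟨z, x.mem_iff.2 hz⟩, rfl⟩)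

/-- A section of maximal order generates a direct summand. -/
lemma exists_compl_cyc {E F : Lat K N} (h : F ≤ E) (hr : rk F = rk E) {x : Place K} {m : ℕ}
    {e : Fin N → K} (he : e ∈ E.S x) (hE : ∀ w ∈ E.S x, x.unif ^ (m + 1) • w ∈ F.S x)
    (hF : ∀ z : K, z • e ∈ F.S x → x.val z ≤ exp (-(m + 1 : ℤ))) :
    ∃ G, F ≤ G ∧ G ≤ E ∧ (∀ z : K, x.val z ≤ 1 → z • e ∈ G.S x → z • e ∈ F.S x) ∧
      (∀ y, y ≠ x → E.S y ≤ G.S y) ∧ E.S x ≤ G.S x ⊔ x.O ∙ e := by
  let P : Lat K N → Prop := fun G =>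
    F ≤ G ∧ G ≤ E ∧ ∀ z : K, x.val z ≤ 1 → z • e ∈ G.S x → z • e ∈ F.S x
  have hrk : ∀ G, F ≤ G → G ≤ E → rk G = rk E := fun G a b =>
    le_antisymm (rk_mono b) (hr ▸ rk_mono a)
  obtain ⟨_, ⟨G, hG, rfl⟩, hmax⟩ := Int.exists_greatest_of_bdd (P := fun t => ∃ G, P G ∧ dg G = t)
    ⟨dg E, by rintro _ ⟨G, hG, rfl⟩; exact dg_mono hG.2.1 (hrk G hG.1 hG.2.1)⟩
    ⟨dg F, F, ⟨le_rfl, h, fun _ _ h => h⟩, rfl⟩
  have hrG := hrk G hG.1 hG.2.1
  have heq : ∀ G', G ≤ G' → P G' → G = G' := fun G' a b =>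
    eq_of_dg a (hrG.trans (hrk G' b.1 b.2.1).symm) (hmax _ ⟨G', b, rfl⟩)
  have hπ := x.unif_ne_zero
  have hv := x.val_unif
  refine ⟨G, hG.1, hG.2.1, hG.2.2, fun y hy w hw => ?_, ?_⟩
  · obtain ⟨G', a, b, c, d⟩ := exists_add hG.2.1 hrG y hw
    rw [heq G' a ⟨hG.1.trans a, b, by rw [d x hy.symm]; exact hG.2.2⟩, c]
    exact Submodule.mem_sup_right (Submodule.mem_span_singleton_self w)
  have hdiv : ∀ a : K, x.val a ≤ exp (-1) → x.val (a / x.unif) ≤ 1 := fun a ha => by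
    rw [map_div₀, hv]
    exact div_le_one_of_le₀ ha zero_le
  have hpow : ∀ j : ℕ, x.val (x.unif ^ j) = exp (-(j : ℤ)) := fun j => by
    rw [← x.val_unif_zpow, zpow_natCast]
  have hpow' : ∀ j : ℕ, x.val (x.unif ^ j) ≤ 1 := fun j => by
    rw [hpow, ← exp_zero, exp_le_exp]; omega
  have step : ∀ w ∈ E.S x, x.unif • w ∈ G.S x ⊔ x.O ∙ e → w ∈ G.S x ⊔ x.O ∙ e := by
    intro w hw h1
    obtain ⟨a, ha, h2⟩ := mem_sup_span.1 h1
    have h3 : (x.unif ^ m * a) • e ∈ G.S x := by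
      have h4 := sub_mem (hG.1 x (hE w hw)) (Lat.smul_mem (x.mem_iff.2 (hpow' m)) h2)
      rwa [smul_sub, smul_smul, smul_smul, ← pow_succ, sub_sub_cancel] at h4
    have h4 := hF _ (hG.2.2 _ (by rw [map_mul]; exact mul_le_one' (hpow' m) ha) h3)
    have h5 : x.val a ≤ exp (-1) := by
      rw [map_mul, hpow, neg_add, exp_add] at h4
      exact le_of_mul_le_mul_left h4 exp_pos
    have h6 : w - (a / x.unif) • e ∈ E.S x :=
      sub_mem hw (Lat.smul_mem (x.mem_iff.2 (hdiv a h5)) he)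
    have h7 : x.unif • (w - (a / x.unif) • e) ∈ G.S x := by
      rwa [smul_sub, smul_smul, mul_div_cancel₀ _ hπ]
    obtain ⟨G', a', b, c, -⟩ := exists_add hG.2.1 hrG x h6
    by_cases h8 : ∀ z : K, x.val z ≤ 1 → z • e ∈ G'.S x → z • e ∈ F.S x
    · refine mem_sup_span.2 ⟨_, hdiv a h5, ?_⟩
      rw [heq G' a' ⟨hG.1.trans a', b, h8⟩, c]
      exact Submodule.mem_sup_right (Submodule.mem_span_singleton_self _)
    push Not at h8
    obtain ⟨z, hz, h8, h9⟩ := h8
    obtain ⟨t, ht, h10⟩ := mem_sup_span.1 (c ▸ h8)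
    have h11 : 1 ≤ x.val t := by
      by_contra h11
      have h12 := Lat.smul_mem (x.mem_iff.2 (hdiv t (x.val_lt_one_iff.1 (not_le.1 h11)))) h7
      rw [smul_smul, div_mul_cancel₀ _ hπ] at h12
      exact h9 (hG.2.2 z hz (by simpa using add_mem h10 h12))
    have ht0 : t ≠ 0 := by rintro rfl; simp at h11
    have h12 := (x.inv_mem_iff ht0).2 h11
    refine mem_sup_span.2 ⟨a / x.unif + t⁻¹ * z, x.val.map_add_le (hdiv a h5)
      (by rw [map_mul]; exact mul_le_one' (x.mem_iff.1 h12) hz), ?_⟩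
    have h13 := neg_mem (Lat.smul_mem h12 h10)
    rwa [smul_sub, smul_smul, smul_smul, inv_mul_cancel₀ ht0, one_smul, neg_sub, sub_sub,
      ← add_smul] at h13
  have key : ∀ j : ℕ, ∀ w ∈ E.S x, x.unif ^ j • w ∈ G.S x ⊔ x.O ∙ e → w ∈ G.S x ⊔ x.O ∙ e := by
    intro j
    induction j with
    | zero => exact fun w _ h => by simpa using h
    | succ j ih =>
      intro w hw h1
      refine ih w hw (step _ (Lat.smul_mem (x.mem_iff.2 (hpow' j)) hw) ?_)
      rwa [smul_smul, ← pow_succ']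
  exact fun w hw => key (m + 1) w hw (Submodule.mem_sup_left (hG.1 x (hE w hw)))

lemma sum_or_chain {E F : Lat K N} {d : ℕ} (hc : HasClass E F (0, (d : ℤ))) :
    (∃ G₁ G₂, G₁ ≠ F ∧ G₂ ≠ F ∧ IsSum E F G₁ G₂) ∨ ∃ c, Chain E F d c := by
  classical
  obtain ⟨h, hr, hd⟩ := hasClass_iff_dg.1 hc
  simp only [add_zero] at hr hd
  by_cases hEF : E ≤ F
  · obtain rfl := le_antisymm hEF h
    obtain rfl : d = 0 := by omega
    exact Or.inr ⟨fun _ => E, rfl, fun j k a b => by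
      obtain rfl : k = 0 := by omega
      obtain rfl : j = 0 := by omega
      exact hc, rfl, fun G a b => ⟨0, le_rfl, le_antisymm b a⟩⟩
  obtain ⟨x, hx⟩ := not_forall.1 (mt Lat.le_def.2 hEF)
  have hex : ∃ n : ℕ, ∀ w ∈ E.S x, x.unif ^ n • w ∈ F.S x := by
    obtain ⟨T, M, -, hT⟩ := Lat.exists_bound (gen_eq_of_rk h hr.symm).ge
    refine ⟨M, fun w hw => hT x _ w hw ?_ fun _ => ?_⟩
    · rw [← zpow_natCast, x.val_unif_zpow, ← exp_zero, exp_le_exp]; omega
    · rw [← zpow_natCast, x.val_unif_zpow]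
  obtain ⟨m, hm⟩ : ∃ m, Nat.find hex = m + 1 := Nat.exists_eq_succ_of_ne_zero fun h0 =>
    hx fun w hw => by simpa [h0] using Nat.find_spec hex w hw
  have hE := hm ▸ Nat.find_spec hex
  have h1 := Nat.find_min hex (m := m) (by omega)
  push Not at h1
  obtain ⟨e, he, h1⟩ := h1
  have he0 : e ≠ 0 := by rintro rfl; simp at h1
  have heF : e ∈ F.gen := gen_eq_of_rk h hr.symm ▸ Lat.mem_gen he
  obtain ⟨D, hD⟩ := exists_restrict_line he0 heF
  have h2 : ∀ (y : Place K) (z : K), z • e ∈ F.S y ↔ y.val z ≤ exp (D y) := fun y z => by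
    rw [← smul_mem_line he0, ← hD, Lat.mem_restrict,
      and_iff_left (Submodule.smul_mem _ _ (Submodule.mem_span_singleton_self e))]
  have h3 : D x = -(m + 1 : ℤ) := by
    have a := (h2 x _).1 (hE e he)
    have b := mt (h2 x _).2 h1
    rw [← zpow_natCast, x.val_unif_zpow, exp_le_exp] at a b
    push_cast at a
    omega
  obtain ⟨G, a, b, c, c', c''⟩ := exists_compl_cyc h hr.symm he hE fun z hz => h3 ▸ (h2 x z).1 hz
  have hC := chain_line he0 heF hD x (m + 1)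
  have h4 : (D + single x ((m + 1 : ℕ) : ℤ)) x = 0 := by simp [h3]
  have h5 : ∀ y, y ≠ x → (D + single x ((m + 1 : ℕ) : ℤ)) y = D y := fun y hy => by
    simp [single_eq_of_ne hy]
  set L := line e (D + single x ((m + 1 : ℕ) : ℤ)) with hL
  have h6 : L ≤ E := fun y w hw => by
    obtain ⟨z, hz, rfl⟩ := mem_line.1 hw
    by_cases hy : y = x
    · subst hy
      exact Lat.smul_mem (y.mem_iff.2 (by rwa [h4, exp_zero] at hz)) he
    · exact h y ((h2 y z).2 (h5 y hy ▸ hz))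
  have h7 : lsup (lsup F L) G = E := by
    refine le_antisymm (lsup_le (lsup_le h h6) b) fun y w hw => mem_lsup.2 ?_
    by_cases hy : y = x
    · subst hy
      obtain ⟨z, hz, h8⟩ := mem_sup_span.1 (c'' hw)
      rw [← add_sub_cancel (z • e) w]
      exact Submodule.add_mem_sup (le_lsup_right F L y
        (mem_line.2 ⟨z, by rwa [h4, exp_zero], rfl⟩)) h8
    · exact Submodule.mem_sup_right (c' y hy hw)
  have h8 : linf (lsup F L) G = F := by
    refine le_antisymm (fun y w hw => ?_) (le_linf (le_lsup_left _ _) a)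
    obtain ⟨f, hf, l, hl, rfl⟩ := Submodule.mem_sup.1 (mem_lsup.1 (mem_linf.1 hw).1)
    obtain ⟨z, hz, rfl⟩ := mem_line.1 hl
    refine add_mem hf ?_
    by_cases hy : y = x
    · subst hy
      exact c z (by rwa [h4, exp_zero] at hz) (by simpa using sub_mem (mem_linf.1 hw).2 (a y hf))
    · exact (h2 y z).2 (h5 y hy ▸ hz)
  have h9 := (hasClass_iff_dg.1 (hC.cls 0 (m + 1) (Nat.zero_le _) le_rfl)).2.2
  rw [hC.bot] at h9
  simp only [← hL] at h9
  by_cases hG : G = F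
  · have h10 : lsup F L = E := by
      rw [← h7, hG]
      exact le_antisymm (le_lsup_left _ _) (lsup_le le_rfl (le_lsup_left _ _))
    obtain rfl : d = m + 1 := by rw [h10] at h9; omega
    exact Or.inr ⟨_, h10 ▸ hC⟩
  · refine Or.inl ⟨_, G, fun h10 => ?_, hG, isSum_iff.2 ⟨h8, h7⟩⟩
    rw [h10] at h9
    omega

end T8

variable (K) in
theorem st_TCH : St_TCH K :=
  ⟨fun _ _ _ _ h => T8.sum_or_chain h, fun d => by
    have h : (1 : Fin 1 → K) ∈ (OO K).gen :=
      Lat.mem_gen (x := Classical.arbitrary _) (mem_line.2 ⟨1, by simp, by simp⟩)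
    obtain ⟨D, hD⟩ := T8.exists_restrict_line one_ne_zero' h
    exact ⟨_, _, _, T8.chain_line one_ne_zero' h hD (Classical.arbitrary _) d⟩⟩

end Pool.Agent.Lib.CC61
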