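import Pool.Agent.Lib.CC61.GBlue
import Pool.Agent.Lib.CC61.GKit1

/-! Project cc61, block TCV: values of the words on chains of torsion sheaves. -/

noncomputable section

namespace Pool.Agent.Lib.CC61

open Pool.Agent.Lib.MP_cc3443_ag

variable {K : Type} [Field K] [Algebra ℂ K] [Algebra (RatFunc ℂ) K]
  [IsScalarTower ℂ (RatFunc ℂ) K] [FiniteDimensional (RatFunc ℂ) K]

namespace T8

variable {N N' : ℕ} {E F : Lat K N} {d : ℕ} {c : ℕ → Lat K N}

lemma chain_inv (h : Chain E F d c) {k : ℕ} (hk : k ≤ d) :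
    F ≤ c k ∧ c k ≤ E ∧ rk (c k) = rk F ∧ chiL (c k) = chiL F + k := by
  have h1 := hasClass_iff.1 (h.cls 0 k (Nat.zero_le _) hk)
  have h2 := hasClass_iff.1 (h.cls k d hk le_rfl)
  rw [h.bot] at h1
  rw [h.top] at h2
  exact ⟨h1.1, h2.1, by simpa using h1.2.1, by simpa using h1.2.2⟩

lemma chain_le_iff (h : Chain E F d c) {j k : ℕ} (hj : j ≤ d) (hk : k ≤ d) : c j ≤ c k ↔ j ≤ k := by
  refine ⟨fun h1 => ?_, fun h1 => (hasClass_iff.1 (h.cls j k h1 hk)).1⟩
  have a := chain_inv h hj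
  have b := chain_inv h hk
  have := chiL_mono h1 (by omega)
  omega

lemma chain_iso {E' F' : Lat K N'} {c' : ℕ → Lat K N'} (h : Chain E F d c) (h' : Chain E' F' d c') :
    Iso (fun p => ∃ k : Fin (d + 1), p.1 = c k ∧ p.2 = c' k) E F E' F' where
  le := h.top ▸ (chain_inv h le_rfl).1
  top := ⟨Fin.last d, h.top.symm, h'.top.symm⟩
  bot := ⟨0, h.bot.symm, h'.bot.symm⟩
  ex := fun G h1 h2 => by
    obtain ⟨k, hk, rfl⟩ := h.all G h1 h2
    exact ⟨c' k, ⟨k, by omega⟩, rfl, rfl⟩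
  ex' := fun G h1 h2 => by
    obtain ⟨k, hk, rfl⟩ := h'.all G h1 h2
    exact ⟨c k, (chain_inv h hk).1, (chain_inv h hk).2.1, ⟨k, by omega⟩, rfl, rfl⟩
  le_iff := by
    rintro _ _ _ _ - - - - ⟨j, rfl, rfl⟩ ⟨k, rfl, rfl⟩
    rw [chain_le_iff h j.is_le k.is_le, chain_le_iff h' j.is_le k.is_le]
  cls := by
    rintro _ _ - - ⟨k, rfl, rfl⟩
    have a := chain_inv h k.is_le
    have b := chain_inv h' k.is_le
    omega

lemma sum_nonneg_of_val (w : List Cl) (hw : ∀ x ∈ w, Val x) (h : w.sum.1 = 0) : 0 ≤ w.sum.2 := by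
  induction w with
  | nil => simp
  | cons ν w ih =>
    rw [List.sum_cons] at h ⊢
    simp only [Prod.fst_add, Prod.snd_add] at h ⊢
    have h1 := ih (fun x hx => hw x (List.mem_cons_of_mem _ hx)) (by omega)
    have h2 : 0 < ν.1 ∨ 0 ≤ ν.2 := hw ν List.mem_cons_self
    omega

lemma word_chain (hL : St_LET K) (h : Chain E F d c) (w : List Cl) (hw : ∀ x ∈ w, Val x) (k : ℕ)
    (hk : k ≤ d) (hs : w.sum = (0, (k : ℤ))) : word ssFn w N (c k) F = 1 := by
  induction w generalizing k with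
  | nil =>
    have : k = 0 := by simpa using (congrArg Prod.snd hs).symm
    rw [this, h.bot]
    exact torsFn_self F
  | cons ν w ih =>
    have hw' : ∀ x ∈ w, Val x := fun x hx => hw x (List.mem_cons_of_mem _ hx)
    have h1 := congrArg Prod.fst hs
    have h2 := congrArg Prod.snd hs
    simp only [List.sum_cons, Prod.fst_add, Prod.snd_add] at h1 h2
    have h3 := sum_nonneg_of_val w hw' (by omega)
    have h4 : 0 < ν.1 ∨ 0 ≤ ν.2 := hw ν List.mem_cons_self
    obtain ⟨j, hj⟩ := Int.eq_ofNat_of_zero_le h3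
    have h5 : w.sum = (0, (j : ℤ)) := Prod.ext (by simp only; omega) hj
    have h6 : ν = (0, ((k - j : ℕ) : ℤ)) := Prod.ext (by simp only; omega) (by simp only; omega)
    have hjk : j ≤ k := by omega
    have a := chain_inv h (hjk.trans hk)
    have hn := nice_word hL.2.1 w
    rw [word, (hL.2.1 ν).hall_single hn (G₀ := c j) ((chain_le_iff h (hjk.trans hk) hk).2 hjk)
      (by rw [h5]; exact hasClass_iff.2 ⟨a.1, by simp [a.2.2.1], by simp [a.2.2.2]⟩) ?_,
      ih hw' j (hjk.trans hk) h5, mul_one, h6, hL.2.2.2.2.2.2.1]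
    · have := h.cls j k hjk hk
      rw [← Nat.cast_sub hjk] at this
      exact if_pos this
    · intro G h7 h8
      have h9 := hasClass_iff.1 (hn.supp h8)
      obtain ⟨i, hi, rfl⟩ := h.all G h9.1 (((hL.2.1 ν).le h7).trans (chain_inv h hk).2.1)
      have b := chain_inv h hi
      rw [h5] at h9
      simp only [Nat.cast_zero, zero_mul, add_zero] at h9
      have : i = j := by omega
      rw [this]

end T8

variable (K) in
theorem st_TCV (hL : St_LET K) : St_TCV K :=
  ⟨fun _ _ _ _ _ _ _ _ _ h h' _ _ hf => hf.iso (Del.exists_finite fun _ =>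
      (Del.eq (by fun_prop) (by fun_prop)).and (Del.eq (by fun_prop) (by fun_prop)))
      (T8.chain_iso h h'),
    fun _ _ _ d _ h w hs hw => h.top ▸ T8.word_chain hL h w hw d le_rfl hs⟩

end Pool.Agent.Lib.CC61
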