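import Pool.Agent.Lib.CC61.GBlue

/-! Project cc61, block TFIN: the theorem in rank zero. -/

noncomputable section

namespace Pool.Agent.Lib.CC61

open Pool.Agent.Lib.MP_cc3443_ag

variable (K : Type) [Field K] [Algebra ℂ K] [Algebra (RatFunc ℂ) K]
  [IsScalarTower ℂ (RatFunc ℂ) K] [FiniteDimensional (RatFunc ℂ) K]

theorem st_TFIN (hP : St_PSI) (hR : St_RHO K) (hC : St_TCH K) (hV : St_TCV K) : St_TFIN K := by
  classical
  intro d H hd hH
  obtain ⟨ψ, h1, h2⟩ := hP.2.2.2 d hd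
  obtain ⟨E₀, F₀, c₀, h0⟩ := hC.2 d
  have hg := hR.1 _ ψ h1.1
  have hp := hR.2.2.1 _ ψ h1
  have h3 : ∀ (N : ℕ) (E F : Lat K N) c, Chain E F d c → rho ψ N E F = 1 := fun N E F c h =>
    h2 _ (hV.2 N E F d c h)
  have h4 : Submodule.span ℂ {f | f ∈ H ∧ Prim f} = ℂ ∙ (rho ψ : Fn K) := by
    refine le_antisymm (Submodule.span_le.2 fun f hf => Submodule.mem_span_singleton.2
      ⟨f 1 E₀ F₀, ?_⟩) (Submodule.span_mono (by simpa using ⟨hH.1 _ hg.2, hp⟩))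
    funext N E F
    obtain ⟨f', h5, h6⟩ := hH.2 f hf.1 {⟨N, E, F⟩, ⟨1, E₀, F₀⟩}
    obtain ⟨t, ht, rfl⟩ := hR.2.1 _ f' h5
    have hn := (hR.1 _ t ht).1
    have h7 : f N E F = rho t N E F := h6 ⟨N, E, F⟩ (by simp)
    have h8 : f 1 E₀ F₀ = rho t 1 E₀ F₀ := h6 ⟨1, E₀, F₀⟩ (by simp)
    simp only [Pi.smul_apply, smul_eq_mul]
    by_cases hc : HasClass E F (0, (d : ℤ))
    · rcases hC.1 N E F d hc with ⟨G₁, G₂, a, b, c⟩ | ⟨c, hc'⟩
      · rw [hf.2.eq_zero (fun x => (c x).1) (fun x => (c x).2) a b,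
          hp.eq_zero (fun x => (c x).1) (fun x => (c x).2) a b, mul_zero]
      · rw [h3 N E F c hc', mul_one, h7, h8, hV.1 _ _ _ _ _ _ d _ _ h0 hc' _ _ hn]
    · rw [h7, by_contra fun h => hc (hn.supp h), by_contra fun h => hc (hg.1.supp h), mul_zero]
  rw [h4, Module.rank_eq_one_iff_finrank_eq_one]
  refine finrank_span_singleton fun h => ?_
  have := h3 1 E₀ F₀ c₀ h0
  rw [h] at this
  exact zero_ne_one this

end Pool.Agent.Lib.CC61
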