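import Pool.Agent.Lib.CC61.GBlue
import Pool.Agent.Lib.CC61.LocKit

open Filter Set Module

noncomputable section

namespace Pool.Agent.Lib.CC61

open Pool.Agent.Lib.MP_cc3443_ag

variable {K : Type} [Field K] [Algebra ℂ K] [Algebra (RatFunc ℂ) K]
  [IsScalarTower ℂ (RatFunc ℂ) K] [FiniteDimensional (RatFunc ℂ) K]

namespace T43

theorem lc_apply (a : Cl → Fn K) (φ : (bun K).Λ →₀ ℂ) (w : List Cl) :
    Finsupp.linearCombination ℂ (wv K a) φ w = ∑ V ∈ φ.support, φ V * word a w V.1 V.2 ⊥ := by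
  simp [Finsupp.linearCombination_apply, Finsupp.sum, Finset.sum_apply, wv]

theorem lc_zero {R : ∀ N, Lat K N → Lat K N → Prop} (hR : ∀ N V, R N V ⊥) {a b : Cl → Fn K}
    {P : List Cl → Prop} {φ : (bun K).Λ →₀ ℂ} {w : List Cl} (h : word a w ∈ LocS R (WS b P))
    (h0 : ∀ v, P v → Finsupp.linearCombination ℂ (wv K b) φ v = 0) :
    Finsupp.linearCombination ℂ (wv K a) φ w = 0 := by
  choose C hC using fun V : (bun K).Λ => exists_dg_bound V.2
  obtain ⟨B, hB⟩ := (φ.support.image C).bddAbove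
  obtain ⟨g, h1, h2⟩ := h B
  rw [lc_apply, Finset.sum_congr rfl fun V hV => by
    rw [h2 V.1 V.2 ⊥ (fun U _ h3 => by
      have := hC V U h3
      have := hB (Finset.mem_coe.2 (Finset.mem_image_of_mem C hV))
      rw [dg_bot]
      omega) (hR _ _)]]
  clear h2
  induction h1 using Submodule.span_induction with
  | mem _ h' => obtain ⟨v, hv, rfl⟩ := h'; exact lc_apply b φ v ▸ h0 v hv
  | zero => simp
  | add _ _ _ _ e e' => simp only [Pi.add_apply, mul_add, Finset.sum_add_distrib, e, e', add_zero]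
  | smul c _ _ e =>
    simp only [Pi.smul_apply, smul_eq_mul, mul_left_comm _ c, ← Finset.mul_sum, e, mul_zero]

theorem tr_half {R : ∀ N, Lat K N → Lat K N → Prop} (hR : ∀ N V, R N V ⊥)
    (hR' : ∀ N E F G, R N E F → G ≤ E → R N G F) {a b : Cl → Fn K} (ha : ∀ ν, Nice ν (a ν))
    (hb : ∀ ν, Nice ν (b ν))
    (h1 : ∀ x : Cl, 0 < x.1 → a x ∈ LocS (fun _ _ _ => True) (WS b (Hd x)))
    (h2 : ∀ (m : ℤ) (v : List Cl), hall (a (0, m)) (word b v) ∈
      LocS R (WS b fun w => w.sum = (0, m) + v.sum)) (φ : (bun K).Λ →₀ ℂ) :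
    (Finsupp.linearCombination ℂ (wv K b) φ = 0 → Finsupp.linearCombination ℂ (wv K a) φ = 0) ∧
    (Finsupp.linearCombination ℂ (wv K b) φ ∈ Pos →
      Finsupp.linearCombination ℂ (wv K a) φ ∈ Pos) := by
  have key : ∀ u : List Cl, word a u ∈ LocS R (WS b fun w => w.sum = u.sum) := by
    intro u
    induction u with
    | nil => exact loc_word (w := []) rfl
    | cons x u ih =>
      rcases Nat.eq_zero_or_pos x.1 with h0 | h0
      · obtain ⟨i, m⟩ := x
        obtain rfl : i = 0 := h0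
        exact loc_hall_right hb hR' (ha _) (nice_word ha u) ih (fun _ h => h) fun v hv =>
          loc_imp (h2 m v) fun w hw => by rw [hw, hv, List.sum_cons]
      · exact loc_hall hb hR' (ha x) (nice_word ha u) (h1 x h0) ih (fun _ h => h.1) (fun _ h => h)
          fun v v' h3 h4 => by simp [h3.1, h4]
  refine ⟨fun h => funext fun w => lc_zero hR (key w) fun v _ => congrFun h v,
    fun h x u h3 h4 => lc_zero hR (P := fun w => ∃ y v, w = y :: v ∧ 0 < y.1 ∧ y.2 ≤ 0)
      (loc_hall hb hR' (ha x) (nice_word ha u) (h1 x h3) (key u) (fun _ h => h.1) (fun _ h => h)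
        fun v v' h5 _ => ?_) ?_⟩
  · obtain ⟨y, v, rfl, h6, h7⟩ := hd_ne_nil h3 h5
    refine ⟨y, v ++ v', rfl, h6, ?_⟩
    have h8 : (0 : ℤ) < x.1 := by exact_mod_cast h3
    have h9 := mul_nonpos_of_nonpos_of_nonneg h4 (Int.natCast_nonneg y.1)
    exact le_of_mul_le_mul_right (a := (x.1 : ℤ)) (by linarith) h8
  · rintro _ ⟨y, v, rfl, h5, h6⟩
    exact h y v h5 h6

end T43

open T43 in
variable (K) in
theorem st_TR (hL : St_LET K) (hA : St_LOCA K) (hB : St_LOCB K) (hW : St_HW K) : St_TR K := by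
  obtain ⟨hb, hs, -, -, -, -, t0, t1, b0, b1, lb, -, -⟩ := hL
  intro h hχ φ
  have h1 := tr_half (R := fun _ _ _ => True) (fun _ _ => trivial) (fun _ _ _ _ _ _ => trivial)
    hb hs (fun x _ => lb x ▸ locIn_iff.1 (hA (0, 1) x)) (fun m v => ?_) φ
  have h2 := tr_half (R := fun _ E F => Sat E F) (fun _ V => sat_bot V)
    (fun _ _ _ _ a b => a.mono b) hs hb (fun x hx => locIn_iff.1 (hB x hx)) (fun m v => ?_) φ
  · exact ⟨⟨h1.1, h2.1⟩, h1.2, h2.2⟩
  · by_cases hm : 0 ≤ m
    · obtain ⟨n, rfl⟩ := Int.eq_ofNat_of_zero_le hm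
      rw [t0, ← List.ofFn_get v]
      generalize v.get = w
      refine fun _ => ⟨∑ J ∈ Finset.Nat.antidiagonalTuple v.length n, (∏ a, cc h (w a).1 (J a)) •
        word bFn (List.ofFn fun a => ((w a).1, (w a).2 + J a)), sum_mem fun J hJ =>
          Submodule.smul_mem _ _ (word_mem ?_), fun N E F _ e => ?_⟩
      · rw [← Finset.Nat.mem_antidiagonalTuple.1 hJ]
        refine Prod.ext ?_ ?_
        all_goals simp [List.sum_ofFn, Prod.fst_sum, Prod.snd_sum, Finset.sum_add_distrib, add_comm]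
      · rw [hW h hχ _ n w N E F e, hkW]
        simp only [Finset.sum_apply]
        rfl
    · rw [t1 _ (by simpa [Val] using hm), hall_zero_left]
      exact zero_mem _
  · by_cases hm : m = 0
    · subst hm
      rw [show ((0, 0) : Cl) = 0 from rfl, b0, (nice_word hs v).hall_unit_left]
      exact loc_word (zero_add _).symm
    · rw [b1 m hm, hall_zero_left]
      exact zero_mem _

end Pool.Agent.Lib.CC61
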