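import Pool.Agent.Lib.CC61.GBlue
import Pool.Agent.Lib.CC61.GKit1
import Pool.Agent.Lib.CC61.GKit2

/-! Project cc61, block TWIST. -/

noncomputable section

namespace Pool.Agent.Lib.CC61

open Pool.Agent.Lib.MP_cc3443_ag

variable (K : Type) [Field K] [Algebra ℂ K] [Algebra (RatFunc ℂ) K]
  [IsScalarTower ℂ (RatFunc ℂ) K] [FiniteDimensional (RatFunc ℂ) K]

namespace T24

variable {K} {N : ℕ}

theorem twist_neg (L : Lat K N) (D : Place K →₀ ℤ) : (L.twist D).twist (-D) = L := by
  rw [Lat.twist_twist, add_neg_cancel, Lat.twist_zero]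

theorem neg_twist (L : Lat K N) (D : Place K →₀ ℤ) : (L.twist (-D)).twist D = L := by
  rw [Lat.twist_twist, neg_add_cancel, Lat.twist_zero]

theorem twist_le_iff {L L' : Lat K N} {D : Place K →₀ ℤ} : L.twist D ≤ L'.twist D ↔ L ≤ L' :=
  ⟨fun h => by simpa only [twist_neg] using Lat.twist_mono h (-D), fun h => Lat.twist_mono h D⟩

theorem hasClass_twist {E F : Lat K N} {D : Place K →₀ ℤ} {ν : Cl} :
    HasClass (E.twist D) (F.twist D) (twC D.degree ν) ↔ HasClass E F ν := by
  rw [hasClass_iff_dg, hasClass_iff_dg, twist_le_iff, rk_twist, rk_twist, dg_twist, dg_twist]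
  refine and_congr_right fun _ => and_congr_right fun h => ?_
  simp only [twC] at h ⊢
  rw [h]
  push_cast
  constructor <;> intro h <;> linarith

theorem sat_twist {E F : Lat K N} {D : Place K →₀ ℤ} :
    Sat (E.twist D) (F.twist D) ↔ Sat E F := by
  have h : ∀ {E F : Lat K N} (D : Place K →₀ ℤ), Sat E F → Sat (E.twist D) (F.twist D) :=
    fun D h x w hw hF => Lat.mem_twist.2
      (h x _ (Lat.mem_twist.1 hw) (Submodule.smul_mem _ _ (by simpa using hF)))
  exact ⟨fun a => by simpa only [twist_neg] using h (-D) a, h D⟩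

theorem sum_twC (k : ℤ) (w : List Cl) : (w.map (twC k)).sum = twC k w.sum := by
  induction w with
  | nil => simp [twC, Prod.ext_iff]
  | cons ν w ih =>
    rw [List.map_cons, List.sum_cons, ih, List.sum_cons]
    refine Prod.ext rfl ?_
    simp only [twC, Prod.snd_add, Prod.fst_add]
    push_cast
    ring

theorem hall_twist {D : Place K →₀ ℤ} {μ ν μ' : Cl} {f g f' g' : Fn K} (hf : Nice μ f)
    (hg : Nice ν g) (hf' : Nice μ' f') (hg' : Nice (twC D.degree ν) g') {E F : Lat K N}
    (h1 : ∀ G, f' N (E.twist D) (G.twist D) = f N E G)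
    (h2 : ∀ G, g' N (G.twist D) (F.twist D) = g N G F) :
    hall f' g' N (E.twist D) (F.twist D) = hall f g N E F := by
  have k : ∀ G : Lat K N, (QC (E.twist D) (rk (F.twist D) + (twC D.degree ν).1)
      (chiL (F.twist D) + (twC D.degree ν).2 + (twC D.degree ν).1 * chiO K)).R (G.twist D) ↔
      (QC E (rk F + ν.1) (chiL F + ν.2 + ν.1 * chiO K)).R G := fun G => by
    rw [QC_R, QC_R, QR, QR, twist_le_iff, rk_twist, rk_twist, chiL_twist', chiL_twist']
    refine and_congr_right fun _ => and_congr_right fun h => ?_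
    simp only [twC] at h ⊢
    rw [h]
    push_cast
    constructor <;> intro h <;> linarith
  rw [hf.hall_eq hg, hf'.hall_eq hg']
  refine (Chart.change _ _ (Γ := fun p : Lat K N × Lat K N => p.1.twist D = p.2)
    (Del.eq (DMap.twist (by fun_prop) D) (by fun_prop)) (hf.dfun_hall hg E F) ?_
    (fun G hG _ => ⟨_, (k G).2 hG, rfl, fun _ _ e => Eq.symm e⟩) fun G hG _ =>
      ⟨G.twist (-D), (k _).1 (by rwa [neg_twist]), neg_twist G D, fun G' _ e => ?_⟩).symm
  · intro G G' _ _ e
    rw [← show G.twist D = G' from e, h1, h2]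
  · rw [← show G'.twist D = G from e, twist_neg]

end T24

theorem st_TWIST (hL : St_LET K) : St_TWIST K := by
  intro D w N E F
  induction w generalizing E with
  | nil =>
    refine ind_congr ?_
    rw [← T24.hasClass_twist (D := D) (E := E)]
    simp [twC]
  | cons ν w ih =>
    exact T24.hall_twist (hL.1 ν) (nice_word hL.1 w) (hL.1 _) (T24.sum_twC _ w ▸ nice_word hL.1 _)
      (fun G => ind_congr (and_congr T24.hasClass_twist T24.sat_twist)) ih

end Pool.Agent.Lib.CC61
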