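import Pool.Agent.Lib.CC61.B_NC

/-! Project cc61, block VS. -/

noncomputable section

namespace Pool.Agent.Lib.CC61

open Pool.Agent.Lib.MP_cc3443_ag

variable (K : Type) [Field K] [Algebra ℂ K] [Algebra (RatFunc ℂ) K]
  [IsScalarTower ℂ (RatFunc ℂ) K] [FiniteDimensional (RatFunc ℂ) K]

namespace T24

variable {K} {N N' : ℕ}

/-- A sublattice with given kernel and image exists. -/
def Lift (V : Lat K N) (q : (Fin N → K) →ₗ[K] (Fin N' → K)) (U : Lat K N) (M : Lat K N') : Prop :=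
  ∃ G ≤ V, G.restrict (LinearMap.ker q) = U ∧ G.mapL q = M

/-- Euler characteristic of the fibre. -/
def lam (V : Lat K N) (q : (Fin N → K) →ₗ[K] (Fin N' → K)) (i : ℕ) (χ : ℤ) (U : Lat K N)
    (M : Lat K N') : ℂ :=
  (QC V i χ).int fun G => ind (G.restrict (LinearMap.ker q) = U ∧ G.mapL q = M) * 1

theorem dfun_lam (V : Lat K N) (q : (Fin N → K) →ₗ[K] (Fin N' → K)) (i : ℕ) (χ : ℤ) :
    DFun fun p : Lat K N × Lat K N' => lam V q i χ p.1 p.2 :=
  Chart.dfun_int _ (F := fun p : (Lat K N × Lat K N') × Lat K N =>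
    ind (p.2.restrict (LinearMap.ker q) = p.1.1 ∧ p.2.mapL q = p.1.2) * 1)
    (((Del.eq (dmap_restrict_ker (by fun_prop) q) (by fun_prop)).and
      (Del.eq (dmap_mapL (by fun_prop) q) (by fun_prop))).ind.mul (DFun.const 1))

theorem lam_eq (hI : St_LIFT K) {V U : Lat K N} {M : Lat K N'}
    {q : (Fin N → K) →ₗ[K] (Fin N' → K)} {i : ℕ} {χ : ℤ} (h1 : rk U + rk M = i)
    (h2 : chiL U + chiL M = χ) : lam V q i χ U M = ind (Lift V q U M) := by
  subst h1 h2
  simpa only [lam, mul_one, Lift] using hI.1 N N' V U M q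

theorem Lift.up {V U T : Lat K N} {M : Lat K N'} {q : (Fin N → K) →ₗ[K] (Fin N' → K)}
    (h : Lift V q U M) (h1 : U ≤ T) (h2 : T ≤ V.restrict (LinearMap.ker q)) : Lift V q T M := by
  obtain ⟨G, g1, rfl, rfl⟩ := h
  have h3 : ∀ x, ∀ t ∈ T.S x, q t = 0 := fun x t ht => (Lat.mem_restrict.1 (h2 x ht)).2
  refine ⟨lsup G T, lsup_le g1 (h2.trans (V.restrict_le _)), le_antisymm (fun x w hw => ?_)
    fun x w hw => Lat.mem_restrict.2 ⟨le_lsup_right G T x hw, h3 x w hw⟩,
    le_antisymm (mapL_le_iff.2 fun x w hw => ?_) (mapL_mono (le_lsup_left G T) q)⟩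
  · obtain ⟨a1, a2⟩ := Lat.mem_restrict.1 hw
    obtain ⟨g, hg, t, ht, rfl⟩ := Submodule.mem_sup.1 (mem_lsup.1 a1)
    rw [LinearMap.mem_ker, map_add, h3 x t ht, add_zero] at a2
    exact add_mem (h1 x (Lat.mem_restrict.2 ⟨hg, a2⟩)) ht
  · obtain ⟨g, hg, t, ht, rfl⟩ := Submodule.mem_sup.1 (mem_lsup.1 hw)
    rw [map_add, h3 x t ht, add_zero]
    exact mem_mapL_of_mem q hg

theorem lift_of {V U : Lat K N} {M : Lat K N'} {q : (Fin N → K) →ₗ[K] (Fin N' → K)}
    (hU : U ≤ V.restrict (LinearMap.ker q)) (hM : M ≤ V.mapL q) (h1 : rk M = 1)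
    (h : ∀ W, U ≤ W → W ≤ V.restrict (LinearMap.ker q) →
      rk W + 1 = rk (V.restrict (LinearMap.ker q)) →
      dg M - 2 * chiO K < dg (V.restrict (LinearMap.ker q)) - dg W) : Lift V q U M := by
  refine lex q hU hM h1 fun W w1 w2 w3 => ?_
  have := h W w1 w2 w3
  rw [chiL_eq_dg, chiL_eq_dg W, chiL_eq_dg (V.restrict _), h1, ← w3]
  push_cast
  linarith

theorem Lift.down {V U T : Lat K N} {M : Lat K N'} {q : (Fin N → K) →ₗ[K] (Fin N' → K)}
    (h : Lift V q T M) (h1 : U ≤ T) (hM : rk M = 1) (h2 : TQ (dg M - 2 * chiO K) T U) :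
    Lift V q U M := by
  obtain ⟨G, g1, rfl, rfl⟩ := h
  obtain ⟨G', a1, a2⟩ := lift_of h1 le_rfl hM fun W w1 w2 w3 => by
    have := h2 W w1 w2 fun e => by rw [e] at w3; omega
    rw [← w3] at this
    simpa using this
  exact ⟨G', a1.trans g1, a2⟩

theorem van_zero : VanP K 0 := fun _ => ⟨0, fun N V h _ i l hl => by
  refine Chart.int_eq_zero _ fun U hU => ?_
  obtain ⟨u1, u2, u3⟩ := QC_R.1 hU
  have u4 : rk U = 0 := by have := rk_mono u1; omega
  rw [← u2, u4, eq_bot_of_rk u4, chiL_bot] at u3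
  simp only [Nat.cast_zero, zero_mul, add_zero] at u3
  omega⟩

theorem van_step (hT : St_TP K) (hL : St_LET K) (hF : St_FIB K) (hI : St_LIFT K)
    (hχ : chiO K ≤ 0) {r : ℕ} (hV : VanP K r) (hN : NcP K r) : VanP K (r + 1) := by
  intro B
  have b0 := abs_nonneg B
  have b1 := le_abs_self B
  have b2 := neg_abs_le B
  set D : ℤ := |B| + 1 - chiO K with hD
  obtain ⟨L₀, h0⟩ := hV B
  obtain ⟨L₁, h1⟩ := hV (|B| + D)
  choose f hf using fun c : ℤ => hN (|B| + D + |c| * r) c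
  obtain ⟨L₂, h2⟩ := ((Set.finite_Icc (-2 * |B| - D + 2 * chiO K) D).image
    fun n => f (n - 2 * chiO K) - n).bddAbove
  refine ⟨max L₀ (max L₁ L₂), fun N V v1 v2 i l hl => ?_⟩
  by_cases v3 : rk V ≤ r
  · exact h0 N V v3 v2 i l (by omega)
  have v4 := v2.1 V le_rfl
  have v5 := v2.2
  obtain ⟨q, q1, q2⟩ := lq (V := V) (a := |B|) (by omega) (by
    have : (1 : ℤ) ≤ rk V := by exact_mod_cast (by omega : 1 ≤ rk V)
    change dg V ≤ _
    nlinarith)
  have q3 : dg (V.mapL q) ≤ D := by rw [dg, q1]; push_cast; omega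
  have e1 := rk_exact V q
  have e2 := dg_exact V q
  set A := V.restrict (LinearMap.ker q) with hA
  set Q := V.mapL q with hQ
  have a0 : ∀ W, W ≤ A → dg W ≤ B := fun W hW => v2.1 W (hW.trans (V.restrict_le _))
  have a1 : rk A ≤ r := by omega
  have a2 : Box (|B| + D) A := ⟨fun W hW => by have := a0 W hW; omega, by omega⟩
  have a3 := a0 A le_rfl
  obtain ⟨B₀, hB₀⟩ := exists_dg_bound Q
  have hfin := finite_cls (A := A) (b := l - B₀)
    (P := fun U => ∃ G, QR V i (l + i * chiO K) G ∧ G.restrict (LinearMap.ker q) = U) (by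
      rintro _ - ⟨G, ⟨g1, g2, g3⟩, rfl⟩
      have := dg_exact G q
      have := hB₀ _ (mapL_mono g1 q)
      have : dg G = l := by rw [dg, g2, g3]; ring
      omega)
  rw [qi, hF N 1 V q i _ _ hfin.toFinset (DFun.const 1) (fun j hj => ?_) fun G hG _ =>
    hfin.mem_toFinset.2 ⟨_, restrict_mono hG.1 _, ⟨G, hG, rfl⟩, rfl⟩]
  swap
  · obtain ⟨_, -, ⟨G, ⟨-, g2, -⟩, rfl⟩, rfl⟩ := hfin.mem_toFinset.1 hj
    have := rk_exact G q
    simp only
    omega
  refine Finset.sum_eq_zero fun j hj => ?_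
  obtain ⟨_, -, ⟨G, ⟨g1, g2, g3⟩, rfl⟩, rfl⟩ := hfin.mem_toFinset.1 hj
  have g4 := rk_exact G q
  have g5 := chiL_exact G q
  have g6 : G.mapL q ≤ Q := mapL_mono g1 q
  have g7 := rk_mono g6
  change (QC A _ _).int (fun U => (QC Q _ _).int fun M => lam V q i _ U M) = 0
  simp only
  generalize rk (G.restrict (LinearMap.ker q)) = k at *
  generalize chiL (G.restrict (LinearMap.ker q)) = χ at *
  by_cases g8 : rk (G.mapL q) = 0
  · rw [eq_bot_of_rk g8, chiL_bot, add_zero] at g5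
    rw [← h1 N A a1 a2 i l (by omega), qi, show k = i by omega, ← g5, g3, Nat.sub_self, sub_self]
    refine Chart.int_congr _ fun U hU => ?_
    obtain ⟨u1, u2, u3⟩ := QC_R.1 hU
    rw [Chart.int_single _ (y₀ := ⊥) (QC_R.2 ⟨bot_le, rk_bot, chiL_bot⟩)
      fun M hM hne => absurd (eq_bot_of_rk (QC_R.1 hM).2.1) hne,
      lam_eq hI (by simpa using u2) (by simpa using u3)]
    have u4 := le_restrict_iff.1 u1
    exact ind_true ⟨U, u4.1, restrict_eq_self u4.2, mapL_eq_bot_iff.2 u4.2⟩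
  · have g9 : rk (G.mapL q) = 1 := by omega
    have g10 := dg_mono g6 (g9.trans q1.symm)
    have g11 := chiL_eq_dg (G.mapL q)
    rw [g9, Nat.cast_one, one_mul] at g11
    generalize dg (G.mapL q) = n at *
    obtain rfl : i = k + 1 := by omega
    have e3 : l + ((k + 1 : ℕ) : ℤ) * chiO K - χ = chiO K + n := by omega
    have e4 : χ = l - n + k * chiO K := by push_cast at e3; linarith
    rw [Nat.add_sub_cancel_left, e3, Chart.int_swap _ _ (dfun_lam V q _ _)]
    have hM : ∀ M, (QC Q 1 (chiO K + n)).R M → M ≤ Q ∧ rk M = 1 ∧ dg M = n ∧ ∀ U, rk U = k →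
        chiL U = χ → lam V q (k + 1) (l + ((k + 1 : ℕ) : ℤ) * chiO K) U M = ind (Lift V q U M) :=
      fun M hM => by
        obtain ⟨m1, m2, m3⟩ := QC_R.1 hM
        exact ⟨m1, m2, by rw [dg, m2, m3]; push_cast; ring,
          fun U u1 u2 => lam_eq hI (by omega) (by omega)⟩
    by_cases hn : n < -2 * |B| - D + 2 * chiO K
    · rw [Chart.int_congr _ (G := fun _ => (QC A k χ).int (fun _ => 1) * 1) fun M hM' => ?_,
        Chart.int_const_mul _ (DFun.const 1)]
      · obtain ⟨s, D', hs, e⟩ := exists_line_of_rk q1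
        have e5 := qq_line hs D' n
        rw [← dg_line hs, ← e, SS_big hχ (by omega), qq] at e5
        rw [e5, mul_zero]
      · obtain ⟨m1, m2, m3, m4⟩ := hM M hM'
        rw [mul_one]
        refine Chart.int_congr _ fun U hU => ?_
        obtain ⟨u1, u2, u3⟩ := QC_R.1 hU
        rw [m4 U u2 u3]
        refine ind_true (lift_of u1 m1 m2 fun W _ w2 _ => ?_)
        have := a0 W w2
        have := a2.2
        change _ < dg A - _
        omega
    · refine Chart.int_eq_zero _ fun M hM' => ?_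
      obtain ⟨m1, m2, m3, m4⟩ := hM M hM'
      refine van_tp hT hL A (n - 2 * chiO K) k χ
        ((dfun_lam V q _ _).comp (f := fun U => (U, M)) (by fun_prop)) fun T t1 t2 =>
          ⟨ind (Lift V q T M), fun U u1 u2 => ?_, mul_eq_zero_of_right _ ?_⟩
      · rw [m4 U u1.2.1 u1.2.2]
        exact ind_congr ⟨fun h => h.up u1.1 t1, fun h => h.down u1.1 m2 (m3 ▸ u2)⟩
      · have := h2 ⟨n, ⟨not_lt.1 hn, by omega⟩, rfl⟩
        rw [e4]
        exact hf _ N T ((rk_mono t1).trans a1) (fq_box a2 a1 t1 t2) k (l - n) (by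
          simp only at this
          omega)

end T24

theorem st_VS (hT : St_TP K) (hL : St_LET K) (hF : St_FIB K) (hI : St_LIFT K) : St_VS K :=
  fun _ hχ => ⟨T24.van_zero, fun _ => T24.van_step hT hL hF hI (by omega)⟩

end Pool.Agent.Lib.CC61
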