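import Pool.Agent.Lib.CC61.SDefs

noncomputable section

namespace Pool.Agent.Lib.CC61

open Pool.Agent.Lib.MP_cc3443_ag

variable {K : Type} [Field K] [Algebra ℂ K] [Algebra (RatFunc ℂ) K]

/-- The span of the primitive members of a set of functions. -/
def primSpan (H : Set (Fn K)) : Submodule ℂ (Fn K) :=
  Submodule.span ℂ {f | f ∈ H ∧ Prim f}

end Pool.Agent.Lib.CC61
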