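import Pool.Agent.Lib.CC61.B_ALG
import Pool.Agent.Lib.CC61.B_AXB
import Pool.Agent.Lib.CC61.B_AXN
import Pool.Agent.Lib.CC61.B_AXS
import Pool.Agent.Lib.CC61.B_CONV
import Pool.Agent.Lib.CC61.B_COPB
import Pool.Agent.Lib.CC61.B_COPS
import Pool.Agent.Lib.CC61.B_COPST
import Pool.Agent.Lib.CC61.B_FIB
import Pool.Agent.Lib.CC61.B_FIN
import Pool.Agent.Lib.CC61.B_FINAL
import Pool.Agent.Lib.CC61.B_HC
import Pool.Agent.Lib.CC61.B_HECKE
import Pool.Agent.Lib.CC61.B_HN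
import Pool.Agent.Lib.CC61.B_HW
import Pool.Agent.Lib.CC61.B_INDEP
import Pool.Agent.Lib.CC61.B_KER
import Pool.Agent.Lib.CC61.B_LCH
import Pool.Agent.Lib.CC61.B_LET
import Pool.Agent.Lib.CC61.B_LIFT
import Pool.Agent.Lib.CC61.B_LOC
import Pool.Agent.Lib.CC61.B_LOCA
import Pool.Agent.Lib.CC61.B_LOCB
import Pool.Agent.Lib.CC61.B_NC
import Pool.Agent.Lib.CC61.B_NOP
import Pool.Agent.Lib.CC61.B_NUM
import Pool.Agent.Lib.CC61.B_OPER1
import Pool.Agent.Lib.CC61.B_OPER2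
import Pool.Agent.Lib.CC61.B_OPER3
import Pool.Agent.Lib.CC61.B_PLUS
import Pool.Agent.Lib.CC61.B_PSI
import Pool.Agent.Lib.CC61.B_PSUR
import Pool.Agent.Lib.CC61.B_QUOT
import Pool.Agent.Lib.CC61.B_RHO
import Pool.Agent.Lib.CC61.B_SH
import Pool.Agent.Lib.CC61.B_SSUM
import Pool.Agent.Lib.CC61.B_SUBQ
import Pool.Agent.Lib.CC61.B_SURJ
import Pool.Agent.Lib.CC61.B_TCH
import Pool.Agent.Lib.CC61.B_TCV
import Pool.Agent.Lib.CC61.B_TFIN
import Pool.Agent.Lib.CC61.B_TP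
import Pool.Agent.Lib.CC61.B_TR
import Pool.Agent.Lib.CC61.B_TWIST
import Pool.Agent.Lib.CC61.B_VS
import Pool.Agent.Lib.CC61.SDefs2

namespace Pool.Agent.Lib.CC61

open Pool.Agent.Lib.MP_cc3443_ag

/-- The algebraic half of the theorem. -/
theorem all_ALG : St_ALG :=
  have hN := st_NUM (st_LOC st_CONV st_SH)
  have hA := st_AXN hN st_CONV (st_HC hN) st_NOP
  have hF := st_FIN hN st_KER
  st_ALG hF (st_INDEP hA st_SURJ st_PSUR st_KER hF st_SH) (st_PLUS hA st_SURJ st_KER)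

variable (K : Type) [Field K] [Algebra ℂ K] [Algebra (RatFunc ℂ) K]
  [IsScalarTower ℂ (RatFunc ℂ) K] [FiniteDimensional (RatFunc ℂ) K]

/-- The theorem. -/
theorem all_main (g : ℕ) (hg : 2 ≤ g) (hK : HasGenus K g) (r : ℕ) (d : ℤ)
    (hd : r = 0 → 0 < d) (H : Submodule ℂ (Fn K)) (hH : Sand K (r, d) H) :
    ∃ n : ℕ, Module.rank ℂ (Submodule.span ℂ {f | f ∈ H ∧ Prim f}) = n ∧ (n : ℂ) = A0 g r d :=
  have hL := st_LET K
  have hF := st_FIB K
  have hI := st_LIFT K (st_LCH K)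
  have hQ := st_QUOT K hF hI
  have hW := st_HW K hL (st_HECKE K hL hI hQ)
  have hT := st_COPST K hF hI
  have hC := st_COPS K hL hT (st_SSUM K hL)
  have hR := st_RHO K hL hC
  have hN := st_HN K hL
  have hA := st_LOCA K hL hN
  main_of K
    (st_AXB K hL (st_COPB K hL hT) hW (st_SUBQ K hL hQ) (st_NC K (st_TP K) hL)
      (st_VS K (st_TP K) hL hF hI) (st_TWIST K hL) (st_OPER3 K hL (st_OPER1 K) (st_OPER2 K)))
    (st_AXS K hL hC hR) (st_TR K hL hA (st_LOCB K hL hN hA) hW) all_ALG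
    (st_TFIN K st_PSI hR (st_TCH K) (st_TCV K hL)) (st_FINAL K hR) g hg hK r d hd H hH

/-- The theorem for any set between the graded piece and its closure. -/
theorem all_set (g : ℕ) (hg : 2 ≤ g) (hK : HasGenus K g) (r : ℕ) (d : ℤ)
    (hd : r = 0 → 0 < d) (H : Set (Fn K)) (h1 : ∀ f, SphHN (r, d) f → f ∈ H)
    (h2 : ∀ f ∈ H, ∀ s : Finset (Σ N, Lat K N × Lat K N), ∃ f', SphHN (r, d) f' ∧
      ∀ p ∈ s, f p.1 p.2.1 p.2.2 = f' p.1 p.2.1 p.2.2) :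
    ∃ n : ℕ, Module.rank ℂ (primSpan H) = n ∧ (n : ℂ) = A0 g r d := by
  let H0 : Submodule ℂ (Fn K) :=
    { carrier := {f | SphHN (r, d) f}
      add_mem' := SphHN.add
      zero_mem' := SphHN.zero _
      smul_mem' := fun c _ => SphHN.smul c }
  let H1 : Submodule ℂ (Fn K) :=
    { carrier := {f | ∀ s : Finset (Σ N, Lat K N × Lat K N), ∃ f', SphHN (r, d) f' ∧
        ∀ p ∈ s, f p.1 p.2.1 p.2.2 = f' p.1 p.2.1 p.2.2}
      add_mem' := fun ha hb s => by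
        obtain ⟨a, a1, a2⟩ := ha s
        obtain ⟨b, b1, b2⟩ := hb s
        exact ⟨a + b, a1.add b1, fun p hp => by simp only [Pi.add_apply, a2 p hp, b2 p hp]⟩
      zero_mem' := fun s => ⟨0, SphHN.zero _, fun _ _ => rfl⟩
      smul_mem' := fun c _ ha s => by
        obtain ⟨a, a1, a2⟩ := ha s
        exact ⟨c • a, a1.smul c, fun p hp => by simp only [Pi.smul_apply, a2 p hp]⟩ }
  obtain ⟨n, a1, a2⟩ := all_main K g hg hK r d hd H0
    ⟨fun _ h => h, fun f h _ => ⟨f, h, fun _ _ => rfl⟩⟩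
  obtain ⟨m, b1, b2⟩ := all_main K g hg hK r d hd H1
    ⟨fun f h _ => ⟨f, h, fun _ _ => rfl⟩, fun _ h => h⟩
  obtain rfl : n = m := by exact_mod_cast a2.trans b2.symm
  refine ⟨n, le_antisymm ?_ ?_, a2⟩
  · rw [← b1]
    exact Submodule.rank_mono (Submodule.span_mono fun f hf => ⟨h2 f hf.1, hf.2⟩)
  · rw [← a1]
    exact Submodule.rank_mono (Submodule.span_mono fun f hf => ⟨h1 f hf.1, hf.2⟩)

end Pool.Agent.Lib.CC61
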