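import Pool.Agent.Lib.CC61.GKit1
import Pool.Agent.Lib.CC61.GKit2

noncomputable section

namespace Pool.Agent.Lib.CC61

open Pool.Agent.Lib.MP_cc3443_ag

variable {K : Type} [Field K] [Algebra ℂ K] [Algebra (RatFunc ℂ) K]
  [IsScalarTower ℂ (RatFunc ℂ) K] [FiniteDimensional (RatFunc ℂ) K]

theorem hasClass_bot_iff {N : ℕ} {V : Lat K N} {ν : Cl} : HasClass V ⊥ ν ↔ (rk V, dg V) = ν := by
  simp [hasClass_iff_dg, dg_bot, Prod.ext_iff]

/-- The common axioms hold for any nice letters. -/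
theorem axW_bun {a : Cl → Fn K} (ha : ∀ ν, Nice ν (a ν)) (h0 : a 0 = torsFn 0) :
    AxW (bun K) (wv K a) where
  cl_add := fun V W => Prod.ext (rk_oplus V.2 W.2) (dg_oplus V.2 W.2)
  box_ex := fun V => by
    obtain ⟨B, hB⟩ := exists_dg_bound V.2
    exact ⟨max B (-dg V.2), fun W hW => (hB W hW).trans (le_max_left _ _),
      neg_le.1 (le_max_right _ _)⟩
  box_mono := fun h hV => ⟨fun W hW => (hV.1 W hW).trans h, (neg_le_neg h).trans hV.2⟩
  box_deg := fun h => h.2
  supp := fun h => (hasClass_bot_iff.1 ((nice_word ha _).supp h)).symm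
  nil0 := fun V u v => by rw [wv, wv, word_nil0 ha h0]
  tail := fun hB h => by
    obtain ⟨G, h1, h2⟩ := word_tail ha h
    rw [← hasClass_bot_iff.1 h2]
    exact hB.1 G h1
  tail0 := fun h hr => by
    obtain ⟨G, -, h2⟩ := word_tail ha h
    rw [← hasClass_bot_iff.1 h2] at hr ⊢
    rw [eq_bot_of_rk hr]
    exact dg_bot

end Pool.Agent.Lib.CC61
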