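import Pool.Agent.Lib.CC61.ABlue

open Finset

noncomputable section

namespace Pool.Agent.Lib.CC61

namespace T39

variable {l : ℕ}

theorem exists_perm {β : Type} {f g : Fin l → β} (h : univ.val.map f = univ.val.map g) :
    ∃ σ : Equiv.Perm (Fin l), f = g ∘ σ := by
  classical
  have hc : ∀ c, Fintype.card {a // f a = c} = Fintype.card {a // g a = c} := by
    intro c
    have h1 := congrArg (Multiset.count c) h
    rw [Multiset.count_map, Multiset.count_map] at h1
    rw [Fintype.card_subtype, Fintype.card_subtype]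
    simp only [eq_comm (a := c)] at h1
    exact h1
  refine ⟨Equiv.ofFiberEquiv fun c => Fintype.equivOfCardEq (hc c), funext fun a => ?_⟩
  exact (Equiv.ofFiberEquiv_map _ a).symm

theorem exists_tuple {β : Type} (s : Multiset β) (hs : Multiset.card s = l) :
    ∃ f : Fin l → β, univ.val.map f = s := by
  induction s using Quotient.inductionOn with
  | _ L =>
    obtain rfl : L.length = l := hs
    exact ⟨L.get, by rw [Fin.univ_val_map, List.ofFn_get]; rfl⟩

/-- The multiset of the letters of positive rank. -/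
def ms (f : Fin l → Cl) : Multiset Cl := (univ.val.map f).filter fun x => 0 < x.1

/-- The exponents that can occur. -/
def ZZ (f : Fin l → Cl) : Prop := ∀ a, ((f a).1 = 0 → (f a).2 = 0) ∧ (0 < (f a).1 → 0 < (f a).2)

theorem full_eq {f : Fin l → Cl} (hf : ZZ f) :
    univ.val.map f = ms f + Multiset.replicate (l - Multiset.card (ms f)) 0 := by
  have h1 := Multiset.filter_add_not (fun x : Cl => 0 < x.1) (univ.val.map f)
  have h2 := congrArg Multiset.card h1
  rw [Multiset.card_add, Multiset.card_map, card_val, card_univ, Fintype.card_fin] at h2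
  rw [← h1, ms]
  congr 1
  rw [Multiset.eq_replicate]
  refine ⟨by omega, fun x hx => ?_⟩
  rw [Multiset.mem_filter, Multiset.mem_map] at hx
  obtain ⟨⟨a, -, rfl⟩, h3⟩ := hx
  have h4 : (f a).1 = 0 := by omega
  exact Prod.ext h4 ((hf a).1 h4)

theorem sum_ms {M : Type} [AddCommMonoid M] {f : Fin l → Cl} (hf : ZZ f) (F : Cl → M)
    (h0 : F 0 = 0) : ((ms f).map F).sum = ∑ a, F (f a) := by
  have h1 : ∑ a, F (f a) = ((univ.val.map f).map F).sum := by rw [Multiset.map_map]; rfl
  rw [h1, full_eq hf]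
  simp [h0]

theorem dD_eq (h : ℕ) {f : Fin l → Cl} (hf : ZZ f) :
    dD h (fun a => (f a).1) = h * CC61.qf ((ms f).map Prod.fst) := by
  have h1 : ∀ i : ℕ, (((ms f).map Prod.fst).map fun j => ((min i j : ℕ) : ℤ)).sum =
      ∑ b, ((min i (f b).1 : ℕ) : ℤ) := by
    intro i
    rw [Multiset.map_map]
    exact sum_ms hf _ (by simp)
  have h2 : (((ms f).map Prod.fst).sum : ℕ) = ∑ a, (f a).1 := sum_ms hf _ rfl
  simp only [CC61.qf, h1, h2]
  rw [Multiset.map_map, sum_ms hf _ (by simp), dD]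
  have h3 := Finset.sum_union (f := fun p : Fin l × Fin l => ((min (f p.1).1 (f p.2).1 : ℕ) : ℤ))
    (Finset.disjoint_diag_offDiag (univ : Finset (Fin l)))
  rw [Finset.diag_union_offDiag, Finset.sum_product, Finset.sum_diag] at h3
  simp only [min_self] at h3
  simp only [Function.comp]
  rw [h3]
  push_cast
  rw [← Finset.mul_sum]
  ring

theorem ms_mem {h r : ℕ} {d : ℤ} {f : Fin l → Cl} (hf : ZZ f) :
    ms f ∈ CntS h r d ↔ ∑ a, (f a).1 = r ∧ ∑ a, (f a).2 = d + dD h fun a => (f a).1 := by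
  have h1 : (ms f).sum = ∑ a, f a := by simpa using sum_ms hf id rfl
  rw [dD_eq h hf, CntS, Set.mem_ofPred_eq, h1, Prod.ext_iff, Prod.fst_sum, Prod.snd_sum]
  refine and_iff_right fun x hx => ?_
  rw [ms, Multiset.mem_filter, Multiset.mem_map] at hx
  obtain ⟨⟨a, -, rfl⟩, h3⟩ := hx
  exact ⟨h3, (hf a).2 h3⟩

theorem exists_sec {h r : ℕ} {d : ℤ} (hr : r ≤ l) (x : CntS h r d) :
    ∃ f : Fin l → Cl, ZZ f ∧ ms f = x := by
  obtain ⟨x, h1, h2⟩ := x
  have h3 : Multiset.card x ≤ r := by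
    have h4 : r = (x.map Prod.fst).sum := by
      have := map_multiset_sum (AddMonoidHom.fst ℕ ℤ) x
      rw [h2] at this
      exact this
    have h5 := Multiset.card_nsmul_le_sum (s := x.map Prod.fst) (a := 1) fun i hi => by
      obtain ⟨p, hp, rfl⟩ := Multiset.mem_map.mp hi
      exact (h1 p hp).1
    rw [h4]
    simpa using h5
  obtain ⟨f, hf⟩ := exists_tuple (l := l) (x + Multiset.replicate (l - Multiset.card x) 0)
    (by rw [Multiset.card_add, Multiset.card_replicate]; omega)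
  refine ⟨f, fun a => ?_, ?_⟩
  · have h4 : f a ∈ x + Multiset.replicate (l - Multiset.card x) 0 :=
      hf ▸ Multiset.mem_map_of_mem _ (mem_univ a)
    rw [Multiset.mem_add] at h4
    rcases h4 with h4 | h4
    · exact ⟨fun h5 => absurd h5 (h1 _ h4).1.ne', fun _ => (h1 _ h4).2⟩
    · rw [Multiset.eq_of_mem_replicate h4]
      simp
  · rw [ms, hf, Multiset.filter_add, Multiset.filter_eq_self.mpr fun p hp => (h1 p hp).1,
      Multiset.filter_eq_nil.mpr, add_zero]
    intro p hp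
    rw [Multiset.eq_of_mem_replicate hp]
    simp

theorem ms_perm (f : Fin l → Cl) (σ : Equiv.Perm (Fin l)) : ms (f ∘ σ) = ms f := by
  rw [ms, ms, ← Multiset.map_map, Multiset.map_univ_val_equiv]

end T39

open T39 in
theorem st_CNT : St_CNT := by
  classical
  intro l h r d hr _
  choose sec hsec1 hsec2 using exists_sec (l := l) (h := h) (d := d) hr
  let Ψ : (Adm l h (r, d) ⊓ PosF l : Submodule ℂ _) →ₗ[ℂ] (CntS h r d → ℂ) :=
    { toFun := fun S x => (S.1 fun a => (sec x a).1).coeff fun a => (sec x a).2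
      map_add' := fun _ _ => rfl
      map_smul' := fun _ _ => rfl }
  refine ⟨LinearEquiv.ofBijective Ψ ⟨(injective_iff_map_eq_zero _).mpr ?_, ?_⟩⟩
  · rintro ⟨S, ⟨⟨h1, h2⟩, h3⟩, h4⟩ hS
    refine Subtype.ext (funext fun γ => AddMonoidAlgebra.coeff_injective (Finsupp.ext fun m => ?_))
    by_contra hne
    have hZ : ZZ fun a => (γ a, m a) := fun a => ⟨(h1 γ m hne).2 a, h4 γ m hne a⟩
    have hx : ms (fun a => (γ a, m a)) ∈ CntS h r d := (ms_mem hZ).mpr ⟨(h1 γ m hne).1, h3 γ m hne⟩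
    obtain ⟨σ, hσ⟩ := exists_perm (f := sec ⟨_, hx⟩) (g := fun a => (γ a, m a))
      (by rw [full_eq hZ, full_eq (hsec1 _), hsec2])
    have h5 : (S fun a => (sec ⟨_, hx⟩ a).1).coeff (fun a => (sec ⟨_, hx⟩ a).2) = 0 :=
      congrFun hS ⟨_, hx⟩
    rw [hσ] at h5
    exact hne ((h2 σ γ m).symm.trans h5)
  · intro g
    let c : (Fin l → Cl) → ℂ := fun f => if hx : ZZ f ∧ ms f ∈ CntS h r d then g ⟨_, hx.2⟩ else 0
    have hc : ∀ f, c f ≠ 0 → ZZ f ∧ ms f ∈ CntS h r d := fun f hf => by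
      by_contra hn
      exact hf (dif_neg hn)
    have hfin : ∀ γ : Fin l → ℕ,
        (Function.support fun m : Fin l → ℤ => c fun a => (γ a, m a)).Finite := by
      intro γ
      refine (Set.Finite.pi' fun _ : Fin l => Set.finite_Icc 0 (d + dD h γ)).subset fun m hm a => ?_
      obtain ⟨h1, h2⟩ := hc _ hm
      have h3 : ∀ b, 0 ≤ m b := fun b => by
        rcases Nat.eq_zero_or_pos (γ b) with h0 | h0
        · exact ((h1 b).1 h0).ge
        · exact ((h1 b).2 h0).le
      have h4 : ∑ a, m a = d + dD h γ := ((ms_mem h1).mp h2).2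
      exact ⟨h3 a, h4 ▸ Finset.single_le_sum (fun b _ => h3 b) (mem_univ a)⟩
    refine ⟨⟨fun γ => .ofCoeff (Finsupp.ofSupportFinite _ (hfin γ)), ⟨⟨?_, ?_⟩, ?_⟩, ?_⟩, ?_⟩
    · intro γ m hm
      obtain ⟨h1, h2⟩ := hc _ hm
      exact ⟨((ms_mem h1).mp h2).1, fun a => (h1 a).1⟩
    · intro σ γ m
      change c ((fun a => (γ a, m a)) ∘ σ) = c fun a => (γ a, m a)
      have h1 : ZZ ((fun a => (γ a, m a)) ∘ σ) ↔ ZZ fun a => (γ a, m a) :=
        ⟨fun h1 a => by simpa using h1 (σ.symm a), fun h1 a => h1 (σ a)⟩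
      simp only [c, ms_perm, h1]
    · intro γ m hm
      obtain ⟨h1, h2⟩ := hc _ hm
      exact ((ms_mem h1).mp h2).2
    · intro γ m hm a
      exact ((hc _ hm).1 a).2
    · funext x
      change c (sec x) = g x
      have h1 : ZZ (sec x) ∧ ms (sec x) ∈ CntS h r d := ⟨hsec1 x, hsec2 x ▸ x.2⟩
      simp only [c]
      rw [dif_pos h1]
      congr 1
      exact Subtype.ext (hsec2 x)

end Pool.Agent.Lib.CC61
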