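import Pool.Agent.Lib.CC61.B_TH3

open Finset

noncomputable section

namespace Pool.Agent.Lib.CC61

namespace T59

theorem exists_order {ι : Type} (mi : ι → Prop) (s : ι → ℚ) : ∃ L : LinearOrder ι,
    (∀ i j, mi i → ¬ mi j → L.lt i j) ∧ ∀ i j, ¬ mi i → L.le i j → s i ≤ s j := by
  classical
  obtain ⟨L, -⟩ := exists_wellFoundedLT (α := ι)
  refine ⟨LinearOrder.lift' (β := ℕ ×ₗ ℚ ×ₗ ι)
    (fun i => toLex (if mi i then 0 else 1, toLex (s i, i))) fun i j h => ?_,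
    fun i j hi hj => ?_, fun i j hi h => ?_⟩
  · exact congrArg (fun p => (ofLex (ofLex p).2).2) h
  · exact Prod.Lex.toLex_lt_toLex.2 (.inl (by simp [hi, hj]))
  · rcases Prod.Lex.toLex_le_toLex.1 h with h | h
    · by_cases hj : mi j <;> simp [hi, hj] at h
    · rcases Prod.Lex.toLex_le_toLex.1 h.2 with h | h
      · exact h.le
      · exact h.1.le

theorem exists_pair {M : Type} [AddCommGroup M] [Module ℂ M] {s t : Set M} (h : s ⊆ t) :
    ∃ a b : Set M, a ⊆ s ∧ b ⊆ t ∧ a ⊆ b ∧ s ⊆ Submodule.span ℂ a ∧ t ⊆ Submodule.span ℂ b ∧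
      LinearIndepOn ℂ id b := by
  obtain ⟨a, h1, -, h2, h3⟩ := exists_linearIndepOn_id_extension (linearIndepOn_empty ℂ id)
    (Set.empty_subset s)
  obtain ⟨b, h4, h5, h6, h7⟩ := exists_linearIndepOn_id_extension h3 (h1.trans h)
  exact ⟨a, b, h1, h4, h5, h2, h6, h7⟩

theorem Tm_deg {ν : Cl} {y : TA} (hy : y ∈ Tm ν) (h0 : y ≠ 0) : ν.2 ≤ 0 := by
  by_contra hn
  refine h0 ((Submodule.span_le (p := ⊥)).2 ?_ hy)
  rintro _ ⟨w, ⟨rfl, -, hw⟩, rfl⟩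
  refine absurd ?_ hn
  clear hn hy
  induction w with
  | nil => simp
  | cons a w ih =>
    rw [List.sum_cons, Prod.snd_add]
    exact add_nonpos (hw a List.mem_cons_self).2 (ih fun b hb => hw b (List.mem_cons_of_mem _ hb))

end T59

open T59 in
theorem st_TH1 : St_TH1 := by
  classical
  intro X ws hS hF
  let ev : TA →ₗ[ℂ] X.Λ → ℂ := LinearMap.pi fun V => evT (ws V)
  choose a b ha hb hab hsa hsb hli using fun ν : Cl => exists_pair
    (Set.image_mono (f := ev) (show (Pr ν ⊓ Tm ν : Submodule ℂ TA) ≤ Pr ν from inf_le_left))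
  have hPP : ∀ ν, ∀ f ∈ b ν, f ∈ PP X ws ν := fun ν f hf => by
    obtain ⟨y, hy, rfl⟩ := hb ν hf
    exact prim_mem_PP hS hy
  have hx : ∀ i : {p : Cl × (X.Λ → ℂ) // 0 < p.1.1 ∧ p.2 ∈ b p.1},
      ∃ y ∈ Pr i.1.1, (i.1.2 ∈ a i.1.1 → y ∈ Tm i.1.1) ∧ ev y = i.1.2 := fun i => by
    by_cases h : i.1.2 ∈ a i.1.1
    · obtain ⟨y, hy, h1⟩ := ha _ h
      exact ⟨y, hy.1, fun _ => hy.2, h1⟩
    · obtain ⟨y, hy, h1⟩ := hb _ i.2.2
      exact ⟨y, hy, fun h' => absurd h' h, h1⟩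
  choose x h1 h2 h3 using hx
  obtain ⟨L, h4, h5⟩ := exists_order
    (fun i : {p : Cl × (X.Λ → ℂ) // 0 < p.1.1 ∧ p.2 ∈ b p.1} => i.1.2 ∈ a i.1.1)
    fun i => (i.1.1.2 : ℚ) / i.1.1.1
  have hinj : ∀ ν, Set.InjOn (fun i : {p : Cl × (X.Λ → ℂ) // 0 < p.1.1 ∧ p.2 ∈ b p.1} => i.1.2)
      {i | i.1.1 = ν} := fun ν i hi j hj h => Subtype.ext (Prod.ext (hi.trans hj.symm) h)
  have him : ∀ ν, (fun i : {p : Cl × (X.Λ → ℂ) // 0 < p.1.1 ∧ p.2 ∈ b p.1} => i.1.2) ''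
      {i | i.1.1 = ν} ⊆ b ν := by
    rintro _ _ ⟨i, rfl, rfl⟩
    exact i.2.2
  refine ⟨_, L, fun i => i.1.1, x, fun i => i.1.2 ∈ a i.1.1, fun i => i.2.1, h1,
    fun i hi => ⟨h2 i hi, Tm_deg (h2 i hi) fun h => ?_⟩, fun ν => ?_, fun ν y hν hy => ?_, ?_, h4,
    fun i j hi hij => ?_⟩
  · exact (hli _).ne_zero i.2.2 (by rw [id, ← h3 i, h, map_zero])
  · by_cases hν : 0 < ν.1
    · have := hF ν hν
      have h6 : LinearIndependent ℂ fun f : b ν => (⟨f.1, hPP ν _ f.2⟩ : PP X ws ν) :=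
        LinearIndependent.of_comp (PP X ws ν).subtype (hli ν)
      exact Set.Finite.of_finite_image ((Set.finite_coe_iff.1 h6.finite).subset (him ν)) (hinj ν)
    · convert Set.finite_empty
      exact Set.eq_empty_of_forall_notMem fun i hi => hν (hi ▸ i.2.1)
  · have key : ∀ s : Set {p : Cl × (X.Λ → ℂ) // 0 < p.1.1 ∧ p.2 ∈ b p.1},
        ev y ∈ Submodule.span ℂ ((fun i => i.1.2) '' s) → ∃ c : _ →₀ ℂ, (∀ i ∈ c.support, i ∈ s) ∧
          ∀ V, evT (ws V) y = evT (ws V) (Finsupp.linearCombination ℂ x c) := fun s hs => by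
      obtain ⟨c, h6, h7⟩ := (Finsupp.mem_span_image_iff_linearCombination ℂ).1 hs
      refine ⟨c, (Finsupp.mem_supported _ _).1 h6, congrFun (f := ev y) (g := ev _) ?_⟩
      rw [Finsupp.apply_linearCombination, ← h7]
      congr 2
      exact (funext h3).symm
    by_cases hm : y ∈ Tm ν
    · obtain ⟨c, h6, h7⟩ := key {i | i.1.1 = ν ∧ i.1.2 ∈ a i.1.1} (Submodule.span_mono
        (fun f hf => by exact ⟨⟨(ν, f), hν, hab ν hf⟩, ⟨rfl, hf⟩, rfl⟩) (hsa ν ⟨y, ⟨hy, hm⟩, rfl⟩))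
      exact ⟨c, fun i hi => (h6 i hi).1, fun _ i hi => (h6 i hi).2, h7⟩
    · obtain ⟨c, h6, h7⟩ := key {i | i.1.1 = ν} (Submodule.span_mono
        (fun f hf => by exact ⟨⟨(ν, f), hν, hf⟩, rfl, rfl⟩) (hsb ν ⟨y, hy, rfl⟩))
      exact ⟨c, h6, fun h => absurd h hm, h7⟩
  · rw [show (fun i V => evT (ws V) (x i)) = fun i => i.1.2 from funext h3, linearIndependent_iff']
    intro s g hs i hi
    refine linearIndepOn_iff'.1 (((hli i.1.1).mono (him _)).comp_of_image (hinj _))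
      (s.filter fun j => j.1.1 = i.1.1) g (fun j hj => (mem_filter.1 hj).2) ?_ i
      (mem_filter.2 ⟨hi, rfl⟩)
    ext V
    have h6 := congrFun hs V
    simp only [Finset.sum_apply, Pi.smul_apply, Function.comp, id, Pi.zero_apply] at h6 ⊢
    by_cases hV : X.cl V = i.1.1
    · rw [← h6]
      refine sum_filter_of_ne fun j _ hj => by_contra fun h => hj ?_
      rw [(hPP _ _ j.2.2).1 V fun h' => h (h'.symm.trans hV), smul_zero]
    · refine sum_eq_zero fun j hj => ?_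
      rw [(hPP _ _ j.2.2).1 V fun h' => hV (h'.trans (mem_filter.1 hj).2), smul_zero]
  · have h6 := h5 i j hi hij
    rw [div_le_div_iff₀ (by exact_mod_cast i.2.1) (by exact_mod_cast j.2.1)] at h6
    exact_mod_cast h6

end Pool.Agent.Lib.CC61
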