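import Pool.Agent.Lib.CC61.B_GF
import Pool.Agent.Lib.CC61.B_CNT
import Pool.Agent.Lib.CC61.B_PSI
import Pool.Agent.Lib.CC61.B_TH1

open Module

noncomputable section

namespace Pool.Agent.Lib.CC61

namespace T59

variable {X : Sys} {wb ws : X.Λ → List Cl → ℂ}

theorem PP_tr (hT : Tr X wb ws) (ν : Cl) : PP X ws ν = PP X wb ν :=
  Submodule.ext fun _ => and_congr_right' (and_congr_left'
    (forall_congr' fun φ => imp_congr_left (hT φ).1))

theorem RR_tr (hT : Tr X wb ws) (ν : Cl) :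
    Nonempty ((RR X ws ν ⊓ Pos : Submodule ℂ _) ≃ₗ[ℂ] (RR X wb ν ⊓ Pos : Submodule ℂ _)) := by
  let D : Submodule ℂ (X.Λ →₀ ℂ) :=
    Finsupp.supported ℂ ℂ {V | X.cl V = ν} ⊓ Pos.comap (Finsupp.linearCombination ℂ ws)
  let f := (Finsupp.linearCombination ℂ ws).domRestrict D
  let g := (Finsupp.linearCombination ℂ wb).domRestrict D
  have e1 : f.ker = g.ker := Submodule.ext fun φ => (hT φ.1).1
  have e2 : f.range = RR X ws ν ⊓ Pos := by
    refine le_antisymm ?_ fun e he => ?_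
    · rintro _ ⟨φ, rfl⟩
      exact ⟨(Finsupp.mem_span_image_iff_linearCombination ℂ).2 ⟨φ.1, φ.2.1, rfl⟩, φ.2.2⟩
    · obtain ⟨φ, h4, rfl⟩ := (Finsupp.mem_span_image_iff_linearCombination ℂ).1 he.1
      exact ⟨⟨φ, h4, he.2⟩, rfl⟩
  have e3 : g.range = RR X wb ν ⊓ Pos := by
    refine le_antisymm ?_ fun e he => ?_
    · rintro _ ⟨φ, rfl⟩
      exact ⟨(Finsupp.mem_span_image_iff_linearCombination ℂ).2 ⟨φ.1, φ.2.1, rfl⟩,
        (hT φ.1).2.1 φ.2.2⟩
    · obtain ⟨φ, h4, rfl⟩ := (Finsupp.mem_span_image_iff_linearCombination ℂ).1 he.1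
      exact ⟨⟨φ, h4, (hT φ).2.2 he.2⟩, rfl⟩
  exact ⟨(LinearEquiv.ofEq _ _ e2.symm).trans <| f.quotKerEquivRange.symm.trans <|
    (Submodule.quotEquivOfEq _ _ e1).trans <| g.quotKerEquivRange.trans (LinearEquiv.ofEq _ _ e3)⟩

theorem ncard_eq {α β : Type} {s : Set α} {t : Set β} (ht : t.Finite)
    (e : (s →₀ ℂ) ≃ₗ[ℂ] (t → ℂ)) : s.Finite ∧ s.ncard = t.ncard := by
  have := ht.fintype
  have : Module.Finite ℂ (s →₀ ℂ) := Module.Finite.equiv e.symm
  have h1 : Finite s := Module.Finite.finite_basis (Finsupp.basisSingleOne (ι := s) (R := ℂ))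
  have := Fintype.ofFinite s
  have h2 := e.finrank_eq
  rw [finrank_finsupp_self, finrank_fintype_fun_eq_card] at h2
  exact ⟨Set.toFinite s, by
    rw [← Nat.card_coe_set_eq, ← Nat.card_coe_set_eq, Nat.card_eq_fintype_card,
      Nat.card_eq_fintype_card, h2]⟩

end T59

open T59 in
theorem st_ALG (hF : St_FIN) (hI : St_INDEP) (hP : St_PLUS) : St_ALG := by
  intro h X wb ws hB hS hT r d hr
  obtain ⟨ι, _, cls, x, mi, hb⟩ := st_TH1 X ws hS fun ν _ => PP_tr hT ν ▸ hF h X wb hB ν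
  have h3 := st_TH3 (st_STR st_PSI) X ws ι cls x mi hS hb
  have h4 : ∀ ν : Cl, 0 < ν.1 → {i | cls i = ν}.ncard = finrank ℂ (PP X wb ν) := by
    intro ν hν
    have := (hb.fin ν).fintype
    rw [← PP_tr hT, (h3 ν hν).1, Set.image_eq_range, ← Nat.card_coe_set_eq,
      Nat.card_eq_fintype_card]
    exact (finrank_span_eq_card
      (hb.indep.comp (fun i : {i | cls i = ν} => i.1) Subtype.val_injective)).symm
  have h5 := gf_all h hB.hpos {i // ¬ mi i} (fun i => cls i)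
    (fun r => finrank ℂ (PP X wb (r, 0))) (fun i => hb.pos i) (fun r d hr => by
      obtain ⟨e1⟩ := (h3 (r, d) hr).2
      obtain ⟨e2⟩ := RR_tr hT (r, d)
      obtain ⟨e3⟩ := hP h X wb hB (r, d) hr
      obtain ⟨e4⟩ := st_CNT r h r d le_rfl (cntS_finite h r d)
      exact ncard_eq (cntS_finite h r d) (e1.symm.trans (e2.trans (e3.trans e4))))
    (fun r d hr hd => by
      rw [← hI h X wb hB r d 0 hr, ← h4 (r, d) hr,
        ← Set.ncard_image_of_injective _ Subtype.val_injective]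
      congr 1
      ext i
      refine ⟨fun ⟨j, hj, h⟩ => h ▸ hj, fun hi => ⟨⟨i, fun hm => ?_⟩, hi, rfl⟩⟩
      have := (hb.prm i hm).2
      rw [show cls i = (r, d) from hi] at this
      exact absurd hd (not_lt.2 this)) r d hr
  have := (hb.fin (r, d)).to_subtype
  let e := (Finite.equivFin {i | cls i = (r, d)}).symm
  refine ⟨_, fun a => x (e a), fun a => (congrArg Pr (e a).2).le (hb.pr _),
    hb.indep.comp (fun a => (e a).1) (Subtype.val_injective.comp e.injective), ?_, ?_⟩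
  · rw [(h3 (r, d) hr).1, Set.image_eq_range]
    exact congrArg _ (e.surjective.range_comp _).symm
  · rw [h5, Nat.card_coe_set_eq, h4 (r, d) hr, hI h X wb hB r d 0 hr]

end Pool.Agent.Lib.CC61
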