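import Pool.Agent.Lib.CC61.ABlue

open Finset

noncomputable section

namespace Pool.Agent.Lib.CC61

theorem T39.sum_emb {A ι : Type} [AddCommMonoid A] [Fintype ι] [DecidableEq ι] (j : ℕ)
    (F : (Fin j → ι) → A) :
    ∑ f : Fin j ↪ ι, F f = ∑ f : Fin j → ι, if Function.Injective f then F f else 0 := by
  rw [← Finset.sum_filter]
  refine Finset.sum_bij (fun f _ => (f : Fin j → ι)) ?_ ?_ ?_ ?_
  · intro f _
    simp [f.injective]
  · intro f _ g _ h
    exact DFunLike.coe_injective h
  · intro f hf
    exact ⟨⟨f, (mem_filter.mp hf).2⟩, mem_univ _, rfl⟩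
  · intro f _
    rfl

theorem st_AUG : St_AUG := by
  intro A _ _ ι _ _ u M B hu hB j
  induction j with
  | zero =>
    intro s _
    exact B.sum_mem fun f _ => by simp
  | succ j ih =>
    intro s hs
    have key : ∑ f : Fin (j + 1) ↪ ι, ∏ i, u (f i) (s i) =
        (∑ a, u a (s 0)) * (∑ f : Fin j ↪ ι, ∏ i, u (f i) (s i.succ)) -
        ∑ i₀ : Fin j, ∑ f : Fin j ↪ ι,
          ∏ i, u (f i) (Function.update (fun i : Fin j => s i.succ) i₀ (s 0 + s i₀.succ) i) := by
      rw [T39.sum_emb (j + 1) fun f => ∏ i, u (f i) (s i),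
        ← (Fin.consEquiv fun _ : Fin (j + 1) => ι).sum_comp, Fintype.sum_prod_type,
        Finset.sum_comm, Finset.mul_sum, Finset.sum_comm (s := (univ : Finset (Fin j))),
        ← Finset.sum_sub_distrib,
        T39.sum_emb j fun f => (∑ a, u a (s 0)) * ∏ i, u (f i) (s i.succ) - ∑ i₀ : Fin j,
          ∏ i, u (f i) (Function.update (fun i : Fin j => s i.succ) i₀ (s 0 + s i₀.succ) i)]
      refine Finset.sum_congr rfl fun f _ => ?_
      have hinj : ∀ a, Function.Injective ((Fin.consEquiv fun _ : Fin (j + 1) => ι) (a, f)) ↔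
          a ∉ Set.range f ∧ Function.Injective f := fun a => Fin.cons_injective_iff
      simp only [hinj]
      simp only [Fin.consEquiv_apply, Fin.prod_univ_succ, Fin.cons_zero, Fin.cons_succ]
      by_cases hf : Function.Injective f
      · simp only [hf, and_true, if_true]
        have h1 : ∀ i₀ : Fin j, ∏ i, u (f i)
            (Function.update (fun i : Fin j => s i.succ) i₀ (s 0 + s i₀.succ) i) =
            u (f i₀) (s 0) * ∏ i, u (f i) (s i.succ) := by
          intro i₀
          rw [← Finset.mul_prod_erase univ _ (mem_univ i₀),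
            ← Finset.mul_prod_erase univ _ (mem_univ i₀), Function.update_self, hu, mul_assoc]
          congr 2
          exact Finset.prod_congr rfl fun i hi => by
            rw [Function.update_of_ne (Finset.ne_of_mem_erase hi)]
        have h2 : ∑ i₀ : Fin j, u (f i₀) (s 0) = ∑ a ∈ univ.image f, u a (s 0) :=
          (Finset.sum_image (f := fun a => u a (s 0)) fun _ _ _ _ h => hf h).symm
        rw [Finset.sum_congr rfl fun i₀ _ => h1 i₀, ← Finset.sum_mul, ← sub_mul, h2,
          ← Finset.sum_sdiff_eq_sub (subset_univ _), ← Finset.sum_filter, Finset.sum_mul]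
        refine Finset.sum_congr ?_ fun _ _ => rfl
        ext a
        simp
      · simp [hf]
    rw [key]
    refine B.sub_mem (B.mul_mem (hB _ (hs 0)) (ih _ fun i => hs _)) (B.sum_mem fun i₀ _ => ih _ ?_)
    intro i
    by_cases h : i = i₀
    · subst h
      rw [Function.update_self]
      exact M.add_mem (hs _) (hs _)
    · rw [Function.update_of_ne h]
      exact hs _

end Pool.Agent.Lib.CC61
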