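import Pool.Agent.Lib.CC61.T39D
import Pool.Agent.Lib.CC61.ABlue

open Finset

noncomputable section

namespace Pool.Agent.Lib.CC61

theorem T39.sum_fst {ι : Type} (cls : ι → Cl) (m : Multiset ι) :
    ((m.map cls).sum).1 = (m.map fun i => (cls i).1).sum := by
  induction m using Multiset.induction_on with
  | empty => simp
  | cons a s ih => simp [ih]

theorem T39.sum_snd {ι : Type} (cls : ι → Cl) (m : Multiset ι) :
    ((m.map cls).sum).2 = (m.map fun i => (cls i).2).sum := by
  induction m using Multiset.induction_on with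
  | empty => simp
  | cons a s ih => simp [ih]

theorem T39.qf_cast (s : Multiset ℕ) : CC61.qf s = (T39.qf s : ℤ) - (s.sum : ℕ) := by
  rw [CC61.qf, T39.qf, Nat.cast_multiset_sum (Multiset.map _ s), Multiset.map_map]
  congr 2
  refine Multiset.map_congr rfl fun i _ => ?_
  rw [Function.comp, Nat.cast_multiset_sum, Multiset.map_map]
  rfl

theorem T39.cntS_eq (h n : ℕ) (d : ℤ) : CntS h n d = T39.RS h n d := by
  ext m
  have h1 := T39.sum_fst id m
  have h2 := T39.sum_snd id m
  rw [Multiset.map_id] at h1 h2
  simp only [CntS, T39.RS, Set.mem_ofPred_eq, Prod.ext_iff, h1, h2, T39.qf_cast]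
  refine and_congr Iff.rfl (and_congr_right fun h3 => ?_)
  rw [show (m.map Prod.fst).sum = n from h3]
  rfl

theorem cntS_finite (h n : ℕ) (d : ℤ) : (CntS h n d).Finite :=
  T39.cntS_eq h n d ▸ T39.RS_finite h n d

/-- The whole generating-series part: the hypotheses of `St_GF3` determine the constant term. -/
theorem gf_all (h : ℕ) (hh : 0 < h) (ι : Type) (cls : ι → Cl) (a : ℕ → ℕ)
    (hpos : ∀ i, 0 < (cls i).1)
    (hcnt : ∀ (r : ℕ) (d : ℤ), 0 < r →
      (WtS cls (r, d)).Finite ∧ (WtS cls (r, d)).ncard = (CntS h r d).ncard)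
    (ha : ∀ (r : ℕ) (d : ℤ), 0 < r → 0 < d → {i | cls i = (r, d)}.ncard = a r)
    (r : ℕ) (d : ℤ) (hr : 0 < r) : A0 (h + 1) r d = a r := by
  refine (T39.B3 (h + 1) (by omega) ι (fun i => (cls i).1) (fun i => (cls i).2) hpos r hr (a r)
    (fun e he => ?_) (fun n _ e => ?_) d).symm
  · rw [← ha r e hr he]
    simp only [Prod.ext_iff]
  · have h1 : {m : Multiset ι | (m.map fun i => (cls i).1).sum = n ∧
        (m.map fun i => (cls i).2).sum = e} = WtS cls (n, e) := by
      ext m
      simp only [WtS, Set.mem_ofPred_eq, Prod.ext_iff, T39.sum_fst, T39.sum_snd]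
    rw [h1, Nat.cast_succ, add_sub_cancel_right]
    change _ = (T39.RS h n e).encard
    rcases Nat.eq_zero_or_pos n with rfl | hn
    · have h2 : WtS cls (0, e) = {m | m = 0 ∧ e = 0} := by
        rw [← h1]
        ext m
        simp only [Set.mem_ofPred_eq]
        constructor
        · rintro ⟨h2, h3⟩
          have h4 := T39.card_le_of_rk (rk := fun i => (cls i).1) hpos m
          rw [h2, Nat.le_zero, Multiset.card_eq_zero] at h4
          subst h4
          exact ⟨rfl, by simpa using h3.symm⟩
        · rintro ⟨rfl, rfl⟩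
          simp
      have h3 : T39.RS h 0 e = {m | m = 0 ∧ e = 0} := by
        ext m
        simp only [T39.RS, Set.mem_ofPred_eq]
        constructor
        · rintro ⟨h2, h3, h4⟩
          obtain rfl : m = 0 := by
            refine Multiset.eq_zero_of_forall_notMem fun p hp => ?_
            have h5 := Multiset.single_le_sum (s := m.map Prod.fst) (by simp) _
              (Multiset.mem_map_of_mem _ hp)
            have := (h2 p hp).1
            omega
          exact ⟨rfl, by simpa [T39.qf] using h4.symm⟩
        · rintro ⟨rfl, rfl⟩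
          simp [T39.qf]
      rw [h2, h3]
      by_cases he : e = 0 <;> simp [he]
    · rw [← T39.cntS_eq, ← (hcnt n e hn).1.cast_ncard_eq, (hcnt n e hn).2,
        (cntS_finite h n e).cast_ncard_eq]

end Pool.Agent.Lib.CC61
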