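import Pool.Agent.Lib.CC61.GBlue
import Pool.Agent.Lib.CC61.GKit1
import Pool.Agent.Lib.CC61.GKit2

/-! Project cc61, block HN. -/

noncomputable section

namespace Pool.Agent.Lib.CC61

open Pool.Agent.Lib.MP_cc3443_ag

variable (K : Type) [Field K] [Algebra ℂ K] [Algebra (RatFunc ℂ) K]
  [IsScalarTower ℂ (RatFunc ℂ) K] [FiniteDimensional (RatFunc ℂ) K]

namespace T24

variable {K} {N : ℕ}

/-- `G / F` is the first Harder-Narasimhan piece of `E / F`. -/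
structure HnP (δ : Cl) (E F G : Lat K N) : Prop where
  le : G ≤ E
  cls : HasClass G F δ
  ss : ∀ W, F ≤ W → W ≤ G → (dg W - dg F) * δ.1 ≤ δ.2 * ((rk W : ℤ) - rk F)
  lt : SubLt δ E G

theorem HnP.key {δ : Cl} {E F G W : Lat K N} (h : HnP δ E F G) (w1 : F ≤ W) (w2 : W ≤ E) :
    (dg W - dg F) * δ.1 ≤ δ.2 * ((rk W : ℤ) - rk F) ∧
      (δ.2 * ((rk W : ℤ) - rk F) ≤ (dg W - dg F) * δ.1 → W ≤ G) := by
  have a1 : (rk (lsup W G) : ℤ) + rk (linf W G) = rk W + rk G := by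
    exact_mod_cast rk_lsup_add_linf W G
  have a2 := dg_lsup_add_linf W G
  have a3 := h.ss _ (le_linf w1 (hasClass_iff.1 h.cls).1) (linf_le_right W G)
  have e1 : dg W = dg (lsup W G) + dg (linf W G) - dg G := by omega
  have e2 : (rk W : ℤ) = rk (lsup W G) + rk (linf W G) - rk G := by omega
  by_cases e : lsup W G = G
  · refine ⟨?_, fun _ => lsup_eq_right.1 e⟩
    rw [e] at e1 e2
    rw [e1, e2]
    linarith
  · have a4 := h.lt _ (le_lsup_right W G) (lsup_le w2 h.le) e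
    rw [e1, e2]
    exact ⟨by linarith, fun a => absurd a (by linarith)⟩

theorem HnP.unique {δ δ' : Cl} {E F G G' : Lat K N} (h : HnP δ E F G) (h' : HnP δ' E F G') :
    G = G' ∧ δ = δ' := by
  obtain ⟨a1, a2, a3⟩ := hasClass_iff_dg.1 h.cls
  obtain ⟨b1, b2, b3⟩ := hasClass_iff_dg.1 h'.cls
  obtain ⟨c1, c2⟩ := h.key b1 h'.le
  obtain ⟨d1, d2⟩ := h'.key a1 h.le
  rw [b2, b3] at c1 c2
  rw [a2, a3] at d1 d2
  push_cast at c1 c2 d1 d2
  obtain rfl : G = G' := le_antisymm (d2 (by linarith)) (c2 (by linarith))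
  exact ⟨rfl, Prod.ext (by omega) (by omega)⟩

theorem HnP.subLt {β δ : Cl} {E F G : Lat K N} (h : HnP δ E F G) (h0 : 0 < δ.1)
    (hβ : δ.2 * β.1 < β.2 * δ.1) : SubLt β E F := fun W w1 w2 w3 => by
  have a1 := (h.key w1 w2).1
  have a2 : (0 : ℤ) < δ.1 := by exact_mod_cast h0
  have a3 : (0 : ℤ) ≤ β.1 := by positivity
  rcases (rk_mono w1).eq_or_lt with e | e
  · have := dg_lt w1 e w3.symm
    rw [e, sub_self, mul_zero] at a1
    nlinarith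
  · have a4 : (0 : ℤ) < (rk W : ℤ) - rk F := by omega
    refine lt_of_mul_lt_mul_right ?_ a2.le
    nlinarith [mul_le_mul_of_nonneg_right a1 a3, mul_lt_mul_of_pos_right hβ a4]

theorem exists_hn {β γ : Cl} {B : ℤ} {E F : Lat K N} (h0 : 0 < γ.1) (hB : Bd B E F)
    (hc : HasClass E F γ) (hβ : SubLt β E F) : ∃ δ G, HnP δ E F G ∧ (1 ≤ δ.1 ∧ δ.1 ≤ γ.1) ∧
      (-|γ.2| ≤ δ.2 ∧ δ.2 ≤ B) ∧ δ.2 * β.1 < β.2 * δ.1 ∧ γ.2 * δ.1 ≤ δ.2 * γ.1 := by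
  obtain ⟨c1, c2, c3⟩ := hasClass_iff_dg.1 hc
  set S : Set Cl := {δ | (∃ G ≤ E, HasClass G F δ) ∧ 1 ≤ δ.1 ∧ γ.2 * δ.1 ≤ δ.2 * γ.1} with hS
  have s1 : ∀ δ ∈ S, (1 ≤ δ.1 ∧ δ.1 ≤ γ.1) ∧ -|γ.2| ≤ δ.2 ∧ δ.2 ≤ B := by
    rintro δ ⟨⟨G, g1, g2⟩, g3, g4⟩
    obtain ⟨a1, a2, a3⟩ := hasClass_iff_dg.1 g2
    have a4 := rk_mono g1
    have a5 := hB G a1 g1
    refine ⟨⟨g3, by omega⟩, le_of_not_gt fun a6 => ?_, by omega⟩
    have a7 : (δ.1 : ℤ) ≤ γ.1 := by omega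
    have a8 : (1 : ℤ) ≤ δ.1 := by omega
    have a9 := neg_abs_le γ.2
    have a10 := abs_nonneg γ.2
    nlinarith
  have s2 : S.Finite := ((Set.finite_Icc 1 γ.1).prod (Set.finite_Icc (-|γ.2|) B)).subset s1
  obtain ⟨ε, e1, e2⟩ := Set.exists_max_image S (fun δ => (δ.2 : ℚ) / δ.1) s2
    ⟨γ, ⟨E, le_rfl, hc⟩, h0, le_rfl⟩
  obtain ⟨δ, ⟨d1, d2⟩, d3⟩ := Set.exists_max_image {δ ∈ S | (ε.2 : ℚ) / ε.1 ≤ (δ.2 : ℚ) / δ.1}
    Prod.fst (s2.subset fun _ h => h.1) ⟨ε, e1, le_rfl⟩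
  have sl : ∀ {μ ν : Cl}, 1 ≤ μ.1 → 1 ≤ ν.1 →
      ((μ.2 : ℚ) / μ.1 ≤ (ν.2 : ℚ) / ν.1 ↔ μ.2 * ν.1 ≤ ν.2 * μ.1) := fun a b => by
    rw [div_le_div_iff₀ (by exact_mod_cast a) (by exact_mod_cast b)]
    norm_cast
  obtain ⟨⟨G, g1, g2⟩, g3, g4⟩ := id d1
  obtain ⟨a1, a2, a3⟩ := hasClass_iff_dg.1 g2
  have p1 : (0 : ℤ) < γ.1 := by omega
  have p2 : (0 : ℤ) < δ.1 := by omega
  have k1 : ∀ W, F ≤ W → W ≤ E → (dg W - dg F) * δ.1 ≤ δ.2 * ((rk W : ℤ) - rk F) := by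
    intro W w1 w2
    rcases (rk_mono w1).eq_or_lt with e | e
    · by_cases w3 : W = F
      · simp [w3]
      · have b1 := hβ W w1 w2 w3
        have b2 := dg_mono w1 e
        have b3 : (0 : ℤ) ≤ β.1 := by positivity
        rw [e, sub_self, mul_zero] at b1
        nlinarith
    · rw [← Nat.cast_sub e.le]
      by_cases w3 : γ.2 * (rk W - rk F : ℕ) ≤ (dg W - dg F) * γ.1
      · exact (sl (μ := (rk W - rk F, dg W - dg F)) (by simp only; omega) g3).1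
          ((e2 _ ⟨⟨W, w2, hasClass_self w1⟩, by simp only; omega, w3⟩).trans d2)
      · have b1 : (0 : ℤ) ≤ (rk W - rk F : ℕ) := by positivity
        refine le_of_mul_le_mul_right ?_ p1
        nlinarith [mul_le_mul_of_nonneg_right g4 b1,
          mul_le_mul_of_nonneg_right (not_le.1 w3).le p2.le]
  refine ⟨δ, G, ⟨g1, g2, fun W w1 w2 => k1 W w1 (w2.trans g1), fun W w1 w2 w3 => ?_⟩,
    (s1 δ d1).1, (s1 δ d1).2, ?_, g4⟩
  · have b1 := k1 W (a1.trans w1) w2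
    have b2 := rk_mono w1
    refine lt_of_not_ge fun b3 => w3 ?_
    rw [a2, a3] at b3
    push_cast at b3
    have b4 : δ.2 * (rk W - rk F : ℕ) ≤ (dg W - dg F) * δ.1 := by
      rw [Nat.cast_sub (by omega)]
      linarith
    have b5 : rk W - rk F ≤ δ.1 := d3 (rk W - rk F, dg W - dg F) ⟨⟨⟨W, w2,
      hasClass_self (a1.trans w1)⟩, by simp only; omega, by
        have b6 : (0 : ℤ) ≤ (rk W - rk F : ℕ) := by positivity
        refine le_of_mul_le_mul_right ?_ p2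
        simp only
        nlinarith [mul_le_mul_of_nonneg_right g4 b6, mul_le_mul_of_nonneg_right b4 p1.le]⟩,
      d2.trans ((sl (ν := (rk W - rk F, dg W - dg F)) g3 (by simp only; omega)).2 b4)⟩
    have b7 : rk W = rk F + δ.1 := by omega
    refine (eq_of_dg w1 (by omega) ?_).symm
    rw [b7] at b1
    push_cast at b1
    rw [a3]
    nlinarith
  · have := hβ G a1 g1 fun e => by rw [e] at a2; omega
    rw [a2, a3] at this
    simpa using this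

theorem hnP_of (hL : St_LET K) {δ ε : Cl} {E F G : Lat K N} (h1 : ltFn δ ε N E G ≠ 0)
    (h2 : ssFn δ N G F ≠ 0) : HnP δ E F G := by
  rw [hL.2.2.2.2.2.1] at h2
  have a1 := of_ind_ne_zero h2
  have a2 : HasClass E G ε ∧ SubLt δ E G := of_ind_ne_zero h1
  exact ⟨(hasClass_iff.1 a2.1).1, a1.1, a1.2, a2.2⟩

end T24

theorem st_HN (hL : St_LET K) : St_HN K := by
  intro β γ B N E F h0 hB
  have n1 := hL.2.2.1
  have n2 := hL.2.1
  have z : ∀ δ, hall (ltFn δ (γ - δ)) (ssFn δ) N E F ≠ 0 → ∃ G, T24.HnP δ E F G := fun δ h =>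
    let ⟨G, g1, g2⟩ := Nice.exists_of_hall h
    ⟨G, T24.hnP_of hL g1 g2⟩
  by_cases h : HasClass E F γ ∧ SubLt β E F
  · obtain ⟨δ, G, g, d1, d2, d3⟩ := T24.exists_hn h0 hB h.1 h.2
    obtain ⟨a1, a2, a3⟩ := hasClass_iff_dg.1 h.1
    obtain ⟨b1, b2, b3⟩ := hasClass_iff_dg.1 g.cls
    rw [Finset.sum_eq_single_of_mem δ (Finset.mem_filter.2 ⟨Finset.mem_product.2
      ⟨Finset.mem_Icc.2 d1, Finset.mem_Icc.2 d2⟩, d3⟩) fun ε _ e => by_contra fun h1 =>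
        let ⟨_, g'⟩ := z ε h1
        e (g'.unique g).2,
      (n1 δ _).hall_single (n2 δ) g.le g.cls fun G' g1 g2 => ((T24.hnP_of hL g1 g2).unique g).1,
      hL.2.2.2.2.2.1, ind_true ⟨g.cls, g.ss⟩, mul_one]
    refine (ind_true h).trans (ind_true ⟨hasClass_iff_dg.2 ⟨g.le, ?_, ?_⟩, g.lt⟩).symm
    · rw [Prod.fst_sub]
      omega
    · rw [Prod.snd_sub]
      omega
  · refine (ind_false h).trans (Finset.sum_eq_zero fun δ hδ => by_contra fun h1 => h ?_).symm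
    obtain ⟨d1, d2, -⟩ := Finset.mem_filter.1 hδ
    obtain ⟨d3, d4⟩ := Finset.mem_Icc.1 (Finset.mem_product.1 d1).1
    obtain ⟨G, g⟩ := z δ h1
    refine ⟨?_, g.subLt d3 d2⟩
    convert ((n1 δ (γ - δ)).mul (n2 δ)).supp h1 using 1
    exact Prod.ext (Nat.sub_add_cancel d4).symm (sub_add_cancel _ _).symm

end Pool.Agent.Lib.CC61
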