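import Pool.Agent.Lib.CC61.B_STR

open Finset
open scoped TensorProduct

noncomputable section

namespace Pool.Agent.Lib.CC61

namespace T59

theorem fin_multiset {α : Type} (s : Set α) (hs : s.Finite) (k : ℕ) :
    {m : Multiset α | m.card ≤ k ∧ ∀ a ∈ m, a ∈ s}.Finite := by
  classical
  refine (Set.finite_Iic (k • hs.toFinset.1)).subset fun m hm => ?_
  rw [Set.mem_Iic, Multiset.le_iff_count]
  intro a
  by_cases ha : a ∈ m
  · rw [Multiset.count_nsmul, Multiset.count_eq_one_of_mem hs.toFinset.2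
      (by simpa using hm.2 a ha), mul_one]
    exact (Multiset.count_le_card a m).trans hm.1
  · simp [Multiset.count_eq_zero_of_notMem ha]

variable {X : Sys} {ws : X.Λ → List Cl → ℂ}

theorem evT_Tc (h : AxW X ws) {V : X.Λ} {ν : Cl} {t : TA} (ht : t ∈ Tc ν)
    (h0 : evT (ws V) t ≠ 0) : ν = X.cl V := by
  by_contra hn
  refine h0 ((Submodule.span_le (p := LinearMap.ker (evT (ws V)))).2 ?_ ht)
  rintro _ ⟨w, ⟨hw, -⟩, rfl⟩
  rw [SetLike.mem_coe, LinearMap.mem_ker, evT_wd h]
  exact by_contra fun h' => hn (hw ▸ h.supp h')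

theorem evT_tail (h : AxW X ws) {V : X.Λ} {B : ℤ} (hB : X.Box B V) {ν : Cl} {t : TA}
    (ht : t ∈ Tc ν) (u : TA) (h0 : evT (ws V) (u * t) ≠ 0) : ν.2 ≤ B := by
  by_contra hn
  refine h0 (span_mul (W := LinearMap.ker (evT (ws V))) (s := Set.range bw) ?_
    (span_bw ▸ Submodule.mem_top) ht)
  rintro _ ⟨v, rfl⟩ _ ⟨w, ⟨hw, -⟩, rfl⟩
  rw [LinearMap.mem_ker, wd_eq_bw, ← bw_append, evT_bw, ax_filter h]
  exact by_contra fun h' => hn (hw ▸ h.tail hB h')

variable {ι : Type} [LinearOrder ι] {cls : ι → Cl} {x : ι → TA} {mi : ι → Prop}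

theorem mon_cons {j : ι} {s : Multiset ι} (h : ∀ i ∈ s, j ≤ i) :
    mon x (j ::ₘ s) = x j * mon x s := by
  rw [← Multiset.singleton_add, mon_add (by simpa using h)]
  simp [mon]

theorem sorted_induction {P : Multiset ι → Prop} (h0 : P 0)
    (h1 : ∀ j s, (∀ i ∈ s, j ≤ i) → P s → P (j ::ₘ s)) (m : Multiset ι) : P m := by
  have : ∀ l : List ι, l.Pairwise (· ≤ ·) → P l := by
    intro l
    induction l with
    | nil => exact fun _ => h0
    | cons a l ih =>
      intro h
      rw [List.pairwise_cons] at h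
      exact h1 a l h.1 (ih h.2)
  simpa using this _ (Multiset.pairwise_sort m (· ≤ ·))

theorem mon_mem_Tc (hx : ∀ i, x i ∈ Pr (cls i)) (m : Multiset ι) :
    mon x m ∈ Tc (m.map cls).sum := by
  induction m using sorted_induction with
  | h0 => exact Submodule.subset_span ⟨[], by simp, by simp [mon, wd]⟩
  | h1 j s h ih =>
    rw [mon_cons h, Multiset.map_cons, Multiset.sum_cons]
    exact Tc_mul (mem_Pr.1 (hx j)).1 ih

theorem DT_mon (hx : ∀ i, x i ∈ Pr (cls i)) (m : Multiset ι) :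
    DT (mon x m) = (m.antidiagonal.map fun p => mon x p.1 ⊗ₜ[ℂ] mon x p.2).sum := by
  induction m using sorted_induction with
  | h0 => simp [mon, Algebra.TensorProduct.one_def]
  | h1 j s h ih =>
    rw [mon_cons h, map_mul, ih, (mem_Pr.1 (hx j)).2, Multiset.antidiagonal_cons,
      Multiset.map_add, Multiset.sum_add, add_mul, add_comm, ← Multiset.sum_map_mul_left,
      ← Multiset.sum_map_mul_left, Multiset.map_map, Multiset.map_map]
    congr 2 <;> refine Multiset.map_congr rfl fun p hp => ?_ <;>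
      have hp := Multiset.mem_antidiagonal.1 hp
    · simp [mon_cons (s := p.2) fun i hi => h i (hp ▸ Multiset.mem_add.2 (.inr hi))]
    · simp [mon_cons (s := p.1) fun i hi => h i (hp ▸ Multiset.mem_add.2 (.inl hi))]

omit [LinearOrder ι] in
theorem card_le_rank (hp : ∀ i, 0 < (cls i).1) (m : Multiset ι) :
    m.card ≤ (m.map cls).sum.1 := by
  induction m using Multiset.induction_on with
  | empty => simp
  | cons a s ih =>
    have := hp a
    simp only [Multiset.card_cons, Multiset.map_cons, Multiset.sum_cons, Prod.fst_add]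
    omega

omit [LinearOrder ι] in
theorem deg_le {C : ℤ} (m : Multiset ι) (h : ∀ i ∈ m, (cls i).2 ≤ C) :
    (m.map cls).sum.2 ≤ m.card * C := by
  induction m using Multiset.induction_on with
  | empty => simp
  | cons a s ih =>
    have h1 := h a (Multiset.mem_cons_self _ _)
    have h2 := ih fun i hi => h i (Multiset.mem_cons_of_mem hi)
    simp only [Multiset.card_cons, Multiset.map_cons, Multiset.sum_cons, Prod.snd_add]
    push_cast
    linarith

theorem finite_mon (hS : AxS X ws) (hB : Bas X ws ι cls x mi) (V : X.Λ) :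
    {m | evT (ws V) (mon x m) ≠ 0}.Finite := by
  obtain ⟨B, hV⟩ := hS.box_ex V
  set r := (X.cl V).1
  set C : ℤ := |B| * r with hC
  have hC0 : 0 ≤ C := by positivity
  have hs : (⋃ ν ∈ Set.Iic r ×ˢ Set.Icc ((X.cl V).2 - r * C) C, {i | cls i = ν}).Finite :=
    ((Set.finite_Iic r).prod (Set.finite_Icc _ _)).biUnion fun ν _ => hB.fin ν
  refine (fin_multiset _ hs r).subset fun m hm => ?_
  have h1 := evT_Tc hS.toAxW (mon_mem_Tc hB.pr m) hm
  have h2 : ∀ i ∈ m, (cls i).1 ≤ r := fun i hi => by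
    rw [← Multiset.cons_erase hi, Multiset.map_cons, Multiset.sum_cons] at h1
    exact le_of_add_le_left (congrArg Prod.fst h1).le
  have h3 : ∀ i ∈ m, (cls i).2 ≤ C := by
    intro i hi
    by_cases hmi : mi i
    · exact (hB.prm i hmi).2.trans hC0
    obtain ⟨j, hj, hmax⟩ := m.toFinset.exists_max_image id ⟨i, Multiset.mem_toFinset.2 hi⟩
    simp only [Multiset.mem_toFinset, id] at hj hmax
    have e : mon x m = mon x (m.erase j) * x j := by
      conv_lhs => rw [← Multiset.cons_erase hj, ← Multiset.singleton_add, add_comm]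
      rw [mon_add (by simpa using fun a ha => hmax a (Multiset.mem_of_mem_erase ha))]
      simp [mon]
    have h4 := evT_tail hS.toAxW hV (mem_Pr.1 (hB.pr j)).1 _ (by rw [← e]; exact hm)
    have h5 := hB.slope i j hmi (hmax i hi)
    have h6 : (1 : ℤ) ≤ (cls j).1 := by exact_mod_cast hB.pos j
    have h7 : ((cls i).1 : ℤ) ≤ r := by exact_mod_cast h2 i hi
    have h8 : (cls j).2 * (cls i).1 ≤ C :=
      (mul_le_mul_of_nonneg_right (h4.trans (le_abs_self B)) (Int.natCast_nonneg _)).trans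
        (mul_le_mul_of_nonneg_left h7 (abs_nonneg _))
    nlinarith
  have h4 : m.card ≤ r := (card_le_rank hB.pos m).trans (congrArg Prod.fst h1).le
  refine ⟨h4, fun i hi => ?_⟩
  simp only [Set.mem_iUnion]
  refine ⟨cls i, ⟨h2 i hi, ?_, h3 i hi⟩, rfl⟩
  have h5 := deg_le (m.erase i) fun j hj => h3 j (Multiset.mem_of_mem_erase hj)
  have h6 : ((m.erase i).card : ℤ) ≤ r := by
    exact_mod_cast (Multiset.card_le_card (Multiset.erase_le i m)).trans h4
  rw [← Multiset.cons_erase hi, Multiset.map_cons, Multiset.sum_cons] at h1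
  have h7 : (cls i).2 + ((m.erase i).map cls).sum.2 = (X.cl V).2 := congrArg Prod.snd h1
  nlinarith

theorem Phi_eq (φ : X.Λ →₀ ℂ) (t : TA) :
    Phi ws φ t = ∑ V ∈ φ.support, φ V * evT (ws V) t := by
  simp [Phi, Finsupp.linearCombination_apply, Finsupp.sum]

theorem Phi_prod (hS : AxS X ws) (hx : ∀ i, x i ∈ Pr (cls i)) (φ ψ : X.Λ →₀ ℂ) (m : Multiset ι) :
    Phi ws (∑ V ∈ φ.support, ∑ W ∈ ψ.support, Finsupp.single (X.add V W) (φ V * ψ W)) (mon x m) =
      (m.antidiagonal.map fun p => Phi ws φ (mon x p.1) * Phi ws ψ (mon x p.2)).sum := by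
  simp only [← Phi_apply, map_sum, Finsupp.linearCombination_single, hS.cop, DT_mon hx,
    map_multiset_sum, Multiset.map_map, smul_eq_mul, ← Multiset.sum_map_mul_left,
    ← Multiset.sum_map_sum]
  refine congrArg _ (Multiset.map_congr rfl fun p _ => ?_)
  simp only [Phi_apply, Phi_eq, sum_mul_sum, Function.comp, ev2, TensorProduct.lift.tmul,
    LinearMap.compl₁₂_apply, LinearMap.mul_apply']
  exact sum_congr rfl fun _ _ => sum_congr rfl fun _ _ => by ring

open Classical in
/-- `φ` is dual to the monomial `m`. -/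
def Du (ws : X.Λ → List Cl → ℂ) (cls : ι → Cl) (x : ι → TA) (m : Multiset ι) (φ : X.Λ →₀ ℂ) :
    Prop :=
  φ ∈ Finsupp.supported ℂ ℂ {V | X.cl V = (m.map cls).sum ∧ (2 ≤ m.card →
      ∃ V₁ V₂, 0 < (X.cl V₁).1 ∧ 0 < (X.cl V₂).1 ∧ V = X.add V₁ V₂)} ∧
    ∀ m', Phi ws φ (mon x m') = if m' = m then 1 else 0

omit [LinearOrder ι] in
theorem rank_pos (hp : ∀ i, 0 < (cls i).1) {m : Multiset ι} (h : m ≠ 0) :
    0 < (m.map cls).sum.1 :=
  (Multiset.card_pos.2 h).trans_le (card_le_rank hp m)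

theorem du_add (hS : AxS X ws) (hB : Bas X ws ι cls x mi) {a b : Multiset ι} (ha : a ≠ 0)
    (hb : b ≠ 0) {φ ψ : X.Λ →₀ ℂ} (h : Du ws cls x a φ) (h' : Du ws cls x b ψ) :
    ∃ χ, Du ws cls x (a + b) χ := by
  classical
  have hc : (((a + b).antidiagonal.count (a, b) : ℕ) : ℂ) ≠ 0 :=
    Nat.cast_ne_zero.2 (Multiset.count_ne_zero.2 (Multiset.mem_antidiagonal.2 rfl))
  refine ⟨(((a + b).antidiagonal.count (a, b) : ℕ) : ℂ)⁻¹ •
    ∑ V ∈ φ.support, ∑ W ∈ ψ.support, Finsupp.single (X.add V W) (φ V * ψ W),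
    Submodule.smul_mem _ _ (sum_mem fun V hV => sum_mem fun W hW =>
      Finsupp.single_mem_supported _ _ ?_), fun m => ?_⟩
  · have h1 := ((Finsupp.mem_supported _ _).1 h.1 hV).1
    have h2 := ((Finsupp.mem_supported _ _).1 h'.1 hW).1
    exact ⟨by rw [hS.cl_add, h1, h2, Multiset.map_add, Multiset.sum_add],
      fun _ => ⟨V, W, h1 ▸ rank_pos hB.pos ha, h2 ▸ rank_pos hB.pos hb, rfl⟩⟩
  · have e : (m.antidiagonal.map fun p => Phi ws φ (mon x p.1) * Phi ws ψ (mon x p.2)).sum =
        (m.antidiagonal.count (a, b) : ℕ) := by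
      simp only [h.2, h'.2]
      induction m.antidiagonal using Multiset.induction_on with
      | empty => simp
      | cons p s ih =>
        rw [Multiset.map_cons, Multiset.sum_cons, ih, Multiset.count_cons, add_comm]
        obtain ⟨p, q⟩ := p
        by_cases h1 : p = a <;> by_cases h2 : q = b <;> simp [h1, h2, @eq_comm _ a, @eq_comm _ b]
    rw [← Phi_apply, map_smul, Phi_apply, Phi_prod hS hB.pr, e, smul_eq_mul]
    split_ifs with hm
    · rw [hm, inv_mul_cancel₀ hc]
    · rw [Multiset.count_eq_zero_of_notMem (s := m.antidiagonal) fun h =>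
        hm (Multiset.mem_antidiagonal.1 h).symm]
      simp

theorem du_single (hS : AxS X ws) (hB : Bas X ws ι cls x mi) (i : ι)
    (h2 : ∀ m : Multiset ι, 2 ≤ m.card → (m.map cls).sum = cls i → ∃ φ, Du ws cls x m φ) :
    ∃ φ, Du ws cls x {i} φ := by
  classical
  have := (hB.fin (cls i)).to_subtype
  have h3 := span_flip_eq_top_iff_linearIndependent.2
    (hB.indep.comp (fun j : {j | cls j = cls i} => j.1) Subtype.val_injective)
  obtain ⟨φ, hφ⟩ := (Finsupp.mem_span_range_iff_exists_finsupp.1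
    (h3 ▸ Submodule.mem_top : Pi.single ⟨i, rfl⟩ 1 ∈ _))
  set φ₀ := φ.filter fun V => X.cl V = cls i with hφ₀
  have h4 : ∀ m, (m.map cls).sum ≠ cls i → Phi ws φ₀ (mon x m) = 0 := by
    intro m hm
    rw [Phi_eq]
    refine sum_eq_zero fun V hV => mul_eq_zero_of_right _ (by_contra fun h => hm ?_)
    rw [evT_Tc hS.toAxW (mon_mem_Tc hB.pr m) h]
    exact (mem_filter.1 hV).2
  have h5 : ∀ j, Phi ws φ₀ (mon x {j}) = if j = i then 1 else 0 := by
    intro j
    by_cases hj : cls j = cls i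
    · have h6 := congrFun hφ ⟨j, hj⟩
      simp only [Finsupp.sum, Finset.sum_apply, Pi.smul_apply, flip, Function.comp, smul_eq_mul,
        Pi.single_apply, Subtype.mk.injEq] at h6
      rw [← h6, Phi_eq, hφ₀, Finsupp.support_filter, sum_filter]
      refine sum_congr rfl fun V _ => ?_
      split_ifs with hV
      · simp [mon, hV]
      · refine (mul_eq_zero_of_right _ (by_contra fun h => hV ?_)).symm
        rw [← evT_Tc hS.toAxW (mem_Pr.1 (hB.pr j)).1 h, hj]
    · rw [h4 _ (by simpa using hj), if_neg (by rintro rfl; exact hj rfl)]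
  have h6 : {m : Multiset ι | 2 ≤ m.card ∧ Phi ws φ₀ (mon x m) ≠ 0}.Finite := by
    refine (φ₀.support.finite_toSet.biUnion fun V _ => finite_mon hS hB V).subset fun m hm => ?_
    have := hm.2
    rw [Phi_eq] at this
    obtain ⟨V, hV, h⟩ := exists_ne_zero_of_sum_ne_zero this
    exact Set.mem_biUnion hV (right_ne_zero_of_mul h)
  have h7 : ∀ m ∈ h6.toFinset, (m.map cls).sum = cls i := fun m hm =>
    by_contra fun h => (h6.mem_toFinset.1 hm).2 (h4 m h)
  choose! ψ hψ using h2
  have h8 := fun m (hm : m ∈ h6.toFinset) => hψ m (h6.mem_toFinset.1 hm).1 (h7 m hm)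
  refine ⟨φ₀ - ∑ m ∈ h6.toFinset, Phi ws φ₀ (mon x m) • ψ m, sub_mem ?_ (sum_mem fun m hm =>
    Submodule.smul_mem _ _ (Finsupp.supported_mono (fun V hV => ?_) (h8 m hm).1)), fun m => ?_⟩
  · exact (Finsupp.mem_supported _ _).2 fun V hV => ⟨by simpa using (mem_filter.1 hV).2, by simp⟩
  · exact ⟨by rw [hV.1, h7 m hm]; simp, by simp⟩
  · rw [← Phi_apply, map_sub, map_sum]
    simp only [map_smul, Phi_apply, smul_eq_mul]
    rw [sum_congr rfl fun m' hm' => by rw [(h8 m' hm').2 m]]
    simp only [mul_ite, mul_one, mul_zero, sum_ite_eq, Set.Finite.mem_toFinset, Set.mem_ofPred_eq]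
    rcases Nat.lt_or_ge m.card 2 with h | h
    · rw [if_neg (by omega), sub_zero]
      rcases m.empty_or_exists_mem with rfl | ⟨j, hj⟩
      · rw [h4 0 fun h => (hB.pos i).ne (congrArg Prod.fst h), if_neg (by simp)]
      · obtain ⟨j, rfl⟩ := Multiset.card_eq_one.1 (show m.card = 1 by
          have := Multiset.card_pos_iff_exists_mem.2 ⟨j, hj⟩
          omega)
        simp [h5]
    · rw [if_neg (show m ≠ {i} by rintro rfl; simp at h)]
      by_cases h0 : Phi ws φ₀ (mon x m) = 0 <;> simp [h0, h]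

theorem du_exists (hS : AxS X ws) (hB : Bas X ws ι cls x mi) (r : ℕ) :
    ∀ m : Multiset ι, m ≠ 0 → (m.map cls).sum.1 = r → ∃ φ, Du ws cls x m φ := by
  induction r using Nat.strong_induction_on with
  | _ r ih =>
    have h2 : ∀ m : Multiset ι, 2 ≤ m.card → (m.map cls).sum.1 = r → ∃ φ, Du ws cls x m φ := by
      intro m hm hr
      obtain ⟨i, hi⟩ := Multiset.card_pos_iff_exists_mem.1 (show 0 < m.card by omega)
      obtain ⟨b, rfl⟩ := Multiset.exists_cons_of_mem hi
      have hb : b ≠ 0 := by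
        rintro rfl
        simp at hm
      have h3 := rank_pos hB.pos hb
      have h4 := hB.pos i
      simp only [Multiset.map_cons, Multiset.sum_cons, Prod.fst_add] at hr
      obtain ⟨φ, hφ⟩ := ih (cls i).1 (by omega) {i} (by simp) (by simp)
      obtain ⟨ψ, hψ⟩ := ih _ (by omega) b hb rfl
      exact du_add hS hB (by simp) hb hφ hψ
    intro m hm hr
    rcases Nat.lt_or_ge m.card 2 with h | h
    · obtain ⟨i, rfl⟩ := Multiset.card_eq_one.1 (show m.card = 1 by
        have := Multiset.card_pos.2 hm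
        omega)
      exact du_single hS hB i fun m h3 h4 => h2 m h3 (by rw [h4, ← hr]; simp)
    · exact h2 m h hr

end T59

open T59 in
theorem st_LEIB : St_LEIB := by
  intro X ws ι _ cls x mi hS hB
  refine ⟨finite_mon hS hB, fun V m h => evT_Tc hS.toAxW (mon_mem_Tc hB.pr m) h, fun m hm => ?_⟩
  obtain ⟨φ, h1, h2⟩ := du_exists hS hB _ m hm rfl
  exact ⟨φ, fun V hV => (Finsupp.mem_supported _ _).1 h1 hV, fun m' => by
    rw [Phi_apply, h2]⟩

end Pool.Agent.Lib.CC61
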