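import Pool.Agent.Lib.CC61.B_PURE
import Pool.Agent.Lib.CC61.B_AUG

open Finset PowerSeries

noncomputable section

namespace Pool.Agent.Lib.CC61

namespace T39

variable {l : ℕ}

/-- The multipliers of a subspace. -/
def mult {A : Type} [CommRing A] [Algebra ℂ A] (W : Submodule ℂ A) : Subalgebra ℂ A where
  carrier := {T | ∀ U ∈ W, T * U ∈ W}
  mul_mem' := fun {a b} ha hb U hU => by rw [mul_assoc]; exact ha _ (hb U hU)
  add_mem' := fun {a b} ha hb U hU => by rw [add_mul]; exact W.add_mem (ha U hU) (hb U hU)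
  algebraMap_mem' := fun c U hU => by rw [← Algebra.smul_def]; exact W.smul_mem c hU

section Newton

variable {A : Type} [CommRing A]

theorem coeff_prod_fin (g : Fin l → A⟦X⟧) (n : ℕ) :
    coeff n (∏ a, g a) = ∑ j ∈ Finset.Nat.antidiagonalTuple l n, ∏ a, coeff (j a) (g a) := by
  rw [PowerSeries.coeff_prod]
  refine Finset.sum_bij' (fun j _ => (j : Fin l → ℕ)) (fun j _ => Finsupp.equivFunOnFinite.symm j)
    ?_ ?_ ?_ ?_ ?_
  · intro j hj
    exact Finset.Nat.mem_antidiagonalTuple.mpr (mem_finsuppAntidiag.mp hj).1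
  · intro j hj
    exact mem_finsuppAntidiag.mpr ⟨Finset.Nat.mem_antidiagonalTuple.mp hj, subset_univ _⟩
  · intro j _
    simp
  · intro j _
    rfl
  · intro j _
    rfl

theorem coeff_pow_lin (w : A) (N j : ℕ) :
    coeff j ((1 - C w * X : A⟦X⟧) ^ N) = (-w) ^ j * (N.choose j : A) := by
  have h1 : (1 - C w * X : A⟦X⟧) ^ N =
      rescale (-w) (((1 + Polynomial.X) ^ N : Polynomial A) : A⟦X⟧) := by
    rw [Polynomial.coe_pow, map_pow, Polynomial.coe_add, Polynomial.coe_one, Polynomial.coe_X,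
      map_add, map_one, rescale_X, map_neg, neg_mul, sub_eq_add_neg]
  rw [h1, coeff_rescale, Polynomial.coeff_coe, Polynomial.coeff_one_add_X_pow]

theorem logd_lin (w : A) (N : ℕ) : d⁄dX A ((1 - C w * X : A⟦X⟧) ^ N) =
    -((N : A⟦X⟧) * PowerSeries.mk fun k => w ^ (k + 1)) * (1 - C w * X) ^ N := by
  have h1 : (PowerSeries.mk fun k => w ^ (k + 1)) * (1 - C w * X : A⟦X⟧) = C w := by
    ext k
    rw [mul_sub, mul_one, map_sub, ← mul_assoc, coeff_mk]
    cases k with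
    | zero => simp
    | succ k => simp [coeff_succ_mul_X, pow_succ]
  induction N with
  | zero => simp
  | succ N ih =>
    rw [pow_succ, Derivation.leibniz, ih]
    have h2 : d⁄dX A (1 - C w * X : A⟦X⟧) = -C w := by simp
    rw [h2, ← h1]
    simp only [smul_eq_mul]
    push_cast
    rw [h1]
    linear_combination (1 - C w * X) ^ N * h1

theorem logd_prod {ι : Type} (s : Finset ι) (g q : ι → A⟦X⟧) (h : ∀ a, d⁄dX A (g a) = q a * g a) :
    d⁄dX A (∏ a ∈ s, g a) = (∑ a ∈ s, q a) * ∏ a ∈ s, g a := by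
  classical
  induction s using Finset.induction_on with
  | empty => simp
  | insert a s ha ih =>
    rw [Finset.prod_insert ha, Finset.sum_insert ha, Derivation.leibniz, ih, h]
    simp only [smul_eq_mul]
    ring

end Newton

theorem zv_neg_pow (a : Fin l) (k : ℕ) : zv a (-1) ^ k = zv a (-(k : ℤ)) := by
  induction k with
  | zero => simp [zv_zero]
  | succ k ih => rw [pow_succ, ih, ← zv_add]; congr 1; push_cast; ring

theorem TT_eq (h n : ℕ) (γ : Fin l → ℕ) :
    TT h n γ = coeff n (∏ a, (1 - C (zv a (-1)) * X : (LP l)⟦X⟧) ^ (2 * h * γ a)) := by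
  rw [coeff_prod_fin, TT]
  refine Finset.sum_congr rfl fun j _ => ?_
  rw [zz_eq_prod, ← Finset.prod_smul]
  refine Finset.prod_congr rfl fun a _ => ?_
  rw [coeff_pow_lin, neg_pow, zv_neg_pow, cc, Algebra.smul_def, map_mul, map_pow, map_neg, map_one,
    map_natCast]
  ring

theorem TT_zero (h : ℕ) : (TT h 0 : Fam l) = 1 := by
  funext γ
  rw [TT_eq]
  simp [map_prod]

theorem TT_newton (h n : ℕ) : ((n + 1 : ℕ) : Fam l) * TT h (n + 1) =
    -∑ k ∈ range (n + 1), ((2 * h : ℕ) : Fam l) * PW (-((k + 1 : ℕ) : ℤ)) * TT h (n - k) := by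
  funext γ
  have h1 := congrArg (coeff n) (logd_prod univ
    (fun a => (1 - C (zv a (-1)) * X : (LP l)⟦X⟧) ^ (2 * h * γ a)) _
    fun a => logd_lin (zv a (-1)) (2 * h * γ a))
  rw [coeff_derivative, coeff_mul, Finset.Nat.sum_antidiagonal_eq_sum_range_succ_mk] at h1
  simp only [← TT_eq] at h1
  simp only [Pi.mul_apply, Pi.neg_apply, Finset.sum_apply, Pi.natCast_apply]
  rw [Nat.cast_succ, mul_comm, h1, ← Finset.sum_neg_distrib]
  refine Finset.sum_congr rfl fun k _ => ?_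
  rw [← neg_mul, map_sum, PW, Finset.mul_sum, ← Finset.sum_neg_distrib]
  congr 1
  refine Finset.sum_congr rfl fun a _ => ?_
  rw [map_neg, ← map_natCast (C (R := LP l)), coeff_C_mul, coeff_mk, zv_neg_pow,
    Nat.cast_smul_eq_nsmul, nsmul_eq_mul, Nat.cast_mul (2 * h), mul_assoc]

theorem PW_mem {h : ℕ} (hh : 0 < h) (B : Subalgebra ℂ (Fam l)) (hB : ∀ n, TT h n ∈ B) (n : ℕ) :
    PW (-((n + 1 : ℕ) : ℤ)) ∈ B := by
  induction n using Nat.strong_induction_on with
  | _ n ih =>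
    have h1 := TT_newton (l := l) h n
    rw [Finset.sum_range_succ, Nat.sub_self, TT_zero, mul_one] at h1
    have h2 : ((2 * h : ℕ) : ℂ) ≠ 0 := Nat.cast_ne_zero.mpr (by omega)
    have h3 : ((2 * h : ℕ) : ℂ) • (PW (-((n + 1 : ℕ) : ℤ)) : Fam l) ∈ B := by
      rw [Nat.cast_smul_eq_nsmul, nsmul_eq_mul,
        show ((2 * h : ℕ) : Fam l) * PW (-((n + 1 : ℕ) : ℤ)) = -(((n + 1 : ℕ) : Fam l) * TT h (n + 1))
          - ∑ k ∈ range n, ((2 * h : ℕ) : Fam l) * PW (-((k + 1 : ℕ) : ℤ)) * TT h (n - k) by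
          rw [h1]; ring]
      exact B.sub_mem (B.neg_mem (B.mul_mem (B.natCast_mem _) (hB _))) (B.sum_mem fun k hk =>
        B.mul_mem (B.mul_mem (B.natCast_mem _) (ih k (mem_range.mp hk))) (hB _))
    have h4 := B.smul_mem h3 ((2 * h : ℕ) : ℂ)⁻¹
    rwa [smul_smul, inv_mul_cancel₀ h2, one_smul] at h4

/-- Sums over permutations of a function of the restriction to an embedding. -/
theorem sum_perm_emb {A : Type} [AddCommMonoid A] {j : ℕ} (e : Fin j ↪ Fin l) :
    ∃ c : ℕ, ∀ F : (Fin j ↪ Fin l) → A,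
      ∑ σ : Equiv.Perm (Fin l), F (e.trans σ.toEmbedding) = c • ∑ f, F f := by
  refine ⟨(univ.filter fun σ : Equiv.Perm (Fin l) => e.trans σ.toEmbedding = e).card, fun F => ?_⟩
  rw [← Finset.sum_fiberwise_of_maps_to (s := univ) (t := univ)
    (g := fun σ : Equiv.Perm (Fin l) => e.trans σ.toEmbedding) (fun _ _ => mem_univ _),
    Finset.smul_sum]
  refine Finset.sum_congr rfl fun f _ => ?_
  rw [Finset.sum_congr rfl (g := fun _ => F f) fun σ hσ => by rw [(mem_filter.mp hσ).2],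
    Finset.sum_const]
  congr 1
  obtain ⟨τ, hτ⟩ := Equiv.Perm.exists_extending_pair f e f.injective e.injective
  refine Finset.card_equiv (Equiv.mulLeft τ) fun σ => ?_
  simp only [mem_filter, mem_univ, true_and, Function.Embedding.ext_iff]
  refine forall_congr' fun i => ?_
  change σ (e i) = f i ↔ τ (σ (e i)) = e i
  rw [← hτ i, τ.apply_eq_iff_eq, hτ]

theorem oneY_comp_iff {Y Y' : Finset (Fin l)} (hc : Y'.card = Y.card) (σ : Equiv.Perm (Fin l)) :
    oneY Y' ∘ σ = oneY Y ↔ ∀ a ∈ Y, σ a ∈ Y' := by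
  constructor
  · intro h a ha
    have := congrFun h a
    simp only [Function.comp, oneY, ha, if_true] at this
    by_contra hn
    simp [hn] at this
  · intro h
    have h1 : Y.map σ.toEmbedding = Y' := Finset.eq_of_subset_of_card_le (fun b hb => by
      obtain ⟨a, ha, rfl⟩ := mem_map.mp hb
      exact h a ha) (by simp [hc])
    funext a
    simp [oneY, ← h1]

end T39

open T39 in
theorem st_MUL : St_MUL := by
  intro l h W hh hT hW Y U hU hs f
  let Sp : Submodule ℂ (Fam l) :=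
    { carrier := {U | ∀ γ, (¬ ∃ Y' : Finset (Fin l), Y'.card = Y.card ∧ γ = oneY Y') → U γ = 0}
      add_mem' := fun ha hb γ hγ => by simp [ha γ hγ, hb γ hγ]
      zero_mem' := fun _ _ => rfl
      smul_mem' := fun c _ ha γ hγ => by simp [ha γ hγ] }
  have hSp : ∀ T, ∀ V ∈ Sp, T * V ∈ Sp := fun T V hV γ hγ => by
    rw [Pi.mul_apply, hV γ hγ, mul_zero]
  have hB : ∀ T : Fam l, (∀ V ∈ W, T * V ∈ W) → T ∈ mult (W ⊓ Sp) :=
    fun T h1 V hV => ⟨h1 V hV.1, hSp T V hV.2⟩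
  have hcg : ∀ T T' : Fam l, T ∈ mult (W ⊓ Sp) →
      (∀ Y' : Finset (Fin l), Y'.card = Y.card → T' (oneY Y') = T (oneY Y')) →
      T' ∈ mult (W ⊓ Sp) := by
    intro T T' h1 h2 V hV
    suffices h3 : T' * V = T * V from h3 ▸ h1 V hV
    funext γ
    by_cases hγ : ∃ Y' : Finset (Fin l), Y'.card = Y.card ∧ γ = oneY Y'
    · obtain ⟨Y', h3, rfl⟩ := hγ
      rw [Pi.mul_apply, Pi.mul_apply, h2 Y' h3]
    · rw [Pi.mul_apply, Pi.mul_apply, hV.2 γ hγ, mul_zero, mul_zero]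
  let u : Fin l → ℤ → Fam l := fun a k γ => if γ a = 0 then 0 else zv a k
  have hu : ∀ a k k', u a (k + k') = u a k * u a k' := fun a k k' => funext fun γ => by
    simp only [u, Pi.mul_apply]
    split_ifs
    · rw [mul_zero]
    · rw [zv_add]
  have hPW : ∀ k (Y' : Finset (Fin l)), (∑ a, u a k) (oneY Y') = PW k (oneY Y') := by
    intro k Y'
    rw [Finset.sum_apply, PW]
    exact Finset.sum_congr rfl fun a _ => by by_cases ha : a ∈ Y' <;> simp [u, oneY, ha]
  let M : AddSubmonoid ℤ :=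
    { carrier := {k | k ≤ 0}
      add_mem' := fun {a b} (ha : a ≤ 0) (hb : b ≤ 0) => (add_nonpos ha hb : a + b ≤ 0)
      zero_mem' := le_refl (0 : ℤ) }
  have hsum : ∀ k ∈ M, ∑ a, u a k ∈ mult (W ⊓ Sp) := by
    intro k hk
    rcases (show k ≤ 0 from hk).eq_or_lt with rfl | hk
    · refine hcg _ _ ((mult (W ⊓ Sp)).natCast_mem Y.card) fun Y' hY' => ?_
      rw [hPW, PW, ← hY']
      simp [zv_zero, oneY]
    · obtain ⟨n, rfl⟩ : ∃ n : ℕ, k = -((n + 1 : ℕ) : ℤ) := ⟨(-k - 1).toNat, by omega⟩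
      exact hcg _ _ (PW_mem hh _ (fun n => hB _ fun V hV => hT V hV n) n) fun Y' _ => hPW _ Y'
  suffices hf : pure (oneY Y) (prj Y f) ∈ mult (W ⊓ Sp) from
    (hf U ⟨hU, fun γ hγ => by by_contra hn; exact hγ (hs γ hn)⟩).1
  refine lp_induction (p := fun f => pure (oneY Y) (prj Y f) ∈ mult (W ⊓ Sp)) f ?_ ?_ ?_
  · rw [map_zero, ← pureL_apply, map_zero]; exact zero_mem _
  · intro P Q h1 h2
    rw [map_add, ← pureL_apply, map_add]; exact add_mem h1 h2
  intro c m
  rw [map_smul, ← pureL_apply, map_smul, pureL_apply]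
  refine Subalgebra.smul_mem _ ?_ c
  obtain ⟨k, hk⟩ : ∃ k : ℤ, ∀ a, m a ≤ k := (Set.finite_range m).bddAbove.imp fun k hk a =>
    hk ⟨a, rfl⟩
  obtain ⟨n, e, he⟩ : ∃ (n : ℕ) (e : Fin n ↪ Fin l), univ.map e = Y :=
    ⟨_, (Y.orderEmbOfFin rfl).toEmbedding, Y.map_orderEmbOfFin_univ rfl⟩
  obtain ⟨N, hN⟩ := sum_perm_emb (A := Fam l) e
  have h1 := st_AUG (Fam l) (Fin l) u _ _ hu hsum n (fun i => m (e i) - k)
    fun i => sub_nonpos.mpr (hk _)
  refine hcg _ _ (mul_mem (hB _ fun V hV => hW V hV k) (nsmul_mem h1 N)) fun Y' hY' => ?_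
  rw [← hN, Pi.mul_apply, Finset.sum_apply, Finset.mul_sum, pure]
  refine Finset.sum_congr rfl fun σ _ => ?_
  rw [Finset.prod_apply]
  split_ifs with hσ
  · have h2 := (oneY_comp_iff hY' σ).mp hσ
    have h3 : ∀ i, e i ∈ Y := fun i => he ▸ mem_map_of_mem e (mem_univ i)
    have h4 : (∏ i, u (e.trans σ.toEmbedding i) (m (e i) - k) (oneY Y')) =
        ren σ (∏ a ∈ Y, zv a (m a - k)) := by
      rw [map_prod, ← he, Finset.prod_map]
      refine Finset.prod_congr rfl fun i _ => ?_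
      rw [ren_zv]
      exact if_neg (by simp [oneY, h2 _ (h3 i)])
    rw [h4, ← ren_TW k σ, hσ, ← map_mul, prj_zz]
    congr 1
    simp only [zv]
    rw [← zz_sum, TW, ← zz_add]
    congr 1
    funext b
    by_cases hb : b ∈ Y <;> simp [oneY, hb, Pi.single_apply]
  · rw [oneY_comp_iff hY'] at hσ
    push Not at hσ
    obtain ⟨a, ha, hn⟩ := hσ
    obtain ⟨i, -, rfl⟩ := mem_map.mp (he ▸ ha : a ∈ univ.map e)
    rw [Finset.prod_eq_zero (mem_univ i), mul_zero]
    exact if_pos (by simp [oneY, hn])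

end Pool.Agent.Lib.CC61
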