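import Pool.Agent.Lib.CC61.B_PURE

open Finset

noncomputable section

namespace Pool.Agent.Lib.CC61

namespace T39

variable {l : ℕ}

theorem algHom_ext_zv {A : Type} [CommSemiring A] [Algebra ℂ A] {f g : LP l →ₐ[ℂ] A}
    (h : ∀ a k, f (zv a k) = g (zv a k)) : f = g :=
  algHom_ext fun m => by simp only [zz_eq_prod m, map_prod, h]

theorem prj_zv (Y : Finset (Fin l)) (a : Fin l) (k : ℤ) :
    prj Y (zv a k) = if a ∈ Y then zv a k else 1 := by
  rw [zv, prj_zz]
  split_ifs with h
  · congr 1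
    funext b
    by_cases hb : b = a
    · simp [hb, h]
    · simp [hb]
  · rw [← zz_zero]
    congr 1
    funext b
    by_cases hb : b = a
    · simp [hb, h]
    · simp [hb]

theorem prj_of_mem {Y : Finset (Fin l)} {P : LP l} (h : ∀ a, a ∉ Y → P ∈ Gr (co a) 0) :
    prj Y P = P := by
  rw [eq_sum_zz P, map_sum]
  refine Finset.sum_congr rfl fun m hm => ?_
  rw [map_smul, prj_zz]
  congr 2
  funext b
  split_ifs with hb
  · rfl
  · exact (h b hb m hm).symm

theorem prj_co (Y : Finset (Fin l)) (P : LP l) {a : Fin l} (ha : a ∉ Y) : prj Y P ∈ Gr (co a) 0 := by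
  refine lp_induction (p := fun P => prj Y P ∈ Gr (co a) 0) P (by simp)
    (fun P Q h1 h2 => by rw [map_add]; exact add_mem h1 h2) fun c m => ?_
  rw [map_smul, prj_zz]
  exact Submodule.smul_mem _ _ (zz_mem (by simp [co, ha]))

theorem prj_prj (Y : Finset (Fin l)) (P : LP l) : prj Y (prj Y P) = prj Y P :=
  prj_of_mem fun _ ha => prj_co Y P ha

theorem sum_oneY (Y : Finset (Fin l)) : ∑ a, oneY Y a = Y.card := by simp [oneY]

theorem card_Y0 {r : ℕ} (h : r ≤ l) : (Y0 l r).card = r := by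
  rw [Y0, Fin.card_filter_val_lt, min_eq_right h]

theorem ren_prj_congr (Y : Finset (Fin l)) {f g : Fin l → Fin l} (h : ∀ a ∈ Y, f a = g a)
    (P : LP l) : ren f (prj Y P) = ren g (prj Y P) := by
  refine DFunLike.congr_fun (algHom_ext_zv (f := (ren f).comp (prj Y)) (g := (ren g).comp (prj Y))
    fun a k => ?_) P
  simp only [AlgHom.comp_apply, prj_zv]
  split_ifs with ha
  · rw [ren_zv, ren_zv, h a ha]
  · simp

theorem oneY_perm {Y : Finset (Fin l)} (σ : Equiv.Perm (Fin l)) (h : ∀ a ∈ Y, σ a ∈ Y) :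
    oneY Y ∘ σ = oneY Y := by
  have h1 : Y.map σ.toEmbedding = Y := Finset.eq_of_subset_of_card_le (fun b hb => by
    obtain ⟨a, ha, rfl⟩ := mem_map.mp hb
    exact h a ha) (by simp)
  funext a
  have h2 : σ a ∈ Y ↔ a ∈ Y := by
    conv_lhs => rw [← h1]
    simp
  simp [oneY, h2]

/-- A proper ideal of Laurent polynomials has a zero in the torus. -/
theorem exists_zero (J : Ideal (LP l)) (hJ : J ≠ ⊤) : ∃ y : Fin l → ℂˣ, ∀ P ∈ J, evP y P = 0 := by
  obtain ⟨M, hM, hJM⟩ := Ideal.exists_le_maximal J hJ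
  let _ := Ideal.Quotient.field M
  have : Module.Finite ℂ (LP l ⧸ M) := finite_of_finite_type_of_isJacobsonRing _ _
  let e : ℂ ≃ₐ[ℂ] (LP l ⧸ M) := AlgEquiv.ofBijective (Algebra.ofId _ _)
    IsAlgClosed.algebraMap_bijective_of_isIntegral
  let χ : LP l →ₐ[ℂ] ℂ := e.symm.toAlgHom.comp (Ideal.Quotient.mkₐ ℂ M)
  have h1 : ∀ a k, χ (zv a k) * χ (zv a (-k)) = 1 := fun a k => by
    rw [← map_mul, ← zv_add, add_neg_cancel, zv_zero, map_one]
  refine ⟨fun a => Units.mk0 (χ (zv a 1)) (left_ne_zero_of_mul_eq_one (h1 a 1)), fun P hP => ?_⟩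
  have h2 : ∀ a (n : ℕ), χ (zv a n) = χ (zv a 1) ^ n := fun a n => by
    induction n with
    | zero => simp [zv_zero]
    | succ n ih => rw [Nat.cast_succ, zv_add, map_mul, ih, pow_succ]
  rw [algHom_ext_zv (f := evP _) (g := χ) fun a k => ?_]
  · change e.symm (Ideal.Quotient.mk M P) = 0
    rw [Ideal.Quotient.eq_zero_iff_mem.mpr (hJM hP), map_zero]
  · rw [evP_zv, Units.val_zpow_eq_zpow_val, Units.val_mk0]
    obtain ⟨n, rfl | rfl⟩ := k.eq_nat_or_neg
    · rw [h2, zpow_natCast]
    · rw [zpow_neg, zpow_natCast, ← h2, eq_inv_of_mul_eq_one_right (h1 a n)]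

/-- The element that separates two blocks of variables. -/
theorem sep_mem {h r : ℕ} {W : Submodule ℂ (Fam l)} (hD : DecU l h r ≤ W) {A B : Finset (Fin l)}
    (hAB : Disjoint A B) (hA : A.Nonempty) (hB : B.Nonempty) (hr : (A ∪ B).card = r) (f : LP l) :
    pure (oneY (A ∪ B)) (prj (A ∪ B) (f * (cross h (oneY A) (oneY B) *
      ∏ p ∈ A ×ˢ B, (zv p.1 1 - zv p.2 1)))) ∈ W := by
  have hd : ∀ a ∈ A, a ∉ B := fun a ha => Finset.disjoint_left.mp hAB ha
  let g : Equiv.Perm (Fin l) → Fin l → Fin l := fun τ a => if a ∈ B then τ a else a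
  let Φ : LP l → Fam l := fun R => ∑ τ : Equiv.Perm (Fin l), pure (oneY A + oneY B ∘ τ.symm)
    (cross h (oneY A) (oneY B ∘ τ.symm) * ren (g τ) (prj (A ∪ B) R))
  have h1 : ∀ R, Φ R ∈ W := by
    intro R
    refine lp_induction (p := fun R => Φ R ∈ W) R ?_ (fun P Q h1 h2 => ?_) fun c m => ?_
    · simp only [Φ, map_zero, mul_zero, ← pureL_apply, Finset.sum_const_zero]
      exact W.zero_mem
    · simp only [Φ, map_add, mul_add, ← pureL_apply, Finset.sum_add_distrib] at h1 h2 ⊢
      exact W.add_mem h1 h2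
    · simp only [Φ, map_smul, mul_smul_comm, ← pureL_apply, ← Finset.smul_sum]
      refine W.smul_mem c (hD (Submodule.subset_span ⟨A.card, B.card,
        pure (oneY A) (prj A (zz m)), pure (oneY B) (prj B (zz m)), hA.card_pos, hB.card_pos,
        by rw [← hr, card_union_of_disjoint hAB], ?_, ?_, ?_⟩))
      · rw [← sum_oneY]
        exact pure_admU' fun a ha => prj_co _ _ (by simpa [oneY] using ha)
      · rw [← sum_oneY]
        exact pure_admU' fun a ha => prj_co _ _ (by simpa [oneY] using ha)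
      · rw [sh_pure]
        refine Finset.sum_congr rfl fun τ _ => ?_
        rw [pureL_apply]
        congr 2
        simp only [zz_eq_prod m, map_prod, ← Finset.prod_mul_distrib, prj_zv, mem_union]
        refine Finset.prod_congr rfl fun a _ => ?_
        by_cases ha : a ∈ A
        · simp [ha, hd a ha, ren_zv, g]
        · by_cases hb : a ∈ B <;> simp [ha, hb, ren_zv, g]
  set Q : LP l := ∏ p ∈ A ×ˢ B, (zv p.1 1 - zv p.2 1) with hQ
  have hQp : prj (A ∪ B) Q = Q := by
    rw [hQ, map_prod]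
    refine Finset.prod_congr rfl fun p hp => ?_
    rw [mem_product] at hp
    simp [prj_zv, hp.1, hp.2]
  have hCp : prj (A ∪ B) (cross h (oneY A) (oneY B)) = cross h (oneY A) (oneY B) :=
    prj_of_mem fun a ha => by
      rw [mem_union, not_or] at ha
      exact cross_co h (by simp [oneY, ha.1]) (by simp [oneY, ha.2])
  set T := pure (oneY (A ∪ B)) (prj (A ∪ B) (f * (cross h (oneY A) (oneY B) * Q))) with hT
  have h2 : Φ (f * Q) = ∑ τ : Equiv.Perm (Fin l), if ∀ b ∈ B, τ b ∉ A then T else 0 := by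
    refine Finset.sum_congr rfl fun τ _ => ?_
    split_ifs with hτ
    · obtain ⟨ρ, hρ⟩ := Equiv.Perm.exists_extending_pair (fun a : ↥(A ∪ B) => (a : Fin l))
        (fun a => g τ a) Subtype.val_injective (by
          rintro ⟨a, ha⟩ ⟨b, hb⟩ hab
          rw [mem_union] at ha hb
          simp only [g] at hab
          refine Subtype.ext ?_
          split_ifs at hab with h3 h4 h4
          · exact τ.injective hab
          · exact absurd (hab ▸ hb.resolve_right h4) (hτ a h3)
          · exact absurd (hab ▸ ha.resolve_right h3) (hτ b h4)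
          · exact hab)
      have hρA : ∀ a ∈ A, ρ a = a := fun a ha =>
        (hρ ⟨a, mem_union_left _ ha⟩).trans (if_neg (hd a ha))
      have hρB : ∀ a ∈ B, ρ a = τ a := fun a ha =>
        (hρ ⟨a, mem_union_right _ ha⟩).trans (if_pos ha)
      have e1 : oneY A ∘ ρ = oneY A := (oneY_perm ρ fun a ha => by rw [hρA a ha]; exact ha)
      have e2 : (oneY B ∘ τ.symm) ∘ ρ = oneY B := by
        have := oneY_perm (Y := B) (τ⁻¹ * ρ) fun a ha => by
          rw [Equiv.Perm.mul_apply, hρB a ha]; simpa using ha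
        exact this
      have e3 : (oneY A + oneY B ∘ τ.symm) ∘ ρ = oneY (A ∪ B) := by
        rw [show (oneY A + oneY B ∘ τ.symm) ∘ ρ = oneY A ∘ ρ + (oneY B ∘ τ.symm) ∘ ρ from rfl, e1, e2]
        funext a
        by_cases ha : a ∈ A
        · simp [oneY, ha, hd a ha]
        · simp [oneY, ha]
      rw [hT, ← e3, pure_perm, ren_prj_congr (A ∪ B) (f := g τ) (g := ρ)
        (fun a ha => (hρ ⟨a, ha⟩).symm), ← ren_cross h ρ (oneY A), e1, e2, ← map_mul,
        mul_left_comm f, map_mul (prj (A ∪ B)) (cross h (oneY A) (oneY B)), hCp]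
    · push Not at hτ
      obtain ⟨b, hb, hτ⟩ := hτ
      rw [map_mul, map_mul, hQp, hQ, map_prod,
        Finset.prod_eq_zero (i := (τ b, b)) (mem_product.mpr ⟨hτ, hb⟩), mul_zero, mul_zero,
        ← pureL_apply, map_zero]
      simp [ren_zv, g, hb, hd _ hτ]
  have h3 := h1 (f * Q)
  rw [h2, ← Finset.sum_filter, Finset.sum_const, ← Nat.cast_smul_eq_nsmul ℂ,
    W.smul_mem_iff (Nat.cast_ne_zero.mpr (Finset.card_ne_zero.mpr
      ⟨1, mem_filter.mpr ⟨mem_univ _, fun b hb ha => hd _ ha hb⟩⟩))] at h3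
  exact h3

end T39

open T39 in
theorem st_NULL : St_NULL := by
  intro l h r W hr hl hD hx
  set Y := Y0 l r with hY
  let J : Ideal (LP l) :=
    { carrier := {P | ∀ f, pure (oneY Y) (prj Y (f * P)) ∈ W}
      add_mem' := fun ha hb f => by
        rw [mul_add, map_add, ← pureL_apply, map_add]; exact W.add_mem (ha f) (hb f)
      zero_mem' := fun f => by rw [mul_zero, map_zero, ← pureL_apply, map_zero]; exact W.zero_mem
      smul_mem' := fun c P ha f => by rw [smul_eq_mul, ← mul_assoc]; exact ha _ }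
  by_cases hJ : J = ⊤
  · intro f
    have h1 : (1 : LP l) ∈ J := hJ ▸ Submodule.mem_top
    simpa using h1 f
  exfalso
  obtain ⟨y, hy⟩ := exists_zero J hJ
  have hc : Y.card = r := card_Y0 hl
  obtain ⟨a₀, ha₀⟩ : Y.Nonempty := card_pos.mp (hc ▸ hr)
  by_cases hB : (Y.filter fun a => ¬ y a = y a₀).Nonempty
  · have h1 := sep_mem hD (disjoint_filter_filter_not Y Y fun a => y a = y a₀)
      ⟨a₀, mem_filter.mpr ⟨ha₀, rfl⟩⟩ hB (by rw [filter_union_filter_not_eq, hc])
    rw [filter_union_filter_not_eq] at h1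
    have h2 := hy _ h1
    have h3 : ∀ a b, y a ≠ y b → evP y (zv a 1 - zv b 1) ≠ 0 := fun a b hab => by
      rw [map_sub, evP_zv, evP_zv, zpow_one, zpow_one, sub_ne_zero]
      exact fun h4 => hab (Units.ext h4)
    rw [map_mul, cross, dP, map_prod, map_prod] at h2
    refine mul_ne_zero (prod_ne_zero_iff.mpr fun p _ => ?_) (prod_ne_zero_iff.mpr fun p hp => ?_) h2
    · rw [map_pow]
      by_cases hp : y p.1 = y p.2
      · rw [Nat.mul_eq_zero.mpr (Or.inr ?_), pow_zero]
        · exact one_ne_zero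
        · simp only [oneY, mem_filter, hp]
          by_cases h4 : p.1 ∈ Y <;> by_cases h5 : p.2 ∈ Y <;> by_cases h6 : y p.2 = y a₀ <;>
            simp [h4, h5, h6]
      · exact pow_ne_zero _ (h3 _ _ hp)
    · simp only [mem_product, mem_filter] at hp
      exact h3 _ _ fun h4 => hp.2.2 (h4 ▸ hp.1.2)
  · obtain ⟨P, h1, h2⟩ := hx (y a₀)
    have h3 : prj Y P ∈ J := fun f => by
      have := h2 f
      rwa [map_mul, ← prj_prj Y P, ← map_mul] at this
    apply h1
    rw [← hy _ h3]
    refine DFunLike.congr_fun (algHom_ext_zv (f := (evP fun _ => y a₀).comp (prj Y))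
      (g := (evP y).comp (prj Y)) fun a k => ?_) P
    simp only [AlgHom.comp_apply, prj_zv]
    split_ifs with ha
    · rw [evP_zv, evP_zv]
      by_contra hn
      exact hB ⟨a, mem_filter.mpr ⟨ha, fun h4 => hn (by rw [h4])⟩⟩
    · simp

end Pool.Agent.Lib.CC61
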