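import Pool.Agent.Lib.CC61.GBlue
import Pool.Agent.Lib.CC61.GKit2

open Filter Set Module

noncomputable section

namespace Pool.Agent.Lib.CC61

open Pool.Agent.Lib.MP_cc3443_ag

variable {K : Type} [Field K] [Algebra ℂ K] [Algebra (RatFunc ℂ) K]
  [IsScalarTower ℂ (RatFunc ℂ) K] [FiniteDimensional (RatFunc ℂ) K] {N : ℕ}

namespace T43

theorem flag_le {r : ℕ} {M : ℕ → Lat K N} {m : ℕ → ℤ}
    (h : ∀ k < r, HasClass (M k) (M (k + 1)) (1, m k) ∧ Sat (M k) (M (k + 1))) {i j : ℕ}
    (hij : i ≤ j) (hj : j ≤ r) : M j ≤ M i ∧ Sat (M i) (M j) ∧ rk (M i) + i = rk (M j) + j := by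
  induction j, hij using Nat.le_induction with
  | base => exact ⟨le_rfl, sat_self _, rfl⟩
  | succ j _ ih =>
    obtain ⟨a, b, c⟩ := ih (by omega)
    obtain ⟨d, e⟩ := h j (by omega)
    rw [hasClass_iff_dg] at d
    have := d.2.1
    exact ⟨d.1.trans a, b.trans e d.1, by simp only at this; omega⟩

theorem rk_lt_of_not_le {F F' G R : Lat K N} (hs : Sat F F') (h1 : G ≤ F) (h2 : ¬ G ≤ F')
    (h3 : R ≤ G) (h4 : R.gen ≤ F'.gen) : rk R < rk G :=
  lt_of_le_of_ne (rk_mono h3) fun h5 => h2 fun x w hw =>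
    hs x w (h1 x hw) (h4 (gen_eq_of_rk h3 h5 ▸ Lat.mem_gen hw))

theorem lsup_class {F F' M M' : Lat K N} {m : ℤ} (hs : Sat F F') (hc : HasClass M M' (1, m))
    (hs' : Sat M M') (h1 : M ≤ F) (h2 : M' ≤ F') (h3 : ¬ M ≤ F') :
    rk (lsup M F') = rk F' + 1 ∧ dg (lsup M F') = dg F' + m := by
  obtain ⟨a, b, c⟩ := hasClass_iff_dg.1 hc
  simp only at b c
  have h4 := rk_lt_of_not_le hs h1 h3 (linf_le_left M F') (Lat.gen_mono (linf_le_right M F'))
  have h5 := rk_mono (le_linf a h2)
  have h6 : linf M F' = M' := le_antisymm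
    ((sat_iff a).1 hs' _ (le_linf a h2) (linf_le_left _ _) (by omega)) (le_linf a h2)
  have h7 := rk_lsup_add_linf M F'
  have h8 := dg_lsup_add_linf M F'
  rw [h6] at h7 h8
  omega

end T43

open T43 in
variable (K) in
theorem st_OPER2 : St_OPER2 K := by
  classical
  intro h r N Fl M m hO h0 hr hM hA
  have hF := fun i j => flag_le (i := i) (j := j) (m := fun k => 2 * (h : ℤ) * k) hO.cls
  have hM' := fun i j => flag_le (i := i) (j := j) hM
  have ex : ∀ k, ∃ j, M j ≤ Fl k := fun k => ⟨r, hr ▸ bot_le⟩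
  let J : ℕ → ℕ := fun k => Nat.find (ex k)
  have J1 : ∀ k, M (J k) ≤ Fl k := fun k => Nat.find_spec (ex k)
  have J2 : ∀ k j, j < J k → ¬ M j ≤ Fl k := fun k j hj => Nat.find_min (ex k) hj
  have J3 : ∀ k j, M j ≤ Fl k → J k ≤ j := fun k j hj => Nat.find_min' (ex k) hj
  have J4 : ∀ k, J k ≤ r := fun k => J3 k r (hr ▸ bot_le)
  have key : ∀ k ≤ r, ∃ A ⊆ Finset.range (J k), A.card = k ∧
      ∑ a ∈ A, m a = (h : ℤ) * k * (k - 1) ∧
      ∀ k', k = k' + 1 → J k' < J k ∧ m (J k - 1) = 2 * (h : ℤ) * k' := by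
    intro k
    induction k with
    | zero => exact fun _ => ⟨∅, by simp, rfl, by simp, fun _ h => by omega⟩
    | succ k ih =>
      intro hk
      obtain ⟨A, a1, a2, a3, a4⟩ := ih (by omega)
      have s1 : J k < J (k + 1) := by
        by_contra! h1
        have h2 : M (J k) ≤ Fl (k + 1) := (hM' _ _ h1 (J4 k)).1.trans (J1 _)
        rcases k with _ | k
        · have h3 : J 0 = 0 := Nat.le_zero.1 (J3 0 0 h0.le)
          rw [h3, h0] at h2
          have := rk_mono h2
          have := (hF 0 (0 + 1) (by omega) hk).2.2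
          omega
        · obtain ⟨b1, b2⟩ := a4 k rfl
          obtain ⟨i, hi⟩ : ∃ i, J (k + 1) = i + 1 := ⟨J (k + 1) - 1, by omega⟩
          have b3 := J4 (k + 1)
          rw [hi, Nat.add_sub_cancel] at b2
          rw [hi] at h2
          have b4 : M i ≤ Fl k := (hM' _ _ (by omega) (by omega)).1.trans (J1 k)
          have b5 := J2 (k + 1) i (by omega)
          have b6 := hF k (k + 2) (by omega) hk
          have b7 := hF (k + 1) (k + 2) (by omega) hk
          have b8 := lsup_class b6.2.1 (hM i (by omega)).1 (hM i (by omega)).2 b4 h2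
            fun h3 => b5 (h3.trans b7.1)
          have b9 := lsup_le b4 b6.1
          have c1 : Fl (k + 2) ≤ (lsup (M i) (Fl (k + 2))).restrict (Fl (k + 1)).gen :=
            le_restrict (le_lsup_right _ _) (Lat.gen_mono b7.1)
          have c2 := rk_lt_of_not_le (hO.cls k (by omega)).2 b9
            (fun h3 => b5 ((le_lsup_left _ _).trans h3)) (Lat.restrict_le _ (Fl (k + 1)).gen)
            inf_le_right
          have c3 := rk_mono c1
          have c4 := hO.nonsplit k hk _ (le_lsup_right _ _) b9 (le_antisymm ((sat_iff b6.1).1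
            b6.2.1 _ c1 ((Lat.restrict_le _ _).trans b9) (by omega)) c1) b8.1
          omega
      obtain ⟨i, hi⟩ : ∃ i, J (k + 1) = i + 1 := ⟨J (k + 1) - 1, by omega⟩
      have b3 := J4 (k + 1)
      have b4 : M i ≤ Fl k := (hM' _ _ (by omega) (by omega)).1.trans (J1 k)
      obtain ⟨b6, b7, b8⟩ := hasClass_iff_dg.1 (hO.cls k hk).1
      simp only at b7 b8
      have b9 := lsup_class (hO.cls k hk).2 (hM i (by omega)).1 (hM i (by omega)).2 b4
        (hi ▸ J1 (k + 1)) (J2 (k + 1) i (by omega))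
      have c1 := dg_mono (lsup_le b4 b6) (by omega)
      have c2 : i ∉ A := fun h1 => by have := Finset.mem_range.1 (a1 h1); omega
      have c3 : insert i A ⊆ Finset.range (i + 1) := Finset.insert_subset (by simp)
        (a1.trans (Finset.range_mono (by omega)))
      have c4 := hA _ (c3.trans (Finset.range_mono (by omega)))
      rw [Finset.card_insert_of_notMem c2, Finset.sum_insert c2, a2, a3] at c4
      have c5 : m i = 2 * (h : ℤ) * k := by push_cast at c4; linarith
      refine ⟨insert i A, hi ▸ c3, by rw [Finset.card_insert_of_notMem c2, a2], ?_, fun k' e => ?_⟩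
      · rw [Finset.sum_insert c2, a3, c5]; push_cast; ring
      · obtain rfl : k = k' := by omega
        exact ⟨s1, by rw [hi, Nat.add_sub_cancel, c5]⟩
  have mono : ∀ d k, k + d ≤ r → J k + d ≤ J (k + d) := by
    intro d
    induction d with
    | zero => simp
    | succ d ih =>
      intro k hk
      obtain ⟨_, -, -, -, a⟩ := key (k + d + 1) hk
      have := (a _ rfl).1
      have := ih k (by omega)
      rw [← add_assoc k]
      omega
  intro k hk
  have h1 := mono (r - k) k (by omega)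
  have h2 := J4 (k + (r - k))
  have h3 : M k ≤ Fl k := (hM' _ _ (by omega) hk).1.trans (J1 k)
  have h4 := hM' 0 k (by omega) hk
  have h5 := hF 0 k (by omega) hk
  rw [h0] at h4
  exact le_antisymm h3 ((sat_iff h4.1).1 h4.2.1 _ h3 h5.1 (by omega))

end Pool.Agent.Lib.CC61
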