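import Pool.Agent.Lib.CC61.B_SH

open Finset

noncomputable section

namespace Pool.Agent.Lib.CC61

namespace T39

variable {l : ℕ}

theorem ren_pure (γ : Fin l → ℕ) (P : LP l) (τ : Equiv.Perm (Fin l)) (δ : Fin l → ℕ) :
    ren τ (pure γ P (δ ∘ τ)) = pure γ P δ := by
  rw [pure, pure, map_sum]
  refine Fintype.sum_equiv (Equiv.mulLeft τ) _ _ fun σ => ?_
  change _ = if (δ ∘ τ) ∘ σ = γ then ren (τ * σ : Equiv.Perm (Fin l)) P else 0
  split_ifs
  · rw [ren_ren]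
  · rw [map_zero]

theorem ren_co (σ : Equiv.Perm (Fin l)) {P : LP l} {a : Fin l} {g : ℤ} (h : P ∈ Gr (co a) g) :
    ren σ P ∈ Gr (co (σ a)) g :=
  mem_Gr.mpr fun m hm => mem_Gr.mp h (m ∘ σ) (by rwa [coeff_ren] at hm)

theorem pure_admU' {γ : Fin l → ℕ} {P : LP l} (hP : ∀ a, γ a = 0 → P ∈ Gr (co a) 0) :
    pure γ P ∈ AdmU l (∑ a, γ a) := by
  refine mem_AdmU.mpr ⟨fun δ hδ => ?_, fun δ a ha => Submodule.sum_mem _ fun σ _ => ?_,
    ren_pure γ P⟩
  · obtain ⟨σ, -, h⟩ := Finset.exists_ne_zero_of_sum_ne_zero hδ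
    have h1 : δ ∘ σ = γ := by
      by_contra hn
      exact h (if_neg hn)
    rw [← h1]
    exact (Equiv.sum_comp σ δ).symm
  · split_ifs with h
    · have := ren_co σ (hP (σ.symm a) (by rw [← h]; simpa using ha))
      rwa [Equiv.apply_symm_apply] at this
    · exact Submodule.zero_mem _

theorem pure_admU (γ : Fin l → ℕ) (P : LP l) (hP : ∀ m, P.coeff m ≠ 0 → ∀ a, γ a = 0 → m a = 0) :
    pure γ P ∈ AdmU l (∑ a, γ a) :=
  pure_admU' fun a ha => mem_Gr.mpr fun m hm => hP m hm a ha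

theorem sum_pure {r : ℕ} {S : Fam l} (hS : S ∈ AdmU l r) :
    ∑ γ ∈ Finset.Nat.antidiagonalTuple l r, pure γ (S γ) = (l.factorial : ℂ) • S := by
  obtain ⟨a1, -, a3⟩ := mem_AdmU.mp hS
  funext δ
  simp only [Finset.sum_apply, pure]
  rw [Finset.sum_comm]
  have h1 : ∀ σ : Equiv.Perm (Fin l), (∑ γ ∈ Finset.Nat.antidiagonalTuple l r,
      if δ ∘ σ = γ then ren σ (S γ) else 0) = S δ := by
    intro σ
    rw [Finset.sum_ite_eq]
    split_ifs with h
    · exact a3 σ δ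
    · by_contra hne
      apply h
      rw [Finset.Nat.mem_antidiagonalTuple, ← a1 δ (Ne.symm hne)]
      exact Equiv.sum_comp σ δ
  simp only [h1]
  rw [Finset.sum_const, card_univ, Fintype.card_perm, Fintype.card_fin, Pi.smul_apply,
    Nat.cast_smul_eq_nsmul]

theorem admU_le_of_pure {r : ℕ} {W : Submodule ℂ (Fam l)}
    (h : ∀ (γ : Fin l → ℕ) (m : Fin l → ℤ), ∑ a, γ a = r → (∀ a, γ a = 0 → m a = 0) →
      pure γ (zz m) ∈ W) : AdmU l r ≤ W := by
  intro S hS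
  have h0 : (l.factorial : ℂ) ≠ 0 := Nat.cast_ne_zero.mpr l.factorial_ne_zero
  rw [← W.smul_mem_iff h0, ← sum_pure hS]
  refine W.sum_mem fun γ hγ => ?_
  rw [eq_sum_zz (S γ), ← pureL_apply, map_sum]
  refine W.sum_mem fun m hm => ?_
  rw [map_smul]
  exact W.smul_mem _ (h γ m (Finset.Nat.mem_antidiagonalTuple.mp hγ)
    (hS.1 γ m (Finsupp.mem_support_iff.mp hm)).2)

theorem pure_perm (γ : Fin l → ℕ) (σ : Equiv.Perm (Fin l)) (P : LP l) :
    pure (γ ∘ σ) P = pure γ (ren σ P) := by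
  funext δ
  rw [pure, pure]
  symm
  refine Fintype.sum_equiv (Equiv.mulRight σ) _ _ fun τ => ?_
  change _ = if (δ ∘ τ) ∘ σ = γ ∘ σ then ren (τ * σ : Equiv.Perm (Fin l)) P else 0
  rw [ren_ren]
  simp only [σ.surjective.injective_comp_right.eq_iff]

theorem sh_pure (h : ℕ) (γ₁ γ₂ : Fin l → ℕ) (P₁ P₂ : LP l) :
    sh h (pure γ₁ P₁) (pure γ₂ P₂) = ∑ τ : Equiv.Perm (Fin l),
      pure (γ₁ + γ₂ ∘ τ.symm) (cross h γ₁ (γ₂ ∘ τ.symm) * (P₁ * ren τ P₂)) := by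
  funext γ
  simp only [sh, pure, Finset.sum_apply, Finset.sum_mul, Finset.mul_sum]
  rw [Finset.sum_comm, Finset.sum_comm (s := univ) (t := univ)]
  simp only [Finset.sum_comm (s := Iic γ)]
  rw [Finset.sum_comm]
  refine Finset.sum_congr rfl fun σ _ => ?_
  symm
  refine Fintype.sum_equiv (Equiv.mulLeft σ) _ _ fun τ => ?_
  change _ = ∑ δ ∈ Iic γ, cross h δ (γ - δ) * ((if δ ∘ σ = γ₁ then ren σ P₁ else 0) *
    if ((γ - δ) ∘ σ) ∘ τ = γ₂ then ren (σ * τ : Equiv.Perm (Fin l)) P₂ else 0)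
  have h0 : ∀ δ ∈ Iic γ, δ ≠ γ₁ ∘ σ.symm → cross h δ (γ - δ) *
      ((if δ ∘ σ = γ₁ then ren σ P₁ else 0) *
      if ((γ - δ) ∘ σ) ∘ τ = γ₂ then ren (σ * τ : Equiv.Perm (Fin l)) P₂ else 0) = 0 := by
    intro δ _ hδ
    rw [if_neg fun h1 => hδ ((comp_symm_iff σ γ₁ δ).mpr h1.symm).symm, zero_mul, mul_zero]
  have h1 : (γ₁ ∘ σ.symm) ∘ σ = γ₁ := by funext a; simp
  split_ifs with hγ
  · have h2 : γ₁ ∘ σ.symm ≤ γ := fun a => by
      have := congrFun hγ (σ.symm a)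
      simp only [Function.comp, Equiv.apply_symm_apply, Pi.add_apply] at this ⊢
      omega
    have h3 : (γ - γ₁ ∘ σ.symm) ∘ σ = γ₂ ∘ τ.symm := by
      funext a
      have := congrFun hγ a
      simp only [Function.comp, Equiv.symm_apply_apply, Pi.add_apply, Pi.sub_apply] at this ⊢
      omega
    rw [Finset.sum_eq_single_of_mem _ (mem_Iic.mpr h2) h0, if_pos h1, h3,
      if_pos (by funext a; simp), map_mul, map_mul, ren_ren,
      ← ren_cross h σ (γ₁ ∘ σ.symm), h1, h3]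
  · symm
    refine Finset.sum_eq_zero fun δ hδ => ?_
    by_cases h2 : δ = γ₁ ∘ σ.symm
    · rw [if_neg (c := ((γ - δ) ∘ σ) ∘ τ = γ₂), mul_zero, mul_zero]
      intro h3
      apply hγ
      funext a
      have h4 := congrFun h3 (τ.symm a)
      have h5 := mem_Iic.mp hδ (σ a)
      subst h2
      simp only [Function.comp, Equiv.symm_apply_apply, Equiv.apply_symm_apply, Pi.add_apply,
        Pi.sub_apply] at h4 h5 ⊢
      omega
    · exact h0 δ hδ h2

theorem pure_mul (γ : Fin l → ℕ) (P : LP l) (U : Fam l)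
    (hU : ∀ (σ : Equiv.Perm (Fin l)) δ, U δ = ren σ (U (δ ∘ σ))) :
    pure γ P * U = pure γ (P * U γ) := by
  funext δ
  simp only [Pi.mul_apply, pure, Finset.sum_mul]
  refine Finset.sum_congr rfl fun σ _ => ?_
  split_ifs with h
  · rw [map_mul, hU σ δ, h]
  · rw [zero_mul]

end T39

open T39 in
theorem st_PURE : St_PURE := fun _ h =>
  ⟨pure_admU, fun _ => admU_le_of_pure fun γ m h1 h2 => Submodule.subset_span ⟨γ, m, h1, h2, rfl⟩,
    pure_perm, sh_pure h, pure_mul, fun k σ δ => (ren_PW k σ δ).symm⟩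

end Pool.Agent.Lib.CC61
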