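import Pool.Agent.Lib.CC61.B_NULL
import Pool.Agent.Lib.CC61.B_MUL

open Finset

noncomputable section

namespace Pool.Agent.Lib.CC61

namespace T39

variable {l : ℕ}

/-- Support of a rank vector. -/
def sp (γ : Fin l → ℕ) : Finset (Fin l) := univ.filter fun a => γ a ≠ 0

theorem mem_sp {γ : Fin l → ℕ} {a : Fin l} : a ∈ sp γ ↔ γ a ≠ 0 := by simp [sp]

theorem exists_perm_fix {X' A B : Finset (Fin l)} (hA : X' ⊆ A) (hB : X' ⊆ B)
    (hc : A.card = B.card) :
    ∃ ρ : Equiv.Perm (Fin l), (∀ a ∈ X', ρ a = a) ∧ ∀ a ∈ A, ρ a ∈ B := by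
  obtain ⟨g, hg⟩ := Finset.exists_equiv_extend_of_card_eq (α := ↥A) (t := B) (by simp [hc])
    (s := univ.filter fun a : ↥A => a.1 ∈ X') (f := Subtype.val)
    (fun b hb => by
      obtain ⟨a, ha, rfl⟩ := mem_image.mp hb
      exact hB (mem_filter.mp ha).2) Subtype.val_injective.injOn
  obtain ⟨ρ, hρ⟩ := Equiv.Perm.exists_extending_pair (fun a : ↥A => (a : Fin l))
    (fun a => (g a : Fin l)) Subtype.val_injective (Subtype.val_injective.comp g.injective)
  exact ⟨ρ, fun a ha => (hρ ⟨a, hA ha⟩).trans (hg _ (mem_filter.mpr ⟨mem_univ _, ha⟩)),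
    fun a ha => (hρ ⟨a, ha⟩).symm ▸ (g ⟨a, ha⟩).2⟩

theorem comp_of_fix {γ : Fin l → ℕ} {ρ : Equiv.Perm (Fin l)} (h : ∀ a ∈ sp γ, ρ a = a) :
    γ ∘ ρ = γ := by
  funext a
  by_cases ha : γ a = 0
  · by_contra hn
    have h1 := ρ.injective (h (ρ a) (mem_sp.mpr (ha ▸ hn)))
    exact hn (congrArg γ h1)
  · exact congrArg γ (h a (mem_sp.mpr ha))

theorem ren_of_fix {γ : Fin l → ℕ} {ρ : Equiv.Perm (Fin l)} (h : ∀ a ∈ sp γ, ρ a = a) {P : LP l}
    (hP : ∀ a, γ a = 0 → P ∈ Gr (co a) 0) : ren ρ P = P := by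
  have h1 : prj (sp γ) P = P := prj_of_mem fun a ha => hP a (by simpa [mem_sp] using ha)
  rw [← h1, ren_prj_congr (sp γ) (g := (1 : Equiv.Perm (Fin l))) h, ren_one]

theorem st3_step {h r : ℕ} {W : Submodule ℂ (Fam l)} (hD : DecU l h r ≤ W) {γ : Fin l → ℕ}
    {X : Finset (Fin l)} (hX : sp γ ⊆ X) (hγ : (sp γ).Nonempty) (hr : ∑ a, γ a + X.card = r)
    (ih : ∀ δ : Fin l → ℕ, ∑ a, δ a = r → X.card < (sp δ).card → ∀ P,
      (∀ a, δ a = 0 → P ∈ Gr (co a) 0) → pure δ P ∈ W)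
    {P : LP l} (hP : ∀ a, γ a = 0 → P ∈ Gr (co a) 0) {U : Fam l}
    (hU0 : ∀ δ a, δ a = 0 → U δ ∈ Gr (co a) 0)
    (hU : ∀ (σ : Equiv.Perm (Fin l)) δ, ren σ (U (δ ∘ σ)) = U δ) :
    pure (γ + oneY X) (P * U (oneY X)) ∈ W := by
  have h0 : 0 < ∑ a, γ a := by
    obtain ⟨a, ha⟩ := hγ
    exact (Nat.pos_of_ne_zero (mem_sp.mp ha)).trans_le
      (Finset.single_le_sum (fun _ _ => Nat.zero_le _) (mem_univ a))
  have h1 : sh h (pure γ P) (pure (oneY X) (U (oneY X))) ∈ W :=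
    hD (Submodule.subset_span ⟨_, X.card, _, _, h0, (hγ.mono hX).card_pos, hr, pure_admU' hP,
      sum_oneY X ▸ pure_admU' (hU0 _), rfl⟩)
  have hτ : ∀ τ : Equiv.Perm (Fin l), oneY X ∘ τ.symm = oneY (X.map τ.toEmbedding) :=
    fun τ => funext fun a => by simp [oneY]
  have hτU : ∀ τ : Equiv.Perm (Fin l), ren τ (U (oneY X)) = U (oneY (X.map τ.toEmbedding)) := by
    intro τ
    rw [← hτ, ← hU τ (oneY X ∘ τ.symm)]
    congr 2
    funext a; simp
  rw [sh_pure] at h1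
  simp only [hτ, hτU] at h1
  rw [← Finset.sum_filter_add_sum_filter_not univ
    fun τ : Equiv.Perm (Fin l) => sp γ ⊆ X.map τ.toEmbedding] at h1
  rw [W.add_mem_iff_left (W.sum_mem fun τ hτ => ?_), Finset.sum_congr rfl
    (g := fun _ => pure (γ + oneY X) (P * U (oneY X))) fun τ hτ => ?_, Finset.sum_const,
    ← Nat.cast_smul_eq_nsmul ℂ, W.smul_mem_iff (Nat.cast_ne_zero.mpr (Finset.card_ne_zero.mpr
      ⟨1, mem_filter.mpr ⟨mem_univ _, fun a ha => mem_map.mpr ⟨a, hX ha, rfl⟩⟩⟩))] at h1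
  · exact h1
  · have h2 := (mem_filter.mp hτ).2
    generalize hZ : X.map τ.toEmbedding = Z at h2
    have hc : Z.card = X.card := by rw [← hZ, card_map]
    obtain ⟨ρ, h3, h4⟩ := exists_perm_fix hX h2 hc.symm
    have h5 : oneY Z ∘ ρ = oneY X := (oneY_comp_iff hc ρ).mpr h4
    have h6 : cross h γ (oneY Z) = 1 := by
      rw [cross, dP]
      refine Finset.prod_eq_one fun p _ => ?_
      have h7 : ∀ a, a ∉ Z → γ a = 0 := fun a ha => by
        by_contra hn
        exact ha (h2 (mem_sp.mpr hn))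
      rw [Nat.mul_eq_zero.mpr (Or.inr ?_), pow_zero]
      by_cases h8 : p.1 ∈ Z <;> by_cases h9 : p.2 ∈ Z
      · simp only [oneY, h8, h9, if_true]; omega
      · simp [oneY, h9, h7 _ h9]
      · simp [oneY, h8, h7 _ h8]
      · simp [oneY, h8, h7 _ h8]
    rw [h6, one_mul, show γ + oneY X = (γ + oneY Z) ∘ ρ by
      rw [show (γ + oneY Z) ∘ ρ = γ ∘ ρ + oneY Z ∘ ρ from rfl, comp_of_fix h3, h5], pure_perm,
      map_mul, ren_of_fix h3 hP, ← h5, hU]
  · have h2 := (mem_filter.mp hτ).2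
    generalize hZ : X.map τ.toEmbedding = Z at h2
    have hc : Z.card = X.card := by rw [← hZ, card_map]
    refine ih _ (by simp only [Pi.add_apply, Finset.sum_add_distrib, sum_oneY, hc, hr]) ?_ _
      fun a ha => ?_
    · rw [← hc]
      obtain ⟨b, hb1, hb2⟩ := not_subset.mp h2
      refine card_lt_card ⟨fun a ha => mem_sp.mpr (by simp [oneY, ha]), fun h3 => hb2 (h3 ?_)⟩
      have := mem_sp.mp hb1
      exact mem_sp.mpr (by simp [this])
    · have h3 := Nat.add_eq_zero_iff.mp ha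
      exact Gr_mul0 (cross_co h h3.1 h3.2) (Gr_mul0 (hP a h3.1) (hU0 _ a h3.2))

theorem st3_aug {W : Submodule ℂ (Fam l)} {γ : Fin l → ℕ} {X : Finset (Fin l)} (hX : sp γ ⊆ X)
    (H : ∀ (P : LP l) (U : Fam l), (∀ a, γ a = 0 → P ∈ Gr (co a) 0) →
      (∀ δ a, δ a = 0 → U δ ∈ Gr (co a) 0) →
      (∀ (σ : Equiv.Perm (Fin l)) δ, ren σ (U (δ ∘ σ)) = U δ) →
      pure (γ + oneY X) (P * U (oneY X)) ∈ W)
    (m : Fin l → ℤ) (hm : ∀ a, a ∉ X → m a = 0) : pure (γ + oneY X) (zz m) ∈ W := by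
  let V : Submodule ℂ (LP l) := Submodule.span ℂ {T | ∃ (P : LP l) (U : Fam l),
    (∀ a, γ a = 0 → P ∈ Gr (co a) 0) ∧ (∀ δ a, δ a = 0 → U δ ∈ Gr (co a) 0) ∧
      (∀ (σ : Equiv.Perm (Fin l)) δ, ren σ (U (δ ∘ σ)) = U δ) ∧ T = P * U (oneY X)}
  have hV : V ≤ W.comap (pureL (γ + oneY X)) := Submodule.span_le.mpr (by
    rintro _ ⟨P, U, h1, h2, h3, rfl⟩
    exact H P U h1 h2 h3)
  have hsum : ∀ k ∈ (⊤ : AddSubmonoid ℤ), ∑ a : ↥(X \ sp γ), zv (a : Fin l) k ∈ mult V := by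
    intro k _ T hT
    refine (Submodule.span_le (p := V.comap (LinearMap.mulLeft ℂ _))).mpr ?_ hT
    rintro _ ⟨P, U, h1, h2, h3, rfl⟩
    have h4 : ∑ a : ↥(X \ sp γ), zv (a : Fin l) k = PW k (oneY X) - ∑ a ∈ sp γ, zv a k := by
      rw [Finset.sum_coe_sort (X \ sp γ) fun a => zv a k, Finset.sum_sdiff_eq_sub hX]
      simp [PW, oneY]
    change (∑ a : ↥(X \ sp γ), zv (a : Fin l) k) * (P * U (oneY X)) ∈ V
    rw [h4, sub_mul, mul_left_comm, ← mul_assoc (∑ a ∈ sp γ, zv a k)]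
    refine V.sub_mem (Submodule.subset_span ⟨P, PW k * U, h1,
      fun δ a ha => Gr_mul0 (PW_co k δ a ha) (h2 δ a ha),
      fun σ δ => by rw [Pi.mul_apply, Pi.mul_apply, map_mul, ren_PW, h3], by rw [Pi.mul_apply]⟩)
      (Submodule.subset_span ⟨(∑ a ∈ sp γ, zv a k) * P, U, fun a ha => Gr_mul0
        (Submodule.sum_mem _ fun b hb => zv_co (fun h5 => mem_sp.mp hb (by rw [h5, ha])) k)
        (h1 a ha), h2, h3, rfl⟩)
  let e := (X \ sp γ).equivFin.symm
  have hP : ∀ a, γ a = 0 → prj (sp γ) (zz m) ∈ Gr (co a) 0 :=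
    fun a ha => prj_co _ _ fun h1 => mem_sp.mp h1 ha
  have h1 := hV (st_AUG (LP l) ↥(X \ sp γ) (fun a k => zv (a : Fin l) k) ⊤ _
    (fun a k k' => zv_add (a : Fin l) k k') hsum _ (fun i => m (e i)) (fun _ => trivial) (prj (sp γ) (zz m))
    (Submodule.subset_span ⟨_, 1, hP, fun _ _ _ => SetLike.one_mem_graded _,
      fun _ _ => map_one _, (mul_one _).symm⟩))
  have h2 : zz m = (∏ i, zv (e i : Fin l) (m (e i))) * prj (sp γ) (zz m) := by
    rw [e.prod_comp fun a => zv (a : Fin l) (m a), Finset.prod_coe_sort (X \ sp γ)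
      fun a => zv a (m a), prj_zz]
    simp only [zv]
    rw [← zz_sum, ← zz_add]
    congr 1
    funext b
    by_cases hb : b ∈ sp γ
    · simp [hb, Pi.single_apply]
    · by_cases hb' : b ∈ X <;> simp [hb, hb', Pi.single_apply, hm]
  rw [Submodule.mem_comap, Finset.sum_mul, map_sum, Finset.sum_congr rfl
    (g := fun _ => pure (γ + oneY X) (zz m)) fun f _ => ?_, Finset.sum_const,
    ← Nat.cast_smul_eq_nsmul ℂ, W.smul_mem_iff (Nat.cast_ne_zero.mpr (Finset.card_ne_zero.mpr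
      ⟨e.toEmbedding, mem_univ _⟩))] at h1
  · exact h1
  have hd : ∀ (a : ↥(sp γ)) (b : ↥(X \ sp γ)), (a : Fin l) ≠ b := fun a b h3 =>
    (mem_sdiff.mp b.2).2 (h3 ▸ a.2)
  obtain ⟨ρ, hρ⟩ := Equiv.Perm.exists_extending_pair
    (Sum.elim (fun a : ↥(sp γ) => (a : Fin l)) fun i => (e i : Fin l))
    (Sum.elim (fun a : ↥(sp γ) => (a : Fin l)) fun i => (f i : Fin l))
    (Subtype.val_injective.sumElim (Subtype.val_injective.comp e.injective) fun a i => hd a _)
    (Subtype.val_injective.sumElim (Subtype.val_injective.comp f.injective) fun a i => hd a _)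
  have h3 : ∀ a ∈ sp γ, ρ a = a := fun a ha => hρ (Sum.inl ⟨a, ha⟩)
  have h4 : ∀ i, ρ (e i) = f i := fun i => hρ (Sum.inr i)
  have h5 : oneY X ∘ ρ = oneY X := oneY_perm ρ fun a ha => by
    by_cases h6 : a ∈ sp γ
    · rwa [h3 a h6]
    · obtain ⟨i, hi⟩ := e.surjective ⟨a, mem_sdiff.mpr ⟨ha, h6⟩⟩
      rw [show a = e i by rw [hi], h4]
      exact (mem_sdiff.mp (f i).2).1
  have h6 : (γ + oneY X) ∘ ρ = γ + oneY X := by
    rw [show (γ + oneY X) ∘ ρ = γ ∘ ρ + oneY X ∘ ρ from rfl, comp_of_fix h3, h5]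
  conv_rhs => rw [← h6, pure_perm, h2, map_mul, ren_of_fix h3 hP, map_prod]
  simp only [ren_zv, h4, pureL_apply]

end T39

open T39 in
theorem st_ST3 : St_ST3 := by
  intro l h r W hl hD hY
  have key : ∀ (n : ℕ) (δ : Fin l → ℕ), l - (sp δ).card = n → ∑ a, δ a = r → ∀ P,
      (∀ a, δ a = 0 → P ∈ Gr (co a) 0) → pure δ P ∈ W := by
    intro n
    induction n using Nat.strong_induction_on with
    | _ n ih =>
      intro δ hn hr P hP
      have h1 : δ = (δ - oneY (sp δ)) + oneY (sp δ) := by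
        funext a
        by_cases ha : δ a = 0
        · simp [oneY, mem_sp, ha]
        · simp only [oneY, mem_sp, ne_eq, ha, not_false_eq_true, if_true, Pi.add_apply,
            Pi.sub_apply]
          omega
      have h2 : ∑ a, (δ - oneY (sp δ)) a + (sp δ).card = r := by
        rw [← sum_oneY, ← Finset.sum_add_distrib, ← hr]
        exact Finset.sum_congr rfl fun a _ => (congrFun h1 a).symm
      have h3 : sp (δ - oneY (sp δ)) ⊆ sp δ := fun a ha => mem_sp.mpr fun h0 =>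
        mem_sp.mp ha (by simp [h0])
      by_cases hγ : (sp (δ - oneY (sp δ))).Nonempty
      · rw [eq_sum_zz P, ← pureL_apply, map_sum]
        refine W.sum_mem fun m hm => ?_
        rw [map_smul, pureL_apply, h1]
        refine W.smul_mem _ (st3_aug h3 (fun P U a1 a2 a3 => st3_step hD h3 hγ h2
          (fun δ' b1 b2 => ih _ ?_ δ' rfl b1) a1 a2 a3) m fun a ha => ?_)
        · have := card_le_univ (sp δ')
          rw [Fintype.card_fin] at this
          omega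
        · exact hP a (by simpa [mem_sp] using ha) m hm
      · have h4 : δ - oneY (sp δ) = 0 := funext fun a => by
          by_contra hn
          exact hγ ⟨a, mem_sp.mpr hn⟩
        rw [h4] at h1 h2
        have h5 : (Y0 l r).card = (sp δ).card := by rw [card_Y0 hl, ← h2]; simp
        obtain ⟨σ, hσ⟩ := Equiv.Perm.exists_map_finset_eq _ _ h5.symm
        have h6 : oneY (Y0 l r) ∘ σ = δ := by
          rw [h1, zero_add]
          conv_rhs => rw [← (oneY_comp_iff h5 σ).mpr fun a ha => hσ ▸ mem_map_of_mem _ ha]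
        rw [← h6, pure_perm, ← prj_of_mem (Y := Y0 l r) (P := ren σ P) fun a ha => ?_]
        · exact hY _
        · have := ren_co σ (hP (σ.symm a) (by rw [← h6]; simp [oneY, ha]))
          rwa [Equiv.apply_symm_apply] at this
  exact admU_le_of_pure fun γ m h1 h2 => key _ γ rfl h1 _ fun a ha => zz_mem (h2 a ha)

end Pool.Agent.Lib.CC61
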