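import Pool.Agent.Lib.CC61.T59k

open Finset

noncomputable section

namespace Pool.Agent.Lib.CC61

namespace T59

/-- Product of a list of graded elements. -/
def pl (L : List (Cl × TA)) : TA := (L.map Prod.snd).prod

theorem pl_append (u v : List (Cl × TA)) : pl (u ++ v) = pl u * pl v := by simp [pl]

theorem pl_cons (a : Cl × TA) (v : List (Cl × TA)) : pl (a :: v) = a.2 * pl v := by simp [pl]

theorem perm_sub {G : Cl × TA → Prop} {W : Submodule ℂ TA} {n : ℕ}
    (hc : ∀ p q, G p → G q → G (p.1 + q.1, p.2 * q.2 - q.2 * p.2))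
    (ih : ∀ L : List (Cl × TA), L.length < n → L ≠ [] → (∀ p ∈ L, G p) → pl L ∈ W)
    {L L' : List (Cl × TA)} (h : L.Perm L') : ∀ u : List (Cl × TA), u.length + L.length = n →
      (∀ p ∈ u, G p) → (∀ p ∈ L, G p) → pl (u ++ L) - pl (u ++ L') ∈ W := by
  induction h with
  | nil => simp
  | cons a _ ih' =>
    intro u hn hu hL
    have := ih' (u ++ [a]) (by simp at hn ⊢; omega) (fun p hp => (List.mem_append.1 hp).elim (hu p)
      fun h => hL p (by simp_all)) fun p hp => hL p (List.mem_cons_of_mem _ hp)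
    simpa using this
  | swap a b l =>
    intro u hn hu hL
    have h1 := ih (u ++ (b.1 + a.1, b.2 * a.2 - a.2 * b.2) :: l) (by simp at hn ⊢; omega) (by simp)
      fun p hp => (List.mem_append.1 hp).elim (hu p) fun h => (List.mem_cons.1 h).elim
        (fun h => h ▸ hc _ _ (hL b (by simp)) (hL a (by simp))) fun h => hL p (by simp [h])
    convert h1 using 1
    simp only [pl_append, pl_cons]
    noncomm_ring
  | trans h1 _ ih1 ih2 =>
    intro u hn hu hL
    simpa using add_mem (ih1 u hn hu hL)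
      (ih2 u (by rw [← h1.length_eq, hn]) hu fun p hp => hL p (h1.mem_iff.2 hp))

theorem straighten {ι : Type} [LinearOrder ι] {cls : ι → Cl} {x : ι → TA} {G : Cl × TA → Prop}
    {A : ι → Prop} {W : Submodule ℂ TA}
    (hc : ∀ p q, G p → G q → G (p.1 + q.1, p.2 * q.2 - q.2 * p.2))
    (hA : ∀ i, A i → G (cls i, x i))
    (hm : ∀ m : Multiset ι, m ≠ 0 → (∀ i ∈ m, A i) → mon x m ∈ W)
    (hrep : ∀ p, G p → (∀ u, u * p.2 ∈ W) ∨ ∃ c : ι →₀ ℂ, (∀ i ∈ c.support, A i) ∧
      ∀ u v, u * (p.2 - Finsupp.linearCombination ℂ x c) * v ∈ W)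
    (L : List (Cl × TA)) (h0 : L ≠ []) (hL : ∀ p ∈ L, G p) : pl L ∈ W := by
  classical
  induction hn : L.length using Nat.strong_induction_on generalizing L with
  | _ n ih =>
    have ih' : ∀ L : List (Cl × TA), L.length < n → L ≠ [] → (∀ p ∈ L, G p) → pl L ∈ W :=
      fun L h1 h2 h3 => ih _ h1 L h2 h3 rfl
    have hp : ∀ L L' : List (Cl × TA), L.Perm L' → L.length = n → (∀ p ∈ L, G p) → pl L' ∈ W →
        pl L ∈ W := fun L L' h h1 h2 h3 => by
      simpa using add_mem (perm_sub hc ih' h [] (by simpa using h1) (by simp) h2) h3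
    by_cases hk : ∃ p ∈ L, ∀ u, u * p.2 ∈ W
    · obtain ⟨p, hp1, hp2⟩ := hk
      refine hp L (L.erase p ++ [p]) ((List.perm_cons_erase hp1).trans
        (List.perm_append_singleton _ _).symm) hn hL ?_
      simpa [pl] using hp2 (pl (L.erase p))
    have hn0 : 0 < n := hn ▸ List.length_pos_iff.2 h0
    have key : ∀ M : List (Cl × TA), (∀ p ∈ M, p ∈ L) → ∀ u : List ι, (∀ i ∈ u, A i) →
        u.length + M.length = n → pl (u.map fun i => (cls i, x i)) * pl M ∈ W := by
      intro M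
      induction M with
      | nil =>
        intro _ u hu hl
        have h1 : u.Perm ((u : Multiset ι).sort (· ≤ ·)) :=
          Multiset.coe_eq_coe.1 (Multiset.sort_eq _ _).symm
        rw [show pl [] = 1 from rfl, mul_one]
        refine hp _ _ (h1.map _) (by simpa using hl) (by simpa using fun i hi => hA i (hu i hi)) ?_
        have := hm u (by rintro h; rw [Multiset.coe_eq_zero] at h; subst h; simp at hl; omega) hu
        simpa [mon, pl, Function.comp_def] using this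
      | cons p M ihM =>
        intro hM u hu hl
        have hpL := hM p List.mem_cons_self
        obtain ⟨c, hc1, hc2⟩ := (hrep p (hL p hpL)).resolve_left fun h => hk ⟨p, hpL, h⟩
        have h2 : pl (u.map fun i => (cls i, x i)) * Finsupp.linearCombination ℂ x c * pl M ∈ W := by
          rw [Finsupp.linearCombination_apply, Finsupp.sum, mul_sum, sum_mul]
          refine sum_mem fun i hi => ?_
          rw [mul_smul_comm, smul_mul_assoc]
          refine Submodule.smul_mem _ _ ?_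
          have := ihM (fun q hq => hM q (List.mem_cons_of_mem _ hq)) (u ++ [i])
            (fun j hj => (List.mem_append.1 hj).elim (hu j) fun h => by
              rw [List.mem_singleton.1 h]; exact hc1 i hi) (by simp at hl ⊢; omega)
          simpa [pl] using this
        convert add_mem (hc2 (pl (u.map fun i => (cls i, x i))) (pl M)) h2 using 1
        rw [pl_cons]
        noncomm_ring
    simpa [pl] using key L (fun _ h => h) [] (by simp) (by simpa using hn)

variable {X : Sys} {ws : X.Λ → List Cl → ℂ}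

/-- Elements killed by all evaluations after left multiplication. -/
def NL (X : Sys) (ws : X.Λ → List Cl → ℂ) : Submodule ℂ TA where
  carrier := {t | ∀ V u, evT (ws V) (u * t) = 0}
  add_mem' := fun ha hb V u => by rw [mul_add, map_add, ha V u, hb V u, add_zero]
  zero_mem' := fun V u => by simp
  smul_mem' := fun c t ha V u => by rw [mul_smul_comm, map_smul, ha V u, smul_zero]

/-- Elements killed by all evaluations after multiplication on both sides. -/
def NI (X : Sys) (ws : X.Λ → List Cl → ℂ) : Submodule ℂ TA where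
  carrier := {t | ∀ V u v, evT (ws V) (u * t * v) = 0}
  add_mem' := fun ha hb V u v => by rw [mul_add, add_mul, map_add, ha V u v, hb V u v, add_zero]
  zero_mem' := fun V u v => by simp
  smul_mem' := fun c t ha V u v => by
    rw [mul_smul_comm, smul_mul_assoc, map_smul, ha V u v, smul_zero]

theorem NI_mul {t : TA} (h : t ∈ NI X ws) (u v : TA) : u * t * v ∈ NI X ws := fun V a b => by
  simpa [mul_assoc] using h V (a * u) (v * b)

theorem NI_le : NI X ws ≤ NL X ws := fun _ h V u => by simpa using h V u 1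

theorem tors_NL (h : AxW X ws) {ν : Cl} (h0 : ν ≠ 0) (h1 : ν.1 = 0) {y : TA} (hy : y ∈ Tc ν)
    (u : TA) : u * y ∈ NL X ws := by
  have : y ∈ NL X ws := by
    refine Submodule.span_le.2 ?_ hy
    rintro _ ⟨w, ⟨hw, -⟩, rfl⟩ V a
    refine eq_zero_of_bw ((evT (ws V)).comp (LinearMap.mulRight ℂ (wd w))) (fun v => ?_) a
    by_contra hne
    rw [LinearMap.comp_apply, LinearMap.mulRight_apply, wd_eq_bw, ← bw_append, evT_bw,
      ax_filter h] at hne
    have h2 := h.tail0 hne (hw ▸ h1)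
    exact h0 (Prod.ext h1 (hw ▸ h2))
  exact fun V a => by simpa [mul_assoc] using this V (a * u)

variable {ι : Type} [LinearOrder ι] {cls : ι → Cl} {x : ι → TA} {mi : ι → Prop}

theorem rep_NI (hS : AxS X ws) (hB : Bas X ws ι cls x mi) {ν : Cl} (h1 : 0 < ν.1) {y : TA}
    (hy : y ∈ Pr ν) : ∃ c : ι →₀ ℂ, (y ∈ Tm ν → ∀ i ∈ c.support, mi i) ∧
      y - Finsupp.linearCombination ℂ x c ∈ NI X ws := by
  obtain ⟨c, h2, h3, h4⟩ := hB.span ν y h1 hy
  refine ⟨c, h3, hS.ideal ν _ h1 (sub_mem hy ?_) fun W => by rw [map_sub, h4, sub_self]⟩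
  rw [Finsupp.linearCombination_apply, Finsupp.sum]
  exact sum_mem fun i hi => Submodule.smul_mem _ _ (h2 i hi ▸ hB.pr i)

/-- Products of primitives are combinations of ordered monomials. -/
theorem PrP_le (hS : AxS X ws) (hB : Bas X ws ι cls x mi) (ν : Cl) :
    PrP (fun _ => True) ν ≤ Submodule.span ℂ (Set.range (mon x)) ⊔ NL X ws := by
  have hm : ∀ m, mon x m ∈ Submodule.span ℂ (Set.range (mon x)) ⊔ NL X ws := fun m =>
    Submodule.mem_sup_left (Submodule.subset_span ⟨m, rfl⟩)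
  refine Submodule.span_le.2 ?_
  rintro _ ⟨L, hL, -, -, rfl⟩
  by_cases h0 : L = []
  · subst h0
    simpa [mon] using hm 0
  refine straighten (cls := cls) (G := fun p => p.1 ≠ 0 ∧ Val p.1 ∧ p.2 ∈ Pr p.1)
    (A := fun _ => True) (fun p q hp hq => ⟨Val.add_ne hp.2.1 hq.2.1 hp.1, Val.add hp.2.1 hq.2.1,
      Pr_comm hp.2.2 hq.2.2⟩) (fun i _ => ⟨fun h => (hB.pos i).ne' (congrArg Prod.fst h), .inl (hB.pos i),
      hB.pr i⟩) (fun m _ _ => hm m) (fun p hp => ?_) L h0 hL
  rcases p.1.1.eq_zero_or_pos with h1 | h1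
  · exact .inl fun u => Submodule.mem_sup_right (tors_NL hS.toAxW hp.1 h1 (mem_Pr.1 hp.2.2).1 u)
  · obtain ⟨c, -, hc⟩ := rep_NI hS hB h1 hp.2.2
    exact .inr ⟨c, fun _ _ => trivial, fun u v => Submodule.mem_sup_right (NI_le (NI_mul hc u v))⟩

theorem minus_mem (hS : AxS X ws) (hB : Bas X ws ι cls x mi) (L : List (Cl × TA)) (h0 : L ≠ [])
    (hL : ∀ p ∈ L, 0 < p.1.1 ∧ p.2 ∈ Pr p.1 ∧ p.2 ∈ Tm p.1) :
    pl L ∈ Submodule.span ℂ (mon x '' {m | m ≠ 0 ∧ ∀ i ∈ m, mi i}) ⊔ NI X ws := by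
  refine straighten (cls := cls) (G := fun p => 0 < p.1.1 ∧ p.2 ∈ Pr p.1 ∧ p.2 ∈ Tm p.1) (A := mi)
    (fun p q hp hq => ⟨Nat.add_pos_left hp.1 _, Pr_comm hp.2.1 hq.2.1,
      sub_mem (Tm_mul hp.2.2 hq.2.2) (add_comm p.1 q.1 ▸ Tm_mul hq.2.2 hp.2.2)⟩)
    (fun i hi => ⟨hB.pos i, hB.pr i, (hB.prm i hi).1⟩)
    (fun m h1 h2 => Submodule.mem_sup_left (Submodule.subset_span
      (Set.mem_image_of_mem _ (by exact ⟨h1, h2⟩))))
    (fun p hp => ?_) L h0 hL
  obtain ⟨c, h1, hc⟩ := rep_NI hS hB hp.1 hp.2.1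
  exact .inr ⟨c, h1 hp.2.2, fun u v => Submodule.mem_sup_right (NI_mul hc u v)⟩

theorem sort_add {a b : Multiset ι} (h : ∀ i ∈ a, ∀ j ∈ b, i ≤ j) :
    (a + b).sort (· ≤ ·) = a.sort (· ≤ ·) ++ b.sort (· ≤ ·) := by
  refine List.Perm.eq_of_pairwise' (r := (· ≤ ·)) (Multiset.pairwise_sort _ _) ?_ ?_
  · rw [List.pairwise_append]
    exact ⟨Multiset.pairwise_sort _ _, Multiset.pairwise_sort _ _, by simpa using h⟩
  · rw [← Multiset.coe_eq_coe, ← Multiset.coe_add]
    simp

theorem mon_add {a b : Multiset ι} (h : ∀ i ∈ a, ∀ j ∈ b, i ≤ j) :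
    mon x (a + b) = mon x a * mon x b := by
  simp [mon, sort_add h]

theorem minus_mul_mon (hS : AxS X ws) (hB : Bas X ws ι cls x mi) (L : List (Cl × TA))
    (h0 : L ≠ []) (hL : ∀ p ∈ L, 0 < p.1.1 ∧ p.2 ∈ Pr p.1 ∧ p.2 ∈ Tm p.1) (m : Multiset ι) :
    pl L * mon x m ∈ Submodule.span ℂ (mon x '' {m | ∃ i ∈ m, mi i}) ⊔ NI X ws := by
  classical
  have ho : ∀ a : Multiset ι, (∀ i ∈ a, mi i) → ∀ i ∈ a, ∀ j ∈ m.filter (¬ mi ·), i ≤ j :=
    fun a ha i hi j hj => (hB.ord i j (ha i hi) (Multiset.mem_filter.1 hj).2).le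
  have h1 := minus_mem hS hB (L ++ ((m.filter mi).sort (· ≤ ·)).map fun i => (cls i, x i))
    (by simp [h0]) fun p hp => (List.mem_append.1 hp).elim (hL p) fun h => by
      obtain ⟨i, hi, rfl⟩ := List.mem_map.1 h
      rw [Multiset.mem_sort, Multiset.mem_filter] at hi
      exact ⟨hB.pos i, hB.pr i, (hB.prm i hi.2).1⟩
  have h2 : pl L * mon x m = pl (L ++ ((m.filter mi).sort (· ≤ ·)).map fun i => (cls i, x i)) *
      mon x (m.filter (¬ mi ·)) := by
    conv_lhs => rw [← Multiset.filter_add_not mi m,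
      mon_add (ho _ fun i hi => (Multiset.mem_filter.1 hi).2)]
    simp [pl, mon, Function.comp_def, mul_assoc]
  obtain ⟨a, ha, b, hb, hab⟩ := Submodule.mem_sup.1 h1
  rw [h2, ← hab, add_mul]
  refine Submodule.add_mem_sup ?_ (by simpa using NI_mul hb 1 _)
  refine span_mul (t := {mon x (m.filter (¬ mi ·))}) ?_ ha (Submodule.subset_span rfl)
  rintro _ ⟨m', ⟨h3, h4⟩, rfl⟩ _ rfl
  obtain ⟨i, hi⟩ := Multiset.exists_mem_of_ne_zero h3
  exact Submodule.subset_span ⟨m' + _, ⟨i, Multiset.mem_add.2 (.inl hi), h4 i hi⟩,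
    mon_add (ho _ h4)⟩

/-- The functional attached to a combination of bundles. -/
def Phi (ws : X.Λ → List Cl → ℂ) (φ : X.Λ →₀ ℂ) : TA →ₗ[ℂ] ℂ :=
  Finsupp.linearCombination ℂ (fun V => evT (ws V)) φ

theorem Phi_apply (φ : X.Λ →₀ ℂ) (t : TA) :
    Finsupp.linearCombination ℂ (fun V => evT (ws V) t) φ = Phi ws φ t := by
  simp [Phi, Finsupp.linearCombination_apply, Finsupp.sum]

theorem Phi_bw (φ : X.Λ →₀ ℂ) (w : List Cl) :
    Finsupp.linearCombination ℂ ws φ w = Phi ws φ (bw w) := by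
  simp [Phi, Finsupp.linearCombination_apply, Finsupp.sum, evT_bw]

theorem Phi_wd (h : AxW X ws) (φ : X.Λ →₀ ℂ) (w : List Cl) :
    Finsupp.linearCombination ℂ ws φ w = Phi ws φ (wd w) := by
  simp [Phi, Finsupp.linearCombination_apply, Finsupp.sum, evT_wd h]

theorem Phi_NL (φ : X.Λ →₀ ℂ) {t : TA} (h : t ∈ NL X ws) (u : TA) : Phi ws φ (u * t) = 0 := by
  simp [Phi, Finsupp.linearCombination_apply, Finsupp.sum, h _ u]

theorem Phi_inval (hS : AxS X ws) (φ : X.Λ →₀ ℂ) {w : List Cl} (h : ¬ ∀ a ∈ w, Val a) :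
    Finsupp.linearCombination ℂ ws φ w = 0 := by
  have : ∀ V, ws V w = 0 := fun V => by_contra fun h' => h (hS.inval V w h')
  simp [Finsupp.linearCombination_apply, Finsupp.sum, this]

theorem Phi_sup (φ : X.Λ →₀ ℂ) {s : Set TA} (u : TA) (hs : ∀ t ∈ s, Phi ws φ (u * t) = 0) {t : TA}
    (ht : t ∈ Submodule.span ℂ s ⊔ NL X ws) : Phi ws φ (u * t) = 0 := by
  have : Submodule.span ℂ s ⊔ NL X ws ≤
      LinearMap.ker ((Phi ws φ).comp (LinearMap.mulLeft ℂ u)) :=
    sup_le (Submodule.span_le.2 hs) fun t h => Phi_NL φ h u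
  exact this ht

end T59

open T59 in
theorem st_STR (hP : St_PSI) : St_STR := by
  intro X ws ι _ cls x mi hS hB φ
  simp only [Phi_apply]
  have hwd : ∀ w : List Cl, (∀ a ∈ w, Val a) →
      wd w ∈ Submodule.span ℂ (Set.range (mon x)) ⊔ NL X ws := fun w hw =>
    PrP_le hS hB _ (hP.1 _ (Submodule.subset_span ⟨w, ⟨rfl, hw⟩, rfl⟩))
  refine ⟨fun h => funext fun w => ?_, fun h ν w h1 h2 => ?_, fun h m ⟨i, hi, hmi⟩ => ?_⟩
  · by_cases hw : ∀ a ∈ w, Val a
    · rw [Phi_wd hS.toAxW, ← one_mul (wd w)]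
      refine Phi_sup φ 1 ?_ (hwd w hw)
      rintro _ ⟨m, rfl⟩
      rw [one_mul, h m]
    · exact Phi_inval hS φ hw
  · by_cases hw : ∀ a ∈ ν :: w, Val a
    · rw [Phi_wd hS.toAxW, wd_cons]
      refine Phi_sup φ _ ?_ (hwd w fun a ha => hw a (List.mem_cons_of_mem _ ha))
      rintro _ ⟨m, rfl⟩
      refine span_mul (W := LinearMap.ker (Phi ws φ)) (t := {mon x m}) ?_ (hP.2.1 ν h1 h2)
        (Submodule.subset_span rfl)
      rintro _ ⟨L, h3, ⟨h4, h5⟩, -, rfl⟩ _ rfl
      have h6 := minus_mul_mon hS hB L h4 (fun p hp => ⟨(h5 p hp).1, (h3 p hp).2.2, (h5 p hp).2⟩) m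
      have h7 := Phi_sup φ 1 ?_ (sup_le_sup_left NI_le _ h6)
      · rwa [one_mul] at h7
      · rintro _ ⟨m', hm', rfl⟩
        rw [one_mul, h m' hm']
    · exact Phi_inval hS φ hw
  · obtain ⟨j, l, hj⟩ := List.exists_cons_of_ne_nil (l := m.sort (· ≤ ·)) fun h0 => by
      have := (Multiset.mem_sort (· ≤ ·)).2 hi
      simp [h0] at this
    have hmj : mi j := by
      by_contra hn
      have h1 := Multiset.pairwise_sort m (· ≤ ·)
      have h2 := (Multiset.mem_sort (· ≤ ·)).2 hi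
      rw [hj] at h1 h2
      rcases List.mem_cons.1 h2 with rfl | h2
      · exact hn hmi
      · exact absurd (hB.ord i j hmi hn) (not_lt.2 (List.rel_of_pairwise_cons h1 h2))
    rw [mon, hj, List.map_cons, List.prod_cons]
    refine span_mul (W := LinearMap.ker (Phi ws φ)) (t := Set.range bw) ?_ (hB.prm j hmj).1
      (span_bw ▸ Submodule.mem_top)
    rintro _ ⟨w, ⟨-, h1, h2⟩, rfl⟩ _ ⟨v, rfl⟩
    obtain ⟨a, w, rfl⟩ := List.exists_cons_of_ne_nil h1
    have ha := h2 a List.mem_cons_self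
    have ha0 : a ≠ 0 := fun h => by simp [h] at ha
    rw [LinearMap.mem_ker, wd_eq_bw, ← bw_append, ← Phi_bw, List.filter_cons_of_pos (by simpa),
      List.cons_append]
    exact h a _ ha.1 ha.2

end Pool.Agent.Lib.CC61
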