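import Pool.Agent.Lib.CC61.B_LEIB

open Finset

noncomputable section

namespace Pool.Agent.Lib.CC61

namespace T59

variable {X : Sys} {ws : X.Λ → List Cl → ℂ}

/-- Evaluation at a fixed element of the free algebra. -/
def evL (t : TA) : (List Cl → ℂ) →ₗ[ℂ] ℂ :=
  LinearMap.applyₗ t ∘ₗ ((FreeAlgebra.basisFreeMonoid ℂ Cl).constr ℂ).toLinearMap ∘ₗ
    LinearMap.funLeft ℂ ℂ FreeMonoid.toList

theorem evL_apply (t : TA) (e : List Cl → ℂ) : evL t e = evT e t := rfl

theorem evL_comb (φ : X.Λ →₀ ℂ) (t : TA) :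
    evL t (Finsupp.linearCombination ℂ ws φ) = Phi ws φ t := by
  rw [Finsupp.apply_linearCombination, ← Phi_apply]
  rfl

theorem one_Tc : (1 : TA) ∈ Tc 0 := Submodule.subset_span ⟨[], by simp, by simp [wd]⟩

theorem prim_mem_PP (hS : AxS X ws) {ν : Cl} {y : TA} (hy : y ∈ Pr ν) :
    (fun V => evT (ws V) y) ∈ PP X ws ν := by
  refine ⟨fun V hV => by_contra fun h => hV (evT_Tc hS.toAxW (mem_Pr.1 hy).1 h).symm,
    fun φ h => by rw [Phi_apply, ← evL_comb, h, map_zero], fun V W hV hW => ?_⟩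
  have h1 : ∀ U, 0 < (X.cl U).1 → evT (ws U) 1 = 0 := fun U hU =>
    by_contra fun h => hU.ne (congrArg Prod.fst (evT_Tc hS.toAxW one_Tc h))
  simp [hS.cop, (mem_Pr.1 hy).2, ev2, h1 V hV, h1 W hW]

variable {ι : Type} [LinearOrder ι] {cls : ι → Cl} {x : ι → TA} {mi : ι → Prop}

theorem Phi_finite (hS : AxS X ws) (hB : Bas X ws ι cls x mi) (φ : X.Λ →₀ ℂ) :
    {m : Multiset ι | Phi ws φ (mon x m) ≠ 0}.Finite := by
  refine (φ.support.finite_toSet.biUnion fun V _ => finite_mon hS hB V).subset fun m hm => ?_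
  rw [Set.mem_ofPred_eq, Phi_eq] at hm
  obtain ⟨V, hV, h⟩ := exists_ne_zero_of_sum_ne_zero hm
  exact Set.mem_biUnion hV (right_ne_zero_of_mul h)

theorem Phi_cls (hS : AxS X ws) (hB : Bas X ws ι cls x mi) {ν : Cl} {φ : X.Λ →₀ ℂ}
    (hφ : ∀ V ∈ φ.support, X.cl V = ν) {m : Multiset ι} (h : Phi ws φ (mon x m) ≠ 0) :
    (m.map cls).sum = ν := by
  rw [Phi_eq] at h
  obtain ⟨V, hV, h⟩ := exists_ne_zero_of_sum_ne_zero h
  rw [evT_Tc hS.toAxW (mon_mem_Tc hB.pr m) (right_ne_zero_of_mul h), hφ V hV]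

theorem expand (hR : St_STR) (hS : AxS X ws) (hB : Bas X ws ι cls x mi)
    {ψ : Multiset ι → X.Λ →₀ ℂ} (hψ : ∀ m, m ≠ 0 → Du ws cls x m (ψ m)) {ν : Cl} (hν : 0 < ν.1)
    {φ : X.Λ →₀ ℂ} (hφ : ∀ V ∈ φ.support, X.cl V = ν) :
    Finsupp.linearCombination ℂ ws
      (φ - ∑ m ∈ (Phi_finite hS hB φ).toFinset, Phi ws φ (mon x m) • ψ m) = 0 := by
  classical
  refine (hR X ws ι cls x mi hS hB _).1 fun m => ?_
  have h0 : ∀ m ∈ (Phi_finite hS hB φ).toFinset, m ≠ 0 := by
    rintro _ hm rfl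
    exact hν.ne (congrArg Prod.fst (Phi_cls hS hB hφ ((Set.Finite.mem_toFinset _).1 hm)))
  rw [map_sub, map_sum]
  simp only [map_smul, Phi_apply, smul_eq_mul]
  rw [sum_congr rfl fun m' hm' => by rw [(hψ m' (h0 m' hm')).2 m]]
  by_cases h : Phi ws φ (mon x m) = 0 <;> simp [h]

end T59

open T59 in
theorem st_TH3 (hR : St_STR) : St_TH3 := by
  classical
  intro X ws ι _ cls x mi hS hB ν hν
  choose! ψ hψ using fun m hm => du_exists hS hB _ m hm rfl
  constructor
  · refine le_antisymm (fun f hf => ?_) (Submodule.span_le.2 ?_)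
    swap
    · rintro _ ⟨i, rfl, rfl⟩
      exact prim_mem_PP hS (hB.pr i)
    have key : f = ∑ i ∈ (hB.fin ν).toFinset,
        Finsupp.linearCombination ℂ f (ψ {i}) • fun V => evT (ws V) (x i) := by
      ext V
      simp only [Finset.sum_apply, Pi.smul_apply, smul_eq_mul]
      by_cases hV : X.cl V = ν
      swap
      · rw [hf.1 V hV]
        refine (sum_eq_zero fun i hi => mul_eq_zero_of_right _ (by_contra fun h => hV ?_)).symm
        rw [← evT_Tc hS.toAxW (mem_Pr.1 (hB.pr i)).1 h]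
        exact (hB.fin ν).mem_toFinset.1 hi
      have h1 : ∀ W ∈ (Finsupp.single V (1 : ℂ)).support, X.cl W = ν := fun W hW => by
        rw [mem_singleton.1 (Finsupp.support_single_subset hW), hV]
      have h2 := hf.2.1 _ (expand hR hS hB hψ hν h1)
      have h3 : ∀ t, Phi ws (Finsupp.single V 1) t = evT (ws V) t := fun t => by simp [Phi]
      rw [map_sub, map_sum, sub_eq_zero] at h2
      simp only [map_smul, Finsupp.linearCombination_single, smul_eq_mul, one_mul] at h2
      rw [h2]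
      refine (sum_bij_ne_zero (fun i _ _ => {i}) ?_ ?_ ?_ ?_).symm
      · intro i _ h
        simpa [h3, mon] using right_ne_zero_of_mul h
      · intro i _ _ j _ _ h
        exact Multiset.singleton_inj.1 h
      · intro m hm h
        have h4 := Phi_cls hS hB h1 (left_ne_zero_of_mul h)
        have h5 : m ≠ 0 := by
          rintro rfl
          exact hν.ne (congrArg Prod.fst h4)
        have h6 : ¬ 2 ≤ m.card := fun h2 => right_ne_zero_of_mul h (by
          rw [Finsupp.linearCombination_apply, Finsupp.sum]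
          refine sum_eq_zero fun W hW => ?_
          obtain ⟨V₁, V₂, h7, h8, rfl⟩ := ((Finsupp.mem_supported _ _).1 (hψ m h5).1 hW).2 h2
          rw [hf.2.2 _ _ h7 h8, smul_zero])
        obtain ⟨i, rfl⟩ := Multiset.card_eq_one.1 (show m.card = 1 by
          have := Multiset.card_pos.2 h5
          omega)
        exact ⟨i, by simpa using h4, by simpa [h3, mon, and_comm] using h, rfl⟩
      · intro i _ _
        simp [h3, mon, mul_comm]
    rw [key]
    exact sum_mem fun i hi => Submodule.smul_mem _ _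
      (Submodule.subset_span ⟨i, (hB.fin ν).mem_toFinset.1 hi, rfl⟩)
  · have h0 : ∀ m : WtS (fun i : {i // ¬ mi i} => cls i) ν,
        ((m.1.map Subtype.val).map cls).sum = ν ∧ m.1.map Subtype.val ≠ 0 := fun m => by
      have h1 : ((m.1.map Subtype.val).map cls).sum = ν := by
        rw [Multiset.map_map]
        exact m.2
      exact ⟨h1, fun h => hν.ne (by rw [← h1, h]; rfl)⟩
    have hli : LinearIndependent ℂ fun m : WtS (fun i : {i // ¬ mi i} => cls i) ν =>
        Finsupp.linearCombination ℂ ws (ψ (m.1.map Subtype.val)) := by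
      refine LinearIndependent.of_pairwise_dual_eq_zero_one _
        (fun m => evL (mon x (m.1.map Subtype.val))) (fun a b hab => ?_) fun a => ?_
      · beta_reduce
        rw [evL_comb, (hψ _ (h0 b).2).2, if_neg fun h =>
          hab (Subtype.ext (Multiset.map_injective Subtype.val_injective h))]
      · rw [evL_comb, (hψ _ (h0 a).2).2, if_pos rfl]
    refine ⟨(LinearEquiv.ofEq _ _ (le_antisymm (fun e he => ?_) (Submodule.span_le.2 ?_))).trans
      hli.linearCombinationEquiv.symm⟩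
    · obtain ⟨φ, h1, rfl⟩ := (Finsupp.mem_span_image_iff_linearCombination ℂ).1 he.1
      have h2 : ∀ V ∈ φ.support, X.cl V = ν := fun V hV => (Finsupp.mem_supported _ _).1 h1 hV
      have h3 := expand hR hS hB hψ hν h2
      rw [map_sub, map_sum, sub_eq_zero] at h3
      rw [h3]
      refine sum_mem fun m hm => ?_
      rw [map_smul]
      refine Submodule.smul_mem _ _ (Submodule.subset_span ?_)
      have h4 : Phi ws φ (mon x m) ≠ 0 := (Set.Finite.mem_toFinset _).1 hm
      have h5 : ∀ i ∈ m, ¬ mi i := fun i hi h => h4 (by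
        rw [← Phi_apply]
        exact (hR X ws ι cls x mi hS hB φ).2.2 he.2 m ⟨i, hi, h⟩)
      lift m to Multiset {i // ¬ mi i} using h5
      exact ⟨⟨m, by simpa [WtS] using Phi_cls hS hB h2 h4⟩, rfl⟩
    · rintro _ ⟨m, rfl⟩
      refine ⟨(Finsupp.mem_span_image_iff_linearCombination ℂ).2 ⟨_, Finsupp.supported_mono
        (fun V hV => hV.1.trans (h0 m).1) (hψ _ (h0 m).2).1, rfl⟩,
        (hR X ws ι cls x mi hS hB _).2.1 fun m' ⟨i, hi, h⟩ => ?_⟩
      rw [Phi_apply, (hψ _ (h0 m).2).2, if_neg]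
      rintro rfl
      obtain ⟨j, -, rfl⟩ := Multiset.mem_map.1 hi
      exact j.2 h

end Pool.Agent.Lib.CC61
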