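import Pool.Agent.Lib.CC61.GDefs
import Pool.Agent.Lib.CC61.ABlue

open Filter Set Module

noncomputable section

namespace Pool.Agent.Lib.CC61

open Pool.Agent.Lib.MP_cc3443_ag

variable (K : Type) [Field K] [Algebra ℂ K] [Algebra (RatFunc ℂ) K]
  [IsScalarTower ℂ (RatFunc ℂ) K] [FiniteDimensional (RatFunc ℂ) K]

/-- The letters are constructible and invariant. -/
def St_LET : Prop :=
  (∀ ν, Nice ν (bFn ν : Fn K)) ∧ (∀ ν, Nice ν (ssFn ν : Fn K)) ∧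
  (∀ β γ, Nice γ (ltFn β γ : Fn K)) ∧
  (∀ (N : ℕ) (E₀ : Lat K N) (c : ℤ),
    Del fun p : Lat K N × Lat K N => p.1 ≤ E₀ ∧ p.2 ≤ p.1 ∧ TQ c p.1 p.2) ∧
  (∀ (N : ℕ) (E₀ : Lat K N) (c : ℤ),
    Del fun p : Lat K N × Lat K N => p.1 ≤ E₀ ∧ p.2 ≤ p.1 ∧ FQ c p.1 p.2) ∧
  (∀ (ν : Cl) (N : ℕ) (E F : Lat K N), ssFn ν N E F = ind (HasClass E F ν ∧
    ∀ W, F ≤ W → W ≤ E → (dg W - dg F) * ν.1 ≤ ν.2 * ((rk W : ℤ) - rk F))) ∧
  (∀ d : ℕ, (ssFn (0, (d : ℤ)) : Fn K) = torsFn d) ∧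
  (∀ ν, ¬ Val ν → (ssFn ν : Fn K) = 0) ∧
  (bFn 0 : Fn K) = torsFn 0 ∧ (∀ m : ℤ, m ≠ 0 → (bFn (0, m) : Fn K) = 0) ∧
  (∀ γ, (ltFn (0, 1) γ : Fn K) = bFn γ) ∧
  (∀ β, (ltFn β 0 : Fn K) = torsFn 0) ∧ ∀ β (m : ℤ), m ≠ 0 → (ltFn β (0, m) : Fn K) = 0

/-- Disintegration along kernel and image. -/
def St_FIB : Prop := ∀ (N N' : ℕ) (E : Lat K N) (q : (Fin N → K) →ₗ[K] (Fin N' → K)) (r : ℕ)
  (c : ℤ) (ψ : Lat K N → ℂ) (I : Finset (ℕ × ℤ)), DFun ψ → (∀ j ∈ I, j.1 ≤ r) →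
  (∀ G, QR E r c G → ψ G ≠ 0 →
    (rk (G.restrict (LinearMap.ker q)), chiL (G.restrict (LinearMap.ker q))) ∈ I) →
  (QC E r c).int ψ = ∑ j ∈ I, (QC (E.restrict (LinearMap.ker q)) j.1 j.2).int fun U =>
    (QC (E.mapL q) (r - j.1) (c - j.2)).int fun M => (QC E r c).int fun G =>
      ind (G.restrict (LinearMap.ker q) = U ∧ G.mapL q = M) * ψ G

/-- The fibre of kernel and image is the range of a linear chart. -/
def St_LCH : Prop := ∀ (N N' : ℕ) (E G₀ : Lat K N) (q : (Fin N → K) →ₗ[K] (Fin N' → K)),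
  G₀ ≤ E → ∃ n₀ : ℤ, ∀ n, n₀ ≤ n → ∀ (m m' : ℕ) (u : Fin m' → Fin N → K) (w₀ : Fin m → Fin N → K),
    Submodule.span ℂ (range u) = sec (G₀.restrict (LinearMap.ker q)) n →
    (∀ j, w₀ j ∈ sec G₀ n) → LinearIndependent ℂ (fun j => q (w₀ j)) →
    Submodule.span ℂ (range fun j => q (w₀ j)) = sec (G₀.mapL q) n →
    ∃ C : Chart (Lat K N), (∀ c, C.S c) ∧
      (∀ G, C.R G ↔ G ≤ E ∧ G.restrict (LinearMap.ker q) = G₀.restrict (LinearMap.ker q) ∧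
        G.mapL q = G₀.mapL q) ∧
      ∃ φ : (Fin C.n → ℂ) →ₗ[ℂ] (Fin m → Fin N → K), (∀ c j, q (φ c j) = 0) ∧
        ∀ c, C.dec c = genL n (Sum.elim u (w₀ + φ c))

/-- Euler characteristic of the fibres; the cone case. -/
def St_LIFT : Prop :=
  (∀ (N N' : ℕ) (E U : Lat K N) (M : Lat K N') (q : (Fin N → K) →ₗ[K] (Fin N' → K)),
    (QC E (rk U + rk M) (chiL U + chiL M)).int
      (fun G => ind (G.restrict (LinearMap.ker q) = U ∧ G.mapL q = M)) =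
      ind (∃ G ≤ E, G.restrict (LinearMap.ker q) = U ∧ G.mapL q = M)) ∧
  ∀ (N N' : ℕ) (E G : Lat K N) (E' G' : Lat K N') (ψ : Lat K (N + N') → ℂ), G ≤ E → G' ≤ E' →
    DFun ψ → (∀ (t : ℂ) A, t ≠ 0 → A ≤ oplus E E' →
      ψ (A.mapL (algebraMap ℂ K t • (in1 N N' ∘ₗ pr1 N N') + in2 N N' ∘ₗ pr2 N N')) = ψ A) →
    (QC (oplus E E') (rk G + rk G') (chiL G + chiL G')).int
      (fun A => ind (A.restrict (LinearMap.ker (pr2 N N')) = G.mapL (in1 N N') ∧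
        A.mapL (pr2 N N') = G') * ψ A) = ψ (oplus G G')

/-- Hall products on direct sums. -/
def St_COPST : Prop := ∀ (N N' : ℕ) (E F : Lat K N) (E' F' : Lat K N') (μ ν : Cl) (f g : Fn K)
  (κ : Type) (s : Finset κ) (μ₁ ν₁ μ₂ ν₂ : κ → Cl) (f₁ g₁ f₂ g₂ : κ → Fn K), F ≤ E → F' ≤ E' →
  Nice μ f → Nice ν g → (∀ k ∈ s, Nice (μ₁ k) (f₁ k) ∧ Nice (ν₁ k) (g₁ k) ∧ Nice (μ₂ k) (f₂ k) ∧
    Nice (ν₂ k) (g₂ k) ∧ ν₁ k + ν₂ k = ν) →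
  (∀ G G', F ≤ G → G ≤ E → F' ≤ G' → G' ≤ E' →
    f _ (oplus E E') (oplus G G') * g _ (oplus G G') (oplus F F') =
      ∑ k ∈ s, (f₁ k N E G * g₁ k N G F) * (f₂ k N' E' G' * g₂ k N' G' F')) →
  hall f g _ (oplus E E') (oplus F F') =
    ∑ k ∈ s, hall (f₁ k) (g₁ k) N E F * hall (f₂ k) (g₂ k) N' E' F'

open Classical in
/-- Coproduct of the bundle words. -/
def St_COPB : Prop := ∀ (l N N' : ℕ) (V : Lat K N) (W : Lat K N') (w : Fin l → Cl),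
  word bFn (List.ofFn w) _ (oplus V W) ⊥ = ∑ᶠ p : (Fin l → Cl) × (Fin l → Cl),
    if p.1 + p.2 = w then word bFn (List.ofFn p.1) N V ⊥ * word bFn (List.ofFn p.2) N' W ⊥ else 0

/-- Semistability of direct sums. -/
def St_SSUM : Prop := ∀ (N N' : ℕ) (E F : Lat K N) (E' F' : Lat K N') (ν : Cl), F ≤ E → F' ≤ E' →
  ssFn ν _ (oplus E E') (oplus F F') = ∑ μ ∈ par ν, ssFn μ N E F * ssFn (ν - μ) N' E' F'

/-- Coproduct of the semistable words. -/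
def St_COPS : Prop := ∀ (N N' : ℕ) (E F : Lat K N) (E' F' : Lat K N') (t : TA), F ≤ E → F' ≤ E' →
  rho t _ (oplus E E') (oplus F F') =
    ev2 (fun w => word ssFn w N E F) (fun w => word ssFn w N' E' F') (DT t)

/-- Torsion pairs. -/
def St_TP : Prop :=
  (∀ (N : ℕ) (E F : Lat K N) (c : ℤ), F ≤ E → ∃ T, F ≤ T ∧ T ≤ E ∧ TQ c T F ∧ FQ c E T) ∧
  ∀ (N : ℕ) (E F T T' : Lat K N) (c : ℤ), F ≤ T → T ≤ E → F ≤ T' → T' ≤ E → TQ c T F →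
    FQ c E T' → T ≤ T'

/-- Harder-Narasimhan recursion. -/
def St_HN : Prop := ∀ (β γ : Cl) (B : ℤ) (N : ℕ) (E F : Lat K N), 0 < γ.1 → Bd B E F →
  ltFn β γ N E F = ∑ δ ∈ Finset.Icc 1 γ.1 ×ˢ Finset.Icc (-|γ.2|) B with
      δ.2 * β.1 < β.2 * δ.1 ∧ γ.2 * δ.1 ≤ δ.2 * γ.1,
    hall (ltFn δ (γ - δ)) (ssFn δ) N E F

/-- Local expansion in semistable words. -/
def St_LOCA : Prop := ∀ β γ : Cl, LocIn (fun _ _ _ => True) ssFn (Hd γ) (ltFn β γ : Fn K)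

/-- Local expansion in bundle words. -/
def St_LOCB : Prop := ∀ β : Cl, 0 < β.1 → LocIn (fun _ _ _ => True) bFn (Hd β) (ssFn β : Fn K)

/-- Both kinds of words see the same functionals on bundles. -/
def St_TR : Prop := ∀ h : ℕ, chiO K = -h → Tr (bun K) (wv K bFn) (wv K ssFn)

/-- Euler characteristic of punctual Quot schemes. -/
def St_QUOT : Prop := ∀ h : ℕ, chiO K = -h → ∀ (N : ℕ) (V : Lat K N) (n : ℕ),
  (QC V (rk V) (chiL V - n)).int (fun _ => 1) = cc h (rk V) n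

/-- Hecke relation. -/
def St_HECKE : Prop := ∀ h : ℕ, chiO K = -h → ∀ (k : ℕ) (ν : Cl),
  (hall (torsFn k) (bFn ν) : Fn K) =
    ∑ j ∈ Finset.range (k + 1), cc h ν.1 j • hall (bFn (ν.1, ν.2 + j)) (torsFn (k - j))

/-- Hecke relation for words on bundles. -/
def St_HW : Prop := ∀ h : ℕ, chiO K = -h → ∀ (l n : ℕ) (w : Fin l → Cl) (N : ℕ) (E F : Lat K N),
  Sat E F → hall (torsFn n) (word bFn (List.ofFn w)) N E F =
    hkW h n (fun v => word bFn v N E F) w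

/-- Subsheaves against subbundles. -/
def St_SUBQ : Prop := ∀ h : ℕ, chiO K = -h → ∀ (N : ℕ) (V : Lat K N) (j : ℕ) (l : ℤ), j ≤ rk V →
  qi V j l (fun _ => 1) = ∑ k ∈ Finset.range (2 * h * j + 1),
    cc h j k * word bFn [(rk V - j, dg V - l - k), (j, l + k)] N V ⊥

/-- Vanishing on the torsion part. -/
def St_NC : Prop := ∀ r, VanP K r → NcP K r

/-- Induction step of the vanishing theorem. -/
def St_VS : Prop := ∀ h : ℕ, chiO K = -h → VanP K 0 ∧ ∀ r, VanP K r → NcP K r → VanP K (r + 1)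

/-- Indecomposable bundles are bounded. -/
def St_IND : Prop := ∀ ν : Cl, ∃ B : ℤ, ∀ (N : ℕ) (V : Lat K N), (rk V, dg V) = ν →
  (∀ W, W ≤ V → dg W ≤ B) ∨ ∃ G₁ G₂, G₁ ≠ ⊥ ∧ G₂ ≠ ⊥ ∧ IsSum V ⊥ G₁ G₂

/-- Twisting. -/
def St_TWIST : Prop := ∀ (D : Place K →₀ ℤ) (w : List Cl) (N : ℕ) (E F : Lat K N),
  word bFn (w.map (twC D.degree)) N (E.twist D) (F.twist D) = word bFn w N E F

/-- Opers exist. -/
def St_OPER1 : Prop := ∀ h : ℕ, chiO K = -h → ∀ r : ℕ, ∃ (N : ℕ) (Fl : ℕ → Lat K N), IsOper h r Fl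

/-- Rigidity of the oper flag. -/
def St_OPER2 : Prop := ∀ (h r N : ℕ) (Fl M : ℕ → Lat K N) (m : ℕ → ℤ), IsOper h r Fl →
  M 0 = Fl 0 → M r = ⊥ → (∀ k < r, HasClass (M k) (M (k + 1)) (1, m k) ∧ Sat (M k) (M (k + 1))) →
  (∀ A ⊆ Finset.range r, (h : ℤ) * A.card * (A.card - 1) ≤ ∑ a ∈ A, m a) → ∀ k ≤ r, M k = Fl k

/-- The oper axiom. -/
def St_OPER3 : Prop := ∀ h : ℕ, chiO K = -h → ∀ r : ℕ, 0 < r → ∃ (N : ℕ) (V : Lat K N), rk V = r ∧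
  word bFn (List.ofFn fun a : Fin r => (1, 2 * (h : ℤ) * a)) N V ⊥ = 1 ∧
  ∀ m : Fin r → ℤ, word bFn (List.ofFn fun a => (1, m a)) N V ⊥ ≠ 0 →
    (∀ A : Finset (Fin r), (h : ℤ) * A.card * (A.card - 1) ≤ ∑ a ∈ A, m a) →
    ∀ a, m a = 2 * (h : ℤ) * a

/-- Torsion sheaves are sums or chains. -/
def St_TCH : Prop :=
  (∀ (N : ℕ) (E F : Lat K N) (d : ℕ), HasClass E F (0, (d : ℤ)) →
    (∃ G₁ G₂, G₁ ≠ F ∧ G₂ ≠ F ∧ IsSum E F G₁ G₂) ∨ ∃ c, Chain E F d c) ∧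
  ∀ d : ℕ, ∃ (E F : Lat K 1) (c : ℕ → Lat K 1), Chain E F d c

/-- Values on chains. -/
def St_TCV : Prop :=
  (∀ (N N' : ℕ) (E F : Lat K N) (E' F' : Lat K N') (d : ℕ) c c', Chain E F d c →
    Chain E' F' d c' → ∀ ν (f : Fn K), Nice ν f → f N E F = f N' E' F') ∧
  ∀ (N : ℕ) (E F : Lat K N) (d : ℕ) c, Chain E F d c → ∀ w : List Cl, w.sum = (0, (d : ℤ)) →
    (∀ x ∈ w, Val x) → word ssFn w N E F = 1

/-- The realisation of the free algebra. -/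
def St_RHO : Prop :=
  (∀ ν t, t ∈ Tc ν → Nice ν (rho t : Fn K) ∧ SphHN ν (rho t : Fn K)) ∧
  (∀ ν (f : Fn K), SphHN ν f → ∃ t ∈ Tc ν, f = rho t) ∧
  (∀ ν t, t ∈ Pr ν → Prim (rho t : Fn K)) ∧
  ∀ ν t, t ∈ Tc ν → (rho t : Fn K) = 0 → ∀ u v, (rho (u * t * v) : Fn K) = 0

/-- Axioms for the bundle words. -/
def St_AXB : Prop := ∀ h : ℕ, 0 < h → chiO K = -h → AxB h (bun K) (wv K bFn)

/-- Axioms for the semistable words. -/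
def St_AXS : Prop := AxS (bun K) (wv K ssFn)

/-- The sandwich condition. -/
def Sand (ν : Cl) (H : Submodule ℂ (Fn K)) : Prop :=
  (∀ f, SphHN ν f → f ∈ H) ∧ ∀ f ∈ H, ∀ s : Finset (Σ N, Lat K N × Lat K N), ∃ f', SphHN ν f' ∧
    ∀ p ∈ s, f p.1 p.2.1 p.2.2 = f' p.1 p.2.1 p.2.2

/-- The theorem in rank zero. -/
def St_TFIN : Prop := ∀ (d : ℕ) (H : Submodule ℂ (Fn K)), 0 < d → Sand K (0, (d : ℤ)) H →
  Module.rank ℂ (Submodule.span ℂ {f | f ∈ H ∧ Prim f}) = 1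

/-- The theorem in positive rank from a basis of the primitive functions on bundles. -/
def St_FINAL : Prop := ∀ (ν : Cl) (H : Submodule ℂ (Fn K)) (n : ℕ) (y : Fin n → TA), 0 < ν.1 →
  Sand K ν H → (∀ i, y i ∈ Pr ν) → LinearIndependent ℂ (fun i V => evT (wv K ssFn V) (y i)) →
  PP (bun K) (wv K ssFn) ν = Submodule.span ℂ (range fun i V => evT (wv K ssFn V) (y i)) →
  Module.rank ℂ (Submodule.span ℂ {f | f ∈ H ∧ Prim f}) = n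

/-- The theorem from the blocks. -/
theorem main_of (hB : St_AXB K) (hS : St_AXS K) (hT : St_TR K) (hA : St_ALG) (h0 : St_TFIN K)
    (h1 : St_FINAL K) (g : ℕ) (hg : 2 ≤ g) (hK : HasGenus K g) (r : ℕ) (d : ℤ)
    (hd : r = 0 → 0 < d) (H : Submodule ℂ (Fn K)) (hH : Sand K (r, d) H) :
    ∃ n : ℕ, Module.rank ℂ (Submodule.span ℂ {f | f ∈ H ∧ Prim f}) = n ∧ (n : ℂ) = A0 g r d := by
  rcases Nat.eq_zero_or_pos r with rfl | hr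
  · obtain ⟨e, rfl⟩ := Int.eq_ofNat_of_zero_le (hd rfl).le
    exact ⟨1, by simpa using h0 e H (by exact_mod_cast hd rfl) hH, by simp [A0]⟩
  · obtain ⟨h, rfl⟩ : ∃ h, g = h + 1 := ⟨g - 1, by omega⟩
    have hχ : chiO K = -h := by rw [hK.chiO_eq]; push_cast; ring
    obtain ⟨n, y, a, b, c, e⟩ := hA h _ _ _ (hB h (by omega) hχ) hS (hT h hχ) r d hr
    exact ⟨n, h1 (r, d) H n y hr hH a b c, e⟩

end Pool.Agent.Lib.CC61
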