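import Pool.Agent.Lib.MP_cc3443_ag.Lower
import Pool.Agent.Lib.CC61.ADefs

open Filter Set Module

noncomputable section

namespace Pool.Agent.Lib.CC61

open Pool.Agent.Lib.MP_cc3443_ag

variable {K : Type} [Field K]

/-- First projection. -/
def pr1 (N N' : ℕ) : (Fin (N + N') → K) →ₗ[K] (Fin N → K) := LinearMap.funLeft K K (Fin.castAdd N')

/-- Second projection. -/
def pr2 (N N' : ℕ) : (Fin (N + N') → K) →ₗ[K] (Fin N' → K) := LinearMap.funLeft K K (Fin.natAdd N)

/-- First inclusion. -/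
def in1 (N N' : ℕ) : (Fin N → K) →ₗ[K] (Fin (N + N') → K) where
  toFun := fun w => Fin.append w 0
  map_add' := fun v w => by ext i; refine Fin.addCases (fun i => ?_) (fun i => ?_) i <;> simp
  map_smul' := fun c w => by ext i; refine Fin.addCases (fun i => ?_) (fun i => ?_) i <;> simp

/-- Second inclusion. -/
def in2 (N N' : ℕ) : (Fin N' → K) →ₗ[K] (Fin (N + N') → K) where
  toFun := fun w => Fin.append 0 w
  map_add' := fun v w => by ext i; refine Fin.addCases (fun i => ?_) (fun i => ?_) i <;> simp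
  map_smul' := fun c w => by ext i; refine Fin.addCases (fun i => ?_) (fun i => ?_) i <;> simp

variable {N N' : ℕ}

@[simp] lemma pr1_in1 (w : Fin N → K) : pr1 N N' (in1 N N' w) = w := by ext i; simp [pr1, in1]
@[simp] lemma pr1_in2 (w : Fin N' → K) : pr1 N N' (in2 N N' w) = 0 := by ext i; simp [pr1, in2]
@[simp] lemma pr2_in1 (w : Fin N → K) : pr2 N N' (in1 N N' w) = 0 := by ext i; simp [pr2, in1]
@[simp] lemma pr2_in2 (w : Fin N' → K) : pr2 N N' (in2 N N' w) = w := by ext i; simp [pr2, in2]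

lemma in1_add_in2 (w : Fin (N + N') → K) : in1 N N' (pr1 N N' w) + in2 N N' (pr2 N N' w) = w := by
  ext i; refine Fin.addCases (fun i => ?_) (fun i => ?_) i <;> simp [pr1, pr2, in1, in2]

variable [Algebra ℂ K] [Algebra (RatFunc ℂ) K] [IsScalarTower ℂ (RatFunc ℂ) K]
  [FiniteDimensional (RatFunc ℂ) K]

/-- External direct sum. -/
def oplus (E : Lat K N) (E' : Lat K N') : Lat K (N + N') :=
  Lat.mk' (E.gen.comap (pr1 N N') ⊓ E'.gen.comap (pr2 N N'))
    (fun x => (E.S x).comap ((pr1 N N').restrictScalars x.O) ⊓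
      (E'.S x).comap ((pr2 N N').restrictScalars x.O))
    (fun x => (((E.fg_S x).map ((in1 N N').restrictScalars x.O)).sup
      ((E'.fg_S x).map ((in2 N N').restrictScalars x.O))).of_le fun w hw => by
        rw [← in1_add_in2 w]
        exact Submodule.add_mem_sup ⟨_, hw.1, rfl⟩ ⟨_, hw.2, rfl⟩)
    (fun x => by
      refine le_antisymm (Submodule.span_le.2 fun w hw => ⟨Lat.mem_gen hw.1, Lat.mem_gen hw.2⟩)
        fun w hw => ?_
      obtain ⟨M, hM⟩ := Lat.exists_pow_smul_mem x hw.1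
      obtain ⟨M', hM'⟩ := Lat.exists_pow_smul_mem x hw.2
      refine (Submodule.smul_mem_iff _ (zpow_ne_zero (M + M' : ℤ) x.unif_ne_zero)).1
        (Submodule.subset_span ⟨?_, ?_⟩)
      · change pr1 N N' _ ∈ E.S x
        rw [map_smul]
        exact hM _ (by rw [x.val_unif_zpow, WithZero.exp_le_exp]; omega)
      · change pr2 N N' _ ∈ E'.S x
        rw [map_smul]
        exact hM' _ (by rw [x.val_unif_zpow, WithZero.exp_le_exp]; omega))
    ((E.std_S.and E'.std_S).mono fun x hx w => by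
      change (pr1 N N' w ∈ E.S x ∧ pr2 N N' w ∈ E'.S x) ↔
        (pr1 N N' w ∈ E.gen ∧ pr2 N N' w ∈ E'.gen) ∧ _
      rw [hx.1, hx.2]
      exact ⟨fun h => ⟨⟨h.1.1, h.2.1⟩, fun i => Fin.addCases h.1.2 h.2.2 i⟩,
        fun h => ⟨⟨h.1.1, fun i => h.2 _⟩, h.1.2, fun i => h.2 _⟩⟩)

lemma mem_oplus {E : Lat K N} {E' : Lat K N'} {x : Place K} {w : Fin (N + N') → K} :
    w ∈ (oplus E E').S x ↔ pr1 N N' w ∈ E.S x ∧ pr2 N N' w ∈ E'.S x := by
  rw [oplus, Lat.mk'_S]; rfl

/-- Intersection. -/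
def linf (E E' : Lat K N) : Lat K N := pull E LinearMap.id E'

/-- Sum. -/
def lsup (E E' : Lat K N) : Lat K N := (oplus E E').mapL (pr1 N N + pr2 N N)

/-- Degree. -/
def dg (L : Lat K N) : ℤ := chiL L - rk L * chiO K

/-- Every nonzero quotient of `E / F` has slope larger than `c`. -/
def TQ (c : ℤ) (E F : Lat K N) : Prop :=
  ∀ W, F ≤ W → W ≤ E → W ≠ E → c * ((rk E : ℤ) - rk W) < dg E - dg W

/-- Every subsheaf of `E / F` has slope at most `c`. -/
def FQ (c : ℤ) (E F : Lat K N) : Prop :=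
  ∀ W, F ≤ W → W ≤ E → dg W - dg F ≤ c * ((rk W : ℤ) - rk F)

/-- Every nonzero subsheaf of `E / F` has slope smaller than that of `β`. -/
def SubLt (β : Cl) (E F : Lat K N) : Prop :=
  ∀ W, F ≤ W → W ≤ E → W ≠ F → (dg W - dg F) * β.1 < β.2 * ((rk W : ℤ) - rk F)

/-- Subsheaves of `E / F` have degree at most `B`. -/
def Bd (B : ℤ) (E F : Lat K N) : Prop := ∀ W, F ≤ W → W ≤ E → dg W - dg F ≤ B

/-- Bounded bundles. -/
def Box (B : ℤ) (V : Lat K N) : Prop := (∀ W, W ≤ V → dg W ≤ B) ∧ -B ≤ dg V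

/-- Constructible invariant functions of class `ν`. -/
structure Nice (ν : Cl) (f : Fn K) : Prop where
  supp : ∀ {N : ℕ} {E F : Lat K N}, f N E F ≠ 0 → HasClass E F ν
  bdd : Bdd f
  iso : ∀ {N N' : ℕ} {Γ : Lat K N × Lat K N' → Prop} {E F : Lat K N} {E' F' : Lat K N'},
    Del Γ → Iso Γ E F E' F' → f N E F = f N' E' F'

/-- Constant function on bundles of class `ν`. -/
def bFn (ν : Cl) : Fn K := fun _ E F => ind (HasClass E F ν ∧ Sat E F)

/-- Constant function on sheaves of class `γ` with all slopes below `β`. -/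
def ltFn (β γ : Cl) : Fn K := fun _ E F => ind (HasClass E F γ ∧ SubLt β E F)

/-- Iterated Hall product; the first letter is the quotient. -/
def word (a : Cl → Fn K) : List Cl → Fn K
  | [] => torsFn 0
  | ν :: w => hall (a ν) (word a w)

/-- Euler characteristic of the subsheaves of rank `i` and degree `l`, weighted by `ψ`. -/
def qi (V : Lat K N) (i : ℕ) (l : ℤ) (ψ : Lat K N → ℂ) : ℂ := (QC V i (l + i * chiO K)).int ψ

/-- On bounded pairs satisfying `R`, `f` is a combination of words satisfying `P`. -/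
def LocIn (R : ∀ N, Lat K N → Lat K N → Prop) (a : Cl → Fn K) (P : List Cl → Prop) (f : Fn K) :
    Prop :=
  ∀ B : ℤ, ∃ ξ : List Cl →₀ ℂ, (∀ w ∈ ξ.support, P w) ∧
    ∀ N (E F : Lat K N), Bd B E F → R N E F → f N E F = ξ.sum fun w c => c * word a w N E F

/-- Words of class `γ` in letters of positive rank whose first letter has slope at most `γ`. -/
def Hd (γ : Cl) (w : List Cl) : Prop :=
  w.sum = γ ∧ (∀ x ∈ w, 0 < x.1) ∧ ∀ x ∈ w.head?, x.2 * γ.1 ≤ γ.2 * x.1

variable (K) in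
/-- The system of bundles on the curve. -/
def bun : Sys where
  Λ := Σ N, Lat K N
  cl := fun V => (rk V.2, dg V.2)
  add := fun V W => ⟨_, oplus V.2 W.2⟩
  Box := fun B V => Box B V.2

variable (K) in
/-- Words evaluated on bundles. -/
def wv (a : Cl → Fn K) (V : (bun K).Λ) (w : List Cl) : ℂ := word a w V.1 V.2 ⊥

/-- Realisation of the free algebra. -/
def rho (t : TA) : Fn K := fun N E F => evT (fun w => word ssFn w N E F) t

/-- A flag of line bundles with degrees `2 h k` and nonsplit adjacent extensions. -/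
structure IsOper (h r : ℕ) (Fl : ℕ → Lat K N) : Prop where
  bot : Fl r = ⊥
  cls : ∀ k < r, HasClass (Fl k) (Fl (k + 1)) (1, 2 * (h : ℤ) * k) ∧ Sat (Fl k) (Fl (k + 1))
  nonsplit : ∀ k, k + 2 ≤ r → ∀ M, Fl (k + 2) ≤ M → M ≤ Fl k →
    M.restrict (Fl (k + 1)).gen = Fl (k + 2) → rk M = rk (Fl (k + 2)) + 1 →
    dg M - dg (Fl (k + 2)) < 2 * (h : ℤ) * k

/-- The interval `[F, E]` is a chain of torsion sheaves of length `d`. -/
structure Chain (E F : Lat K N) (d : ℕ) (c : ℕ → Lat K N) : Prop where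
  top : c d = E
  cls : ∀ j k, j ≤ k → k ≤ d → HasClass (c k) (c j) (0, (k : ℤ) - j)
  bot : c 0 = F
  all : ∀ G, F ≤ G → G ≤ E → ∃ k ≤ d, G = c k

/-- `E / F` is the direct sum of `G₁ / F` and `G₂ / F`. -/
def IsSum (E F G₁ G₂ : Lat K N) : Prop :=
  ∀ x, G₁.S x ⊓ G₂.S x = F.S x ∧ G₁.S x ⊔ G₂.S x = E.S x

variable (K) in
/-- Vanishing of the Euler characteristic of Quot schemes. -/
def VanP (r : ℕ) : Prop := ∀ B : ℤ, ∃ L : ℤ, ∀ (N : ℕ) (V : Lat K N), rk V ≤ r → Box B V →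
  ∀ (i : ℕ) (l : ℤ), l < -L → qi V i l (fun _ => 1) = 0

variable (K) in
/-- Vanishing on the torsion part. -/
def NcP (r : ℕ) : Prop := ∀ B c : ℤ, ∃ L : ℤ, ∀ (N : ℕ) (V : Lat K N), rk V ≤ r → Box B V →
  ∀ (i : ℕ) (l : ℤ), l < -L → qi V i l (fun U => ind (TQ c V U)) = 0

end Pool.Agent.Lib.CC61
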