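import Pool.Agent.Lib.MP_cc3443_ag.Defs

noncomputable section

namespace Pool.Agent.Lib.CC61

open Pool.Agent.Lib.MP_cc3443_ag

variable {K : Type} [Field K] [Algebra ℂ K] [Algebra (RatFunc ℂ) K]

/-- Constant function on the semistable sheaves of class `ν`. -/
def ssFn (ν : ℕ × ℤ) : Fn K := fun N E F =>
  ind (HasClass E F ν ∧ ∀ (G : Lat K N) (μ : ℕ × ℤ), (∀ x, G.st x ⊆ E.st x) → HasClass G F μ →
    μ.2 * ν.1 ≤ ν.2 * μ.1)

/-- Graded pieces of the algebra generated by the functions `ssFn`. -/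
inductive SphHN : ℕ × ℤ → Fn K → Prop
  | gen (ν) : SphHN ν (ssFn ν)
  | zero (ν) : SphHN ν 0
  | add {ν f g} : SphHN ν f → SphHN ν g → SphHN ν (f + g)
  | smul {ν f} (c : ℂ) : SphHN ν f → SphHN ν (c • f)
  | mul {μ ν f g} : SphHN μ f → SphHN ν g → SphHN (μ + ν) (hall f g)

/-- The series `∑ z^((g-1)⟨λ,λ⟩ - l(λ)) K_λ(z) T^|λ|`. -/
def genS (g : ℕ) (z : RatFunc ℂ) : PowerSeries (RatFunc ℂ) := PowerSeries.mk fun n =>
  ∑ l : n.Partition,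
    z ^ (((g : ℤ) - 1) * (∑ i ∈ Finset.Icc 1 n, ((l.parts.filter (i ≤ ·)).card : ℤ) ^ 2) -
        l.parts.card) *
      ∏ i ∈ Finset.Icc 1 n, ∏ j ∈ Finset.Icc 1 (l.parts.count i), (1 - z ^ (-(j : ℤ)))⁻¹

/-- The coefficient of `T^r` in minus the plethystic logarithm of `genS`. -/
def A0r (g r : ℕ) : RatFunc ℂ :=
  -∑ k ∈ r.divisors, ((ArithmeticFunction.moebius k : ℤ) : RatFunc ℂ) / (k : RatFunc ℂ) *
    PowerSeries.coeff (r / k) (PowerSeries.logOf (genS g (RatFunc.X ^ k)))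

/-- The constant term `A_{g,r,d}(0)`. -/
def A0 (g r : ℕ) (d : ℤ) : ℂ :=
  if r = 0 then 1 else -∑ ξ ∈ Polynomial.nthRootsFinset r (1 : ℂ), ξ ^ (-d) *
    ((RatFunc.laurent ξ (A0r g r / RatFunc.X) : RatFunc ℂ) : LaurentSeries ℂ).coeff (-1)

end Pool.Agent.Lib.CC61
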