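import Mathlib

open PowerSeries Finset

noncomputable section

namespace Pool.Agent.Lib.CC61.T39

variable {Y : Type}

/-- Multisets of bounded size on a finite set form a finite set. -/
theorem finite_ms (S : Finset Y) (n : ℕ) :
    {m : Multiset Y | Multiset.card m ≤ n ∧ ∀ x ∈ m, x ∈ S}.Finite := by
  classical
  refine (Set.finite_Iic (n • S.val)).subset ?_
  rintro m ⟨h1, h2⟩
  rw [Set.mem_Iic, Multiset.le_iff_count]
  intro x
  by_cases hx : x ∈ m
  · rw [Multiset.count_nsmul, Multiset.count_eq_one_of_mem S.nodup (h2 x hx), mul_one]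
    exact (Multiset.count_le_card x m).trans h1
  · rw [Multiset.count_eq_zero_of_notMem hx]; exact Nat.zero_le _

/-- Multisets of total rank `n` and total degree `e`. -/
def MS (rk dg : Y → ℕ) (n e : ℕ) : Set (Multiset Y) :=
  {m | (m.map rk).sum = n ∧ (m.map dg).sum = e}

/-- Degree series of the multisets of total rank `n`. -/
def Hs (rk dg : Y → ℕ) (n : ℕ) : ℂ⟦X⟧ := mk fun e => ((MS rk dg n e).ncard : ℂ)

/-- Degree series of the elements of rank `r`. -/
def al (rk dg : Y → ℕ) (r : ℕ) : ℂ⟦X⟧ := mk fun e => ({x | rk x = r ∧ dg x = e}.ncard : ℂ)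

/-- The substitution `q ↦ q ^ k`. -/
def ex (k : ℕ) : ℂ⟦X⟧ →ₐ[ℂ] ℂ⟦X⟧ := if h : k = 0 then AlgHom.id _ _ else expand k h

theorem ex_eq {k : ℕ} (hk : k ≠ 0) : ex k = expand k hk := dif_neg hk

theorem ex_ex {k j : ℕ} (hk : k ≠ 0) (hj : j ≠ 0) (f : ℂ⟦X⟧) : ex k (ex j f) = ex (k * j) f := by
  rw [ex_eq hk, ex_eq hj, ex_eq (mul_ne_zero hk hj), expand_mul]

theorem ex_X {k : ℕ} (hk : k ≠ 0) : ex k X = X ^ k := by rw [ex_eq hk, expand_X]

theorem ex_one (f : ℂ⟦X⟧) : ex 1 f = f := by rw [ex_eq one_ne_zero, expand_one_apply]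

theorem card_le_of_rk {rk : Y → ℕ} (hrk : ∀ x, 1 ≤ rk x) (m : Multiset Y) :
    Multiset.card m ≤ (m.map rk).sum := by
  induction m using Multiset.induction_on with
  | empty => simp
  | cons a s ih => have := hrk a; simp only [Multiset.card_cons, Multiset.map_cons, Multiset.sum_cons]; omega

theorem fib_finite {rk dg : Y → ℕ} {r e : ℕ} (h : (MS rk dg r e).Finite) :
    {x | rk x = r ∧ dg x = e}.Finite := by
  refine Set.Finite.of_finite_image (f := fun x => ({x} : Multiset Y)) (h.subset ?_) ?_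
  · rintro _ ⟨x, hx, rfl⟩
    simpa [MS] using hx
  · intro x _ y _ hxy
    simpa using hxy

theorem coeff_ex_al (rk dg : Y → ℕ) (r : ℕ) {j : ℕ} (hj : j ≠ 0) (e : ℕ) :
    coeff e (ex j (al rk dg r)) = ({x | rk x = r ∧ j * dg x = e}.ncard : ℂ) := by
  rw [ex_eq hj, coeff_expand]
  split_ifs with h
  · obtain ⟨c, rfl⟩ := h
    rw [Nat.mul_div_cancel_left _ (Nat.pos_of_ne_zero hj), al, coeff_mk]
    congr 2
    ext x
    simp [hj]
  · have : {x | rk x = r ∧ j * dg x = e} = ∅ := by
      ext x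
      simp only [Set.mem_ofPred_eq, Set.mem_empty_iff_false, iff_false, not_and]
      rintro _ rfl
      exact h (dvd_mul_right _ _)
    simp [this]

open Classical in
theorem ncard_count (rk dg : Y → ℕ) (n e j : ℕ) (x : Y) :
    {m | m ∈ MS rk dg n e ∧ j ≤ m.count x}.ncard =
      if j * rk x ≤ n ∧ j * dg x ≤ e then (MS rk dg (n - j * rk x) (e - j * dg x)).ncard else 0 := by
  split_ifs with h
  · rw [← Set.ncard_image_of_injective (MS rk dg (n - j * rk x) (e - j * dg x))
      (add_left_injective (Multiset.replicate j x))]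
    congr 1
    ext m
    constructor
    · rintro ⟨⟨h1, h2⟩, h3⟩
      obtain ⟨m', rfl⟩ := Multiset.le_iff_exists_add.mp (Multiset.le_count_iff_replicate_le.mp h3)
      refine ⟨m', ?_, add_comm _ _⟩
      simp only [Multiset.map_add, Multiset.sum_add, Multiset.map_replicate,
        Multiset.sum_replicate, smul_eq_mul] at h1 h2
      constructor <;> omega
    · rintro ⟨m', ⟨h1, h2⟩, rfl⟩
      refine ⟨⟨?_, ?_⟩, by simp⟩ <;>
      simp only [Multiset.map_add, Multiset.sum_add, Multiset.map_replicate,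
        Multiset.sum_replicate, smul_eq_mul] <;> omega
  · suffices hs : {m | m ∈ MS rk dg n e ∧ j ≤ m.count x} = ∅ by rw [hs, Set.ncard_empty]
    ext m
    simp only [Set.mem_ofPred_eq, Set.mem_empty_iff_false, iff_false]
    rintro ⟨⟨h1, h2⟩, h3⟩
    obtain ⟨m', rfl⟩ := Multiset.le_iff_exists_add.mp (Multiset.le_count_iff_replicate_le.mp h3)
    simp only [Multiset.map_add, Multiset.sum_add, Multiset.map_replicate,
        Multiset.sum_replicate, smul_eq_mul] at h1 h2
    omega

theorem ncard_eq_sum {p : Y → Prop} [DecidablePred p] (S : Finset Y) (h : ∀ x, p x → x ∈ S) :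
    (({x | p x}.ncard : ℕ) : ℂ) = ∑ x ∈ S, if p x then 1 else 0 := by
  have : {x | p x} = ↑(S.filter p) := by
    ext x
    simp only [Set.mem_ofPred_eq, coe_filter]
    exact ⟨fun hx => ⟨h x hx, hx⟩, fun hx => hx.2⟩
  rw [this, Set.ncard_coe_finset, Finset.sum_boole]

/-- Double counting: the rank-weighted Newton identity, rectangular form. -/
theorem newton0 {rk dg : Y → ℕ} (hrk : ∀ x, 1 ≤ rk x) {n : ℕ}
    (hfin : ∀ k ≤ n, ∀ e, (MS rk dg k e).Finite) :
    (n : ℂ⟦X⟧) * Hs rk dg n = ∑ r ∈ Icc 1 n, ∑ j ∈ Icc 1 n,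
      if r * j ≤ n then (r : ℂ⟦X⟧) * ex j (al rk dg r) * Hs rk dg (n - r * j) else 0 := by
  classical
  ext e
  have hS : {x | rk x ≤ n ∧ dg x ≤ e}.Finite := by
    refine (Set.Finite.biUnion (Set.finite_Iic n) fun r hr =>
      Set.Finite.biUnion (Set.finite_Iic e) fun d _ => fib_finite (hfin r hr d)).subset ?_
    rintro x ⟨h1, h2⟩
    simp only [Set.mem_iUnion]
    exact ⟨rk x, h1, dg x, h2, rfl, rfl⟩
  set S := hS.toFinset with hSdef
  have hmemS : ∀ x, x ∈ S ↔ rk x ≤ n ∧ dg x ≤ e := fun x => by simp [hSdef]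
  set A := (hfin n le_rfl e).toFinset with hA
  have hmemA : ∀ m, m ∈ A ↔ m ∈ MS rk dg n e := fun m => by simp [hA]
  -- the common value
  let F : Y → ℕ → ℂ := fun x j => if j * rk x ≤ n ∧ j * dg x ≤ e then
    ((MS rk dg (n - j * rk x) (e - j * dg x)).ncard : ℂ) else 0
  have hL : coeff e ((n : ℂ⟦X⟧) * Hs rk dg n) = ∑ x ∈ S, ∑ j ∈ Icc 1 n, (rk x : ℂ) * F x j := by
    have h1 : coeff e ((n : ℂ⟦X⟧) * Hs rk dg n) = ∑ m ∈ A, (n : ℂ) := by
      rw [← map_natCast (C (R := ℂ)), coeff_C_mul, Hs, coeff_mk, Finset.sum_const, nsmul_eq_mul,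
        mul_comm, Set.ncard_eq_toFinset_card _ (hfin n le_rfl e)]
    have h2 : ∀ m ∈ A, (n : ℂ) = ∑ x ∈ S, ∑ j ∈ Icc 1 n,
        (rk x : ℂ) * if j ≤ m.count x then 1 else 0 := by
      intro m hm
      obtain ⟨hm1, hm2⟩ := (hmemA m).mp hm
      have hsub : m.toFinset ⊆ S := by
        intro x hx
        rw [Multiset.mem_toFinset] at hx
        rw [hmemS, ← hm1, ← hm2]
        exact ⟨Multiset.single_le_sum (by simp) _ (Multiset.mem_map_of_mem _ hx),
          Multiset.single_le_sum (by simp) _ (Multiset.mem_map_of_mem _ hx)⟩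
      have h3 : n = ∑ x ∈ S, m.count x * rk x := by
        rw [← hm1, Finset.sum_multiset_map_count]
        refine Finset.sum_subset hsub fun x _ hx => ?_
        rw [Multiset.mem_toFinset] at hx
        simp [Multiset.count_eq_zero_of_notMem hx]
      conv_lhs => rw [h3]
      push_cast
      refine Finset.sum_congr rfl fun x _ => ?_
      rw [← Finset.mul_sum, mul_comm, Finset.sum_boole]
      have hc : m.count x ≤ n := (Multiset.count_le_card x m).trans (hm1 ▸ card_le_of_rk hrk m)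
      have : (Icc 1 n).filter (fun j => j ≤ m.count x) = Icc 1 (m.count x) := by
        ext j; simp only [mem_filter, mem_Icc]; omega
      rw [this, Nat.card_Icc]
      simp
    rw [h1, Finset.sum_congr rfl h2, Finset.sum_comm]
    refine Finset.sum_congr rfl fun x _ => ?_
    rw [Finset.sum_comm]
    refine Finset.sum_congr rfl fun j _ => ?_
    rw [← Finset.mul_sum]
    congr 1
    have h4 := ncard_eq_sum (p := fun m => m ∈ MS rk dg n e ∧ j ≤ m.count x) A
      (fun m hm => (hmemA m).mpr hm.1)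
    have h5 : ∑ m ∈ A, (if j ≤ m.count x then (1 : ℂ) else 0) =
        ∑ m ∈ A, if m ∈ MS rk dg n e ∧ j ≤ m.count x then 1 else 0 :=
      Finset.sum_congr rfl fun m hm => by simp [(hmemA m).mp hm]
    rw [h5, ← h4]
    have h6 := ncard_count rk dg n e j x
    simp only [F]
    split_ifs at h6 ⊢ with h <;> simp [h6]
  have hR : ∀ r ∈ Icc 1 n, ∀ j ∈ Icc 1 n, coeff e
      (if r * j ≤ n then (r : ℂ⟦X⟧) * ex j (al rk dg r) * Hs rk dg (n - r * j) else 0) =
      ∑ x ∈ S, if rk x = r then (rk x : ℂ) * F x j else 0 := by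
    intro r hr j hj
    rw [mem_Icc] at hr hj
    have hj0 : j ≠ 0 := by omega
    split_ifs with h
    · rw [mul_assoc, ← map_natCast (C (R := ℂ)), coeff_C_mul, coeff_mul]
      have h1 : ∀ p ∈ HasAntidiagonal.antidiagonal e, coeff p.1 (ex j (al rk dg r)) * coeff p.2 (Hs rk dg (n - r * j))
          = ∑ x ∈ S, if rk x = r ∧ j * dg x = p.1 then ((MS rk dg (n - r * j) p.2).ncard : ℂ) else 0 := by
        intro p hp
        rw [HasAntidiagonal.mem_antidiagonal] at hp
        rw [coeff_ex_al rk dg r hj0, ncard_eq_sum S, Finset.sum_mul, Hs, coeff_mk]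
        · exact Finset.sum_congr rfl fun x _ => by split_ifs <;> simp
        · rintro x ⟨h1, h2⟩
          rw [hmemS]
          have := Nat.le_mul_of_pos_left (dg x) hj.1
          constructor <;> omega
      rw [Finset.sum_congr rfl h1, Finset.sum_comm, Finset.mul_sum]
      refine Finset.sum_congr rfl fun x _ => ?_
      by_cases hx : rk x = r
      · subst hx
        simp only [true_and, if_true, F]
        congr 1
        have h' : j * rk x ≤ n := by rw [mul_comm]; exact h
        by_cases he : j * dg x ≤ e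
        · rw [if_pos ⟨h', he⟩, Finset.sum_eq_single (j * dg x, e - j * dg x)]
          · simp [mul_comm]
          · rintro ⟨b, c⟩ hb hne
            rw [HasAntidiagonal.mem_antidiagonal] at hb
            rw [if_neg]
            intro h2
            apply hne
            simp only at h2 hb
            ext <;> simp only <;> omega
          · intro hb
            exact absurd (by rw [HasAntidiagonal.mem_antidiagonal]; simp only; omega) hb
        · rw [if_neg (fun h2 => he h2.2)]
          refine Finset.sum_eq_zero fun p hp => if_neg ?_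
          rw [HasAntidiagonal.mem_antidiagonal] at hp
          omega
      · simp [hx]
    · rw [map_zero]
      refine (Finset.sum_eq_zero fun x _ => ?_).symm
      split_ifs with hx
      · subst hx
        simp only [F]
        rw [if_neg (fun h2 => h (by rw [mul_comm]; exact h2.1)), mul_zero]
      · rfl
  rw [hL, map_sum]
  simp only [map_sum]
  rw [Finset.sum_congr rfl fun r hr => Finset.sum_congr rfl fun j hj => hR r hr j hj]
  rw [Finset.sum_comm (s := Icc 1 n) (t := Icc 1 n), Finset.sum_comm (s := S)]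
  refine Finset.sum_congr rfl fun j _ => ?_
  rw [Finset.sum_comm]
  refine Finset.sum_congr rfl fun x hx => ?_
  rw [Finset.sum_ite_eq, if_pos]
  rw [mem_Icc]
  exact ⟨hrk x, ((hmemS x).mp hx).1⟩

/-- The logarithmic coefficients predicted by the Newton identity. -/
def uu (rk dg : Y → ℕ) (m : ℕ) : ℂ⟦X⟧ :=
  ∑ r ∈ m.divisors, (r : ℂ⟦X⟧) * ex (m / r) (al rk dg r)

theorem newton {rk dg : Y → ℕ} (hrk : ∀ x, 1 ≤ rk x) {n : ℕ}
    (hfin : ∀ k ≤ n, ∀ e, (MS rk dg k e).Finite) :
    (n : ℂ⟦X⟧) * Hs rk dg n = ∑ m ∈ Icc 1 n, uu rk dg m * Hs rk dg (n - m) := by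
  rw [newton0 hrk hfin]
  simp only [uu, Finset.sum_mul]
  rw [Finset.sum_sigma', Finset.sum_sigma', ← Finset.sum_filter]
  refine Finset.sum_bij' (fun p _ => ⟨p.1 * p.2, p.1⟩) (fun p _ => ⟨p.2, p.1 / p.2⟩) ?_ ?_ ?_ ?_ ?_
  · rintro ⟨r, j⟩ hp
    simp only [mem_filter, mem_sigma, mem_Icc, Nat.mem_divisors] at hp ⊢
    have : 0 < r * j := Nat.mul_pos hp.1.1.1 hp.1.2.1
    exact ⟨⟨this, hp.2⟩, dvd_mul_right _ _, this.ne'⟩
  · rintro ⟨m, r⟩ hp
    simp only [mem_filter, mem_sigma, mem_Icc, Nat.mem_divisors] at hp ⊢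
    obtain ⟨⟨h1, h2⟩, ⟨c, rfl⟩, h3⟩ := hp
    have hr : 0 < r := Nat.pos_of_ne_zero (left_ne_zero_of_mul h3)
    have hc : 0 < c := Nat.pos_of_ne_zero (right_ne_zero_of_mul h3)
    rw [Nat.mul_div_cancel_left _ hr]
    have := Nat.le_mul_of_pos_left c hr
    have := Nat.le_mul_of_pos_right r hc
    refine ⟨⟨⟨hr, ?_⟩, hc, ?_⟩, h2⟩ <;> omega
  · rintro ⟨r, j⟩ hp
    simp only [mem_filter, mem_sigma, mem_Icc] at hp
    simp [Nat.mul_div_cancel_left _ hp.1.1.1]
  · rintro ⟨m, r⟩ hp
    simp only [mem_sigma, mem_Icc, Nat.mem_divisors] at hp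
    simp [Nat.mul_div_cancel' hp.2.1]
  · rintro ⟨r, j⟩ hp
    simp only [mem_filter, mem_sigma, mem_Icc] at hp
    simp [Nat.mul_div_cancel_left _ hp.1.1.1]

end Pool.Agent.Lib.CC61.T39
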