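import Pool.Agent.Lib.CC61.T39A

open PowerSeries Finset

noncomputable section

namespace Pool.Agent.Lib.CC61.T39

/-- Multisets of pairs with prescribed first coordinates and prescribed sum of the second ones. -/
def GS (l : Multiset ℕ) (e : ℕ) : Set (Multiset (ℕ × ℕ)) :=
  {m | m.map Prod.fst = l ∧ (m.map Prod.snd).sum = e}

theorem GS_finite (l : Multiset ℕ) (e : ℕ) : (GS l e).Finite := by
  refine (finite_ms (l.toFinset ×ˢ range (e + 1)) (Multiset.card l)).subset ?_
  rintro m ⟨h1, h2⟩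
  refine ⟨by rw [← h1, Multiset.card_map], fun x hx => ?_⟩
  rw [mem_product, Multiset.mem_toFinset, mem_range, ← h1, ← h2, Nat.lt_succ_iff]
  exact ⟨Multiset.mem_map_of_mem _ hx,
    Multiset.single_le_sum (by simp) _ (Multiset.mem_map_of_mem _ hx)⟩

/-- The series counting `GS`. -/
def G0 (l : Multiset ℕ) : ℂ⟦X⟧ := mk fun e => ((GS l e).ncard : ℂ)

/-- Raise the second coordinate of the pairs with first coordinate `i`. -/
def up (i : ℕ) (p : ℕ × ℕ) : ℕ × ℕ := if p.1 = i then (p.1, p.2 + 1) else p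

theorem up_inj (i : ℕ) : Function.Injective (up i) := by
  rintro ⟨a, b⟩ ⟨c, d⟩ h
  simp only [up] at h
  split_ifs at h with h1 h2 h2 <;> simp only [Prod.mk.injEq] at h ⊢ <;> omega

theorem up_fst (i : ℕ) (m : Multiset (ℕ × ℕ)) : (m.map (up i)).map Prod.fst = m.map Prod.fst := by
  rw [Multiset.map_map]
  refine Multiset.map_congr rfl fun p _ => ?_
  simp only [Function.comp, up]
  split_ifs <;> rfl

theorem up_snd (i : ℕ) (m : Multiset (ℕ × ℕ)) :
    ((m.map (up i)).map Prod.snd).sum = (m.map Prod.snd).sum + (m.map Prod.fst).count i := by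
  induction m using Multiset.induction_on with
  | empty => simp
  | cons a s ih =>
    rw [Multiset.map_cons, Multiset.map_cons, Multiset.sum_cons, ih, Multiset.map_cons,
      Multiset.map_cons, Multiset.sum_cons, Multiset.count_cons, up]
    by_cases h : a.1 = i
    · rw [if_pos h, if_pos h.symm]; simp only; omega
    · rw [if_neg h, if_neg (Ne.symm h)]; omega

theorem exists_up (i : ℕ) (m : Multiset (ℕ × ℕ)) (h : (i, 0) ∉ m) : ∃ m', m = Multiset.map (up i) m' := by
  induction m using Multiset.induction_on with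
  | empty => exact ⟨0, rfl⟩
  | cons a s ih =>
    rw [Multiset.mem_cons, not_or] at h
    obtain ⟨m', rfl⟩ := ih h.2
    obtain ⟨a, b⟩ := a
    by_cases ha : a = i
    · subst ha
      obtain ⟨c, rfl⟩ : ∃ c, b = c + 1 := Nat.exists_eq_succ_of_ne_zero fun hb => h.1 (by rw [hb])
      exact ⟨(a, c) ::ₘ m', by simp [up]⟩
    · exact ⟨(a, b) ::ₘ m', by simp [up, ha]⟩

theorem GS_rec (i : ℕ) (l : Multiset ℕ) (e : ℕ) :
    (GS (i ::ₘ l) e).ncard = (GS l e).ncard +
      if l.count i + 1 ≤ e then (GS (i ::ₘ l) (e - (l.count i + 1))).ncard else 0 := by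
  have h1 : GS (i ::ₘ l) e ∩ {m | (i, 0) ∈ m} = (fun m => (i, 0) ::ₘ m) '' GS l e := by
    ext m
    constructor
    · rintro ⟨⟨h1, h2⟩, h3⟩
      obtain ⟨m', rfl⟩ := Multiset.exists_cons_of_mem h3
      refine ⟨m', ⟨?_, ?_⟩, rfl⟩
      · simpa using h1
      · simpa using h2
    · rintro ⟨m', ⟨h1, h2⟩, rfl⟩
      exact ⟨⟨by simp [h1], by simp [h2]⟩, by simp⟩
  have h2 : GS (i ::ₘ l) e \ {m | (i, 0) ∈ m} = Multiset.map (up i) ''
      {m | m.map Prod.fst = i ::ₘ l ∧ (m.map Prod.snd).sum + (l.count i + 1) = e} := by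
    ext m
    constructor
    · rintro ⟨⟨h1, h2⟩, h3⟩
      obtain ⟨m', rfl⟩ := exists_up i m h3
      rw [up_fst] at h1
      rw [up_snd, h1, Multiset.count_cons_self] at h2
      exact ⟨m', ⟨h1, h2⟩, rfl⟩
    · rintro ⟨m', ⟨h1, h2⟩, rfl⟩
      refine ⟨⟨by rw [up_fst, h1], by rw [up_snd, h1, Multiset.count_cons_self, h2]⟩, ?_⟩
      simp only [Set.mem_ofPred_eq, Multiset.mem_map, not_exists, not_and]
      rintro ⟨a, b⟩ _ h
      simp only [up] at h
      split_ifs at h with ha <;> simp only [Prod.mk.injEq] at h <;> omega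
  rw [← Set.ncard_inter_add_ncard_sdiff_eq_ncard (GS (i ::ₘ l) e) {m | (i, 0) ∈ m} (GS_finite _ _),
    h1, h2, Set.ncard_image_of_injective _ (fun a b h => (Multiset.cons_inj_right _).mp h),
    Set.ncard_image_of_injective _ (Multiset.map_injective (up_inj i))]
  congr 1
  split_ifs with h
  · congr 1
    ext m
    simp only [GS, Set.mem_ofPred_eq]
    constructor <;> rintro ⟨h1, h2⟩ <;> exact ⟨h1, by omega⟩
  · rw [← Set.ncard_empty (Multiset (ℕ × ℕ))]
    congr 1
    ext m
    simp only [Set.mem_ofPred_eq, Set.mem_empty_iff_false, iff_false, not_and]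
    intro _
    omega

theorem G0_rec (i : ℕ) (l : Multiset ℕ) : G0 (i ::ₘ l) * (1 - X ^ (l.count i + 1)) = G0 l := by
  ext e
  rw [mul_sub, mul_one, map_sub, coeff_mul_X_pow', G0, G0, coeff_mk, coeff_mk, coeff_mk, GS_rec]
  split_ifs <;> simp

theorem G0_zero : G0 0 = 1 := by
  ext e
  rw [G0, coeff_mk, coeff_one]
  split_ifs with h
  · have : GS 0 e = {0} := by
      ext m
      simp only [GS, Set.mem_ofPred_eq, Multiset.map_eq_zero, Set.mem_singleton_iff]
      exact ⟨fun h => h.1, fun hm => by simp [hm, h]⟩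
    simp [this]
  · have : GS 0 e = ∅ := by
      ext m
      simp only [GS, Set.mem_ofPred_eq, Multiset.map_eq_zero, Set.mem_empty_iff_false, iff_false]
      rintro ⟨rfl, h2⟩
      exact h (by simpa using h2.symm)
    simp [this]

/-- Closed form of `G0`. -/
theorem G0_mul (I : Finset ℕ) (l : Multiset ℕ) (hl : ∀ i ∈ l, i ∈ I) :
    G0 l * ∏ i ∈ I, ∏ j ∈ Icc 1 (l.count i), (1 - X ^ j) = 1 := by
  induction l using Multiset.induction_on with
  | empty => simp [G0_zero]
  | cons a s ih =>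
    have ha : a ∈ I := hl a (Multiset.mem_cons_self _ _)
    have h1 : ∏ i ∈ I, ∏ j ∈ Icc 1 ((a ::ₘ s).count i), (1 - X ^ j : ℂ⟦X⟧) =
        (1 - X ^ (s.count a + 1)) * ∏ i ∈ I, ∏ j ∈ Icc 1 (s.count i), (1 - X ^ j) := by
      rw [← Finset.mul_prod_erase I _ ha, ← Finset.mul_prod_erase I _ ha, Multiset.count_cons_self,
        Finset.prod_Icc_succ_top (by omega), ← mul_assoc, mul_comm (1 - X ^ (s.count a + 1))]
      congr 1
      refine Finset.prod_congr rfl fun i hi => ?_
      rw [Multiset.count_cons_of_ne (Finset.ne_of_mem_erase hi)]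
    rw [h1, ← mul_assoc, G0_rec, ih fun i hi => hl i (Multiset.mem_cons_of_mem hi)]

/-- The quadratic form `∑ min` of a multiset. -/
def qf (l : Multiset ℕ) : ℕ := (l.map fun i => (l.map (min i)).sum).sum

theorem qf_le (l : Multiset ℕ) (hl : ∀ i ∈ l, 1 ≤ i) : qf l ≤ l.sum * l.sum := by
  have h1 : qf l ≤ (l.map fun _ => l.sum).sum := by
    refine Multiset.sum_map_le_sum_map _ _ fun i _ => ?_
    have := Multiset.sum_map_le_sum_map (s := l) (min i) id fun j _ => min_le_right i j
    simpa using this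
  have h2 : Multiset.card l ≤ l.sum := by
    have := Multiset.card_nsmul_le_sum hl
    simpa using this
  rw [Multiset.map_const', Multiset.sum_replicate, smul_eq_mul] at h1
  exact h1.trans (Nat.mul_le_mul_right _ h2)

theorem min_eq_sum {n a b : ℕ} (ha : a ≤ n) :
    min a b = ∑ i ∈ Icc 1 n, (if i ≤ a then 1 else 0) * (if i ≤ b then 1 else 0) := by
  have : ∀ i, (if i ≤ a then 1 else 0) * (if i ≤ b then 1 else 0) = if i ≤ min a b then 1 else 0 := by
    intro i
    simp only [le_min_iff]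
    by_cases h1 : i ≤ a <;> by_cases h2 : i ≤ b <;> simp [h1, h2]
  simp only [this]
  rw [← Finset.card_filter]
  have h : (Icc 1 n).filter (fun i => i ≤ min a b) = Icc 1 (min a b) := by
    ext j; simp only [mem_filter, mem_Icc]; omega
  rw [h, Nat.card_Icc]
  omega

theorem card_filter_eq (l : Multiset ℕ) (i : ℕ) :
    Multiset.card (l.filter (i ≤ ·)) = (l.map fun a => if i ≤ a then 1 else 0).sum := by
  induction l using Multiset.induction_on with
  | empty => simp
  | cons a s ih =>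
    rw [Multiset.filter_cons, Multiset.card_add, ih, Multiset.map_cons, Multiset.sum_cons]
    split_ifs <;> simp

theorem qf_eq (l : Multiset ℕ) {n : ℕ} (hl : ∀ i ∈ l, i ≤ n) :
    qf l = ∑ i ∈ Icc 1 n, Multiset.card (l.filter (i ≤ ·)) ^ 2 := by
  have h1 : qf l = (l.map fun a => ∑ i ∈ Icc 1 n, (if i ≤ a then 1 else 0) *
      (l.map fun b => if i ≤ b then 1 else 0).sum).sum := by
    unfold qf
    congr 1
    refine Multiset.map_congr rfl fun a ha => ?_
    have : l.map (min a) = l.map fun b => ∑ i ∈ Icc 1 n,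
        (if i ≤ a then 1 else 0) * (if i ≤ b then 1 else 0) :=
      Multiset.map_congr rfl fun b _ => min_eq_sum (hl a ha)
    rw [this, Multiset.sum_map_sum]
    exact Finset.sum_congr rfl fun i _ => Multiset.sum_map_mul_left
  rw [h1, Multiset.sum_map_sum]
  refine Finset.sum_congr rfl fun i _ => ?_
  rw [Multiset.sum_map_mul_right, card_filter_eq, sq]

end Pool.Agent.Lib.CC61.T39
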