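import Pool.Agent.Lib.CC61.T39B

open PowerSeries Finset

noncomputable section

namespace Pool.Agent.Lib.CC61.T39

/-- Multisets of pairs `(i ≥ 1, s ≥ 1)` with `∑ i = n` and `∑ s = d + h (⟨λ,λ⟩ - n)`. -/
def RS (h : ℕ) (n : ℕ) (d : ℤ) : Set (Multiset (ℕ × ℤ)) :=
  {m | (∀ p ∈ m, 1 ≤ p.1 ∧ 1 ≤ p.2) ∧ (m.map Prod.fst).sum = n ∧
    (m.map Prod.snd).sum = d + h * ((qf (m.map Prod.fst) : ℤ) - n)}

/-- Shift of the second coordinate. -/
def sh (p : ℕ × ℕ) : ℕ × ℤ := (p.1, (p.2 : ℤ) + 1)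

theorem sh_inj : Function.Injective sh := by
  rintro ⟨a, b⟩ ⟨c, d⟩ h
  simp only [sh, Prod.mk.injEq] at h ⊢
  omega

theorem sh_fst (m : Multiset (ℕ × ℕ)) : (m.map sh).map Prod.fst = m.map Prod.fst := by
  rw [Multiset.map_map]; rfl

theorem sh_snd (m : Multiset (ℕ × ℕ)) :
    ((m.map sh).map Prod.snd).sum = ((m.map Prod.snd).sum : ℕ) + (Multiset.card m : ℤ) := by
  induction m using Multiset.induction_on with
  | empty => simp
  | cons a s ih =>
    rw [Multiset.map_cons, Multiset.map_cons, Multiset.sum_cons, ih, Multiset.map_cons,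
      Multiset.sum_cons, Multiset.card_cons, sh]
    push_cast
    ring

theorem exists_sh (m : Multiset (ℕ × ℤ)) (h : ∀ p ∈ m, 1 ≤ p.2) : ∃ m', m = Multiset.map sh m' := by
  refine ⟨m.map fun p => (p.1, (p.2 - 1).toNat), ?_⟩
  rw [Multiset.map_map]
  conv_lhs => rw [← Multiset.map_id m]
  refine Multiset.map_congr rfl fun p hp => ?_
  have := h p hp
  ext
  · rfl
  · simp only [id, Function.comp, sh]; omega

theorem piece_eq (h n : ℕ) (d : ℤ) (l : n.Partition) :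
    {m | m ∈ RS h n d ∧ m.map Prod.fst = l.parts} = Multiset.map sh ''
      {m | m.map Prod.fst = l.parts ∧ (((m.map Prod.snd).sum : ℕ) : ℤ) + Multiset.card l.parts =
        d + h * ((qf l.parts : ℤ) - n)} := by
  ext m
  constructor
  · rintro ⟨⟨h1, h2, h3⟩, h4⟩
    obtain ⟨m', rfl⟩ := exists_sh m fun p hp => (h1 p hp).2
    rw [sh_snd, h4] at h3
    rw [sh_fst] at h4
    exact ⟨m', ⟨h4, by rw [← h3, ← h4, Multiset.card_map]⟩, rfl⟩
  · rintro ⟨m', ⟨h1, h2⟩, rfl⟩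
    refine ⟨⟨?_, by rw [sh_fst, h1, l.parts_sum], ?_⟩, by rw [sh_fst, h1]⟩
    · intro p hp
      obtain ⟨q, hq, rfl⟩ := Multiset.mem_map.mp hp
      exact ⟨l.parts_pos (h1 ▸ Multiset.mem_map_of_mem _ hq), by simp only [sh]; omega⟩
    · rw [sh_snd, sh_fst, h1, ← h2, ← h1, Multiset.card_map]

theorem piece_finite (h n : ℕ) (d : ℤ) (l : n.Partition) :
    {m | m ∈ RS h n d ∧ m.map Prod.fst = l.parts}.Finite := by
  rw [piece_eq]
  refine Set.Finite.image _ ((GS_finite l.parts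
    (d + h * ((qf l.parts : ℤ) - n) - Multiset.card l.parts).toNat).subset ?_)
  rintro m ⟨h1, h2⟩
  exact ⟨h1, by omega⟩

theorem RS_eq (h n : ℕ) (d : ℤ) :
    RS h n d = ⋃ l : n.Partition, {m | m ∈ RS h n d ∧ m.map Prod.fst = l.parts} := by
  ext m
  simp only [Set.mem_iUnion, Set.mem_ofPred_eq]
  refine ⟨fun hm => ⟨⟨m.map Prod.fst, ?_, hm.2.1⟩, hm, rfl⟩, fun ⟨_, hm, _⟩ => hm⟩
  intro i hi
  obtain ⟨p, hp, rfl⟩ := Multiset.mem_map.mp hi
  exact (hm.1 p hp).1

theorem RS_finite (h n : ℕ) (d : ℤ) : (RS h n d).Finite := by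
  rw [RS_eq]
  exact Set.finite_iUnion (piece_finite h n d)

theorem qf_parts_le {n r : ℕ} (hn : n ≤ r) (l : n.Partition) : qf l.parts ≤ r * n := by
  have := qf_le l.parts fun i hi => l.parts_pos hi
  rw [l.parts_sum] at this
  exact this.trans (Nat.mul_le_mul_right _ hn)

theorem RS_low {h n r : ℕ} (hn : n ≤ r) {d : ℤ} (hd : (RS h n d).Nonempty) :
    0 ≤ d + (h * r * n : ℕ) := by
  rw [RS_eq] at hd
  obtain ⟨m, hm⟩ := hd
  obtain ⟨l, hl⟩ := Set.mem_iUnion.mp hm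
  rw [piece_eq] at hl
  obtain ⟨m', ⟨-, h2⟩, -⟩ := hl
  have h3 : (qf l.parts : ℤ) ≤ (r : ℤ) * n := by exact_mod_cast qf_parts_le hn l
  have h4 : (h : ℤ) * ((qf l.parts : ℤ) - n) ≤ h * (r * n) :=
    mul_le_mul_of_nonneg_left (by omega) (by omega)
  push_cast
  rw [mul_assoc]
  omega

/-- The shifted exponent attached to a partition. -/
def EE (h r n : ℕ) (l : Multiset ℕ) : ℕ := h * (r * n - qf l) + h * n + Multiset.card l

theorem EE_cast (h : ℕ) {n r : ℕ} (hn : n ≤ r) (l : n.Partition) :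
    (EE h r n l.parts : ℤ) = h * r * n - h * ((qf l.parts : ℤ) - n) + Multiset.card l.parts := by
  rw [EE]
  push_cast [Nat.cast_sub (qf_parts_le hn l)]
  ring

theorem RS_series (h : ℕ) {n r : ℕ} (hn : n ≤ r) :
    (PowerSeries.mk fun e : ℕ => ((RS h n (e - (h * r * n : ℕ))).ncard : ℂ)) =
      ∑ l : n.Partition, G0 l.parts * X ^ EE h r n l.parts := by
  ext e
  rw [coeff_mk, map_sum, RS_eq, Set.ncard_iUnion_of_finite (piece_finite h n _),
    finsum_eq_sum_of_fintype, Nat.cast_sum]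
  · refine Finset.sum_congr rfl fun l _ => ?_
    have hE := EE_cast h hn l
    have hc : ((h * r * n : ℕ) : ℤ) = h * r * n := by push_cast; rfl
    rw [piece_eq, Set.ncard_image_of_injective _ (Multiset.map_injective sh_inj), coeff_mul_X_pow',
      hc]
    split_ifs with he
    · rw [G0, coeff_mk]
      congr 2
      ext m
      simp only [GS, Set.mem_ofPred_eq]
      constructor <;> rintro ⟨h1, h2⟩ <;> exact ⟨h1, by omega⟩
    · rw [Nat.cast_eq_zero, ← Set.ncard_empty (Multiset (ℕ × ℕ))]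
      congr 1
      ext m
      simp only [Set.mem_ofPred_eq, Set.mem_empty_iff_false, iff_false, not_and]
      intro _
      omega
  · intro l l' hne
    rw [Function.onFun, Set.disjoint_left]
    rintro m ⟨-, h1⟩ ⟨-, h2⟩
    exact hne (Nat.Partition.ext (h1.symm.trans h2))

variable {Y : Type} {rk : Y → ℕ} {dg : Y → ℤ} {h r : ℕ}

/-- The shifted degree. -/
def dN (rk : Y → ℕ) (dg : Y → ℤ) (B : ℕ) (x : Y) : ℕ := (dg x + (B * rk x : ℕ)).toNat

/-- The counting hypothesis up to rank `r`. -/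
def Cnt (rk : Y → ℕ) (dg : Y → ℤ) (h r : ℕ) : Prop := ∀ n ≤ r, ∀ d : ℤ,
  {m : Multiset Y | (m.map rk).sum = n ∧ (m.map dg).sum = d}.encard = (RS h n d).encard

theorem dN_cast (H : Cnt rk dg h r) {x : Y} (hx : rk x ≤ r) :
    (dN rk dg (h * r) x : ℤ) = dg x + (h * r * rk x : ℕ) := by
  refine Int.toNat_of_nonneg (RS_low hx ?_)
  rw [← Set.encard_ne_zero, ← H _ hx, Set.encard_ne_zero]
  exact ⟨{x}, by simp⟩

theorem dN_sum (H : Cnt rk dg h r) (m : Multiset Y) (hm : (m.map rk).sum ≤ r) :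
    (((m.map (dN rk dg (h * r))).sum : ℕ) : ℤ) = (m.map dg).sum + (h * r * (m.map rk).sum : ℕ) := by
  induction m using Multiset.induction_on with
  | empty => simp
  | cons a s ih =>
    simp only [Multiset.map_cons, Multiset.sum_cons] at hm ⊢
    rw [Nat.cast_add, ih (by omega), dN_cast H (by omega)]
    push_cast
    ring

theorem MS_encard (H : Cnt rk dg h r) {n : ℕ} (hn : n ≤ r) (e : ℕ) :
    (MS rk (dN rk dg (h * r)) n e).encard = (RS h n (e - (h * r * n : ℕ))).encard := by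
  rw [← H n hn]
  congr 1
  ext m
  simp only [MS, Set.mem_ofPred_eq]
  refine and_congr_right fun h1 => ?_
  have := dN_sum H m (by omega)
  rw [h1] at this
  omega

theorem MS_finite (H : Cnt rk dg h r) {n : ℕ} (hn : n ≤ r) (e : ℕ) :
    (MS rk (dN rk dg (h * r)) n e).Finite := by
  rw [← Set.encard_lt_top_iff, MS_encard H hn, Set.encard_lt_top_iff]
  exact RS_finite _ _ _

theorem Hs_eq (H : Cnt rk dg h r) {n : ℕ} (hn : n ≤ r) :
    Hs rk (dN rk dg (h * r)) n = ∑ l : n.Partition, G0 l.parts * X ^ EE h r n l.parts := by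
  rw [← RS_series h hn, Hs]
  congr 1
  ext e
  rw [Set.ncard_def, MS_encard H hn, ← Set.ncard_def]

theorem al_eq (H : Cnt rk dg h r) {a : ℕ}
    (hpos : ∀ d : ℤ, 0 < d → {x | rk x = r ∧ dg x = d}.ncard = a) :
    ∃ c : ℕ → ℕ, al rk (dN rk dg (h * r)) r * (1 - X) =
      (∑ e ∈ range (h * r * r + 1), (c e : ℂ⟦X⟧) * X ^ e) * (1 - X) +
        (a : ℂ⟦X⟧) * X ^ (h * r * r + 1) := by
  refine ⟨fun e => {x | rk x = r ∧ dN rk dg (h * r) x = e}.ncard, ?_⟩
  have h1 : al rk (dN rk dg (h * r)) r = (∑ e ∈ range (h * r * r + 1),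
      (({x | rk x = r ∧ dN rk dg (h * r) x = e}.ncard : ℕ) : ℂ⟦X⟧) * X ^ e) +
      ((a : ℂ⟦X⟧) * PowerSeries.mk 1) * X ^ (h * r * r + 1) := by
    ext e
    rw [map_add, map_sum, coeff_mul_X_pow', al, coeff_mk]
    simp only [← map_natCast (C (R := ℂ)), coeff_C_mul, coeff_X_pow, mul_ite, mul_one, mul_zero,
      Finset.sum_ite_eq, mem_range, coeff_mk, Pi.one_apply]
    by_cases he : e < h * r * r + 1
    · rw [if_pos he, if_neg (by omega), add_zero]
    · rw [if_neg he, if_pos (by omega), zero_add, ← hpos (e - (h * r * r : ℕ)) (by omega)]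
      congr 2
      ext x
      simp only [Set.mem_ofPred_eq]
      refine and_congr_right fun hx => ?_
      have := dN_cast H hx.le
      rw [hx] at this
      omega
  conv_lhs => rw [h1]
  rw [add_mul, mul_right_comm ((a : ℂ⟦X⟧) * PowerSeries.mk 1), mul_assoc (a : ℂ⟦X⟧), mk_one_mul_one_sub_eq_one,
    mul_one]

end Pool.Agent.Lib.CC61.T39
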