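import Pool.Agent.Lib.CC61.T39C
import Pool.Agent.Lib.CC61.SDefs

open PowerSeries Finset
open scoped RatFunc

noncomputable section

namespace Pool.Agent.Lib.CC61.T39

theorem log_rel {A : Type} [CommRing A] [Algebra ℚ A] (S : A⟦X⟧) (hS : constantCoeff S = 1)
    (n : ℕ) : (n : A) * coeff n S =
      ∑ m ∈ Icc 1 n, ((m : A) * coeff m (logOf S)) * coeff (n - m) S := by
  have hs : HasSubst (S - 1) := HasSubst.of_constantCoeff_zero' (by simp [hS])
  have h1 : d⁄dX A (log A) * (1 + X) = 1 := by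
    rw [deriv_log]
    ext k
    cases k with
    | zero => simp
    | succ k => simp [mul_add, coeff_succ_mul_X, coeff_one, pow_succ]
  have h2 : (d⁄dX A (log A)).subst (S - 1) * S = 1 := by
    have := congrArg (substAlgHom (R := A) hs) h1
    rw [map_mul, map_add, map_one, substAlgHom_X, add_sub_cancel, coe_substAlgHom] at this
    exact this
  have h3 : d⁄dX A (logOf S) * S = d⁄dX A S := by
    rw [logOf_eq, derivative_subst hs, mul_right_comm, h2, one_mul, map_sub]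
    simp
  cases n with
  | zero => simp
  | succ n =>
    have h4 := congrArg (coeff n) h3
    rw [coeff_derivative, coeff_mul, Finset.Nat.sum_antidiagonal_eq_sum_range_succ_mk] at h4
    rw [Nat.cast_succ, mul_comm, ← h4, ← Finset.Ico_add_one_right_eq_Icc, Finset.sum_Ico_eq_sum_range]
    refine Finset.sum_congr rfl fun k _ => ?_
    rw [coeff_derivative, add_comm 1 k, Nat.add_sub_add_right, Nat.cast_succ]
    ring

theorem conv_unique {F : Type} [CommRing F] (S u v : ℕ → F) (h0 : S 0 = 1) (r : ℕ)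
    (h : ∀ n ≤ r, ∑ m ∈ Icc 1 n, u m * S (n - m) = ∑ m ∈ Icc 1 n, v m * S (n - m)) :
    ∀ m, 1 ≤ m → m ≤ r → u m = v m := by
  intro m
  induction m using Nat.strong_induction_on with
  | _ m ih =>
    intro h1 h2
    obtain ⟨k, rfl⟩ : ∃ k, m = k + 1 := ⟨m - 1, by omega⟩
    have h3 := h _ h2
    rw [Finset.sum_Icc_succ_top h1, Finset.sum_Icc_succ_top h1, Nat.sub_self, h0, mul_one, mul_one,
      Finset.sum_congr rfl (g := fun m => v m * S (k + 1 - m)), add_right_inj] at h3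
    · exact h3
    · intro j hj
      rw [mem_Icc] at hj
      rw [ih j (by omega) hj.1 (by omega)]

theorem genS_zero (g : ℕ) (z : RatFunc ℂ) : constantCoeff (genS g z) = 1 := by
  rw [← coeff_zero_eq_constantCoeff_apply, genS, coeff_mk]
  simp

variable {Y : Type} {rk : Y → ℕ} {dg : Y → ℤ} {h r : ℕ} {F : Type} [Field F]

theorem gen_eq (H : Cnt rk dg h r) (φ : RatFunc ℂ →+* F) (ι : ℂ⟦X⟧ →+* F) (hw : ι X ≠ 0)
    (z : RatFunc ℂ) (hz : φ z = (ι X)⁻¹) {n : ℕ} (hn : n ≤ r) :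
    φ (coeff n (genS (h + 1) z)) * ι X ^ ((h * r + h) * n) = ι (Hs rk (dN rk dg (h * r)) n) := by
  rw [Hs_eq H hn, genS, coeff_mk, map_sum, map_sum, Finset.sum_mul]
  refine Finset.sum_congr rfl fun l _ => ?_
  have hle : ∀ i ∈ l.parts, i ≤ n := fun i hi => l.le_of_mem_parts hi
  have h1 := congrArg ι (G0_mul (Icc 1 n) l.parts fun i hi => mem_Icc.mpr ⟨l.parts_pos hi, hle i hi⟩)
  rw [map_mul, map_one] at h1
  have h2 : (∑ i ∈ Icc 1 n, ((Multiset.card (l.parts.filter (i ≤ ·)) : ℕ) : ℤ) ^ 2) = qf l.parts := by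
    rw [qf_eq l.parts hle]; push_cast; rfl
  rw [h2, map_mul, map_mul, map_zpow₀, hz, eq_inv_of_mul_eq_one_left h1, map_pow, mul_right_comm,
    mul_comm]
  congr 1
  · simp only [map_prod, map_inv₀, map_sub, map_one, map_zpow₀, map_pow, hz, Finset.prod_inv_distrib,
      inv_zpow', neg_neg, zpow_natCast]
  · rw [inv_zpow', ← zpow_natCast, ← zpow_natCast, ← zpow_add₀ hw, EE_cast h hn]
    congr 1
    push_cast
    ring

theorem log_eq (hrk : ∀ x, 1 ≤ rk x) (H : Cnt rk dg h r) (φ : RatFunc ℂ →+* F) (ι : ℂ⟦X⟧ →+* F)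
    (hw : ι X ≠ 0) (z : RatFunc ℂ) (hz : φ z = (ι X)⁻¹) {m : ℕ} (h1 : 1 ≤ m) (hm : m ≤ r) :
    (m : F) * φ (coeff m (logOf (genS (h + 1) z))) * ι X ^ ((h * r + h) * m) =
      ι (uu rk (dN rk dg (h * r)) m) := by
  refine conv_unique (fun n => ι (Hs rk (dN rk dg (h * r)) n))
    (fun m => (m : F) * φ (coeff m (logOf (genS (h + 1) z))) * ι X ^ ((h * r + h) * m))
    (fun m => ι (uu rk (dN rk dg (h * r)) m)) ?_ r ?_ m h1 hm
  · rw [← gen_eq H φ ι hw z hz (Nat.zero_le r), coeff_zero_eq_constantCoeff_apply, genS_zero]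
    simp
  · intro n hn
    have h2 := congrArg ι (newton hrk (n := n) fun k hk e => MS_finite H (hk.trans hn) e)
    have h3 := congrArg φ (log_rel (genS (h + 1) z) (genS_zero _ _) n)
    simp only [map_mul, map_sum, map_natCast] at h2 h3
    rw [← h2, ← gen_eq H φ ι hw z hz hn, ← mul_assoc, h3, Finset.sum_mul]
    refine Finset.sum_congr rfl fun k hk => ?_
    rw [mem_Icc] at hk
    rw [← gen_eq H φ ι hw z hz ((Nat.sub_le n k).trans hn)]
    obtain ⟨j, rfl⟩ := Nat.exists_eq_add_of_le hk.2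
    rw [Nat.add_sub_cancel_left, mul_add (h * r + h), pow_add]
    ring

theorem A0r_map [CharZero F] (hrk : ∀ x, 1 ≤ rk x) (H : Cnt rk dg h r) (hr : 1 ≤ r)
    (φ : RatFunc ℂ →+* F) (ι : ℂ⟦X⟧ →+* F) (hw : ι X ≠ 0) (hz : φ RatFunc.X = (ι X)⁻¹) :
    φ (A0r (h + 1) r) * ι X ^ ((h * r + h) * r) = -ι (al rk (dN rk dg (h * r)) r) := by
  have hr0 : (r : F) ≠ 0 := Nat.cast_ne_zero.mpr (by omega)
  let f : ℕ → F := fun i => (i : F) * ι (ex (r / i) (al rk (dN rk dg (h * r)) i))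
  have hM := (ArithmeticFunction.sum_eq_iff_sum_mul_moebius_eq (f := f)
    (g := fun n => ∑ i ∈ n.divisors, f i)).mp (fun _ _ => rfl) r hr
  rw [Nat.sum_divisorsAntidiagonal
    (fun a b => ((ArithmeticFunction.moebius a : ℤ) : F) * ∑ i ∈ b.divisors, f i)] at hM
  have hf : f r = (r : F) * ι (al rk (dN rk dg (h * r)) r) := by
    simp only [f]
    rw [Nat.div_self hr, ex_one]
  apply mul_left_cancel₀ hr0
  rw [mul_neg, ← hf, ← hM, A0r, map_neg, neg_mul, mul_neg, neg_inj, map_sum, Finset.sum_mul,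
    Finset.mul_sum]
  refine Finset.sum_congr rfl fun k hk => ?_
  obtain ⟨⟨m, hm⟩, hr1⟩ := Nat.mem_divisors.mp hk
  have hk0 : k ≠ 0 := fun h0 => hr1 (by rw [hm, h0, zero_mul])
  have hm0 : m ≠ 0 := fun h0 => hr1 (by rw [hm, h0, mul_zero])
  have hdiv : r / k = m := by rw [hm, Nat.mul_div_cancel_left _ (Nat.pos_of_ne_zero hk0)]
  have hX : (ι.comp (ex k).toRingHom) X = ι X ^ k := by
    change ι (ex k X) = _
    rw [ex_X hk0, map_pow]
  have h1 := log_eq hrk H φ (ι.comp (ex k).toRingHom) (by rw [hX]; exact pow_ne_zero _ hw)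
    (RatFunc.X ^ k) (by rw [hX, map_pow, hz, inv_pow]) (m := m) (Nat.pos_of_ne_zero hm0)
    (by rw [hm]; exact Nat.le_mul_of_pos_left _ (Nat.pos_of_ne_zero hk0))
  have h2 : (ι.comp (ex k).toRingHom) (uu rk (dN rk dg (h * r)) m) = ∑ i ∈ m.divisors, f i := by
    rw [uu, map_sum]
    refine Finset.sum_congr rfl fun i hi => ?_
    obtain ⟨⟨j, hj⟩, -⟩ := Nat.mem_divisors.mp hi
    have hi0 : 0 < i := Nat.pos_of_mem_divisors hi
    have hj0 : j ≠ 0 := fun h0 => hm0 (by rw [hj, h0, mul_zero])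
    have e1 : m / i = j := by rw [hj, Nat.mul_div_cancel_left _ hi0]
    have e2 : r / i = k * j := by
      rw [hm, hj, mul_left_comm, Nat.mul_div_cancel_left _ hi0]
    rw [map_mul, map_natCast, e1]
    change _ * ι (ex k (ex j _)) = (i : F) * ι (ex (r / i) _)
    rw [ex_ex hk0 hj0, e2]
  have hkF : (k : F) ≠ 0 := Nat.cast_ne_zero.mpr hk0
  have e3 : (h * r + h) * r = k * ((h * r + h) * m) := by
    conv_lhs => rw [show (h * r + h) * r = (h * r + h) * (k * m) by rw [← hm]]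
    ring
  have e4 : (r : F) = k * m := by rw [hm, Nat.cast_mul]
  rw [hdiv, ← h2, ← h1, hX, ← pow_mul, ← e3, map_mul, map_div₀, map_intCast, map_natCast, e4]
  field_simp

theorem exists_phi : ∃ φ : RatFunc ℂ →+* LaurentSeries ℂ,
    φ RatFunc.X = (HahnSeries.ofPowerSeries ℤ ℂ X)⁻¹ := by
  have ht : Transcendental ℂ (RatFunc.X : RatFunc ℂ)⁻¹ := fun h =>
    RatFunc.transcendental_X (IsAlgebraic.inv_iff.mp h)
  refine ⟨(algebraMap (RatFunc ℂ) (LaurentSeries ℂ)).comp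
    ((IntermediateField.val _).toRingHom.comp
      (RatFunc.algEquivOfTranscendental _ ht).toAlgHom.toRingHom), ?_⟩
  have h1 := RatFunc.algEquivOfTranscendental_X _ ht
  change algebraMap (RatFunc ℂ) (LaurentSeries ℂ)
    ((RatFunc.algEquivOfTranscendental _ ht RatFunc.X : IntermediateField.adjoin ℂ _) : RatFunc ℂ) = _
  rw [h1, map_inv₀, RatFunc.coe_X, HahnSeries.ofPowerSeries_X]

theorem A0r_eq (hrk : ∀ x, 1 ≤ rk x) (H : Cnt rk dg h r) (hr : 1 ≤ r) (hh : 1 ≤ h) {a : ℕ}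
    (hpos : ∀ d : ℤ, 0 < d → {x | rk x = r ∧ dg x = d}.ncard = a) :
    ∃ P : Polynomial ℂ, A0r (h + 1) r / RatFunc.X =
      algebraMap _ _ P - (a : RatFunc ℂ) * (RatFunc.X - 1)⁻¹ := by
  obtain ⟨φ, hφ⟩ := exists_phi
  have : CharZero (LaurentSeries ℂ) := (RingHom.charZero_iff φ.injective).mp inferInstance
  set ι := HahnSeries.ofPowerSeries ℤ ℂ with hι
  have hinj : Function.Injective ι := HahnSeries.ofPowerSeries_injective
  have hw : ι X ≠ 0 := fun h0 => X_ne_zero (hinj (h0.trans (map_zero ι).symm))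
  have hw1 : 1 - ι X ≠ 0 := by
    intro h0
    have h1 : (1 - X : ℂ⟦X⟧) = 0 := hinj (by rw [map_sub, map_one, h0, map_zero])
    have := congrArg constantCoeff h1
    simp at this
  obtain ⟨c, hc⟩ := al_eq H hpos
  obtain ⟨t, ht⟩ : ∃ t, h * r = t + 1 := ⟨h * r - 1, by have := Nat.mul_pos hh hr; omega⟩
  have h1 := A0r_map hrk H hr φ ι hw hφ
  have h2 := congrArg ι hc
  simp only [map_mul, map_add, map_sub, map_one, map_sum, map_natCast, map_pow] at h2
  refine ⟨-(∑ e ∈ range (h * r * r + 1), (c e : Polynomial ℂ) * Polynomial.X ^ (h * r * r - e + t))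
    - (a : Polynomial ℂ) * ∑ i ∈ range t, Polynomial.X ^ i, φ.injective ?_⟩
  simp only [map_sub, map_neg, map_mul, map_sum, map_natCast, map_pow, RatFunc.algebraMap_X,
    map_div₀, map_inv₀, map_one, hφ]
  set w := ι X with hwdef
  have hv : w⁻¹ - 1 ≠ 0 := by
    rw [sub_ne_zero, ne_eq, inv_eq_one]
    exact fun h0 => hw1 (by rw [h0, sub_self])
  have h3 : ∑ i ∈ range t, w⁻¹ ^ i = (w⁻¹ ^ t - 1) * (w⁻¹ - 1)⁻¹ := by
    rw [← geom_sum_mul, mul_assoc, mul_inv_cancel₀ hv, mul_one]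
  have h4 : (∑ e ∈ range (h * r * r + 1), (c e : LaurentSeries ℂ) * w⁻¹ ^ (h * r * r - e + t)) *
      w ^ (h * r * r + t) = ∑ e ∈ range (h * r * r + 1), (c e : LaurentSeries ℂ) * w ^ e := by
    rw [Finset.sum_mul]
    refine Finset.sum_congr rfl fun e he => ?_
    rw [mem_range] at he
    rw [show h * r * r + t = (h * r * r - e + t) + e by omega, pow_add w, mul_assoc, ← mul_assoc (w⁻¹ ^ _),
      ← mul_pow, inv_mul_cancel₀ hw, one_pow, one_mul]
  have h5 : (h * r + h) * r = h * r * r + t + 1 := by rw [add_mul, ht, add_assoc]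
  rw [h5] at h1
  rw [← h4] at h2
  rw [h3, show (w⁻¹ - 1)⁻¹ = w * (1 - w)⁻¹ by field_simp, inv_pow]
  generalize (∑ e ∈ range (h * r * r + 1), (c e : LaurentSeries ℂ) * w⁻¹ ^ (h * r * r - e + t)) = T
    at h2 ⊢
  generalize h * r * r = N at h1 h2
  have h6 : φ (A0r (h + 1) r) = -ι (al rk (dN rk dg (h * r)) r) / w ^ (N + t + 1) := by
    rw [← h1]; field_simp
  have h7 : ι (al rk (dN rk dg (h * r)) r) =
      (T * w ^ (N + t) * (1 - w) + a * w ^ (N + 1)) / (1 - w) := by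
    rw [← h2]; field_simp
  rw [h6, h7]
  field_simp
  ring

theorem res_eq (P : Polynomial ℂ) (a : ℕ) (ξ : ℂ) :
    ((RatFunc.laurent ξ (algebraMap _ _ P - (a : RatFunc ℂ) * (RatFunc.X - 1)⁻¹) : RatFunc ℂ) :
      LaurentSeries ℂ).coeff (-1) = if ξ = 1 then -(a : ℂ) else 0 := by
  have h0 : ∀ Q : Polynomial ℂ, algebraMap (RatFunc ℂ) (LaurentSeries ℂ) (algebraMap _ _ Q) =
      HahnSeries.ofPowerSeries ℤ ℂ (Q : ℂ⟦X⟧) := fun Q => (RatFunc.coe_coe Q).symm
  have h1 : RatFunc.laurent ξ (RatFunc.X - 1) =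
      algebraMap _ _ (Polynomial.X + Polynomial.C (ξ - 1)) := by
    rw [map_sub, map_one, RatFunc.laurent_X, map_add, RatFunc.algebraMap_X, RatFunc.algebraMap_C,
      map_sub, map_one, add_sub_assoc]
  rw [map_sub, map_mul, map_natCast, map_inv₀, h1, RatFunc.laurent_algebraMap, map_sub, map_mul,
    map_natCast, map_inv₀, h0, h0, HahnSeries.coeff_sub, PowerSeries.coeff_coe,
    if_pos (by norm_num), zero_sub, ← nsmul_eq_mul, HahnSeries.coeff_nsmul, Pi.smul_apply]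
  split_ifs with hξ
  · subst hξ
    simp [HahnSeries.inv_single]
  · have h2 : constantCoeff ((Polynomial.X + Polynomial.C (ξ - 1) : Polynomial ℂ) : ℂ⟦X⟧) ≠ 0 := by
      simpa using sub_ne_zero.mpr hξ
    have h3 := congrArg (HahnSeries.ofPowerSeries ℤ ℂ) (PowerSeries.mul_inv_cancel _ h2)
    rw [map_mul, map_one] at h3
    rw [← eq_inv_of_mul_eq_one_right h3, PowerSeries.coeff_coe, if_pos (by norm_num)]
    simp

/-- Part B3: the multiset count determines the constant term. -/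
theorem B3 (g : ℕ) (hg : 2 ≤ g) (Y : Type) (rk : Y → ℕ) (dg : Y → ℤ) (hrk : ∀ x, 1 ≤ rk x)
    (r : ℕ) (hr : 1 ≤ r) (a : ℕ) (hpos : ∀ d : ℤ, 0 < d → {x | rk x = r ∧ dg x = d}.ncard = a)
    (hcount : ∀ n ≤ r, ∀ d : ℤ,
      {m : Multiset Y | (m.map rk).sum = n ∧ (m.map dg).sum = d}.encard =
      {m : Multiset (ℕ × ℤ) | (∀ p ∈ m, 1 ≤ p.1 ∧ 1 ≤ p.2) ∧ (m.map Prod.fst).sum = n ∧
        (m.map Prod.snd).sum = d + ((g : ℤ) - 1) *
          ((((m.map Prod.fst).map fun i => ((m.map Prod.fst).map (min i)).sum).sum : ℕ) - n)}.encard)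
    (d : ℤ) : (a : ℂ) = A0 g r d := by
  classical
  obtain ⟨h, rfl⟩ : ∃ h, g = h + 1 := ⟨g - 1, by omega⟩
  have H : Cnt rk dg h r := by
    intro n hn e
    rw [hcount n hn e, Nat.cast_succ, add_sub_cancel_right]
    rfl
  obtain ⟨P, hP⟩ := A0r_eq hrk H hr (by omega) hpos
  rw [A0, if_neg (by omega), hP]
  simp only [res_eq, mul_ite, mul_zero]
  rw [Finset.sum_ite_eq', if_pos (Polynomial.one_mem_nthRootsFinset hr)]
  simp

end Pool.Agent.Lib.CC61.T39
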