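import Pool.Agent.Lib.CC61.ABlue

open Finset

noncomputable section

namespace Pool.Agent.Lib.CC61.T39

variable {l : ℕ}

theorem lp_ext {P Q : LP l} (h : ∀ m, P.coeff m = Q.coeff m) : P = Q :=
  AddMonoidAlgebra.coeff_injective (Finsupp.ext h)

theorem zz_add (m m' : Fin l → ℤ) : zz (m + m') = zz m * zz m' := by
  rw [zz, zz, zz, AddMonoidAlgebra.single_mul_single, one_mul]

theorem zz_zero : zz (0 : Fin l → ℤ) = 1 := rfl

theorem zv_add (a : Fin l) (k k' : ℤ) : zv a (k + k') = zv a k * zv a k' := by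
  rw [zv, Pi.single_add, zz_add]; rfl

theorem zv_zero (a : Fin l) : zv a 0 = 1 := by rw [zv, Pi.single_zero, zz_zero]

theorem zz_sum {ι : Type} (s : Finset ι) (m : ι → Fin l → ℤ) :
    zz (∑ i ∈ s, m i) = ∏ i ∈ s, zz (m i) := by
  classical
  induction s using Finset.induction_on with
  | empty => simp [zz_zero]
  | insert a s ha ih => rw [Finset.sum_insert ha, Finset.prod_insert ha, zz_add, ih]

theorem zz_eq_prod (m : Fin l → ℤ) : zz m = ∏ a, zv a (m a) := by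
  conv_lhs => rw [← Finset.univ_sum_single m]
  rw [zz_sum]; rfl

theorem single_eq (m : Fin l → ℤ) (c : ℂ) : (AddMonoidAlgebra.single m c : LP l) = c • zz m := by
  rw [zz, AddMonoidAlgebra.smul_single', mul_one]

theorem eq_sum_zz (P : LP l) : P = ∑ m ∈ P.coeff.support, P.coeff m • zz m := by
  conv_lhs => rw [← AddMonoidAlgebra.sum_coeff_single P, Finsupp.sum]
  simp only [single_eq]

theorem coeff_zz (m m' : Fin l → ℤ) : (zz m).coeff m' = if m = m' then 1 else 0 := by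
  rw [zz, AddMonoidAlgebra.coeff_single, Finsupp.single_apply]

theorem lp_induction {p : LP l → Prop} (P : LP l) (h0 : p 0) (hadd : ∀ P Q, p P → p Q → p (P + Q))
    (hz : ∀ (c : ℂ) m, p (c • zz m)) : p P :=
  AddMonoidAlgebra.induction_linear P h0 hadd fun m c => single_eq m c ▸ hz c m

theorem algHom_ext {A : Type} [Semiring A] [Algebra ℂ A] {f g : LP l →ₐ[ℂ] A}
    (h : ∀ m, f (zz m) = g (zz m)) : f = g :=
  AlgHom.ext fun P => lp_induction (p := fun P => f P = g P) P (by simp)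
    (fun P Q h1 h2 => by rw [map_add, map_add, h1, h2])
    fun c m => by rw [map_smul, map_smul, h]

theorem ren_zz' (f : Fin l → Fin l) (m : Fin l → ℤ) :
    ren f (zz m) = zz fun b => ∑ a with f a = b, m a := AddMonoidAlgebra.mapDomain_single

theorem ren_zz (σ : Equiv.Perm (Fin l)) (m : Fin l → ℤ) : ren σ (zz m) = zz (m ∘ σ.symm) := by
  rw [ren_zz']
  congr 1
  funext b
  have : (univ.filter fun a => σ a = b) = {σ.symm b} := by
    ext a; simp [Equiv.eq_symm_apply]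
  rw [this, Finset.sum_singleton]; rfl

theorem ren_zv (f : Fin l → Fin l) (a : Fin l) (k : ℤ) : ren f (zv a k) = zv (f a) k := by
  rw [zv, ren_zz', zv]
  congr 1
  funext b
  rw [Finset.sum_filter, Finset.sum_eq_single a (fun c _ hc => by simp [hc]) (by simp)]
  by_cases h : f a = b
  · subst h; simp
  · simp [h, Ne.symm h]

theorem comp_symm_iff {β : Type} (σ : Equiv.Perm (Fin l)) (m m' : Fin l → β) :
    m ∘ σ.symm = m' ↔ m = m' ∘ σ := by
  constructor
  · rintro rfl; funext a; simp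
  · rintro rfl; funext a; simp

theorem coeff_ren (σ : Equiv.Perm (Fin l)) (P : LP l) (m : Fin l → ℤ) :
    (ren σ P).coeff m = P.coeff (m ∘ σ) := by
  refine lp_induction (p := fun P => (ren σ P).coeff m = P.coeff (m ∘ σ)) P (by simp)
    (fun P Q h1 h2 => by simp [h1, h2]) fun c m' => ?_
  simp only [map_smul, AddMonoidAlgebra.coeff_smul_apply, ren_zz, coeff_zz, comp_symm_iff]

theorem ren_ren (σ τ : Equiv.Perm (Fin l)) (P : LP l) :
    ren σ (ren τ P) = ren (σ * τ : Equiv.Perm (Fin l)) P :=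
  lp_ext fun m => by rw [coeff_ren, coeff_ren, coeff_ren]; rfl

theorem ren_one (P : LP l) : ren (1 : Equiv.Perm (Fin l)) P = P :=
  lp_ext fun m => by rw [coeff_ren]; rfl

theorem ren_dP (σ : Equiv.Perm (Fin l)) (n : Fin l → Fin l → ℕ) :
    ren σ (dP fun a b => n (σ a) (σ b)) = dP n := by
  rw [dP, dP, map_prod]
  refine Finset.prod_equiv (σ.prodCongr σ) (fun p => by simp) fun p _ => ?_
  simp [ren_zv]

theorem ren_cross (h : ℕ) (σ : Equiv.Perm (Fin l)) (δ ε : Fin l → ℕ) :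
    ren σ (cross h (δ ∘ σ) (ε ∘ σ)) = cross h δ ε :=
  ren_dP σ fun a b => h * (min (δ a + ε a) (δ b + ε b) - min (δ a) (δ b) - min (ε a) (ε b))

theorem dD_perm (h : ℕ) (σ : Equiv.Perm (Fin l)) (γ : Fin l → ℕ) : dD h (γ ∘ σ) = dD h γ :=
  Finset.sum_equiv (σ.prodCongr σ) (fun p => by simp) fun p _ => rfl

theorem ren_PW (k : ℤ) (σ : Equiv.Perm (Fin l)) (δ : Fin l → ℕ) :
    ren σ (PW k (δ ∘ σ)) = PW k δ := by
  simp only [PW, map_sum, map_smul, ren_zv]
  exact Equiv.sum_comp σ fun a => (δ a : ℂ) • zv a k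

theorem ren_TW (k : ℤ) (σ : Equiv.Perm (Fin l)) (δ : Fin l → ℕ) :
    ren σ (TW k (δ ∘ σ)) = TW k δ := by
  rw [TW, ren_zz, TW]
  congr 1
  funext a
  simp

/-- Graded pieces along an additive weight. -/
abbrev Gr (φ : (Fin l → ℤ) →+ ℤ) (g : ℤ) : Submodule ℂ (LP l) := AddMonoidAlgebra.gradeBy ℂ φ g

theorem mem_Gr {φ : (Fin l → ℤ) →+ ℤ} {g : ℤ} {P : LP l} :
    P ∈ Gr φ g ↔ ∀ m, P.coeff m ≠ 0 → φ m = g :=
  ⟨fun h m hm => h m (Finsupp.mem_support_iff.mpr hm),
    fun h m hm => h m (Finsupp.mem_support_iff.mp hm)⟩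

/-- Total degree. -/
def tot : (Fin l → ℤ) →+ ℤ where
  toFun m := ∑ a, m a
  map_zero' := by simp
  map_add' m m' := by simp [Finset.sum_add_distrib]

/-- Degree in one variable. -/
def co (a : Fin l) : (Fin l → ℤ) →+ ℤ := Pi.evalAddMonoidHom (fun _ => ℤ) a

theorem zz_mem {φ : (Fin l → ℤ) →+ ℤ} {g : ℤ} {m : Fin l → ℤ} (h : φ m = g) : zz m ∈ Gr φ g :=
  h ▸ AddMonoidAlgebra.single_mem_gradeBy φ m 1

theorem Gr_mul {φ : (Fin l → ℤ) →+ ℤ} {g g' : ℤ} {P Q : LP l} (h : P ∈ Gr φ g) (h' : Q ∈ Gr φ g') :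
    P * Q ∈ Gr φ (g + g') := SetLike.mul_mem_graded h h'

theorem Gr_mul0 {φ : (Fin l → ℤ) →+ ℤ} {P Q : LP l} (h : P ∈ Gr φ 0) (h' : Q ∈ Gr φ 0) :
    P * Q ∈ Gr φ 0 := by simpa using Gr_mul h h'

theorem zv_tot (a : Fin l) (k : ℤ) : zv a k ∈ Gr tot k := zz_mem (by simp [tot])

theorem zv_co {a b : Fin l} (h : b ≠ a) (k : ℤ) : zv b k ∈ Gr (co a) 0 :=
  zz_mem (by simp [co, h.symm])

theorem dP_tot (n : Fin l → Fin l → ℕ) :
    dP n ∈ Gr tot (∑ p ∈ (univ : Finset (Fin l)).offDiag, (n p.1 p.2 : ℤ)) := by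
  have := SetLike.prod_pow_mem_graded (Gr (l := l) tot) (F := (univ : Finset (Fin l)).offDiag)
    (fun _ => (1 : ℤ)) (fun p => zv p.1 1 - zv p.2 1) (fun p => n p.1 p.2)
    fun p _ => Submodule.sub_mem _ (zv_tot _ _) (zv_tot _ _)
  simpa [dP] using this

theorem dP_co (a : Fin l) (n : Fin l → Fin l → ℕ) (h1 : ∀ b, n a b = 0) (h2 : ∀ b, n b a = 0) :
    dP n ∈ Gr (co a) 0 := by
  have := SetLike.prod_mem_graded (Gr (co a)) (F := (univ : Finset (Fin l)).offDiag)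
    (fun _ => (0 : ℤ)) (fun p => (zv p.1 1 - zv p.2 1) ^ n p.1 p.2) fun p _ => by
      by_cases ha : p.1 = a
      · rw [ha, h1, pow_zero]; exact SetLike.one_mem_graded _
      · by_cases hb : p.2 = a
        · rw [hb, h2, pow_zero]; exact SetLike.one_mem_graded _
        · simpa using SetLike.pow_mem_graded (n p.1 p.2)
            (Submodule.sub_mem _ (zv_co ha 1) (zv_co hb 1))
  simpa [dP] using this

theorem mem_AdmU {r : ℕ} {S : Fam l} : S ∈ AdmU l r ↔ (∀ γ, S γ ≠ 0 → ∑ a, γ a = r) ∧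
    (∀ γ a, γ a = 0 → S γ ∈ Gr (co a) 0) ∧
    ∀ (σ : Equiv.Perm (Fin l)) γ, ren σ (S (γ ∘ σ)) = S γ := by
  constructor
  · rintro ⟨h1, h2⟩
    refine ⟨fun γ hγ => ?_, fun γ a ha => mem_Gr.mpr fun m hm => (h1 γ m hm).2 a ha,
      fun σ γ => lp_ext fun m => by rw [coeff_ren, h2]⟩
    by_contra hne
    refine hγ (lp_ext fun m => ?_)
    by_contra hm
    exact hne (h1 γ m hm).1
  · rintro ⟨h1, h2, h3⟩
    refine ⟨fun γ m hm => ⟨h1 γ ?_, fun a ha => mem_Gr.mp (h2 γ a ha) m hm⟩,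
      fun σ γ m => by rw [← coeff_ren, h3]⟩
    intro h0
    exact hm (by rw [h0]; rfl)

theorem mem_Hom {h : ℕ} {d : ℤ} {S : Fam l} : S ∈ Hom l h d ↔ ∀ γ, S γ ∈ Gr tot (d + dD h γ) :=
  ⟨fun H γ => mem_Gr.mpr (H γ), fun H γ => mem_Gr.mp (H γ)⟩

theorem evP_zz (x : Fin l → ℂˣ) (m : Fin l → ℤ) : evP x (zz m) = ((∏ a, x a ^ m a : ℂˣ) : ℂ) := by
  simp [evP, zz]

theorem evP_zv (x : Fin l → ℂˣ) (a : Fin l) (k : ℤ) : evP x (zv a k) = ((x a ^ k : ℂˣ) : ℂ) := by
  rw [zv, evP_zz, Finset.prod_eq_single a (fun b _ hb => by simp [hb]) (by simp)]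
  simp

theorem prj_zz (Y : Finset (Fin l)) (m : Fin l → ℤ) :
    prj Y (zz m) = zz fun b => if b ∈ Y then m b else 0 := AddMonoidAlgebra.mapDomain_single

theorem sh_add_left (h : ℕ) (S T U : Fam l) : sh h (S + T) U = sh h S U + sh h T U := by
  funext γ; simp [sh, add_mul, mul_add, Finset.sum_add_distrib]

theorem sh_add_right (h : ℕ) (S T U : Fam l) : sh h U (S + T) = sh h U S + sh h U T := by
  funext γ; simp [sh, mul_add, Finset.sum_add_distrib]

theorem sh_smul_left (h : ℕ) (c : ℂ) (S U : Fam l) : sh h (c • S) U = c • sh h S U := by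
  funext γ; simp [sh, Finset.smul_sum]

theorem sh_smul_right (h : ℕ) (c : ℂ) (S U : Fam l) : sh h U (c • S) = c • sh h U S := by
  funext γ; simp [sh, Finset.smul_sum]

/-- The product as a bilinear map. -/
def shL (h : ℕ) : Fam l →ₗ[ℂ] Fam l →ₗ[ℂ] Fam l :=
  LinearMap.mk₂ ℂ (sh h) (sh_add_left h) (sh_smul_left h) (fun U S T => sh_add_right h S T U)
    fun c U S => sh_smul_right h c S U

theorem shL_apply (h : ℕ) (S U : Fam l) : shL h S U = sh h S U := rfl

/-- Symmetrisation as a linear map. -/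
def pureL (γ : Fin l → ℕ) : LP l →ₗ[ℂ] Fam l where
  toFun := pure γ
  map_add' P Q := by
    funext δ
    simp only [pure, Pi.add_apply, ← Finset.sum_add_distrib]
    exact Finset.sum_congr rfl fun σ _ => by split_ifs <;> simp
  map_smul' c P := by
    funext δ
    simp only [pure, Pi.smul_apply, Finset.smul_sum, RingHom.id_apply]
    exact Finset.sum_congr rfl fun σ _ => by split_ifs <;> simp

theorem pureL_apply (γ : Fin l → ℕ) (P : LP l) : pureL γ P = pure γ P := rfl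

end Pool.Agent.Lib.CC61.T39
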