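import Pool.Agent.Lib.CC61.GKit1
import Pool.Agent.Lib.CC61.GKit2
import Pool.Agent.Lib.CC61.GBlue
import Pool.Agent.Lib.CC61.AKit

open Filter Set Module

noncomputable section

namespace Pool.Agent.Lib.CC61.T39

open Pool.Agent.Lib.MP_cc3443_ag

variable {K : Type} [Field K] [Algebra ℂ K] [Algebra (RatFunc ℂ) K]
  [IsScalarTower ℂ (RatFunc ℂ) K] [FiniteDimensional (RatFunc ℂ) K] {N N' : ℕ}

lemma hasClass_bot_iff {V : Lat K N} {ν : Cl} : HasClass V ⊥ ν ↔ (rk V, dg V) = ν := by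
  rw [hasClass_iff_dg, Prod.ext_iff]
  simp

/-- The axioms shared by both kinds of words. -/
lemma axW_wv {a : Cl → Fn K} (ha : ∀ ν, Nice ν (a ν)) (h0 : a 0 = torsFn 0) :
    AxW (bun K) (wv K a) where
  cl_add := fun V W => Prod.ext (rk_oplus V.2 W.2) (dg_oplus V.2 W.2)
  box_ex := fun V => by
    obtain ⟨B, hB⟩ := exists_dg_bound V.2
    exact ⟨max B (-dg V.2), fun W hW => (hB W hW).trans (le_max_left _ _),
      neg_le.mp (le_max_right _ _)⟩
  box_mono := fun h hV => ⟨fun W hW => (hV.1 W hW).trans h, (neg_le_neg h).trans hV.2⟩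
  box_deg := fun hV => hV.2
  supp := fun h => (hasClass_bot_iff.mp ((nice_word ha _).supp h)).symm
  nil0 := fun V u v => by simp only [wv, word_nil0 ha h0]
  tail := fun hV h => by
    obtain ⟨G, h1, h2⟩ := word_tail ha h
    rw [← hasClass_bot_iff.mp h2]
    exact hV.1 G h1
  tail0 := fun h h3 => by
    obtain ⟨G, -, h2⟩ := word_tail ha h
    rw [← hasClass_bot_iff.mp h2] at h3 ⊢
    rw [eq_bot_of_rk h3]
    exact dg_bot

lemma isSum_oplus (V : Lat K N) (W : Lat K N') :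
    IsSum (oplus V W) ⊥ (oplus V ⊥) (oplus ⊥ W) := by
  refine isSum_iff.mpr ⟨le_bot_iff.mp ?_, le_antisymm
    (lsup_le (oplus_mono le_rfl bot_le) (oplus_mono bot_le le_rfl)) (oplus_le_iff.mpr ⟨?_, ?_⟩)⟩
  · rw [← oplus_bot]
    intro x w hw
    rw [mem_linf, mem_oplus, mem_oplus] at hw
    exact mem_oplus.mpr ⟨hw.2.1, hw.1.2⟩
  · rw [← oplus_bot_right]; exact le_lsup_left _ _
  · rw [← oplus_bot_left]; exact le_lsup_right _ _

variable (K) in
/-- The primitive functions. -/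
def PrimS : Submodule ℂ (Fn K) where
  carrier := {f | Prim f}
  add_mem' := fun ha hb N E F G₁ G₂ h => by
    simp only [Pi.add_apply, ha N E F G₁ G₂ h, hb N E F G₁ G₂ h]; ring
  zero_mem' := fun N E F G₁ G₂ _ => by simp
  smul_mem' := fun c _ ha N E F G₁ G₂ h => by
    simp only [Pi.smul_apply, ha N E F G₁ G₂ h, smul_eq_mul]; ring

variable (K) in
/-- The realisation as a linear map. -/
def rhoL : TA →ₗ[ℂ] Fn K where
  toFun := rho
  map_add' := fun s t => by funext N E F; exact map_add _ s t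
  map_smul' := fun c t => by funext N E F; exact map_smul (evT _) c t

omit [IsScalarTower ℂ (RatFunc ℂ) K] [FiniteDimensional (RatFunc ℂ) K] in
lemma rhoL_apply (t : TA) : rhoL K t = rho t := rfl

omit [IsScalarTower ℂ (RatFunc ℂ) K] [FiniteDimensional (RatFunc ℂ) K] in
lemma rank_eq_of_basis {H : Submodule ℂ (Fn K)} {n : ℕ} (z : Fin n → Fn K)
    (h1 : LinearIndependent ℂ z) (h2 : ∀ i, z i ∈ H ∧ Prim (z i))
    (h3 : ∀ f ∈ H, Prim f → f ∈ Submodule.span ℂ (range z)) :
    Module.rank ℂ (Submodule.span ℂ {f | f ∈ H ∧ Prim f}) = n := by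
  rw [le_antisymm (Submodule.span_le.mpr fun f hf => h3 f hf.1 hf.2)
    (Submodule.span_mono (range_subset_iff.mpr h2)), rank_span h1,
    Cardinal.mk_range_eq _ h1.injective, Cardinal.mk_fin]

end Pool.Agent.Lib.CC61.T39
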