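import Pool.Agent.Lib.CC61.ABlue

open Finset
open scoped TensorProduct

noncomputable section

namespace Pool.Agent.Lib.CC61.T59

/-- Basis word of the free algebra. -/
def bw (w : List Cl) : TA := (w.map (FreeAlgebra.ι ℂ)).prod

theorem bw_append (u v : List Cl) : bw (u ++ v) = bw u * bw v := by simp [bw]

theorem wd_append (u v : List Cl) : wd (u ++ v) = wd u * wd v := by simp [wd]

theorem wd_cons (ν : Cl) (v : List Cl) : wd (ν :: v) = sT ν * wd v := by simp [wd]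

theorem wd_eq_bw (w : List Cl) : wd w = bw (w.filter (· ≠ 0)) := by
  induction w with
  | nil => rfl
  | cons a w ih =>
    rw [wd_cons, ih]
    by_cases h : a = 0 <;> simp [h, sT, bw]

theorem basis_eq (w : FreeMonoid Cl) : FreeAlgebra.basisFreeMonoid ℂ Cl w = bw w.toList := by
  have : FreeAlgebra.basisFreeMonoid ℂ Cl w =
      FreeAlgebra.equivMonoidAlgebraFreeMonoid.symm (MonoidAlgebra.single w (1 : ℂ)) := by
    simp [FreeAlgebra.basisFreeMonoid]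
  rw [this]
  simp [FreeAlgebra.equivMonoidAlgebraFreeMonoid, FreeMonoid.lift_apply, bw]

theorem evT_bw (e : List Cl → ℂ) (w : List Cl) : evT e (bw w) = e w := by
  have := (FreeAlgebra.basisFreeMonoid ℂ Cl).constr_basis ℂ (fun w => e w.toList)
    (FreeMonoid.ofList w)
  rwa [basis_eq] at this

theorem span_bw : Submodule.span ℂ (Set.range bw) = ⊤ := by
  rw [eq_top_iff, ← (FreeAlgebra.basisFreeMonoid ℂ Cl).span_eq]
  refine Submodule.span_mono ?_
  rintro _ ⟨w, rfl⟩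
  exact ⟨_, (basis_eq w).symm⟩

/-- A linear functional that kills the basis words is zero. -/
theorem eq_zero_of_bw {M : Type} [AddCommGroup M] [Module ℂ M] (f : TA →ₗ[ℂ] M)
    (h : ∀ w, f (bw w) = 0) (t : TA) : f t = 0 := by
  have : f = 0 := LinearMap.ext_on_range span_bw h
  simp [this]

theorem ax_filter {X : Sys} {e : X.Λ → List Cl → ℂ} (h : AxW X e) (V : X.Λ) (w : List Cl) :
    ∀ u, e V (u ++ w.filter (· ≠ 0)) = e V (u ++ w) := by
  induction w with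
  | nil => simp
  | cons a w ih =>
    intro u
    by_cases ha : a = 0
    · subst ha
      rw [h.nil0, ← ih u]
      simp
    · have := ih (u ++ [a])
      simpa [ha] using this

theorem evT_wd {X : Sys} {e : X.Λ → List Cl → ℂ} (h : AxW X e) (V : X.Λ) (w : List Cl) :
    evT (e V) (wd w) = e V w := by
  rw [wd_eq_bw, evT_bw]
  simpa using ax_filter h V w []

theorem span_mul {A : Type} [Ring A] [Algebra ℂ A] {s t : Set A} {W : Submodule ℂ A}
    (h : ∀ x ∈ s, ∀ y ∈ t, x * y ∈ W) {x y : A} (hx : x ∈ Submodule.span ℂ s)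
    (hy : y ∈ Submodule.span ℂ t) : x * y ∈ W := by
  have : Submodule.span ℂ s * Submodule.span ℂ t ≤ W := by
    rw [Submodule.span_mul_span, Submodule.span_le]
    rintro _ ⟨x, hx, y, hy, rfl⟩
    exact h x hx y hy
  exact this (Submodule.mul_mem_mul hx hy)

theorem Tc_mul {μ ν : Cl} {x y : TA} (hx : x ∈ Tc μ) (hy : y ∈ Tc ν) : x * y ∈ Tc (μ + ν) := by
  refine span_mul ?_ hx hy
  rintro _ ⟨u, hu, rfl⟩ _ ⟨v, hv, rfl⟩
  refine Submodule.subset_span ⟨u ++ v, ⟨by rw [List.sum_append, hu.1, hv.1], fun a ha => ?_⟩,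
    wd_append u v⟩
  exact (List.mem_append.1 ha).elim (hu.2 a) (hv.2 a)

theorem Tm_mul {μ ν : Cl} {x y : TA} (hx : x ∈ Tm μ) (hy : y ∈ Tm ν) : x * y ∈ Tm (μ + ν) := by
  refine span_mul ?_ hx hy
  rintro _ ⟨u, hu, rfl⟩ _ ⟨v, hv, rfl⟩
  refine Submodule.subset_span ⟨u ++ v, ⟨by rw [List.sum_append, hu.1, hv.1],
    by simp [hu.2.1], fun a ha => ?_⟩, wd_append u v⟩
  exact (List.mem_append.1 ha).elim (hu.2.2 a) (hv.2.2 a)

theorem sT_mem_Tc {ν : Cl} (h : Val ν) : sT ν ∈ Tc ν :=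
  Submodule.subset_span ⟨[ν], ⟨by simp, by simpa using h⟩, by simp [wd]⟩

theorem sT_mem_Tm {ν : Cl} (h : 0 < ν.1) (h' : ν.2 ≤ 0) : sT ν ∈ Tm ν :=
  Submodule.subset_span ⟨[ν], ⟨by simp, by simp, by simpa using ⟨h, h'⟩⟩, by simp [wd]⟩

theorem mem_Pr {ν : Cl} {x : TA} : x ∈ Pr ν ↔ x ∈ Tc ν ∧ DT x = x ⊗ₜ[ℂ] 1 + 1 ⊗ₜ[ℂ] x := by
  simp [Pr, LinearMap.mem_eqLocus]

theorem Pr_comm {μ ν : Cl} {x y : TA} (hx : x ∈ Pr μ) (hy : y ∈ Pr ν) :
    x * y - y * x ∈ Pr (μ + ν) := by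
  rw [mem_Pr] at hx hy ⊢
  refine ⟨sub_mem (Tc_mul hx.1 hy.1) (add_comm μ ν ▸ Tc_mul hy.1 hx.1), ?_⟩
  rw [map_sub, map_mul, map_mul, hx.2, hy.2]
  simp only [add_mul, mul_add, Algebra.TensorProduct.tmul_mul_tmul, one_mul, mul_one,
    TensorProduct.sub_tmul, TensorProduct.tmul_sub]
  abel

theorem Val.add {μ ν : Cl} (h : Val μ) (h' : Val ν) : Val (μ + ν) := by
  simp only [Val, Prod.fst_add, Prod.snd_add] at *
  omega

theorem Val.add_ne {μ ν : Cl} (h : Val μ) (h' : Val ν) (h0 : μ ≠ 0) : μ + ν ≠ 0 := by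
  simp only [Val, Ne, Prod.ext_iff, Prod.fst_add, Prod.snd_add, Prod.fst_zero,
    Prod.snd_zero] at *
  omega

theorem PrP_mul {Q : List (Cl × TA) → Prop} (hQ : ∀ L L', Q L → Q L' → Q (L ++ L')) {μ ν : Cl}
    {x y : TA} (hx : x ∈ PrP Q μ) (hy : y ∈ PrP Q ν) : x * y ∈ PrP Q (μ + ν) := by
  refine span_mul ?_ hx hy
  rintro _ ⟨L, h1, h2, rfl, rfl⟩ _ ⟨L', h1', h2', rfl, rfl⟩
  exact Submodule.subset_span ⟨L ++ L', fun p hp => (List.mem_append.1 hp).elim (h1 p) (h1' p),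
    hQ _ _ h2 h2', by simp, by simp⟩

theorem DT_sT (ν : Cl) : DT (sT ν) = ∑ μ ∈ par ν, sT μ ⊗ₜ[ℂ] sT (ν - μ) := by
  by_cases h : ν = 0
  · subst h
    have : par 0 = {0} := by decide
    simp [this, sT, Algebra.TensorProduct.one_def]
  · simp [sT.eq_1 ν, h, DT]

end Pool.Agent.Lib.CC61.T59
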